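import Mathlib

section

set_option autoImplicit false

/-! # The heat kernel of the plane -/

open Real

namespace Pool.Agent.Lib.MP_f0c028_an.GW

open MeasureTheory Set Filter Topology
open scoped ENNReal InnerProductSpace

/-- The heat kernel of the plane. -/
noncomputable def gk (t : ℝ) (z : ℂ) : ℝ := (4 * π * t)⁻¹ * Real.exp (-(‖z‖ ^ 2 / (4 * t)))

theorem gk_pos {t : ℝ} (ht : 0 < t) (z : ℂ) : 0 < gk t z := by
  unfold gk
  positivity

theorem gk_neg (t : ℝ) (z : ℂ) : gk t (-z) = gk t z := by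
  unfold gk
  rw [norm_neg]

theorem gk_sub_comm (t : ℝ) (x y : ℂ) : gk t (x - y) = gk t (y - x) := by
  rw [← gk_neg, neg_sub]

theorem gk_cont (t : ℝ) : Continuous (gk t) := by
  unfold gk
  fun_prop

theorem gk_meas : Measurable fun q : ℝ × ℂ => gk q.1 q.2 := by
  unfold gk
  fun_prop

theorem gk_le {t : ℝ} (ht : 0 < t) (z : ℂ) : gk t z ≤ (4 * π * t)⁻¹ := by
  unfold gk
  have h1 : Real.exp (-(‖z‖ ^ 2 / (4 * t))) ≤ 1 := by
    rw [Real.exp_le_one_iff]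
    have : 0 ≤ ‖z‖ ^ 2 / (4 * t) := by positivity
    linarith
  have h2 : 0 ≤ (4 * π * t)⁻¹ := by positivity
  calc (4 * π * t)⁻¹ * Real.exp (-(‖z‖ ^ 2 / (4 * t))) ≤ (4 * π * t)⁻¹ * 1 := by gcongr
    _ = _ := mul_one _

theorem integral_gauss {b : ℝ} (hb : 0 < b) : ∫ z : ℂ, Real.exp (-(b * ‖z‖ ^ 2)) = π / b := by
  have h := GaussianFourier.integral_rexp_neg_mul_sq_norm (V := ℂ) hb
  rw [Complex.finrank_real_complex] at h
  norm_num at h
  exact h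

theorem integrable_gauss {b : ℝ} (hb : 0 < b) : Integrable fun z : ℂ => Real.exp (-(b * ‖z‖ ^ 2)) := by
  by_contra hcon
  have h := integral_gauss hb
  rw [integral_undef hcon] at h
  have : 0 < π / b := by positivity
  linarith

theorem gk_eq (t : ℝ) (z : ℂ) :
    gk t z = (4 * π * t)⁻¹ * Real.exp (-((4 * t)⁻¹ * ‖z‖ ^ 2)) := by
  unfold gk
  rw [div_eq_inv_mul]

theorem gk_int {t : ℝ} (ht : 0 < t) : Integrable (gk t) := by
  have h := (integrable_gauss (b := (4 * t)⁻¹) (by positivity)).const_mul (4 * π * t)⁻¹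
  exact h.congr (ae_of_all _ fun z => (gk_eq t z).symm)

theorem integral_gk {t : ℝ} (ht : 0 < t) : ∫ z, gk t z = 1 := by
  simp_rw [gk_eq t]
  rw [integral_const_mul, integral_gauss (by positivity)]
  have := Real.pi_pos
  field_simp

theorem gk_int_sub {t : ℝ} (ht : 0 < t) (x : ℂ) : Integrable fun y => gk t (x - y) :=
  (gk_int ht).comp_sub_left x

theorem integral_gk_sub {t : ℝ} (ht : 0 < t) (x : ℂ) : ∫ y, gk t (x - y) = 1 := by
  rw [integral_sub_left_eq_self (gk t) volume x, integral_gk ht]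

theorem gk_two_le {t : ℝ} (ht : 0 < t) (z : ℂ) : gk (2 * t) z ≤ 3 / 2 * gk (3 * t) z := by
  unfold gk
  have h1 : Real.exp (-(‖z‖ ^ 2 / (4 * (2 * t)))) ≤ Real.exp (-(‖z‖ ^ 2 / (4 * (3 * t)))) := by
    apply Real.exp_le_exp.mpr
    apply neg_le_neg
    apply div_le_div_of_nonneg_left (by positivity) (by positivity)
    nlinarith
  have h2 : (4 * π * (2 * t))⁻¹ = 3 / 2 * (4 * π * (3 * t))⁻¹ := by
    have := Real.pi_pos
    field_simp
  rw [h2, mul_assoc]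
  gcongr

/-- `|∂ G_t|² ≤ t⁻¹ G_t G_{2t}` -/
theorem gk_sq_le {t : ℝ} (ht : 0 < t) (z : ℂ) :
    ‖z‖ ^ 2 / (16 * t ^ 2) * gk t z ≤ t⁻¹ * gk (2 * t) z := by
  unfold gk
  set q := ‖z‖ ^ 2 / (8 * t) with hq
  have hq0 : 0 ≤ q := by positivity
  have h1 : ‖z‖ ^ 2 / (4 * t) = 2 * q := by
    rw [hq]
    field_simp
    ring
  have h2 : ‖z‖ ^ 2 / (4 * (2 * t)) = q := by
    rw [hq]
    congr 1
    ring
  have h3 : ‖z‖ ^ 2 / (16 * t ^ 2) = q / (2 * t) := by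
    rw [hq]
    field_simp
    ring
  rw [h1, h2, h3]
  have h4 : q * Real.exp (-(2 * q)) ≤ Real.exp (-q) := by
    have h5 : Real.exp (-(2 * q)) = Real.exp (-q) * Real.exp (-q) := by
      rw [← Real.exp_add]
      congr 1
      ring
    have h6 : q * Real.exp (-q) ≤ 1 := by
      have h7 : q ≤ Real.exp q := by linarith [Real.add_one_le_exp q]
      rw [Real.exp_neg]
      rw [mul_inv_le_iff₀ (Real.exp_pos q)]
      linarith
    rw [h5, ← mul_assoc]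
    calc q * Real.exp (-q) * Real.exp (-q) ≤ 1 * Real.exp (-q) := by gcongr
      _ = _ := one_mul _
  have h8 : (4 * π * (2 * t))⁻¹ = (4 * π * t)⁻¹ / 2 := by
    have := Real.pi_pos
    field_simp
  rw [h8]
  have h9 : 0 ≤ (4 * π * t)⁻¹ := by positivity
  have h10 : q / (2 * t) * ((4 * π * t)⁻¹ * Real.exp (-(2 * q))) =
      t⁻¹ * ((4 * π * t)⁻¹ / 2 * (q * Real.exp (-(2 * q)))) := by
    field_simp
  rw [h10]
  gcongr

/-- the semigroup property of the heat kernel -/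
theorem gk_conv {s t : ℝ} (hs : 0 < s) (ht : 0 < t) (x : ℂ) :
    ∫ y, gk s (x - y) * gk t y = gk (s + t) x := by
  have hst : 0 < s + t := by positivity
  have key : ∀ y : ℂ, gk s (x - y) * gk t y = ((4 * π * s)⁻¹ * (4 * π * t)⁻¹ *
      Real.exp (-(‖x‖ ^ 2 / (4 * (s + t))))) *
        Real.exp (-((s + t) / (4 * s * t) * ‖y - ((t / (s + t) : ℝ) : ℂ) * x‖ ^ 2)) := by
    intro y
    unfold gk
    have h1 : ‖x - y‖ ^ 2 / (4 * s) + ‖y‖ ^ 2 / (4 * t) = ‖x‖ ^ 2 / (4 * (s + t)) +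
        (s + t) / (4 * s * t) * ‖y - ((t / (s + t) : ℝ) : ℂ) * x‖ ^ 2 := by
      rw [← Complex.normSq_eq_norm_sq, ← Complex.normSq_eq_norm_sq, ← Complex.normSq_eq_norm_sq,
        ← Complex.normSq_eq_norm_sq, Complex.normSq_apply, Complex.normSq_apply,
        Complex.normSq_apply, Complex.normSq_apply]
      simp only [Complex.sub_re, Complex.sub_im, Complex.re_ofReal_mul, Complex.im_ofReal_mul]
      field_simp
      ring
    have h2 : -(‖x‖ ^ 2 / (4 * (s + t))) + -((s + t) / (4 * s * t) *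
        ‖y - ((t / (s + t) : ℝ) : ℂ) * x‖ ^ 2) = -(‖x - y‖ ^ 2 / (4 * s)) + -(‖y‖ ^ 2 / (4 * t)) := by
      linarith
    calc (4 * π * s)⁻¹ * Real.exp (-(‖x - y‖ ^ 2 / (4 * s))) *
          ((4 * π * t)⁻¹ * Real.exp (-(‖y‖ ^ 2 / (4 * t))))
        = (4 * π * s)⁻¹ * (4 * π * t)⁻¹ * Real.exp (-(‖x - y‖ ^ 2 / (4 * s)) +
          -(‖y‖ ^ 2 / (4 * t))) := by rw [Real.exp_add]; ring
      _ = _ := by rw [← h2, Real.exp_add]; ring
  simp_rw [key]
  rw [integral_const_mul,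
    integral_sub_right_eq_self (fun y : ℂ => Real.exp (-((s + t) / (4 * s * t) * ‖y‖ ^ 2))),
    integral_gauss (by positivity)]
  unfold gk
  have := Real.pi_pos
  field_simp

end Pool.Agent.Lib.MP_f0c028_an.GW
end

section

set_option autoImplicit false

/-! # TASK GW2: heat extensions of bounded functions

`ht_meas`, `hc_meas`: `StronglyMeasurable.integral_prod_right'` for `(q, y) ↦ gk q.1 (q.2 - y) * w y` on `(ℝ × ℂ) × ℂ` (`gk_meas`).
`gk_mul_int`, `gk_mul_intC`: `gk_int_sub` times a bounded measurable function (`Integrable.mul_bdd` or `Integrable.mono'`).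
`ht_le`, `le_ht`: `integral_gk_sub` and monotonicity of the integral.
`one_le_mul_ht`: `A = ht t w x`, `B = ht t (1/w) x`. For every real `c > 0`: `w + c / w ≥ 2 √c`; integrate against `gk t (x - y)`:
`A + c B ≥ 2 √c`; take `c = A / B`: `2 A ≥ 2 √(A/B)`, so `A B ≥ 1`. (Or `c = r²`: `w + r² / w ≥ 2 r`, `r = 1/B`: `A + 1/B ≥ 2/B`.)
`ht_two_le`: `gk_two_le`. `hc_le`: the norm of the integral, `integral_gk_sub`. -/

open Real

namespace Pool.Agent.Lib.MP_f0c028_an.GW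

open MeasureTheory Set Filter Topology
open scoped ENNReal InnerProductSpace

/-- The heat extension of a real function. -/
noncomputable def ht (t : ℝ) (w : ℂ → ℝ) (x : ℂ) : ℝ := ∫ y, gk t (x - y) * w y

/-- The heat extension of a complex function. -/
noncomputable def hc (t : ℝ) (f : ℂ → ℂ) (x : ℂ) : ℂ := ∫ y, (gk t (x - y) : ℂ) * f y

/-- Weights which are bounded and bounded below. -/
structure Bw (w : ℂ → ℝ) (n : ℝ) : Prop where
  meas : Measurable w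
  pos : 0 < n
  le : ∀ z, w z ≤ n
  ge : ∀ z, n⁻¹ ≤ w z

/-- Bounded integrable functions. -/
structure Bf (f : ℂ → ℂ) (M : ℝ) : Prop where
  meas : Measurable f
  le : ∀ z, ‖f z‖ ≤ M
  int : Integrable f

theorem Bw.wpos {w : ℂ → ℝ} {n : ℝ} (h : Bw w n) (z : ℂ) : 0 < w z :=
  (inv_pos.mpr h.pos).trans_le (h.ge z)

theorem Bw.inv {w : ℂ → ℝ} {n : ℝ} (h : Bw w n) : Bw (fun z => (w z)⁻¹) n where
  meas := h.meas.inv
  pos := h.pos
  le z := by
    have h1 := inv_anti₀ (inv_pos.mpr h.pos) (h.ge z)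
    rwa [inv_inv] at h1
  ge z := inv_anti₀ (h.wpos z) (h.le z)

theorem ht_meas {w : ℂ → ℝ} (hw : Measurable w) : Measurable fun q : ℝ × ℂ => ht q.1 w q.2 := by
  have h1 : Measurable fun p : (ℝ × ℂ) × ℂ => gk p.1.1 (p.1.2 - p.2) * w p.2 := by
    have h2 : Measurable fun p : (ℝ × ℂ) × ℂ => gk p.1.1 (p.1.2 - p.2) :=
      gk_meas.comp (by fun_prop : Measurable fun p : (ℝ × ℂ) × ℂ => (p.1.1, p.1.2 - p.2))
    exact h2.mul (hw.comp measurable_snd)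
  exact (h1.stronglyMeasurable.integral_prod_right' (ν := (volume : Measure ℂ))).measurable

theorem hc_meas {f : ℂ → ℂ} (hf : Measurable f) : Measurable fun q : ℝ × ℂ => hc q.1 f q.2 := by
  have h1 : Measurable fun p : (ℝ × ℂ) × ℂ => (gk p.1.1 (p.1.2 - p.2) : ℂ) * f p.2 := by
    have h2 : Measurable fun p : (ℝ × ℂ) × ℂ => gk p.1.1 (p.1.2 - p.2) :=
      gk_meas.comp (by fun_prop : Measurable fun p : (ℝ × ℂ) × ℂ => (p.1.1, p.1.2 - p.2))
    exact (Complex.measurable_ofReal.comp h2).mul (hf.comp measurable_snd)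
  exact (h1.stronglyMeasurable.integral_prod_right' (ν := (volume : Measure ℂ))).measurable

/-- integrability against the heat kernel -/
theorem gk_mul_int {t : ℝ} (ht0 : 0 < t) {u : ℂ → ℝ} (hu : Measurable u) {M : ℝ}
    (hM : ∀ z, |u z| ≤ M) (x : ℂ) : Integrable fun y => gk t (x - y) * u y :=
  (gk_int_sub ht0 x).mul_bdd (c := M) hu.aestronglyMeasurable
    (ae_of_all _ fun z => by rw [Real.norm_eq_abs]; exact hM z)

theorem gk_mul_intC {t : ℝ} (ht0 : 0 < t) {u : ℂ → ℂ} (hu : Measurable u) {M : ℝ}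
    (hM : ∀ z, ‖u z‖ ≤ M) (x : ℂ) : Integrable fun y => (gk t (x - y) : ℂ) * u y :=
  (gk_int_sub ht0 x).ofReal.mul_bdd (c := M) hu.aestronglyMeasurable (ae_of_all _ hM)

private theorem GW2_abs_le {w : ℂ → ℝ} {n : ℝ} (h : Bw w n) (z : ℂ) : |w z| ≤ n := by
  rw [abs_of_pos (h.wpos z)]
  exact h.le z

theorem ht_le {w : ℂ → ℝ} {n : ℝ} (h : Bw w n) {t : ℝ} (ht0 : 0 < t) (x : ℂ) : ht t w x ≤ n := by
  have h1 : ht t w x ≤ ∫ y, gk t (x - y) * n := by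
    refine integral_mono (gk_mul_int ht0 h.meas (GW2_abs_le h) x) ((gk_int_sub ht0 x).mul_const n)
      fun y => ?_
    exact mul_le_mul_of_nonneg_left (h.le y) (gk_pos ht0 _).le
  rwa [integral_mul_const, integral_gk_sub ht0, one_mul] at h1

theorem le_ht {w : ℂ → ℝ} {n : ℝ} (h : Bw w n) {t : ℝ} (ht0 : 0 < t) (x : ℂ) :
    n⁻¹ ≤ ht t w x := by
  have h1 : ∫ y, gk t (x - y) * n⁻¹ ≤ ht t w x := by
    refine integral_mono ((gk_int_sub ht0 x).mul_const n⁻¹) (gk_mul_int ht0 h.meas (GW2_abs_le h) x)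
      fun y => ?_
    exact mul_le_mul_of_nonneg_left (h.ge y) (gk_pos ht0 _).le
  rwa [integral_mul_const, integral_gk_sub ht0, one_mul] at h1

theorem ht_pos {w : ℂ → ℝ} {n : ℝ} (h : Bw w n) {t : ℝ} (ht0 : 0 < t) (x : ℂ) : 0 < ht t w x :=
  (inv_pos.mpr h.pos).trans_le (le_ht h ht0 x)

theorem one_le_mul_ht {w : ℂ → ℝ} {n : ℝ} (h : Bw w n) {t : ℝ} (ht0 : 0 < t) (x : ℂ) :
    1 ≤ ht t (fun z => (w z)⁻¹) x * ht t w x := by
  have hA := ht_pos h ht0 x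
  have hB := ht_pos h.inv ht0 x
  set A := ht t w x with hAdef
  set B := ht t (fun z => (w z)⁻¹) x with hBdef
  have i1 := gk_mul_int ht0 h.meas (GW2_abs_le h) x
  have i2 := gk_mul_int ht0 h.inv.meas (GW2_abs_le h.inv) x
  have h1 : ∫ y, gk t (x - y) * (2 * B⁻¹) ≤
      ∫ y, (gk t (x - y) * w y + (B⁻¹) ^ 2 * (gk t (x - y) * (w y)⁻¹)) := by
    refine integral_mono ((gk_int_sub ht0 x).mul_const _) (i1.add (i2.const_mul _)) fun y => ?_
    have hw := h.wpos y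
    have h2 : 2 * B⁻¹ ≤ w y + (B⁻¹) ^ 2 * (w y)⁻¹ := by
      have h3 : w y + (B⁻¹) ^ 2 * (w y)⁻¹ - 2 * B⁻¹ = (w y - B⁻¹) ^ 2 * (w y)⁻¹ := by
        field_simp
        ring
      have h4 : 0 ≤ (w y - B⁻¹) ^ 2 * (w y)⁻¹ := by positivity
      linarith
    have h5 := mul_le_mul_of_nonneg_left h2 (gk_pos ht0 (x - y)).le
    calc gk t (x - y) * (2 * B⁻¹) ≤ gk t (x - y) * (w y + (B⁻¹) ^ 2 * (w y)⁻¹) := h5
      _ = _ := by ring
  rw [integral_mul_const, integral_gk_sub ht0, one_mul, integral_add i1 (i2.const_mul _),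
    integral_const_mul] at h1
  change 2 * B⁻¹ ≤ A + (B⁻¹) ^ 2 * B at h1
  have h6 : (B⁻¹) ^ 2 * B = B⁻¹ := by field_simp
  rw [h6] at h1
  have h7 : B⁻¹ ≤ A := by linarith
  calc (1 : ℝ) = B * B⁻¹ := (mul_inv_cancel₀ hB.ne').symm
    _ ≤ B * A := mul_le_mul_of_nonneg_left h7 hB.le

theorem ht_two_le {w : ℂ → ℝ} {n : ℝ} (h : Bw w n) {t : ℝ} (ht0 : 0 < t) (x : ℂ) :
    ht (2 * t) w x ≤ 3 / 2 * ht (3 * t) w x := by
  have i2 := gk_mul_int (t := 2 * t) (by positivity) h.meas (GW2_abs_le h) x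
  have i3 := gk_mul_int (t := 3 * t) (by positivity) h.meas (GW2_abs_le h) x
  unfold ht
  rw [← integral_const_mul]
  refine integral_mono i2 (i3.const_mul _) fun y => ?_
  have h1 := mul_le_mul_of_nonneg_right (gk_two_le ht0 (x - y)) (h.wpos y).le
  calc gk (2 * t) (x - y) * w y ≤ 3 / 2 * gk (3 * t) (x - y) * w y := h1
    _ = _ := by ring

theorem hc_le {f : ℂ → ℂ} {M : ℝ} (h : Bf f M) {t : ℝ} (ht0 : 0 < t) (x : ℂ) :
    ‖hc t f x‖ ≤ M := by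
  unfold hc
  have h1 : ‖∫ y, (gk t (x - y) : ℂ) * f y‖ ≤ ∫ y, gk t (x - y) * M := by
    refine norm_integral_le_of_norm_le ((gk_int_sub ht0 x).mul_const M) (ae_of_all _ fun y => ?_)
    rw [norm_mul, Complex.norm_real, Real.norm_eq_abs, abs_of_pos (gk_pos ht0 _)]
    exact mul_le_mul_of_nonneg_left (h.le y) (gk_pos ht0 _).le
  rwa [integral_mul_const, integral_gk_sub ht0, one_mul] at h1

end Pool.Agent.Lib.MP_f0c028_an.GW
end

section

set_option autoImplicit false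

/-! # TASK GW2b: semigroup property, Tonelli, Cauchy-Schwarz

`ht_semi`, `hc_semi`: Fubini (`integral_integral_swap`), `gk_conv` (translated: `∫ y, gk s (x - y) * gk t (y - z) = gk (s + t) (x - z)`), absolute
convergence as `w` resp. `f` is bounded (`∫∫ gk s (x-y) gk t (y-z) dz dy = 1`).
`hc_integrable`: `∫∫ gk t (x-y) |f y| dx dy = ∫ |f| < ∞` (Tonelli; `Integrable.integral_prod_right` for the integrable function
`(x, y) ↦ gk t (x - y) * f y` on `ℂ × ℂ`, or Mathlib's convolution `Integrable.integrable_convolution`).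
`lint_ht`: `ofReal_integral_eq_lintegral_ofReal`, Tonelli in `ℝ≥0∞` (`lintegral_lintegral_swap`), `∫⁻ x, ofReal (gk t (x - y)) = 1`.
`hc_sq_le`: Cauchy-Schwarz `|∫ gk f|² ≤ (∫ gk |f|² w) (∫ gk / w)`: with `V = ∫ gk / w > 0`, `F = ∫ gk |f|² w`, and for every real `c > 0`:
`2 |f| ≤ c |f|² w + 1/(c w)`, so `2 |hc| ≤ c F + V / c`; take `c = V/|hc|` (if `hc ≠ 0`): `|hc|² ≤ V F`. -/

open Real

namespace Pool.Agent.Lib.MP_f0c028_an.GW

open MeasureTheory Set Filter Topology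
open scoped ENNReal InnerProductSpace

private theorem GW2b_conv {s t : ℝ} (hs : 0 < s) (ht0 : 0 < t) (x z : ℂ) :
    ∫ y, gk s (x - y) * gk t (y - z) = gk (s + t) (x - z) := by
  have h1 : ∀ y : ℂ, gk s (x - y) * gk t (y - z) =
      (fun y' : ℂ => gk s (x - z - y') * gk t y') (y - z) := by
    intro y
    simp only
    congr 2
    ring
  simp_rw [h1]
  rw [integral_sub_right_eq_self (fun y' : ℂ => gk s (x - z - y') * gk t y') z]
  exact gk_conv hs ht0 (x - z)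

private theorem GW2b_int_right {t : ℝ} (ht0 : 0 < t) (z : ℂ) :
    Integrable fun x => gk t (x - z) := (gk_int ht0).comp_sub_right z

private theorem GW2b_integral_right {t : ℝ} (ht0 : 0 < t) (z : ℂ) :
    ∫ x, gk t (x - z) = 1 := by
  rw [integral_sub_right_eq_self (gk t) z, integral_gk ht0]

private theorem GW2b_prod {E : Type*} [NormedAddCommGroup E] [NormedSpace ℝ E]
    {u : ℂ → E} (hu : StronglyMeasurable u) {M : ℝ} (hM : ∀ z, ‖u z‖ ≤ M) {s t : ℝ} (hs : 0 < s)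
    (ht0 : 0 < t) (x : ℂ) :
    Integrable (Function.uncurry fun y z : ℂ => (gk s (x - y) * gk t (y - z)) • u z)
      (volume.prod volume) := by
  have hcs : Continuous fun p : ℂ × ℂ => gk s (x - p.1) * gk t (p.1 - p.2) :=
    ((gk_cont s).comp (by fun_prop)).mul ((gk_cont t).comp (by fun_prop))
  have hG : Integrable (fun p : ℂ × ℂ => gk s (x - p.1) * gk t (p.1 - p.2))
      (volume.prod volume) := by
    rw [integrable_prod_iff hcs.aestronglyMeasurable]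
    refine ⟨ae_of_all _ fun y => (gk_int_sub ht0 y).const_mul (gk s (x - y)), ?_⟩
    have h2 : ∀ y : ℂ, ∫ z, ‖gk s (x - y) * gk t (y - z)‖ = gk s (x - y) := by
      intro y
      have h3 : ∀ z : ℂ, ‖gk s (x - y) * gk t (y - z)‖ = gk s (x - y) * gk t (y - z) := fun z =>
        Real.norm_of_nonneg (mul_nonneg (gk_pos hs _).le (gk_pos ht0 _).le)
      simp_rw [h3]
      rw [integral_const_mul, integral_gk_sub ht0, mul_one]
    simp only [h2]
    exact gk_int_sub hs x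
  refine (hG.mul_const M).mono' ?_ (ae_of_all _ fun p => ?_)
  · exact (hcs.stronglyMeasurable.smul (hu.comp_measurable measurable_snd)).aestronglyMeasurable
  · simp only [Function.uncurry]
    rw [norm_smul, Real.norm_of_nonneg (mul_nonneg (gk_pos hs _).le (gk_pos ht0 _).le)]
    have h4 : 0 ≤ gk s (x - p.1) * gk t (p.1 - p.2) :=
      mul_nonneg (gk_pos hs _).le (gk_pos ht0 _).le
    exact mul_le_mul_of_nonneg_left (hM _) h4

private theorem GW2b_semi {E : Type*} [NormedAddCommGroup E] [NormedSpace ℝ E] [CompleteSpace E]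
    {u : ℂ → E} (hu : StronglyMeasurable u) {M : ℝ} (hM : ∀ z, ‖u z‖ ≤ M) {s t : ℝ} (hs : 0 < s)
    (ht0 : 0 < t) (x : ℂ) :
    ∫ y, gk s (x - y) • ∫ z, gk t (y - z) • u z = ∫ z, gk (s + t) (x - z) • u z := by
  have h1 : ∀ y : ℂ, gk s (x - y) • ∫ z, gk t (y - z) • u z =
      ∫ z, (gk s (x - y) * gk t (y - z)) • u z := by
    intro y
    rw [← integral_smul]
    simp only [smul_smul]
  simp_rw [h1]
  rw [integral_integral_swap (GW2b_prod hu hM hs ht0 x)]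
  congr 1
  funext z
  rw [integral_smul_const, GW2b_conv hs ht0]

theorem ht_semi {w : ℂ → ℝ} {n : ℝ} (h : Bw w n) {s t : ℝ} (hs : 0 < s) (ht0 : 0 < t) (x : ℂ) :
    ∫ y, gk s (x - y) * ht t w y = ht (s + t) w x := by
  have hM : ∀ z, ‖w z‖ ≤ n := fun z => by
    rw [Real.norm_of_nonneg (h.wpos z).le]
    exact h.le z
  have h1 := GW2b_semi h.meas.stronglyMeasurable hM hs ht0 x
  simp only [smul_eq_mul] at h1
  unfold ht
  exact h1

theorem hc_semi {f : ℂ → ℂ} {M : ℝ} (h : Bf f M) {s t : ℝ} (hs : 0 < s) (ht0 : 0 < t) (x : ℂ) :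
    ∫ y, (gk s (x - y) : ℂ) * hc t f y = hc (s + t) f x := by
  have h1 := GW2b_semi h.meas.stronglyMeasurable h.le hs ht0 x
  simp only [Complex.real_smul] at h1
  unfold hc
  exact h1

theorem hc_integrable {f : ℂ → ℂ} {M : ℝ} (h : Bf f M) {t : ℝ} (ht0 : 0 < t) :
    Integrable (hc t f) := by
  have hc1 : Continuous fun p : ℂ × ℂ => (gk t (p.1 - p.2) : ℂ) :=
    Complex.continuous_ofReal.comp ((gk_cont t).comp (by fun_prop))
  have hH : Integrable (fun p : ℂ × ℂ => (gk t (p.1 - p.2) : ℂ) * f p.2)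
      (volume.prod volume) := by
    have hsm : StronglyMeasurable fun p : ℂ × ℂ => (gk t (p.1 - p.2) : ℂ) * f p.2 :=
      hc1.stronglyMeasurable.mul (h.meas.stronglyMeasurable.comp_measurable measurable_snd)
    rw [integrable_prod_iff' hsm.aestronglyMeasurable]
    refine ⟨ae_of_all _ fun y => ((GW2b_int_right ht0 y).ofReal).mul_const (f y), ?_⟩
    have h2 : ∀ y : ℂ, ∫ x, ‖(gk t (x - y) : ℂ) * f y‖ = ‖f y‖ := by
      intro y
      have h3 : ∀ x : ℂ, ‖(gk t (x - y) : ℂ) * f y‖ = gk t (x - y) * ‖f y‖ := fun x => by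
        rw [norm_mul, Complex.norm_of_nonneg (gk_pos ht0 _).le]
      simp_rw [h3]
      rw [integral_mul_const, GW2b_integral_right ht0, one_mul]
    simp only [h2]
    exact h.int.norm
  exact hH.integral_prod_left

theorem lint_ht {u : ℂ → ℝ} (hu : Measurable u) (hu0 : ∀ z, 0 ≤ u z) {M : ℝ} (hM : ∀ z, u z ≤ M)
    {t : ℝ} (ht0 : 0 < t) :
    ∫⁻ x, ENNReal.ofReal (∫ y, gk t (x - y) * u y) = ∫⁻ y, ENNReal.ofReal (u y) := by
  have habs : ∀ z, |u z| ≤ M := fun z => by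
    rw [abs_of_nonneg (hu0 z)]
    exact hM z
  have h1 : ∀ x : ℂ, ENNReal.ofReal (∫ y, gk t (x - y) * u y) =
      ∫⁻ y, ENNReal.ofReal (gk t (x - y)) * ENNReal.ofReal (u y) := by
    intro x
    rw [ofReal_integral_eq_lintegral_ofReal (gk_mul_int ht0 hu habs x)
      (ae_of_all _ fun y => mul_nonneg (gk_pos ht0 _).le (hu0 y))]
    congr 1
    funext y
    exact ENNReal.ofReal_mul (gk_pos ht0 _).le
  simp_rw [h1]
  have hcm : Measurable fun p : ℂ × ℂ => gk t (p.1 - p.2) :=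
    ((gk_cont t).comp (by fun_prop : Continuous fun p : ℂ × ℂ => p.1 - p.2)).measurable
  rw [lintegral_lintegral_swap (by
    have : Measurable fun p : ℂ × ℂ => ENNReal.ofReal (gk t (p.1 - p.2)) * ENNReal.ofReal (u p.2) :=
      hcm.ennreal_ofReal.mul (hu.comp measurable_snd).ennreal_ofReal
    exact this.aemeasurable)]
  congr 1
  funext y
  have hm1 : Measurable fun x : ℂ => ENNReal.ofReal (gk t (x - y)) :=
    ((gk_cont t).comp (by fun_prop : Continuous fun x : ℂ => x - y)).measurable.ennreal_ofReal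
  rw [lintegral_mul_const _ hm1]
  rw [← ofReal_integral_eq_lintegral_ofReal (GW2b_int_right ht0 y)
    (ae_of_all _ fun x => (gk_pos ht0 _).le), GW2b_integral_right ht0, ENNReal.ofReal_one, one_mul]

theorem hc_sq_le {w : ℂ → ℝ} {n : ℝ} (h : Bw w n) {f : ℂ → ℂ} {M : ℝ} (hf : Bf f M) {t : ℝ}
    (ht0 : 0 < t) (x : ℂ) :
    ‖hc t f x‖ ^ 2 ≤ (∫ y, gk t (x - y) * (‖f y‖ ^ 2 * w y)) * ht t (fun z => (w z)⁻¹) x := by
  set V := ht t (fun z => (w z)⁻¹) x with hV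
  set F := ∫ y, gk t (x - y) * (‖f y‖ ^ 2 * w y) with hF
  have hV0 : 0 < V := ht_pos h.inv ht0 x
  have hF0 : 0 ≤ F := integral_nonneg fun y => by
    have := (gk_pos ht0 (x - y)).le
    have := (h.wpos y).le
    positivity
  have hFint : Integrable fun y => gk t (x - y) * (‖f y‖ ^ 2 * w y) := by
    refine gk_mul_int ht0 ((hf.meas.norm.pow_const 2).mul h.meas) (M := M ^ 2 * n) (fun z => ?_) x
    have h1 := (h.wpos z).le
    change |‖f z‖ ^ 2 * w z| ≤ M ^ 2 * n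
    rw [abs_of_nonneg (mul_nonneg (sq_nonneg _) h1)]
    have h2 : ‖f z‖ ^ 2 ≤ M ^ 2 := pow_le_pow_left₀ (norm_nonneg _) (hf.le z) 2
    exact mul_le_mul h2 (h.le z) h1 (sq_nonneg M)
  have hVint : Integrable fun y => gk t (x - y) * (w y)⁻¹ := by
    refine gk_mul_int ht0 (u := fun z => (w z)⁻¹) h.meas.inv (M := n) (fun z => ?_) x
    have h1 := (inv_pos.mpr (h.wpos z)).le
    rw [abs_of_nonneg h1]
    exact h.inv.le z
  have hfint : Integrable fun y => gk t (x - y) * ‖f y‖ := by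
    refine gk_mul_int ht0 hf.meas.norm (M := M) (fun z => ?_) x
    rw [abs_norm]
    exact hf.le z
  have hnorm : ‖hc t f x‖ ≤ ∫ y, gk t (x - y) * ‖f y‖ := by
    unfold hc
    refine (norm_integral_le_integral_norm _).trans (le_of_eq ?_)
    congr 1
    funext y
    rw [norm_mul, Complex.norm_of_nonneg (gk_pos ht0 _).le]
  have key : ∀ c : ℝ, 0 < c → 2 * ‖hc t f x‖ ≤ c * F + c⁻¹ * V := by
    intro c hc0
    calc 2 * ‖hc t f x‖ ≤ 2 * ∫ y, gk t (x - y) * ‖f y‖ := by gcongr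
      _ = ∫ y, 2 * (gk t (x - y) * ‖f y‖) := by rw [integral_const_mul]
      _ ≤ ∫ y, (c * (gk t (x - y) * (‖f y‖ ^ 2 * w y)) + c⁻¹ * (gk t (x - y) * (w y)⁻¹)) := by
        refine integral_mono (hfint.const_mul 2) ((hFint.const_mul c).add (hVint.const_mul c⁻¹))
          fun y => ?_
        have hw0 := h.wpos y
        have hg := (gk_pos ht0 (x - y)).le
        have h5 : 2 * ‖f y‖ ≤ c * (‖f y‖ ^ 2 * w y) + c⁻¹ * (w y)⁻¹ := by
          have h6 : c * (‖f y‖ ^ 2 * w y) + c⁻¹ * (w y)⁻¹ - 2 * ‖f y‖ =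
              (c * w y * ‖f y‖ - 1) ^ 2 * (c * w y)⁻¹ := by
            field_simp
            ring
          have h7 : 0 ≤ (c * w y * ‖f y‖ - 1) ^ 2 * (c * w y)⁻¹ := by positivity
          linarith
        calc 2 * (gk t (x - y) * ‖f y‖) = gk t (x - y) * (2 * ‖f y‖) := by ring
          _ ≤ gk t (x - y) * (c * (‖f y‖ ^ 2 * w y) + c⁻¹ * (w y)⁻¹) := by gcongr
          _ = _ := by ring
      _ = c * F + c⁻¹ * V := by
        rw [integral_add (hFint.const_mul c) (hVint.const_mul c⁻¹), integral_const_mul,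
          integral_const_mul]
        rfl
  rcases eq_or_ne (hc t f x) 0 with h0 | h0
  · rw [h0, norm_zero]
    have : 0 ≤ F * V := mul_nonneg hF0 hV0.le
    simpa using this
  · have hn : 0 < ‖hc t f x‖ := norm_pos_iff.mpr h0
    have h8 := key (V / ‖hc t f x‖) (by positivity)
    have h9 : V / ‖hc t f x‖ * F + (V / ‖hc t f x‖)⁻¹ * V = F * V / ‖hc t f x‖ + ‖hc t f x‖ := by
      field_simp
    rw [h9] at h8
    have h10 : ‖hc t f x‖ ≤ F * V / ‖hc t f x‖ := by linarith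
    rw [le_div_iff₀ hn] at h10
    calc ‖hc t f x‖ ^ 2 = ‖hc t f x‖ * ‖hc t f x‖ := by ring
      _ ≤ F * V := h10

end Pool.Agent.Lib.MP_f0c028_an.GW
end

section

set_option autoImplicit false

/-! # TASK GW3: the Bellman function

With `a = √x`, `b = √(L / y)` (so `x = a²`, `y = L / b²`), and `A, B` the same for `(x', y')`:
`Nf = (b - a)²`, and (pure algebra, with `x' = A²`, `1 / y' = B² / L`)
`Nf' - Nf - Nx (x' - x) - Ny (y' - y) = (B - A)² + (b - a) (A² / a + b³ / B² - 2 b)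
  = ((B - A) - (b - a))² + (b - a) (A - a)² / a + (b - a) (b - B)² (b + 2 B) / B²`.
All three terms are nonnegative. `4 x y ≤ L` gives `b ≥ 2 a`, so `b - a ≥ a` and the second term is at least `(A - a)²`, and
`(x' - x)² = (A - a)² (A + a)² ≤ 2 (x + x') (A - a)²`. `(Nf' - Nf)² = ((B - A) - (b - a))² ((B - A) + (b - a))²`, where
`(B - A + b - a)² ≤ (B + b)² ≤ 2 (B² + b²) = 2 L (1 / y' + 1 / y) ≤ 2 L (x' + x)` (`1 ≤ x y`, and `0 ≤ B - A ≤ B`, `0 ≤ b - a ≤ b`).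
`(sf' - sf)² = (2 (x' - x) - (Nf' - Nf) / L)² ≤ 8 (x' - x)² + 2 (Nf' - Nf)² / L² ≤ (16 + 4 / L) (x + x') gain ≤ 17 (x + x') gain`
as `L ≥ 4`. Bounds: `0 ≤ Nf ≤ b² = L / y ≤ L x`. -/

open Real

namespace Pool.Agent.Lib.MP_f0c028_an.GW

/-- The convex function of the Bellman argument. -/
noncomputable def Nf (L x y : ℝ) : ℝ := (√(L / y) - √x) ^ 2

/-- Its partial derivative in `x`. -/
noncomputable def Nx (L x y : ℝ) : ℝ := -((√(L / y) - √x) / √x)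

/-- Its partial derivative in `y`. -/
noncomputable def Ny (L x y : ℝ) : ℝ := -((√(L / y) - √x) * √(L / y) ^ 3 / L)

/-- The concave function of the Bellman argument. -/
noncomputable def sf (L x y : ℝ) : ℝ := 2 * x - Nf L x y / L

private theorem sqrt_facts {L x y : ℝ} (hx : 0 < x) (hy : 0 < y) (h1 : 1 ≤ x * y)
    (h2 : 4 * (x * y) ≤ L) : 0 < √x ∧ √x ^ 2 = x ∧ √(L / y) ^ 2 = L / y ∧ 2 * √x ≤ √(L / y) ∧
      √(L / y) ^ 2 ≤ L * √x ^ 2 := by
  have hL : 0 < L := by nlinarith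
  have hLy : 0 ≤ L / y := by positivity
  have e1 : √x ^ 2 = x := Real.sq_sqrt hx.le
  have e2 : √(L / y) ^ 2 = L / y := Real.sq_sqrt hLy
  refine ⟨Real.sqrt_pos.mpr hx, e1, e2, ?_, ?_⟩
  · apply Real.le_sqrt_of_sq_le
    rw [mul_pow, e1, le_div_iff₀ hy]
    linarith
  · rw [e1, e2, div_le_iff₀ hy]
    nlinarith

theorem sf_bounds {L x y : ℝ} (hx : 0 < x) (hy : 0 < y) (h1 : 1 ≤ x * y) (h2 : 4 * (x * y) ≤ L) :
    x ≤ sf L x y ∧ sf L x y ≤ 2 * x := by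
  obtain ⟨ha, e1, e2, hb, hb1⟩ := sqrt_facts hx hy h1 h2
  have hL : 0 < L := by nlinarith
  have h3 : Nf L x y ≤ L * x := by
    unfold Nf
    rw [e1] at hb1
    nlinarith
  have h4 : 0 ≤ Nf L x y := sq_nonneg _
  have h5 : Nf L x y / L ≤ x := by
    rw [div_le_iff₀ hL]
    linarith
  have h6 : 0 ≤ Nf L x y / L := by positivity
  unfold sf
  constructor <;> linarith

private theorem core {L a b A B : ℝ} (hL : 4 ≤ L) (ha : 0 < a) (hA : 0 < A) (hb : 2 * a ≤ b)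
    (hB : 2 * A ≤ B) (hb1 : b ^ 2 ≤ L * a ^ 2) (hB1 : B ^ 2 ≤ L * A ^ 2) :
    ((2 * A ^ 2 - (B - A) ^ 2 / L) - (2 * a ^ 2 - (b - a) ^ 2 / L)) ^ 2 / (20 * (a ^ 2 + A ^ 2)) ≤
      (B - A) ^ 2 - (b - a) ^ 2 - -((b - a) / a) * (A ^ 2 - a ^ 2) -
        -((b - a) * b ^ 3 / L) * (L / B ^ 2 - L / b ^ 2) := by
  have hL0 : 0 < L := by linarith
  have hb0 : 0 < b := by linarith
  have hB0 : 0 < B := by linarith
  have hE : (B - A) ^ 2 - (b - a) ^ 2 - -((b - a) / a) * (A ^ 2 - a ^ 2) -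
        -((b - a) * b ^ 3 / L) * (L / B ^ 2 - L / b ^ 2) =
      ((B - A) - (b - a)) ^ 2 + (b - a) * (A - a) ^ 2 / a +
        (b - a) * (b - B) ^ 2 * (b + 2 * B) / B ^ 2 := by
    field_simp
    ring
  rw [hE]
  have h1 : (A - a) ^ 2 ≤ (b - a) * (A - a) ^ 2 / a := by
    rw [le_div_iff₀ ha]
    nlinarith [sq_nonneg (A - a)]
  have h2 : 0 ≤ (b - a) * (b - B) ^ 2 * (b + 2 * B) / B ^ 2 := by
    have : 0 ≤ b - a := by linarith
    positivity
  have h3 : ((B - A) - (b - a)) ^ 2 + (A - a) ^ 2 ≤ ((B - A) - (b - a)) ^ 2 +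
      (b - a) * (A - a) ^ 2 / a + (b - a) * (b - B) ^ 2 * (b + 2 * B) / B ^ 2 := by linarith
  refine le_trans ?_ h3
  have hs : 0 < a ^ 2 + A ^ 2 := by positivity
  rw [div_le_iff₀ (by positivity)]
  have h4 : (A ^ 2 - a ^ 2) ^ 2 ≤ 2 * (a ^ 2 + A ^ 2) * (A - a) ^ 2 := by
    have : (A ^ 2 - a ^ 2) ^ 2 = (A + a) ^ 2 * (A - a) ^ 2 := by ring
    rw [this]
    refine mul_le_mul_of_nonneg_right ?_ (sq_nonneg _)
    nlinarith [sq_nonneg (A - a)]
  have h5 : ((B - A) ^ 2 - (b - a) ^ 2) ^ 2 ≤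
      2 * L * (a ^ 2 + A ^ 2) * ((B - A) - (b - a)) ^ 2 := by
    have e : ((B - A) ^ 2 - (b - a) ^ 2) ^ 2 =
        ((B - A) + (b - a)) ^ 2 * ((B - A) - (b - a)) ^ 2 := by ring
    rw [e]
    refine mul_le_mul_of_nonneg_right ?_ (sq_nonneg _)
    have h6 : ((B - A) + (b - a)) ^ 2 ≤ (B + b) ^ 2 := by
      refine pow_le_pow_left₀ ?_ ?_ 2
      · linarith
      · linarith
    have h7 : (B + b) ^ 2 ≤ 2 * (B ^ 2 + b ^ 2) := by nlinarith [sq_nonneg (B - b)]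
    nlinarith
  have h8 : ((2 * A ^ 2 - (B - A) ^ 2 / L) - (2 * a ^ 2 - (b - a) ^ 2 / L)) ^ 2 ≤
      8 * (A ^ 2 - a ^ 2) ^ 2 + 2 * (((B - A) ^ 2 - (b - a) ^ 2) / L) ^ 2 := by
    have e : (2 * A ^ 2 - (B - A) ^ 2 / L) - (2 * a ^ 2 - (b - a) ^ 2 / L) =
        2 * (A ^ 2 - a ^ 2) - ((B - A) ^ 2 - (b - a) ^ 2) / L := by ring
    rw [e]
    nlinarith [sq_nonneg (2 * (A ^ 2 - a ^ 2) + ((B - A) ^ 2 - (b - a) ^ 2) / L)]
  have h9 : (((B - A) ^ 2 - (b - a) ^ 2) / L) ^ 2 ≤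
      1 / 2 * (a ^ 2 + A ^ 2) * ((B - A) - (b - a)) ^ 2 := by
    rw [div_pow, div_le_iff₀ (by positivity)]
    refine h5.trans ?_
    have h10 : 0 ≤ (a ^ 2 + A ^ 2) * ((B - A) - (b - a)) ^ 2 := by positivity
    nlinarith [mul_nonneg h10 (mul_nonneg hL0.le (by linarith : (0:ℝ) ≤ L - 4))]
  have h11 : 0 ≤ (a ^ 2 + A ^ 2) * ((B - A) - (b - a)) ^ 2 := by positivity
  have h12 : 0 ≤ (a ^ 2 + A ^ 2) * (A - a) ^ 2 := by positivity
  nlinarith

theorem bell_gain {L x y x' y' : ℝ} (hx : 0 < x) (hy : 0 < y) (h1 : 1 ≤ x * y)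
    (h2 : 4 * (x * y) ≤ L) (hx' : 0 < x') (hy' : 0 < y') (h1' : 1 ≤ x' * y')
    (h2' : 4 * (x' * y') ≤ L) :
    (sf L x' y' - sf L x y) ^ 2 / (20 * (x + x')) ≤
      Nf L x' y' - Nf L x y - Nx L x y * (x' - x) - Ny L x y * (y' - y) := by
  obtain ⟨ha, e1, e2, hb, hb1⟩ := sqrt_facts hx hy h1 h2
  obtain ⟨hA, e1', e2', hB, hB1⟩ := sqrt_facts hx' hy' h1' h2'
  have hL : 4 ≤ L := by linarith
  have hL0 : L ≠ 0 := by linarith
  have h := core hL ha hA hb hB hb1 hB1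
  have ey : L / √(L / y) ^ 2 = y := by
    rw [e2]
    field_simp
  have ey' : L / √(L / y') ^ 2 = y' := by
    rw [e2']
    field_simp
  rw [ey, ey', e1, e1'] at h
  unfold sf Nx Ny Nf
  exact h

end Pool.Agent.Lib.MP_f0c028_an.GW
end

section

set_option autoImplicit false

/-! # TASK GW11: an integral

Let `q = ‖z‖²/4 > 0`, `n = m - 2`. `(s-t)^n ≤ s^n e^{-nt/s}` for `s > t` (`1 - u ≤ e^{-u}`, `u = t/s`), and
`(‖z‖²/(4s²))^m gk s z = (4πs)⁻¹ q^m s^{-2m} e^{-q/s}`, so the integrand is at most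
`(4π)⁻¹ q^m s^{-(m+3)} e^{-Q/s}`, `Q = q + nt` (`n - 2m - 1 = -(m+3)`); extend the integral of this nonnegative function to `s > 0` and substitute `u = 1/s`
(`integral_comp_rpow_Ioi` with exponent `-1`): `∫_0^∞ s^{-(m+3)} e^{-Q/s} ds = ∫_0^∞ u^{m+1} e^{-Qu} du = (m+1)!/Q^{m+2}`
(`Real.integral_rpow_mul_exp_neg_mul_Ioi`, `Real.Gamma_nat_eq_factorial`; integrability: `integrableOn_Ioi_comp_rpow_iff`).
`(m+1)!/(m-2)! = (m+1) m (m-1)`. Recall `gk s z = (4πs)⁻¹ e^{-‖z‖²/(4s)}`. -/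

open Real

namespace Pool.Agent.Lib.MP_f0c028_an.GW

open MeasureTheory Set Filter Topology
open scoped ENNReal InnerProductSpace

private theorem GW11_int {Q : ℝ} (hQ : 0 < Q) (n : ℕ) :
    IntegrableOn (fun s : ℝ => s⁻¹ ^ (n + 5) * Real.exp (-(Q * s⁻¹))) (Ioi 0) ∧
      ∫ s in Ioi (0 : ℝ), s⁻¹ ^ (n + 5) * Real.exp (-(Q * s⁻¹)) =
        ((n + 3).factorial : ℝ) / Q ^ (n + 4) := by
  have hpt : ∀ s : ℝ, s ∈ Ioi (0 : ℝ) →
      (|(-1 : ℝ)| * s ^ ((-1 : ℝ) - 1)) • (fun u : ℝ => u ^ (((n + 4 : ℕ) : ℝ) - 1) *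
        Real.exp (-(Q * u))) (s ^ (-1 : ℝ)) = s⁻¹ ^ (n + 5) * Real.exp (-(Q * s⁻¹)) := by
    intro s hs
    have hs0 : (0 : ℝ) < s := hs
    have h1 : s ^ (-1 : ℝ) = s⁻¹ := Real.rpow_neg_one s
    have h2 : s ^ ((-1 : ℝ) - 1) = s⁻¹ ^ 2 := by
      rw [show ((-1 : ℝ) - 1) = -((2 : ℕ) : ℝ) by norm_num, Real.rpow_neg hs0.le,
        Real.rpow_natCast, inv_pow]
    have h3 : s⁻¹ ^ (((n + 4 : ℕ) : ℝ) - 1) = s⁻¹ ^ (n + 3) := by
      rw [show (((n + 4 : ℕ) : ℝ) - 1) = ((n + 3 : ℕ) : ℝ) by push_cast; ring,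
        Real.rpow_natCast]
    simp only [h1, h2, h3, smul_eq_mul, abs_neg, abs_one, one_mul]
    ring
  have hI : IntegrableOn (fun u : ℝ => u ^ (((n + 4 : ℕ) : ℝ) - 1) *
      Real.exp (-(Q * u))) (Ioi 0) := by
    have := integrableOn_rpow_mul_exp_neg_mul_rpow (p := 1) (s := ((n + 4 : ℕ) : ℝ) - 1)
      (b := Q) (by push_cast; linarith [(Nat.cast_nonneg n : (0 : ℝ) ≤ n)]) one_pos hQ
    refine this.congr_fun (fun u _ => ?_) measurableSet_Ioi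
    simp only [Real.rpow_one, neg_mul]
  refine ⟨?_, ?_⟩
  · have := (integrableOn_Ioi_comp_rpow_iff (fun u : ℝ => u ^ (((n + 4 : ℕ) : ℝ) - 1) *
      Real.exp (-(Q * u))) (p := -1) (by norm_num)).2 hI
    exact this.congr_fun hpt measurableSet_Ioi
  · have := integral_comp_rpow_Ioi (fun u : ℝ => u ^ (((n + 4 : ℕ) : ℝ) - 1) *
      Real.exp (-(Q * u))) (p := -1) (by norm_num)
    rw [setIntegral_congr_fun measurableSet_Ioi hpt] at this
    rw [this, Real.integral_rpow_mul_exp_neg_mul_Ioi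
      (by push_cast; linarith [(Nat.cast_nonneg n : (0 : ℝ) ≤ n)]) hQ, Real.rpow_natCast]
    rw [show ((n + 4 : ℕ) : ℝ) = ((n + 3 : ℕ) : ℝ) + 1 by push_cast; ring,
      Real.Gamma_nat_eq_factorial]
    rw [one_div, inv_pow]
    ring

theorem num_int {m : ℕ} (hm : 2 ≤ m) {t : ℝ} (ht : 0 < t) {z : ℂ} (hz : z ≠ 0) :
    t / (m - 2).factorial *
      ∫ s in Ioi t, (s - t) ^ (m - 2) * (‖z‖ ^ 2 / (4 * s ^ 2)) ^ m * gk s z ≤
    t / (4 * π) * ((m + 1) * m * (m - 1)) * ((‖z‖ ^ 2 / 4) ^ m /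
      (‖z‖ ^ 2 / 4 + (m - 2) * t) ^ (m + 2)) := by
  obtain ⟨n, rfl⟩ : ∃ n, m = n + 2 := ⟨m - 2, by omega⟩
  have hzn : 0 < ‖z‖ := norm_pos_iff.2 hz
  set q : ℝ := ‖z‖ ^ 2 / 4 with hq
  have hq0 : 0 < q := by positivity
  set Q : ℝ := q + n * t with hQd
  have hQ0 : 0 < Q := by positivity
  obtain ⟨hI, hv⟩ := GW11_int hQ0 n
  rw [show n + 2 - 2 = n by omega]
  have hpi : 0 < π := Real.pi_pos
  have hb : ∀ s ∈ Ioi t, (s - t) ^ n * (‖z‖ ^ 2 / (4 * s ^ 2)) ^ (n + 2) * gk s z ≤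
      (4 * π)⁻¹ * q ^ (n + 2) * (s⁻¹ ^ (n + 5) * Real.exp (-(Q * s⁻¹))) := by
    intro s hs
    have hst : t < s := hs
    have hs0 : 0 < s := ht.trans hst
    have e1 : (‖z‖ ^ 2 / (4 * s ^ 2)) ^ (n + 2) = q ^ (n + 2) * s⁻¹ ^ (2 * (n + 2)) := by
      rw [pow_mul, ← mul_pow]
      congr 1
      rw [hq]
      field_simp
    have e2 : gk s z = (4 * π)⁻¹ * s⁻¹ * Real.exp (-(q * s⁻¹)) := by
      unfold gk
      rw [mul_inv]
      congr 2
      rw [hq]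
      field_simp
    have e3 : (s - t) ^ n ≤ s ^ n * Real.exp (-(n * t * s⁻¹)) := by
      have h1 : s - t ≤ s * Real.exp (-(t * s⁻¹)) := by
        have h2 := Real.add_one_le_exp (-(t * s⁻¹))
        have h3 : s * (-(t * s⁻¹) + 1) = s - t := by
          field_simp
          ring
        rw [← h3]
        exact mul_le_mul_of_nonneg_left h2 hs0.le
      calc (s - t) ^ n ≤ (s * Real.exp (-(t * s⁻¹))) ^ n :=
            pow_le_pow_left₀ (by linarith) h1 n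
        _ = s ^ n * Real.exp (-(n * t * s⁻¹)) := by
            rw [mul_pow, ← Real.exp_nat_mul]
            congr 2
            ring
    have e4 : s ^ n * s⁻¹ ^ n = 1 := by
      rw [← mul_pow, mul_inv_cancel₀ hs0.ne', one_pow]
    rw [e1, e2]
    calc (s - t) ^ n * (q ^ (n + 2) * s⁻¹ ^ (2 * (n + 2))) *
          ((4 * π)⁻¹ * s⁻¹ * Real.exp (-(q * s⁻¹)))
        ≤ (s ^ n * Real.exp (-(n * t * s⁻¹))) * (q ^ (n + 2) * s⁻¹ ^ (2 * (n + 2))) *
          ((4 * π)⁻¹ * s⁻¹ * Real.exp (-(q * s⁻¹))) := by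
          gcongr
      _ = (4 * π)⁻¹ * q ^ (n + 2) * ((s ^ n * s⁻¹ ^ n) * s⁻¹ ^ (n + 5) *
          (Real.exp (-(q * s⁻¹)) * Real.exp (-(n * t * s⁻¹)))) := by
          ring
      _ = (4 * π)⁻¹ * q ^ (n + 2) * (s⁻¹ ^ (n + 5) * Real.exp (-(Q * s⁻¹))) := by
          rw [e4, ← Real.exp_add, one_mul]
          congr 3
          rw [hQd]
          ring
  have hsub : Ioi t ⊆ Ioi (0 : ℝ) := Ioi_subset_Ioi ht.le
  have hI2 : IntegrableOn (fun s : ℝ => (4 * π)⁻¹ * q ^ (n + 2) *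
      (s⁻¹ ^ (n + 5) * Real.exp (-(Q * s⁻¹)))) (Ioi 0) := hI.const_mul _
  have hmain : ∫ s in Ioi t, (s - t) ^ n * (‖z‖ ^ 2 / (4 * s ^ 2)) ^ (n + 2) * gk s z ≤
      (4 * π)⁻¹ * q ^ (n + 2) * (((n + 3).factorial : ℝ) / Q ^ (n + 4)) := by
    calc ∫ s in Ioi t, (s - t) ^ n * (‖z‖ ^ 2 / (4 * s ^ 2)) ^ (n + 2) * gk s z
        ≤ ∫ s in Ioi t, (4 * π)⁻¹ * q ^ (n + 2) *
          (s⁻¹ ^ (n + 5) * Real.exp (-(Q * s⁻¹))) := by
          refine integral_mono_of_nonneg ?_ (hI2.mono_set hsub) ?_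
          · refine (ae_restrict_iff' measurableSet_Ioi).2 (Eventually.of_forall fun s hs => ?_)
            have hst : t < s := hs
            have := gk_pos (ht.trans hst) z
            have h5 : 0 ≤ s - t := by linarith
            show 0 ≤ (s - t) ^ n * (‖z‖ ^ 2 / (4 * s ^ 2)) ^ (n + 2) * gk s z
            positivity
          · exact (ae_restrict_iff' measurableSet_Ioi).2 (Eventually.of_forall hb)
      _ ≤ ∫ s in Ioi (0 : ℝ), (4 * π)⁻¹ * q ^ (n + 2) *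
          (s⁻¹ ^ (n + 5) * Real.exp (-(Q * s⁻¹))) := by
          refine setIntegral_mono_set hI2 ?_ hsub.eventuallyLE
          refine (ae_restrict_iff' measurableSet_Ioi).2 (Eventually.of_forall fun s hs => ?_)
          have hs0 : (0 : ℝ) < s := hs
          show 0 ≤ (4 * π)⁻¹ * q ^ (n + 2) * (s⁻¹ ^ (n + 5) * Real.exp (-(Q * s⁻¹)))
          positivity
      _ = (4 * π)⁻¹ * q ^ (n + 2) * (((n + 3).factorial : ℝ) / Q ^ (n + 4)) := by
          rw [integral_const_mul, hv]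
  have hf : ((n + 3).factorial : ℝ) = (n + 3) * (n + 2) * (n + 1) * n.factorial := by
    simp only [Nat.factorial_succ]
    push_cast
    ring
  have hfn : (n.factorial : ℝ) ≠ 0 := by exact_mod_cast n.factorial_ne_zero
  have hfp : 0 < (n.factorial : ℝ) := by exact_mod_cast n.factorial_pos
  calc t / n.factorial *
        ∫ s in Ioi t, (s - t) ^ n * (‖z‖ ^ 2 / (4 * s ^ 2)) ^ (n + 2) * gk s z
      ≤ t / n.factorial * ((4 * π)⁻¹ * q ^ (n + 2) * (((n + 3).factorial : ℝ) / Q ^ (n + 4))) := by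
        gcongr
    _ = t / (4 * π) * ((((n + 2 : ℕ) : ℝ) + 1) * ((n + 2 : ℕ) : ℝ) * (((n + 2 : ℕ) : ℝ) - 1)) *
        (q ^ (n + 2) / (q + (((n + 2 : ℕ) : ℝ) - 2) * t) ^ (n + 2 + 2)) := by
        have h6 : q + (((n + 2 : ℕ) : ℝ) - 2) * t = Q := by
          rw [hQd]
          push_cast
          ring
        rw [h6, hf]
        push_cast
        field_simp
        ring

end Pool.Agent.Lib.MP_f0c028_an.GW
end

section

set_option autoImplicit false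

/-! # TASK GW8: layer cake for the heat kernel

`∫ ρ in Ioi ‖z‖, (ρ/(8πt²)) exp(-ρ²/(4t)) = (1/(4πt)) exp(-‖z‖²/(4t))` (`integral_Ioi_of_hasDerivAt_of_nonneg` / `..of_tendsto`, antiderivative
`-(1/(4πt)) exp(-ρ²/(4t))`); `z ∈ ball 0 ρ` iff `‖z‖ < ρ`; `ofReal_integral_eq_lintegral_ofReal`.
`moment_two`: `∫_0^∞ ρ⁵ exp(-ρ²/(4t)) dρ = 64 t³`; `moment_neg`: `∫_0^∞ ρ exp(-ρ²/(4t)) dρ = 2 t` (`integral_rpow_mul_exp_neg_mul_rpow` with
exponent `2`, `Real.Gamma_ofNat_eq_factorial`; for `moment_neg` the same antiderivative). -/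

open Real

namespace Pool.Agent.Lib.MP_f0c028_an.GW

open MeasureTheory Set Filter Topology
open scoped ENNReal InnerProductSpace

private theorem GW8_deriv {t : ℝ} (ht0 : 0 < t) (ρ : ℝ) :
    HasDerivAt (fun ρ : ℝ => Real.exp (-(ρ ^ 2 / (4 * t))))
      (-(ρ / (2 * t)) * Real.exp (-(ρ ^ 2 / (4 * t)))) ρ := by
  have h1 : HasDerivAt (fun ρ : ℝ => -(ρ ^ 2 / (4 * t))) (-(2 * ρ / (4 * t))) ρ := by
    have h := ((hasDerivAt_pow 2 ρ).div_const (4 * t)).fun_neg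
    simpa using h
  have h2 := h1.exp
  convert h2 using 1
  field_simp
  ring

private theorem GW8_tend {t : ℝ} (ht0 : 0 < t) :
    Tendsto (fun ρ : ℝ => ρ ^ 2 / (4 * t)) atTop atTop :=
  (tendsto_pow_atTop (two_ne_zero)).atTop_div_const (by positivity)

private theorem GW8_one {t K a : ℝ} (ht0 : 0 < t) (hK : 0 ≤ K) (ha : 0 ≤ a) :
    IntegrableOn (fun ρ : ℝ => K * ρ * Real.exp (-(ρ ^ 2 / (4 * t)))) (Ioi a) ∧
      ∫ ρ in Ioi a, K * ρ * Real.exp (-(ρ ^ 2 / (4 * t))) =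
        K * (2 * t) * Real.exp (-(a ^ 2 / (4 * t))) := by
  have hd : ∀ ρ : ℝ, HasDerivAt (fun ρ : ℝ => -(K * (2 * t)) * Real.exp (-(ρ ^ 2 / (4 * t))))
      (K * ρ * Real.exp (-(ρ ^ 2 / (4 * t)))) ρ := by
    intro ρ
    have h := (GW8_deriv ht0 ρ).const_mul (-(K * (2 * t)))
    refine h.congr_deriv ?_
    field_simp
  have hc : ContinuousWithinAt (fun ρ : ℝ => -(K * (2 * t)) * Real.exp (-(ρ ^ 2 / (4 * t))))
      (Ici a) a := (hd a).continuousAt.continuousWithinAt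
  have hp : ∀ ρ ∈ Ioi a, 0 ≤ K * ρ * Real.exp (-(ρ ^ 2 / (4 * t))) := by
    intro ρ hρ
    have h1 : 0 ≤ ρ := ha.trans (le_of_lt hρ)
    positivity
  have hl : Tendsto (fun ρ : ℝ => -(K * (2 * t)) * Real.exp (-(ρ ^ 2 / (4 * t)))) atTop (𝓝 0) := by
    have h1 := (Real.tendsto_exp_neg_atTop_nhds_zero.comp (GW8_tend ht0)).const_mul
      (-(K * (2 * t)))
    simpa [Function.comp_def] using h1
  refine ⟨integrableOn_Ioi_deriv_of_nonneg hc (fun x _ => hd x) hp hl, ?_⟩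
  rw [integral_Ioi_of_hasDerivAt_of_nonneg hc (fun x _ => hd x) hp hl]
  ring

/-- layer cake for the heat kernel -/
theorem gk_layer {t : ℝ} (ht0 : 0 < t) (z : ℂ) :
    ENNReal.ofReal (gk t z) = ∫⁻ ρ in Ioi (0 : ℝ),
      (Metric.ball (0 : ℂ) ρ).indicator
        (fun _ => ENNReal.ofReal (ρ / (8 * π * t ^ 2) * Real.exp (-(ρ ^ 2 / (4 * t))))) z := by
  have hpi := Real.pi_pos
  have h1 : ∀ ρ : ℝ, (Metric.ball (0 : ℂ) ρ).indicator
      (fun _ => ENNReal.ofReal (ρ / (8 * π * t ^ 2) * Real.exp (-(ρ ^ 2 / (4 * t))))) z =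
      (Ioi ‖z‖).indicator (fun ρ : ℝ =>
        ENNReal.ofReal (1 / (8 * π * t ^ 2) * ρ * Real.exp (-(ρ ^ 2 / (4 * t))))) ρ := by
    intro ρ
    by_cases h : ‖z‖ < ρ
    · rw [indicator_of_mem (by simpa using h), indicator_of_mem (by simpa using h)]
      congr 1
      ring
    · rw [indicator_of_notMem (by simpa using h), indicator_of_notMem (by simpa using h)]
  simp_rw [h1]
  rw [lintegral_indicator measurableSet_Ioi, Measure.restrict_restrict measurableSet_Ioi]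
  have h2 : Ioi ‖z‖ ∩ Ioi (0 : ℝ) = Ioi ‖z‖ :=
    inter_eq_left.2 (Ioi_subset_Ioi (norm_nonneg z))
  rw [h2]
  obtain ⟨h3, h4⟩ := GW8_one (K := 1 / (8 * π * t ^ 2)) (a := ‖z‖) ht0 (by positivity)
    (norm_nonneg z)
  rw [← ofReal_integral_eq_lintegral_ofReal h3, h4]
  · congr 1
    unfold gk
    field_simp
    norm_num
  · refine (ae_restrict_iff' measurableSet_Ioi).2 (ae_of_all _ fun ρ hρ => ?_)
    have h5 : 0 ≤ ρ := (norm_nonneg z).trans (le_of_lt hρ)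
    change (0 : ℝ) ≤ _
    positivity

theorem moment_two {t : ℝ} (ht0 : 0 < t) :
    ∫⁻ ρ in Ioi (0 : ℝ), ENNReal.ofReal (ρ ^ 5 / (8 * t ^ 2) * Real.exp (-(ρ ^ 2 / (4 * t)))) =
      ENNReal.ofReal (8 * t) := by
  have hd : ∀ ρ : ℝ, HasDerivAt (fun ρ : ℝ => -(1 / (8 * t ^ 2)) *
      ((2 * t * ρ ^ 4 + 16 * t ^ 2 * ρ ^ 2 + 64 * t ^ 3) * Real.exp (-(ρ ^ 2 / (4 * t)))))
      (ρ ^ 5 / (8 * t ^ 2) * Real.exp (-(ρ ^ 2 / (4 * t)))) ρ := by
    intro ρ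
    have hP : HasDerivAt (fun ρ : ℝ => 2 * t * ρ ^ 4 + 16 * t ^ 2 * ρ ^ 2 + 64 * t ^ 3)
        (8 * t * ρ ^ 3 + 32 * t ^ 2 * ρ) ρ := by
      have h := (((hasDerivAt_pow 4 ρ).const_mul (2 * t)).add
        ((hasDerivAt_pow 2 ρ).const_mul (16 * t ^ 2))).add_const (64 * t ^ 3)
      refine h.congr_deriv ?_
      push_cast
      ring
    have h := (hP.mul (GW8_deriv ht0 ρ)).const_mul (-(1 / (8 * t ^ 2)))
    refine h.congr_deriv ?_
    field_simp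
    ring
  have hc : ContinuousWithinAt (fun ρ : ℝ => -(1 / (8 * t ^ 2)) *
      ((2 * t * ρ ^ 4 + 16 * t ^ 2 * ρ ^ 2 + 64 * t ^ 3) * Real.exp (-(ρ ^ 2 / (4 * t)))))
      (Ici 0) 0 := (hd 0).continuousAt.continuousWithinAt
  have hp : ∀ ρ ∈ Ioi (0 : ℝ), 0 ≤ ρ ^ 5 / (8 * t ^ 2) * Real.exp (-(ρ ^ 2 / (4 * t))) := by
    intro ρ hρ
    have h1 : 0 ≤ ρ := le_of_lt hρ
    positivity
  have hl : Tendsto (fun ρ : ℝ => -(1 / (8 * t ^ 2)) *
      ((2 * t * ρ ^ 4 + 16 * t ^ 2 * ρ ^ 2 + 64 * t ^ 3) * Real.exp (-(ρ ^ 2 / (4 * t)))))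
      atTop (𝓝 0) := by
    have h0 := (Real.tendsto_pow_mul_exp_neg_atTop_nhds_zero 0).comp (GW8_tend ht0)
    have h1 := (Real.tendsto_pow_mul_exp_neg_atTop_nhds_zero 1).comp (GW8_tend ht0)
    have h2 := (Real.tendsto_pow_mul_exp_neg_atTop_nhds_zero 2).comp (GW8_tend ht0)
    have h3 := (((h2.const_mul (32 * t ^ 3)).add (h1.const_mul (64 * t ^ 3))).add
      (h0.const_mul (64 * t ^ 3))).const_mul (-(1 / (8 * t ^ 2)))
    simp only [mul_zero, add_zero] at h3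
    refine h3.congr fun ρ => ?_
    simp only [Function.comp]
    field_simp
    ring
  have hi := integrableOn_Ioi_deriv_of_nonneg hc (fun x _ => hd x) hp hl
  rw [← ofReal_integral_eq_lintegral_ofReal hi,
    integral_Ioi_of_hasDerivAt_of_nonneg hc (fun x _ => hd x) hp hl]
  · congr 1
    have h0 : Real.exp (-((0 : ℝ) ^ 2 / (4 * t))) = 1 := by simp
    rw [h0]
    field_simp
    ring
  · exact (ae_restrict_iff' measurableSet_Ioi).2 (ae_of_all _ fun ρ hρ => hp ρ hρ)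

theorem moment_neg {t : ℝ} (ht0 : 0 < t) :
    ∫⁻ ρ in Ioi (0 : ℝ), ENNReal.ofReal (ρ / (8 * t ^ 2) * Real.exp (-(ρ ^ 2 / (4 * t)))) =
      ENNReal.ofReal (1 / (4 * t)) := by
  obtain ⟨h3, h4⟩ := GW8_one (K := 1 / (8 * t ^ 2)) (a := 0) ht0 (by positivity) le_rfl
  have h5 : ∀ ρ : ℝ, ρ / (8 * t ^ 2) * Real.exp (-(ρ ^ 2 / (4 * t))) =
      1 / (8 * t ^ 2) * ρ * Real.exp (-(ρ ^ 2 / (4 * t))) := fun ρ => by ring
  simp_rw [h5]
  rw [← ofReal_integral_eq_lintegral_ofReal h3, h4]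
  · congr 1
    have h0 : Real.exp (-((0 : ℝ) ^ 2 / (4 * t))) = 1 := by simp
    rw [h0]
    field_simp
    norm_num
  · refine (ae_restrict_iff' measurableSet_Ioi).2 (ae_of_all _ fun ρ hρ => ?_)
    have h6 : 0 ≤ ρ := le_of_lt hρ
    change (0 : ℝ) ≤ _
    positivity

end Pool.Agent.Lib.MP_f0c028_an.GW
end

section

set_option autoImplicit false

/-! # MP_f0c028_an, campaign SQ: conditional expectations by splicing

A point `ω` of `Ω` is a whole path; `S.s k ω η` follows `ω` up to time `k` and `η` afterwards.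
`S.E k f ω = ∫ f (s k ω η) dP(η)` is the conditional expectation at time `k`, defined pointwise.
All functions are bounded and measurable (`BM`), so all identities are pointwise identities. -/

open MeasureTheory

namespace Pool.Agent.Lib.MP_f0c028_an.SQ

/-- Bounded measurable functions. -/
def BM {Ω : Type} [MeasurableSpace Ω] (f : Ω → ℝ) : Prop :=
  Measurable f ∧ ∃ C : ℝ, ∀ ω, |f ω| ≤ C

/-- A probability space with splicing maps. -/
structure Sp (Ω : Type) [MeasurableSpace Ω] where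
  P : Measure Ω
  prob : IsProbabilityMeasure P
  s : ℕ → Ω → Ω → Ω
  meas : ∀ k, Measurable (fun q : Ω × Ω => s k q.1 q.2)
  s_ge : ∀ k l, k ≤ l → ∀ ω η η', s l (s k ω η) η' = s k ω (s l η η')
  s_le : ∀ k l, k ≤ l → ∀ ω η η', s k (s l ω η) η' = s k ω η'
  inv : ∀ k, Measure.map (fun q : Ω × Ω => s k q.1 q.2) (P.prod P) = P

variable {Ω : Type} [MeasurableSpace Ω]

/-- The conditional expectation at time `k`. -/
noncomputable def Sp.E (S : Sp Ω) (k : ℕ) (f : Ω → ℝ) (ω : Ω) : ℝ := ∫ η, f (S.s k ω η) ∂S.P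

/-- `f` depends only on the path up to time `k`. -/
def Sp.Ad (S : Sp Ω) (k : ℕ) (f : Ω → ℝ) : Prop := ∀ ω η, f (S.s k ω η) = f ω

/-- Bounded martingales. -/
structure Sp.Mart (S : Sp Ω) (F : ℕ → Ω → ℝ) : Prop where
  bm : ∀ k, BM (F k)
  ad : ∀ k, S.Ad k (F k)
  step : ∀ k ω, S.E k (F (k + 1)) ω = F k ω

/-- The conditional mean oscillation of one step. -/
noncomputable def Sp.D (S : Sp Ω) (F : ℕ → Ω → ℝ) (k : ℕ) (ω : Ω) : ℝ :=
  S.E k (fun ω' => |F (k + 1) ω' - F k ω'|) ω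

/-- A pair of positive bounded martingales with `1 ≤ X Y ≤ K`. -/
structure Sp.Pair (S : Sp Ω) (X Y : ℕ → Ω → ℝ) (K : ℝ) : Prop where
  mX : S.Mart X
  mY : S.Mart Y
  low : ∃ c : ℝ, 0 < c ∧ ∀ k ω, c ≤ X k ω ∧ c ≤ Y k ω
  one : ∀ k ω, 1 ≤ X k ω * Y k ω
  le : ∀ k ω, X k ω * Y k ω ≤ K

/-- The lookahead oscillation `E_k D_(k+j) F`. -/
noncomputable def Sp.EJ (S : Sp Ω) (j : ℕ) (F : ℕ → Ω → ℝ) (k : ℕ) (ω : Ω) : ℝ :=
  S.E k (S.D F (k + j)) ω

end Pool.Agent.Lib.MP_f0c028_an.SQ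
end

section

set_option autoImplicit false

/-! # TASK S1a: bounded measurable functions form an algebra

All proofs are immediate. `BM.rpow`: for `c ≤ f ≤ C`, `0 < c`, the function `f ^ r` is measurable and lies between `c ^ r` and `C ^ r`
(in one order or the other). `BM.ite`: `p` a measurable set (as a predicate). -/

open MeasureTheory

namespace Pool.Agent.Lib.MP_f0c028_an.SQ

variable {Ω : Type} [MeasurableSpace Ω]

theorem BM.const (c : ℝ) : BM (fun _ : Ω => c) := by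
  exact ⟨measurable_const, |c|, fun _ => le_refl _⟩

theorem BM.add {f g : Ω → ℝ} (hf : BM f) (hg : BM g) : BM (fun ω => f ω + g ω) := by
  obtain ⟨hf1, C, hC⟩ := hf
  obtain ⟨hg1, D, hD⟩ := hg
  exact ⟨hf1.add hg1, C + D, fun ω => (abs_add_le _ _).trans (add_le_add (hC ω) (hD ω))⟩

theorem BM.sub {f g : Ω → ℝ} (hf : BM f) (hg : BM g) : BM (fun ω => f ω - g ω) := by
  obtain ⟨hf1, C, hC⟩ := hf
  obtain ⟨hg1, D, hD⟩ := hg
  exact ⟨hf1.sub hg1, C + D, fun ω => (abs_sub _ _).trans (add_le_add (hC ω) (hD ω))⟩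

theorem BM.mul {f g : Ω → ℝ} (hf : BM f) (hg : BM g) : BM (fun ω => f ω * g ω) := by
  obtain ⟨hf1, C, hC⟩ := hf
  obtain ⟨hg1, D, hD⟩ := hg
  refine ⟨hf1.mul hg1, C * D, fun ω => ?_⟩
  rw [abs_mul]
  exact mul_le_mul (hC ω) (hD ω) (abs_nonneg _) ((abs_nonneg _).trans (hC ω))

theorem BM.neg {f : Ω → ℝ} (hf : BM f) : BM (fun ω => -f ω) := by
  obtain ⟨hf1, C, hC⟩ := hf
  refine ⟨hf1.neg, C, fun ω => ?_⟩
  rw [abs_neg]
  exact hC ω

theorem BM.abs {f : Ω → ℝ} (hf : BM f) : BM (fun ω => |f ω|) := by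
  obtain ⟨hf1, C, hC⟩ := hf
  refine ⟨_root_.continuous_abs.measurable.comp hf1, C, fun ω => ?_⟩
  rw [abs_abs]
  exact hC ω

theorem BM.pow {f : Ω → ℝ} (hf : BM f) (n : ℕ) : BM (fun ω => f ω ^ n) := by
  obtain ⟨hf1, C, hC⟩ := hf
  refine ⟨hf1.pow_const n, C ^ n, fun ω => ?_⟩
  rw [abs_pow]
  exact pow_le_pow_left₀ (abs_nonneg _) (hC ω) n

theorem BM.max {f g : Ω → ℝ} (hf : BM f) (hg : BM g) : BM (fun ω => max (f ω) (g ω)) := by
  obtain ⟨hf1, C, hC⟩ := hf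
  obtain ⟨hg1, D, hD⟩ := hg
  exact ⟨hf1.max hg1, Max.max C D, fun ω => abs_max_le_max_abs_abs.trans (max_le_max (hC ω) (hD ω))⟩

theorem BM.min {f g : Ω → ℝ} (hf : BM f) (hg : BM g) : BM (fun ω => min (f ω) (g ω)) := by
  obtain ⟨hf1, C, hC⟩ := hf
  obtain ⟨hg1, D, hD⟩ := hg
  exact ⟨hf1.min hg1, Max.max C D, fun ω => abs_min_le_max_abs_abs.trans (max_le_max (hC ω) (hD ω))⟩

theorem BM.sum {ι : Type} (s : Finset ι) {f : ι → Ω → ℝ} (hf : ∀ i ∈ s, BM (f i)) :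
    BM (fun ω => ∑ i ∈ s, f i ω) := by
  have h1 : ∀ i ∈ s, ∃ C : ℝ, ∀ ω, |f i ω| ≤ C := fun i hi => (hf i hi).2
  choose! C hC using h1
  refine ⟨Finset.measurable_fun_sum s fun i hi => (hf i hi).1, ∑ i ∈ s, C i, fun ω => ?_⟩
  exact (Finset.abs_sum_le_sum_abs _ _).trans (Finset.sum_le_sum fun i hi => hC i hi ω)

theorem BM.inv {f : Ω → ℝ} (hf : BM f) {c : ℝ} (hc : 0 < c) (h : ∀ ω, c ≤ f ω) :
    BM (fun ω => (f ω)⁻¹) := by
  obtain ⟨hf1, C, hC⟩ := hf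
  refine ⟨hf1.inv, c⁻¹, fun ω => ?_⟩
  have h1 : 0 < f ω := hc.trans_le (h ω)
  rw [abs_of_pos (inv_pos.2 h1)]
  exact inv_anti₀ hc (h ω)

theorem BM.div {f g : Ω → ℝ} (hf : BM f) (hg : BM g) {c : ℝ} (hc : 0 < c) (h : ∀ ω, c ≤ g ω) :
    BM (fun ω => f ω / g ω) := by
  have h1 := BM.mul hf (BM.inv hg hc h)
  simpa only [div_eq_mul_inv] using h1

theorem BM.sqrt {f : Ω → ℝ} (hf : BM f) : BM (fun ω => √(f ω)) := by
  obtain ⟨hf1, C, hC⟩ := hf
  refine ⟨hf1.sqrt, √C, fun ω => ?_⟩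
  rw [abs_of_nonneg (Real.sqrt_nonneg _)]
  exact Real.sqrt_le_sqrt ((le_abs_self _).trans (hC ω))

theorem BM.rpow {f : Ω → ℝ} (hf : BM f) {c : ℝ} (hc : 0 < c) (h : ∀ ω, c ≤ f ω) (r : ℝ) :
    BM (fun ω => f ω ^ r) := by
  obtain ⟨hf1, C, hC⟩ := hf
  refine ⟨hf1.pow_const r, Max.max (C ^ r) (c ^ r), fun ω => ?_⟩
  have h1 : 0 < f ω := hc.trans_le (h ω)
  rw [abs_of_nonneg (Real.rpow_nonneg h1.le r)]
  rcases le_total 0 r with hr | hr
  · exact (Real.rpow_le_rpow h1.le ((le_abs_self _).trans (hC ω)) hr).trans (le_max_left _ _)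
  · exact (Real.rpow_le_rpow_of_nonpos hc (h ω) hr).trans (le_max_right _ _)

open Classical in
theorem BM.ite {f g : Ω → ℝ} {p : Ω → Prop} (hp : MeasurableSet {ω | p ω}) (hf : BM f)
    (hg : BM g) : BM (fun ω => if p ω then f ω else g ω) := by
  obtain ⟨hf1, C, hC⟩ := hf
  obtain ⟨hg1, D, hD⟩ := hg
  refine ⟨Measurable.ite hp hf1 hg1, Max.max C D, fun ω => ?_⟩
  by_cases h : p ω
  · simp only [if_pos h]
    exact (hC ω).trans (le_max_left _ _)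
  · simp only [if_neg h]
    exact (hD ω).trans (le_max_right _ _)

theorem BM.int {f : Ω → ℝ} (hf : BM f) (P : Measure Ω) [IsFiniteMeasure P] :
    Integrable f P := by
  obtain ⟨hf1, C, hC⟩ := hf
  exact Integrable.of_bound hf1.aestronglyMeasurable C (Filter.Eventually.of_forall fun ω => hC ω)

theorem BM.comp {Ω' : Type} [MeasurableSpace Ω'] {f : Ω → ℝ} (hf : BM f) {g : Ω' → Ω}
    (hg : Measurable g) : BM (fun ω => f (g ω)) := by
  obtain ⟨hf1, C, hC⟩ := hf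
  exact ⟨hf1.comp hg, C, fun ω => hC (g ω)⟩

end Pool.Agent.Lib.MP_f0c028_an.SQ
end

section

set_option autoImplicit false

/-! # TASK S1b: the basic rules for `E`

* `s_meas`: `η ↦ s k ω η` is measurable. `E_bm`: `StronglyMeasurable.integral_prod_right'`.
* `E_ad`: `s_le` with `k = l`. `ad_mono`: `f (s l ω η) = f (s k (s l ω η) η) = f (s k ω η) = f ω` (`s_le`).
* `E_tower`: `E k (E l f) ω = ∫ ∫ f (s l (s k ω η) η') = ∫ ∫ f (s k ω (s l η η'))` (`s_ge`), and `s l` maps `P × P` to `P` (`inv`;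
  `integral_map`, `integral_prod`). `E_int`: `inv` with `k`. The rest is linearity. -/

open MeasureTheory

namespace Pool.Agent.Lib.MP_f0c028_an.SQ

variable {Ω : Type} [MeasurableSpace Ω] (S : Sp Ω)

theorem s_meas (k : ℕ) (ω : Ω) : Measurable (S.s k ω) := by
  exact (S.meas k).comp measurable_prodMk_left

theorem E_bm (k : ℕ) {f : Ω → ℝ} (hf : BM f) : BM (S.E k f) := by
  have := S.prob
  obtain ⟨hm, C, hC⟩ := hf
  refine ⟨?_, C, fun ω => ?_⟩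
  · have h1 : StronglyMeasurable (fun q : Ω × Ω => f (S.s k q.1 q.2)) :=
      (hm.comp (S.meas k)).stronglyMeasurable
    exact (h1.integral_prod_right' (ν := S.P)).measurable
  · have h2 := norm_integral_le_of_norm_le_const (μ := S.P) (f := fun η => f (S.s k ω η)) (C := C)
      (Filter.Eventually.of_forall fun η => hC _)
    simpa [Sp.E] using h2

theorem E_ad (k : ℕ) (f : Ω → ℝ) : S.Ad k (S.E k f) := by
  intro ω η
  unfold Sp.E
  refine integral_congr_ae (Filter.Eventually.of_forall fun η' => ?_)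
  show f (S.s k (S.s k ω η) η') = f (S.s k ω η')
  rw [S.s_le k k le_rfl]

theorem ad_mono {k l : ℕ} (h : k ≤ l) {f : Ω → ℝ} (hf : S.Ad k f) : S.Ad l f := by
  intro ω η
  have h1 := hf (S.s l ω η) η
  rw [S.s_le k l h, hf ω η] at h1
  exact h1.symm

theorem E_of_ad {k : ℕ} {f : Ω → ℝ} (hf : S.Ad k f) (ω : Ω) : S.E k f ω = f ω := by
  have := S.prob
  unfold Sp.E
  have h1 : ∀ η, f (S.s k ω η) = f ω := fun η => hf ω η
  simp only [h1]
  simp

theorem E_tower {k l : ℕ} (h : k ≤ l) {f : Ω → ℝ} (hf : BM f) (ω : Ω) :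
    S.E k (S.E l f) ω = S.E k f ω := by
  have := S.prob
  have h1 : S.E k (S.E l f) ω = ∫ η, ∫ η', f (S.s k ω (S.s l η η')) ∂S.P ∂S.P := by
    unfold Sp.E
    refine integral_congr_ae (Filter.Eventually.of_forall fun η => ?_)
    refine integral_congr_ae (Filter.Eventually.of_forall fun η' => ?_)
    show f (S.s l (S.s k ω η) η') = f (S.s k ω (S.s l η η'))
    rw [S.s_ge k l h]
  have hg : BM (fun x => f (S.s k ω x)) := hf.comp (s_meas S k ω)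
  have hI : Integrable (fun q : Ω × Ω => f (S.s k ω (S.s l q.1 q.2))) (S.P.prod S.P) :=
    (hg.comp (S.meas l)).int _
  have h2 : ∫ q : Ω × Ω, f (S.s k ω (S.s l q.1 q.2)) ∂(S.P.prod S.P) =
      ∫ η, ∫ η', f (S.s k ω (S.s l η η')) ∂S.P ∂S.P := integral_prod _ hI
  have h3 : ∫ q : Ω × Ω, f (S.s k ω (S.s l q.1 q.2)) ∂(S.P.prod S.P) =
      ∫ x, f (S.s k ω x) ∂(Measure.map (fun q : Ω × Ω => S.s l q.1 q.2) (S.P.prod S.P)) :=
    (integral_map (S.meas l).aemeasurable hg.1.aestronglyMeasurable).symm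
  rw [h1, ← h2, h3, S.inv l]
  rfl

theorem E_tower' {k l : ℕ} (h : k ≤ l) (f : Ω → ℝ) (ω : Ω) : S.E l (S.E k f) ω = S.E k f ω := by
  exact E_of_ad S (ad_mono S h (E_ad S k f)) ω

theorem E_int (k : ℕ) {f : Ω → ℝ} (hf : BM f) : ∫ ω, S.E k f ω ∂S.P = ∫ ω, f ω ∂S.P := by
  have := S.prob
  have hI : Integrable (fun q : Ω × Ω => f (S.s k q.1 q.2)) (S.P.prod S.P) :=
    (hf.comp (S.meas k)).int _
  have h2 : ∫ q : Ω × Ω, f (S.s k q.1 q.2) ∂(S.P.prod S.P) =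
      ∫ ω, ∫ η, f (S.s k ω η) ∂S.P ∂S.P := integral_prod _ hI
  have h3 : ∫ q : Ω × Ω, f (S.s k q.1 q.2) ∂(S.P.prod S.P) =
      ∫ x, f x ∂(Measure.map (fun q : Ω × Ω => S.s k q.1 q.2) (S.P.prod S.P)) :=
    (integral_map (S.meas k).aemeasurable hf.1.aestronglyMeasurable).symm
  rw [S.inv k] at h3
  rw [← h3, h2]
  rfl

theorem E_mul {k : ℕ} {g : Ω → ℝ} (hg : S.Ad k g) (f : Ω → ℝ) (ω : Ω) :
    S.E k (fun ω' => g ω' * f ω') ω = g ω * S.E k f ω := by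
  unfold Sp.E
  rw [← integral_const_mul]
  refine integral_congr_ae (Filter.Eventually.of_forall fun η => ?_)
  show g (S.s k ω η) * f (S.s k ω η) = g ω * f (S.s k ω η)
  rw [hg]

theorem E_div {k : ℕ} {g : Ω → ℝ} (hg : S.Ad k g) (f : Ω → ℝ) (ω : Ω) :
    S.E k (fun ω' => f ω' / g ω') ω = S.E k f ω / g ω := by
  unfold Sp.E
  rw [← integral_div]
  refine integral_congr_ae (Filter.Eventually.of_forall fun η => ?_)
  show f (S.s k ω η) / g (S.s k ω η) = f (S.s k ω η) / g ω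
  rw [hg]

theorem E_const_mul (k : ℕ) (c : ℝ) (f : Ω → ℝ) (ω : Ω) :
    S.E k (fun ω' => c * f ω') ω = c * S.E k f ω := by
  unfold Sp.E
  rw [← integral_const_mul]

theorem E_const (k : ℕ) (c : ℝ) (ω : Ω) : S.E k (fun _ => c) ω = c := by
  have := S.prob
  unfold Sp.E
  simp

theorem E_add (k : ℕ) {f g : Ω → ℝ} (hf : BM f) (hg : BM g) (ω : Ω) :
    S.E k (fun ω' => f ω' + g ω') ω = S.E k f ω + S.E k g ω := by
  have := S.prob
  unfold Sp.E
  exact integral_add ((hf.comp (s_meas S k ω)).int _) ((hg.comp (s_meas S k ω)).int _)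

theorem E_sub (k : ℕ) {f g : Ω → ℝ} (hf : BM f) (hg : BM g) (ω : Ω) :
    S.E k (fun ω' => f ω' - g ω') ω = S.E k f ω - S.E k g ω := by
  have := S.prob
  unfold Sp.E
  exact integral_sub ((hf.comp (s_meas S k ω)).int _) ((hg.comp (s_meas S k ω)).int _)

theorem E_sum (k : ℕ) {ι : Type} (s : Finset ι) {f : ι → Ω → ℝ} (hf : ∀ i ∈ s, BM (f i)) (ω : Ω) :
    S.E k (fun ω' => ∑ i ∈ s, f i ω') ω = ∑ i ∈ s, S.E k (f i) ω := by
  have := S.prob
  unfold Sp.E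
  exact integral_finsetSum s fun i hi => ((hf i hi).comp (s_meas S k ω)).int _

theorem E_mono (k : ℕ) {f g : Ω → ℝ} (hf : BM f) (hg : BM g) (h : ∀ ω, f ω ≤ g ω) (ω : Ω) :
    S.E k f ω ≤ S.E k g ω := by
  have := S.prob
  unfold Sp.E
  exact integral_mono ((hf.comp (s_meas S k ω)).int _) ((hg.comp (s_meas S k ω)).int _)
    fun η => h _

theorem E_nonneg (k : ℕ) {f : Ω → ℝ} (h : ∀ ω, 0 ≤ f ω) (ω : Ω) : 0 ≤ S.E k f ω := by
  unfold Sp.E
  exact integral_nonneg fun η => h _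

theorem E_abs_le (k : ℕ) (f : Ω → ℝ) (ω : Ω) : |S.E k f ω| ≤ S.E k (fun ω' => |f ω'|) ω := by
  unfold Sp.E
  exact abs_integral_le_integral_abs

/-- Martingales at two times. -/
theorem mart_E {F : ℕ → Ω → ℝ} (hF : S.Mart F) {k l : ℕ} (h : k ≤ l) (ω : Ω) :
    S.E k (F l) ω = F k ω := by
  induction l, h using Nat.le_induction generalizing ω with
  | base => exact E_of_ad S (hF.ad k) ω
  | succ l hl ih =>
    have h1 : S.E l (F (l + 1)) = F l := funext fun ω' => hF.step l ω'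
    rw [← E_tower S hl (hF.bm (l + 1)) ω, h1]
    exact ih ω

theorem mart_ad {F : ℕ → Ω → ℝ} (hF : S.Mart F) {k l : ℕ} (h : k ≤ l) : S.Ad l (F k) := by
  exact ad_mono S h (hF.ad k)

end Pool.Agent.Lib.MP_f0c028_an.SQ
end

section

set_option autoImplicit false

/-! # TASK S1c: Cauchy-Schwarz and Jensen for `E`; oscillations

* `E_cs`: the Cauchy-Schwarz inequality for the probability measure `P` and the functions `η ↦ f (s k ω η)`, `η ↦ g (s k ω η)`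
  (discriminant: `0 ≤ E ((a f + b g)²)`, or `E ((E g² f - E(fg) g)²) ≥ 0`; care if `E g² = 0`: `(E fg)² ≤ (E f² + δ)(E g² + δ)`
  for all `δ > 0`, or `MeasureTheory.integral_mul_le_Lp_mul_Lq`).
* `E_cs_div`: `E_cs` for `f / √g` and `√g`.
* `E_inv`, `E_rpow_neg_half`: convexity: `1/y' ≥ 2/y - y'/y²`, and
  `y'^(-1/2) ≥ y^(-1/2) - (1/2) y^(-3/2) (y' - y)` with `y = E_k Y'` (tangent lines; take `E k`).
* `D_le`: `|X' - X| ≤ X' + X`, so `D_l X ≤ 2 X_l` for a nonnegative martingale. `EJ_le`: then `E_k D_(k+j) X ≤ 2 X_k`. -/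

open MeasureTheory

namespace Pool.Agent.Lib.MP_f0c028_an.SQ

variable {Ω : Type} [MeasurableSpace Ω] (S : Sp Ω)

private theorem S1c_quad {Ω' : Type} [MeasurableSpace Ω'] (P : Measure Ω') [IsFiniteMeasure P]
    {f g : Ω' → ℝ} (hf : BM f) (hg : BM g) (t : ℝ) :
    0 ≤ (∫ ω, f ω ^ 2 ∂P) * (t * t) + (2 * ∫ ω, f ω * g ω ∂P) * t + ∫ ω, g ω ^ 2 ∂P := by
  have h1 : 0 ≤ ∫ ω, (f ω * t + g ω) ^ 2 ∂P := integral_nonneg fun ω => sq_nonneg _
  have h2 : ∫ ω, (f ω * t + g ω) ^ 2 ∂P =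
      ∫ ω, (f ω ^ 2 * (t * t) + (f ω * g ω) * (2 * t) + g ω ^ 2) ∂P := by
    congr 1
    funext ω
    ring
  have i1 : Integrable (fun ω => f ω ^ 2 * (t * t)) P := ((hf.pow 2).int P).mul_const _
  have i2 : Integrable (fun ω => (f ω * g ω) * (2 * t)) P := ((hf.mul hg).int P).mul_const _
  have i3 : Integrable (fun ω => g ω ^ 2) P := (hg.pow 2).int P
  have i12 : Integrable (fun ω => f ω ^ 2 * (t * t) + (f ω * g ω) * (2 * t)) P := i1.add i2
  rw [h2, integral_add i12 i3, integral_add i1 i2, integral_mul_const,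
    integral_mul_const] at h1
  linarith

private theorem S1c_cs {Ω' : Type} [MeasurableSpace Ω'] (P : Measure Ω') [IsFiniteMeasure P]
    {f g : Ω' → ℝ} (hf : BM f) (hg : BM g) :
    (∫ ω, f ω * g ω ∂P) ^ 2 ≤ (∫ ω, f ω ^ 2 ∂P) * ∫ ω, g ω ^ 2 ∂P := by
  have h1 := discrim_le_zero (S1c_quad P hf hg)
  rw [discrim] at h1
  nlinarith [h1]

theorem E_cs (k : ℕ) {f g : Ω → ℝ} (hf : BM f) (hg : BM g) (ω : Ω) :
    (S.E k (fun ω' => f ω' * g ω') ω) ^ 2 ≤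
      S.E k (fun ω' => f ω' ^ 2) ω * S.E k (fun ω' => g ω' ^ 2) ω := by
  have := S.prob
  exact S1c_cs S.P (hf.comp (s_meas S k ω)) (hg.comp (s_meas S k ω))

theorem E_cs_div (k : ℕ) {f g : Ω → ℝ} (hf : BM f) (hg : BM g) {c : ℝ} (hc : 0 < c)
    (h : ∀ ω, c ≤ g ω) (ω : Ω) :
    (S.E k f ω) ^ 2 ≤ S.E k (fun ω' => f ω' ^ 2 / g ω') ω * S.E k g ω := by
  have hs : ∀ ω, √c ≤ √(g ω) := fun ω => Real.sqrt_le_sqrt (h ω)
  have hc' : 0 < √c := Real.sqrt_pos.2 hc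
  have h1 := E_cs S k (hf.div hg.sqrt hc' hs) hg.sqrt ω
  have e1 : (fun ω' => f ω' / √(g ω') * √(g ω')) = f := by
    funext ω'
    exact div_mul_cancel₀ _ (ne_of_gt (lt_of_lt_of_le hc' (hs ω')))
  have e2 : (fun ω' => (f ω' / √(g ω')) ^ 2) = fun ω' => f ω' ^ 2 / g ω' := by
    funext ω'
    rw [div_pow, Real.sq_sqrt (hc.le.trans (h ω'))]
  have e3 : (fun ω' => √(g ω') ^ 2) = g := by
    funext ω'
    exact Real.sq_sqrt (hc.le.trans (h ω'))
  rw [e1, e2, e3] at h1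
  exact h1

/-- Cauchy-Schwarz for the whole measure. -/
theorem P_cs {f g : Ω → ℝ} (hf : BM f) (hg : BM g) :
    (∫ ω, f ω * g ω ∂S.P) ^ 2 ≤ (∫ ω, f ω ^ 2 ∂S.P) * ∫ ω, g ω ^ 2 ∂S.P := by
  have := S.prob
  exact S1c_cs S.P hf hg

/-- Cauchy-Schwarz for finite sums of integrals. -/
theorem P_cs_sum (N : ℕ) {f g : ℕ → Ω → ℝ} (hf : ∀ k, BM (f k)) (hg : ∀ k, BM (g k)) :
    (∑ k ∈ Finset.range N, ∫ ω, f k ω * g k ω ∂S.P) ^ 2 ≤
      (∑ k ∈ Finset.range N, ∫ ω, f k ω ^ 2 ∂S.P) * ∑ k ∈ Finset.range N, ∫ ω, g k ω ^ 2 ∂S.P := by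
  have := S.prob
  have h0 : ∀ t : ℝ, 0 ≤ (∑ k ∈ Finset.range N, ∫ ω, f k ω ^ 2 ∂S.P) * (t * t) +
      (2 * ∑ k ∈ Finset.range N, ∫ ω, f k ω * g k ω ∂S.P) * t +
      ∑ k ∈ Finset.range N, ∫ ω, g k ω ^ 2 ∂S.P := by
    intro t
    have h1 : 0 ≤ ∑ k ∈ Finset.range N, ((∫ ω, f k ω ^ 2 ∂S.P) * (t * t) +
        (2 * ∫ ω, f k ω * g k ω ∂S.P) * t + ∫ ω, g k ω ^ 2 ∂S.P) :=
      Finset.sum_nonneg fun k _ => S1c_quad S.P (hf k) (hg k) t
    rw [Finset.sum_add_distrib, Finset.sum_add_distrib, ← Finset.sum_mul, ← Finset.sum_mul,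
      ← Finset.mul_sum] at h1
    exact h1
  have h1 := discrim_le_zero h0
  rw [discrim] at h1
  nlinarith [h1]

theorem E_inv {Y : ℕ → Ω → ℝ} (hY : S.Mart Y) {c : ℝ} (hc : 0 < c) (h : ∀ k ω, c ≤ Y k ω)
    {k l : ℕ} (hkl : k ≤ l) (ω : Ω) : (Y k ω)⁻¹ ≤ S.E k (fun ω' => (Y l ω')⁻¹) ω := by
  have h1 := E_cs_div S k (BM.const 1) (hY.bm l) hc (h l) ω
  rw [E_const, mart_E S hY hkl] at h1
  have e1 : (fun ω' => (1 : ℝ) ^ 2 / Y l ω') = fun ω' => (Y l ω')⁻¹ := by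
    funext ω'
    rw [one_pow, one_div]
  rw [e1, one_pow] at h1
  have hpos : 0 < Y k ω := lt_of_lt_of_le hc (h k ω)
  rw [inv_le_iff_one_le_mul₀ hpos]
  exact h1

theorem E_rpow_neg_half {Y : ℕ → Ω → ℝ} (hY : S.Mart Y) {c : ℝ} (hc : 0 < c)
    (h : ∀ k ω, c ≤ Y k ω) {k l : ℕ} (hkl : k ≤ l) (ω : Ω) :
    √((Y k ω)⁻¹) ≤ S.E k (fun ω' => √((Y l ω')⁻¹)) ω := by
  have hc' : 0 < √c := Real.sqrt_pos.2 hc
  have hs : ∀ ω, √c ≤ √(Y l ω) := fun ω => Real.sqrt_le_sqrt (h l ω)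
  have h1 := E_cs_div S k (BM.const 1) (hY.bm l).sqrt hc' hs ω
  rw [E_const] at h1
  have e1 : (fun ω' => (1 : ℝ) ^ 2 / √(Y l ω')) = fun ω' => √((Y l ω')⁻¹) := by
    funext ω'
    rw [one_pow, one_div, Real.sqrt_inv]
  rw [e1, one_pow] at h1
  have h2 := E_cs S k (hY.bm l).sqrt (BM.const 1) ω
  have e2 : (fun ω' => √(Y l ω') ^ 2) = Y l := by
    funext ω'
    exact Real.sq_sqrt (hc.le.trans (h l ω'))
  have e3 : (fun ω' => √(Y l ω') * 1) = fun ω' => √(Y l ω') := by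
    funext ω'
    rw [mul_one]
  have e4 : (fun _ : Ω => (1 : ℝ) ^ 2) = fun _ => 1 := by
    funext ω'
    rw [one_pow]
  rw [e2, e3, e4, E_const, mart_E S hY hkl, mul_one] at h2
  have hpos : 0 < Y k ω := lt_of_lt_of_le hc (h k ω)
  have h3 : S.E k (fun ω' => √(Y l ω')) ω ≤ √(Y k ω) := Real.le_sqrt_of_sq_le h2
  have h4 : 0 ≤ S.E k (fun ω' => √((Y l ω')⁻¹)) ω := E_nonneg S k (fun ω' => Real.sqrt_nonneg _) ω
  rw [Real.sqrt_inv, inv_le_iff_one_le_mul₀ (Real.sqrt_pos.2 hpos)]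
  calc (1 : ℝ) ≤ S.E k (fun ω' => √((Y l ω')⁻¹)) ω * S.E k (fun ω' => √(Y l ω')) ω := h1
    _ ≤ S.E k (fun ω' => √((Y l ω')⁻¹)) ω * √(Y k ω) := mul_le_mul_of_nonneg_left h3 h4

theorem D_bm {F : ℕ → Ω → ℝ} (hF : S.Mart F) (k : ℕ) : BM (S.D F k) :=
  E_bm S k ((hF.bm (k + 1)).sub (hF.bm k)).abs

theorem D_nonneg (F : ℕ → Ω → ℝ) (k : ℕ) (ω : Ω) : 0 ≤ S.D F k ω :=
  E_nonneg S k (fun _ => abs_nonneg _) ω

theorem D_ad (F : ℕ → Ω → ℝ) (k : ℕ) : S.Ad k (S.D F k) := E_ad S k _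

theorem D_le {X : ℕ → Ω → ℝ} (hX : S.Mart X) (h0 : ∀ k ω, 0 ≤ X k ω) (k : ℕ) (ω : Ω) :
    S.D X k ω ≤ 2 * X k ω := by
  have h1 : S.D X k ω ≤ S.E k (fun ω' => X (k + 1) ω' + X k ω') ω := by
    refine E_mono S k ((hX.bm (k + 1)).sub (hX.bm k)).abs ((hX.bm (k + 1)).add (hX.bm k)) ?_ ω
    intro ω'
    rw [abs_le]
    have := h0 (k + 1) ω'
    have := h0 k ω'
    constructor <;> linarith
  rw [E_add S k (hX.bm (k + 1)) (hX.bm k)] at h1
  have h2 : S.E k (fun ω' => X (k + 1) ω') ω = X k ω := hX.step k ω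
  have h3 : S.E k (fun ω' => X k ω') ω = X k ω := E_of_ad S (hX.ad k) ω
  have h4 : S.E k (X (k + 1)) ω = X k ω := hX.step k ω
  have h5 : S.E k (X k) ω = X k ω := E_of_ad S (hX.ad k) ω
  rw [h4, h5] at h1
  linarith

theorem EJ_bm {F : ℕ → Ω → ℝ} (hF : S.Mart F) (j k : ℕ) : BM (S.EJ j F k) :=
  E_bm S k (D_bm S hF (k + j))

theorem EJ_nonneg (j : ℕ) (F : ℕ → Ω → ℝ) (k : ℕ) (ω : Ω) : 0 ≤ S.EJ j F k ω :=
  E_nonneg S k (fun ω' => D_nonneg S F (k + j) ω') ω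

theorem EJ_ad (j : ℕ) (F : ℕ → Ω → ℝ) (k : ℕ) : S.Ad k (S.EJ j F k) := E_ad S k _

theorem EJ_le {X : ℕ → Ω → ℝ} (hX : S.Mart X) (h0 : ∀ k ω, 0 ≤ X k ω) (j k : ℕ) (ω : Ω) :
    S.EJ j X k ω ≤ 2 * X k ω := by
  have h1 : S.EJ j X k ω ≤ S.E k (fun ω' => 2 * X (k + j) ω') ω := by
    refine E_mono S k (D_bm S hX (k + j)) ((BM.const 2).mul (hX.bm (k + j))) ?_ ω
    intro ω'
    exact D_le S hX h0 (k + j) ω'
  rw [E_const_mul, mart_E S hX (Nat.le_add_right k j)] at h1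
  exact h1

theorem Pair.symm {S : Sp Ω} {X Y : ℕ → Ω → ℝ} {K : ℝ} (h : S.Pair X Y K) : S.Pair Y X K := by
  obtain ⟨c, hc, hlow⟩ := h.low
  exact ⟨h.mY, h.mX, ⟨c, hc, fun k ω => ⟨(hlow k ω).2, (hlow k ω).1⟩⟩,
    fun k ω => by rw [mul_comm]; exact h.one k ω, fun k ω => by rw [mul_comm]; exact h.le k ω⟩

theorem Pair.pos {S : Sp Ω} {X Y : ℕ → Ω → ℝ} {K : ℝ} (h : S.Pair X Y K) (k : ℕ) (ω : Ω) :
    0 < X k ω ∧ 0 < Y k ω := by
  obtain ⟨c, hc, hlow⟩ := h.low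
  exact ⟨lt_of_lt_of_le hc (hlow k ω).1, lt_of_lt_of_le hc (hlow k ω).2⟩

theorem Pair.inv_le {S : Sp Ω} {X Y : ℕ → Ω → ℝ} {K : ℝ} (h : S.Pair X Y K) (k : ℕ) (ω : Ω) :
    (Y k ω)⁻¹ ≤ X k ω := by
  rw [inv_le_iff_one_le_mul₀ (Pair.pos h k ω).2]
  exact h.one k ω

end Pool.Agent.Lib.MP_f0c028_an.SQ
end

section

set_option autoImplicit false

/-! # TASK S2: the energy increments

`q F X k = F_k² / X_k`, `V F X k l = E_k (q F X l) - q F X k`. Write `f_k = F_k / X_k`.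
* `V_eq`: expand the square: `(F_l - f_k X_l)²/X_l = F_l²/X_l - 2 f_k F_l + f_k² X_l`, take `E k` (`f_k` is `Ad k`, `mart_E`):
  `E_k (F_l²/X_l) - 2 f_k F_k + f_k² X_k = E_k (F_l²/X_l) - F_k²/X_k`. `V_nonneg` follows.
* `D_split`: `|F_{l+1} - F_l| ≤ |F_{l+1} - f_l X_{l+1}| + |f_l| |X_{l+1} - X_l|` and, by `E_cs_div`,
  `(E_l |F_{l+1} - f_l X_{l+1}|)² ≤ V_{l,l+1} E_l X_{l+1} = V_{l,l+1} X_l`.
* `E_shift`: `|f_l - f_k| Z = (|F_l - f_k X_l| / √X_l) (Z / √X_l)`, Cauchy-Schwarz (`E_cs`), `V_eq`.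
* `V_sum`: `∫ V_{k,l} = ∫ q_l - ∫ q_k` (`E_int`), so `∫ q_k` is nondecreasing in `k` (`V_nonneg`) and nonnegative;
  `∑_{k<N} (Q_{k+j} - Q_k) = ∑_{k=N}^{N+j-1} Q_k - ∑_{k<j} Q_k ≤ j Q_M`. `V_sum_one`: telescoping. -/

open MeasureTheory

namespace Pool.Agent.Lib.MP_f0c028_an.SQ

variable {Ω : Type} [MeasurableSpace Ω] (S : Sp Ω)

/-- The energy density. -/
noncomputable def q (F X : ℕ → Ω → ℝ) (k : ℕ) (ω : Ω) : ℝ := F k ω ^ 2 / X k ω

/-- The energy increment. -/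
noncomputable def Sp.V (S : Sp Ω) (F X : ℕ → Ω → ℝ) (k l : ℕ) (ω : Ω) : ℝ :=
  S.E k (q F X l) ω - q F X k ω

variable {F X : ℕ → Ω → ℝ}

theorem q_bm (hF : S.Mart F) (hX : S.Mart X) {c : ℝ} (hc : 0 < c) (h : ∀ k ω, c ≤ X k ω)
    (k : ℕ) : BM (q F X k) := by
  exact ((hF.bm k).pow 2).div (hX.bm k) hc (h k)

theorem V_bm (hF : S.Mart F) (hX : S.Mart X) {c : ℝ} (hc : 0 < c) (h : ∀ k ω, c ≤ X k ω)
    (k l : ℕ) : BM (S.V F X k l) := by
  exact (E_bm S k (q_bm S hF hX hc h l)).sub (q_bm S hF hX hc h k)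

private theorem f_bm (hF : S.Mart F) (hX : S.Mart X) {c : ℝ} (hc : 0 < c) (h : ∀ k ω, c ≤ X k ω)
    (k : ℕ) : BM (fun ω => F k ω / X k ω) :=
  (hF.bm k).div (hX.bm k) hc (h k)

private theorem f_ad (hF : S.Mart F) (hX : S.Mart X) (k : ℕ) :
    S.Ad k (fun ω => F k ω / X k ω) := by
  intro ω η
  show F k (S.s k ω η) / X k (S.s k ω η) = F k ω / X k ω
  rw [hF.ad k ω η, hX.ad k ω η]

private theorem A_bm (hF : S.Mart F) (hX : S.Mart X) {c : ℝ} (hc : 0 < c)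
    (h : ∀ k ω, c ≤ X k ω) (k l : ℕ) : BM (fun ω => F l ω - F k ω / X k ω * X l ω) :=
  (hF.bm l).sub ((f_bm S hF hX hc h k).mul (hX.bm l))

theorem V_eq (hF : S.Mart F) (hX : S.Mart X) {c : ℝ} (hc : 0 < c) (h : ∀ k ω, c ≤ X k ω)
    {k l : ℕ} (hkl : k ≤ l) (ω : Ω) :
    S.E k (fun ω' => (F l ω' - F k ω' / X k ω' * X l ω') ^ 2 / X l ω') ω = S.V F X k l ω := by
  have hx : ∀ k ω, 0 < X k ω := fun k ω => hc.trans_le (h k ω)
  have hfb := f_bm S hF hX hc h k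
  have hfa := f_ad S hF hX k
  have e1 : (fun ω' => (F l ω' - F k ω' / X k ω' * X l ω') ^ 2 / X l ω') =
      fun ω' => (q F X l ω' + (-2 * (F k ω' / X k ω')) * F l ω') +
        (F k ω' / X k ω') ^ 2 * X l ω' := by
    funext ω'
    have := (hx l ω').ne'
    unfold q
    field_simp
    ring
  have hg1 : S.Ad k (fun ω' => -2 * (F k ω' / X k ω')) := by
    intro ω η
    have := hfa ω η
    simp only at this ⊢
    rw [this]
  have hg2 : S.Ad k (fun ω' => (F k ω' / X k ω') ^ 2) := by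
    intro ω η
    have := hfa ω η
    simp only at this ⊢
    rw [this]
  have b1 : BM (fun ω' => (-2 * (F k ω' / X k ω')) * F l ω') :=
    ((BM.const (-2)).mul hfb).mul (hF.bm l)
  have b2 : BM (fun ω' => (F k ω' / X k ω') ^ 2 * X l ω') := (hfb.pow 2).mul (hX.bm l)
  have b0 := q_bm S hF hX hc h l
  rw [e1, E_add S k (b0.add b1) b2, E_add S k b0 b1, E_mul S hg1, E_mul S hg2, mart_E S hF hkl,
    mart_E S hX hkl]
  unfold Sp.V
  have := (hx k ω).ne'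
  have e2 : q F X k ω = F k ω ^ 2 / X k ω := rfl
  rw [e2]
  field_simp
  ring

theorem V_nonneg (hF : S.Mart F) (hX : S.Mart X) {c : ℝ} (hc : 0 < c) (h : ∀ k ω, c ≤ X k ω)
    {k l : ℕ} (hkl : k ≤ l) (ω : Ω) : 0 ≤ S.V F X k l ω := by
  rw [← V_eq S hF hX hc h hkl]
  exact E_nonneg S k (fun ω' => div_nonneg (sq_nonneg _) (hc.le.trans (h l ω'))) ω

theorem D_split (hF : S.Mart F) (hX : S.Mart X) {c : ℝ} (hc : 0 < c) (h : ∀ k ω, c ≤ X k ω)
    (l : ℕ) (ω : Ω) :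
    S.D F l ω ≤ √(X l ω * S.V F X l (l + 1) ω) + |F l ω| / X l ω * S.D X l ω := by
  have hx : ∀ k ω, 0 < X k ω := fun k ω => hc.trans_le (h k ω)
  have hA := A_bm S hF hX hc h l (l + 1)
  have hfb := f_bm S hF hX hc h l
  have hfa := f_ad S hF hX l
  have hga : S.Ad l (fun ω' => |F l ω' / X l ω'|) := by
    intro ω η
    have := hfa ω η
    simp only at this ⊢
    rw [this]
  have hdX : BM (fun ω' => |X (l + 1) ω' - X l ω'|) := ((hX.bm (l + 1)).sub (hX.bm l)).abs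
  have hdF : BM (fun ω' => |F (l + 1) ω' - F l ω'|) := ((hF.bm (l + 1)).sub (hF.bm l)).abs
  have h1 : S.D F l ω ≤ S.E l (fun ω' => |F (l + 1) ω' - F l ω' / X l ω' * X (l + 1) ω'| +
      |F l ω' / X l ω'| * |X (l + 1) ω' - X l ω'|) ω := by
    refine E_mono S l hdF (hA.abs.add (hfb.abs.mul hdX)) (fun ω' => ?_) ω
    have h2 : F (l + 1) ω' - F l ω' = (F (l + 1) ω' - F l ω' / X l ω' * X (l + 1) ω') +
        F l ω' / X l ω' * (X (l + 1) ω' - X l ω') := by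
      have := (hx l ω').ne'
      field_simp
      ring
    rw [h2, ← abs_mul]
    exact abs_add_le _ _
  rw [E_add S l hA.abs (hfb.abs.mul hdX), E_mul S hga] at h1
  have h3 : |F l ω / X l ω| = |F l ω| / X l ω := by
    rw [abs_div, abs_of_pos (hx l ω)]
  have h4 : S.E l (fun ω' => |X (l + 1) ω' - X l ω'|) ω = S.D X l ω := rfl
  rw [h3, h4] at h1
  have h5 := E_cs_div S l hA.abs (hX.bm (l + 1)) hc (h (l + 1)) ω
  have h6 : (fun ω' => |F (l + 1) ω' - F l ω' / X l ω' * X (l + 1) ω'| ^ 2 / X (l + 1) ω') =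
      fun ω' => (F (l + 1) ω' - F l ω' / X l ω' * X (l + 1) ω') ^ 2 / X (l + 1) ω' := by
    funext ω'
    rw [sq_abs]
  rw [h6, V_eq S hF hX hc h (Nat.le_succ l), mart_E S hX (Nat.le_succ l)] at h5
  have h7 : S.E l (fun ω' => |F (l + 1) ω' - F l ω' / X l ω' * X (l + 1) ω'|) ω ≤
      √(X l ω * S.V F X l (l + 1) ω) := by
    apply Real.le_sqrt_of_sq_le
    rw [mul_comm]
    exact h5
  linarith

theorem E_shift (hF : S.Mart F) (hX : S.Mart X) {c : ℝ} (hc : 0 < c) (h : ∀ k ω, c ≤ X k ω)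
    {k l : ℕ} (hkl : k ≤ l) {Z : Ω → ℝ} (hZ : BM Z) (ω : Ω) :
    S.E k (fun ω' => |F l ω' / X l ω' - F k ω' / X k ω'| * |Z ω'|) ω ≤
      √(S.V F X k l ω * S.E k (fun ω' => Z ω' ^ 2 / X l ω') ω) := by
  have hx : ∀ k ω, 0 < X k ω := fun k ω => hc.trans_le (h k ω)
  have hs := (hX.bm l).sqrt
  have hsq : ∀ ω', √c ≤ √(X l ω') := fun ω' => Real.sqrt_le_sqrt (h l ω')
  have hb1 : BM (fun ω' => |F l ω' / X l ω' - F k ω' / X k ω'| * √(X l ω')) :=
    ((f_bm S hF hX hc h l).sub (f_bm S hF hX hc h k)).abs.mul hs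
  have hb2 : BM (fun ω' => |Z ω'| / √(X l ω')) := hZ.abs.div hs (Real.sqrt_pos.2 hc) hsq
  have h1 := E_cs S k hb1 hb2 ω
  have e1 : (fun ω' => |F l ω' / X l ω' - F k ω' / X k ω'| * √(X l ω') *
      (|Z ω'| / √(X l ω'))) = fun ω' => |F l ω' / X l ω' - F k ω' / X k ω'| * |Z ω'| := by
    funext ω'
    have := (Real.sqrt_pos.2 (hx l ω')).ne'
    field_simp
  have e2 : (fun ω' => (|F l ω' / X l ω' - F k ω' / X k ω'| * √(X l ω')) ^ 2) =
      fun ω' => (F l ω' - F k ω' / X k ω' * X l ω') ^ 2 / X l ω' := by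
    funext ω'
    rw [mul_pow, sq_abs, Real.sq_sqrt (hx l ω').le]
    have h1 := (hx l ω').ne'
    have h2 := (hx k ω').ne'
    field_simp
  have e3 : (fun ω' => (|Z ω'| / √(X l ω')) ^ 2) = fun ω' => Z ω' ^ 2 / X l ω' := by
    funext ω'
    rw [div_pow, sq_abs, Real.sq_sqrt (hx l ω').le]
  rw [e1, e2, e3, V_eq S hF hX hc h hkl] at h1
  exact Real.le_sqrt_of_sq_le h1

private theorem V_int (hF : S.Mart F) (hX : S.Mart X) {c : ℝ} (hc : 0 < c)
    (h : ∀ k ω, c ≤ X k ω) (k l : ℕ) :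
    ∫ ω, S.V F X k l ω ∂S.P = ∫ ω, q F X l ω ∂S.P - ∫ ω, q F X k ω ∂S.P := by
  have := S.prob
  have hl := q_bm S hF hX hc h l
  have hk := q_bm S hF hX hc h k
  have e : (fun ω => S.V F X k l ω) = fun ω => S.E k (q F X l) ω - q F X k ω := rfl
  rw [e, integral_sub ((E_bm S k hl).int S.P) (hk.int S.P), E_int S k hl]

private theorem Q_nonneg {c : ℝ} (hc : 0 < c) (h : ∀ k ω, c ≤ X k ω) (k : ℕ) :
    0 ≤ ∫ ω, q F X k ω ∂S.P :=
  integral_nonneg fun ω => div_nonneg (sq_nonneg _) (hc.le.trans (h k ω))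

theorem Q_mono (hF : S.Mart F) (hX : S.Mart X) {c : ℝ} (hc : 0 < c) (h : ∀ k ω, c ≤ X k ω)
    {k l : ℕ} (hkl : k ≤ l) : ∫ ω, q F X k ω ∂S.P ≤ ∫ ω, q F X l ω ∂S.P := by
  have h1 := V_int S hF hX hc h k l
  have h2 : 0 ≤ ∫ ω, S.V F X k l ω ∂S.P :=
    integral_nonneg fun ω => V_nonneg S hF hX hc h hkl ω
  linarith

private theorem tele (hF : S.Mart F) (hX : S.Mart X) {c : ℝ} (hc : 0 < c)
    (h : ∀ k ω, c ≤ X k ω) {N j M : ℕ} (hM : N + j ≤ M) :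
    ∑ k ∈ Finset.range N, ((∫ ω, q F X (k + j + 1) ω ∂S.P) - ∫ ω, q F X (k + j) ω ∂S.P) ≤
      ∫ ω, q F X M ω ∂S.P := by
  have h1 := Finset.sum_range_sub (fun i => ∫ ω, q F X (i + j) ω ∂S.P) N
  have h2 : ∑ k ∈ Finset.range N, ((∫ ω, q F X (k + j + 1) ω ∂S.P) -
      ∫ ω, q F X (k + j) ω ∂S.P) = ∑ k ∈ Finset.range N,
        ((∫ ω, q F X (k + 1 + j) ω ∂S.P) - ∫ ω, q F X (k + j) ω ∂S.P) := by
    refine Finset.sum_congr rfl fun k _ => ?_
    rw [Nat.add_right_comm k 1 j]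
  rw [h2, h1]
  have h3 := Q_mono S hF hX hc h hM
  have h4 := Q_nonneg (F := F) S hc h (0 + j)
  linarith

theorem V_sum (hF : S.Mart F) (hX : S.Mart X) {c : ℝ} (hc : 0 < c) (h : ∀ k ω, c ≤ X k ω)
    {N j M : ℕ} (hM : N + j ≤ M) :
    ∑ k ∈ Finset.range N, ∫ ω, S.V F X k (k + j) ω ∂S.P ≤ j * ∫ ω, q F X M ω ∂S.P := by
  simp only [V_int S hF hX hc h]
  induction j with
  | zero => simp
  | succ j ih =>
    have h1 := ih (by omega)
    have h2 := tele S hF hX hc h (N := N) (j := j) (M := M) (by omega)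
    have h3 : ∑ k ∈ Finset.range N, ((∫ ω, q F X (k + (j + 1)) ω ∂S.P) - ∫ ω, q F X k ω ∂S.P) =
        ∑ k ∈ Finset.range N, ((∫ ω, q F X (k + j) ω ∂S.P) - ∫ ω, q F X k ω ∂S.P) +
        ∑ k ∈ Finset.range N, ((∫ ω, q F X (k + j + 1) ω ∂S.P) -
          ∫ ω, q F X (k + j) ω ∂S.P) := by
      rw [← Finset.sum_add_distrib]
      refine Finset.sum_congr rfl fun k _ => ?_
      rw [← Nat.add_assoc]
      ring
    rw [h3]
    push_cast
    linarith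

theorem V_sum_one (hF : S.Mart F) (hX : S.Mart X) {c : ℝ} (hc : 0 < c) (h : ∀ k ω, c ≤ X k ω)
    {N j M : ℕ} (hM : N + j ≤ M) :
    ∑ k ∈ Finset.range N, ∫ ω, S.V F X (k + j) (k + j + 1) ω ∂S.P ≤ ∫ ω, q F X M ω ∂S.P := by
  simp only [V_int S hF hX hc h]
  exact tele S hF hX hc h hM

end Pool.Agent.Lib.MP_f0c028_an.SQ
end
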