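import Pool.Agent.Lib.MP_f0c028_an.Mg.G001

section

set_option autoImplicit false

/-! # TASK GW4: one step of the Bellman argument

Write `p = 2t` at `x`, `q = t` at `y`; `a = Aa`. For every complex `a` and `s_q = Ss t y > 0`:
`|f_q|² / s_q = 2 Re (conj a * f_q) - |a|² s_q + |f_q - a s_q|² / s_q`.
Integrate against `gk t (x - y) dy`; the mean of `f_q` is `f_p` (`hc_semi`, `t + t = 2 * t`), so
`ht t (Ph t) x = 2 Re (conj a * f_p) - |a|² ∫ gk s_q + ∫ gk |f_q - a s_q|² / s_q`.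
By `bell_gain` (with `L = 4 K`, `x = vv (2t) x`, `y = ht (2t) w x`) and `sf = 2 x - Nf / L`:
`s_q ≤ s_p + (linear in (v_q - v_p, u_q - u_p)) - (s_q - s_p)² / (20 L (v_p + v_q))`, and the linear terms have mean `0` (`ht_semi`),
so `∫ gk s_q ≤ s_p - ∫ gk (s_q - s_p)² / (20 L (v_p + v_q))`. Since `2 Re (conj a f_p) - |a|² s_p = |f_p|² / s_p` for `a = f_p / s_p`
the claim follows. All functions are bounded and measurable, so everything is integrable (`gk_mul_int`, `gk_mul_intC`). -/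

open Real

namespace Pool.Agent.Lib.MP_f0c028_an.GW

open MeasureTheory Set Filter Topology
open scoped ENNReal InnerProductSpace

/-- The heat `A₂` condition. -/
def HA (w : ℂ → ℝ) (K : ℝ) : Prop :=
  ∀ t : ℝ, 0 < t → ∀ x, ht t (fun z => (w z)⁻¹) x * ht t w x ≤ K

/-- The heat extension of the inverse weight. -/
noncomputable def vv (w : ℂ → ℝ) (t : ℝ) (x : ℂ) : ℝ := ht t (fun z => (w z)⁻¹) x

/-- The corrected heat extension. -/
noncomputable def Ss (w : ℂ → ℝ) (K t : ℝ) (x : ℂ) : ℝ := sf (4 * K) (vv w t x) (ht t w x)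

/-- The energy density. -/
noncomputable def Ph (w : ℂ → ℝ) (K : ℝ) (f : ℂ → ℂ) (t : ℝ) (x : ℂ) : ℝ :=
  ‖hc t f x‖ ^ 2 / Ss w K t x

/-- The ratio. -/
noncomputable def Aa (w : ℂ → ℝ) (K : ℝ) (f : ℂ → ℂ) (t : ℝ) (x : ℂ) : ℂ :=
  hc (2 * t) f x / (Ss w K (2 * t) x : ℂ)

/-- The integrand of the gain. -/
noncomputable def Gi (w : ℂ → ℝ) (K : ℝ) (f : ℂ → ℂ) (t : ℝ) (x y : ℂ) : ℝ :=
  ‖hc t f y - Aa w K f t x * (Ss w K t y : ℂ)‖ ^ 2 / Ss w K t y +
    ‖Aa w K f t x‖ ^ 2 * ((Ss w K t y - Ss w K (2 * t) x) ^ 2 /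
      (20 * (4 * K) * (vv w (2 * t) x + vv w t y)))

/-- The gain. -/
noncomputable def Ee (w : ℂ → ℝ) (K : ℝ) (f : ℂ → ℂ) (t : ℝ) (x : ℂ) : ℝ :=
  ∫ y, gk t (x - y) * Gi w K f t x y

theorem one_le_HA {w : ℂ → ℝ} {n K : ℝ} (h : Bw w n) (hK : HA w K) : 1 ≤ K :=
  (one_le_mul_ht h one_pos 0).trans (hK 1 one_pos 0)

theorem Ss_bounds {w : ℂ → ℝ} {n K : ℝ} (h : Bw w n) (hK : HA w K) {t : ℝ} (ht0 : 0 < t) (x : ℂ) :
    vv w t x ≤ Ss w K t x ∧ Ss w K t x ≤ 2 * vv w t x := by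
  have h2 := hK t ht0 x
  exact sf_bounds (ht_pos h.inv ht0 x) (ht_pos h ht0 x) (one_le_mul_ht h ht0 x)
    (by unfold vv; linarith)

theorem Ss_meas {w : ℂ → ℝ} {n : ℝ} (h : Bw w n) (K : ℝ) :
    Measurable fun q : ℝ × ℂ => Ss w K q.1 q.2 := by
  have h1 := ht_meas h.inv.meas
  have h2 := ht_meas h.meas
  unfold Ss sf Nf vv
  exact (h1.const_mul 2).sub
    ((((measurable_const.div h2).sqrt.sub h1.sqrt).pow_const 2).div_const (4 * K))

/-- The one-step inequality. -/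
theorem step_ineq {w : ℂ → ℝ} {n K : ℝ} (h : Bw w n) (hK : HA w K) {f : ℂ → ℂ} {M : ℝ}
    (hf : Bf f M) {t : ℝ} (ht0 : 0 < t) (x : ℂ) :
    Ph w K f (2 * t) x + Ee w K f t x ≤ ∫ y, gk t (x - y) * Ph w K f t y := by
  have h2t : 0 < 2 * t := by positivity
  have hK1 := one_le_HA h hK
  have hL : 0 < 4 * K := by linarith
  obtain ⟨a, ha⟩ : ∃ a, a = Aa w K f t x := ⟨_, rfl⟩
  obtain ⟨vp, hvp⟩ : ∃ v, v = vv w (2 * t) x := ⟨_, rfl⟩
  obtain ⟨up, hup⟩ : ∃ u, u = ht (2 * t) w x := ⟨_, rfl⟩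
  obtain ⟨sp, hsp⟩ : ∃ s, s = Ss w K (2 * t) x := ⟨_, rfl⟩
  obtain ⟨fp, hfp⟩ : ∃ s, s = hc (2 * t) f x := ⟨_, rfl⟩
  have hvp0 : 0 < vp := hvp ▸ ht_pos h.inv h2t x
  have hup0 : 0 < up := hup ▸ ht_pos h h2t x
  have hspb := Ss_bounds h hK h2t x
  rw [← hvp, ← hsp] at hspb
  have hsp0 : 0 < sp := lt_of_lt_of_le hvp0 hspb.1
  have h1p : 1 ≤ vp * up := by
    rw [hvp, hup]
    exact one_le_mul_ht h h2t x
  have h2p : 4 * (vp * up) ≤ 4 * K := by
    have := hK (2 * t) h2t x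
    rw [hvp, hup]
    unfold vv
    linarith
  have hspE : sp = 2 * vp - Nf (4 * K) vp up / (4 * K) := by
    rw [hsp, hvp, hup]
    rfl
  obtain ⟨c1, hc1⟩ : ∃ c, c = 2 - Nx (4 * K) vp up / (4 * K) := ⟨_, rfl⟩
  obtain ⟨c2, hc2⟩ : ∃ c, c = -(Ny (4 * K) vp up / (4 * K)) := ⟨_, rfl⟩
  -- the pointwise estimate of the corrected heat extension
  have hs : ∀ y, Ss w K t y + (Ss w K t y - sp) ^ 2 / (20 * (4 * K) * (vp + vv w t y)) ≤
      sp + c1 * (vv w t y - vp) + c2 * (ht t w y - up) := by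
    intro y
    have hv0 : 0 < vv w t y := ht_pos h.inv ht0 y
    have h2q : 4 * (vv w t y * ht t w y) ≤ 4 * K := by
      have := hK t ht0 y
      unfold vv
      linarith
    have hb := bell_gain (L := 4 * K) hvp0 hup0 h1p h2p hv0 (ht_pos h ht0 y)
      (one_le_mul_ht h ht0 y) h2q
    have hsq : Ss w K t y = 2 * vv w t y - Nf (4 * K) (vv w t y) (ht t w y) / (4 * K) := rfl
    have e1 : sf (4 * K) (vv w t y) (ht t w y) = Ss w K t y := rfl
    have e2 : sf (4 * K) vp up = sp := by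
      rw [hsp, hvp, hup]
      rfl
    rw [e1, e2] at hb
    have e3 : Nf (4 * K) (vv w t y) (ht t w y) = 4 * K * (2 * vv w t y - Ss w K t y) := by
      rw [hsq]
      field_simp
      ring
    have e4 : Nf (4 * K) vp up = 4 * K * (2 * vp - sp) := by
      rw [hspE]
      field_simp
      ring
    rw [e3, e4] at hb
    have e5 : (Ss w K t y - sp) ^ 2 / (20 * (4 * K) * (vp + vv w t y)) =
        (Ss w K t y - sp) ^ 2 / (20 * (vp + vv w t y)) / (4 * K) := by
      rw [div_div]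
      congr 1
      ring
    rw [e5, hc1, hc2]
    have h3 := div_le_div_of_nonneg_right hb hL.le
    have e6 : (4 * K * (2 * vv w t y - Ss w K t y) - 4 * K * (2 * vp - sp) -
        Nx (4 * K) vp up * (vv w t y - vp) - Ny (4 * K) vp up * (ht t w y - up)) / (4 * K) =
        2 * (vv w t y - vp) - (Ss w K t y - sp) -
          Nx (4 * K) vp up / (4 * K) * (vv w t y - vp) -
          Ny (4 * K) vp up / (4 * K) * (ht t w y - up) := by
      field_simp
      ring
    rw [e6] at h3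
    linarith
  -- the linear part
  obtain ⟨lin, hlin⟩ : ∃ l : ℂ → ℝ, l = fun y => 2 * ((starRingEnd ℂ) a * hc t f y).re -
      ‖a‖ ^ 2 * (sp + c1 * (vv w t y - vp) + c2 * (ht t w y - up)) := ⟨_, rfl⟩
  have hpt : ∀ y, lin y + Gi w K f t x y ≤ Ph w K f t y := by
    intro y
    have hs0 : 0 < Ss w K t y :=
      lt_of_lt_of_le (ht_pos h.inv ht0 y) (Ss_bounds h hK ht0 y).1
    have e1 : ‖hc t f y - a * (Ss w K t y : ℂ)‖ ^ 2 = ‖hc t f y‖ ^ 2 -
        2 * Ss w K t y * ((starRingEnd ℂ) a * hc t f y).re + ‖a‖ ^ 2 * Ss w K t y ^ 2 := by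
      rw [← Complex.normSq_eq_norm_sq, ← Complex.normSq_eq_norm_sq, ← Complex.normSq_eq_norm_sq,
        Complex.normSq_apply, Complex.normSq_apply, Complex.normSq_apply]
      simp only [Complex.sub_re, Complex.sub_im, Complex.mul_re, Complex.mul_im,
        Complex.ofReal_re, Complex.ofReal_im, Complex.conj_re, Complex.conj_im]
      ring
    have e2 : Ph w K f t y = 2 * ((starRingEnd ℂ) a * hc t f y).re - ‖a‖ ^ 2 * Ss w K t y +
        ‖hc t f y - a * (Ss w K t y : ℂ)‖ ^ 2 / Ss w K t y := by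
      rw [e1]
      unfold Ph
      field_simp
      ring
    have e3 : Gi w K f t x y = ‖hc t f y - a * (Ss w K t y : ℂ)‖ ^ 2 / Ss w K t y +
        ‖a‖ ^ 2 * ((Ss w K t y - sp) ^ 2 / (20 * (4 * K) * (vp + vv w t y))) := by
      unfold Gi
      rw [ha, hsp, hvp]
    have h4 := mul_le_mul_of_nonneg_left (hs y) (sq_nonneg ‖a‖)
    rw [e3, e2, hlin]
    simp only
    linarith
  -- measurability and bounds
  have hn : 0 < n := h.pos
  have mpair : Measurable fun y : ℂ => ((t, y) : ℝ × ℂ) := measurable_const.prodMk measurable_id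
  have mv : Measurable fun y => vv w t y := (ht_meas h.inv.meas).comp mpair
  have mu : Measurable fun y => ht t w y := (ht_meas h.meas).comp mpair
  have mf : Measurable fun y => hc t f y := (hc_meas hf.meas).comp mpair
  have mS : Measurable fun y => Ss w K t y := (Ss_meas h K).comp mpair
  have mPh : Measurable fun y => Ph w K f t y := (mf.norm.pow_const 2).div mS
  have mlin : Measurable lin := by
    rw [hlin]
    exact ((Complex.measurable_re.comp (mf.const_mul _)).const_mul 2).sub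
      (((measurable_const.add ((mv.sub_const vp).const_mul c1)).add
        ((mu.sub_const up).const_mul c2)).const_mul _)
  have mGi : Measurable fun y => Gi w K f t x y := by
    unfold Gi
    have m1 : Measurable fun y => hc t f y - Aa w K f t x * (Ss w K t y : ℂ) :=
      mf.sub ((Complex.measurable_ofReal.comp mS).const_mul _)
    exact ((m1.norm.pow_const 2).div mS).add
      ((((mS.sub_const _).pow_const 2).div
        ((measurable_const.add mv).const_mul _)).const_mul _)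
  have bv : ∀ y, |vv w t y - vp| ≤ n + n := by
    intro y
    have b1 := ht_le h.inv ht0 y
    have b2 := ht_pos h.inv ht0 y
    have b3 := ht_le h.inv h2t x
    have b4 : vv w t y = ht t (fun z => (w z)⁻¹) y := rfl
    have b5 : vp = ht (2 * t) (fun z => (w z)⁻¹) x := hvp
    rw [abs_le]
    constructor <;> linarith
  have bu : ∀ y, |ht t w y - up| ≤ n + n := by
    intro y
    have b1 := ht_le h ht0 y
    have b2 := ht_pos h ht0 y
    have b3 := ht_le h h2t x
    rw [abs_le]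
    constructor <;> linarith
  have hM0 : 0 ≤ M := (norm_nonneg _).trans (hf.le 0)
  have bPh : ∀ y, |Ph w K f t y| ≤ M ^ 2 * n := by
    intro y
    have b1 := hc_le hf ht0 y
    have b2 : n⁻¹ ≤ Ss w K t y := (le_ht h.inv ht0 y).trans (Ss_bounds h hK ht0 y).1
    have b3 : 0 < n⁻¹ := inv_pos.mpr hn
    have b4 : 0 < Ss w K t y := b3.trans_le b2
    unfold Ph
    rw [abs_of_nonneg (by positivity), div_le_iff₀ b4]
    calc ‖hc t f y‖ ^ 2 ≤ M ^ 2 := pow_le_pow_left₀ (norm_nonneg _) b1 2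
      _ = M ^ 2 * n * n⁻¹ := by field_simp
      _ ≤ M ^ 2 * n * Ss w K t y := by
        refine mul_le_mul_of_nonneg_left b2 (by positivity)
  have blin : ∀ y, |lin y| ≤ 2 * (‖a‖ * M) +
      ‖a‖ ^ 2 * (|sp| + |c1| * (n + n) + |c2| * (n + n)) := by
    intro y
    rw [hlin]
    simp only
    refine (abs_sub _ _).trans (add_le_add ?_ ?_)
    · rw [abs_mul, abs_of_pos (by norm_num : (0:ℝ) < 2)]
      refine mul_le_mul_of_nonneg_left ?_ (by norm_num)
      refine (Complex.abs_re_le_norm _).trans ?_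
      rw [norm_mul, RCLike.norm_conj]
      exact mul_le_mul_of_nonneg_left (hc_le hf ht0 y) (norm_nonneg _)
    · rw [abs_mul, abs_of_nonneg (sq_nonneg ‖a‖)]
      refine mul_le_mul_of_nonneg_left ?_ (sq_nonneg _)
      refine (abs_add_le _ _).trans (add_le_add ((abs_add_le _ _).trans (add_le_add le_rfl ?_)) ?_)
      · rw [abs_mul]
        exact mul_le_mul_of_nonneg_left (bv y) (abs_nonneg _)
      · rw [abs_mul]
        exact mul_le_mul_of_nonneg_left (bu y) (abs_nonneg _)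
  have pGi : ∀ y, 0 ≤ Gi w K f t x y := by
    intro y
    have b4 : 0 < Ss w K t y :=
      lt_of_lt_of_le (ht_pos h.inv ht0 y) (Ss_bounds h hK ht0 y).1
    have b5 : 0 < vv w t y := ht_pos h.inv ht0 y
    have b6 : 0 < vv w (2 * t) x := ht_pos h.inv h2t x
    unfold Gi
    positivity
  have bGi : ∀ y, |Gi w K f t x y| ≤ M ^ 2 * n + (2 * (‖a‖ * M) +
      ‖a‖ ^ 2 * (|sp| + |c1| * (n + n) + |c2| * (n + n))) := by
    intro y
    rw [abs_of_nonneg (pGi y)]
    have q1 := hpt y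
    have q2 := (abs_le.1 (bPh y)).2
    have q3 := (abs_le.1 (blin y)).1
    linarith
  have iPh := gk_mul_int ht0 mPh bPh x
  have ilin := gk_mul_int ht0 mlin blin x
  have iGi := gk_mul_int ht0 mGi bGi x
  have hmono : ∫ y, (gk t (x - y) * lin y + gk t (x - y) * Gi w K f t x y) ≤
      ∫ y, gk t (x - y) * Ph w K f t y := by
    refine integral_mono (ilin.add iGi) iPh fun y => ?_
    have := mul_le_mul_of_nonneg_left (hpt y) (gk_pos ht0 (x - y)).le
    simp only
    linarith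
  rw [integral_add ilin iGi] at hmono
  refine le_trans (add_le_add (le_of_eq ?_) le_rfl) hmono
  -- the integral of the linear part
  have htt : t + t = 2 * t := by ring
  have iv := gk_mul_int ht0 mv (M := n) (fun y => by
    have b1 := ht_le h.inv ht0 y
    have b2 := ht_pos h.inv ht0 y
    change |ht t (fun z => (w z)⁻¹) y| ≤ n
    rw [abs_of_pos b2]
    exact b1) x
  have iu := gk_mul_int ht0 mu (M := n) (fun y => by
    rw [abs_of_pos (ht_pos h ht0 y)]
    exact ht_le h ht0 y) x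
  have ifc := gk_mul_intC ht0 mf (M := M) (fun y => hc_le hf ht0 y) x
  have ev : ∫ y, gk t (x - y) * vv w t y = vp := by
    have := ht_semi h.inv ht0 ht0 x
    rw [htt] at this
    rw [hvp]
    exact this
  have eu : ∫ y, gk t (x - y) * ht t w y = up := by
    have := ht_semi h ht0 ht0 x
    rw [htt] at this
    rw [hup]
    exact this
  have ef : ∫ y, (gk t (x - y) : ℂ) * hc t f y = fp := by
    have := hc_semi hf ht0 ht0 x
    rw [htt] at this
    rw [hfp]
    exact this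
  have ire : ∫ y, ((starRingEnd ℂ) a * ((gk t (x - y) : ℂ) * hc t f y)).re =
      ((starRingEnd ℂ) a * fp).re := by
    have := Complex.reCLM.integral_comp_comm (ifc.const_mul ((starRingEnd ℂ) a))
    simp only [Complex.reCLM_apply] at this
    rw [this, integral_const_mul, ef]
  have iire : Integrable fun y => ((starRingEnd ℂ) a * ((gk t (x - y) : ℂ) * hc t f y)).re :=
    Complex.reCLM.integrable_comp (ifc.const_mul ((starRingEnd ℂ) a))
  have e7 : ∀ y, gk t (x - y) * lin y =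
      2 * ((starRingEnd ℂ) a * ((gk t (x - y) : ℂ) * hc t f y)).re +
      (gk t (x - y) * (-(‖a‖ ^ 2 * (sp - c1 * vp - c2 * up))) +
      (-(‖a‖ ^ 2 * c1) * (gk t (x - y) * vv w t y) +
      -(‖a‖ ^ 2 * c2) * (gk t (x - y) * ht t w y))) := by
    intro y
    have e8 : ((starRingEnd ℂ) a * ((gk t (x - y) : ℂ) * hc t f y)).re =
        gk t (x - y) * ((starRingEnd ℂ) a * hc t f y).re := by
      rw [← Complex.re_ofReal_mul]
      congr 1
      ring
    rw [e8, hlin]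
    simp only
    ring
  have e9 : ∫ y, gk t (x - y) * lin y = 2 * ((starRingEnd ℂ) a * fp).re - ‖a‖ ^ 2 * sp := by
    simp_rw [e7]
    have i1 := iire.const_mul 2
    have i2 := (gk_int_sub ht0 x).mul_const (-(‖a‖ ^ 2 * (sp - c1 * vp - c2 * up)))
    have i3 := iv.const_mul (-(‖a‖ ^ 2 * c1))
    have i4 := iu.const_mul (-(‖a‖ ^ 2 * c2))
    have i34 : Integrable fun y => -(‖a‖ ^ 2 * c1) * (gk t (x - y) * vv w t y) +
        -(‖a‖ ^ 2 * c2) * (gk t (x - y) * ht t w y) := i3.add i4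
    have i234 : Integrable fun y => gk t (x - y) * (-(‖a‖ ^ 2 * (sp - c1 * vp - c2 * up))) +
        (-(‖a‖ ^ 2 * c1) * (gk t (x - y) * vv w t y) +
        -(‖a‖ ^ 2 * c2) * (gk t (x - y) * ht t w y)) := i2.add i34
    rw [integral_add i1 i234, integral_add i2 i34, integral_add i3 i4,
      integral_const_mul, integral_mul_const, integral_const_mul, integral_const_mul,
      ire, integral_gk_sub ht0, ev, eu]
    ring
  rw [e9]
  have ha' : a = fp / (sp : ℂ) := by
    rw [ha, hfp, hsp]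
    rfl
  have e10 : ((starRingEnd ℂ) a * fp).re = ‖fp‖ ^ 2 / sp := by
    rw [ha', map_div₀, Complex.conj_ofReal, div_mul_eq_mul_div, mul_comm, Complex.mul_conj,
      ← Complex.ofReal_div, Complex.ofReal_re, Complex.normSq_eq_norm_sq]
  have e11 : ‖a‖ ^ 2 = ‖fp‖ ^ 2 / sp ^ 2 := by
    rw [ha', norm_div, Complex.norm_real, Real.norm_eq_abs, div_pow, sq_abs]
  have e12 : Ph w K f (2 * t) x = ‖fp‖ ^ 2 / sp := by
    rw [hfp, hsp]
    rfl
  rw [e10, e11, e12]
  field_simp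
  ring

end Pool.Agent.Lib.MP_f0c028_an.GW
end

section

set_option autoImplicit false

/-! # TASK GW5: the derivative of the heat extension

`dk_meas`: `gk_meas`. `dk_norm_sq`: `‖dk t z‖² = ‖z‖²/(16 t²) (gk t z)²`, `gk_sq_le`. `dk_int`: `‖dk t z‖ ≤ √(t⁻¹ gk t z gk (2t) z) ≤ C (gk t z + gk (2t) z)`
(`dk_norm_sq`, `2 √(ab) ≤ a + b`). `integral_dk`: `dk t` is odd (`integral_neg_eq_self`); for all `t`.
`dd_meas`: as `ht_meas` in GW2 (`StronglyMeasurable.integral_prod_right'`, `hc_meas`, `dk_meas`).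
`dd_integrable`: as `hc_integrable` in GW2b: Young, `dk_int`, `hc_integrable`.
`cs_real`: Cauchy-Schwarz; if `X = ∫ ‖g‖² r`, `Y = ∫ ‖h‖²/r`: for every `c > 0`: `2 ‖g h‖ ≤ c ‖g‖² r + c⁻¹ ‖h‖²/r`, so `2 |∫ g h| ≤ c X + Y/c`; choose `c`
(careful if `X = 0` or `Y = 0`: let `c → ∞` or `c → 0`; e.g. the discriminant `∀ c > 0, 2 N ≤ c X + Y/c` implies `N² ≤ X Y`). -/

open Real

namespace Pool.Agent.Lib.MP_f0c028_an.GW

open MeasureTheory Set Filter Topology
open scoped ENNReal InnerProductSpace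

/-- The kernel of `∂/∂z̄` applied to the heat kernel. -/
noncomputable def dk (t : ℝ) (z : ℂ) : ℂ := -(z / (4 * t : ℝ)) * (gk t z : ℂ)

/-- The derivative `∂/∂z̄` of the heat extension at time `2t`. -/
noncomputable def dd (t : ℝ) (f : ℂ → ℂ) (x : ℂ) : ℂ := ∫ y, dk t (x - y) * hc t f y

theorem dk_meas : Measurable fun q : ℝ × ℂ => dk q.1 q.2 := by
  unfold dk
  exact ((measurable_snd.div (Complex.measurable_ofReal.comp
    (measurable_const.mul measurable_fst))).neg).mul (Complex.measurable_ofReal.comp gk_meas)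

private theorem GW5_dk_norm {t : ℝ} (ht0 : 0 < t) (z : ℂ) : ‖dk t z‖ = ‖z‖ / (4 * t) * gk t z := by
  unfold dk
  have h4 : (0 : ℝ) < 4 * t := by positivity
  rw [norm_mul, norm_neg, norm_div, Complex.norm_of_nonneg h4.le,
    Complex.norm_of_nonneg (gk_pos ht0 z).le]

theorem dk_norm_sq {t : ℝ} (ht0 : 0 < t) (z : ℂ) : ‖dk t z‖ ^ 2 ≤ t⁻¹ * gk t z * gk (2 * t) z := by
  have h1 := gk_sq_le ht0 z
  have h2 := gk_pos ht0 z
  have h3 : ‖dk t z‖ ^ 2 = (‖z‖ ^ 2 / (16 * t ^ 2) * gk t z) * gk t z := by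
    rw [GW5_dk_norm ht0]
    field_simp
    ring
  rw [h3]
  calc (‖z‖ ^ 2 / (16 * t ^ 2) * gk t z) * gk t z ≤ (t⁻¹ * gk (2 * t) z) * gk t z := by gcongr
    _ = t⁻¹ * gk t z * gk (2 * t) z := by ring

theorem dk_int {t : ℝ} (ht0 : 0 < t) : Integrable (dk t) := by
  have hm : Measurable (dk t) := dk_meas.comp (measurable_const.prodMk measurable_id)
  have hi : Integrable fun z => √(t⁻¹) * (gk t z + gk (2 * t) z) :=
    ((gk_int ht0).add (gk_int (by positivity : 0 < 2 * t))).const_mul _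
  refine hi.mono' hm.aestronglyMeasurable (ae_of_all _ fun z => ?_)
  have h1 := dk_norm_sq ht0 z
  have h2 := gk_pos ht0 z
  have h3 := gk_pos (by positivity : 0 < 2 * t) z
  have h4 : 0 ≤ √(t⁻¹) := Real.sqrt_nonneg _
  have h5 : √(t⁻¹) ^ 2 = t⁻¹ := Real.sq_sqrt (by positivity)
  have h6 : ‖dk t z‖ ^ 2 ≤ (√(t⁻¹) * (gk t z + gk (2 * t) z)) ^ 2 := by
    refine h1.trans ?_
    rw [mul_pow, h5, mul_assoc]
    have h7 : 0 ≤ t⁻¹ := by positivity
    refine mul_le_mul_of_nonneg_left ?_ h7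
    nlinarith [mul_pos h2 h3, sq_nonneg (gk t z), sq_nonneg (gk (2 * t) z)]
  exact (pow_le_pow_iff_left₀ (norm_nonneg _) (by positivity) two_ne_zero).mp h6

theorem integral_dk (t : ℝ) : ∫ z, dk t z = 0 := by
  have h1 : ∀ z : ℂ, dk t (-z) = -dk t z := by
    intro z
    unfold dk
    rw [gk_neg, neg_div, neg_mul, neg_mul]
  have h2 := integral_neg_eq_self (dk t) (volume : Measure ℂ)
  simp_rw [h1] at h2
  rw [integral_neg] at h2
  exact self_eq_neg.mp h2.symm

theorem dd_meas {f : ℂ → ℂ} (hf : Measurable f) : Measurable fun q : ℝ × ℂ => dd q.1 f q.2 := by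
  have h1 : Measurable fun p : (ℝ × ℂ) × ℂ => dk p.1.1 (p.1.2 - p.2) * hc p.1.1 f p.2 := by
    have h2 : Measurable fun p : (ℝ × ℂ) × ℂ => (p.1.1, p.1.2 - p.2) :=
      (measurable_fst.comp measurable_fst).prodMk
        ((measurable_snd.comp measurable_fst).sub measurable_snd)
    have h3 : Measurable fun p : (ℝ × ℂ) × ℂ => (p.1.1, p.2) :=
      (measurable_fst.comp measurable_fst).prodMk measurable_snd
    exact (dk_meas.comp h2).mul ((hc_meas hf).comp h3)
  have h4 := h1.stronglyMeasurable.integral_prod_right' (ν := (volume : Measure ℂ))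
  exact h4.measurable

theorem dd_integrable {f : ℂ → ℂ} {M : ℝ} (h : Bf f M) {t : ℝ} (ht0 : 0 < t) :
    Integrable (dd t f) := by
  have h1 : Integrable (hc t f) := hc_integrable h ht0
  have h2 := Integrable.convolution_integrand (ContinuousLinearMap.mul ℂ ℂ) h1 (dk_int ht0)
  have h3 := h2.integral_prod_left
  refine h3.congr (ae_of_all _ fun x => ?_)
  unfold dd
  refine integral_congr_ae (ae_of_all _ fun y => ?_)
  simp only [ContinuousLinearMap.mul_apply']
  rw [mul_comm]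

/-- Cauchy-Schwarz. -/
theorem cs_real {g : ℂ → ℂ} {h : ℂ → ℂ} {r : ℂ → ℝ} (hr : ∀ z, 0 < r z)
    (hg : Integrable fun z => ‖g z‖ ^ 2 * r z) (hh : Integrable fun z => ‖h z‖ ^ 2 / r z)
    (hgh : Integrable fun z => g z * h z) :
    ‖∫ z, g z * h z‖ ^ 2 ≤ (∫ z, ‖g z‖ ^ 2 * r z) * ∫ z, ‖h z‖ ^ 2 / r z := by
  set X := ∫ z, ‖g z‖ ^ 2 * r z with hX
  set Y := ∫ z, ‖h z‖ ^ 2 / r z with hY
  set N := ‖∫ z, g z * h z‖ with hN
  have hX0 : 0 ≤ X := integral_nonneg fun z => mul_nonneg (sq_nonneg _) (hr z).le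
  have hY0 : 0 ≤ Y := integral_nonneg fun z => div_nonneg (sq_nonneg _) (hr z).le
  have hN0 : 0 ≤ N := norm_nonneg _
  have key : ∀ c : ℝ, 0 < c → 2 * N ≤ c * X + c⁻¹ * Y := by
    intro c hc
    have h1 : N ≤ ∫ z, ‖g z * h z‖ := norm_integral_le_integral_norm _
    have h2 : ∫ z, 2 * ‖g z * h z‖ ≤ ∫ z, (c * (‖g z‖ ^ 2 * r z) + c⁻¹ * (‖h z‖ ^ 2 / r z)) := by
      refine integral_mono (hgh.norm.const_mul 2) ((hg.const_mul c).add (hh.const_mul c⁻¹)) ?_
      intro z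
      have hrz := hr z
      have h3 : c * (‖g z‖ ^ 2 * r z) + c⁻¹ * (‖h z‖ ^ 2 / r z) - 2 * (‖g z‖ * ‖h z‖) =
          (c * ‖g z‖ * r z - ‖h z‖) ^ 2 / (c * r z) := by
        field_simp
        ring
      have h4 : 0 ≤ (c * ‖g z‖ * r z - ‖h z‖) ^ 2 / (c * r z) := by positivity
      show 2 * ‖g z * h z‖ ≤ c * (‖g z‖ ^ 2 * r z) + c⁻¹ * (‖h z‖ ^ 2 / r z)
      rw [norm_mul]
      linarith
    rw [integral_const_mul, integral_add (hg.const_mul c) (hh.const_mul c⁻¹), integral_const_mul,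
      integral_const_mul] at h2
    linarith
  rcases hN0.eq_or_lt with h0 | h0
  · rw [← h0]
    have := mul_nonneg hX0 hY0
    simpa using this
  rcases hX0.eq_or_lt with h1 | h1
  · exfalso
    rcases hY0.eq_or_lt with h2 | h2
    · have h3 := key 1 one_pos
      rw [← h1, ← h2] at h3
      simp at h3
      linarith
    · have h3 := key (Y / N) (by positivity)
      rw [← h1, mul_zero, zero_add, inv_div, div_mul_cancel₀ _ h2.ne'] at h3
      linarith
  · have h3 := key (N / X) (by positivity)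
    rw [div_mul_cancel₀ _ h1.ne', inv_div] at h3
    have h4 : N ≤ X / N * Y := by linarith
    have h5 : N * N ≤ X / N * Y * N := mul_le_mul_of_nonneg_right h4 hN0
    have h6 : X / N * Y * N = X * Y := by
      field_simp
    rw [h6] at h5
    rw [sq]
    exact h5

end Pool.Agent.Lib.MP_f0c028_an.GW
end

section

set_option autoImplicit false

/-! # TASK GW8b: the disc `A₂` condition implies the heat `A₂` condition

`gk_layer` (`gk t (x - y)`) and Tonelli: `ofReal (ht t w x) = ∫⁻ ρ in Ioi 0, ofReal (ρ/(8πt²) exp(-ρ²/(4t))) * ofReal (W ρ)`,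
`W ρ = ∫ y in ball x ρ, w y`, the same for `1/w`: `V ρ`. The product is a double integral over `ρ, r > 0`. With `|B_ρ| = π ρ²` (`vol_ball` in RWMain or
`Complex.volume_ball`) `hA` says `W ρ V ρ ≤ K (π ρ²)²`. If `ρ ≤ r`: `W ρ V r ≤ W r V r ≤ K π² r⁴`; if `r ≤ ρ`: `W ρ V r ≤ W ρ V ρ ≤ K π² ρ⁴`; so always
`W ρ V r ≤ K π² (ρ⁴ + r⁴)`. Hence
`ht w · ht (1/w) ≤ K π² ∫∫ (ρ r/(64 π² t⁴)) e^(-ρ²/(4t)) e^(-r²/(4t)) (ρ⁴ + r⁴) = 2 K (∫ ρ⁵/(8t²) e^..) (∫ r/(8t²) e^..) = 2 K · 8 t · 1/(4t) = 4 K`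
(`moment_two`, `moment_neg`). `w` and `1/w` are bounded, so all the real integrals are finite. -/

open Real

namespace Pool.Agent.Lib.MP_f0c028_an.GW

open MeasureTheory Set Filter Topology
open scoped ENNReal InnerProductSpace

private noncomputable def GW8b_a (t ρ : ℝ) : ℝ≥0∞ :=
  ENNReal.ofReal (ρ / (8 * π * t ^ 2) * Real.exp (-(ρ ^ 2 / (4 * t))))

private theorem GW8b_a_meas (t : ℝ) : Measurable (GW8b_a t) := by
  unfold GW8b_a
  fun_prop

private theorem GW8b_layer {u : ℂ → ℝ} (hu : Measurable u) (hu0 : ∀ z, 0 ≤ u z) {M : ℝ}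
    (hM : ∀ z, |u z| ≤ M) {t : ℝ} (ht0 : 0 < t) (x : ℂ) :
    ENNReal.ofReal (ht t u x) = ∫⁻ ρ in Ioi (0 : ℝ),
      GW8b_a t ρ * ∫⁻ y in Metric.ball x ρ, ENNReal.ofReal (u y) := by
  unfold ht
  rw [ofReal_integral_eq_lintegral_ofReal (gk_mul_int ht0 hu hM x)
    (ae_of_all _ fun y => mul_nonneg (gk_pos ht0 _).le (hu0 y))]
  have h1 : ∀ y, ENNReal.ofReal (gk t (x - y) * u y) = ∫⁻ ρ in Ioi (0 : ℝ),
      {q : ℝ × ℂ | ‖x - q.2‖ < q.1}.indicator
        (fun q => GW8b_a t q.1 * ENNReal.ofReal (u q.2)) (ρ, y) := by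
    intro y
    rw [ENNReal.ofReal_mul (gk_pos ht0 _).le, gk_layer ht0,
      ← lintegral_mul_const' _ _ ENNReal.ofReal_ne_top]
    refine lintegral_congr fun ρ => ?_
    by_cases h : ‖x - y‖ < ρ
    · rw [Set.indicator_of_mem (by rw [Metric.mem_ball, dist_zero_right]; exact h),
        Set.indicator_of_mem (show (ρ, y) ∈ {q : ℝ × ℂ | ‖x - q.2‖ < q.1} from h)]
      rfl
    · rw [Set.indicator_of_notMem (by rw [Metric.mem_ball, dist_zero_right]; exact h),
        Set.indicator_of_notMem (show (ρ, y) ∉ {q : ℝ × ℂ | ‖x - q.2‖ < q.1} from h), zero_mul]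
  simp_rw [h1]
  rw [lintegral_lintegral_swap]
  · refine setLIntegral_congr_fun measurableSet_Ioi fun ρ _ => ?_
    have hne : GW8b_a t ρ ≠ ∞ := ENNReal.ofReal_ne_top
    rw [← lintegral_const_mul' _ _ hne, ← lintegral_indicator Metric.isOpen_ball.measurableSet]
    refine lintegral_congr fun y => ?_
    by_cases h : ‖x - y‖ < ρ
    · rw [Set.indicator_of_mem (show (ρ, y) ∈ {q : ℝ × ℂ | ‖x - q.2‖ < q.1} from h),
        Set.indicator_of_mem (show y ∈ Metric.ball x ρ by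
          rw [Metric.mem_ball, dist_comm, dist_eq_norm]; exact h)]
    · rw [Set.indicator_of_notMem (show (ρ, y) ∉ {q : ℝ × ℂ | ‖x - q.2‖ < q.1} from h),
        Set.indicator_of_notMem (show y ∉ Metric.ball x ρ by
          rw [Metric.mem_ball, dist_comm, dist_eq_norm]; exact h)]
  · refine Measurable.aemeasurable ?_
    have h2 : Measurable ({q : ℝ × ℂ | ‖x - q.2‖ < q.1}.indicator
        (fun q => GW8b_a t q.1 * ENNReal.ofReal (u q.2))) := by
      refine Measurable.indicator ?_ ?_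
      · exact ((GW8b_a_meas t).comp measurable_fst).mul
          (ENNReal.measurable_ofReal.comp (hu.comp measurable_snd))
      · exact measurableSet_lt (by fun_prop) (by fun_prop)
    exact h2.comp measurable_swap

private theorem GW8b_M0 {t : ℝ} (ht0 : 0 < t) :
    ∫⁻ ρ in Ioi (0 : ℝ), GW8b_a t ρ = ENNReal.ofReal (1 / (4 * π * t)) := by
  have hpi := Real.pi_pos
  have h1 : ∀ ρ : ℝ, GW8b_a t ρ = ENNReal.ofReal π⁻¹ *
      ENNReal.ofReal (ρ / (8 * t ^ 2) * Real.exp (-(ρ ^ 2 / (4 * t)))) := by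
    intro ρ
    rw [← ENNReal.ofReal_mul (by positivity), GW8b_a]
    congr 1
    field_simp
  simp_rw [h1]
  rw [lintegral_const_mul' _ _ ENNReal.ofReal_ne_top, moment_neg ht0,
    ← ENNReal.ofReal_mul (by positivity)]
  congr 1
  field_simp

private theorem GW8b_M4 {t : ℝ} (ht0 : 0 < t) :
    ∫⁻ ρ in Ioi (0 : ℝ), GW8b_a t ρ * ENNReal.ofReal (ρ ^ 4) = ENNReal.ofReal (8 * t / π) := by
  have hpi := Real.pi_pos
  have h1 : ∀ ρ : ℝ, GW8b_a t ρ * ENNReal.ofReal (ρ ^ 4) = ENNReal.ofReal π⁻¹ *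
      ENNReal.ofReal (ρ ^ 5 / (8 * t ^ 2) * Real.exp (-(ρ ^ 2 / (4 * t)))) := by
    intro ρ
    rw [← ENNReal.ofReal_mul (by positivity), GW8b_a, mul_comm, ← ENNReal.ofReal_mul (by positivity)]
    congr 1
    field_simp
  simp_rw [h1]
  rw [lintegral_const_mul' _ _ ENNReal.ofReal_ne_top, moment_two ht0,
    ← ENNReal.ofReal_mul (by positivity)]
  congr 1
  field_simp

private theorem GW8b_ball {u : ℂ → ℝ} (hu : Measurable u) (hu0 : ∀ z, 0 ≤ u z) {M : ℝ}
    (hM : ∀ z, |u z| ≤ M) (x : ℂ) (r : ℝ) :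
    ∫⁻ y in Metric.ball x r, ENNReal.ofReal (u y) = ENNReal.ofReal (∫ y in Metric.ball x r, u y) := by
  rw [ofReal_integral_eq_lintegral_ofReal]
  · refine Measure.integrableOn_of_bounded (M := M) ?_ hu.aestronglyMeasurable
      (ae_of_all _ fun z => ?_)
    · exact measure_ball_lt_top.ne
    · rw [Real.norm_eq_abs]
      exact hM z
  · exact ae_of_all _ fun z => hu0 z

theorem HA_of_disc {w : ℂ → ℝ} {n K : ℝ} (h : Bw w n)
    (hA : ∀ (c : ℂ) (r : ℝ), 0 < r →
      ((∫ z in Metric.ball c r, w z) / (volume (Metric.ball c r)).toReal) *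
      ((∫ z in Metric.ball c r, (w z)⁻¹) / (volume (Metric.ball c r)).toReal) ≤ K) :
    HA w (4 * K) := by
  intro t ht0 x
  have hpi := Real.pi_pos
  have hb : ∀ {u : ℂ → ℝ}, Bw u n → (∀ z, 0 ≤ u z) ∧ ∀ z, |u z| ≤ n := fun {u} hu =>
    ⟨fun z => (hu.wpos z).le, fun z => by rw [abs_of_pos (hu.wpos z)]; exact hu.le z⟩
  have hw0 := (hb h).1
  have hv0 := (hb h.inv).1
  obtain ⟨W, hW⟩ : ∃ W : ℝ → ℝ≥0∞, ∀ r, W r = ∫⁻ y in Metric.ball x r, ENNReal.ofReal (w y) :=
    ⟨_, fun _ => rfl⟩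
  obtain ⟨V, hV⟩ : ∃ V : ℝ → ℝ≥0∞, ∀ r, V r = ∫⁻ y in Metric.ball x r, ENNReal.ofReal (w y)⁻¹ :=
    ⟨_, fun _ => rfl⟩
  have hWm : Monotone W := fun r s hrs => by
    rw [hW, hW]
    exact lintegral_mono_set (Metric.ball_subset_ball hrs)
  have hVm : Monotone V := fun r s hrs => by
    rw [hV, hV]
    exact lintegral_mono_set (Metric.ball_subset_ball hrs)
  have hK0 : 0 ≤ K := by
    refine le_trans ?_ (hA x 1 one_pos)
    refine mul_nonneg (div_nonneg (integral_nonneg hw0) ENNReal.toReal_nonneg)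
      (div_nonneg (integral_nonneg hv0) ENNReal.toReal_nonneg)
  have hVW : ∀ r : ℝ, 0 < r → V r * W r ≤ ENNReal.ofReal (K * π ^ 2) * ENNReal.ofReal (r ^ 4) := by
    intro r hr
    rw [hV, hW, GW8b_ball h.inv.meas hv0 (hb h.inv).2, GW8b_ball h.meas hw0 (hb h).2,
      ← ENNReal.ofReal_mul (integral_nonneg hv0), ← ENNReal.ofReal_mul (by positivity)]
    refine ENNReal.ofReal_le_ofReal ?_
    have h1 := hA x r hr
    have h2 : (volume (Metric.ball x r)).toReal = π * r ^ 2 := by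
      rw [Complex.volume_ball, ENNReal.toReal_mul, ENNReal.toReal_pow, ENNReal.toReal_ofReal hr.le]
      simp [mul_comm]
    rw [h2, div_mul_div_comm, div_le_iff₀ (by positivity)] at h1
    calc _ = (∫ z in Metric.ball x r, w z) * ∫ z in Metric.ball x r, (w z)⁻¹ := mul_comm _ _
      _ ≤ K * (π * r ^ 2 * (π * r ^ 2)) := h1
      _ = _ := by ring
  have hVW2 : ∀ ρ r : ℝ, 0 < ρ → 0 < r → V ρ * W r ≤ ENNReal.ofReal (K * π ^ 2) *
      (ENNReal.ofReal (ρ ^ 4) + ENNReal.ofReal (r ^ 4)) := by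
    intro ρ r hρ hr
    rcases le_total ρ r with hle | hle
    · refine (mul_le_mul' (hVm hle) le_rfl).trans ((hVW r hr).trans ?_)
      exact mul_le_mul' le_rfl le_add_self
    · refine (mul_le_mul' le_rfl (hWm hle)).trans ((hVW ρ hρ).trans ?_)
      exact mul_le_mul' le_rfl le_self_add
  have hL1 : ENNReal.ofReal (ht t w x) = ∫⁻ ρ in Ioi (0 : ℝ), GW8b_a t ρ * W ρ := by
    rw [GW8b_layer h.meas hw0 (hb h).2 ht0 x]
    simp_rw [hW]
  have hL2 : ENNReal.ofReal (ht t (fun z => (w z)⁻¹) x) = ∫⁻ ρ in Ioi (0 : ℝ), GW8b_a t ρ * V ρ := by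
    rw [GW8b_layer h.inv.meas hv0 (hb h.inv).2 ht0 x]
    simp_rw [hV]
  obtain ⟨J, hJ⟩ : ∃ J, J = ∫⁻ ρ in Ioi (0 : ℝ), GW8b_a t ρ * W ρ := ⟨_, rfl⟩
  obtain ⟨C, hC⟩ : ∃ C, C = ENNReal.ofReal (K * π ^ 2) := ⟨_, rfl⟩
  obtain ⟨M0, hM0⟩ : ∃ M0, M0 = ∫⁻ ρ in Ioi (0 : ℝ), GW8b_a t ρ := ⟨_, rfl⟩
  obtain ⟨M4, hM4⟩ : ∃ M4, M4 = ∫⁻ ρ in Ioi (0 : ℝ), GW8b_a t ρ * ENNReal.ofReal (ρ ^ 4) :=
    ⟨_, rfl⟩
  have ham := GW8b_a_meas t
  have ham4 : Measurable fun ρ : ℝ => GW8b_a t ρ * ENNReal.ofReal (ρ ^ 4) :=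
    ham.mul (ENNReal.measurable_ofReal.comp (by fun_prop))
  have hpt : ∀ ρ ∈ Ioi (0 : ℝ), J * (GW8b_a t ρ * V ρ) ≤
      C * M0 * (GW8b_a t ρ * ENNReal.ofReal (ρ ^ 4)) + C * M4 * GW8b_a t ρ := by
    intro ρ hρ
    rw [mul_comm, hJ]
    refine (lintegral_const_mul_le _ _).trans ?_
    have h1 : ∫⁻ r in Ioi (0 : ℝ), GW8b_a t ρ * V ρ * (GW8b_a t r * W r) ≤
        ∫⁻ r in Ioi (0 : ℝ), (C * (GW8b_a t ρ * ENNReal.ofReal (ρ ^ 4)) * GW8b_a t r +
          C * GW8b_a t ρ * (GW8b_a t r * ENNReal.ofReal (r ^ 4))) := by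
      refine setLIntegral_mono' measurableSet_Ioi fun r hr => ?_
      calc GW8b_a t ρ * V ρ * (GW8b_a t r * W r) = GW8b_a t ρ * GW8b_a t r * (V ρ * W r) := by ring
        _ ≤ GW8b_a t ρ * GW8b_a t r * (C * (ENNReal.ofReal (ρ ^ 4) + ENNReal.ofReal (r ^ 4))) := by
            rw [hC]
            exact mul_le_mul' le_rfl (hVW2 ρ r hρ hr)
        _ = _ := by ring
    refine h1.trans (le_of_eq ?_)
    rw [lintegral_add_left (ham.const_mul _), lintegral_const_mul _ ham, lintegral_const_mul _ ham4,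
      ← hM0, ← hM4]
    ring
  have hfin : J * ∫⁻ ρ in Ioi (0 : ℝ), GW8b_a t ρ * V ρ ≤ C * M0 * M4 + C * M4 * M0 := by
    refine (lintegral_const_mul_le _ _).trans ((setLIntegral_mono' measurableSet_Ioi hpt).trans ?_)
    rw [lintegral_add_left (ham4.const_mul _), lintegral_const_mul _ ham4, lintegral_const_mul _ ham,
      ← hM0, ← hM4]
  have hval : C * M0 * M4 + C * M4 * M0 = ENNReal.ofReal (4 * K) := by
    rw [hC, hM0, hM4, GW8b_M0 ht0, GW8b_M4 ht0, ← ENNReal.ofReal_mul (by positivity),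
      ← ENNReal.ofReal_mul (by positivity), ← ENNReal.ofReal_mul (by positivity),
      ← ENNReal.ofReal_mul (by positivity), ← ENNReal.ofReal_add (by positivity) (by positivity)]
    congr 1
    field_simp
    ring
  rw [hval, hJ, ← hL1, ← hL2, ← ENNReal.ofReal_mul (ht_pos h ht0 x).le, mul_comm] at hfin
  exact (ENNReal.ofReal_le_ofReal_iff (by linarith)).1 hfin

end Pool.Agent.Lib.MP_f0c028_an.GW
end

section

set_option autoImplicit false

/-! # TASK C1: the Gaussian path space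

`Ω = Fin M → ℂ` (the increments), `P = ⨂ gP (sg s0 M i)`, `gP t` has density `gk t`.
* `gP_prob`: `integral_gk`, `gk_int`, `gk_pos` (`ofReal_integral_eq_lintegral_ofReal`).
* `spl_inv`: the law of the spliced sequence is again the product: `Measure.pi_eq`; the preimage of a box `∏ B_i` under `(ω, η) ↦ spl M k ω η` is the product
  of the boxes `{ω | ω_i ∈ B_i for i < k}` and `{η | η_i ∈ B_i for i ≥ k}` (use boxes with `univ` in the other coordinates, `Measure.prod_prod`, `Measure.pi_pi`,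
  `Finset.prod_ite`-like identities, `measure_univ = 1`).
* the other fields: `funext`, cases on `i < k`, `i < l`. -/

open MeasureTheory Real

namespace Pool.Agent.Lib.MP_f0c028_an.SQ

open Pool.Agent.Lib.MP_f0c028_an.GW

/-- The Gaussian measure with density `gk t`. -/
noncomputable def gP (t : ℝ) : Measure ℂ := volume.withDensity (fun z => ENNReal.ofReal (gk t z))

theorem gP_prob {t : ℝ} (ht : 0 < t) : IsProbabilityMeasure (gP t) := by
  constructor
  unfold gP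
  rw [withDensity_apply _ MeasurableSet.univ, Measure.restrict_univ,
    ← ofReal_integral_eq_lintegral_ofReal (gk_int ht)
      (Filter.Eventually.of_forall fun z => (gk_pos ht z).le), integral_gk ht,
    ENNReal.ofReal_one]

/-- The scales. -/
noncomputable def sc (s0 : ℝ) (k : ℕ) : ℝ := s0 * (1 / 3) ^ k

theorem sc_pos {s0 : ℝ} (h : 0 < s0) (k : ℕ) : 0 < sc s0 k := by
  unfold sc
  positivity

theorem sc_succ (s0 : ℝ) (k : ℕ) : sc s0 k = 3 * sc s0 (k + 1) := by
  unfold sc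
  rw [pow_succ]
  ring

/-- The variances of the increments. -/
noncomputable def sg (s0 : ℝ) (M : ℕ) (i : Fin M) : ℝ := 2 * sc s0 (i.val + 1)

/-- Splicing. -/
def spl (M k : ℕ) (ω η : Fin M → ℂ) (i : Fin M) : ℂ := if i.val < k then ω i else η i

/-- The product measure. -/
noncomputable def PP (M : ℕ) (s0 : ℝ) : Measure (Fin M → ℂ) :=
  Measure.pi (fun i => gP (sg s0 M i))

private theorem C1_sg_pos {M : ℕ} {s0 : ℝ} (h : 0 < s0) (i : Fin M) : 0 < sg s0 M i := by
  unfold sg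
  have := sc_pos h (i.val + 1)
  positivity

theorem PP_prob (M : ℕ) {s0 : ℝ} (h : 0 < s0) : IsProbabilityMeasure (PP M s0) := by
  unfold PP
  have : ∀ i : Fin M, IsProbabilityMeasure (gP (sg s0 M i)) := fun i => gP_prob (C1_sg_pos h i)
  infer_instance

theorem spl_meas (M k : ℕ) :
    Measurable (fun q : (Fin M → ℂ) × (Fin M → ℂ) => spl M k q.1 q.2) := by
  refine measurable_pi_lambda _ fun i => ?_
  show Measurable fun q : (Fin M → ℂ) × (Fin M → ℂ) => if i.val < k then q.1 i else q.2 i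
  by_cases hi : i.val < k
  · simp only [if_pos hi]
    exact (measurable_pi_apply i).comp measurable_fst
  · simp only [if_neg hi]
    exact (measurable_pi_apply i).comp measurable_snd

theorem spl_ge (M k l : ℕ) (h : k ≤ l) (ω η η' : Fin M → ℂ) :
    spl M l (spl M k ω η) η' = spl M k ω (spl M l η η') := by
  funext i
  unfold spl
  by_cases h1 : i.val < k
  · rw [if_pos h1, if_pos (lt_of_lt_of_le h1 h), if_pos h1]
  · rw [if_neg h1, if_neg h1]

theorem spl_le (M k l : ℕ) (h : k ≤ l) (ω η η' : Fin M → ℂ) :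
    spl M k (spl M l ω η) η' = spl M k ω η' := by
  funext i
  unfold spl
  by_cases h1 : i.val < k
  · rw [if_pos h1, if_pos (lt_of_lt_of_le h1 h), if_pos h1]
  · rw [if_neg h1, if_neg h1]

theorem spl_inv (M : ℕ) {s0 : ℝ} (h : 0 < s0) (k : ℕ) :
    Measure.map (fun q : (Fin M → ℂ) × (Fin M → ℂ) => spl M k q.1 q.2)
      ((PP M s0).prod (PP M s0)) = PP M s0 := by
  have hpr : ∀ i : Fin M, IsProbabilityMeasure (gP (sg s0 M i)) := fun i =>
    gP_prob (C1_sg_pos h i)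
  have hPP := PP_prob M h
  symm
  show Measure.pi (fun i => gP (sg s0 M i)) = _
  refine Measure.pi_eq fun B hB => ?_
  rw [Measure.map_apply (spl_meas M k) (MeasurableSet.univ_pi hB)]
  have e : (fun q : (Fin M → ℂ) × (Fin M → ℂ) => spl M k q.1 q.2) ⁻¹' (Set.univ.pi B) =
      (Set.univ.pi fun i : Fin M => if i.val < k then B i else Set.univ) ×ˢ
        (Set.univ.pi fun i : Fin M => if i.val < k then Set.univ else B i) := by
    ext q
    simp only [Set.mem_preimage, Set.mem_univ_pi, Set.mem_prod]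
    unfold spl
    constructor
    · intro hq
      constructor
      · intro i
        have := hq i
        by_cases hi : i.val < k
        · rw [if_pos hi] at this ⊢
          exact this
        · rw [if_neg hi]
          exact Set.mem_univ _
      · intro i
        have := hq i
        by_cases hi : i.val < k
        · rw [if_pos hi]
          exact Set.mem_univ _
        · rw [if_neg hi] at this ⊢
          exact this
    · rintro ⟨h1, h2⟩ i
      have h1i := h1 i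
      have h2i := h2 i
      by_cases hi : i.val < k
      · rw [if_pos hi] at h1i ⊢
        exact h1i
      · rw [if_neg hi] at h2i ⊢
        exact h2i
  rw [e, Measure.prod_prod]
  unfold PP
  rw [Measure.pi_pi, Measure.pi_pi, ← Finset.prod_mul_distrib]
  refine Finset.prod_congr rfl fun i _ => ?_
  by_cases hi : i.val < k
  · rw [if_pos hi, if_pos hi, measure_univ, mul_one]
  · rw [if_neg hi, if_neg hi, measure_univ, one_mul]

/-- The Gaussian path space. -/
noncomputable def GS (M : ℕ) (s0 : ℝ) (h : 0 < s0) : Sp (Fin M → ℂ) where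
  P := PP M s0
  prob := PP_prob M h
  s := spl M
  meas := spl_meas M
  s_ge := spl_ge M
  s_le := spl_le M
  inv := spl_inv M h

/-- The position at time `k`. -/
noncomputable def zz {M : ℕ} (k : ℕ) (x : ℂ) (ω : Fin M → ℂ) : ℂ :=
  x + ∑ i : Fin M, if i.val < k then ω i else 0

end Pool.Agent.Lib.MP_f0c028_an.SQ
end

section

set_option autoImplicit false

/-! # TASK C2: transition kernels

* `zz_meas`, `zz_spl`: `zz k x (spl M l ω η) = zz k x ω` for `k ≤ l`; `zz_succ`: `zz (k+1) x (spl M k ω η) = zz k x ω + η k` (`k < M`); `zz_end`: `zz k = zz M` for `k ≥ M`.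
* `E_next`: `E k (φ ∘ zz (k+1)) ω = ∫ φ (zz k x ω + η_k) dP(η) = ∫ φ (zz k x ω + u) dgP(u)` (the law of one coordinate:
  `MeasureTheory.measurePreserving_eval`), `= ∫ gk … u * φ (z + u) du` (`integral_withDensity_eq_integral_smul` or `toReal` version), then `y = z + u` (`gk` is even, `gk_neg`).
* `E_far`: induction on `l`: `E k (φ ∘ zz (l+1)) = E k (E l (φ ∘ zz (l+1)))` (`E_tower`) and `E l (φ ∘ zz (l+1)) = φ' ∘ zz l` with
  `φ' z = ∫ gk (2 sc (l+1)) (z - y) φ y` (bounded, measurable); `∫ gk (sc k - sc l) (z - y) φ' y = ∫ gk (sc k - sc l + 2 sc (l+1)) (z - y) φ y` by `gk_conv` and Fubini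
  (or `ht_semi` for `φ`: see `ht_semiM` below, prove it like `ht_semi` in GW2b), and `sc l = 3 sc (l+1)`.
* `law`: `∫⁻ x, ∫⁻ ω, … = ∫⁻ ω, ∫⁻ x, …` (Tonelli) and the inner integral over `x` is translation invariant; `P` has mass one. -/

open MeasureTheory Real

namespace Pool.Agent.Lib.MP_f0c028_an.SQ

open Pool.Agent.Lib.MP_f0c028_an.GW

variable {M : ℕ}

theorem zz_meas (k : ℕ) : Measurable (fun q : ℂ × (Fin M → ℂ) => zz k q.1 q.2) := by
  unfold zz
  refine measurable_fst.add (Finset.measurable_sum _ fun i _ => ?_)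
  by_cases h : i.val < k
  · simp only [h, if_true]
    exact (measurable_pi_apply i).comp measurable_snd
  · simp only [h, if_false]
    exact measurable_const

theorem zz_spl {k l : ℕ} (h : k ≤ l) (x : ℂ) (ω η : Fin M → ℂ) :
    zz k x (spl M l ω η) = zz k x ω := by
  unfold zz
  congr 1
  refine Finset.sum_congr rfl fun i _ => ?_
  by_cases h1 : i.val < k
  · have h2 : i.val < l := lt_of_lt_of_le h1 h
    simp only [h1, if_true, spl, h2]
  · simp only [h1, if_false]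

theorem zz_end {k : ℕ} (h : M ≤ k) (x : ℂ) (ω : Fin M → ℂ) : zz k x ω = zz M x ω := by
  unfold zz
  congr 1
  refine Finset.sum_congr rfl fun i _ => ?_
  have h1 : i.val < M := i.isLt
  have h2 : i.val < k := lt_of_lt_of_le h1 h
  simp only [h1, h2, if_true]

theorem ht_bd {φ : ℂ → ℝ} (hφ : Measurable φ) {C : ℝ} (hC : ∀ z, |φ z| ≤ C) {t : ℝ}
    (ht0 : 0 < t) (x : ℂ) : |ht t φ x| ≤ C := by
  unfold ht
  have h1 : ‖∫ y, gk t (x - y) * φ y‖ ≤ ∫ y, gk t (x - y) * C := by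
    refine norm_integral_le_of_norm_le ((gk_int_sub ht0 x).mul_const C) (ae_of_all _ fun y => ?_)
    rw [norm_mul, Real.norm_of_nonneg (gk_pos ht0 _).le, Real.norm_eq_abs]
    exact mul_le_mul_of_nonneg_left (hC y) (gk_pos ht0 _).le
  rw [integral_mul_const, integral_gk_sub ht0, one_mul, Real.norm_eq_abs] at h1
  exact h1

private theorem C2_htm {φ : ℂ → ℝ} (hφ : Measurable φ) (t : ℝ) : Measurable (ht t φ) :=
  (ht_meas hφ).comp (by fun_prop : Measurable fun z : ℂ => (t, z))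

private theorem C2_shift {φ : ℂ → ℝ} (hφ : Measurable φ) {C : ℝ} (hC : ∀ z, |φ z| ≤ C) (c : ℝ)
    {t : ℝ} (ht0 : 0 < t) (x : ℂ) : ht t (fun z => φ z + c) x = ht t φ x + c := by
  unfold ht
  simp_rw [mul_add]
  rw [integral_add (gk_mul_int ht0 hφ hC x) ((gk_int_sub ht0 x).mul_const c), integral_mul_const,
    integral_gk_sub ht0, one_mul]

/-- The semigroup property for bounded measurable functions. -/
theorem ht_semiM {φ : ℂ → ℝ} (hφ : Measurable φ) {C : ℝ} (hC : ∀ z, |φ z| ≤ C) {s t : ℝ}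
    (hs : 0 < s) (ht0 : 0 < t) (x : ℂ) :
    ∫ y, gk s (x - y) * ht t φ y = ht (s + t) φ x := by
  have hC0 : 0 ≤ C := (abs_nonneg _).trans (hC 0)
  have hb : Bw (fun z => φ z + (C + 1)) (2 * C + 1) := by
    refine ⟨hφ.add_const _, by linarith, fun z => ?_, fun z => ?_⟩
    · have := (abs_le.mp (hC z)).2
      linarith
    · have h1 := (abs_le.mp (hC z)).1
      have h2 : (2 * C + 1)⁻¹ ≤ 1 := inv_le_one_of_one_le₀ (by linarith)
      linarith
  have h := ht_semi hb hs ht0 x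
  rw [C2_shift hφ hC (C + 1) (by positivity) x] at h
  have h2 : ∀ y, gk s (x - y) * ht t (fun z => φ z + (C + 1)) y =
      gk s (x - y) * ht t φ y + gk s (x - y) * (C + 1) := by
    intro y
    rw [C2_shift hφ hC (C + 1) ht0 y, mul_add]
  simp_rw [h2] at h
  rw [integral_add (gk_mul_int hs (C2_htm hφ t) (fun z => ht_bd hφ hC ht0 z) x)
    ((gk_int_sub hs x).mul_const _), integral_mul_const, integral_gk_sub hs, one_mul] at h
  linarith

private theorem C2_zz_succ {k : ℕ} (hk : k < M) (x : ℂ) (ω η : Fin M → ℂ) :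
    zz (k + 1) x (spl M k ω η) = zz k x ω + η ⟨k, hk⟩ := by
  unfold zz
  rw [add_assoc]
  congr 1
  have h1 : ∀ i : Fin M, (if i.val < k + 1 then spl M k ω η i else 0) =
      (if i.val < k then ω i else 0) + (if i = ⟨k, hk⟩ then η i else 0) := by
    intro i
    by_cases h2 : i.val < k
    · have h3 : i.val < k + 1 := by omega
      have h4 : i ≠ ⟨k, hk⟩ := by
        intro h
        rw [h] at h2
        exact lt_irrefl _ h2
      simp only [h2, h3, h4, if_true, if_false, spl, add_zero]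
    · by_cases h3 : i = ⟨k, hk⟩
      · subst h3
        simp [spl]
      · have h4 : ¬ i.val < k + 1 := by
          intro h
          apply h3
          apply Fin.ext
          simp only
          omega
        simp only [h2, h3, h4, if_false, add_zero]
  rw [Finset.sum_congr rfl fun i _ => h1 i, Finset.sum_add_distrib, Finset.sum_ite_eq']
  simp

private theorem C2_gP {t : ℝ} (ht0 : 0 < t) (g : ℂ → ℝ) :
    ∫ u, g u ∂(gP t) = ∫ u, gk t u * g u := by
  unfold gP
  rw [integral_withDensity_eq_integral_toReal_smul]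
  · refine integral_congr_ae (ae_of_all _ fun u => ?_)
    simp only [smul_eq_mul]
    rw [ENNReal.toReal_ofReal (gk_pos ht0 u).le]
  · exact (gk_cont t).measurable.ennreal_ofReal
  · exact ae_of_all _ fun u => ENNReal.ofReal_lt_top

theorem E_next {s0 : ℝ} (h : 0 < s0) {k : ℕ} (hk : k < M) {φ : ℂ → ℝ} (hφ : Measurable φ) {C : ℝ}
    (hC : ∀ z, |φ z| ≤ C) (x : ℂ) (ω : Fin M → ℂ) :
    (GS M s0 h).E k (fun ω' => φ (zz (k + 1) x ω')) ω =
      ht (2 * sc s0 (k + 1)) φ (zz k x ω) := by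
  have hsc : 0 < 2 * sc s0 (k + 1) := mul_pos two_pos (sc_pos h _)
  have hp : ∀ i : Fin M, IsProbabilityMeasure (gP (sg s0 M i)) := fun i =>
    gP_prob (mul_pos two_pos (sc_pos h _))
  have h1 : (GS M s0 h).E k (fun ω' => φ (zz (k + 1) x ω')) ω =
      ∫ η, φ (zz k x ω + η ⟨k, hk⟩) ∂(PP M s0) := by
    unfold Sp.E
    refine integral_congr_ae (ae_of_all _ fun η => ?_)
    change φ (zz (k + 1) x (spl M k ω η)) = φ (zz k x ω + η ⟨k, hk⟩)
    rw [C2_zz_succ hk]
  rw [h1]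
  have h2 : ∫ η, φ (zz k x ω + η ⟨k, hk⟩) ∂(PP M s0) =
      ∫ u, φ (zz k x ω + u) ∂(gP (sg s0 M ⟨k, hk⟩)) := by
    have h3 := (measurePreserving_eval (fun i : Fin M => gP (sg s0 M i)) ⟨k, hk⟩).map_eq
    rw [← h3, integral_map]
    · rfl
    · exact (measurable_pi_apply _).aemeasurable
    · exact (hφ.comp (measurable_const_add _)).aestronglyMeasurable
  have hsg : sg s0 M ⟨k, hk⟩ = 2 * sc s0 (k + 1) := rfl
  rw [h2, hsg, C2_gP hsc]
  have h4 := integral_add_left_eq_self (μ := (volume : Measure ℂ))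
    (fun y => gk (2 * sc s0 (k + 1)) (zz k x ω - y) * φ y) (zz k x ω)
  unfold ht
  rw [← h4]
  refine integral_congr_ae (ae_of_all _ fun u => ?_)
  simp only
  rw [sub_add_cancel_left, gk_neg]

private theorem C2_sc_lt {s0 : ℝ} (h : 0 < s0) {k l : ℕ} (hk : k < l) : sc s0 l < sc s0 k := by
  induction l, hk using Nat.le_induction with
  | base =>
    have h1 := sc_succ s0 k
    have h2 := sc_pos h (k + 1)
    linarith
  | succ l _ ih =>
    have h1 := sc_succ s0 l
    have h2 := sc_pos h (l + 1)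
    linarith

private theorem C2_bm (l : ℕ) (x : ℂ) {φ : ℂ → ℝ} (hφ : Measurable φ) {C : ℝ}
    (hC : ∀ z, |φ z| ≤ C) : BM (fun ω' : Fin M → ℂ => φ (zz l x ω')) :=
  ⟨hφ.comp ((zz_meas l).comp (by fun_prop : Measurable fun ω' : Fin M → ℂ => (x, ω'))),
    C, fun ω => hC _⟩

theorem E_far {s0 : ℝ} (h : 0 < s0) {k l : ℕ} (hk : k < l) (hl : l ≤ M) {φ : ℂ → ℝ}
    (hφ : Measurable φ) {C : ℝ} (hC : ∀ z, |φ z| ≤ C) (x : ℂ) (ω : Fin M → ℂ) :
    (GS M s0 h).E k (fun ω' => φ (zz l x ω')) ω = ht (sc s0 k - sc s0 l) φ (zz k x ω) := by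
  induction l, hk using Nat.le_induction generalizing φ with
  | base =>
    rw [E_next h (by omega) hφ hC]
    congr 1
    have h1 := sc_succ s0 k
    linarith
  | succ l hkl ih =>
    have hkl' : k < l := hkl
    have h1 := sc_succ s0 l
    have h2 := sc_pos h (l + 1)
    have h0 := C2_sc_lt h hkl'
    rw [← E_tower (GS M s0 h) hkl'.le (C2_bm (l + 1) x hφ hC) ω]
    have h3 : (GS M s0 h).E l (fun ω' => φ (zz (l + 1) x ω')) =
        fun ω' => ht (2 * sc s0 (l + 1)) φ (zz l x ω') := by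
      funext ω'
      exact E_next h (by omega) hφ hC x ω'
    rw [h3, ih (by omega) (C2_htm hφ _) (fun z => ht_bd hφ hC (by linarith) z)]
    conv_lhs => unfold ht
    have h4 := ht_semiM hφ hC (s := sc s0 k - sc s0 l) (t := 2 * sc s0 (l + 1)) (by linarith)
      (by linarith) (zz k x ω)
    have h5 : sc s0 k - sc s0 l + 2 * sc s0 (l + 1) = sc s0 k - sc s0 (l + 1) := by linarith
    rw [h5] at h4
    exact h4

theorem law {s0 : ℝ} (h : 0 < s0) (k : ℕ) {φ : ℂ → ENNReal} (hφ : Measurable φ) :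
    ∫⁻ x, ∫⁻ ω, φ (zz k x ω) ∂(PP M s0) = ∫⁻ z, φ z := by
  have := PP_prob M h
  have h0 := lintegral_lintegral_swap (μ := (volume : Measure ℂ)) (ν := PP M s0)
    (f := fun x ω => φ (zz k x ω)) (hφ.comp (zz_meas k)).aemeasurable
  rw [h0]
  have h1 : ∀ ω : Fin M → ℂ, ∫⁻ x, φ (zz k x ω) = ∫⁻ z, φ z := by
    intro ω
    exact lintegral_add_right_eq_self φ (∑ i : Fin M, if i.val < k then ω i else 0)
  simp_rw [h1]
  rw [lintegral_const, measure_univ, mul_one]

end Pool.Agent.Lib.MP_f0c028_an.SQ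
end

section

set_option autoImplicit false

/-! # TASK C3: heat extensions along the path are martingales

`pr s0 M u x k ω = ht (sc s0 (min k M)) u (zz k x ω)`, constant after time `M` (`zz_end`).
* `pr_mart`: `bm`: `ht_bd`, `ht_meas`, `zz_meas`. `ad`: `zz_spl`. `step`: for `k < M`: `E_next` with `φ = ht (sc (k+1)) u` and `ht_semiM`: `2 sc (k+1) + sc (k+1) = sc k` (`sc_succ`);
  for `k ≥ M` the function is constant in time and `Ad k` (`E_of_ad`).
* `pr_pair`: `one_le_mul_ht`, `hK`, `le_ht` (lower bound `n⁻¹`). -/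

open MeasureTheory Real

namespace Pool.Agent.Lib.MP_f0c028_an.SQ

open Pool.Agent.Lib.MP_f0c028_an.GW

/-- The heat extension of `u` along the path. -/
noncomputable def pr (s0 : ℝ) (M : ℕ) (u : ℂ → ℝ) (x : ℂ) (k : ℕ) (ω : Fin M → ℂ) : ℝ :=
  ht (sc s0 (min k M)) u (zz k x ω)

theorem pr_mart {M : ℕ} {s0 : ℝ} (h : 0 < s0) {u : ℂ → ℝ} (hu : Measurable u) {C : ℝ}
    (hC : ∀ z, |u z| ≤ C) (x : ℂ) : (GS M s0 h).Mart (pr s0 M u x) := by
  have hφm : ∀ t : ℝ, Measurable (ht t u) := fun t =>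
    (ht_meas hu).comp (measurable_const.prodMk measurable_id)
  have had : ∀ k, (GS M s0 h).Ad k (pr s0 M u x k) := by
    intro k ω η
    show ht (sc s0 (min k M)) u (zz k x (spl M k ω η)) = ht (sc s0 (min k M)) u (zz k x ω)
    rw [zz_spl (le_refl k) x ω η]
  refine ⟨fun k => ⟨?_, C, fun ω => ?_⟩, had, fun k ω => ?_⟩
  · have hz : Measurable (fun ω : Fin M → ℂ => zz k x ω) :=
      (zz_meas k).comp (measurable_const.prodMk measurable_id)
    exact (hφm (sc s0 (min k M))).comp hz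
  · exact ht_bd hu hC (sc_pos h _) _
  · rcases lt_or_ge k M with hk | hk
    · have e1 : min (k + 1) M = k + 1 := min_eq_left hk
      have e2 : min k M = k := min_eq_left hk.le
      have hfun : pr s0 M u x (k + 1) =
          fun ω' : Fin M → ℂ => ht (sc s0 (k + 1)) u (zz (k + 1) x ω') := by
        funext ω'
        show ht (sc s0 (min (k + 1) M)) u (zz (k + 1) x ω') = _
        rw [e1]
      have hgoal : pr s0 M u x k ω = ht (sc s0 k) u (zz k x ω) := by
        show ht (sc s0 (min k M)) u (zz k x ω) = _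
        rw [e2]
      have hs : 0 < sc s0 (k + 1) := sc_pos h _
      have h1 := E_next h hk (hφm (sc s0 (k + 1)))
        (fun z => ht_bd hu hC hs z) x ω
      have h2 : ht (2 * sc s0 (k + 1)) (ht (sc s0 (k + 1)) u) (zz k x ω) =
          ht (2 * sc s0 (k + 1) + sc s0 (k + 1)) u (zz k x ω) :=
        ht_semiM hu hC (by linarith) hs _
      have h3 : 2 * sc s0 (k + 1) + sc s0 (k + 1) = sc s0 k := by
        rw [sc_succ s0 k]; ring
      rw [hfun, hgoal, h1, h2, h3]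
    · have hfun : pr s0 M u x (k + 1) = pr s0 M u x k := by
        funext ω'
        show ht (sc s0 (min (k + 1) M)) u (zz (k + 1) x ω') =
          ht (sc s0 (min k M)) u (zz k x ω')
        rw [min_eq_right hk, min_eq_right (hk.trans (Nat.le_succ k)),
          zz_end (hk.trans (Nat.le_succ k)) x ω', zz_end hk x ω']
      rw [hfun]
      exact E_of_ad _ (had k) ω

theorem pr_pair {M : ℕ} {s0 : ℝ} (h : 0 < s0) {w : ℂ → ℝ} {n K : ℝ} (hw : Bw w n) (hK : HA w K)
    (x : ℂ) : (GS M s0 h).Pair (pr s0 M (fun z => (w z)⁻¹) x) (pr s0 M w x) K := by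
  have hb : ∀ {v : ℂ → ℝ}, Bw v n → ∀ z, |v z| ≤ n := by
    intro v hv z
    rw [abs_of_pos (hv.wpos z)]
    exact hv.le z
  exact
    { mX := pr_mart h hw.inv.meas (hb hw.inv) x
      mY := pr_mart h hw.meas (hb hw) x
      low := ⟨n⁻¹, inv_pos.mpr hw.pos, fun k ω =>
        ⟨le_ht hw.inv (sc_pos h _) _, le_ht hw (sc_pos h _) _⟩⟩
      one := fun k ω => one_le_mul_ht hw (sc_pos h _) _
      le := fun k ω => hK _ (sc_pos h _) _ }

end Pool.Agent.Lib.MP_f0c028_an.SQ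
end

section

set_option autoImplicit false

/-! # TASK C4: the oscillations along the path

`DR t u y` is the mean oscillation of the heat extension between the scales `3t` and `t`; `EJR j t u` its average at the scale `3t(3^j - 1)`.
* `DR_meas` joint measurability: `StronglyMeasurable.integral_prod_right'`, `ht_meas`. `DR_bd`: `|ht| ≤ C` (`ht_bd`), mass one.
* `D_pr`: for `k < M`: given `ω`, the function `ω' ↦ |pr (k+1) ω' - pr k ω'|` is spliced: `pr k (spl k ω η) = pr k ω` (adapted), so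
  `D k ω = E k (φ ∘ zz (k+1)) ω` with `φ v = |ht (sc (k+1)) u v - pr k ω|` (`ω` fixed!; unfold `E`), `E_next`, `3 * sc (k+1) = sc k`.
* `EJ_pr`: `D (k+j) = DR (sc (k+j+1)) u ∘ zz (k+j)` by `D_pr`, then `E_far`: `sc k - sc (k+j) = 3 t (3^j - 1)` for `t = sc (k+j+1)`. -/

open MeasureTheory Real

namespace Pool.Agent.Lib.MP_f0c028_an.SQ

open Pool.Agent.Lib.MP_f0c028_an.GW

/-- The mean oscillation. -/
noncomputable def DR (t : ℝ) (u : ℂ → ℝ) (y : ℂ) : ℝ :=
  ∫ v, gk (2 * t) (y - v) * |ht t u v - ht (3 * t) u y|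

/-- The averaged mean oscillation. -/
noncomputable def EJR (j : ℕ) (t : ℝ) (u : ℂ → ℝ) (z : ℂ) : ℝ :=
  ht (3 * t * (3 ^ j - 1)) (DR t u) z

theorem DR_meas {u : ℂ → ℝ} (hu : Measurable u) : Measurable fun q : ℝ × ℂ => DR q.1 u q.2 := by
  have h1 : Measurable fun p : (ℝ × ℂ) × ℂ => gk (2 * p.1.1) (p.1.2 - p.2) :=
    gk_meas.comp (f := fun p : (ℝ × ℂ) × ℂ => ((2 * p.1.1, p.1.2 - p.2) : ℝ × ℂ)) (by fun_prop)
  have h2 : Measurable fun p : (ℝ × ℂ) × ℂ => ht p.1.1 u p.2 :=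
    (ht_meas hu).comp (f := fun p : (ℝ × ℂ) × ℂ => ((p.1.1, p.2) : ℝ × ℂ)) (by fun_prop)
  have h3 : Measurable fun p : (ℝ × ℂ) × ℂ => ht (3 * p.1.1) u p.1.2 :=
    (ht_meas hu).comp (f := fun p : (ℝ × ℂ) × ℂ => ((3 * p.1.1, p.1.2) : ℝ × ℂ)) (by fun_prop)
  have h4 : Measurable fun p : (ℝ × ℂ) × ℂ =>
      gk (2 * p.1.1) (p.1.2 - p.2) * |ht p.1.1 u p.2 - ht (3 * p.1.1) u p.1.2| := by
    have h5 : Measurable fun p : (ℝ × ℂ) × ℂ => |ht p.1.1 u p.2 - ht (3 * p.1.1) u p.1.2| := by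
      have h6 := (h2.sub h3).norm
      simpa only [Real.norm_eq_abs, Pi.sub_apply] using h6
    exact h1.mul h5
  exact (h4.stronglyMeasurable.integral_prod_right' (ν := (volume : Measure ℂ))).measurable

private theorem C4_meas1 {u : ℂ → ℝ} (hu : Measurable u) (t : ℝ) : Measurable (ht t u) :=
  (ht_meas hu).comp (f := fun z : ℂ => ((t, z) : ℝ × ℂ)) (by fun_prop)

private theorem C4_meas2 {u : ℂ → ℝ} (hu : Measurable u) (t : ℝ) : Measurable (DR t u) :=
  (DR_meas hu).comp (f := fun z : ℂ => ((t, z) : ℝ × ℂ)) (by fun_prop)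

private theorem C4_meas3 {u : ℂ → ℝ} (hu : Measurable u) (t c : ℝ) :
    Measurable fun v => |ht t u v - c| := by
  have h := ((C4_meas1 hu t).sub_const c).norm
  simpa only [Real.norm_eq_abs, Pi.sub_apply] using h

theorem DR_nonneg {t : ℝ} (ht0 : 0 < t) (u : ℂ → ℝ) (y : ℂ) : 0 ≤ DR t u y := by
  unfold DR
  exact integral_nonneg fun v =>
    mul_nonneg (gk_pos (by positivity) _).le (abs_nonneg _)

private theorem C4_osc {u : ℂ → ℝ} (hu : Measurable u) {C : ℝ} (hC : ∀ z, |u z| ≤ C) {s t : ℝ}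
    (hs : 0 < s) (ht0 : 0 < t) (v y : ℂ) : |ht s u v - ht t u y| ≤ 2 * C := by
  have h1 := abs_le.mp (ht_bd hu hC hs v)
  have h2 := abs_le.mp (ht_bd hu hC ht0 y)
  rw [abs_le]
  constructor <;> linarith [h1.1, h1.2, h2.1, h2.2]

theorem DR_bd {u : ℂ → ℝ} (hu : Measurable u) {C : ℝ} (hC : ∀ z, |u z| ≤ C) {t : ℝ}
    (ht0 : 0 < t) (y : ℂ) : DR t u y ≤ 2 * C := by
  have h2 : 0 < 2 * t := by positivity
  have h3 : 0 < 3 * t := by positivity
  have hb : ∀ v, |ht t u v - ht (3 * t) u y| ≤ 2 * C := fun v => C4_osc hu hC ht0 h3 v y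
  have hi : Integrable fun v => gk (2 * t) (y - v) * |ht t u v - ht (3 * t) u y| :=
    gk_mul_int h2 (C4_meas3 hu t _) (M := 2 * C) (fun v => by rw [abs_abs]; exact hb v) y
  unfold DR
  calc ∫ v, gk (2 * t) (y - v) * |ht t u v - ht (3 * t) u y|
      ≤ ∫ v, gk (2 * t) (y - v) * (2 * C) :=
        integral_mono hi ((gk_int_sub h2 y).mul_const _) fun v =>
          mul_le_mul_of_nonneg_left (hb v) (gk_pos h2 _).le
    _ = 2 * C := by rw [integral_mul_const, integral_gk_sub h2, one_mul]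

theorem EJR_nonneg {j : ℕ} (hj : 1 ≤ j) {t : ℝ} (ht0 : 0 < t) (u : ℂ → ℝ) (z : ℂ) :
    0 ≤ EJR j t u z := by
  have h1 : (1 : ℝ) < 3 ^ j := one_lt_pow₀ (by norm_num) (by omega)
  have h2 : 0 < 3 * t * (3 ^ j - 1) := mul_pos (by positivity) (by linarith)
  unfold EJR ht
  exact integral_nonneg fun v => mul_nonneg (gk_pos h2 _).le (DR_nonneg ht0 u v)

theorem EJR_meas {u : ℂ → ℝ} (hu : Measurable u) (j : ℕ) (t : ℝ) : Measurable (EJR j t u) :=
  C4_meas1 (C4_meas2 hu t) _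

theorem D_pr {M : ℕ} {s0 : ℝ} (h : 0 < s0) {u : ℂ → ℝ} (hu : Measurable u) {C : ℝ}
    (hC : ∀ z, |u z| ≤ C) (x : ℂ) {k : ℕ} (hk : k < M) (ω : Fin M → ℂ) :
    (GS M s0 h).D (pr s0 M u x) k ω = DR (sc s0 (k + 1)) u (zz k x ω) := by
  have h1 : 0 < sc s0 (k + 1) := sc_pos h _
  have h0 : 0 < sc s0 k := sc_pos h _
  have hm1 : min (k + 1) M = k + 1 := min_eq_left hk
  have hm0 : min k M = k := min_eq_left hk.le
  have key : (GS M s0 h).D (pr s0 M u x) k ω = (GS M s0 h).E k (fun ω' =>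
      (fun v => |ht (sc s0 (k + 1)) u v - ht (sc s0 k) u (zz k x ω)|) (zz (k + 1) x ω')) ω := by
    unfold Sp.D Sp.E
    refine integral_congr_ae (ae_of_all _ fun η => ?_)
    have e0 : pr s0 M u x k ((GS M s0 h).s k ω η) = pr s0 M u x k ω :=
      (pr_mart h hu hC x).ad k ω η
    have e1 : pr s0 M u x k ω = ht (sc s0 k) u (zz k x ω) := by
      unfold pr
      rw [hm0]
    have e2 : pr s0 M u x (k + 1) ((GS M s0 h).s k ω η) =
        ht (sc s0 (k + 1)) u (zz (k + 1) x ((GS M s0 h).s k ω η)) := by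
      unfold pr
      rw [hm1]
    change |pr s0 M u x (k + 1) ((GS M s0 h).s k ω η) - pr s0 M u x k ((GS M s0 h).s k ω η)| =
      |ht (sc s0 (k + 1)) u (zz (k + 1) x ((GS M s0 h).s k ω η)) - ht (sc s0 k) u (zz k x ω)|
    rw [e0, e1, e2]
  rw [key, E_next h hk (C4_meas3 hu _ _) (C := 2 * C)
    (fun v => by rw [abs_abs]; exact C4_osc hu hC h1 h0 v _) x ω]
  unfold DR
  rw [← sc_succ]
  rfl

theorem EJ_pr {M : ℕ} {s0 : ℝ} (h : 0 < s0) {u : ℂ → ℝ} (hu : Measurable u) {C : ℝ}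
    (hC : ∀ z, |u z| ≤ C) (x : ℂ) {j k : ℕ} (hj : 1 ≤ j) (hk : k + j < M) (ω : Fin M → ℂ) :
    (GS M s0 h).EJ j (pr s0 M u x) k ω = EJR j (sc s0 (k + j + 1)) u (zz k x ω) := by
  have h1 : 0 < sc s0 (k + j + 1) := sc_pos h _
  have e1 : (GS M s0 h).D (pr s0 M u x) (k + j) = fun ω' =>
      DR (sc s0 (k + j + 1)) u (zz (k + j) x ω') := by
    funext ω'
    exact D_pr h hu hC x hk ω'
  unfold Sp.EJ
  rw [e1, E_far h (show k < k + j by omega) hk.le (C4_meas2 hu _) (C := 2 * C)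
    (fun z => by rw [abs_of_nonneg (DR_nonneg h1 u z)]; exact DR_bd hu hC h1 z) x ω]
  unfold EJR
  congr 1
  unfold sc
  rw [show k + j + 1 = (k + j) + 1 from rfl, pow_succ, pow_add]
  have h3 : (1 / 3 : ℝ) ^ j * 3 ^ j = 1 := by
    rw [← mul_pow]
    norm_num
  linear_combination (-(s0 * (1 / 3) ^ k)) * h3

end Pool.Agent.Lib.MP_f0c028_an.SQ
end

section

set_option autoImplicit false

/-! # TASK C5: the energy

With `t = sc s0 M`: `∫ q dP = ∫ (ht t u (zz M x ω))²/vv w t (zz M x ω) dP(ω)`; `ofReal` of it is the lintegral (bounded nonnegative), then `law`: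
`∫⁻ x, … = ∫⁻ z, ofReal ((ht t u z)²/vv w t z)`. `hc_sq_le` for `f = (u : ℂ)`: `‖hc t f z‖² = (ht t u z)²` (`integral_ofReal`), so the
integrand is at most `ofReal (∫ gk t (z-y) (u y² w y))`, and `lint_ht`. -/

open MeasureTheory Real

namespace Pool.Agent.Lib.MP_f0c028_an.SQ

open Pool.Agent.Lib.MP_f0c028_an.GW

/-- The energy density as a function of the position. -/
private noncomputable def C5_psi (t : ℝ) (u w : ℂ → ℝ) (z : ℂ) : ℝ :=
  ht t u z ^ 2 / ht t (fun z => (w z)⁻¹) z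

private theorem C5_q {M : ℕ} {s0 : ℝ} {u w : ℂ → ℝ} (x : ℂ) (ω : Fin M → ℂ) :
    q (pr s0 M u x) (pr s0 M (fun z => (w z)⁻¹) x) M ω = C5_psi (sc s0 M) u w (zz M x ω) := by
  unfold q pr C5_psi
  rw [min_self]

private theorem C5_psi_meas {t : ℝ} {u w : ℂ → ℝ} (hu : Measurable u) (hw : Measurable w) :
    Measurable (C5_psi t u w) := by
  have h1 : Measurable fun z : ℂ => ht t u z := (ht_meas hu).comp measurable_prodMk_left
  have h2 : Measurable fun z : ℂ => ht t (fun z => (w z)⁻¹) z :=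
    (ht_meas hw.inv).comp measurable_prodMk_left
  exact (h1.pow_const 2).div h2

private theorem C5_u {u : ℂ → ℝ} {C : ℝ} (hu : Bf (fun z => (u z : ℂ)) C) :
    Measurable u ∧ ∀ z, |u z| ≤ C := by
  refine ⟨?_, ?_⟩
  · have h1 := Complex.measurable_re.comp hu.meas
    exact h1
  · intro z
    have h1 := hu.le z
    rwa [Complex.norm_real, Real.norm_eq_abs] at h1

private theorem C5_winv {w : ℂ → ℝ} {n : ℝ} (hw : Bw w n) (z : ℂ) : |(w z)⁻¹| ≤ n := by
  rw [abs_of_pos (inv_pos.2 (hw.wpos z))]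
  exact hw.inv.le z

private theorem C5_int {M : ℕ} {s0 : ℝ} (h : 0 < s0) {w : ℂ → ℝ} {n : ℝ} (hw : Bw w n) {u : ℂ → ℝ}
    {C : ℝ} (hu : Bf (fun z => (u z : ℂ)) C) (x : ℂ) :
    Integrable (fun ω => C5_psi (sc s0 M) u w (zz M x ω)) (PP M s0) := by
  obtain ⟨hu1, hu2⟩ := C5_u hu
  have hF := pr_mart (M := M) h hu1 hu2 x
  have hX := pr_mart (M := M) h hw.inv.meas (C5_winv hw) x
  have hlow : ∀ (k : ℕ) (ω : Fin M → ℂ), n⁻¹ ≤ pr s0 M (fun z => (w z)⁻¹) x k ω := by
    intro k ω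
    exact le_ht hw.inv (sc_pos h _) _
  have h1 := q_bm (GS M s0 h) hF hX (inv_pos.2 hw.pos) hlow M
  have := PP_prob M h
  have h2 := h1.int (PP M s0)
  refine h2.congr ?_
  exact Filter.Eventually.of_forall fun ω => C5_q x ω

private theorem C5_nonneg {s0 : ℝ} (h : 0 < s0) {w : ℂ → ℝ} {n : ℝ} (hw : Bw w n) {u : ℂ → ℝ}
    (M : ℕ) (z : ℂ) : 0 ≤ C5_psi (sc s0 M) u w z :=
  div_nonneg (sq_nonneg _) (ht_pos hw.inv (sc_pos h M) z).le

private theorem C5_le {t : ℝ} (ht0 : 0 < t) {w : ℂ → ℝ} {n : ℝ} (hw : Bw w n) {u : ℂ → ℝ}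
    {C : ℝ} (hu : Bf (fun z => (u z : ℂ)) C) (z : ℂ) :
    C5_psi t u w z ≤ ∫ y, gk t (z - y) * (u y ^ 2 * w y) := by
  have h1 := hc_sq_le hw hu ht0 z
  have e1 : hc t (fun z => (u z : ℂ)) z = ((ht t u z : ℝ) : ℂ) := by
    unfold hc ht
    rw [← integral_complex_ofReal]
    congr 1
    funext y
    push_cast
    rfl
  have e2 : (fun y => gk t (z - y) * (‖((u y : ℝ) : ℂ)‖ ^ 2 * w y)) =
      fun y => gk t (z - y) * (u y ^ 2 * w y) := by
    funext y
    rw [Complex.norm_real, Real.norm_eq_abs, sq_abs]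
  rw [e1, Complex.norm_real, Real.norm_eq_abs, sq_abs, e2] at h1
  unfold C5_psi
  rw [div_le_iff₀ (ht_pos hw.inv ht0 z)]
  exact h1

theorem energy {M : ℕ} {s0 : ℝ} (h : 0 < s0) {w : ℂ → ℝ} {n : ℝ} (hw : Bw w n) {u : ℂ → ℝ}
    {C : ℝ} (hu : Bf (fun z => (u z : ℂ)) C) :
    ∫⁻ x, ENNReal.ofReal (∫ ω, q (pr s0 M u x) (pr s0 M (fun z => (w z)⁻¹) x) M ω ∂(PP M s0)) ≤
      ∫⁻ z, ENNReal.ofReal (u z ^ 2 * w z) := by
  obtain ⟨hu1, hu2⟩ := C5_u hu
  have h1 : ∀ x : ℂ, ENNReal.ofReal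
      (∫ ω, q (pr s0 M u x) (pr s0 M (fun z => (w z)⁻¹) x) M ω ∂(PP M s0)) =
      ∫⁻ ω, ENNReal.ofReal (C5_psi (sc s0 M) u w (zz M x ω)) ∂(PP M s0) := by
    intro x
    have e1 : (fun ω => q (pr s0 M u x) (pr s0 M (fun z => (w z)⁻¹) x) M ω) =
        fun ω => C5_psi (sc s0 M) u w (zz M x ω) := by
      funext ω
      exact C5_q x ω
    rw [e1]
    exact ofReal_integral_eq_lintegral_ofReal (C5_int h hw hu x)
      (Filter.Eventually.of_forall fun ω => C5_nonneg h hw M _)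
  have h2 : Measurable fun z => ENNReal.ofReal (C5_psi (sc s0 M) u w z) :=
    ENNReal.measurable_ofReal.comp (C5_psi_meas hu1 hw.meas)
  calc ∫⁻ x, ENNReal.ofReal
        (∫ ω, q (pr s0 M u x) (pr s0 M (fun z => (w z)⁻¹) x) M ω ∂(PP M s0))
      = ∫⁻ x, ∫⁻ ω, ENNReal.ofReal (C5_psi (sc s0 M) u w (zz M x ω)) ∂(PP M s0) :=
        lintegral_congr h1
    _ = ∫⁻ z, ENNReal.ofReal (C5_psi (sc s0 M) u w z) := law h M h2
    _ ≤ ∫⁻ z, ENNReal.ofReal (∫ y, gk (sc s0 M) (z - y) * (u y ^ 2 * w y)) :=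
        lintegral_mono fun z => ENNReal.ofReal_le_ofReal (C5_le (sc_pos h M) hw hu z)
    _ = ∫⁻ z, ENNReal.ofReal (u z ^ 2 * w z) := by
        refine lint_ht ((hu1.pow_const 2).mul hw.meas)
          (fun z => mul_nonneg (sq_nonneg _) (hw.wpos z).le) (M := C ^ 2 * n) ?_ (sc_pos h M)
        intro z
        have h3 : u z ^ 2 ≤ C ^ 2 := by
          rw [← sq_abs (u z)]
          exact pow_le_pow_left₀ (abs_nonneg _) (hu2 z) 2
        exact mul_le_mul h3 (hw.le z) (hw.wpos z).le (sq_nonneg _)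

theorem energy_meas {M : ℕ} {s0 : ℝ} (h : 0 < s0) {w : ℂ → ℝ} {n : ℝ} (hw : Bw w n) {u : ℂ → ℝ}
    {C : ℝ} (hu : Bf (fun z => (u z : ℂ)) C) :
    Measurable fun x =>
      ∫ ω, q (pr s0 M u x) (pr s0 M (fun z => (w z)⁻¹) x) M ω ∂(PP M s0) := by
  obtain ⟨hu1, -⟩ := C5_u hu
  have := PP_prob M h
  have e1 : (fun x => ∫ ω, q (pr s0 M u x) (pr s0 M (fun z => (w z)⁻¹) x) M ω ∂(PP M s0)) =
      fun x => ∫ ω, C5_psi (sc s0 M) u w (zz M x ω) ∂(PP M s0) := by
    funext x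
    congr 1
    funext ω
    exact C5_q x ω
  rw [e1]
  have h1 : Measurable (fun p : ℂ × (Fin M → ℂ) => C5_psi (sc s0 M) u w (zz M p.1 p.2)) :=
    (C5_psi_meas hu1 hw.meas).comp (zz_meas M)
  exact (h1.stronglyMeasurable.integral_prod_right' (ν := PP M s0)).measurable

end Pool.Agent.Lib.MP_f0c028_an.SQ
end
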