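import Pool.Agent.Lib.MP_f0c028_an.RWRep

section

set_option autoImplicit false

/-! # Radial weights: the bound in terms of `gg f m = B^m f` -/

open Real

namespace Pool.Agent.Lib.MP_f0c028_an

open MeasureTheory
open scoped ENNReal

theorem vol_ball (c : ℂ) {r : ℝ} (hr : 0 < r) :
    (volume (Metric.ball c r)).toReal = π * r ^ 2 := by
  rw [Complex.volume_ball, ENNReal.toReal_mul, ENNReal.toReal_pow, ENNReal.toReal_ofReal hr.le]
  simp [mul_comm]

theorem lint_ball {u : ℂ → ℝ} (hu : ∀ z, 0 ≤ u z) (hui : LocallyIntegrable u volume) (c : ℂ)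
    (r : ℝ) : ∫⁻ z in Metric.ball c r, ENNReal.ofReal (u z) =
      ENNReal.ofReal (∫ z in Metric.ball c r, u z) := by
  rw [ofReal_integral_eq_lintegral_ofReal]
  · exact (hui.integrableOn_isCompact (isCompact_closedBall c r)).mono_set
      Metric.ball_subset_closedBall
  · filter_upwards with z
    exact hu z

theorem gg_eq (f : SchwartzMap ℂ ℂ) (m : ℕ) (z : ℂ) :
    ∫ ξ : ℂ, Complex.exp (2 * π * Complex.I * ((z.re * ξ.re + z.im * ξ.im : ℝ) : ℂ)) *
      ((starRingEnd ℂ ξ / ξ) ^ m *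
        ∫ x : ℂ, Complex.exp (-(2 * π * Complex.I * ((x.re * ξ.re + x.im * ξ.im : ℝ) : ℂ))) * f x)
      = gg f m z := (UU_eq (hh f m) z).symm

/-- The theorem for radial weights. -/
theorem radial_main {m : ℕ} (hm : 1 ≤ m) {w : ℂ → ℝ} {K : ℝ} (hpos : ∀ z, 0 < w z)
    (hw : LocallyIntegrable w volume) (hwi : LocallyIntegrable (fun z => (w z)⁻¹) volume)
    (hA : ∀ (c : ℂ) (r : ℝ), 0 < r →
        ((∫ z in Metric.ball c r, w z) / (volume (Metric.ball c r)).toReal) *
        ((∫ z in Metric.ball c r, (w z)⁻¹) / (volume (Metric.ball c r)).toReal) ≤ K)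
    {z₀ : ℂ} (hrad : ∀ z z' : ℂ, ‖z - z₀‖ = ‖z' - z₀‖ → w z = w z') (f : SchwartzMap ℂ ℂ) :
    ∫⁻ z, ‖gg f m z‖ₑ ^ 2 * ENNReal.ofReal (w z) ≤
      ENNReal.ofReal ((200000 * m * K) ^ 2) * ∫⁻ z, ‖f z‖ₑ ^ 2 * ENNReal.ofReal (w z) := by
  obtain ⟨V, Vi, hV, hVi, hmul, hae⟩ :=
    radial_rep z₀ w hw.aestronglyMeasurable.aemeasurable hpos hrad
  have hlog : LogA2 (fun x => V (Real.exp x)) (fun x => Vi (Real.exp x)) K := by
    apply logA2_of_planar z₀ V Vi hV hVi hmul K
    intro c r hr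
    have h1 : ∫⁻ z in Metric.ball c r, V ‖z - z₀‖ =
        ENNReal.ofReal (∫ z in Metric.ball c r, w z) := by
      rw [← lint_ball (fun z => (hpos z).le) hw c r]
      apply lintegral_congr_ae
      filter_upwards [ae_restrict_of_ae hae] with z hz
      exact hz.1.symm
    have h2 : ∫⁻ z in Metric.ball c r, Vi ‖z - z₀‖ =
        ENNReal.ofReal (∫ z in Metric.ball c r, (w z)⁻¹) := by
      rw [← lint_ball (u := fun z => (w z)⁻¹) (fun z => (inv_pos.mpr (hpos z)).le) hwi c r]
      apply lintegral_congr_ae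
      filter_upwards [ae_restrict_of_ae hae] with z hz
      exact hz.2.symm
    have h3 : 0 ≤ ∫ z in Metric.ball c r, w z := by
      apply integral_nonneg
      intro z
      exact (hpos z).le
    rw [h1, h2, ← ENNReal.ofReal_mul h3]
    apply ENNReal.ofReal_le_ofReal
    have h4 := hA c r hr
    rw [vol_ball c hr] at h4
    have h5 : 0 < π * r ^ 2 := by positivity
    rw [div_mul_div_comm, div_le_iff₀ (by positivity)] at h4
    calc _ ≤ K * (π * r ^ 2 * (π * r ^ 2)) := h4
      _ = K * π ^ 2 * r ^ 4 := by ring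
  have hcore := radial_core z₀ V Vi hV K hlog m hm f
  have e1 : ∀ g : ℂ → ℂ, ∫⁻ z, ‖g z‖ₑ ^ 2 * ENNReal.ofReal (w z) =
      ∫⁻ z, ‖g z‖ₑ ^ 2 * V ‖z - z₀‖ := by
    intro g
    apply lintegral_congr_ae
    filter_upwards [hae] with z hz
    rw [hz.1]
  rw [e1, e1]
  exact hcore

end Pool.Agent.Lib.MP_f0c028_an
end

section

set_option autoImplicit false

/-! # Power weights: the disc constant and the bound -/

open Real

namespace Pool.Agent.Lib.MP_f0c028_an

open MeasureTheory Set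
open scoped ENNReal

/-- power weight centred at `a` -/
noncomputable def pw (a : ℂ) (β : ℝ) (z : ℂ) : ℝ := if z = a then 1 else ‖z - a‖ ^ β

theorem pw_pos (a : ℂ) (β : ℝ) (z : ℂ) : 0 < pw a β z := by
  unfold pw
  split_ifs with h
  · exact one_pos
  · exact Real.rpow_pos_of_pos (norm_pos_iff.mpr (sub_ne_zero.mpr h)) β

theorem pw_inv (a : ℂ) (β : ℝ) (z : ℂ) : (pw a β z)⁻¹ = pw a (-β) z := by
  unfold pw
  split_ifs with h
  · simp
  · rw [Real.rpow_neg (norm_nonneg _)]

theorem pw_ae (a : ℂ) (β : ℝ) : ∀ᵐ z : ℂ, pw a β z = ‖z - a‖ ^ β := by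
  have h : ∀ᵐ z : ℂ, z ≠ a := by
    rw [ae_iff]
    simp
  filter_upwards [h] with z hz
  unfold pw
  rw [if_neg hz]

theorem pw_meas (a : ℂ) (β : ℝ) : Measurable (pw a β) := by
  unfold pw
  refine Measurable.ite (measurableSet_singleton a) measurable_const ?_
  fun_prop

theorem pw_radial (a : ℂ) (β : ℝ) {z z' : ℂ} (h : ‖z - a‖ = ‖z' - a‖) : pw a β z = pw a β z' := by
  unfold pw
  by_cases hz : z = a
  · have hz' : z' = a := by
      rw [hz, sub_self, norm_zero] at h
      exact sub_eq_zero.mp (norm_eq_zero.mp h.symm)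
    rw [if_pos hz, if_pos hz']
  · have hz' : z' ≠ a := by
      intro h'
      rw [h', sub_self, norm_zero, norm_eq_zero, sub_eq_zero] at h
      exact hz h
    rw [if_neg hz, if_neg hz', h]

theorem lint_pw_ball (a : ℂ) {β : ℝ} (hβ : -2 < β) {R : ℝ} (hR : 0 < R) :
    ∫⁻ z in Metric.ball a R, ENNReal.ofReal (pw a β z) =
      ENNReal.ofReal (2 * π * (R ^ (2 + β) / (2 + β))) := by
  have h1 : ∫⁻ z in Metric.ball a R, ENNReal.ofReal (pw a β z) =
      ∫⁻ z in Metric.ball a (Real.exp (Real.log R)), (fun r => ENNReal.ofReal (r ^ β)) ‖z - a‖ := by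
    rw [Real.exp_log hR]
    apply lintegral_congr_ae
    filter_upwards [ae_restrict_of_ae (pw_ae a β)] with z hz
    rw [hz]
  rw [h1, lintegral_ball_radial a (fun r => ENNReal.ofReal (r ^ β)) (by fun_prop)]
  have h0 : ENNReal.ofReal (2 * π * (R ^ (2 + β) / (2 + β))) =
      ENNReal.ofReal (2 * π) * ENNReal.ofReal (R ^ (2 + β) / (2 + β)) :=
    ENNReal.ofReal_mul (by positivity)
  rw [h0]
  congr 1
  have h2 : ∀ y : ℝ, ENNReal.ofReal (Real.exp y ^ β) * ENNReal.ofReal (Real.exp (2 * y)) =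
      ENNReal.ofReal (Real.exp ((2 + β) * y)) := by
    intro y
    rw [← ENNReal.ofReal_mul (by positivity), ← Real.exp_mul, ← Real.exp_add]
    congr 2
    ring
  simp_rw [h2]
  have h3 : 0 < 2 + β := by linarith
  rw [← ofReal_integral_eq_lintegral_ofReal (integrableOn_exp_mul_Iic h3 _)
    (by filter_upwards with y; exact (Real.exp_pos _).le), integral_exp_mul_Iic h3]
  congr 2
  rw [Real.rpow_def_of_pos hR, mul_comm]

theorem pw_locInt (a : ℂ) {β : ℝ} (hβ : -2 < β) : LocallyIntegrable (pw a β) volume := by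
  intro x
  refine ⟨Metric.ball a (‖x - a‖ + 1), ?_, ?_⟩
  · apply Metric.isOpen_ball.mem_nhds
    rw [Metric.mem_ball, dist_eq_norm]
    linarith
  · refine ⟨(pw_meas a β).aestronglyMeasurable, ?_⟩
    rw [hasFiniteIntegral_iff_ofReal (by filter_upwards with z; exact (pw_pos a β z).le)]
    rw [lint_pw_ball a hβ (by positivity)]
    exact ENNReal.ofReal_lt_top

theorem int_pw_ball (a : ℂ) {β : ℝ} (hβ : -2 < β) {R : ℝ} (hR : 0 < R) :
    ∫ z in Metric.ball a R, pw a β z = 2 * π * (R ^ (2 + β) / (2 + β)) := by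
  have h1 := lint_pw_ball a hβ hR
  rw [lint_ball (fun z => (pw_pos a β z).le) (pw_locInt a hβ) a R] at h1
  have h3 : 0 < 2 + β := by linarith
  have h4 : 0 ≤ ∫ z in Metric.ball a R, pw a β z := integral_nonneg fun z => (pw_pos a β z).le
  rwa [ENNReal.ofReal_eq_ofReal_iff h4 (by positivity)] at h1

theorem int_le_const {w : ℂ → ℝ} (hw : LocallyIntegrable w volume) {c : ℂ} {r M : ℝ} (hr : 0 < r)
    (h : ∀ z ∈ Metric.ball c r, w z ≤ M) :
    (∫ z in Metric.ball c r, w z) / (volume (Metric.ball c r)).toReal ≤ M := by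
  have hb : 0 < π * r ^ 2 := by positivity
  rw [vol_ball c hr, div_le_iff₀ hb]
  have h1 : IntegrableOn w (Metric.ball c r) :=
    (hw.integrableOn_isCompact (isCompact_closedBall c r)).mono_set Metric.ball_subset_closedBall
  calc ∫ z in Metric.ball c r, w z ≤ ∫ _z in Metric.ball c r, M :=
        setIntegral_mono_on h1 (by
          refine integrableOn_const ?_
          exact measure_ball_lt_top.ne) measurableSet_ball h
    _ = M * (π * r ^ 2) := by
        rw [setIntegral_const, smul_eq_mul, Measure.real, vol_ball c hr, mul_comm]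

theorem pw_A2_nonneg (a : ℂ) {β : ℝ} (hβ0 : 0 ≤ β) (hβ : β < 2) (c : ℂ) {r : ℝ} (hr : 0 < r) :
    ((∫ z in Metric.ball c r, pw a β z) / (volume (Metric.ball c r)).toReal) *
      ((∫ z in Metric.ball c r, pw a (-β) z) / (volume (Metric.ball c r)).toReal) ≤
      162 / (2 - β) := by
  have h2 : 0 < 2 - β := by linarith
  have h2' : 0 < 2 + β := by linarith
  have hn : ∀ γ : ℝ, 0 ≤ (∫ z in Metric.ball c r, pw a γ z) / (volume (Metric.ball c r)).toReal :=
    fun γ => div_nonneg (integral_nonneg fun z => (pw_pos a γ z).le) ENNReal.toReal_nonneg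
  by_cases hD : 2 * r ≤ ‖c - a‖
  · set D := ‖c - a‖ with hDdef
    have hD0 : 0 < D := by linarith
    have hz1 : ∀ z ∈ Metric.ball c r, D / 2 ≤ ‖z - a‖ ∧ ‖z - a‖ ≤ 3 * (D / 2) := by
      intro z hz
      rw [Metric.mem_ball, dist_eq_norm] at hz
      have e1 : ‖z - a‖ ≤ ‖z - c‖ + ‖c - a‖ := by
        have := norm_add_le (z - c) (c - a)
        rwa [sub_add_sub_cancel] at this
      have e2 : ‖c - a‖ ≤ ‖z - c‖ + ‖z - a‖ := by
        have := norm_sub_le (z - a) (z - c)
        rw [sub_sub_sub_cancel_left] at this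
        linarith
      constructor <;> linarith
    have hne : ∀ z ∈ Metric.ball c r, z ≠ a := by
      intro z hz h
      have := (hz1 z hz).1
      rw [h, sub_self, norm_zero] at this
      linarith
    have b1 := int_le_const (pw_locInt a (by linarith : -2 < β)) (c := c) (M := (3 * (D / 2)) ^ β) hr
      (by
        intro z hz
        unfold pw
        rw [if_neg (hne z hz)]
        exact Real.rpow_le_rpow (norm_nonneg _) (hz1 z hz).2 hβ0)
    have b2 := int_le_const (pw_locInt a (by linarith : -2 < -β)) (c := c) (M := (D / 2) ^ (-β)) hr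
      (by
        intro z hz
        unfold pw
        rw [if_neg (hne z hz)]
        exact Real.rpow_le_rpow_of_nonpos (by positivity) (hz1 z hz).1 (by linarith))
    calc _ ≤ (3 * (D / 2)) ^ β * (D / 2) ^ (-β) :=
          mul_le_mul b1 b2 (hn _) (by positivity)
      _ = 3 ^ β := by
          rw [Real.mul_rpow (by norm_num) (by positivity), mul_assoc,
            ← Real.rpow_add (by positivity), add_neg_cancel, Real.rpow_zero, mul_one]
      _ ≤ 3 ^ (2 : ℝ) := Real.rpow_le_rpow_of_exponent_le (by norm_num) hβ.le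
      _ = 9 := by norm_num
      _ ≤ 162 / (2 - β) := by
          rw [le_div_iff₀ h2]
          linarith
  · push Not at hD
    have hsub : Metric.ball c r ⊆ Metric.ball a (3 * r) := by
      intro z hz
      rw [Metric.mem_ball, dist_eq_norm] at hz ⊢
      have := norm_add_le (z - c) (c - a)
      rw [sub_add_sub_cancel] at this
      linarith
    have hb : ∀ γ : ℝ, -2 < γ → (∫ z in Metric.ball c r, pw a γ z) ≤
        2 * π * ((3 * r) ^ (2 + γ) / (2 + γ)) := by
      intro γ hγ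
      rw [← int_pw_ball a hγ (by positivity : 0 < 3 * r)]
      apply setIntegral_mono_set
      · exact ((pw_locInt a hγ).integrableOn_isCompact (isCompact_closedBall a (3 * r))).mono_set
          Metric.ball_subset_closedBall
      · filter_upwards with z
        exact (pw_pos a γ z).le
      · exact hsub.eventuallyLE
    have hb1 := hb β (by linarith)
    have hb2 := hb (-β) (by linarith)
    have hi0 : 0 ≤ ∫ z in Metric.ball c r, pw a (-β) z := integral_nonneg fun z => (pw_pos a _ z).le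
    rw [vol_ball c hr, div_mul_div_comm, div_le_div_iff₀ (by positivity) h2]
    have h3r : 0 < 3 * r := by positivity
    have e1 : (3 * r) ^ (2 + β) * (3 * r) ^ (2 - β) = 81 * r ^ 4 := by
      rw [← Real.rpow_add h3r]
      have : 2 + β + (2 - β) = ((4 : ℕ) : ℝ) := by push_cast; ring
      rw [this, Real.rpow_natCast]
      ring
    calc (∫ z in Metric.ball c r, pw a β z) * (∫ z in Metric.ball c r, pw a (-β) z) * (2 - β) ≤
        (2 * π * ((3 * r) ^ (2 + β) / (2 + β))) * (2 * π * ((3 * r) ^ (2 + -β) / (2 + -β))) *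
          (2 - β) := by
          apply mul_le_mul_of_nonneg_right _ h2.le
          exact mul_le_mul hb1 hb2 hi0 (by positivity)
      _ = 4 * π ^ 2 * ((3 * r) ^ (2 + β) * (3 * r) ^ (2 - β)) / (2 + β) := by
          rw [← sub_eq_add_neg]
          field_simp
          ring
      _ = 324 * (π ^ 2 * r ^ 4) / (2 + β) := by rw [e1]; ring
      _ ≤ 324 * (π ^ 2 * r ^ 4) / 2 := by
          apply div_le_div_of_nonneg_left (by positivity) (by norm_num) (by linarith)
      _ = 162 * (π * r ^ 2 * (π * r ^ 2)) := by ring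

theorem pw_A2 (a : ℂ) {β : ℝ} (hβ : |β| < 2) (c : ℂ) {r : ℝ} (hr : 0 < r) :
    ((∫ z in Metric.ball c r, pw a β z) / (volume (Metric.ball c r)).toReal) *
      ((∫ z in Metric.ball c r, (pw a β z)⁻¹) / (volume (Metric.ball c r)).toReal) ≤
      162 / (2 - |β|) := by
  simp_rw [pw_inv]
  rcases le_total 0 β with h | h
  · rw [abs_of_nonneg h] at hβ ⊢
    exact pw_A2_nonneg a h hβ c hr
  · rw [abs_of_nonpos h] at hβ ⊢
    have := pw_A2_nonneg a (by linarith : 0 ≤ -β) hβ c hr
    rw [neg_neg] at this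
    rw [mul_comm]
    exact this

/-- The bound for power weights. -/
theorem pw_bound {m : ℕ} (hm : 1 ≤ m) (a : ℂ) {β : ℝ} (hβ : |β| < 2) (f : SchwartzMap ℂ ℂ) :
    ∫⁻ z, ‖gg f m z‖ₑ ^ 2 * ENNReal.ofReal (pw a β z) ≤
      ENNReal.ofReal ((200000 * m * (162 / (2 - |β|))) ^ 2) *
        ∫⁻ z, ‖f z‖ₑ ^ 2 * ENNReal.ofReal (pw a β z) := by
  have hβ' := abs_lt.mp hβ
  refine radial_main hm (fun z => pw_pos a β z) (pw_locInt a hβ'.1) ?_
    (fun c r hr => pw_A2 a hβ c hr) (z₀ := a) (fun z z' h => pw_radial a β h) f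
  simp_rw [pw_inv]
  exact pw_locInt a (by linarith)

end Pool.Agent.Lib.MP_f0c028_an
end

section

set_option autoImplicit false

/-! # An `A₂` weight which dominates a power weight: the exponent is at distance `≥ 9 / (16 K)`
from `± 2` -/

open Real

namespace Pool.Agent.Lib.MP_f0c028_an

open MeasureTheory Set

/-- Cauchy-Schwarz for a weight and its reciprocal. -/
theorem sq_measure_le {w : ℂ → ℝ} (hpos : ∀ z, 0 < w z) {A : Set ℂ} (hA : MeasurableSet A)
    (hAf : volume A ≠ ⊤) (h1 : IntegrableOn w A) (h2 : IntegrableOn (fun z => (w z)⁻¹) A) :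
    (volume A).toReal ^ 2 ≤ (∫ z in A, w z) * ∫ z in A, (w z)⁻¹ := by
  set a := (volume A).toReal with ha
  set W := ∫ z in A, w z with hW
  set S := ∫ z in A, (w z)⁻¹ with hS
  have hW0 : 0 ≤ W := integral_nonneg fun z => (hpos z).le
  have hS0 : 0 ≤ S := integral_nonneg fun z => (inv_pos.mpr (hpos z)).le
  have key : ∀ t : ℝ, 0 < t → 2 * a ≤ t * W + t⁻¹ * S := by
    intro t ht
    have h3 : ∫ _z in A, (2 : ℝ) = 2 * a := by
      rw [setIntegral_const, smul_eq_mul, Measure.real, mul_comm]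
    have h4 : ∫ z in A, (t * w z + t⁻¹ * (w z)⁻¹) = t * W + t⁻¹ * S := by
      rw [integral_add (h1.const_mul t) (h2.const_mul t⁻¹), integral_const_mul,
        integral_const_mul]
    rw [← h3, ← h4]
    apply setIntegral_mono_on (integrableOn_const hAf)
      ((h1.const_mul t).add (h2.const_mul t⁻¹)) hA
    intro z _
    have hx : 0 < t * w z := mul_pos ht (hpos z)
    change 2 ≤ t * w z + t⁻¹ * (w z)⁻¹
    have : t⁻¹ * (w z)⁻¹ = (t * w z)⁻¹ := by rw [mul_inv]
    rw [this]
    generalize t * w z = x at hx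
    have h5 : 0 ≤ (x - 1) ^ 2 / x := by positivity
    have h6 : (x - 1) ^ 2 / x = x + x⁻¹ - 2 := by
      field_simp
      ring
    linarith
  have ha0 : 0 ≤ a := ENNReal.toReal_nonneg
  rcases ha0.eq_or_lt with h0 | h0
  · rw [← h0]
    simpa using mul_nonneg hW0 hS0
  · rcases hW0.eq_or_lt with hW' | hW'
    · -- then `2 a ≤ S / t` for all `t`
      exfalso
      have h3 := key ((S + 1) / a) (by positivity)
      rw [← hW', mul_zero, zero_add, inv_div, div_mul_eq_mul_div, le_div_iff₀ (by positivity)] at h3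
      nlinarith
    · have h3 := key (a / W) (by positivity)
      rw [inv_div, div_mul_cancel₀ _ hW'.ne', div_mul_eq_mul_div] at h3
      have h4 : a ≤ W * S / a := by linarith
      rw [le_div_iff₀ h0] at h4
      calc a ^ 2 = a * a := by ring
        _ ≤ W * S := h4

section
variable {w : ℂ → ℝ} {K : ℝ} (hpos : ∀ z, 0 < w z) (hw : LocallyIntegrable w volume)
  (hwi : LocallyIntegrable (fun z => (w z)⁻¹) volume)
  (hA : ∀ (c : ℂ) (r : ℝ), 0 < r →
        ((∫ z in Metric.ball c r, w z) / (volume (Metric.ball c r)).toReal) *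
        ((∫ z in Metric.ball c r, (w z)⁻¹) / (volume (Metric.ball c r)).toReal) ≤ K)

include hA in
theorem A2_ball (c : ℂ) {r : ℝ} (hr : 0 < r) :
    (∫ z in Metric.ball c r, w z) * (∫ z in Metric.ball c r, (w z)⁻¹) ≤ K * (π * r ^ 2) ^ 2 := by
  have h := hA c r hr
  rw [vol_ball c hr, div_mul_div_comm, div_le_iff₀ (by positivity)] at h
  calc _ ≤ K * (π * r ^ 2 * (π * r ^ 2)) := h
    _ = _ := by ring

theorem intOn_ball {u : ℂ → ℝ} (hu : LocallyIntegrable u volume) (c : ℂ) (r : ℝ) :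
    IntegrableOn u (Metric.ball c r) :=
  (hu.integrableOn_isCompact (isCompact_closedBall c r)).mono_set Metric.ball_subset_closedBall

include hpos hw in
theorem int_ball_pos (c : ℂ) {r : ℝ} (hr : 0 < r) : 0 < ∫ z in Metric.ball c r, w z := by
  rw [setIntegral_pos_iff_support_of_nonneg_ae]
  · have : Function.support w = univ := by
      ext z
      simp [(hpos z).ne']
    rw [this, univ_inter]
    exact Metric.measure_ball_pos volume c hr
  · filter_upwards with z
    exact (hpos z).le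
  · exact intOn_ball hw c r

include hpos hw hwi hA in
theorem one_le_K : 1 ≤ K := by
  have h1 := sq_measure_le hpos (measurableSet_ball (x := (0:ℂ)) (ε := 1)) measure_ball_lt_top.ne
    (intOn_ball hw 0 1) (intOn_ball hwi 0 1)
  have h2 := A2_ball hA 0 one_pos
  rw [vol_ball (0 : ℂ) one_pos] at h1
  have h3 : 0 < (π * (1 : ℝ) ^ 2) ^ 2 := by positivity
  nlinarith

include hpos hw hwi hA in
/-- the mass of the half ball -/
theorem shrink (a : ℂ) {r : ℝ} (hr : 0 < r) :
    ∫ z in Metric.ball a (r / 2), w z ≤ (1 - 9 / (16 * K)) * ∫ z in Metric.ball a r, w z := by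
  set B := Metric.ball a r
  set B' := Metric.ball a (r / 2)
  have hsub : B' ⊆ B := Metric.ball_subset_ball (by linarith)
  have hK := one_le_K hpos hw hwi hA
  have hmA : MeasurableSet (B \ B') := measurableSet_ball.diff measurableSet_ball
  have hA1 : IntegrableOn w (B \ B') := (intOn_ball hw a r).mono_set sdiff_subset
  have hA2 : IntegrableOn (fun z => (w z)⁻¹) (B \ B') := (intOn_ball hwi a r).mono_set sdiff_subset
  have hvol : (volume (B \ B')).toReal = 3 / 4 * (π * r ^ 2) := by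
    rw [measure_sdiff hsub measurableSet_ball.nullMeasurableSet measure_ball_lt_top.ne,
      ENNReal.toReal_sub_of_le (measure_mono hsub) measure_ball_lt_top.ne, vol_ball a hr,
      vol_ball a (by positivity)]
    ring
  have h1 := sq_measure_le hpos hmA (measure_ne_top_of_subset sdiff_subset
    measure_ball_lt_top.ne) hA1 hA2
  rw [hvol] at h1
  have h2 : ∫ z in B \ B', (w z)⁻¹ ≤ ∫ z in B, (w z)⁻¹ := by
    apply setIntegral_mono_set (intOn_ball hwi a r)
    · filter_upwards with z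
      exact (inv_pos.mpr (hpos z)).le
    · exact sdiff_subset.eventuallyLE
  have h3 : ∫ z in B \ B', w z = (∫ z in B, w z) - ∫ z in B', w z :=
    setIntegral_sdiff measurableSet_ball (intOn_ball hw a r) hsub
  have hWA : 0 ≤ ∫ z in B \ B', w z := integral_nonneg fun z => (hpos z).le
  have hWB : 0 < ∫ z in B, w z := int_ball_pos hpos hw a hr
  have h4 := A2_ball hA a hr
  -- `(9/16) |B|² W(B) ≤ W(A) K |B|²`
  have h5 : 9 / 16 * (∫ z in B, w z) ≤ K * ∫ z in B \ B', w z := by
    have h6 : (3 / 4 * (π * r ^ 2)) ^ 2 * (∫ z in B, w z) ≤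
        (∫ z in B \ B', w z) * (K * (π * r ^ 2) ^ 2) := by
      calc (3 / 4 * (π * r ^ 2)) ^ 2 * (∫ z in B, w z) ≤
          ((∫ z in B \ B', w z) * ∫ z in B \ B', (w z)⁻¹) * (∫ z in B, w z) :=
            mul_le_mul_of_nonneg_right h1 hWB.le
        _ ≤ ((∫ z in B \ B', w z) * ∫ z in B, (w z)⁻¹) * (∫ z in B, w z) := by gcongr
        _ = (∫ z in B \ B', w z) * ((∫ z in B, w z) * ∫ z in B, (w z)⁻¹) := by ring
        _ ≤ (∫ z in B \ B', w z) * (K * (π * r ^ 2) ^ 2) := mul_le_mul_of_nonneg_left h4 hWA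
    have h7 : 0 < (π * r ^ 2) ^ 2 := by positivity
    refine le_of_mul_le_mul_right ?_ h7
    calc 9 / 16 * (∫ z in B, w z) * (π * r ^ 2) ^ 2 =
        (3 / 4 * (π * r ^ 2)) ^ 2 * (∫ z in B, w z) := by ring
      _ ≤ _ := h6
      _ = _ := by ring
  rw [h3] at h5
  have hK0 : 0 < K := by linarith
  have h8 : 9 / (16 * K) * (∫ z in B, w z) = (9 / 16 * (∫ z in B, w z)) / K := by
    field_simp
  have h9 : (9 / 16 * (∫ z in B, w z)) / K ≤ (∫ z in B, w z) - ∫ z in B', w z := by
    rw [div_le_iff₀ hK0]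
    linarith
  have h10 : (1 - 9 / (16 * K)) * (∫ z in B, w z) =
      (∫ z in B, w z) - 9 / (16 * K) * (∫ z in B, w z) := by ring
  rw [h10, h8]
  linarith

include hpos hw hwi hA in
theorem shrink_pow (a : ℂ) {r : ℝ} (hr : 0 < r) (j : ℕ) :
    ∫ z in Metric.ball a (r / 2 ^ j), w z ≤
      (1 - 9 / (16 * K)) ^ j * ∫ z in Metric.ball a r, w z := by
  have hK := one_le_K hpos hw hwi hA
  have hθ : 0 ≤ 1 - 9 / (16 * K) := by
    have : 9 / (16 * K) ≤ 1 := by
      rw [div_le_one (by linarith)]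
      linarith
    linarith
  induction j with
  | zero => simp
  | succ j ih =>
    have h1 := shrink hpos hw hwi hA a (r := r / 2 ^ j) (by positivity)
    have h2 : r / 2 ^ j / 2 = r / 2 ^ (j + 1) := by
      rw [pow_succ]
      field_simp
    rw [h2] at h1
    calc _ ≤ (1 - 9 / (16 * K)) * ∫ z in Metric.ball a (r / 2 ^ j), w z := h1
      _ ≤ (1 - 9 / (16 * K)) * ((1 - 9 / (16 * K)) ^ j * ∫ z in Metric.ball a r, w z) :=
          mul_le_mul_of_nonneg_left ih hθ
      _ = _ := by rw [pow_succ]; ring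

end

/-- From `c (2 ^ (-x)) ^ j ≤ M (1 - θ) ^ j` for all `j`: `θ ≤ x`. -/
theorem theta_le {x θ c M : ℝ} (hθ0 : 0 < θ) (hθ : θ < 1) (hc : 0 < c)
    (h : ∀ j : ℕ, c * ((2 : ℝ) ^ (-x)) ^ j ≤ M * (1 - θ) ^ j) : θ ≤ x := by
  have h1 : (0 : ℝ) < 1 - θ := by linarith
  have h2 : (2 : ℝ) ^ (-x) ≤ 1 - θ := by
    by_contra hcon
    push Not at hcon
    have h3 : 1 < (2 : ℝ) ^ (-x) / (1 - θ) := by
      rw [lt_div_iff₀ h1]
      linarith
    obtain ⟨j, hj⟩ := pow_unbounded_of_one_lt (M / c) h3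
    have h4 := h j
    rw [div_pow, lt_div_iff₀ (by positivity), div_mul_eq_mul_div, div_lt_iff₀ hc] at hj
    linarith
  have hx : 0 < x := by
    by_contra hcon
    push Not at hcon
    have : (1 : ℝ) ≤ (2 : ℝ) ^ (-x) := Real.one_le_rpow (by norm_num) (by linarith)
    linarith
  have h3 : 1 - x ≤ (2 : ℝ) ^ (-x) := by
    rw [Real.rpow_def_of_pos (by norm_num)]
    have h4 := Real.add_one_le_exp (Real.log 2 * -x)
    have h5 : Real.log 2 ≤ 1 := by
      have := Real.log_two_lt_d9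
      linarith
    nlinarith
  linarith

/-- An `A₂` weight (or its reciprocal: `s = ± 1`) above a power weight. -/
theorem exponent_bound {w : ℂ → ℝ} {K : ℝ} (hpos : ∀ z, 0 < w z)
    (hw : LocallyIntegrable w volume) (hwi : LocallyIntegrable (fun z => (w z)⁻¹) volume)
    (hA : ∀ (c : ℂ) (r : ℝ), 0 < r →
        ((∫ z in Metric.ball c r, w z) / (volume (Metric.ball c r)).toReal) *
        ((∫ z in Metric.ball c r, (w z)⁻¹) / (volume (Metric.ball c r)).toReal) ≤ K)
    {c β : ℝ} (hc : 0 < c) (a : ℂ) (hlow : ∀ᵐ z, c * ‖z - a‖ ^ β ≤ w z) :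
    9 / (16 * K) ≤ 2 - |β| := by
  have hK := one_le_K hpos hw hwi hA
  have hθ0 : 0 < 9 / (16 * K) := by positivity
  have hθ1 : 9 / (16 * K) < 1 := by
    rw [div_lt_one (by linarith)]
    linarith
  -- lower bound on a set
  have hlowset : ∀ (A : Set ℂ), MeasurableSet A → ∀ r : ℝ, A ⊆ Metric.ball a r → ∀ M : ℝ,
      (∀ z ∈ A, z ≠ a → M ≤ ‖z - a‖ ^ β) → c * M * (volume A).toReal ≤ ∫ z in A, w z := by
    intro A hAm r hAr M hM
    have hAf : volume A ≠ ⊤ := measure_ne_top_of_subset hAr measure_ball_lt_top.ne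
    have h1 : ∫ _z in A, c * M = c * M * (volume A).toReal := by
      rw [setIntegral_const, smul_eq_mul, Measure.real, mul_comm]
    rw [← h1]
    have hint : IntegrableOn (fun _ : ℂ => c * M) A volume := integrableOn_const hAf
    apply integral_mono_ae hint ((intOn_ball hw a r).mono_set hAr)
    have hne : ∀ᵐ z : ℂ, z ≠ a := by
      rw [ae_iff]
      simp
    filter_upwards [ae_restrict_of_ae hlow, ae_restrict_of_ae hne, ae_restrict_mem hAm]
      with z hz hz1 hz2
    exact (mul_le_mul_of_nonneg_left (hM z hz2 hz1) hc.le).trans hz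
  rcases le_total 0 β with hβ | hβ
  · rw [abs_of_nonneg hβ]
    -- growth of the reciprocal
    have hSpos : 0 < ∫ z in Metric.ball a 1, (w z)⁻¹ :=
      int_ball_pos (w := fun z => (w z)⁻¹) (fun z => inv_pos.mpr (hpos z)) hwi a one_pos
    have hA' : ∀ (c : ℂ) (r : ℝ), 0 < r →
        ((∫ z in Metric.ball c r, (w z)⁻¹) / (volume (Metric.ball c r)).toReal) *
        ((∫ z in Metric.ball c r, ((w z)⁻¹)⁻¹) / (volume (Metric.ball c r)).toReal) ≤ K := by
      intro c r hr
      simp only [inv_inv]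
      rw [mul_comm]
      exact hA c r hr
    have hw' : LocallyIntegrable (fun z => ((w z)⁻¹)⁻¹) volume := by
      simpa only [inv_inv] using hw
    refine theta_le (c := (∫ z in Metric.ball a 1, (w z)⁻¹) * (c * 2 ^ (-β) * (3 / 4 * π)))
      (M := K * π ^ 2) hθ0 hθ1 (by positivity) ?_
    intro j
    have h2j : (0 : ℝ) < 2 ^ j := by positivity
    have h1 := shrink_pow (w := fun z => (w z)⁻¹) (fun z => inv_pos.mpr (hpos z)) hwi hw' hA' a h2j j
    rw [div_self h2j.ne'] at h1
    have h2 := A2_ball hA a h2j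
    have hvol : (volume (Metric.ball a (2 ^ j) \ Metric.ball a (2 ^ j / 2))).toReal =
        3 / 4 * (π * (2 ^ j) ^ 2) := by
      rw [measure_sdiff (Metric.ball_subset_ball (by linarith))
        measurableSet_ball.nullMeasurableSet measure_ball_lt_top.ne,
        ENNReal.toReal_sub_of_le (measure_mono (Metric.ball_subset_ball (by linarith)))
        measure_ball_lt_top.ne, vol_ball a h2j, vol_ball a (by positivity)]
      ring
    have h3 : c * (2 ^ j / 2) ^ β * (3 / 4 * (π * (2 ^ j) ^ 2)) ≤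
        ∫ z in Metric.ball a (2 ^ j), w z := by
      rw [← hvol]
      refine (hlowset _ (measurableSet_ball.diff measurableSet_ball) (2 ^ j) sdiff_subset _
        ?_).trans ?_
      · intro z hz _
        have hz2 : 2 ^ j / 2 ≤ ‖z - a‖ := by
          have := hz.2
          rw [Metric.mem_ball, dist_eq_norm, not_lt] at this
          exact this
        exact Real.rpow_le_rpow (by positivity) hz2 hβ
      · apply setIntegral_mono_set (intOn_ball hw a _)
        · filter_upwards with z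
          exact (hpos z).le
        · exact sdiff_subset.eventuallyLE
    have h4 : ((2 : ℝ) ^ j / 2) ^ β = (2 ^ β) ^ j * 2 ^ (-β) := by
      rw [Real.div_rpow (by positivity) (by norm_num), Real.rpow_neg (by norm_num),
        ← div_eq_mul_inv]
      congr 1
      rw [← Real.rpow_natCast 2 j, ← Real.rpow_mul (by norm_num), mul_comm,
        Real.rpow_mul (by norm_num), Real.rpow_natCast]
    have h5 : ((2 : ℝ) ^ (-(2 - β))) ^ j * (((2 : ℝ) ^ j) ^ 2) ^ 2 =
        (2 ^ β) ^ j * (2 ^ j) ^ 2 := by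
      have e1 : (2 : ℝ) ^ (-(2 - β)) = 2 ^ β / 4 := by
        rw [show -(2 - β) = β - 2 by ring, Real.rpow_sub (by norm_num)]
        norm_num
      rw [e1, div_pow]
      have e2 : (4 : ℝ) ^ j = (2 ^ j) ^ 2 := by
        rw [← pow_mul, mul_comm, pow_mul]
        norm_num
      rw [e2]
      field_simp
    have hWj : 0 < ∫ z in Metric.ball a (2 ^ j), w z := int_ball_pos hpos hw a h2j
    have hX : 0 < (((2 : ℝ) ^ j) ^ 2) ^ 2 := by positivity
    refine le_of_mul_le_mul_right ?_ hX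
    calc (∫ z in Metric.ball a 1, (w z)⁻¹) * (c * 2 ^ (-β) * (3 / 4 * π)) *
          ((2 : ℝ) ^ (-(2 - β))) ^ j * (((2 : ℝ) ^ j) ^ 2) ^ 2
        = (∫ z in Metric.ball a 1, (w z)⁻¹) * (c * (2 ^ j / 2) ^ β * (3 / 4 * (π * (2 ^ j) ^ 2))) := by
          rw [mul_assoc _ (((2 : ℝ) ^ (-(2 - β))) ^ j) _, h5, h4]
          ring
      _ ≤ (∫ z in Metric.ball a 1, (w z)⁻¹) * ∫ z in Metric.ball a (2 ^ j), w z :=
          mul_le_mul_of_nonneg_left h3 hSpos.le
      _ ≤ ((1 - 9 / (16 * K)) ^ j * ∫ z in Metric.ball a (2 ^ j), (w z)⁻¹) *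
            ∫ z in Metric.ball a (2 ^ j), w z := mul_le_mul_of_nonneg_right h1 hWj.le
      _ = (1 - 9 / (16 * K)) ^ j * ((∫ z in Metric.ball a (2 ^ j), w z) *
            ∫ z in Metric.ball a (2 ^ j), (w z)⁻¹) := by ring
      _ ≤ (1 - 9 / (16 * K)) ^ j * (K * (π * (2 ^ j) ^ 2) ^ 2) := by
          apply mul_le_mul_of_nonneg_left h2
          apply pow_nonneg
          linarith
      _ = _ := by ring
  · rw [abs_of_nonpos hβ]
    refine theta_le (c := c * π) (M := ∫ z in Metric.ball a 1, w z) hθ0 hθ1 (by positivity) ?_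
    intro j
    have h1 := shrink_pow hpos hw hwi hA a one_pos j
    have hr : (0 : ℝ) < 1 / 2 ^ j := by positivity
    have h2 := hlowset (Metric.ball a (1 / 2 ^ j)) measurableSet_ball _ Subset.rfl
      ((1 / 2 ^ j) ^ β) (by
        intro z hz hza
        rw [Metric.mem_ball, dist_eq_norm] at hz
        exact Real.rpow_le_rpow_of_nonpos (norm_pos_iff.mpr (sub_ne_zero.mpr hza)) hz.le hβ)
    rw [vol_ball a hr] at h2
    have h3 : ((2 : ℝ) ^ (-(2 - -β))) ^ j = (1 / 2 ^ j) ^ β * (1 / 2 ^ j) ^ 2 := by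
      have e1 : (2 : ℝ) ^ (-(2 - -β)) = (2 ^ β)⁻¹ / 4 := by
        rw [show -(2 - -β) = -β - 2 by ring, Real.rpow_sub (by norm_num),
          Real.rpow_neg (by norm_num)]
        norm_num
      rw [e1, div_pow, Real.div_rpow (by norm_num) (by positivity), Real.one_rpow, inv_pow,
        div_pow, one_pow]
      have e2 : (4 : ℝ) ^ j = (2 ^ j) ^ 2 := by
        rw [← pow_mul, mul_comm, pow_mul]
        norm_num
      have e3 : ((2 : ℝ) ^ j) ^ β = (2 ^ β) ^ j := by
        rw [← Real.rpow_natCast 2 j, ← Real.rpow_mul (by norm_num), mul_comm,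
          Real.rpow_mul (by norm_num), Real.rpow_natCast]
      rw [e2, e3]
      field_simp
    rw [h3]
    calc c * π * ((1 / 2 ^ j) ^ β * (1 / 2 ^ j) ^ 2) =
        c * (1 / 2 ^ j) ^ β * (π * (1 / 2 ^ j) ^ 2) := by ring
      _ ≤ ∫ z in Metric.ball a (1 / 2 ^ j), w z := h2
      _ ≤ _ := h1
      _ = _ := by ring

end Pool.Agent.Lib.MP_f0c028_an
end

section

set_option autoImplicit false

/-! # Duality: from the weight `1 / w` to the weight `w` -/

open Real

namespace Pool.Agent.Lib.MP_f0c028_an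

open MeasureTheory Set Filter Topology FourierTransform
open scoped ENNReal InnerProductSpace ContDiff

/-- self-adjointness of the Fourier transform -/
theorem fourier_flip {u v : ℂ → ℂ} (hu : Integrable u) (hv : Integrable v) :
    ∫ z, 𝓕 u z * v z = ∫ z, u z * 𝓕 v z := by
  have h := VectorFourier.integral_fourierIntegral_smul_eq_flip (L := innerₗ ℂ) (μ := volume)
    (ν := volume) (f := u) (g := v) Real.continuous_fourierChar continuous_inner hu hv
  simp only [smul_eq_mul] at h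
  rw [flip_innerₗ] at h
  exact h

theorem hh_flip (f h : SchwartzMap ℂ ℂ) (m : ℕ) :
    ∫ z, gg f m z * h z = ∫ ξ, hh f m ξ * (𝓕 h) (-ξ) := by
  have h1 : ∫ z, gg f m z * h z = ∫ z, 𝓕 (hh f m) z * (fun z => h (-z)) z := by
    rw [← integral_neg_eq_self (fun z => 𝓕 (hh f m) z * (fun z => h (-z)) z)]
    refine integral_congr_ae ?_
    filter_upwards with z
    simp [gg, UU]
  have h2 : Integrable (fun z : ℂ => h (-z)) := h.integrable.comp_neg
  rw [h1, fourier_flip (hh_int f m) h2]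
  refine integral_congr_ae ?_
  filter_upwards with ξ
  have h3 : 𝓕 (fun z : ℂ => h (-z)) ξ = 𝓕 (h : ℂ → ℂ) (-ξ) :=
    Real.fourier_comp_linearIsometry (LinearIsometryEquiv.neg ℝ) (h : ℂ → ℂ) ξ
  rw [h3]
  rfl

/-- the bilinear form of `B^m` is symmetric -/
theorem pair_symm (f h : SchwartzMap ℂ ℂ) (m : ℕ) :
    ∫ z, gg f m z * h z = ∫ z, f z * gg h m z := by
  have h1 : ∫ z, f z * gg h m z = ∫ z, gg h m z * f z := by simp_rw [mul_comm]
  rw [h1, hh_flip, hh_flip]
  refine (integral_neg_eq_self (fun ξ => hh f m ξ * (𝓕 h) (-ξ)) volume).symm.trans ?_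
  refine integral_congr_ae ?_
  filter_upwards with ξ
  rw [hh_eq, hh_eq, neg_neg, map_neg, neg_div_neg_eq]
  ring

/-- Cauchy-Schwarz -/
theorem cs_lint {μ : Measure ℂ} {u v : ℂ → ℝ≥0∞} (hu : AEMeasurable u μ) (hv : AEMeasurable v μ) :
    (∫⁻ z, u z * v z ∂μ) ^ 2 ≤ (∫⁻ z, u z ^ 2 ∂μ) * ∫⁻ z, v z ^ 2 ∂μ := by
  have h := ENNReal.lintegral_mul_le_Lp_mul_Lq μ Real.HolderConjugate.two_two hu hv
  have h2 : ∀ x : ℝ≥0∞, (x ^ (1 / (2 : ℝ))) ^ 2 = x := by
    intro x
    rw [← ENNReal.rpow_natCast, ← ENNReal.rpow_mul]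
    norm_num
  calc (∫⁻ z, u z * v z ∂μ) ^ 2 = (∫⁻ z, (u * v) z ∂μ) ^ 2 := rfl
    _ ≤ ((∫⁻ z, u z ^ (2 : ℝ) ∂μ) ^ (1 / (2 : ℝ)) * (∫⁻ z, v z ^ (2 : ℝ) ∂μ) ^ (1 / (2 : ℝ))) ^ 2 :=
        pow_le_pow_left' h 2
    _ = _ := by
        rw [mul_pow, h2, h2]
        norm_num

/-- weighted Cauchy-Schwarz -/
theorem cs_w2 {w : ℂ → ℝ} (hpos : ∀ z, 0 < w z) (hwm : Measurable w) {u v : ℂ → ℂ}
    (hu : Measurable u) (hv : Measurable v) :
    ‖∫ z, u z * v z‖ₑ ^ 2 ≤ (∫⁻ z, ‖u z‖ₑ ^ 2 * ENNReal.ofReal (w z)) *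
      ∫⁻ z, ‖v z‖ₑ ^ 2 * ENNReal.ofReal (w z)⁻¹ := by
  have h1 : ‖∫ z, u z * v z‖ₑ ≤ ∫⁻ z, (‖u z‖ₑ * ENNReal.ofReal √(w z)) *
      (‖v z‖ₑ * ENNReal.ofReal √((w z)⁻¹)) := by
    refine (enorm_integral_le_lintegral_enorm _).trans (le_of_eq ?_)
    refine lintegral_congr fun z => ?_
    rw [enorm_mul, mul_mul_mul_comm, ← ENNReal.ofReal_mul (Real.sqrt_nonneg _),
      ← Real.sqrt_mul (hpos z).le, mul_inv_cancel₀ (hpos z).ne', Real.sqrt_one,
      ENNReal.ofReal_one, mul_one]
  refine (pow_le_pow_left' h1 2).trans ((cs_lint ?_ ?_).trans (le_of_eq ?_))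
  · fun_prop
  · fun_prop
  · congr 1
    · refine lintegral_congr fun z => ?_
      rw [mul_pow, ← ENNReal.ofReal_pow (Real.sqrt_nonneg _), Real.sq_sqrt (hpos z).le]
    · refine lintegral_congr fun z => ?_
      rw [mul_pow, ← ENNReal.ofReal_pow (Real.sqrt_nonneg _),
        Real.sq_sqrt (inv_pos.mpr (hpos z)).le]

/-- `B^m f` is in `L²`. -/
theorem gg_memLp (f : SchwartzMap ℂ ℂ) {m : ℕ} (hm : 1 ≤ m) : MemLp (gg f m) 2 volume := by
  refine ⟨(gg_contDiff f m).continuous.aestronglyMeasurable, ?_⟩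
  have hl : LocallyIntegrable (fun _ : ℂ => (1 : ℝ)) volume := locallyIntegrable_const 1
  have h := radial_main hm (w := fun _ => (1 : ℝ)) (K := 1) (fun _ => one_pos) hl
    (by simpa using hl) (by
      intro c r hr
      have hb : (0 : ℝ) < π * r ^ 2 := by positivity
      simp only [inv_one, setIntegral_const, smul_eq_mul, mul_one, Measure.real, vol_ball c hr]
      rw [div_self hb.ne', mul_one]) (z₀ := 0) (fun _ _ _ => rfl) f
  simp only [ENNReal.ofReal_one, mul_one] at h
  rw [eLpNorm_lt_top_iff_lintegral_rpow_enorm_lt_top (by norm_num) (by norm_num)]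
  simp only [ENNReal.toReal_ofNat, ENNReal.rpow_ofNat]
  refine lt_of_le_of_lt h ?_
  refine ENNReal.mul_lt_top ENNReal.ofReal_lt_top ?_
  have h2 : MemLp f 2 volume := f.memLp 2 volume
  have h3 := h2.2
  rw [eLpNorm_lt_top_iff_lintegral_rpow_enorm_lt_top (by norm_num) (by norm_num)] at h3
  simpa only [ENNReal.toReal_ofNat, ENNReal.rpow_ofNat] using h3

end Pool.Agent.Lib.MP_f0c028_an
end
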