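import Pool.Agent.Lib.MP_f0c028_an.Mg.G002
import Pool.Agent.Lib.MP_f0c028_an.Mg.G015
import Pool.Agent.Lib.MP_f0c028_an.Mg.G001

section

set_option autoImplicit false

/-! # TASK GW9: Fourier transforms

`fourier_gk`: `fourier_gaussian_innerProductSpace` with `b = 1/(4t)` (`finrank ℝ ℂ = 2`).
`fourier_dk`: `dk t = ∂/∂z̄ (gk t)`, i.e. `dk t z = (1/2) (∂_1 + i ∂_2) gk t z`; integrate by parts:
`∫ e^{-2πi<z,ξ>} ∂_v gk = 2πi <v,ξ> ∫ e^{-2πi<z,ξ>} gk` (`integral_bilinear_hasLineDerivAt_right_eq_neg_left_of_integrable`-type lemma,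
or Mathlib's `Real.fourier_fderiv`/`Real.fourierIntegral_fderiv`), `(1/2)(2πi)(ξ₁ + i ξ₂) = πi ξ`. ALTERNATIVE: the Fourier transform of
`z ↦ z · gk t z` is the derivative of the Fourier transform of `gk t` (`Real.hasFDerivAt_fourier`): for `f = gk t` integrable with
`‖z‖ f` integrable, `∂_v (𝓕 f)(ξ) = ∫ (-2πi <z,v>) e^{..} f`, so with `v = 1` and `v = i`
`𝓕 (z f) = (-2πi)⁻¹ (∂_1 + i ∂_i) 𝓕 f = (-2πi)⁻¹ (-8π²t)(ξ₁ + iξ₂) e^{-4π²t|ξ|²}`, `= -4πi t ξ ..`, and `dk = -(1/(4t)) z f`.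
`fourier_conv`: `Real.fourier_mul_convolution_eq` (`Mathlib.Analysis.Fourier.Convolution`). -/

open Real

namespace Pool.Agent.Lib.MP_f0c028_an.GW

open MeasureTheory Set Filter Topology FourierTransform
open scoped ENNReal InnerProductSpace ComplexConjugate

theorem fourier_conv {k f : ℂ → ℂ} (hk : Integrable k) (hf : Integrable f) (ξ : ℂ) :
    𝓕 (fun x => ∫ y, k (x - y) * f y) ξ = 𝓕 k ξ * 𝓕 f ξ := by
  have h := Real.fourier_mul_convolution_eq hf hk ξ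
  rw [mul_comm (𝓕 k ξ), ← h]
  have e : (fun x => ∫ y, k (x - y) * f y) =
      MeasureTheory.convolution f k (ContinuousLinearMap.mul ℂ ℂ) volume :=
    funext fun x => integral_congr_ae (ae_of_all _ fun y => mul_comm _ _)
  rw [e]

private theorem GW9_const_mul (c : ℂ) (f : ℂ → ℂ) (ξ : ℂ) :
    𝓕 (fun z => c * f z) ξ = c * 𝓕 f ξ := by
  rw [Real.fourier_eq, Real.fourier_eq, ← integral_const_mul]
  refine integral_congr_ae (ae_of_all _ fun z => ?_)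
  simp only [Circle.smul_def, smul_eq_mul]
  ring

private theorem GW9_add (f g : ℂ → ℂ) (hf : Integrable f) (hg : Integrable g) (ξ : ℂ) :
    𝓕 (fun z => f z + g z) ξ = 𝓕 f ξ + 𝓕 g ξ := by
  rw [Real.fourier_eq, Real.fourier_eq, Real.fourier_eq,
    ← integral_add ((Real.fourierIntegral_convergent_iff ξ).2 hf)
      ((Real.fourierIntegral_convergent_iff ξ).2 hg)]
  refine integral_congr_ae (ae_of_all _ fun z => ?_)
  simp only [smul_add]

theorem fourier_gk {t : ℝ} (ht0 : 0 < t) (ξ : ℂ) :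
    𝓕 (fun z => (gk t z : ℂ)) ξ = (Real.exp (-(4 * π ^ 2 * t * ‖ξ‖ ^ 2)) : ℂ) := by
  have hb : 0 < (((4 * t)⁻¹ : ℝ) : ℂ).re := by
    rw [Complex.ofReal_re]
    positivity
  have h := fourier_gaussian_innerProductSpace (V := ℂ) hb ξ
  have hpi : (π : ℂ) ≠ 0 := Complex.ofReal_ne_zero.2 Real.pi_pos.ne'
  have htc : (t : ℂ) ≠ 0 := Complex.ofReal_ne_zero.2 ht0.ne'
  have h1 : (fun z : ℂ => (gk t z : ℂ)) = fun z : ℂ => (((4 * π * t)⁻¹ : ℝ) : ℂ) *
      Complex.exp (-(((4 * t)⁻¹ : ℝ) : ℂ) * (‖z‖ : ℂ) ^ 2) := by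
    ext z
    rw [gk_eq]
    push_cast
    rw [neg_mul]
  rw [h1, GW9_const_mul, h, Complex.finrank_real_complex]
  have h2 : (((2 : ℕ) : ℂ) / 2) = 1 := by norm_num
  rw [h2, Complex.cpow_one]
  push_cast
  rw [← mul_assoc]
  have h3 : (4 * (π : ℂ) * t)⁻¹ * (π / (4 * (t : ℂ))⁻¹) = 1 := by
    field_simp
  rw [h3, one_mul]
  congr 1
  field_simp

theorem fourier_dk {t : ℝ} (ht0 : 0 < t) (ξ : ℂ) :
    𝓕 (dk t) ξ = π * Complex.I * ξ * (Real.exp (-(4 * π ^ 2 * t * ‖ξ‖ ^ 2)) : ℂ) := by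
  have hpi : (π : ℂ) ≠ 0 := Complex.ofReal_ne_zero.2 Real.pi_pos.ne'
  have htc : (t : ℂ) ≠ 0 := Complex.ofReal_ne_zero.2 ht0.ne'
  obtain ⟨f, hfd⟩ : ∃ f : ℂ → ℂ, f = fun z => (gk t z : ℂ) := ⟨_, rfl⟩
  have hfi : Integrable f := by
    rw [hfd]
    exact (gk_int ht0).ofReal
  have hvi : Integrable fun v : ℂ => ‖v‖ * ‖f v‖ := by
    refine ((dk_int ht0).norm.const_mul (4 * t)).congr (ae_of_all _ fun z => ?_)
    have h4 : ‖((4 * t : ℝ) : ℂ)‖ = 4 * t := by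
      rw [Complex.norm_real, Real.norm_of_nonneg (by positivity)]
    simp only [hfd, dk, norm_mul, norm_neg, norm_div, h4]
    field_simp
  have hF : 𝓕 f = fun ξ : ℂ => (Real.exp (-(4 * π ^ 2 * t * ‖ξ‖ ^ 2)) : ℂ) := by
    ext ξ
    rw [hfd]
    exact fourier_gk ht0 ξ
  have hd := Real.hasFDerivAt_fourier hfi hvi ξ
  obtain ⟨G, hG⟩ : ∃ G : ℂ → ℂ →L[ℝ] ℂ, G = VectorFourier.fourierSMulRight (innerSL ℝ) f :=
    ⟨_, rfl⟩
  have hGa : ∀ z v : ℂ, G z v = -(2 * π * Complex.I) * ((inner ℝ z v : ℝ) : ℂ) * f z := by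
    intro z v
    rw [hG, VectorFourier.fourierSMulRight_apply, innerSL_apply_apply ℝ, smul_eq_mul,
      Complex.real_smul]
    ring
  have hGi : Integrable G := by
    rw [hG]
    refine Integrable.mono' (hvi.const_mul (2 * π * ‖innerSL ℝ (E := ℂ)‖))
      hfi.1.fourierSMulRight (ae_of_all _ fun z => ?_)
    refine (VectorFourier.norm_fourierSMulRight_le _ _ _).trans (le_of_eq (by ring))
  rw [← hG, hF] at hd
  have hd2 : HasFDerivAt (fun ξ : ℂ => (Real.exp (-(4 * π ^ 2 * t * ‖ξ‖ ^ 2)) : ℂ))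
      (Complex.ofRealCLM.comp (Real.exp (-(4 * π ^ 2 * t * ‖ξ‖ ^ 2)) •
        (-((4 * π ^ 2 * t) • (2 • innerSL ℝ ξ))))) ξ := by
    have h1 : HasFDerivAt (fun ξ : ℂ => -(4 * π ^ 2 * t * ‖ξ‖ ^ 2))
        (-((4 * π ^ 2 * t) • (2 • innerSL ℝ ξ))) ξ :=
      ((hasStrictFDerivAt_norm_sq ξ).hasFDerivAt.const_mul (4 * π ^ 2 * t)).neg
    exact Complex.ofRealCLM.hasFDerivAt.comp ξ h1.exp
  have hu := hd.unique hd2
  have hv : ∀ v : ℂ, 𝓕 (fun z => G z v) ξ =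
      (Real.exp (-(4 * π ^ 2 * t * ‖ξ‖ ^ 2)) : ℂ) * (-(8 * π ^ 2 * t * ((inner ℝ ξ v : ℝ) : ℂ))) := by
    intro v
    rw [← Real.fourier_continuousLinearMap_apply hGi, hu]
    simp only [ContinuousLinearMap.comp_apply, Complex.ofRealCLM_apply, smul_eq_mul,
      _root_.smul_apply, _root_.neg_apply, innerSL_apply_apply, nsmul_eq_mul]
    push_cast
    ring
  have hdk : dk t = fun z => (8 * π * t * Complex.I)⁻¹ * (G z 1 + Complex.I * G z Complex.I) := by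
    ext z
    rw [hGa, hGa, hfd]
    have h1 : (inner ℝ z 1 : ℝ) = z.re := by
      rw [Complex.inner]; simp
    have h2 : (inner ℝ z Complex.I : ℝ) = z.im := by
      rw [Complex.inner]; simp
    rw [h1, h2]
    simp only [dk]
    have h3 : (z.re : ℂ) + z.im * Complex.I = z := Complex.re_add_im z
    push_cast
    have hI : Complex.I ≠ 0 := Complex.I_ne_zero
    have e : -(2 * π * Complex.I) * (z.re : ℂ) * (gk t z : ℂ) +
        Complex.I * (-(2 * π * Complex.I) * (z.im : ℂ) * (gk t z : ℂ)) =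
        -(2 * π * Complex.I) * (gk t z : ℂ) * z := by
      linear_combination (-(2 * π * Complex.I) * (gk t z : ℂ)) * h3
    rw [e]
    field_simp
    ring
  have hI1 : Integrable fun z => G z 1 := hGi.apply_continuousLinearMap 1
  have hI2 : Integrable fun z => Complex.I * G z Complex.I :=
    (hGi.apply_continuousLinearMap Complex.I).const_mul _
  rw [hdk, GW9_const_mul, GW9_add _ _ hI1 hI2, GW9_const_mul, hv, hv]
  have h1 : (inner ℝ ξ 1 : ℝ) = ξ.re := by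
    rw [Complex.inner]; simp
  have h2 : (inner ℝ ξ Complex.I : ℝ) = ξ.im := by
    rw [Complex.inner]; simp
  rw [h1, h2]
  generalize (Real.exp (-(4 * π ^ 2 * t * ‖ξ‖ ^ 2)) : ℂ) = E
  have h3 : (ξ.re : ℂ) + ξ.im * Complex.I = ξ := Complex.re_add_im ξ
  have hI : Complex.I ≠ 0 := Complex.I_ne_zero
  have h4 : E * (-(8 * π ^ 2 * t * (ξ.re : ℂ))) + Complex.I * (E * (-(8 * π ^ 2 * t * (ξ.im : ℂ)))) =
      -(8 * π ^ 2 * t) * E * ξ := by
    linear_combination (-(8 * π ^ 2 * t) * E) * h3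
  rw [h4]
  have h5 : Complex.I * Complex.I = -1 := Complex.I_mul_I
  rw [inv_mul_eq_div, div_eq_iff (mul_ne_zero (mul_ne_zero (mul_ne_zero (by norm_num) hpi) htc) hI)]
  linear_combination (-(8 * π ^ 2 * t * E * ξ)) * h5

theorem fourier_dd {f : ℂ → ℂ} {M : ℝ} (h : Bf f M) {t : ℝ} (ht0 : 0 < t) (ξ : ℂ) :
    𝓕 (dd t f) ξ = π * Complex.I * ξ * (Real.exp (-(8 * π ^ 2 * t * ‖ξ‖ ^ 2)) : ℂ) * 𝓕 f ξ := by
  have h1 : 𝓕 (hc t f) ξ = (Real.exp (-(4 * π ^ 2 * t * ‖ξ‖ ^ 2)) : ℂ) * 𝓕 f ξ := by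
    rw [← fourier_gk ht0 ξ]
    exact fourier_conv (gk_int ht0).ofReal h.int ξ
  have h2 := fourier_conv (dk_int ht0) (hc_integrable h ht0) ξ
  have h3 : (Real.exp (-(8 * π ^ 2 * t * ‖ξ‖ ^ 2)) : ℂ) =
      (Real.exp (-(4 * π ^ 2 * t * ‖ξ‖ ^ 2)) : ℂ) * (Real.exp (-(4 * π ^ 2 * t * ‖ξ‖ ^ 2)) : ℂ) := by
    rw [← Complex.ofReal_mul, ← Real.exp_add]
    congr 2
    ring
  have h4 : 𝓕 (dd t f) ξ = 𝓕 (dk t) ξ * 𝓕 (hc t f) ξ := h2
  rw [h4, h1, fourier_dk ht0, h3]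
  ring

end Pool.Agent.Lib.MP_f0c028_an.GW
end

section

set_option autoImplicit false

/-! # TASK GW10: inverse Fourier transforms of Gaussians

`UU h z = ∫ e^{2πi<z,ξ>} h ξ` (`UU_eq`, file RWPlanar; `UU h z = 𝓕 h (-z)`; `UU_fderiv`).
`gm_int`: `‖gm k s ξ‖ = ‖ξ‖^k e^{-b‖ξ‖²} ≤ C e^{-b‖ξ‖²/2}`, `integrable_gauss`.
`UU_moment`: induction on `k`. `k = 0`: `fourier_gaussian_innerProductSpace'`-type lemma with `b = 4π²s`, `π/b = 1/(4πs)`, `π²/b = 1/(4s)`.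
Step: `∂_v UU h (z) = UU (2πi <ξ,v> h) z` (`UU_fderiv` for `h = gm k s`), so `∂_1 - i ∂_I` of `UU h` is
`UU (2πi (ξ.re - i ξ.im) h) = 2πi UU (conj ξ h) = 2πi UU (gm (k+1) s)`. By the induction hypothesis `UU (gm k s) z = (i conj z/(4πs))^k gk s z`; `∂_1 - i ∂_I` kills
the function `conj z` (`1 - i (-i) = 0`: `∂_1 conj z = 1`, `∂_I conj z = -i`, so `1 - i·(-i) = 1 + i² = 0`) and
`(∂_1 - i ∂_I) gk s z = -(2/(4s)) (z.re - i z.im) gk s z = -(conj z/(2s)) gk s z`. So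
`UU (gm (k+1) s) z = (2πi)⁻¹ (-(conj z/(2s))) (i conj z/(4πs))^k gk s z`, and `(2πi)⁻¹ (-(1/(2s))) = i/(4πs)`.
`mk_one`: `conj ξ/ξ · ‖ξ‖² = conj ξ²`, so `sy 1 t = 4π²t · gm 2 t`, `UU_moment`: norm `4π²t ‖z‖²/(16π²t²) gk t z`. -/

open Real

namespace Pool.Agent.Lib.MP_f0c028_an.GW

open MeasureTheory Set Filter Topology FourierTransform
open scoped ENNReal InnerProductSpace ComplexConjugate

/-- The symbol: the Fourier multiplier of `B^m` times `4π²t|ξ|² exp(-4π²t|ξ|²)`. -/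
noncomputable def sy (m : ℕ) (t : ℝ) (ξ : ℂ) : ℂ :=
  (starRingEnd ℂ ξ / ξ) ^ m *
    ((4 * π ^ 2 * t * ‖ξ‖ ^ 2 * Real.exp (-(4 * π ^ 2 * t * ‖ξ‖ ^ 2)) : ℝ) : ℂ)

/-- The kernel. -/
noncomputable def mk (m : ℕ) (t : ℝ) (z : ℂ) : ℂ := UU (sy m t) z

/-- The Gaussian on the Fourier side times a power. -/
noncomputable def gm (k : ℕ) (s : ℝ) (ξ : ℂ) : ℂ :=
  starRingEnd ℂ ξ ^ k * (Real.exp (-(4 * π ^ 2 * s * ‖ξ‖ ^ 2)) : ℂ)

private theorem GW10_bound (k : ℕ) {b : ℝ} (hb : 0 < b) {x : ℝ} (hx : 0 ≤ x) :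
    x ^ k * Real.exp (-(b * x ^ 2)) ≤
      (1 + (k.factorial : ℝ) * (2 / b) ^ k) * Real.exp (-(b / 2 * x ^ 2)) := by
  set u := b / 2 * x ^ 2 with hu
  have hu0 : 0 ≤ u := by positivity
  have h1 := Real.pow_div_factorial_le_exp u hu0 k
  have hk : (0 : ℝ) < (k.factorial : ℝ) := by exact_mod_cast Nat.factorial_pos k
  have h2 : u ^ k ≤ (k.factorial : ℝ) * Real.exp u := by
    rw [div_le_iff₀ hk] at h1
    linarith
  have h3 : x ^ (2 * k) = (2 / b) ^ k * u ^ k := by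
    rw [← mul_pow, hu, pow_mul]
    congr 1
    field_simp
  have h4 : x ^ k ≤ 1 + x ^ (2 * k) := by
    rw [two_mul, pow_add]
    nlinarith [sq_nonneg (x ^ k - 1), pow_nonneg hx k]
  have h5 : Real.exp (-(b * x ^ 2)) = Real.exp (-u) * Real.exp (-u) := by
    rw [← Real.exp_add, hu]
    congr 1
    ring
  have h6 : Real.exp (-u) ≤ 1 := by
    rw [Real.exp_le_one_iff]
    linarith
  have h7 : Real.exp u * Real.exp (-u) = 1 := by
    rw [← Real.exp_add]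
    simp
  have h8 : x ^ k * Real.exp (-u) ≤ 1 + (k.factorial : ℝ) * (2 / b) ^ k := by
    have e0 := Real.exp_pos (-u)
    calc x ^ k * Real.exp (-u) ≤ (1 + x ^ (2 * k)) * Real.exp (-u) := by gcongr
      _ = Real.exp (-u) + (2 / b) ^ k * (u ^ k * Real.exp (-u)) := by rw [h3]; ring
      _ ≤ 1 + (2 / b) ^ k * ((k.factorial : ℝ) * Real.exp u * Real.exp (-u)) := by
          gcongr
      _ = 1 + (k.factorial : ℝ) * (2 / b) ^ k := by
          rw [mul_assoc ((k.factorial : ℝ)), h7]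
          ring
  rw [h5, ← mul_assoc]
  have e0 := Real.exp_pos (-u)
  exact mul_le_mul_of_nonneg_right h8 e0.le

private theorem GW10_cont (k : ℕ) (s : ℝ) : Continuous (gm k s) := by
  unfold gm
  have h1 : Continuous fun ξ : ℂ => starRingEnd ℂ ξ := Complex.continuous_conj
  exact (h1.pow k).mul (Complex.continuous_ofReal.comp (by fun_prop))

private theorem GW10_norm (k : ℕ) (s : ℝ) (ξ : ℂ) :
    ‖gm k s ξ‖ = ‖ξ‖ ^ k * Real.exp (-(4 * π ^ 2 * s * ‖ξ‖ ^ 2)) := by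
  unfold gm
  rw [norm_mul, norm_pow, RCLike.norm_conj, Complex.norm_real, Real.norm_eq_abs, Real.abs_exp]

theorem gm_int (k : ℕ) {s : ℝ} (hs : 0 < s) : Integrable (gm k s) := by
  have hb : 0 < 4 * π ^ 2 * s := by positivity
  have h1 := (integrable_gauss (b := 4 * π ^ 2 * s / 2) (by positivity)).const_mul
    (1 + (k.factorial : ℝ) * (2 / (4 * π ^ 2 * s)) ^ k)
  refine Integrable.mono' h1 (GW10_cont k s).aestronglyMeasurable (ae_of_all _ fun ξ => ?_)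
  rw [GW10_norm]
  exact GW10_bound k hb (norm_nonneg ξ)

private theorem GW10_int1 (k : ℕ) {s : ℝ} (hs : 0 < s) :
    Integrable (fun ξ => ‖ξ‖ * ‖gm k s ξ‖) := by
  refine (gm_int (k + 1) hs).norm.congr (ae_of_all _ fun ξ => ?_)
  simp only
  rw [GW10_norm, GW10_norm]
  ring

private theorem GW10_line (s : ℝ) (z v : ℂ) :
    HasDerivAt (fun t : ℝ => gk s (z + t * v)) (-((z.re * v.re + z.im * v.im) / (2 * s)) * gk s z) 0 := by
  have e : ∀ t : ℝ, gk s (z + t * v) = (4 * π * s)⁻¹ *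
      Real.exp (-((‖z‖ ^ 2 + 2 * t * (z.re * v.re + z.im * v.im) + t ^ 2 * ‖v‖ ^ 2) / (4 * s))) := by
    intro t
    unfold gk
    congr 4
    rw [← Complex.normSq_eq_norm_sq, ← Complex.normSq_eq_norm_sq, ← Complex.normSq_eq_norm_sq,
      Complex.normSq_apply, Complex.normSq_apply, Complex.normSq_apply]
    simp only [Complex.add_re, Complex.add_im, Complex.re_ofReal_mul, Complex.im_ofReal_mul]
    ring
  have e2 : (fun t : ℝ => gk s (z + t * v)) = fun t : ℝ => (4 * π * s)⁻¹ *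
      Real.exp (-((‖z‖ ^ 2 + 2 * t * (z.re * v.re + z.im * v.im) + t ^ 2 * ‖v‖ ^ 2) / (4 * s))) :=
    funext e
  rw [e2]
  have h1 : HasDerivAt (fun t : ℝ => -((‖z‖ ^ 2 + 2 * t * (z.re * v.re + z.im * v.im) +
      t ^ 2 * ‖v‖ ^ 2) / (4 * s)))
      (-((2 * 1 * (z.re * v.re + z.im * v.im) + (2 : ℕ) * (0 : ℝ) ^ (2 - 1) * 1 * ‖v‖ ^ 2) / (4 * s))) 0 := by
    have a1 : HasDerivAt (fun t : ℝ => 2 * t * (z.re * v.re + z.im * v.im))
        (2 * 1 * (z.re * v.re + z.im * v.im)) 0 :=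
      ((hasDerivAt_id (0 : ℝ)).const_mul 2).mul_const _
    have a2 : HasDerivAt (fun t : ℝ => t ^ 2 * ‖v‖ ^ 2)
        ((2 : ℕ) * (0 : ℝ) ^ (2 - 1) * 1 * ‖v‖ ^ 2) 0 :=
      ((hasDerivAt_id (0 : ℝ)).pow 2).mul_const _
    exact (((a1.const_add (‖z‖ ^ 2)).add a2).div_const (4 * s)).neg
  have h2 := (h1.exp).const_mul ((4 * π * s)⁻¹)
  refine h2.congr_deriv ?_
  unfold gk
  have e3 : (‖z‖ ^ 2 + 2 * 0 * (z.re * v.re + z.im * v.im) + (0 : ℝ) ^ 2 * ‖v‖ ^ 2) / (4 * s) =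
      ‖z‖ ^ 2 / (4 * s) := by
    congr 1
    ring
  rw [e3]
  have e4 : -((2 * 1 * (z.re * v.re + z.im * v.im) + (2 : ℕ) * (0 : ℝ) ^ (2 - 1) * 1 * ‖v‖ ^ 2) /
      (4 * s)) = -((z.re * v.re + z.im * v.im) / (2 * s)) := by
    congr 1
    rw [show (4 : ℝ) * s = 2 * (2 * s) by ring]
    by_cases hs : s = 0
    · subst hs
      simp
    · field_simp
      push_cast
      ring
  rw [e4]
  ring

private theorem GW10_deriv (k : ℕ) (s : ℝ) (c z v : ℂ) :
    HasDerivAt (fun t : ℝ => (c * starRingEnd ℂ (z + t * v)) ^ k * (gk s (z + t * v) : ℂ))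
      (((k : ℂ) * (c * starRingEnd ℂ z) ^ (k - 1) * (c * starRingEnd ℂ v)) * (gk s z : ℂ) +
        (c * starRingEnd ℂ z) ^ k *
          ((-((z.re * v.re + z.im * v.im) / (2 * s)) * gk s z : ℝ) : ℂ)) 0 := by
  have h1 : HasDerivAt (fun t : ℝ => c * starRingEnd ℂ (z + t * v)) (c * starRingEnd ℂ v) 0 := by
    have e : (fun t : ℝ => c * starRingEnd ℂ (z + t * v)) =
        fun t : ℝ => c * (starRingEnd ℂ z + (t : ℂ) * starRingEnd ℂ v) := by
      funext t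
      rw [map_add, map_mul, Complex.conj_ofReal]
    rw [e]
    have a1 : HasDerivAt (fun t : ℝ => (t : ℂ)) 1 0 := Complex.ofRealCLM.hasDerivAt
    have a2 := ((a1.mul_const (starRingEnd ℂ v)).const_add (starRingEnd ℂ z)).const_mul c
    rw [one_mul] at a2
    exact a2
  have h2 := (GW10_line s z v).ofReal_comp
  have h3 := (h1.pow k).mul h2
  refine h3.congr_deriv ?_
  simp only [Complex.ofReal_zero, zero_mul, add_zero, Pi.pow_apply]

theorem UU_moment (k : ℕ) {s : ℝ} (hs : 0 < s) (z : ℂ) :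
    UU (gm k s) z = (Complex.I * starRingEnd ℂ z / (4 * π * s : ℝ)) ^ k * (gk s z : ℂ) := by
  have hpi := Real.pi_pos
  induction k generalizing z with
  | zero =>
    rw [pow_zero, one_mul]
    unfold UU
    have hb : 0 < ((4 * π ^ 2 * s : ℝ) : ℂ).re := by
      rw [Complex.ofReal_re]
      positivity
    have h := fourier_gaussian_innerProductSpace (V := ℂ) hb (-z)
    have e : gm 0 s = fun v : ℂ => Complex.exp (-((4 * π ^ 2 * s : ℝ) : ℂ) * (‖v‖ : ℂ) ^ 2) := by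
      funext ξ
      unfold gm
      rw [pow_zero, one_mul, Complex.ofReal_exp]
      congr 1
      push_cast
      ring
    rw [e, h, Complex.finrank_real_complex]
    have e1 : ((2 : ℕ) / 2 : ℂ) = 1 := by
      push_cast
      norm_num
    rw [e1, Complex.cpow_one]
    have e2 : ((gk s z : ℝ) : ℂ) = (4 * (π : ℂ) * s)⁻¹ *
        Complex.exp (-((‖z‖ : ℂ) ^ 2 / (4 * s))) := by
      unfold gk
      push_cast
      rfl
    rw [e2, norm_neg]
    have hpc : (π : ℂ) ≠ 0 := by exact_mod_cast hpi.ne'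
    have hsc : (s : ℂ) ≠ 0 := by exact_mod_cast hs.ne'
    congr 1
    · push_cast
      field_simp
    · congr 1
      push_cast
      field_simp
  | succ k ih =>
    set c : ℂ := Complex.I / (4 * π * s : ℝ) with hc
    have hc' : ∀ w : ℂ, Complex.I * starRingEnd ℂ w / (4 * π * s : ℝ) = c * starRingEnd ℂ w := by
      intro w
      rw [hc]
      ring
    have hUU : UU (gm k s) = fun w => (c * starRingEnd ℂ w) ^ k * (gk s w : ℂ) := by
      funext w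
      rw [ih w, hc']
    have hi := gm_int k hs
    have hi1 := GW10_int1 k hs
    have hd : ∀ v : ℂ, fderiv ℝ (UU (gm k s)) z v =
        (((k : ℂ) * (c * starRingEnd ℂ z) ^ (k - 1) * (c * starRingEnd ℂ v)) * (gk s z : ℂ) +
        (c * starRingEnd ℂ z) ^ k *
          ((-((z.re * v.re + z.im * v.im) / (2 * s)) * gk s z : ℝ) : ℂ)) := by
      intro v
      have h1 : HasFDerivAt (UU (gm k s)) (fderiv ℝ (UU (gm k s)) z) z :=
        ((UU_contDiff hi hi1).differentiable (by norm_num) z).hasFDerivAt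
      have h2 : HasDerivAt (fun t : ℝ => z + (t : ℂ) * v) v 0 := by
        have a1 : HasDerivAt (fun t : ℝ => (t : ℂ)) 1 0 := Complex.ofRealCLM.hasDerivAt
        have a2 := (a1.mul_const v).const_add z
        rw [one_mul] at a2
        exact a2
      have h1' : HasFDerivAt (UU (gm k s)) (fderiv ℝ (UU (gm k s)) z)
          ((fun t : ℝ => z + (t : ℂ) * v) 0) := by
        simpa using h1
      have h3 := h1'.comp_hasDerivAt (0 : ℝ) h2
      have h4 := GW10_deriv k s c z v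
      have h5 : (UU (gm k s)) ∘ (fun t : ℝ => z + (t : ℂ) * v) =
          (fun t : ℝ => (c * starRingEnd ℂ (z + t * v)) ^ k * (gk s (z + t * v) : ℂ)) := by
        rw [hUU]
        rfl
      rw [h5] at h3
      exact h3.unique h4
    have hI : ∀ v : ℂ, Integrable (fun ξ : ℂ => Complex.exp (2 * π * Complex.I *
        ((z.re * ξ.re + z.im * ξ.im : ℝ) : ℂ)) * (2 * π * Complex.I * (⟪ξ, v⟫_ℝ : ℂ) * gm k s ξ)) := by
      intro v
      refine Integrable.mono' (hi1.const_mul (2 * π * ‖v‖)) ?_ ?_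
      · have h2 : Continuous (fun ξ : ℂ => Complex.exp (2 * π * Complex.I *
          ((z.re * ξ.re + z.im * ξ.im : ℝ) : ℂ)) * (2 * π * Complex.I * (⟪ξ, v⟫_ℝ : ℂ) * gm k s ξ)) := by
          have h0 : Continuous (fun ξ : ℂ => (⟪ξ, v⟫_ℝ : ℝ)) := by fun_prop
          have h1 := GW10_cont k s
          fun_prop
        exact h2.aestronglyMeasurable
      · filter_upwards with ξ
        have h3 : ‖Complex.exp (2 * π * Complex.I * ((z.re * ξ.re + z.im * ξ.im : ℝ) : ℂ))‖ = 1 := by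
          rw [Complex.norm_exp]
          simp
        rw [norm_mul, h3, one_mul, norm_mul, norm_mul, Complex.norm_real]
        have h4 : ‖(2 * π * Complex.I : ℂ)‖ = 2 * π := by
          simp [abs_of_pos Real.pi_pos]
        rw [h4]
        have h5 : ‖(⟪ξ, v⟫_ℝ : ℝ)‖ ≤ ‖ξ‖ * ‖v‖ := norm_inner_le_norm ξ v
        have h6 := norm_nonneg (gm k s ξ)
        calc 2 * π * ‖(⟪ξ, v⟫_ℝ : ℝ)‖ * ‖gm k s ξ‖ ≤ 2 * π * (‖ξ‖ * ‖v‖) * ‖gm k s ξ‖ := by
              gcongr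
          _ = 2 * π * ‖v‖ * (‖ξ‖ * ‖gm k s ξ‖) := by ring
    have hinner2 : ∀ ξ : ℂ, ((⟪ξ, (1 : ℂ)⟫_ℝ : ℝ) : ℂ) - Complex.I * ((⟪ξ, Complex.I⟫_ℝ : ℝ) : ℂ) =
        starRingEnd ℂ ξ := by
      intro ξ
      rw [inner_formula, inner_formula]
      apply Complex.ext <;> simp
    have key : fderiv ℝ (UU (gm k s)) z 1 - Complex.I * fderiv ℝ (UU (gm k s)) z Complex.I =
        2 * π * Complex.I * UU (gm (k + 1) s) z := by
      rw [UU_fderiv hi hi1, UU_fderiv hi hi1, UU_eq, UU_eq, UU_eq, ← integral_const_mul,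
        ← integral_const_mul, ← integral_sub]
      · apply integral_congr_ae
        filter_upwards with ξ
        have h3 : gm (k + 1) s ξ = starRingEnd ℂ ξ * gm k s ξ := by
          unfold gm
          rw [pow_succ]
          ring
        rw [h3]
        linear_combination (Complex.exp (2 * π * Complex.I *
          ((z.re * ξ.re + z.im * ξ.im : ℝ) : ℂ)) * (2 * π * Complex.I) * gm k s ξ) * hinner2 ξ
      · exact hI 1
      · exact (hI Complex.I).const_mul _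
    rw [hd, hd] at key
    have hpc : (π : ℂ) ≠ 0 := by exact_mod_cast hpi.ne'
    have hsc : (s : ℂ) ≠ 0 := by exact_mod_cast hs.ne'
    have hz : starRingEnd ℂ z = (z.re : ℂ) - Complex.I * (z.im : ℂ) := by
      apply Complex.ext <;> simp
    have key2 : (2 * π * Complex.I) * UU (gm (k + 1) s) z =
        (2 * π * Complex.I) * ((c * starRingEnd ℂ z) ^ (k + 1) * (gk s z : ℂ)) := by
      rw [← key]
      have e1 : (2 * π * Complex.I) * (c * starRingEnd ℂ z) = -(starRingEnd ℂ z / (2 * s)) := by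
        rw [hc]
        push_cast
        field_simp
        have := Complex.I_sq
        linear_combination (4 * starRingEnd ℂ z) * this
      have e2 : (2 * π * Complex.I) * ((c * starRingEnd ℂ z) ^ (k + 1) * (gk s z : ℂ)) =
          ((2 * π * Complex.I) * (c * starRingEnd ℂ z)) * ((c * starRingEnd ℂ z) ^ k * (gk s z : ℂ)) := by
        rw [pow_succ]
        ring
      rw [e2, e1]
      have e3 : starRingEnd ℂ (1 : ℂ) = 1 := map_one _
      have e4 : starRingEnd ℂ Complex.I = -Complex.I := Complex.conj_I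
      rw [e3, e4]
      simp only [Complex.one_re, Complex.one_im, Complex.I_re, Complex.I_im]
      push_cast
      have hI2 := Complex.I_sq
      have e5 : ((z.re : ℂ) * 1 + (z.im : ℂ) * 0) - Complex.I * ((z.re : ℂ) * 0 + (z.im : ℂ) * 1) =
          starRingEnd ℂ z := by
        rw [hz]
        ring
      linear_combination ((k : ℂ) * (c * starRingEnd ℂ z) ^ (k - 1) * c * (gk s z : ℂ)) * hI2 -
        ((c * starRingEnd ℂ z) ^ k * (gk s z : ℂ) / (2 * s)) * e5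
    have hne : (2 * π * Complex.I : ℂ) ≠ 0 := by
      apply mul_ne_zero
      · exact mul_ne_zero two_ne_zero hpc
      · exact Complex.I_ne_zero
    rw [hc']
    exact mul_left_cancel₀ hne key2

/-- `m = 1`: the kernel is explicit. -/
theorem mk_one {t : ℝ} (ht : 0 < t) (z : ℂ) : ‖mk 1 t z‖ = ‖z‖ ^ 2 / (4 * t) * gk t z := by
  have hpi := Real.pi_pos
  have h1 : sy 1 t = fun ξ => ((4 * π ^ 2 * t : ℝ) : ℂ) * gm 2 t ξ := by
    funext ξ
    unfold sy gm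
    rw [pow_one]
    by_cases hξ : ξ = 0
    · subst hξ
      simp
    · have h2 : (‖ξ‖ : ℂ) ^ 2 = ξ * starRingEnd ℂ ξ := by
        rw [Complex.mul_conj, Complex.normSq_eq_norm_sq]
        push_cast
        rfl
      push_cast
      rw [h2]
      field_simp
  have h2 : mk 1 t z = ((4 * π ^ 2 * t : ℝ) : ℂ) * UU (gm 2 t) z := by
    unfold mk
    rw [h1, UU_eq, UU_eq, ← integral_const_mul]
    congr 1
    funext ξ
    ring
  rw [h2, UU_moment 2 ht z, norm_mul, norm_mul, norm_pow, norm_div, norm_mul, Complex.norm_I,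
    RCLike.norm_conj, Complex.norm_real, Complex.norm_real, Complex.norm_real, one_mul,
    Real.norm_of_nonneg (by positivity), Real.norm_of_nonneg (by positivity),
    Real.norm_of_nonneg (gk_pos ht z).le]
  field_simp

end Pool.Agent.Lib.MP_f0c028_an.GW
end

section

set_option autoImplicit false

/-! # TASK GW12: Fourier transforms and bilinear forms

`UU_conv`: `UU_eq`; Fubini in `∫ ξ, e^{2πi<x,ξ>} σ ξ ∫ y, e^{-2πi<y,ξ>} a y` (absolutely convergent: `σ`, `a` integrable).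
`UU_pair`: `fourier_flip` (PW3) for `h` and `x ↦ conj (b (-x))`: with `UU h x = 𝓕 h (-x)`,
`∫ x, 𝓕 h (-x) conj (b x) = ∫ x, 𝓕 h x conj (b (-x)) = ∫ ξ, h ξ 𝓕 (conj (b (-·))) ξ`, and `𝓕 (conj (b (-·))) ξ = conj (𝓕 b ξ)` (`Real.fourier_eq'`).
`pair_symbol`: `UU_pair` for `h ξ = σ ξ * 𝓕 a ξ` (integrable: `𝓕 a` is bounded and continuous), then `UU_conv`.
`rep_const`: `∫_0^∞ t e^{-ct} dt = 1/c²` with `c = 20π²‖ξ‖²` (`Real.integral_rpow_mul_exp_neg_mul_Ioi` with exponent `1`, or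
`Real.GammaIntegral`): `4π⁴‖ξ‖⁴/(400π⁴‖ξ‖⁴) = 1/100`.
`bf_schwartz`: Schwartz functions are bounded (`SchwartzMap.decay` with `k = n = 0`), continuous, integrable. -/

open Real

namespace Pool.Agent.Lib.MP_f0c028_an.GW

open MeasureTheory Set Filter Topology FourierTransform
open scoped ENNReal InnerProductSpace ComplexConjugate

/-- the Fourier transform as `UU` -/
private theorem GW12_fourier_eq (u : ℂ → ℂ) (y : ℂ) : 𝓕 u y = UU u (-y) := by
  unfold UU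
  rw [neg_neg]

private theorem GW12_conj (b : ℂ → ℂ) (ξ : ℂ) :
    𝓕 (fun x : ℂ => starRingEnd ℂ (b (-x))) ξ = starRingEnd ℂ (𝓕 b ξ) := by
  rw [GW12_fourier_eq, GW12_fourier_eq, UU_eq, UU_eq, ← integral_conj,
    ← integral_neg_eq_self (fun x : ℂ => Complex.exp (2 * π * Complex.I *
      (((-ξ).re * x.re + (-ξ).im * x.im : ℝ) : ℂ)) * starRingEnd ℂ (b (-x)))]
  refine integral_congr_ae ?_
  filter_upwards with x
  rw [neg_neg, map_mul, ← Complex.exp_conj]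
  congr 2
  simp only [map_mul, Complex.conj_I, Complex.conj_ofReal, map_ofNat, Complex.neg_re,
    Complex.neg_im]
  push_cast
  ring

private theorem GW12_cont {a : ℂ → ℂ} (ha : Integrable a) : Continuous (𝓕 a) :=
  VectorFourier.fourierIntegral_continuous Real.continuous_fourierChar
    (by exact continuous_inner) ha

private theorem GW12_norm {a : ℂ → ℂ} (ξ : ℂ) : ‖𝓕 a ξ‖ ≤ ∫ y, ‖a y‖ := by
  rw [GW12_fourier_eq, UU_eq]
  refine (norm_integral_le_integral_norm _).trans (le_of_eq ?_)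
  congr 1
  funext y
  rw [norm_mul, Complex.norm_exp]
  simp

private theorem GW12_int {σ a : ℂ → ℂ} (hσ : Integrable σ) (ha : Integrable a) :
    Integrable (fun ξ => σ ξ * 𝓕 a ξ) :=
  hσ.mul_bdd (c := ∫ y, ‖a y‖) (GW12_cont ha).aestronglyMeasurable
    (Eventually.of_forall fun ξ => GW12_norm ξ)

theorem UU_conv {σ a : ℂ → ℂ} (hσ : Integrable σ) (ha : Integrable a) (x : ℂ) :
    UU (fun ξ => σ ξ * 𝓕 a ξ) x = ∫ y, UU σ (x - y) * a y := by
  set u : ℂ → ℂ := fun ξ =>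
    Complex.exp (2 * π * Complex.I * ((x.re * ξ.re + x.im * ξ.im : ℝ) : ℂ)) * σ ξ with hu
  have hui : Integrable u := by
    refine hσ.bdd_mul (c := 1) ?_ (Eventually.of_forall fun ξ => ?_)
    · exact (by fun_prop : Continuous fun ξ : ℂ =>
        Complex.exp (2 * π * Complex.I * ((x.re * ξ.re + x.im * ξ.im : ℝ) : ℂ))).aestronglyMeasurable
    · rw [Complex.norm_exp]
      simp
  have h1 : ∀ y, 𝓕 u y = UU σ (x - y) := by
    intro y
    rw [GW12_fourier_eq, UU_eq, UU_eq]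
    refine integral_congr_ae ?_
    filter_upwards with ξ
    simp only [hu]
    rw [← mul_assoc, ← Complex.exp_add]
    congr 2
    simp only [Complex.neg_re, Complex.neg_im, Complex.sub_re, Complex.sub_im]
    push_cast
    ring
  have h2 := fourier_flip hui ha
  simp_rw [h1] at h2
  rw [h2, UU_eq]
  refine integral_congr_ae ?_
  filter_upwards with ξ
  simp only [hu]
  ring

theorem UU_pair {h b : ℂ → ℂ} (hh : Integrable h) (hb : Integrable b) :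
    ∫ x, UU h x * starRingEnd ℂ (b x) = ∫ ξ, h ξ * starRingEnd ℂ (𝓕 b ξ) := by
  have h1 : ∫ x, UU h x * starRingEnd ℂ (b x) =
      ∫ x, 𝓕 h x * (fun x : ℂ => starRingEnd ℂ (b (-x))) x := by
    rw [← integral_neg_eq_self (fun x => 𝓕 h x * (fun x : ℂ => starRingEnd ℂ (b (-x))) x)]
    refine integral_congr_ae ?_
    filter_upwards with x
    simp [UU]
  have h2 : Integrable (fun x : ℂ => starRingEnd ℂ (b (-x))) := by
    have h3 : Integrable (fun x : ℂ => b (-x)) := hb.comp_neg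
    exact (Complex.conjLIE.toContinuousLinearEquiv : ℂ →L[ℝ] ℂ).integrable_comp h3
  rw [h1, fourier_flip hh h2]
  refine integral_congr_ae ?_
  filter_upwards with ξ
  rw [GW12_conj]

theorem pair_symbol {σ a b : ℂ → ℂ} (hσ : Integrable σ) (ha : Integrable a) (hb : Integrable b) :
    ∫ ξ, σ ξ * 𝓕 a ξ * starRingEnd ℂ (𝓕 b ξ) =
      ∫ x, (∫ y, UU σ (x - y) * a y) * starRingEnd ℂ (b x) := by
  have h1 := UU_pair (GW12_int hσ ha) hb
  rw [← h1]
  refine integral_congr_ae ?_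
  filter_upwards with x
  rw [UU_conv hσ ha]

theorem rep_const {ξ : ℂ} (hξ : ξ ≠ 0) :
    IntegrableOn (fun t : ℝ => 4 * π ^ 4 * ‖ξ‖ ^ 4 * (t * Real.exp (-(20 * π ^ 2 * ‖ξ‖ ^ 2 * t))))
      (Ioi 0) ∧
    ∫ t in Ioi (0 : ℝ), 4 * π ^ 4 * ‖ξ‖ ^ 4 * (t * Real.exp (-(20 * π ^ 2 * ‖ξ‖ ^ 2 * t))) =
      1 / 100 := by
  have hn : 0 < ‖ξ‖ := norm_pos_iff.mpr hξ
  have hc : 0 < 20 * π ^ 2 * ‖ξ‖ ^ 2 := by positivity
  constructor
  · have h1 := integrableOn_rpow_mul_exp_neg_mul_rpow (p := 1) (s := 1) (by norm_num) one_pos hc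
    refine Integrable.const_mul ?_ _
    refine h1.congr_fun (fun t _ => ?_) measurableSet_Ioi
    simp only [rpow_one]
    rw [neg_mul]
  · rw [integral_const_mul]
    have h1 := integral_rpow_mul_exp_neg_mul_Ioi (a := 2) two_pos hc
    have h2 : ∫ t in Ioi (0 : ℝ), t * Real.exp (-(20 * π ^ 2 * ‖ξ‖ ^ 2 * t)) =
        ∫ t in Ioi (0 : ℝ), t ^ ((2 : ℝ) - 1) * Real.exp (-(20 * π ^ 2 * ‖ξ‖ ^ 2 * t)) := by
      refine setIntegral_congr_fun measurableSet_Ioi fun t _ => ?_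
      norm_num
    rw [h2, h1, Real.Gamma_two, mul_one]
    have h3 : (1 / (20 * π ^ 2 * ‖ξ‖ ^ 2)) ^ (2 : ℝ) = (1 / (20 * π ^ 2 * ‖ξ‖ ^ 2)) ^ 2 :=
      rpow_ofNat _ 2
    rw [h3]
    have hp : π ≠ 0 := Real.pi_ne_zero
    field_simp
    ring

theorem bf_schwartz (F : SchwartzMap ℂ ℂ) : ∃ M, Bf F M := by
  obtain ⟨C, -, hC⟩ := F.decay 0 0
  refine ⟨C, F.continuous.measurable, fun z => ?_, F.integrable⟩
  simpa using hC z

end Pool.Agent.Lib.MP_f0c028_an.GW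
end

section

set_option autoImplicit false

/-! # TASK GW5b: the derivative is controlled by the gain

With `a = Aa w K f t x`, `s_q = Ss w K t y`, `s_p = Ss w K (2t) x`, `v_p = vv w (2t) x`, `v_q = vv w t y`:
`dd t f x = ∫ dk t (x-y) (f_q - a s_q) + a ∫ dk t (x-y) (s_q - s_p)` (`integral_dk`, translated). By `cs_real` and `dk_norm_sq` (`‖dk‖²/gk ≤ t⁻¹ gk (2t)`)
`|first|² ≤ (∫ ‖dk‖²/gk · s_q) (∫ gk |f_q - a s_q|²/s_q) ≤ (t⁻¹ ∫ gk (2t) (x-y) 2 v_q) Ee = 2 t⁻¹ vv (3t) x · Ee` (`ht_semi`, `Ss_bounds`),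
`|second|² ≤ |a|² (∫ ‖dk‖²/gk (v_p + v_q)) (∫ gk (s_q - s_p)²/(v_p + v_q)) ≤ t⁻¹ (vv (2t) x + vv (3t) x) · 80 K · Ee
≤ 200 K t⁻¹ vv (3t) x Ee` (`ht_two_le`; `20 (4K) = 80 K` in `Gi`). Here each of the two parts of `Gi` is at most `Gi`.
Sum: `|dd|² ≤ 2 |first|² + 2 |second|² ≤ 2 (2 + 200 K) t⁻¹ vv (3t) x Ee ≤ 404 K t⁻¹ vv (3t) x Ee` (`K ≥ 1`: `one_le_HA`).
(In `cs_real` use `g = dk`, `h = f_q - a s_q`, `r = s_q / gk t (x - y)` etc. All functions are bounded or bounded times `gk`, so integrable: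
`gk_mul_int`; measurability from `ht_meas`, `hc_meas`, `Ss_meas`, `dk_meas` composed with `y ↦ (t, y)`. Bounds: `n⁻¹ ≤ vv, ht ≤ n`.) -/

open Real

namespace Pool.Agent.Lib.MP_f0c028_an.GW

open MeasureTheory Set Filter Topology
open scoped ENNReal InnerProductSpace

/-- an auxiliary form of Cauchy-Schwarz with the kernel -/
private theorem dk_cs {t : ℝ} (ht0 : 0 < t) (x : ℂ) {H : ℂ → ℂ} {r : ℂ → ℝ} (hH : Measurable H)
    (hr : Measurable r) {MH m0 M1 : ℝ} (hHb : ∀ y, ‖H y‖ ≤ MH) (hm0 : 0 < m0) (hr0 : ∀ y, m0 ≤ r y)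
    (hr1 : ∀ y, r y ≤ M1) :
    ‖∫ y, dk t (x - y) * H y‖ ^ 2 ≤
      (t⁻¹ * ∫ y, gk (2 * t) (x - y) * r y) * ∫ y, gk t (x - y) * (‖H y‖ ^ 2 / r y) := by
  have hrpos : ∀ y, 0 < r y := fun y => hm0.trans_le (hr0 y)
  have hgpos : ∀ y, 0 < gk t (x - y) := fun y => gk_pos ht0 _
  have hgm : Measurable fun y => gk t (x - y) := by
    have : Continuous fun y => gk t (x - y) := (gk_cont t).comp (continuous_const.sub continuous_id)
    exact this.measurable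
  have hdm : Measurable fun y => dk t (x - y) := by
    have h1 : Measurable fun y : ℂ => ((t, x - y) : ℝ × ℂ) := by fun_prop
    exact dk_meas.comp h1
  have hi2 : Integrable fun y => gk (2 * t) (x - y) * r y := by
    refine gk_mul_int (by positivity) hr (M := M1) (fun z => ?_) x
    rw [abs_of_pos (hrpos z)]
    exact hr1 z
  have hi1 : Integrable fun y => gk t (x - y) * (‖H y‖ ^ 2 / r y) := by
    refine gk_mul_int (u := fun y => ‖H y‖ ^ 2 / r y) ht0 ((hH.norm.pow_const 2).div hr)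
      (M := MH ^ 2 / m0) (fun z => ?_) x
    rw [abs_of_nonneg (div_nonneg (sq_nonneg _) (hrpos z).le)]
    exact div_le_div₀ (sq_nonneg _) (pow_le_pow_left₀ (norm_nonneg _) (hHb z) 2) hm0 (hr0 z)
  have hle : ∀ y, ‖dk t (x - y)‖ ^ 2 * (r y / gk t (x - y)) ≤
      t⁻¹ * (gk (2 * t) (x - y) * r y) := by
    intro y
    have h1 := dk_norm_sq ht0 (x - y)
    have h2 : 0 < gk t (x - y) := hgpos y
    rw [mul_div_assoc', div_le_iff₀ h2]
    calc ‖dk t (x - y)‖ ^ 2 * r y ≤ (t⁻¹ * gk t (x - y) * gk (2 * t) (x - y)) * r y :=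
          mul_le_mul_of_nonneg_right h1 (hrpos y).le
      _ = _ := by ring
  have hig : Integrable fun y => ‖dk t (x - y)‖ ^ 2 * (r y / gk t (x - y)) := by
    refine (hi2.const_mul t⁻¹).mono'
      ((hdm.norm.pow_const 2).mul (hr.div hgm)).aestronglyMeasurable (ae_of_all _ fun y => ?_)
    rw [Real.norm_of_nonneg
      (mul_nonneg (sq_nonneg _) (div_nonneg (hrpos y).le (hgpos y).le))]
    exact hle y
  have hih : Integrable fun y => ‖H y‖ ^ 2 / (r y / gk t (x - y)) := by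
    refine hi1.congr (ae_of_all _ fun y => ?_)
    have h1 : r y ≠ 0 := (hrpos y).ne'
    have h2 : gk t (x - y) ≠ 0 := (hgpos y).ne'
    show gk t (x - y) * (‖H y‖ ^ 2 / r y) = ‖H y‖ ^ 2 / (r y / gk t (x - y))
    field_simp
  have higH : Integrable fun y => dk t (x - y) * H y :=
    ((dk_int ht0).comp_sub_left x).mul_bdd hH.aestronglyMeasurable (ae_of_all _ hHb)
  have key := cs_real (g := fun y => dk t (x - y)) (h := H) (r := fun y => r y / gk t (x - y))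
    (fun z => div_pos (hrpos z) (hgpos z)) hig hih higH
  have e1 : ∫ y, ‖dk t (x - y)‖ ^ 2 * (r y / gk t (x - y)) ≤
      t⁻¹ * ∫ y, gk (2 * t) (x - y) * r y := by
    rw [← integral_const_mul]
    exact integral_mono hig (hi2.const_mul t⁻¹) hle
  have e2 : ∫ y, ‖H y‖ ^ 2 / (r y / gk t (x - y)) = ∫ y, gk t (x - y) * (‖H y‖ ^ 2 / r y) := by
    refine integral_congr_ae (ae_of_all _ fun y => ?_)
    have h1 : r y ≠ 0 := (hrpos y).ne'
    have h2 : gk t (x - y) ≠ 0 := (hgpos y).ne'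
    show ‖H y‖ ^ 2 / (r y / gk t (x - y)) = gk t (x - y) * (‖H y‖ ^ 2 / r y)
    field_simp
  rw [e2] at key
  refine key.trans (mul_le_mul_of_nonneg_right e1 ?_)
  exact integral_nonneg fun y =>
    mul_nonneg (hgpos y).le (div_nonneg (sq_nonneg _) (hrpos y).le)

theorem dd_sq_le {w : ℂ → ℝ} {n K : ℝ} (h : Bw w n) (hK : HA w K) {f : ℂ → ℂ} {M : ℝ}
    (hf : Bf f M) {t : ℝ} (ht0 : 0 < t) (x : ℂ) :
    ‖dd t f x‖ ^ 2 ≤ 404 * K * t⁻¹ * vv w (3 * t) x * Ee w K f t x := by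
  have h2t : 0 < 2 * t := by positivity
  have h3t : 0 < 3 * t := by positivity
  have hK1 : 1 ≤ K := one_le_HA h hK
  have hn : 0 < n := h.pos
  set a := Aa w K f t x with ha
  set sp := Ss w K (2 * t) x with hsp
  set vp := vv w (2 * t) x with hvp
  have hty : Measurable fun y : ℂ => ((t, y) : ℝ × ℂ) := by fun_prop
  have hsm : Measurable fun y => Ss w K t y := (Ss_meas h K).comp hty
  have hvm : Measurable fun y => vv w t y := (ht_meas h.inv.meas).comp hty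
  have hfm : Measurable fun y => hc t f y := (hc_meas hf.meas).comp hty
  have hv0 : ∀ y, n⁻¹ ≤ vv w t y := fun y => le_ht h.inv ht0 y
  have hv1 : ∀ y, vv w t y ≤ n := fun y => ht_le h.inv ht0 y
  have hvp0 : n⁻¹ ≤ vp := le_ht h.inv h2t x
  have hvp1 : vp ≤ n := ht_le h.inv h2t x
  have hs0 : ∀ y, n⁻¹ ≤ Ss w K t y := fun y => (hv0 y).trans (Ss_bounds h hK ht0 y).1
  have hs1 : ∀ y, Ss w K t y ≤ 2 * n := fun y => by
    have := (Ss_bounds h hK ht0 y).2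
    linarith [hv1 y]
  have hsp0 : n⁻¹ ≤ sp := hvp0.trans (Ss_bounds h hK h2t x).1
  have hsp1 : sp ≤ 2 * n := by
    have := (Ss_bounds h hK h2t x).2
    linarith
  have hni : 0 < n⁻¹ := inv_pos.mpr hn
  have hspos : ∀ y, 0 < Ss w K t y := fun y => hni.trans_le (hs0 y)
  have hvpos : ∀ y, 0 < vv w t y := fun y => hni.trans_le (hv0 y)
  have hvppos : 0 < vp := hni.trans_le hvp0
  have hsppos : 0 < sp := hni.trans_le hsp0
  -- the two functions
  have hb1 : ∀ y, ‖hc t f y - a * (Ss w K t y : ℂ)‖ ≤ M + ‖a‖ * (2 * n) := by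
    intro y
    refine (norm_sub_le _ _).trans (add_le_add (hc_le hf ht0 y) ?_)
    rw [norm_mul, Complex.norm_real, Real.norm_of_nonneg (hspos y).le]
    exact mul_le_mul_of_nonneg_left (hs1 y) (norm_nonneg _)
  have hb2 : ∀ y, ‖((Ss w K t y - sp : ℝ) : ℂ)‖ ≤ 2 * n := by
    intro y
    rw [Complex.norm_real, Real.norm_eq_abs, abs_le]
    constructor
    · linarith [hspos y]
    · linarith [hs1 y]
  have hm1 : Measurable fun y => hc t f y - a * (Ss w K t y : ℂ) :=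
    hfm.sub ((Complex.measurable_ofReal.comp hsm).const_mul a)
  have hm2 : Measurable fun y => ((Ss w K t y - sp : ℝ) : ℂ) :=
    Complex.measurable_ofReal.comp (hsm.sub_const sp)
  have C1 := dk_cs ht0 x (H := fun y => hc t f y - a * (Ss w K t y : ℂ))
    (r := fun y => Ss w K t y) hm1 hsm hb1 hni hs0 hs1
  have C2 := dk_cs ht0 x (H := fun y => ((Ss w K t y - sp : ℝ) : ℂ))
    (r := fun y => vp + vv w t y) (M1 := n + n) hm2 (hvm.const_add vp) hb2 hni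
    (fun y => by linarith [hv0 y]) (fun y => by linarith [hv1 y])
  -- the kernel integrals
  have hvi : ∫ y, gk (2 * t) (x - y) * vv w t y = vv w (3 * t) x := by
    have := ht_semi h.inv h2t ht0 x
    have e : 2 * t + t = 3 * t := by ring
    rw [e] at this
    exact this
  have hvint : Integrable fun y => gk (2 * t) (x - y) * vv w t y := by
    refine gk_mul_int h2t hvm (M := n) (fun z => ?_) x
    rw [abs_of_pos (hvpos z)]
    exact hv1 z
  have hsint : Integrable fun y => gk (2 * t) (x - y) * Ss w K t y := by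
    refine gk_mul_int h2t hsm (M := 2 * n) (fun z => ?_) x
    rw [abs_of_pos (hspos z)]
    exact hs1 z
  have D1 : ∫ y, gk (2 * t) (x - y) * Ss w K t y ≤ 2 * vv w (3 * t) x := by
    rw [← hvi, ← integral_const_mul]
    refine integral_mono hsint (hvint.const_mul 2) fun y => ?_
    have h1 := (Ss_bounds h hK ht0 y).2
    have h2 := (gk_pos h2t (x - y)).le
    show gk (2 * t) (x - y) * Ss w K t y ≤ 2 * (gk (2 * t) (x - y) * vv w t y)
    nlinarith [mul_le_mul_of_nonneg_left h1 h2]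
  have D2 : ∫ y, gk (2 * t) (x - y) * (vp + vv w t y) ≤ 5 / 2 * vv w (3 * t) x := by
    have e1 : ∀ y, gk (2 * t) (x - y) * (vp + vv w t y) =
        gk (2 * t) (x - y) * vp + gk (2 * t) (x - y) * vv w t y := fun y => by ring
    simp_rw [e1]
    rw [integral_add ((gk_int_sub h2t x).mul_const vp) hvint, integral_mul_const,
      integral_gk_sub h2t x, hvi, one_mul]
    have h1 : vp ≤ 3 / 2 * vv w (3 * t) x := ht_two_le h.inv ht0 x
    linarith
  -- the gain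
  set G1 : ℂ → ℝ := fun y => ‖hc t f y - a * (Ss w K t y : ℂ)‖ ^ 2 / Ss w K t y with hG1
  set G2 : ℂ → ℝ := fun y => ‖((Ss w K t y - sp : ℝ) : ℂ)‖ ^ 2 / (vp + vv w t y) with hG2
  have hG1m : Measurable G1 := (hm1.norm.pow_const 2).div hsm
  have hG2m : Measurable G2 := (hm2.norm.pow_const 2).div (hvm.const_add vp)
  have hG1n : ∀ y, 0 ≤ G1 y := fun y => div_nonneg (sq_nonneg _) (hspos y).le
  have hG2n : ∀ y, 0 ≤ G2 y := fun y => div_nonneg (sq_nonneg _) (by linarith [hvpos y])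
  have hG1i : Integrable fun y => gk t (x - y) * G1 y := by
    refine gk_mul_int ht0 hG1m (M := (M + ‖a‖ * (2 * n)) ^ 2 / n⁻¹) (fun z => ?_) x
    rw [abs_of_nonneg (hG1n z)]
    exact div_le_div₀ (sq_nonneg _) (pow_le_pow_left₀ (norm_nonneg _) (hb1 z) 2) hni (hs0 z)
  have hG2i : Integrable fun y => gk t (x - y) * G2 y := by
    refine gk_mul_int ht0 hG2m (M := (2 * n) ^ 2 / n⁻¹) (fun z => ?_) x
    rw [abs_of_nonneg (hG2n z)]
    exact div_le_div₀ (sq_nonneg _) (pow_le_pow_left₀ (norm_nonneg _) (hb2 z) 2) hni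
      (by linarith [hv0 z])
  have hK80 : (0:ℝ) < 20 * (4 * K) := by linarith
  have hGi : ∀ y, gk t (x - y) * Gi w K f t x y =
      gk t (x - y) * G1 y + ‖a‖ ^ 2 / (20 * (4 * K)) * (gk t (x - y) * G2 y) := by
    intro y
    have h1 : ‖((Ss w K t y - sp : ℝ) : ℂ)‖ ^ 2 = (Ss w K t y - sp) ^ 2 := by
      rw [Complex.norm_real, Real.norm_eq_abs, sq_abs]
    have h2 : vp + vv w t y ≠ 0 := by
      have := hvpos y
      positivity
    have h3 : K ≠ 0 := by positivity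
    rw [hG1, hG2]
    unfold Gi
    simp only [← ha, ← hsp, ← hvp]
    rw [h1]
    field_simp
  have hEe : Ee w K f t x = (∫ y, gk t (x - y) * G1 y) +
      ‖a‖ ^ 2 / (20 * (4 * K)) * ∫ y, gk t (x - y) * G2 y := by
    unfold Ee
    simp_rw [hGi]
    rw [integral_add hG1i (hG2i.const_mul _), integral_const_mul]
  have hI1 : 0 ≤ ∫ y, gk t (x - y) * G1 y :=
    integral_nonneg fun y => mul_nonneg (gk_pos ht0 _).le (hG1n y)
  have hI2 : 0 ≤ ∫ y, gk t (x - y) * G2 y :=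
    integral_nonneg fun y => mul_nonneg (gk_pos ht0 _).le (hG2n y)
  have hv3 : 0 ≤ vv w (3 * t) x := (ht_pos h.inv h3t x).le
  have hti : 0 < t⁻¹ := inv_pos.mpr ht0
  -- the decomposition of the derivative
  have hdk0 : ∫ y, dk t (x - y) = 0 := by
    rw [integral_sub_left_eq_self (dk t) volume x, integral_dk]
  have hdki : Integrable fun y => dk t (x - y) := (dk_int ht0).comp_sub_left x
  have hA1 : Integrable fun y => dk t (x - y) * (hc t f y - a * (Ss w K t y : ℂ)) :=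
    hdki.mul_bdd hm1.aestronglyMeasurable (ae_of_all _ hb1)
  have hA2 : Integrable fun y => dk t (x - y) * ((Ss w K t y - sp : ℝ) : ℂ) :=
    hdki.mul_bdd hm2.aestronglyMeasurable (ae_of_all _ hb2)
  have hdd : dd t f x = (∫ y, dk t (x - y) * (hc t f y - a * (Ss w K t y : ℂ))) +
      a * ∫ y, dk t (x - y) * ((Ss w K t y - sp : ℝ) : ℂ) := by
    have e1 : ∀ y, dk t (x - y) * hc t f y =
        dk t (x - y) * (hc t f y - a * (Ss w K t y : ℂ)) +
          a * (dk t (x - y) * ((Ss w K t y - sp : ℝ) : ℂ)) + (a * (sp : ℂ)) * dk t (x - y) := by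
      intro y
      push_cast
      ring
    have hA3 : Integrable fun y => dk t (x - y) * (hc t f y - a * (Ss w K t y : ℂ)) +
        a * (dk t (x - y) * ((Ss w K t y - sp : ℝ) : ℂ)) := hA1.add (hA2.const_mul a)
    unfold dd
    simp_rw [e1]
    rw [integral_add hA3 (hdki.const_mul _),
      integral_add hA1 (hA2.const_mul a), integral_const_mul, integral_const_mul, hdk0]
    ring
  set P := ∫ y, dk t (x - y) * (hc t f y - a * (Ss w K t y : ℂ)) with hP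
  set Q := ∫ y, dk t (x - y) * ((Ss w K t y - sp : ℝ) : ℂ) with hQ
  set I1 := ∫ y, gk t (x - y) * G1 y with hI1d
  set I2 := ∫ y, gk t (x - y) * G2 y with hI2d
  have E1 : ‖P‖ ^ 2 ≤ 2 * t⁻¹ * vv w (3 * t) x * I1 := by
    calc ‖P‖ ^ 2 ≤ (t⁻¹ * ∫ y, gk (2 * t) (x - y) * Ss w K t y) * I1 := C1
      _ ≤ (t⁻¹ * (2 * vv w (3 * t) x)) * I1 := by gcongr
      _ = _ := by ring
  have E2 : ‖Q‖ ^ 2 ≤ 5 / 2 * t⁻¹ * vv w (3 * t) x * I2 := by
    calc ‖Q‖ ^ 2 ≤ (t⁻¹ * ∫ y, gk (2 * t) (x - y) * (vp + vv w t y)) * I2 := C2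
      _ ≤ (t⁻¹ * (5 / 2 * vv w (3 * t) x)) * I2 := by gcongr
      _ = _ := by ring
  have E3 : ‖dd t f x‖ ^ 2 ≤ 2 * ‖P‖ ^ 2 + 2 * (‖a‖ ^ 2 * ‖Q‖ ^ 2) := by
    rw [hdd]
    have h1 : ‖P + a * Q‖ ≤ ‖P‖ + ‖a‖ * ‖Q‖ := by
      rw [← norm_mul]
      exact norm_add_le _ _
    have h2 : 0 ≤ ‖P + a * Q‖ := norm_nonneg _
    have h3 : 0 ≤ ‖P‖ := norm_nonneg _
    have h4 : 0 ≤ ‖a‖ * ‖Q‖ := by positivity
    nlinarith [sq_nonneg (‖P‖ - ‖a‖ * ‖Q‖), mul_self_le_mul_self h2 h1]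
  rw [hEe]
  have E4 : ‖a‖ ^ 2 * ‖Q‖ ^ 2 ≤ 200 * K * t⁻¹ * vv w (3 * t) x *
      (‖a‖ ^ 2 / (20 * (4 * K)) * I2) := by
    have h3 : K ≠ 0 := by positivity
    have e : 200 * K * t⁻¹ * vv w (3 * t) x * (‖a‖ ^ 2 / (20 * (4 * K)) * I2) =
        ‖a‖ ^ 2 * (5 / 2 * t⁻¹ * vv w (3 * t) x * I2) := by
      field_simp
      ring
    rw [e]
    exact mul_le_mul_of_nonneg_left E2 (sq_nonneg _)
  set X := t⁻¹ * vv w (3 * t) x with hX
  have hX0 : 0 ≤ X := mul_nonneg hti.le hv3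
  set J2 := ‖a‖ ^ 2 / (20 * (4 * K)) * I2 with hJ2
  have hJ20 : 0 ≤ J2 := mul_nonneg (by positivity) hI2
  have E1' : ‖P‖ ^ 2 ≤ 2 * (X * I1) := by
    calc ‖P‖ ^ 2 ≤ 2 * t⁻¹ * vv w (3 * t) x * I1 := E1
      _ = _ := by rw [hX]; ring
  have E4' : ‖a‖ ^ 2 * ‖Q‖ ^ 2 ≤ 200 * (K * (X * J2)) := by
    calc ‖a‖ ^ 2 * ‖Q‖ ^ 2 ≤ 200 * K * t⁻¹ * vv w (3 * t) x * J2 := E4
      _ = _ := by rw [hX]; ring
  have hXI : 0 ≤ X * I1 := mul_nonneg hX0 hI1
  have hXJ : 0 ≤ X * J2 := mul_nonneg hX0 hJ20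
  have goal' : 404 * K * t⁻¹ * vv w (3 * t) x * (I1 + J2) =
      404 * (K * (X * I1)) + 404 * (K * (X * J2)) := by
    rw [hX]; ring
  rw [goal']
  have F1 : X * I1 ≤ K * (X * I1) := le_mul_of_one_le_left hXI hK1
  have F2 : X * J2 ≤ K * (X * J2) := le_mul_of_one_le_left hXJ hK1
  linarith

end Pool.Agent.Lib.MP_f0c028_an.GW
end

section

set_option autoImplicit false

/-! # TASK GW6: the square function estimate on a dyadic sequence of scales

`SQ_meas`: `dd_meas`, `ht_meas`, `Measurable.lintegral_prod_right'`.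
`SQ_sum`: let `I = ∫⁻ ‖f‖² w`.
(1) `ofReal t * SQ w f t ≤ ofReal (404 K) * ∫⁻ ofReal (Ee t x)` for `t > 0` (`dd_sq_le`, pointwise; `vv > 0`).
(2) `∫⁻ ofReal (Ph (2t) x) + ∫⁻ ofReal (Ee t x) ≤ ∫⁻ ofReal (Ph t x)`: `step_ineq` and `lint_ht` (`Ph t` is bounded, nonnegative, measurable;
`Ee ≥ 0`).
(3) `∫⁻ ofReal (Ph t x) ≤ I`: `Ph t x ≤ |hc t f x|²/vv t x ≤ ∫ gk |f|² w` (`hc_sq_le`, `Ss_bounds`) and `lint_ht`;
`ofReal (‖f‖² w) = ‖f‖ₑ² ofReal w`.
(4) finite sums `∑_{-N ≤ k < N} ∫⁻ ofReal (Ee (2^k t)) ≤ I` by telescoping (induction on (2), starting at `2^(-N) t`, with (3)); every finite set of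
integers is contained in such an interval, so `∑' k : ℤ, ∫⁻ ofReal (Ee (2^k t)) ≤ I` (`ENNReal.tsum_eq_iSup_sum`), and (1). -/

open Real

namespace Pool.Agent.Lib.MP_f0c028_an.GW

open MeasureTheory Set Filter Topology
open scoped ENNReal InnerProductSpace

/-- The weighted square function at one scale. -/
noncomputable def SQ (w : ℂ → ℝ) (f : ℂ → ℂ) (t : ℝ) : ℝ≥0∞ :=
  ∫⁻ x, ‖dd t f x‖ₑ ^ 2 / ENNReal.ofReal (vv w (3 * t) x)

theorem SQ_meas {w : ℂ → ℝ} {n : ℝ} (h : Bw w n) {f : ℂ → ℂ} {M : ℝ} (hf : Bf f M) :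
    Measurable (SQ w f) := by
  have h1 : Measurable fun q : ℝ × ℂ => ‖dd q.1 f q.2‖ₑ ^ 2 :=
    (dd_meas hf.meas).enorm.pow_const 2
  have h3 : Measurable fun q : ℝ × ℂ => ((3 * q.1, q.2) : ℝ × ℂ) :=
    (measurable_fst.const_mul 3).prodMk measurable_snd
  have h2 : Measurable fun q : ℝ × ℂ => vv w (3 * q.1) q.2 :=
    (ht_meas h.inv.meas).comp h3
  have h4 : Measurable fun q : ℝ × ℂ => ‖dd q.1 f q.2‖ₑ ^ 2 / ENNReal.ofReal (vv w (3 * q.1) q.2) :=
    h1.div h2.ennreal_ofReal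
  exact h4.lintegral_prod_right'

private theorem Ss_pos {w : ℂ → ℝ} {n K : ℝ} (h : Bw w n) (hK : HA w K) {t : ℝ} (ht0 : 0 < t)
    (x : ℂ) : 0 < Ss w K t x :=
  (ht_pos h.inv ht0 x).trans_le (Ss_bounds h hK ht0 x).1

private theorem Ph_nonneg {w : ℂ → ℝ} {n K : ℝ} (h : Bw w n) (hK : HA w K) (f : ℂ → ℂ) {t : ℝ}
    (ht0 : 0 < t) (x : ℂ) : 0 ≤ Ph w K f t x :=
  div_nonneg (sq_nonneg _) (Ss_pos h hK ht0 x).le

private theorem Ph_meas {w : ℂ → ℝ} {n : ℝ} (h : Bw w n) (K : ℝ) {f : ℂ → ℂ} {M : ℝ}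
    (hf : Bf f M) (t : ℝ) : Measurable (Ph w K f t) := by
  have h0 : Measurable fun x : ℂ => ((t, x) : ℝ × ℂ) := measurable_const.prodMk measurable_id
  have h1 : Measurable fun x : ℂ => ‖hc t f x‖ ^ 2 :=
    ((hc_meas hf.meas).comp h0).norm.pow_const 2
  have h2 : Measurable fun x : ℂ => Ss w K t x := (Ss_meas h K).comp h0
  exact h1.div h2

private theorem Ph_le {w : ℂ → ℝ} {n K : ℝ} (h : Bw w n) (hK : HA w K) {f : ℂ → ℂ} {M : ℝ}
    (hf : Bf f M) {t : ℝ} (ht0 : 0 < t) (x : ℂ) : Ph w K f t x ≤ M ^ 2 * n := by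
  have hM : 0 ≤ M := (norm_nonneg _).trans (hf.le 0)
  have hn := h.pos
  have h1 : ‖hc t f x‖ ^ 2 ≤ M ^ 2 := by
    have := hc_le hf ht0 x
    gcongr
  have h2 : n⁻¹ ≤ Ss w K t x := (le_ht h.inv ht0 x).trans (Ss_bounds h hK ht0 x).1
  unfold Ph
  rw [div_le_iff₀ (Ss_pos h hK ht0 x)]
  have h3 : 1 ≤ n * Ss w K t x := by
    have : n * n⁻¹ ≤ n * Ss w K t x := by gcongr
    rwa [mul_inv_cancel₀ hn.ne'] at this
  calc ‖hc t f x‖ ^ 2 ≤ M ^ 2 * 1 := by linarith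
    _ ≤ M ^ 2 * (n * Ss w K t x) := by gcongr
    _ = _ := by ring

private theorem Ee_nonneg {w : ℂ → ℝ} {n K : ℝ} (h : Bw w n) (hK : HA w K) (f : ℂ → ℂ) {t : ℝ}
    (ht0 : 0 < t) (x : ℂ) : 0 ≤ Ee w K f t x := by
  have hK1 := one_le_HA h hK
  apply integral_nonneg
  intro y
  have h1 := (gk_pos ht0 (x - y)).le
  have h2 := Ss_pos h hK ht0 y
  have h3 : 0 < vv w (2 * t) x := ht_pos h.inv (by positivity) x
  have h4 : 0 < vv w t y := ht_pos h.inv ht0 y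
  have h5 : 0 ≤ Gi w K f t x y := by
    unfold Gi
    have h6 : 0 < K := by linarith
    positivity
  exact mul_nonneg h1 h5

private theorem SQ_le_Ee {w : ℂ → ℝ} {n K : ℝ} (h : Bw w n) (hK : HA w K) {f : ℂ → ℂ} {M : ℝ}
    (hf : Bf f M) {t : ℝ} (ht0 : 0 < t) :
    ENNReal.ofReal t * SQ w f t ≤
      ENNReal.ofReal (404 * K) * ∫⁻ x, ENNReal.ofReal (Ee w K f t x) := by
  have hK1 := one_le_HA h hK
  have hK0 : 0 ≤ 404 * K := by linarith
  unfold SQ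
  rw [← lintegral_const_mul' _ _ ENNReal.ofReal_ne_top,
    ← lintegral_const_mul' _ _ ENNReal.ofReal_ne_top]
  apply lintegral_mono
  intro x
  have hv : 0 < vv w (3 * t) x := ht_pos h.inv (by positivity) x
  have h1 : ‖dd t f x‖ₑ ^ 2 = ENNReal.ofReal (‖dd t f x‖ ^ 2) := by
    rw [ENNReal.ofReal_pow (norm_nonneg _), ofReal_norm]
  have h2 := dd_sq_le h hK hf ht0 x
  show ENNReal.ofReal t * (‖dd t f x‖ₑ ^ 2 / ENNReal.ofReal (vv w (3 * t) x)) ≤
    ENNReal.ofReal (404 * K) * ENNReal.ofReal (Ee w K f t x)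
  rw [h1, ← ENNReal.ofReal_div_of_pos hv, ← ENNReal.ofReal_mul ht0.le, ← ENNReal.ofReal_mul hK0]
  apply ENNReal.ofReal_le_ofReal
  rw [← mul_div_assoc, div_le_iff₀ hv]
  calc t * ‖dd t f x‖ ^ 2 ≤ t * (404 * K * t⁻¹ * vv w (3 * t) x * Ee w K f t x) := by gcongr
    _ = (t * t⁻¹) * (404 * K * Ee w K f t x * vv w (3 * t) x) := by ring
    _ = _ := by rw [mul_inv_cancel₀ ht0.ne', one_mul]

private theorem Ph_step {w : ℂ → ℝ} {n K : ℝ} (h : Bw w n) (hK : HA w K) {f : ℂ → ℂ} {M : ℝ}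
    (hf : Bf f M) {t : ℝ} (ht0 : 0 < t) :
    (∫⁻ x, ENNReal.ofReal (Ph w K f (2 * t) x)) + ∫⁻ x, ENNReal.ofReal (Ee w K f t x) ≤
      ∫⁻ x, ENNReal.ofReal (Ph w K f t x) := by
  rw [← lintegral_add_left (Ph_meas h K hf (2 * t)).ennreal_ofReal,
    ← lint_ht (Ph_meas h K hf t) (Ph_nonneg h hK f ht0) (Ph_le h hK hf ht0) ht0]
  apply lintegral_mono
  intro x
  show ENNReal.ofReal (Ph w K f (2 * t) x) + ENNReal.ofReal (Ee w K f t x) ≤
    ENNReal.ofReal (∫ y, gk t (x - y) * Ph w K f t y)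
  rw [← ENNReal.ofReal_add (Ph_nonneg h hK f (by positivity) x) (Ee_nonneg h hK f ht0 x)]
  exact ENNReal.ofReal_le_ofReal (step_ineq h hK hf ht0 x)

private theorem Ph_init {w : ℂ → ℝ} {n K : ℝ} (h : Bw w n) (hK : HA w K) {f : ℂ → ℂ} {M : ℝ}
    (hf : Bf f M) {t : ℝ} (ht0 : 0 < t) :
    ∫⁻ x, ENNReal.ofReal (Ph w K f t x) ≤ ∫⁻ z, ‖f z‖ₑ ^ 2 * ENNReal.ofReal (w z) := by
  have hM : 0 ≤ M := (norm_nonneg _).trans (hf.le 0)
  have hm : Measurable fun y => ‖f y‖ ^ 2 * w y := (hf.meas.norm.pow_const 2).mul h.meas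
  have h0 : ∀ y, 0 ≤ ‖f y‖ ^ 2 * w y := fun y => mul_nonneg (sq_nonneg _) (h.wpos y).le
  have hb : ∀ y, ‖f y‖ ^ 2 * w y ≤ M ^ 2 * n := fun y => by
    have h1 := hf.le y
    have h2 := h.le y
    have h3 := (h.wpos y).le
    gcongr
  have h1 : ∫⁻ x, ENNReal.ofReal (Ph w K f t x) ≤
      ∫⁻ x, ENNReal.ofReal (∫ y, gk t (x - y) * (‖f y‖ ^ 2 * w y)) := by
    apply lintegral_mono
    intro x
    apply ENNReal.ofReal_le_ofReal
    have h2 := hc_sq_le h hf ht0 x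
    have h3 := (Ss_bounds h hK ht0 x).1
    have h4 := ht_pos h.inv ht0 x
    have h5 : 0 ≤ ∫ y, gk t (x - y) * (‖f y‖ ^ 2 * w y) :=
      integral_nonneg fun y => mul_nonneg (gk_pos ht0 _).le (h0 y)
    show Ph w K f t x ≤ _
    unfold Ph
    rw [div_le_iff₀ (Ss_pos h hK ht0 x)]
    unfold vv at h3
    calc ‖hc t f x‖ ^ 2 ≤ _ := h2
      _ ≤ _ := by gcongr
  refine h1.trans ?_
  rw [lint_ht hm h0 hb ht0]
  apply lintegral_mono
  intro z
  show ENNReal.ofReal (‖f z‖ ^ 2 * w z) ≤ ‖f z‖ₑ ^ 2 * ENNReal.ofReal (w z)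
  rw [ENNReal.ofReal_mul (sq_nonneg _), ENNReal.ofReal_pow (norm_nonneg _), ofReal_norm]

private theorem Ee_tele {w : ℂ → ℝ} {n K : ℝ} (h : Bw w n) (hK : HA w K) {f : ℂ → ℂ} {M : ℝ}
    (hf : Bf f M) {s : ℝ} (hs0 : 0 < s) (m : ℕ) :
    (∫⁻ x, ENNReal.ofReal (Ph w K f ((2 : ℝ) ^ m * s) x)) +
      ∑ j ∈ Finset.range m, ∫⁻ x, ENNReal.ofReal (Ee w K f ((2 : ℝ) ^ j * s) x) ≤
      ∫⁻ x, ENNReal.ofReal (Ph w K f s x) := by
  induction m with
  | zero => simp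
  | succ m ih =>
    have hp : 0 < (2 : ℝ) ^ m * s := by positivity
    have h1 := Ph_step h hK hf hp
    have h2 : 2 * ((2 : ℝ) ^ m * s) = (2 : ℝ) ^ (m + 1) * s := by ring
    rw [h2] at h1
    rw [Finset.sum_range_succ]
    calc _ = ((∫⁻ x, ENNReal.ofReal (Ph w K f ((2 : ℝ) ^ (m + 1) * s) x)) +
          ∫⁻ x, ENNReal.ofReal (Ee w K f ((2 : ℝ) ^ m * s) x)) +
          ∑ j ∈ Finset.range m, ∫⁻ x, ENNReal.ofReal (Ee w K f ((2 : ℝ) ^ j * s) x) := by ring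
      _ ≤ (∫⁻ x, ENNReal.ofReal (Ph w K f ((2 : ℝ) ^ m * s) x)) +
          ∑ j ∈ Finset.range m, ∫⁻ x, ENNReal.ofReal (Ee w K f ((2 : ℝ) ^ j * s) x) := by gcongr
      _ ≤ _ := ih

/-- The square function estimate on a dyadic sequence of scales. -/
theorem SQ_sum {w : ℂ → ℝ} {n K : ℝ} (h : Bw w n) (hK : HA w K) {f : ℂ → ℂ} {M : ℝ}
    (hf : Bf f M) {t : ℝ} (ht0 : 0 < t) :
    ∑' k : ℤ, ENNReal.ofReal ((2 : ℝ) ^ k * t) * SQ w f ((2 : ℝ) ^ k * t) ≤
      ENNReal.ofReal (404 * K) * ∫⁻ z, ‖f z‖ₑ ^ 2 * ENNReal.ofReal (w z) := by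
  set I : ℝ≥0∞ := ∫⁻ z, ‖f z‖ₑ ^ 2 * ENNReal.ofReal (w z) with hI
  have h1 : ∑' k : ℤ, ENNReal.ofReal ((2 : ℝ) ^ k * t) * SQ w f ((2 : ℝ) ^ k * t) ≤
      ∑' k : ℤ, ENNReal.ofReal (404 * K) * ∫⁻ x, ENNReal.ofReal (Ee w K f ((2 : ℝ) ^ k * t) x) := by
    apply ENNReal.tsum_le_tsum
    intro k
    exact SQ_le_Ee h hK hf (by positivity)
  refine h1.trans ?_
  rw [ENNReal.tsum_mul_left]
  gcongr
  rw [ENNReal.tsum_eq_iSup_sum]
  apply iSup_le
  intro S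
  obtain ⟨a, m, hS⟩ : ∃ (a : ℤ) (m : ℕ), S ⊆ (Finset.range m).image fun j : ℕ => a + (j : ℤ) := by
    obtain ⟨a, ha⟩ := S.bddBelow
    obtain ⟨b, hb⟩ := S.bddAbove
    refine ⟨a, (b - a + 1).toNat, fun k hk => ?_⟩
    have h2 : a ≤ k := ha hk
    have h3 : k ≤ b := hb hk
    rw [Finset.mem_image]
    refine ⟨(k - a).toNat, ?_, ?_⟩
    · rw [Finset.mem_range]
      omega
    · omega
  have h2 : ∑ k ∈ S, ∫⁻ x, ENNReal.ofReal (Ee w K f ((2 : ℝ) ^ k * t) x) ≤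
      ∑ k ∈ (Finset.range m).image (fun j : ℕ => a + (j : ℤ)),
        ∫⁻ x, ENNReal.ofReal (Ee w K f ((2 : ℝ) ^ k * t) x) :=
    Finset.sum_le_sum_of_subset hS
  refine h2.trans ?_
  rw [Finset.sum_image (fun i _ j _ hij => by
    have : a + (i : ℤ) = a + (j : ℤ) := hij
    omega)]
  have hs0 : 0 < (2 : ℝ) ^ a * t := by positivity
  have h3 : ∀ j : ℕ, (2 : ℝ) ^ (a + (j : ℤ)) * t = (2 : ℝ) ^ j * ((2 : ℝ) ^ a * t) := by
    intro j
    rw [zpow_add₀ (by norm_num), zpow_natCast]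
    ring
  simp_rw [h3]
  calc _ ≤ (∫⁻ x, ENNReal.ofReal (Ph w K f ((2 : ℝ) ^ m * ((2 : ℝ) ^ a * t)) x)) +
      ∑ j ∈ Finset.range m,
        ∫⁻ x, ENNReal.ofReal (Ee w K f ((2 : ℝ) ^ j * ((2 : ℝ) ^ a * t)) x) := le_add_self
    _ ≤ _ := Ee_tele h hK hf hs0 m
    _ ≤ _ := Ph_init h hK hf hs0

end Pool.Agent.Lib.MP_f0c028_an.GW
end

section

set_option autoImplicit false

/-! # TASK GW6b: from dyadic scales to all scales

`lint_dyadic`: `∫⁻ t in Ioi 0, A t = ∑' k : ℤ, ∫⁻ t in Ioc (2^k) (2^(k+1)), A t` (`Ioi 0` is the disjoint union: `lintegral_iUnion`,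
`exists_mem_Ioc_zpow`), and by the substitution `t = 2^k τ`:
`∫⁻ t in Ioc (2^k) (2^(k+1)), A t = ∫⁻ τ in Ioc 1 2, ofReal (2^k) * A (2^k τ)`
(`MeasureTheory.Measure.map`/`lintegral_image_eq_lintegral_abs_deriv_mul` or the scaling of Lebesgue measure,
`Measure.lintegral_comp_smul`-type lemmas / `Real.map_volume_mul_left`); exchange sum and integral (`lintegral_tsum`); for `τ > 1`:
`∑' k, ofReal (2^k) * A (2^k τ) ≤ ∑' k, ofReal (2^k τ) * A (2^k τ) ≤ I`, and `volume (Ioc 1 2) = 1`. -/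

open Real

namespace Pool.Agent.Lib.MP_f0c028_an.GW

open MeasureTheory Set Filter Topology
open scoped ENNReal InnerProductSpace

/-- From dyadic scales to all scales. -/
theorem lint_dyadic {A : ℝ → ℝ≥0∞} (hA : Measurable A) {I : ℝ≥0∞}
    (hI : ∀ t : ℝ, 0 < t → ∑' k : ℤ, ENNReal.ofReal ((2 : ℝ) ^ k * t) * A ((2 : ℝ) ^ k * t) ≤ I) :
    ∫⁻ t in Ioi (0 : ℝ), A t ≤ I := by
  have hU : Ioi (0 : ℝ) = ⋃ k : ℤ, Ioc ((2 : ℝ) ^ k) ((2 : ℝ) ^ (k + 1)) := by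
    ext t
    simp only [mem_Ioi, mem_iUnion]
    constructor
    · intro ht
      obtain ⟨n, hn⟩ := exists_mem_Ioc_zpow ht one_lt_two
      exact ⟨n, hn⟩
    · rintro ⟨k, hk⟩
      exact lt_trans (by positivity) hk.1
  have hsub : ∀ k : ℤ, ∫⁻ t in Ioc ((2 : ℝ) ^ k) ((2 : ℝ) ^ (k + 1)), A t =
      ∫⁻ τ in Ioc (1 : ℝ) 2, ENNReal.ofReal ((2 : ℝ) ^ k) * A ((2 : ℝ) ^ k * τ) := by
    intro k
    have h2 : (0 : ℝ) < 2 ^ k := by positivity
    have himg : (fun τ : ℝ => (2 : ℝ) ^ k * τ) '' Ioc 1 2 = Ioc ((2 : ℝ) ^ k) ((2 : ℝ) ^ (k + 1)) := by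
      rw [Set.image_mul_left_Ioc h2, mul_one, zpow_add_one₀ two_ne_zero]
    rw [← himg, lintegral_image_eq_lintegral_abs_deriv_mul measurableSet_Ioc
      (f' := fun _ => (2 : ℝ) ^ k) (fun x _ => ?_) (fun a _ b _ hab => ?_)]
    · simp only [abs_of_pos h2]
    · simpa using ((hasDerivAt_id x).const_mul ((2 : ℝ) ^ k)).hasDerivWithinAt
    · exact mul_left_cancel₀ h2.ne' hab
  have hmono : Monotone fun k : ℤ => (2 : ℝ) ^ k := zpow_right_mono₀ one_le_two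
  have hdisj : Pairwise (Function.onFun Disjoint fun k : ℤ => Ioc ((2 : ℝ) ^ k) ((2 : ℝ) ^ (k + 1))) :=
    hmono.pairwise_disjoint_on_Ioc_succ
  rw [hU, lintegral_iUnion (fun k => measurableSet_Ioc) hdisj]
  simp_rw [hsub]
  rw [← lintegral_tsum (fun k => by fun_prop)]
  calc ∫⁻ τ in Ioc (1 : ℝ) 2, ∑' k : ℤ, ENNReal.ofReal ((2 : ℝ) ^ k) * A ((2 : ℝ) ^ k * τ)
      ≤ ∫⁻ _ in Ioc (1 : ℝ) 2, I := by
        refine setLIntegral_mono measurable_const fun τ hτ => ?_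
        refine le_trans (ENNReal.tsum_le_tsum fun k => ?_) (hI τ (lt_trans one_pos hτ.1))
        gcongr
        exact le_mul_of_one_le_right (by positivity) hτ.1.le
    _ = I := by
        rw [setLIntegral_const, Real.volume_Ioc]
        norm_num

/-- The square function estimate. -/
theorem SQ_main {w : ℂ → ℝ} {n K : ℝ} (h : Bw w n) (hK : HA w K) {f : ℂ → ℂ} {M : ℝ}
    (hf : Bf f M) :
    ∫⁻ t in Ioi (0 : ℝ), SQ w f t ≤
      ENNReal.ofReal (404 * K) * ∫⁻ z, ‖f z‖ₑ ^ 2 * ENNReal.ofReal (w z) :=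
  lint_dyadic (SQ_meas h hf) fun _ ht0 => SQ_sum h hK hf ht0

end Pool.Agent.Lib.MP_f0c028_an.GW
end
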