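import Mathlib
import Pool.Agent.Lib.MP_f0c028_an.Mg.G001

section

set_option autoImplicit false

/-! # TASK P4: the class step for `B = (X Y)^(1/4)`

* `quart_le`: `(r s)^(1/4) = √(√r √s) ≤ (√r + √s)/2`, `√s ≤ 1 + (s-1)/2`, and with `u = max 0 (1 - r)`, `√r ≤ 1 + (r-1)/2 - u²/8`
  (for `r ≤ 1`: `√(1-u) ≤ 1 - u/2 - u²/8`, square both sides).
* `EJ_neg`: with `l' = k + j + 1`: `|X_{l'} - X_{k+j}| ≤ |X_{l'} - X_k| + |X_{k+j} - X_k|` and `|X_{k+j} - X_k| ≤ E_{k+j} |X_{l'} - X_k|`, so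
  `EJ j X k ≤ 2 E_k |X_{l'} - X_k|`; and `E_k (X_{l'} - X_k) = 0` gives `E_k |X_{l'} - X_k| = 2 E_k max 0 (X_k - X_{l'})`.
* `class_step`: `quart_le` with `r = X_{l'}/X_k`, `s = Y_{l'}/Y_k`; take `E_k`: `E_k (r - 1) = E_k (s - 1) = 0`,
  `E_k u² ≥ (E_k u)² ≥ (x_k/4)²` (`E_cs` with `1`, `EJ_neg`), `x_k = EJ j X k / X_k`. -/

open MeasureTheory

namespace Pool.Agent.Lib.MP_f0c028_an.SQ

variable {Ω : Type} [MeasurableSpace Ω]

theorem quart_le {r s : ℝ} (hr : 0 < r) (hs : 0 < s) :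
    (r * s) ^ (1 / 4 : ℝ) ≤ 1 + (r - 1) / 4 + (s - 1) / 4 - (max 0 (1 - r)) ^ 2 / 16 := by
  have ht : ((r * s) ^ (1 / 4 : ℝ)) ^ 2 = √r * √s := by
    rw [← Real.sqrt_mul hr.le, Real.sqrt_eq_rpow, ← Real.rpow_natCast,
      ← Real.rpow_mul (mul_pos hr hs).le]
    norm_num
  have hp := Real.sq_sqrt hr.le
  have hq := Real.sq_sqrt hs.le
  have hp0 := Real.sqrt_nonneg r
  have hq0 := Real.sqrt_nonneg s
  set p := √r with hpdef
  set q := √s with hqdef
  have h1 : (r * s) ^ (1 / 4 : ℝ) ≤ (p + q) / 2 := by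
    refine abs_le_of_sq_le_sq' ?_ (by positivity) |>.2
    rw [ht]
    nlinarith [sq_nonneg (p - q)]
  have h2 : q ≤ 1 + (s - 1) / 2 := by
    nlinarith [sq_nonneg (q - 1)]
  have h3 : p ≤ 1 + (r - 1) / 2 - (max 0 (1 - r)) ^ 2 / 8 := by
    rcases le_total 1 r with hr1 | hr1
    · rw [max_eq_left (by linarith)]
      nlinarith [sq_nonneg (p - 1)]
    · rw [max_eq_right (by linarith)]
      have hp1 : p ≤ 1 := by
        rw [hpdef]
        exact Real.sqrt_le_one.2 hr1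
      have h4 : 0 ≤ (1 - p) ^ 2 * (4 - (1 + p) ^ 2) := by
        apply mul_nonneg (sq_nonneg _)
        nlinarith
      rw [← hp]
      nlinarith
  linarith

theorem EJ_neg {S : Sp Ω} {X : ℕ → Ω → ℝ} (hX : S.Mart X) (j k : ℕ) (ω : Ω) :
    S.EJ j X k ω ≤ 4 * S.E k (fun ω' => max 0 (X k ω' - X (k + j + 1) ω')) ω := by
  have bk := hX.bm k
  have bm := hX.bm (k + j)
  have bl := hX.bm (k + j + 1)
  have h1 : S.EJ j X k ω = S.E k (fun ω' => |X (k + j + 1) ω' - X (k + j) ω'|) ω := by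
    unfold Sp.EJ
    exact E_tower S (Nat.le_add_right k j) (bl.sub bm).abs ω
  have h2 : S.E k (fun ω' => |X (k + j) ω' - X k ω'|) ω ≤
      S.E k (fun ω' => |X (k + j + 1) ω' - X k ω'|) ω := by
    have h3 : ∀ ω', |X (k + j) ω' - X k ω'| ≤
        S.E (k + j) (fun ω'' => |X (k + j + 1) ω'' - X k ω''|) ω' := by
      intro ω'
      have h4 : S.E (k + j) (fun ω'' => X (k + j + 1) ω'' - X k ω'') ω' =
          X (k + j) ω' - X k ω' := by
        rw [E_sub S _ bl bk, E_of_ad S (mart_ad S hX (Nat.le_add_right k j))]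
        congr 1
        exact hX.step (k + j) ω'
      rw [← h4]
      exact E_abs_le S _ _ _
    refine (E_mono S k (bm.sub bk).abs (E_bm S _ (bl.sub bk).abs) h3 ω).trans_eq ?_
    exact E_tower S (Nat.le_add_right k j) (bl.sub bk).abs ω
  have h5 : S.E k (fun ω' => |X (k + j + 1) ω' - X (k + j) ω'|) ω ≤
      S.E k (fun ω' => |X (k + j + 1) ω' - X k ω'| + |X (k + j) ω' - X k ω'|) ω := by
    refine E_mono S k (bl.sub bm).abs ((bl.sub bk).abs.add (bm.sub bk).abs) (fun ω' => ?_) ω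
    have h6 := abs_sub_le (X (k + j + 1) ω') (X k ω') (X (k + j) ω')
    rw [abs_sub_comm (X k ω')] at h6
    exact h6
  rw [E_add S k (bl.sub bk).abs (bm.sub bk).abs] at h5
  have h7 : S.E k (fun ω' => |X (k + j + 1) ω' - X k ω'|) ω =
      2 * S.E k (fun ω' => max 0 (X k ω' - X (k + j + 1) ω')) ω := by
    have h8 : (fun ω' => |X (k + j + 1) ω' - X k ω'|) =
        fun ω' => (X (k + j + 1) ω' - X k ω') + 2 * max 0 (X k ω' - X (k + j + 1) ω') := by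
      funext ω'
      rcases le_total (X k ω') (X (k + j + 1) ω') with h | h
      · rw [abs_of_nonneg (by linarith), max_eq_left (by linarith)]
        ring
      · rw [abs_of_nonpos (by linarith), max_eq_right (by linarith)]
        ring
    have bmx : BM (fun ω' => max 0 (X k ω' - X (k + j + 1) ω')) :=
      (BM.const 0).max (bk.sub bl)
    rw [h8, E_add S k (bl.sub bk) ((BM.const 2).mul bmx), E_sub S k bl bk, E_const_mul,
      E_of_ad S (hX.ad k)]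
    have h9 := mart_E S hX (show k ≤ k + j + 1 by omega) ω
    have h10 : S.E k (fun ω' => X (k + j + 1) ω') ω = X k ω := h9
    rw [h10]
    ring
  linarith

theorem class_step {S : Sp Ω} {X Y : ℕ → Ω → ℝ} {K : ℝ} (h : S.Pair X Y K) (j k : ℕ) (ω : Ω) :
    S.E k (fun ω' => (X (k + j + 1) ω' * Y (k + j + 1) ω') ^ (1 / 4 : ℝ)) ω ≤
      (X k ω * Y k ω) ^ (1 / 4 : ℝ) * (1 - (S.EJ j X k ω / X k ω) ^ 2 / 256) := by
  obtain ⟨c, hc, hlow⟩ := h.low
  have hXp : ∀ k ω, 0 < X k ω := fun k ω => lt_of_lt_of_le hc (hlow k ω).1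
  have hYp : ∀ k ω, 0 < Y k ω := fun k ω => lt_of_lt_of_le hc (hlow k ω).2
  have adX := h.mX.ad k
  have adY := h.mY.ad k
  have hkl : k ≤ k + j + 1 := by omega
  have bmr : BM (fun ω' => X (k + j + 1) ω' / X k ω') :=
    (h.mX.bm _).div (h.mX.bm k) hc (fun ω => (hlow k ω).1)
  have bms : BM (fun ω' => Y (k + j + 1) ω' / Y k ω') :=
    (h.mY.bm _).div (h.mY.bm k) hc (fun ω => (hlow k ω).2)
  have bmu : BM (fun ω' => max 0 (1 - X (k + j + 1) ω' / X k ω')) :=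
    (BM.const 0).max ((BM.const 1).sub bmr)
  have bmL : BM (fun ω' => (X (k + j + 1) ω' * Y (k + j + 1) ω') ^ (1 / 4 : ℝ)) :=
    ((h.mX.bm _).mul (h.mY.bm _)).rpow one_pos (h.one _) _
  have bmG : BM (fun ω' => (X k ω' * Y k ω') ^ (1 / 4 : ℝ)) :=
    ((h.mX.bm _).mul (h.mY.bm _)).rpow one_pos (h.one _) _
  have adG : S.Ad k (fun ω' => (X k ω' * Y k ω') ^ (1 / 4 : ℝ)) := by
    intro ω η
    show (X k _ * Y k _) ^ (1 / 4 : ℝ) = _
    rw [adX, adY]
  have bmφ : BM (fun ω' => (1 / 2 + 1 / 4 * (X (k + j + 1) ω' / X k ω') +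
      1 / 4 * (Y (k + j + 1) ω' / Y k ω')) -
      1 / 16 * (max 0 (1 - X (k + j + 1) ω' / X k ω')) ^ 2) :=
    (((BM.const _).add ((BM.const _).mul bmr)).add ((BM.const _).mul bms)).sub
      ((BM.const _).mul (bmu.pow 2))
  have hpt : ∀ ω', (X (k + j + 1) ω' * Y (k + j + 1) ω') ^ (1 / 4 : ℝ) ≤
      (X k ω' * Y k ω') ^ (1 / 4 : ℝ) * ((1 / 2 + 1 / 4 * (X (k + j + 1) ω' / X k ω') +
      1 / 4 * (Y (k + j + 1) ω' / Y k ω')) -
      1 / 16 * (max 0 (1 - X (k + j + 1) ω' / X k ω')) ^ 2) := by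
    intro ω'
    have h1 := quart_le (div_pos (hXp (k + j + 1) ω') (hXp k ω'))
      (div_pos (hYp (k + j + 1) ω') (hYp k ω'))
    have h2 : (X (k + j + 1) ω' * Y (k + j + 1) ω') ^ (1 / 4 : ℝ) =
        (X k ω' * Y k ω') ^ (1 / 4 : ℝ) *
          (X (k + j + 1) ω' / X k ω' * (Y (k + j + 1) ω' / Y k ω')) ^ (1 / 4 : ℝ) := by
      rw [← Real.mul_rpow (mul_pos (hXp _ _) (hYp _ _)).le
        (mul_pos (div_pos (hXp _ _) (hXp _ _)) (div_pos (hYp _ _) (hYp _ _))).le]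
      congr 1
      have h3 := (hXp k ω').ne'
      have h4 := (hYp k ω').ne'
      field_simp
    rw [h2]
    refine mul_le_mul_of_nonneg_left ?_ (Real.rpow_nonneg (mul_pos (hXp _ _) (hYp _ _)).le _)
    linarith
  have h5 := E_mono S k bmL (bmG.mul bmφ) hpt ω
  refine h5.trans ?_
  rw [E_mul S adG]
  refine mul_le_mul_of_nonneg_left ?_ (Real.rpow_nonneg (mul_pos (hXp _ _) (hYp _ _)).le _)
  have hr : S.E k (fun ω' => X (k + j + 1) ω' / X k ω') ω = 1 := by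
    rw [E_div S adX]
    have h9 : S.E k (fun ω' => X (k + j + 1) ω') ω = X k ω := mart_E S h.mX hkl ω
    rw [h9, div_self (hXp _ _).ne']
  have hs : S.E k (fun ω' => Y (k + j + 1) ω' / Y k ω') ω = 1 := by
    rw [E_div S adY]
    have h9 : S.E k (fun ω' => Y (k + j + 1) ω') ω = Y k ω := mart_E S h.mY hkl ω
    rw [h9, div_self (hYp _ _).ne']
  have hu : S.EJ j X k ω / X k ω ≤ 4 * S.E k (fun ω' => max 0 (1 - X (k + j + 1) ω' / X k ω')) ω := by
    have h1 : (fun ω' => max 0 (1 - X (k + j + 1) ω' / X k ω')) =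
        fun ω' => max 0 (X k ω' - X (k + j + 1) ω') / X k ω' := by
      funext ω'
      rw [← max_div_div_right (hXp k ω').le, zero_div, sub_div, div_self (hXp k ω').ne']
    rw [h1, E_div S adX, div_le_iff₀ (hXp k ω)]
    have h2 := EJ_neg h.mX j k ω
    have h3 := (hXp k ω).ne'
    refine h2.trans_eq ?_
    field_simp
  have hu0 : 0 ≤ S.EJ j X k ω / X k ω := div_nonneg (EJ_nonneg S _ _ _ _) (hXp k ω).le
  have hcs := E_cs S k bmu (BM.const 1) ω
  simp only [mul_one, one_pow, E_const] at hcs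
  rw [E_sub S k (((BM.const _).add ((BM.const _).mul bmr)).add ((BM.const _).mul bms))
      ((BM.const _).mul (bmu.pow 2)), E_add S k ((BM.const _).add ((BM.const _).mul bmr))
      ((BM.const _).mul bms), E_add S k (BM.const _) ((BM.const _).mul bmr), E_const, E_const_mul,
      E_const_mul, E_const_mul, hr, hs]
  have h6 : (S.EJ j X k ω / X k ω) ^ 2 ≤
      (4 * S.E k (fun ω' => max 0 (1 - X (k + j + 1) ω' / X k ω')) ω) ^ 2 :=
    pow_le_pow_left₀ hu0 hu 2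
  nlinarith

end Pool.Agent.Lib.MP_f0c028_an.SQ
end

section

set_option autoImplicit false

/-! # TASK P5a: a pathwise inequality (pure real sequences)

`mx u k n = max_{k ≤ l ≤ k+n} u l`. `r` marks the restart times.
Proof. Induction on `N`, together with: either `a N = 0`, or there is `κ ≤ N` with `r κ`, `a κ = a N`, `b N = mx u κ (N - κ)`.
Step: if `r (N+1)` nothing is added on the left and the right side does not decrease (`mx` is monotone in the number of steps, and the new term is `≥ 0`),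
and `κ = N+1` works. If not `r (N+1)`: `a (N+1) = a N`, `b (N+1) = max (b N) (u (N+1))`; if `a N = 0` nothing is added on the left; otherwise with `κ` as above
`b (N+1) = mx u κ (N+1-κ)` and the term `k = κ` on the right grows by exactly `a κ ^ 2 (b (N+1) - b N)`, the others do not decrease. -/

namespace Pool.Agent.Lib.MP_f0c028_an.SQ

/-- The maximum of `u` over `k, …, k + n`. -/
noncomputable def mx (u : ℕ → ℝ) (k : ℕ) : ℕ → ℝ
  | 0 => u k
  | n + 1 => max (mx u k n) (u (k + n + 1))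

private theorem P5a_mx_succ (u : ℕ → ℝ) {k N : ℕ} (h : k ≤ N) :
    mx u k (N + 1 - k) = max (mx u k (N - k)) (u (N + 1)) := by
  have e : N + 1 - k = (N - k) + 1 := by omega
  have e2 : k + (N - k) + 1 = N + 1 := by omega
  rw [e]
  show max (mx u k (N - k)) (u (k + (N - k) + 1)) = _
  rw [e2]

open Classical in
theorem path_ineq (a b u : ℕ → ℝ) (r : ℕ → Prop) (ha : ∀ k, 0 ≤ a k) (hu : ∀ k, 0 ≤ u k)
    (ha0 : ¬ r 0 → a 0 = 0) (hak : ∀ k, ¬ r (k + 1) → a (k + 1) = a k) (hb0 : b 0 = u 0)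
    (hbr : ∀ k, r k → b k = u k) (hbk : ∀ k, ¬ r (k + 1) → b (k + 1) = max (b k) (u (k + 1)))
    (N : ℕ) :
    ∑ i ∈ Finset.range N, (if r (i + 1) then 0 else a (i + 1) ^ 2 * (b (i + 1) - b i)) ≤
      ∑ k ∈ Finset.range (N + 1), (if r k then a k ^ 2 * mx u k (N - k) else 0) := by
  have mx_nonneg : ∀ k n, 0 ≤ mx u k n := by
    intro k n
    cases n with
    | zero => exact hu k
    | succ n => exact le_trans (hu _) (le_max_right _ _)
  have key : (∑ i ∈ Finset.range N, (if r (i + 1) then 0 else a (i + 1) ^ 2 * (b (i + 1) - b i)) ≤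
      ∑ k ∈ Finset.range (N + 1), (if r k then a k ^ 2 * mx u k (N - k) else 0)) ∧
      (a N = 0 ∨ ∃ κ, κ ≤ N ∧ r κ ∧ a κ = a N ∧ b N = mx u κ (N - κ)) := by
    induction N with
    | zero =>
      refine ⟨?_, ?_⟩
      · simp only [Finset.range_zero, Finset.sum_empty, zero_add, Finset.range_one,
          Finset.sum_singleton]
        split_ifs
        · exact mul_nonneg (sq_nonneg _) (mx_nonneg _ _)
        · exact le_refl _
      · by_cases h0 : r 0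
        · right
          exact ⟨0, le_refl _, h0, rfl, hb0⟩
        · left
          exact ha0 h0
    | succ N ih =>
      obtain ⟨ih1, ih2⟩ := ih
      have hdiff : ∀ k ∈ Finset.range (N + 1),
          0 ≤ (if r k then a k ^ 2 * mx u k (N + 1 - k) else 0) -
            (if r k then a k ^ 2 * mx u k (N - k) else 0) := by
        intro k hk
        have hkN : k ≤ N := by
          have := Finset.mem_range.1 hk
          omega
        by_cases hr : r k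
        · rw [if_pos hr, if_pos hr, P5a_mx_succ u hkN, ← mul_sub]
          exact mul_nonneg (sq_nonneg _) (sub_nonneg.2 (le_max_left _ _))
        · rw [if_neg hr, if_neg hr, sub_zero]
      rw [Finset.sum_range_succ (n := N), Finset.sum_range_succ (n := N + 1)]
      have hmono : ∑ k ∈ Finset.range (N + 1), (if r k then a k ^ 2 * mx u k (N - k) else 0) ≤
          ∑ k ∈ Finset.range (N + 1), (if r k then a k ^ 2 * mx u k (N + 1 - k) else 0) := by
        have h := Finset.sum_nonneg hdiff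
        rw [Finset.sum_sub_distrib] at h
        linarith
      have hnew : 0 ≤ (if r (N + 1) then a (N + 1) ^ 2 * mx u (N + 1) (N + 1 - (N + 1)) else 0) := by
        split_ifs
        · exact mul_nonneg (sq_nonneg _) (mx_nonneg _ _)
        · exact le_refl _
      by_cases hr : r (N + 1)
      · refine ⟨?_, Or.inr ⟨N + 1, le_refl _, hr, rfl, ?_⟩⟩
        · have e0 : (if r (N + 1) then (0 : ℝ) else a (N + 1) ^ 2 * (b (N + 1) - b N)) = 0 :=
            if_pos hr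
          rw [e0]
          linarith
        · rw [Nat.sub_self]
          exact hbr _ hr
      · have ea : a (N + 1) = a N := hak N hr
        have e0 : (if r (N + 1) then (0 : ℝ) else a (N + 1) ^ 2 * (b (N + 1) - b N)) =
            a (N + 1) ^ 2 * (b (N + 1) - b N) := if_neg hr
        rw [e0]
        rcases ih2 with h0 | ⟨κ, hκN, hrκ, haκ, hbκ⟩
        · refine ⟨?_, Or.inl (ea.trans h0)⟩
          have h00 : a (N + 1) ^ 2 * (b (N + 1) - b N) = 0 := by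
            rw [ea, h0]; ring
          rw [h00]
          linarith
        · have hb1 : b (N + 1) = mx u κ (N + 1 - κ) := by
            rw [P5a_mx_succ u hκN, ← hbκ]
            exact hbk N hr
          refine ⟨?_, Or.inr ⟨κ, by omega, hrκ, haκ.trans ea.symm, hb1⟩⟩
          have h1 := Finset.single_le_sum hdiff
            (Finset.mem_range.2 (by omega : κ < N + 1))
          rw [Finset.sum_sub_distrib, if_pos hrκ, if_pos hrκ, ← mul_sub, ← hb1, ← hbκ, haκ,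
            ← ea] at h1
          linarith
  exact key.1

end Pool.Agent.Lib.MP_f0c028_an.SQ
end

section

set_option autoImplicit false

/-! # TASK P5b: Doob's inequality in conditional form

* `doob`: `S_n := mx (Z · ω) k n`, `0 ≤ Z`. `S_{n+1} > S_n` only if `S_{n+1} = Z_{k+n+1}`, so `(S_{n+1} - S_n) Z_{k+n+1} = (S_{n+1} - S_n) S_{n+1} ≥ (S_{n+1}² - S_n²)/2`.
  Summation by parts: `S_n Z_{k+n} - S_0 Z_k = ∑_{i<n} (S_{i+1} - S_i) Z_{k+i+1} + ∑_{i<n} S_i (Z_{k+i+1} - Z_{k+i})`, so (pathwise, by induction on `n`)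
  `S_n²/2 + S_0²/2 + ∑_{i<n} S_i (Z_{k+i+1} - Z_{k+i}) ≤ S_n Z_{k+n}`. Take `E_k`: the sum has mean `0` (`S_i` is `Ad (k+i)`), so
  `E_k S_n² ≤ 2 E_k (S_n Z_{k+n}) ≤ 2 (E_k S_n²)^(1/2) (E_k Z_{k+n}²)^(1/2)`, so `E_k S_n² ≤ 4 E_k Z_{k+n}²`.
* `sup_inv`: `ζ := √(Y_{k+n}⁻¹)`, `Z_l := E_l ζ` is a nonnegative bounded martingale, `√(Y_l⁻¹) ≤ Z_l` for `l ≤ k+n` (`E_rpow_neg_half`), so
  `mx (Y⁻¹) k n ≤ (mx Z k n)²`, and `E_k (…) ≤ 4 E_k Z_{k+n}² = 4 E_k (Y_{k+n}⁻¹) ≤ 4 E_k X_{k+n} = 4 X_k`. -/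

open MeasureTheory

namespace Pool.Agent.Lib.MP_f0c028_an.SQ

variable {Ω : Type} [MeasurableSpace Ω]

theorem mx_bm {Z : ℕ → Ω → ℝ} (hZ : ∀ k, BM (Z k)) (k n : ℕ) :
    BM (fun ω => mx (fun l => Z l ω) k n) := by
  induction n with
  | zero => exact hZ k
  | succ n ih => exact BM.max ih (hZ (k + n + 1))

private theorem P5b_mono (u : ℕ → ℝ) (k n : ℕ) : mx u k n ≤ mx u k (n + 1) := le_max_left _ _

private theorem P5b_nonneg {u : ℕ → ℝ} (h : ∀ l, 0 ≤ u l) (k n : ℕ) : 0 ≤ mx u k n := by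
  induction n with
  | zero => exact h k
  | succ n ih => exact le_trans ih (le_max_left _ _)

private theorem P5b_path (u : ℕ → ℝ) (k n : ℕ) :
    mx u k n ^ 2 / 2 + u k ^ 2 / 2 +
      ∑ i ∈ Finset.range n, mx u k i * (u (k + i + 1) - u (k + i)) ≤ mx u k n * u (k + n) := by
  induction n with
  | zero =>
    simp only [mx, Finset.range_zero, Finset.sum_empty, add_zero]
    nlinarith
  | succ n ih =>
    rw [Finset.sum_range_succ]
    have h1 : (mx u k (n + 1) ^ 2 - mx u k n ^ 2) / 2 ≤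
        (mx u k (n + 1) - mx u k n) * u (k + n + 1) := by
      rcases le_total (u (k + n + 1)) (mx u k n) with h | h
      · have h2 : mx u k (n + 1) = mx u k n := max_eq_left h
        rw [h2]
        simp
      · have h2 : mx u k (n + 1) = u (k + n + 1) := max_eq_right h
        rw [← h2]
        have h3 := P5b_mono u k n
        nlinarith
    have h4 : u (k + (n + 1)) = u (k + n + 1) := rfl
    rw [h4]
    nlinarith

private theorem P5b_ad {S : Sp Ω} {Z : ℕ → Ω → ℝ} (hZ : S.Mart Z) (k n : ℕ) :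
    S.Ad (k + n) (fun ω => mx (fun l => Z l ω) k n) := by
  induction n with
  | zero => exact hZ.ad k
  | succ n ih =>
    intro ω η
    have h1 := ad_mono S (Nat.le_succ (k + n)) ih ω η
    have h2 := hZ.ad (k + n + 1) ω η
    change max (mx (fun l => Z l (S.s (k + (n + 1)) ω η)) k n) (Z (k + n + 1) (S.s (k + (n + 1)) ω η)) =
      max (mx (fun l => Z l ω) k n) (Z (k + n + 1) ω)
    exact congrArg₂ max h1 h2

theorem doob {S : Sp Ω} {Z : ℕ → Ω → ℝ} (hZ : S.Mart Z) (h0 : ∀ k ω, 0 ≤ Z k ω) (k n : ℕ)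
    (ω : Ω) :
    S.E k (fun ω' => mx (fun l => Z l ω') k n ^ 2) ω ≤
      4 * S.E k (fun ω' => Z (k + n) ω' ^ 2) ω := by
  have hM : ∀ i, BM (fun ω' => mx (fun l => Z l ω') k i) := fun i => mx_bm hZ.bm k i
  have hterm : ∀ i, BM (fun ω' => mx (fun l => Z l ω') k i * (Z (k + i + 1) ω' - Z (k + i) ω')) :=
    fun i => (hM i).mul ((hZ.bm _).sub (hZ.bm _))
  have hsum : BM (fun ω' => ∑ i ∈ Finset.range n,
      mx (fun l => Z l ω') k i * (Z (k + i + 1) ω' - Z (k + i) ω')) :=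
    BM.sum (Finset.range n) (f := fun i ω' =>
      mx (fun l => Z l ω') k i * (Z (k + i + 1) ω' - Z (k + i) ω')) (fun i _ => hterm i)
  have hzero : S.E k (fun ω' => ∑ i ∈ Finset.range n,
      mx (fun l => Z l ω') k i * (Z (k + i + 1) ω' - Z (k + i) ω')) ω = 0 := by
    rw [E_sum S k (Finset.range n) (f := fun i ω' =>
      mx (fun l => Z l ω') k i * (Z (k + i + 1) ω' - Z (k + i) ω')) (fun i _ => hterm i)]
    refine Finset.sum_eq_zero fun i _ => ?_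
    rw [← E_tower S (Nat.le_add_right k i) (hterm i)]
    have h1 : S.E (k + i) (fun ω' => mx (fun l => Z l ω') k i * (Z (k + i + 1) ω' - Z (k + i) ω')) =
        fun _ => 0 := by
      funext ω'
      rw [E_mul S (P5b_ad hZ k i) (fun ω' => Z (k + i + 1) ω' - Z (k + i) ω') ω',
        E_sub S (k + i) (hZ.bm _) (hZ.bm _), hZ.step, E_of_ad S (hZ.ad (k + i)), sub_self, mul_zero]
    rw [h1]
    exact E_const S k 0 ω
  have hbm1 : BM (fun ω' => mx (fun l => Z l ω') k n ^ 2) := (hM n).pow 2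
  have hbm2 : BM (fun ω' => mx (fun l => Z l ω') k n * Z (k + n) ω') := (hM n).mul (hZ.bm _)
  have hA : S.E k (fun ω' => mx (fun l => Z l ω') k n ^ 2) ω ≤
      2 * S.E k (fun ω' => mx (fun l => Z l ω') k n * Z (k + n) ω') ω := by
    have h1 : S.E k (fun ω' => mx (fun l => Z l ω') k n ^ 2) ω ≤
        S.E k (fun ω' => 2 * (mx (fun l => Z l ω') k n * Z (k + n) ω') -
          2 * ∑ i ∈ Finset.range n,
            mx (fun l => Z l ω') k i * (Z (k + i + 1) ω' - Z (k + i) ω')) ω := by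
      refine E_mono S k hbm1 (((BM.const 2).mul hbm2).sub ((BM.const 2).mul hsum)) (fun ω' => ?_) ω
      have h2 := P5b_path (fun l => Z l ω') k n
      have h3 := sq_nonneg (Z k ω')
      linarith
    rw [E_sub S k ((BM.const 2).mul hbm2) ((BM.const 2).mul hsum), E_const_mul, E_const_mul, hzero,
      mul_zero, sub_zero] at h1
    exact h1
  have hC := E_cs S k (hM n) (hZ.bm (k + n)) ω
  have hA0 : 0 ≤ S.E k (fun ω' => mx (fun l => Z l ω') k n ^ 2) ω :=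
    E_nonneg S k (fun ω' => sq_nonneg _) ω
  have hB0 : 0 ≤ S.E k (fun ω' => Z (k + n) ω' ^ 2) ω := E_nonneg S k (fun ω' => sq_nonneg _) ω
  generalize S.E k (fun ω' => mx (fun l => Z l ω') k n ^ 2) ω = A at hA hC hA0 ⊢
  generalize S.E k (fun ω' => Z (k + n) ω' ^ 2) ω = B at hC hB0 ⊢
  generalize S.E k (fun ω' => mx (fun l => Z l ω') k n * Z (k + n) ω') ω = C at hA hC
  rcases hA0.eq_or_lt with h | h
  · rw [← h]
    linarith
  · have h1 : A ^ 2 ≤ 4 * C ^ 2 := by nlinarith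
    have h2 : A * A ≤ A * (4 * B) := by nlinarith
    exact le_of_mul_le_mul_left h2 h

theorem sup_inv {S : Sp Ω} {X Y : ℕ → Ω → ℝ} {K : ℝ} (h : S.Pair X Y K) (k n : ℕ) (ω : Ω) :
    S.E k (fun ω' => mx (fun l => (Y l ω')⁻¹) k n) ω ≤ 4 * X k ω := by
  obtain ⟨c, hc, hlow⟩ := h.low
  have hYlow : ∀ k ω, c ≤ Y k ω := fun k ω => (hlow k ω).2
  have hYinv : ∀ l, BM (fun ω' => (Y l ω')⁻¹) := fun l => (h.mY.bm l).inv hc (hYlow l)
  have hζ : BM (fun ω' => √((Y (k + n) ω')⁻¹)) := (hYinv (k + n)).sqrt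
  set Z : ℕ → Ω → ℝ := fun l ω' => S.E l (fun ω'' => √((Y (k + n) ω'')⁻¹)) ω' with hZdef
  have hZ : S.Mart Z := by
    refine ⟨fun l => E_bm S l hζ, fun l => E_ad S l _, fun l ω' => ?_⟩
    exact E_tower S (Nat.le_succ l) hζ ω'
  have hZ0 : ∀ l ω', 0 ≤ Z l ω' := fun l ω' => E_nonneg S l (fun _ => Real.sqrt_nonneg _) ω'
  have hYZ : ∀ l ω', l ≤ k + n → (Y l ω')⁻¹ ≤ Z l ω' ^ 2 := by
    intro l ω' hl
    have h1 : √((Y l ω')⁻¹) ≤ Z l ω' := E_rpow_neg_half S h.mY hc hYlow hl ω'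
    have h2 : 0 ≤ (Y l ω')⁻¹ := inv_nonneg.2 (hc.le.trans (hYlow l ω'))
    calc (Y l ω')⁻¹ = √((Y l ω')⁻¹) ^ 2 := (Real.sq_sqrt h2).symm
      _ ≤ Z l ω' ^ 2 := pow_le_pow_left₀ (Real.sqrt_nonneg _) h1 2
  have hmx : ∀ ω' m, m ≤ n → mx (fun l => (Y l ω')⁻¹) k m ≤ mx (fun l => Z l ω') k m ^ 2 := by
    intro ω' m
    induction m with
    | zero =>
      intro _
      exact hYZ k ω' (Nat.le_add_right k n)
    | succ m ih =>
      intro hm
      have h1 := ih (by omega)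
      have h2 := hYZ (k + m + 1) ω' (by omega)
      have h3 := P5b_nonneg (u := fun l => Z l ω') (fun l => hZ0 l ω') k m
      have h4 : mx (fun l => Z l ω') k m ≤ mx (fun l => Z l ω') k (m + 1) := le_max_left _ _
      have h5 : Z (k + m + 1) ω' ≤ mx (fun l => Z l ω') k (m + 1) := le_max_right _ _
      refine max_le (h1.trans (pow_le_pow_left₀ h3 h4 2))
        (h2.trans (pow_le_pow_left₀ (hZ0 _ _) h5 2))
  have e1 : S.E k (fun ω' => mx (fun l => (Y l ω')⁻¹) k n) ω ≤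
      S.E k (fun ω' => mx (fun l => Z l ω') k n ^ 2) ω :=
    E_mono S k (mx_bm hYinv k n) ((mx_bm hZ.bm k n).pow 2) (fun ω' => hmx ω' n le_rfl) ω
  have e2 := doob hZ hZ0 k n ω
  have e3 : (fun ω' => Z (k + n) ω' ^ 2) = fun ω' => (Y (k + n) ω')⁻¹ := by
    funext ω'
    have h1 : Z (k + n) ω' = √((Y (k + n) ω')⁻¹) := by
      refine E_of_ad S (f := fun ω'' => √((Y (k + n) ω'')⁻¹)) (fun ω₁ η => ?_) ω'
      simp only
      rw [h.mY.ad (k + n) ω₁ η]
    rw [h1, Real.sq_sqrt (inv_nonneg.2 (hc.le.trans (hYlow (k + n) ω')))]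
  rw [e3] at e2
  have e4 : S.E k (fun ω' => (Y (k + n) ω')⁻¹) ω ≤ S.E k (X (k + n)) ω :=
    E_mono S k (hYinv (k + n)) (h.mX.bm (k + n)) (fun ω' => Pair.inv_le h (k + n) ω') ω
  rw [mart_E S h.mX (Nat.le_add_right k n)] at e4
  linarith

end Pool.Agent.Lib.MP_f0c028_an.SQ
end

section

set_option autoImplicit false

/-! # TASK S4: the square function of `X` (this is where `K` enters)

* `bell_core`: with `a = √x`, `b = √(4K/y)` (so `2 a ≤ b` because `x y ≤ K`), `A, B` for `(x', y')`: `Φ(x,y) = (b - a)²`,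
  `x' - x = A² - a²`, `y' - y = 4K (1/B² - 1/b²)`. Claim
  `(B-A)² - (b-a)² + (b-a)(A²-a²)/a + (b-a) b (b²/B² - 1) ≥ (A-a)²`. Since `b²/B² - 1 ≥ 2 (1 - B/b)`, the left side minus the right side is
  at least `((B-A)-(b-a))² + ((b-a)/a - 1)(A-a)² ≥ 0`.
* `sq_pot`: `Φ_m := (√(4K/Y_m) - √X_m)²`. By `bell_core` at `(X_m, Y_m)`, `(X_{m+1}, Y_{m+1})`, the linear terms have `E_m = 0`:
  `E_m Φ_{m+1} ≥ Φ_m + E_m (√X_{m+1} - √X_m)²`. And
  `(D_m X)² ≤ E_m (√X_{m+1} - √X_m)² E_m (√X_{m+1} + √X_m)² ≤ E_m (√X_{m+1} - √X_m)² · 4 X_m` (`E_cs`), so `(D_m X)²/X_m ≤ 4 (E_m Φ_{m+1} - Φ_m)`.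
  Take `E_k` and sum over `m ∈ Ico k N`: `≤ 4 E_k Φ_N ≤ 4 E_k (4K/Y_N) ≤ 16 K E_k X_N = 16 K X_k` (`0 ≤ √(4K/y) - √x ≤ √(4K/y)`, `1 ≤ X Y`).
* `mu_pot`: `(E_l D_{l+j} X)²/X_l ≤ E_l ((D_{l+j}X)²/X_{l+j})` (`E_cs_div`), then `sq_pot` with `Ico (k+j) (N+j)`, started at `k`. -/

open MeasureTheory

namespace Pool.Agent.Lib.MP_f0c028_an.SQ

variable {Ω : Type} [MeasurableSpace Ω]

theorem bell_core {a b A B : ℝ} (ha : 0 < a) (hb : 2 * a ≤ b) (hA : 0 < A) (hB : 0 < B) :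
    (A - a) ^ 2 ≤ (B - A) ^ 2 - (b - a) ^ 2 + (b - a) * (A ^ 2 - a ^ 2) / a +
      (b - a) * b * (b ^ 2 / B ^ 2 - 1) := by
  have hb0 : 0 < b := by linarith
  have hba : 0 < b - a := by linarith
  have h1 : 2 * (b - B) ≤ b * (b ^ 2 / B ^ 2 - 1) := by
    have : b * (b ^ 2 / B ^ 2 - 1) - 2 * (b - B) = (B - b) ^ 2 * (2 * B + b) / B ^ 2 := by
      field_simp
      ring
    have h2 : 0 ≤ (B - b) ^ 2 * (2 * B + b) / B ^ 2 := by positivity
    linarith
  have h3 : (b - a) * (2 * (b - B)) ≤ (b - a) * b * (b ^ 2 / B ^ 2 - 1) := by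
    rw [mul_assoc]
    exact mul_le_mul_of_nonneg_left h1 hba.le
  have h4 : (b - a) * (A ^ 2 - a ^ 2) / a = 2 * (b - a) * (A - a) + (b - a) / a * (A - a) ^ 2 := by
    field_simp
    ring
  have h5 : 1 ≤ (b - a) / a := by
    rw [le_div_iff₀ ha]
    linarith
  have h6 : (A - a) ^ 2 ≤ (b - a) / a * (A - a) ^ 2 := le_mul_of_one_le_left (sq_nonneg _) h5
  rw [h4]
  nlinarith [sq_nonneg ((B - A) - (b - a))]

/-- The Bellman potential. -/
private noncomputable def s4Phi (X Y : ℕ → Ω → ℝ) (K : ℝ) (m : ℕ) (ω : Ω) : ℝ :=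
  (√(4 * K / Y m ω) - √(X m ω)) ^ 2

private theorem s4_phi_bm {S : Sp Ω} {X Y : ℕ → Ω → ℝ} {K : ℝ} (h : S.Pair X Y K) (m : ℕ) :
    BM (s4Phi X Y K m) := by
  obtain ⟨c, hc, hl⟩ := h.low
  have h1 : BM (fun ω => 4 * K / Y m ω) :=
    BM.div (BM.const (4 * K)) (h.mY.bm m) hc (fun ω => (hl m ω).2)
  exact BM.pow (BM.sub (BM.sqrt h1) (BM.sqrt (h.mX.bm m))) 2

private theorem s4_K {S : Sp Ω} {X Y : ℕ → Ω → ℝ} {K : ℝ} (h : S.Pair X Y K) (ω : Ω) :
    1 ≤ K := (h.one 0 ω).trans (h.le 0 ω)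

private theorem s4_sd_bm {S : Sp Ω} {X Y : ℕ → Ω → ℝ} {K : ℝ} (h : S.Pair X Y K) (m : ℕ) :
    BM (fun ω' => (√(X (m + 1) ω') - √(X m ω')) ^ 2) :=
  BM.pow (BM.sub (BM.sqrt (h.mX.bm _)) (BM.sqrt (h.mX.bm _))) 2

private theorem s4_step {S : Sp Ω} {X Y : ℕ → Ω → ℝ} {K : ℝ} (h : S.Pair X Y K) (m : ℕ) (ω : Ω) :
    S.E m (fun ω' => (√(X (m + 1) ω') - √(X m ω')) ^ 2) ω ≤
      S.E m (s4Phi X Y K (m + 1)) ω - s4Phi X Y K m ω := by
  obtain ⟨c, hc, hl⟩ := h.low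
  have hK := s4_K h ω
  set al : Ω → ℝ := fun ω' => (√(4 * K / Y m ω') - √(X m ω')) / √(X m ω') with hal
  set be : Ω → ℝ := fun ω' => (√(4 * K / Y m ω') - √(X m ω')) * √(4 * K / Y m ω') / Y m ω' with hbe
  have hXad : S.Ad m (X m) := h.mX.ad m
  have hYad : S.Ad m (Y m) := h.mY.ad m
  have halad : S.Ad m al := by
    intro w e
    simp only [hal, hXad w e, hYad w e]
  have hbead : S.Ad m be := by
    intro w e
    simp only [hbe, hXad w e, hYad w e]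
  have hYb : BM (fun ω => 4 * K / Y m ω) :=
    BM.div (BM.const (4 * K)) (h.mY.bm m) hc (fun ω => (hl m ω).2)
  have hsc : 0 < √c := Real.sqrt_pos.2 hc
  have halb : BM al :=
    BM.div (BM.sub (BM.sqrt hYb) (BM.sqrt (h.mX.bm m))) (BM.sqrt (h.mX.bm m)) hsc
      (fun ω => Real.sqrt_le_sqrt (hl m ω).1)
  have hbeb : BM be :=
    BM.div (BM.mul (BM.sub (BM.sqrt hYb) (BM.sqrt (h.mX.bm m))) (BM.sqrt hYb)) (h.mY.bm m) hc
      (fun ω => (hl m ω).2)
  -- pointwise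
  have hpt : ∀ w : Ω, (√(X (m + 1) w) - √(X m w)) ^ 2 ≤
      (s4Phi X Y K (m + 1) w - s4Phi X Y K m w) +
        (al w * (X (m + 1) w - X m w) + be w * (Y (m + 1) w - Y m w)) := by
    intro w
    have hX0 : 0 < X m w := hc.trans_le (hl m w).1
    have hX1 : 0 < X (m + 1) w := hc.trans_le (hl (m + 1) w).1
    have hY0 : 0 < Y m w := hc.trans_le (hl m w).2
    have hY1 : 0 < Y (m + 1) w := hc.trans_le (hl (m + 1) w).2
    have hK0 : 0 < 4 * K := by linarith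
    have e1 : √(X m w) ^ 2 = X m w := Real.sq_sqrt hX0.le
    have e2 : √(X (m + 1) w) ^ 2 = X (m + 1) w := Real.sq_sqrt hX1.le
    have e3 : √(4 * K / Y m w) ^ 2 = 4 * K / Y m w := Real.sq_sqrt (div_pos hK0 hY0).le
    have e4 : √(4 * K / Y (m + 1) w) ^ 2 = 4 * K / Y (m + 1) w :=
      Real.sq_sqrt (div_pos hK0 hY1).le
    have hab : 2 * √(X m w) ≤ √(4 * K / Y m w) := by
      apply Real.le_sqrt_of_sq_le
      rw [mul_pow, e1, le_div_iff₀ hY0]
      have := h.le m w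
      nlinarith
    have hh := bell_core (Real.sqrt_pos.2 hX0) hab (Real.sqrt_pos.2 hX1)
      (Real.sqrt_pos.2 (div_pos hK0 hY1))
    rw [e1, e2, e3, e4] at hh
    have e5 : 4 * K / Y m w / (4 * K / Y (m + 1) w) - 1 = (Y (m + 1) w - Y m w) / Y m w := by
      field_simp
    rw [e5] at hh
    have e6 : (√(4 * K / Y m w) - √(X m w)) * (X (m + 1) w - X m w) / √(X m w) =
        al w * (X (m + 1) w - X m w) := by
      simp only [hal]
      ring
    have e7 : (√(4 * K / Y m w) - √(X m w)) * √(4 * K / Y m w) *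
        ((Y (m + 1) w - Y m w) / Y m w) = be w * (Y (m + 1) w - Y m w) := by
      simp only [hbe]
      ring
    rw [e6, e7] at hh
    simp only [s4Phi]
    linarith
  have hPb1 := s4_phi_bm h (m + 1)
  have hPb0 := s4_phi_bm h m
  have hX1b := BM.sub (h.mX.bm (m + 1)) (h.mX.bm m)
  have hY1b := BM.sub (h.mY.bm (m + 1)) (h.mY.bm m)
  have hbm := BM.add (BM.sub hPb1 hPb0) (BM.add (BM.mul halb hX1b) (BM.mul hbeb hY1b))
  have hmono := E_mono S m (s4_sd_bm h m) hbm hpt ω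
  rw [E_add S m (BM.sub hPb1 hPb0) (BM.add (BM.mul halb hX1b) (BM.mul hbeb hY1b)),
    E_add S m (BM.mul halb hX1b) (BM.mul hbeb hY1b), E_mul S halad, E_mul S hbead,
    E_sub S m (h.mX.bm (m + 1)) (h.mX.bm m), E_sub S m (h.mY.bm (m + 1)) (h.mY.bm m),
    E_sub S m hPb1 hPb0, h.mX.step, h.mY.step, E_of_ad S hXad, E_of_ad S hYad, sub_self, sub_self,
    mul_zero, mul_zero, add_zero, add_zero] at hmono
  have hPad : S.Ad m (s4Phi X Y K m) := by
    intro w e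
    simp only [s4Phi, hXad w e, hYad w e]
  rw [E_of_ad S hPad] at hmono
  exact hmono

private theorem s4_D {S : Sp Ω} {X Y : ℕ → Ω → ℝ} {K : ℝ} (h : S.Pair X Y K) (m : ℕ) (ω : Ω) :
    S.D X m ω ^ 2 / X m ω ≤ 4 * (S.E m (s4Phi X Y K (m + 1)) ω - s4Phi X Y K m ω) := by
  have hX0 := (Pair.pos h m ω).1
  have hst := s4_step h m ω
  have hcs := E_cs S m (f := fun ω' => |√(X (m + 1) ω') - √(X m ω')|)
    (g := fun ω' => √(X (m + 1) ω') + √(X m ω'))
    (BM.abs (BM.sub (BM.sqrt (h.mX.bm _)) (BM.sqrt (h.mX.bm _))))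
    (BM.add (BM.sqrt (h.mX.bm _)) (BM.sqrt (h.mX.bm _))) ω
  have e1 : (fun ω' => |√(X (m + 1) ω') - √(X m ω')| * (√(X (m + 1) ω') + √(X m ω'))) =
      fun ω' => |X (m + 1) ω' - X m ω'| := by
    funext w
    have h0 := (Pair.pos h m w).1
    have h1 := (Pair.pos h (m + 1) w).1
    have h2 : 0 ≤ √(X (m + 1) w) + √(X m w) := by positivity
    rw [← abs_of_nonneg h2, ← abs_mul]
    congr 1
    have e1 := Real.sq_sqrt h0.le
    have e2 := Real.sq_sqrt h1.le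
    nlinarith
  rw [e1] at hcs
  have e2 : (fun ω' => |√(X (m + 1) ω') - √(X m ω')| ^ 2) =
      fun ω' => (√(X (m + 1) ω') - √(X m ω')) ^ 2 := by
    funext w
    exact sq_abs _
  rw [e2] at hcs
  have h3 : S.E m (fun ω' => (√(X (m + 1) ω') + √(X m ω')) ^ 2) ω ≤ 4 * X m ω := by
    have hb1 : BM (fun ω' => (√(X (m + 1) ω') + √(X m ω')) ^ 2) :=
      BM.pow (BM.add (BM.sqrt (h.mX.bm _)) (BM.sqrt (h.mX.bm _))) 2
    have hb3 : BM (fun ω' => X (m + 1) ω' + X m ω') := BM.add (h.mX.bm _) (h.mX.bm _)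
    have hb2 : BM (fun ω' => 2 * (X (m + 1) ω' + X m ω')) :=
      BM.mul (BM.const 2) hb3
    have hmn := E_mono S m hb1 hb2 (fun w => by
      have h0 := (Pair.pos h m w).1
      have h1 := (Pair.pos h (m + 1) w).1
      have e1 := Real.sq_sqrt h0.le
      have e2 := Real.sq_sqrt h1.le
      nlinarith [sq_nonneg (√(X (m + 1) w) - √(X m w))]) ω
    rw [E_const_mul, E_add S m (h.mX.bm _) (h.mX.bm _), h.mX.step, E_of_ad S (h.mX.ad m)] at hmn
    linarith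
  have h4 : 0 ≤ S.E m (fun ω' => (√(X (m + 1) ω') - √(X m ω')) ^ 2) ω :=
    E_nonneg S m (fun w => sq_nonneg _) ω
  rw [div_le_iff₀ hX0]
  have h5 : S.D X m ω ^ 2 ≤
      S.E m (fun ω' => (√(X (m + 1) ω') - √(X m ω')) ^ 2) ω * (4 * X m ω) :=
    hcs.trans (mul_le_mul_of_nonneg_left h3 h4)
  nlinarith

theorem sq_pot {S : Sp Ω} {X Y : ℕ → Ω → ℝ} {K : ℝ} (h : S.Pair X Y K) (k k' N : ℕ)
    (hk : k ≤ k') (ω : Ω) :
    ∑ m ∈ Finset.Ico k' N, S.E k (fun ω' => S.D X m ω' ^ 2 / X m ω') ω ≤ 16 * K * X k ω := by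
  obtain ⟨c, hc, hl⟩ := h.low
  have hK := s4_K h ω
  have hX0 := (Pair.pos h k ω).1
  rcases lt_or_ge N k' with hN | hN
  · rw [Finset.Ico_eq_empty_of_le hN.le, Finset.sum_empty]
    positivity
  have hterm : ∀ m ∈ Finset.Ico k' N, S.E k (fun ω' => S.D X m ω' ^ 2 / X m ω') ω ≤
      4 * (S.E k (s4Phi X Y K (m + 1)) ω - S.E k (s4Phi X Y K m) ω) := by
    intro m hm
    have hkm : k ≤ m := hk.trans (Finset.mem_Ico.1 hm).1
    have hb1 : BM (fun ω' => S.D X m ω' ^ 2 / X m ω') :=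
      BM.div (BM.pow (D_bm S h.mX m) 2) (h.mX.bm m) hc (fun ω => (hl m ω).1)
    have hb3 := E_bm S m (s4_phi_bm h (m + 1))
    have hb2 : BM (fun ω' => 4 * (S.E m (s4Phi X Y K (m + 1)) ω' - s4Phi X Y K m ω')) :=
      BM.mul (BM.const 4) (BM.sub hb3 (s4_phi_bm h m))
    have hmn := E_mono S k hb1 hb2 (fun w => s4_D h m w) ω
    rw [E_const_mul, E_sub S k hb3 (s4_phi_bm h m), E_tower S hkm (s4_phi_bm h (m + 1))] at hmn
    exact hmn
  have hsum := Finset.sum_le_sum hterm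
  rw [← Finset.mul_sum, Finset.sum_Ico_sub (fun m => S.E k (s4Phi X Y K m) ω) hN] at hsum
  have hpos : 0 ≤ S.E k (s4Phi X Y K k') ω := E_nonneg S k (fun w => sq_nonneg _) ω
  have hkN : k ≤ N := hk.trans hN
  have hlast : S.E k (s4Phi X Y K N) ω ≤ 4 * K * X k ω := by
    have hb2 : BM (fun ω' => (4 * K) * X N ω') := BM.mul (BM.const _) (h.mX.bm N)
    have hmn := E_mono S k (s4_phi_bm h N) hb2 (fun w => by
      have hX0 := (Pair.pos h N w).1
      have hY0 := (Pair.pos h N w).2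
      have hK0 : 0 < 4 * K := by linarith
      have e1 : √(X N w) ^ 2 = X N w := Real.sq_sqrt hX0.le
      have e3 : √(4 * K / Y N w) ^ 2 = 4 * K / Y N w := Real.sq_sqrt (div_pos hK0 hY0).le
      have hab : √(X N w) ≤ √(4 * K / Y N w) := by
        apply Real.sqrt_le_sqrt
        rw [le_div_iff₀ hY0]
        have := h.le N w
        nlinarith
      have h0 : 0 ≤ √(X N w) := Real.sqrt_nonneg _
      have h1 : s4Phi X Y K N w ≤ 4 * K / Y N w := by
        rw [← e3]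
        simp only [s4Phi]
        apply pow_le_pow_left₀ (by linarith)
        linarith
      have h2 := Pair.inv_le h N w
      calc s4Phi X Y K N w ≤ 4 * K / Y N w := h1
        _ = 4 * K * (Y N w)⁻¹ := by rw [div_eq_mul_inv]
        _ ≤ 4 * K * X N w := mul_le_mul_of_nonneg_left h2 hK0.le) ω
    rw [E_const_mul, mart_E S h.mX hkN] at hmn
    exact hmn
  linarith

theorem mu_pot {S : Sp Ω} {X Y : ℕ → Ω → ℝ} {K : ℝ} (h : S.Pair X Y K) (j k N : ℕ) (ω : Ω) :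
    ∑ l ∈ Finset.Ico k N, S.E k (fun ω' => S.EJ j X l ω' ^ 2 / X l ω') ω ≤ 16 * K * X k ω := by
  obtain ⟨c, hc, hl⟩ := h.low
  have hterm : ∀ l ∈ Finset.Ico k N, S.E k (fun ω' => S.EJ j X l ω' ^ 2 / X l ω') ω ≤
      S.E k (fun ω' => S.D X (l + j) ω' ^ 2 / X (l + j) ω') ω := by
    intro l hlm
    have hkl : k ≤ l := (Finset.mem_Ico.1 hlm).1
    have hb1 : BM (fun ω' => S.EJ j X l ω' ^ 2 / X l ω') :=
      BM.div (BM.pow (EJ_bm S h.mX j l) 2) (h.mX.bm l) hc (fun ω => (hl l ω).1)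
    have hb2 : BM (fun ω' => S.D X (l + j) ω' ^ 2 / X (l + j) ω') :=
      BM.div (BM.pow (D_bm S h.mX (l + j)) 2) (h.mX.bm (l + j)) hc (fun ω => (hl (l + j) ω).1)
    have hmn := E_mono S k hb1 (E_bm S l hb2) (fun w => by
      have hX0 := (Pair.pos h l w).1
      have hcs := E_cs_div S l (D_bm S h.mX (l + j)) (h.mX.bm (l + j)) hc
        (fun ω => (hl (l + j) ω).1) w
      rw [mart_E S h.mX (Nat.le_add_right l j)] at hcs
      rw [div_le_iff₀ hX0]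
      exact hcs) ω
    rw [E_tower S hkl hb2] at hmn
    exact hmn
  refine (Finset.sum_le_sum hterm).trans ?_
  have hsp := sq_pot h k (k + j) (N + j) (Nat.le_add_right k j) ω
  rw [← Finset.sum_Ico_add' (fun m => S.E k (fun ω' => S.D X m ω' ^ 2 / X m ω') ω) k N j] at hsp
  exact hsp

end Pool.Agent.Lib.MP_f0c028_an.SQ
end

section

set_option autoImplicit false

/-! # TASK S3: the Carleson embedding theorem

Proof. `N_k := ∑_{l ∈ Ico k N} E_k μ_l`, so `0 ≤ N_k ≤ Λ X_k` and `E_k N_{k+1} = N_k - μ_k` for `k < N` (`E_tower`, `E_of_ad`: `μ_k` is `Ad k`).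
`s_k := X_k + N_k / Λ`, `X_k ≤ s_k ≤ 2 X_k`, `E_k s_{k+1} = s_k - μ_k / Λ`. Since `(E_k F_{k+1})² ≤ E_k (F_{k+1}²/s_{k+1}) E_k s_{k+1}` (`E_cs_div`),
`E_k (F_{k+1}²/s_{k+1}) ≥ F_k²/(s_k - μ_k/Λ) ≥ F_k²/s_k + F_k² μ_k/(Λ s_k²) ≥ F_k²/s_k + F_k² μ_k/(4 Λ X_k²)`
(`1/(s - δ) ≥ 1/s + δ/s²` for `0 ≤ δ < s`). Integrate (`E_int`) and sum over `k < N`:
`∑ ∫ (F_k/X_k)² μ_k ≤ 4 Λ ∫ F_N²/s_N ≤ 4 Λ ∫ q_N ≤ 4 Λ ∫ q_M` (`Q_mono`). -/

open MeasureTheory

namespace Pool.Agent.Lib.MP_f0c028_an.SQ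

variable {Ω : Type} [MeasurableSpace Ω] (S : Sp Ω)

private theorem S3_alg {A s d : ℝ} (hs : s ≠ 0) (hd : s - d ≠ 0) :
    A / (s - d) = A / s + A * (d / (s * (s - d))) := by
  field_simp
  ring

theorem carleson {F X : ℕ → Ω → ℝ} (hF : S.Mart F) (hX : S.Mart X) {c : ℝ} (hc : 0 < c)
    (h : ∀ k ω, c ≤ X k ω) {N M : ℕ} (hM : N ≤ M) {μ : ℕ → Ω → ℝ} (hμ : ∀ k, BM (μ k))
    (hμ0 : ∀ k ω, 0 ≤ μ k ω) (hμa : ∀ k, S.Ad k (μ k)) {Λ : ℝ} (hΛ : 0 < Λ)
    (hN : ∀ k ω, ∑ l ∈ Finset.Ico k N, S.E k (μ l) ω ≤ Λ * X k ω) :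
    ∑ k ∈ Finset.range N, ∫ ω, (F k ω / X k ω) ^ 2 * μ k ω ∂S.P ≤
      4 * Λ * ∫ ω, q F X M ω ∂S.P := by
  have := S.prob
  set NN : ℕ → Ω → ℝ := fun k ω => ∑ l ∈ Finset.Ico k N, S.E k (μ l) ω with hNN
  set s : ℕ → Ω → ℝ := fun k ω => X k ω + Λ⁻¹ * NN k ω with hs
  have hXp : ∀ k ω, 0 < X k ω := fun k ω => hc.trans_le (h k ω)
  have hLi : 0 < Λ⁻¹ := inv_pos.2 hΛ
  have hNbm : ∀ k, BM (NN k) := fun k => BM.sum _ fun l _ => E_bm S k (hμ l)
  have hN0 : ∀ k ω, 0 ≤ NN k ω := fun k ω =>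
    Finset.sum_nonneg fun l _ => E_nonneg S k (hμ0 l) ω
  have hsbm : ∀ k, BM (s k) := fun k => (hX.bm k).add ((BM.const Λ⁻¹).mul (hNbm k))
  have hXs : ∀ k ω, X k ω ≤ s k ω := fun k ω => by
    have := mul_nonneg hLi.le (hN0 k ω)
    simp only [hs]
    linarith
  have hs2 : ∀ k ω, s k ω ≤ 2 * X k ω := fun k ω => by
    have h1 : Λ⁻¹ * NN k ω ≤ Λ⁻¹ * (Λ * X k ω) := mul_le_mul_of_nonneg_left (hN k ω) hLi.le
    rw [← mul_assoc, inv_mul_cancel₀ hΛ.ne', one_mul] at h1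
    simp only [hs]
    linarith
  have hsc : ∀ k ω, c ≤ s k ω := fun k ω => (h k ω).trans (hXs k ω)
  have hsplit : ∀ k ω, k < N → NN k ω = μ k ω + S.E k (NN (k + 1)) ω := by
    intro k ω hk
    have e1 : S.E k (NN (k + 1)) ω = ∑ l ∈ Finset.Ico (k + 1) N, S.E k (μ l) ω := by
      have e2 := E_sum S k (Finset.Ico (k + 1) N) (f := fun l => S.E (k + 1) (μ l))
        (fun l _ => E_bm S (k + 1) (hμ l)) ω
      refine e2.trans (Finset.sum_congr rfl fun l _ => ?_)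
      exact E_tower S (Nat.le_succ k) (hμ l) ω
    rw [e1, ← E_of_ad S (hμa k) ω]
    exact Finset.sum_eq_sum_Ico_succ_bot hk _
  have hEs : ∀ k ω, k < N → S.E k (s (k + 1)) ω = s k ω - Λ⁻¹ * μ k ω := by
    intro k ω hk
    have e1 := E_add S k (hX.bm (k + 1)) ((BM.const Λ⁻¹).mul (hNbm (k + 1))) ω
    have e2 := E_const_mul S k Λ⁻¹ (NN (k + 1)) ω
    have e3 := hX.step k ω
    have e4 := hsplit k ω hk
    have e5 : S.E k (s (k + 1)) ω =
        S.E k (X (k + 1)) ω + S.E k (fun ω' => Λ⁻¹ * NN (k + 1) ω') ω := e1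
    rw [e5, e2, e3]
    simp only [hs]
    rw [e4]
    ring
  have hT : ∀ k, BM (fun ω => F k ω ^ 2 / s k ω) := fun k =>
    ((hF.bm k).pow 2).div (hsbm k) hc (hsc k)
  have hG : ∀ k, BM (fun ω => (F k ω / X k ω) ^ 2 * μ k ω) := fun k =>
    (((hF.bm k).div (hX.bm k) hc (h k)).pow 2).mul (hμ k)
  have key : ∀ k ω, k < N → F k ω ^ 2 / s k ω + (4 * Λ)⁻¹ * ((F k ω / X k ω) ^ 2 * μ k ω) ≤
      S.E k (fun ω' => F (k + 1) ω' ^ 2 / s (k + 1) ω') ω := by
    intro k ω hk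
    have h1 := E_cs_div S k (hF.bm (k + 1)) (hsbm (k + 1)) hc (hsc (k + 1)) ω
    rw [hF.step k ω, hEs k ω hk] at h1
    set T := S.E k (fun ω' => F (k + 1) ω' ^ 2 / s (k + 1) ω') ω with hTd
    have hm0 := hμ0 k ω
    have hx := hXp k ω
    have hpos : X k ω ≤ s k ω - Λ⁻¹ * μ k ω := by
      have e4 := hsplit k ω hk
      have e5 : 0 ≤ S.E k (NN (k + 1)) ω := E_nonneg S k (hN0 (k + 1)) ω
      have e6 := mul_nonneg hLi.le e5
      have e7 : s k ω = X k ω + Λ⁻¹ * NN k ω := rfl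
      rw [e7, e4]
      linarith
    have hd0 : 0 ≤ Λ⁻¹ * μ k ω := mul_nonneg hLi.le hm0
    have hspos : 0 < s k ω := hx.trans_le (hXs k ω)
    have hapos : 0 < s k ω - Λ⁻¹ * μ k ω := hx.trans_le hpos
    have hle2 := hs2 k ω
    have hA0 : 0 ≤ F k ω ^ 2 := sq_nonneg _
    have h2 : F k ω ^ 2 / (s k ω - Λ⁻¹ * μ k ω) ≤ T := (div_le_iff₀ hapos).2 h1
    refine le_trans ?_ h2
    have h3 : (4 * Λ)⁻¹ * ((F k ω / X k ω) ^ 2 * μ k ω) =
        F k ω ^ 2 * (Λ⁻¹ * μ k ω / (4 * X k ω ^ 2)) := by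
      rw [div_pow]
      field_simp
    have h4 : Λ⁻¹ * μ k ω / (4 * X k ω ^ 2) ≤ Λ⁻¹ * μ k ω / (s k ω * (s k ω - Λ⁻¹ * μ k ω)) := by
      refine div_le_div_of_nonneg_left hd0 (mul_pos hspos hapos) ?_
      nlinarith
    have h5 : F k ω ^ 2 / (s k ω - Λ⁻¹ * μ k ω) = F k ω ^ 2 / s k ω +
        F k ω ^ 2 * (Λ⁻¹ * μ k ω / (s k ω * (s k ω - Λ⁻¹ * μ k ω))) :=
      S3_alg hspos.ne' hapos.ne'
    rw [h3, h5]
    have h6 := mul_le_mul_of_nonneg_left h4 hA0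
    linarith
  have hint : ∀ k, k < N → (∫ ω, F k ω ^ 2 / s k ω ∂S.P) +
      (4 * Λ)⁻¹ * ∫ ω, (F k ω / X k ω) ^ 2 * μ k ω ∂S.P ≤
        ∫ ω, F (k + 1) ω ^ 2 / s (k + 1) ω ∂S.P := by
    intro k hk
    rw [← E_int S k (hT (k + 1)), ← integral_const_mul, ← integral_add ((hT k).int S.P)
      (((BM.const (4 * Λ)⁻¹).mul (hG k)).int S.P)]
    exact integral_mono (((hT k).add ((BM.const (4 * Λ)⁻¹).mul (hG k))).int S.P)
      ((E_bm S k (hT (k + 1))).int S.P) fun ω => key k ω hk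
  have hsum : ∀ n, n ≤ N → (∫ ω, F 0 ω ^ 2 / s 0 ω ∂S.P) +
      (4 * Λ)⁻¹ * ∑ k ∈ Finset.range n, ∫ ω, (F k ω / X k ω) ^ 2 * μ k ω ∂S.P ≤
        ∫ ω, F n ω ^ 2 / s n ω ∂S.P := by
    intro n
    induction n with
    | zero => intro _; simp
    | succ n ih =>
      intro hn
      have h1 := ih (Nat.le_of_succ_le hn)
      have h2 := hint n hn
      rw [Finset.sum_range_succ, mul_add]
      linarith
  have h1 := hsum N le_rfl
  have h0 : 0 ≤ ∫ ω, F 0 ω ^ 2 / s 0 ω ∂S.P :=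
    integral_nonneg fun ω => div_nonneg (sq_nonneg _) ((hXp 0 ω).le.trans (hXs 0 ω))
  have h2 : ∫ ω, F N ω ^ 2 / s N ω ∂S.P ≤ ∫ ω, q F X N ω ∂S.P := by
    refine integral_mono ((hT N).int S.P) ((q_bm S hF hX hc h N).int S.P) fun ω => ?_
    exact div_le_div_of_nonneg_left (sq_nonneg _) (hXp N ω) (hXs N ω)
  have h3 := Q_mono S hF hX hc h hM
  have h4 : (4 * Λ)⁻¹ * ∑ k ∈ Finset.range N, ∫ ω, (F k ω / X k ω) ^ 2 * μ k ω ∂S.P ≤
      ∫ ω, q F X M ω ∂S.P := by linarith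
  have h5 : (0 : ℝ) < 4 * Λ := by positivity
  have h6 := mul_le_mul_of_nonneg_left h4 h5.le
  rwa [← mul_assoc, mul_inv_cancel₀ h5.ne', one_mul] at h6

end Pool.Agent.Lib.MP_f0c028_an.SQ
end
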