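import Pool.Agent.Lib.MP_f0c028_an.Mg.G001
import Pool.Agent.Lib.MP_f0c028_an.Mg.G008

section

set_option autoImplicit false

/-! # TASK E1a: the potential `Y^(1-ε)`, small steps

`0 < ε ≤ 1/2`.
* `rpow_le`: `r^(1-ε) ≤ 1 + (1-ε)(r-1) - (ε/4) (max 0 (1-r))²` for `r > 0`. For `r ≥ 1` this is Bernoulli (`Real.one_add_mul_self_le_rpow...`/concavity,
  e.g. `Real.rpow_one_add_le_one_add_mul_self`). For `r < 1`: `φ(r) = 1 + (1-ε)(r-1) - (ε/4)(1-r)² - r^(1-ε)` has `φ(1) = 0` and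
  `φ'(r) = (1-ε) + (ε/2)(1-r) - (1-ε) r^(-ε) ≤ 0` on `(0,1)`, as `r^(-ε) ≥ 1 + ε(1-r)` (`r^(-ε) = exp(-ε log r)`, `-log r ≥ 1-r`) and
  `(1-ε) ε (1-r) ≥ (ε/2)(1-r)`. (Any other proof will do.)
* `step_pot`: with `r = Y_{m+1}/Y_m`: `E_m Y_{m+1}^(1-ε) ≤ Y_m^(1-ε) (1 - (ε/4) E_m u²)`, `u = max 0 (1-r)`, `E_m u² ≥ (E_m u)² = (D_m Y/(2 Y_m))²`
  (`E_m |Y_{m+1} - Y_m| = 2 E_m max 0 (Y_m - Y_{m+1})`), so `(ε/16) (D_m Y)² Y_m^(-1-ε) ≤ Y_m^(1-ε) - E_m Y_{m+1}^(1-ε)`.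
* `small_pot`: take `E_k` and sum over `m ∈ Ico k' N`, `k ≤ k'`; the start is `E_k Y_{k'}^(1-ε) ≤ Y_k^(1-ε)` (concavity:
  `y'^(1-ε) ≤ y^(1-ε) + (1-ε) y^(-ε) (y' - y)`). -/

open MeasureTheory

namespace Pool.Agent.Lib.MP_f0c028_an.SQ

variable {Ω : Type} [MeasurableSpace Ω]

theorem rpow_le {ε r : ℝ} (hε : 0 < ε) (hε2 : ε ≤ 1 / 2) (hr : 0 < r) :
    r ^ (1 - ε) ≤ 1 + (1 - ε) * (r - 1) - ε / 4 * (max 0 (1 - r)) ^ 2 := by
  rcases le_total 1 r with h1 | h1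
  · have h2 : max 0 (1 - r) = 0 := max_eq_left (by linarith)
    rw [h2]
    have h3 := rpow_one_add_le_one_add_mul_self (s := r - 1) (p := 1 - ε) (by linarith)
      (by linarith) (by linarith)
    have h4 : 1 + (r - 1) = r := by ring
    rw [h4] at h3
    nlinarith [h3]
  · have h2 : max 0 (1 - r) = 1 - r := max_eq_right (by linarith)
    rw [h2]
    have h3 := Real.geom_mean_le_arith_mean2_weighted (w₁ := 2 * ε) (w₂ := 1 - 2 * ε)
      (p₁ := √r) (p₂ := r) (by linarith) (by linarith) (Real.sqrt_nonneg r) hr.le (by ring)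
    have h4 : (√r) ^ (2 * ε) * r ^ (1 - 2 * ε) = r ^ (1 - ε) := by
      rw [Real.sqrt_eq_rpow, ← Real.rpow_mul hr.le, ← Real.rpow_add hr]
      congr 1
      ring
    rw [h4] at h3
    have h5 : √r ≤ 1 - (1 - r) / 2 - (1 - r) ^ 2 / 8 := by
      rw [Real.sqrt_le_iff]
      constructor
      · nlinarith
      · have h6 : 0 ≤ 1 - r := by linarith
        have h7 : (1 - (1 - r) / 2 - (1 - r) ^ 2 / 8) ^ 2 = r + (1 - r) ^ 3 / 8 + (1 - r) ^ 4 / 64 := by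
          ring
        rw [h7]
        have h8 : 0 ≤ (1 - r) ^ 3 := pow_nonneg h6 3
        have h9 : 0 ≤ (1 - r) ^ 4 := pow_nonneg h6 4
        linarith
    have h6 : 2 * ε * √r ≤ 2 * ε * (1 - (1 - r) / 2 - (1 - r) ^ 2 / 8) :=
      mul_le_mul_of_nonneg_left h5 (by linarith)
    nlinarith [h3, h6]

theorem rpow_jensen {S : Sp Ω} {Y : ℕ → Ω → ℝ} (hY : S.Mart Y) {c : ℝ} (hc : 0 < c)
    (h : ∀ k ω, c ≤ Y k ω) {ε : ℝ} (hε : 0 < ε) (hε2 : ε ≤ 1 / 2) {k l : ℕ} (hkl : k ≤ l) (ω : Ω) :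
    S.E k (fun ω' => Y l ω' ^ (1 - ε)) ω ≤ Y k ω ^ (1 - ε) := by
  have hY0 : ∀ k ω, 0 < Y k ω := fun k ω => lt_of_lt_of_le hc (h k ω)
  have hbr : BM (fun ω' => Y l ω' / Y k ω') := BM.div (hY.bm l) (hY.bm k) hc (h k)
  have hb2 : BM (fun ω' => 1 + (1 - ε) * (Y l ω' / Y k ω' - 1)) :=
    (BM.const 1).add ((BM.const (1 - ε)).mul (hbr.sub (BM.const 1)))
  have hb3 : BM (fun ω' => Y k ω' ^ (1 - ε)) := BM.rpow (hY.bm k) hc (h k) _
  have hpt : ∀ ω', Y l ω' ^ (1 - ε) ≤ Y k ω' ^ (1 - ε) * (1 + (1 - ε) * (Y l ω' / Y k ω' - 1)) := by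
    intro ω'
    have h1 := rpow_le hε hε2 (r := Y l ω' / Y k ω') (div_pos (hY0 l ω') (hY0 k ω'))
    have h2 : Y l ω' ^ (1 - ε) = Y k ω' ^ (1 - ε) * (Y l ω' / Y k ω') ^ (1 - ε) := by
      rw [← Real.mul_rpow (hY0 k ω').le (div_pos (hY0 l ω') (hY0 k ω')).le,
        mul_div_cancel₀ _ (hY0 k ω').ne']
    rw [h2]
    refine mul_le_mul_of_nonneg_left (h1.trans ?_) (Real.rpow_nonneg (hY0 k ω').le _)
    have h3 : 0 ≤ ε / 4 * (max 0 (1 - Y l ω' / Y k ω')) ^ 2 := by positivity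
    linarith
  have hAd : S.Ad k (fun ω' => Y k ω' ^ (1 - ε)) := by
    intro a b
    show Y k (S.s k a b) ^ (1 - ε) = Y k a ^ (1 - ε)
    rw [hY.ad k a b]
  have h1 := E_mono S k (BM.rpow (hY.bm l) hc (h l) (1 - ε)) (hb3.mul hb2) hpt ω
  rw [E_mul S hAd] at h1
  have h2 : S.E k (fun ω' => 1 + (1 - ε) * (Y l ω' / Y k ω' - 1)) ω = 1 := by
    rw [E_add S k (BM.const 1) ((BM.const (1 - ε)).mul (hbr.sub (BM.const 1))), E_const,
      E_const_mul, E_sub S k hbr (BM.const 1), E_const, E_div S (hY.ad k), mart_E S hY hkl,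
      div_self (hY0 k ω).ne']
    ring
  rw [h2, mul_one] at h1
  exact h1

theorem step_pot {S : Sp Ω} {Y : ℕ → Ω → ℝ} (hY : S.Mart Y) {c : ℝ} (hc : 0 < c)
    (h : ∀ k ω, c ≤ Y k ω) {ε : ℝ} (hε : 0 < ε) (hε2 : ε ≤ 1 / 2) (m : ℕ) (ω : Ω) :
    ε / 16 * (S.D Y m ω ^ 2 * Y m ω ^ (-1 - ε)) ≤
      Y m ω ^ (1 - ε) - S.E m (fun ω' => Y (m + 1) ω' ^ (1 - ε)) ω := by
  have hY0 : ∀ k ω, 0 < Y k ω := fun k ω => lt_of_lt_of_le hc (h k ω)
  have hbr : BM (fun ω' => Y (m + 1) ω' / Y m ω') := BM.div (hY.bm (m + 1)) (hY.bm m) hc (h m)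
  have hbu : BM (fun ω' => max 0 (1 - Y (m + 1) ω' / Y m ω')) :=
    (BM.const 0).max ((BM.const 1).sub hbr)
  have hbl : BM (fun ω' => 1 + (1 - ε) * (Y (m + 1) ω' / Y m ω' - 1)) :=
    (BM.const 1).add ((BM.const (1 - ε)).mul (hbr.sub (BM.const 1)))
  have hbq : BM (fun ω' => ε / 4 * (max 0 (1 - Y (m + 1) ω' / Y m ω')) ^ 2) :=
    (BM.const (ε / 4)).mul (hbu.pow 2)
  have hb3 : BM (fun ω' => Y m ω' ^ (1 - ε)) := BM.rpow (hY.bm m) hc (h m) _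
  have hpt : ∀ ω', Y (m + 1) ω' ^ (1 - ε) ≤ Y m ω' ^ (1 - ε) *
      ((1 + (1 - ε) * (Y (m + 1) ω' / Y m ω' - 1)) -
        ε / 4 * (max 0 (1 - Y (m + 1) ω' / Y m ω')) ^ 2) := by
    intro ω'
    have h1 := rpow_le hε hε2 (r := Y (m + 1) ω' / Y m ω') (div_pos (hY0 (m + 1) ω') (hY0 m ω'))
    have h2 : Y (m + 1) ω' ^ (1 - ε) = Y m ω' ^ (1 - ε) * (Y (m + 1) ω' / Y m ω') ^ (1 - ε) := by
      rw [← Real.mul_rpow (hY0 m ω').le (div_pos (hY0 (m + 1) ω') (hY0 m ω')).le,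
        mul_div_cancel₀ _ (hY0 m ω').ne']
    rw [h2]
    exact mul_le_mul_of_nonneg_left h1 (Real.rpow_nonneg (hY0 m ω').le _)
  have hAd : S.Ad m (fun ω' => Y m ω' ^ (1 - ε)) := by
    intro a b
    show Y m (S.s m a b) ^ (1 - ε) = Y m a ^ (1 - ε)
    rw [hY.ad m a b]
  have h1 := E_mono S m (BM.rpow (hY.bm (m + 1)) hc (h (m + 1)) (1 - ε))
    (hb3.mul (hbl.sub hbq)) hpt ω
  rw [E_mul S hAd] at h1
  have hr1 : S.E m (fun ω' => Y (m + 1) ω' / Y m ω') ω = 1 := by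
    rw [E_div S (hY.ad m), hY.step m ω, div_self (hY0 m ω).ne']
  have h2 : S.E m (fun ω' => 1 + (1 - ε) * (Y (m + 1) ω' / Y m ω' - 1)) ω = 1 := by
    rw [E_add S m (BM.const 1) ((BM.const (1 - ε)).mul (hbr.sub (BM.const 1))), E_const,
      E_const_mul, E_sub S m hbr (BM.const 1), E_const, hr1]
    ring
  rw [E_sub S m hbl hbq, h2, E_const_mul] at h1
  have h3 : S.E m (fun ω' => max 0 (1 - Y (m + 1) ω' / Y m ω')) ω = S.D Y m ω / (2 * Y m ω) := by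
    have e1 : (fun ω' => max 0 (1 - Y (m + 1) ω' / Y m ω')) =
        fun ω' => (1 / 2) * (|Y (m + 1) ω' - Y m ω'| / Y m ω' + (1 - Y (m + 1) ω' / Y m ω')) := by
      funext ω'
      have e2 : 1 - Y (m + 1) ω' / Y m ω' = (Y m ω' - Y (m + 1) ω') / Y m ω' := by
        rw [sub_div, div_self (hY0 m ω').ne']
      have e3 : |Y (m + 1) ω' - Y m ω'| / Y m ω' = |1 - Y (m + 1) ω' / Y m ω'| := by
        rw [e2, abs_div, abs_of_pos (hY0 m ω'), abs_sub_comm]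
      rw [e3]
      rcases le_total 0 (1 - Y (m + 1) ω' / Y m ω') with g | g
      · rw [max_eq_right g, abs_of_nonneg g]; ring
      · rw [max_eq_left g, abs_of_nonpos g]; ring
    have hba : BM (fun ω' => |Y (m + 1) ω' - Y m ω'|) := ((hY.bm (m + 1)).sub (hY.bm m)).abs
    rw [e1, E_const_mul, E_add S m (BM.div hba (hY.bm m) hc (h m)) ((BM.const 1).sub hbr),
      E_div S (hY.ad m), E_sub S m (BM.const 1) hbr, E_const, hr1]
    have e4 : S.E m (fun ω' => |Y (m + 1) ω' - Y m ω'|) ω = S.D Y m ω := rfl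
    rw [e4]
    have := (hY0 m ω).ne'
    field_simp
    ring
  have h4 : (S.E m (fun ω' => max 0 (1 - Y (m + 1) ω' / Y m ω')) ω) ^ 2 ≤
      S.E m (fun ω' => (max 0 (1 - Y (m + 1) ω' / Y m ω')) ^ 2) ω := by
    have e1 := E_cs S m hbu (BM.const 1) ω
    simp only [mul_one, one_pow] at e1
    rw [E_const, mul_one] at e1
    exact e1
  rw [h3] at h4
  have h5 : Y m ω ^ (-1 - ε) = Y m ω ^ (1 - ε) / Y m ω ^ 2 := by
    rw [← Real.rpow_natCast, ← Real.rpow_sub (hY0 m ω)]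
    congr 1
    push_cast
    ring
  have h6 : 0 < Y m ω ^ (1 - ε) := Real.rpow_pos_of_pos (hY0 m ω) _
  have h7 : ε / 16 * (S.D Y m ω ^ 2 * Y m ω ^ (-1 - ε)) =
      Y m ω ^ (1 - ε) * (ε / 4 * (S.D Y m ω / (2 * Y m ω)) ^ 2) := by
    rw [h5]
    have := (hY0 m ω).ne'
    field_simp
    ring
  rw [h7]
  have h8 : Y m ω ^ (1 - ε) * (ε / 4 * (S.D Y m ω / (2 * Y m ω)) ^ 2) ≤ Y m ω ^ (1 - ε) *
      (ε / 4 * S.E m (fun ω' => (max 0 (1 - Y (m + 1) ω' / Y m ω')) ^ 2) ω) := by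
    refine mul_le_mul_of_nonneg_left (mul_le_mul_of_nonneg_left h4 (by linarith)) h6.le
  nlinarith [h1, h8]

theorem small_pot {S : Sp Ω} {Y : ℕ → Ω → ℝ} (hY : S.Mart Y) {c : ℝ} (hc : 0 < c)
    (h : ∀ k ω, c ≤ Y k ω) {ε : ℝ} (hε : 0 < ε) (hε2 : ε ≤ 1 / 2) {k k' : ℕ} (hk : k ≤ k')
    (N : ℕ) (ω : Ω) :
    ∑ m ∈ Finset.Ico k' N, S.E k (fun ω' => S.D Y m ω' ^ 2 * Y m ω' ^ (-1 - ε)) ω ≤
      16 / ε * Y k ω ^ (1 - ε) := by
  have hY0 : ∀ k ω, 0 < Y k ω := fun k ω => lt_of_lt_of_le hc (h k ω)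
  have hbp : ∀ m, BM (fun ω' => Y m ω' ^ (1 - ε)) := fun m => BM.rpow (hY.bm m) hc (h m) _
  have hbd : ∀ m, BM (fun ω' => S.D Y m ω' ^ 2 * Y m ω' ^ (-1 - ε)) := fun m =>
    ((D_bm S hY m).pow 2).mul (BM.rpow (hY.bm m) hc (h m) _)
  have h16 : 0 < 16 / ε := by positivity
  have hnn : ∀ m, 0 ≤ S.E k (fun ω' => Y m ω' ^ (1 - ε)) ω := fun m =>
    E_nonneg S k (fun ω' => Real.rpow_nonneg (hY0 m ω').le _) ω
  have hstep : ∀ m, k ≤ m → S.E k (fun ω' => S.D Y m ω' ^ 2 * Y m ω' ^ (-1 - ε)) ω ≤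
      16 / ε * (S.E k (fun ω' => Y m ω' ^ (1 - ε)) ω - S.E k (fun ω' => Y (m + 1) ω' ^ (1 - ε)) ω) := by
    intro m hkm
    have h1 : ∀ ω', S.D Y m ω' ^ 2 * Y m ω' ^ (-1 - ε) ≤
        16 / ε * (Y m ω' ^ (1 - ε) - S.E m (fun ω'' => Y (m + 1) ω'' ^ (1 - ε)) ω') := by
      intro ω'
      have h2 := step_pot hY hc h hε hε2 m ω'
      have h3 := mul_le_mul_of_nonneg_left h2 h16.le
      have h4 : 16 / ε * (ε / 16 * (S.D Y m ω' ^ 2 * Y m ω' ^ (-1 - ε))) =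
          S.D Y m ω' ^ 2 * Y m ω' ^ (-1 - ε) := by
        have := hε.ne'
        field_simp
      rw [h4] at h3
      exact h3
    have h5 := E_mono S k (hbd m)
      ((BM.const (16 / ε)).mul ((hbp m).sub (E_bm S m (hbp (m + 1))))) h1 ω
    rw [E_const_mul, E_sub S k (hbp m) (E_bm S m (hbp (m + 1))),
      E_tower S hkm (hbp (m + 1))] at h5
    exact h5
  have htel : ∀ M, ∑ m ∈ Finset.Ico k' (k' + M),
      S.E k (fun ω' => S.D Y m ω' ^ 2 * Y m ω' ^ (-1 - ε)) ω ≤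
      16 / ε * (S.E k (fun ω' => Y k' ω' ^ (1 - ε)) ω -
        S.E k (fun ω' => Y (k' + M) ω' ^ (1 - ε)) ω) := by
    intro M
    induction M with
    | zero => simp
    | succ M ih =>
      rw [← Nat.add_assoc, Finset.sum_Ico_succ_top (by omega)]
      have h1 := hstep (k' + M) (by omega)
      linarith
  have hfin : S.E k (fun ω' => Y k' ω' ^ (1 - ε)) ω ≤ Y k ω ^ (1 - ε) :=
    rpow_jensen hY hc h hε hε2 hk ω
  have hpos : 0 ≤ 16 / ε * Y k ω ^ (1 - ε) :=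
    mul_nonneg h16.le (Real.rpow_nonneg (hY0 k ω).le _)
  rcases le_total k' N with hN | hN
  · obtain ⟨M, rfl⟩ := Nat.exists_eq_add_of_le hN
    refine (htel M).trans (mul_le_mul_of_nonneg_left ?_ h16.le)
    have := hnn (k' + M)
    linarith
  · rw [Finset.Ico_eq_empty_of_le hN, Finset.sum_empty]
    exact hpos

end Pool.Agent.Lib.MP_f0c028_an.SQ
end

section

set_option autoImplicit false

/-! # TASK E1b: the potential `Y^(1-ε)`, large jumps over `j` steps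

`T := exp 1 ^ (1/ε)`-type threshold: here `T > 0` is any real with `T^ε ≥ exp 1`, `0 < ε ≤ 1/2`, and
`pb_l = E_l (Y_{l+j} 1[Y_{l+j} > T Y_l]) / Y_l`.
* `big_core`: for `r ≥ 1` with `r^ε ≥ e`: `r^(1-ε) = r/r^ε ≤ r/e ≤ 0.37 r` and `1 + (1-ε)(r-1) ≥ (1-ε) r ≥ r/2`, so
  `r^(1-ε) ≤ 1 + (1-ε)(r-1) - r/8`.
* `big_step`: with `r = Y_{l+j}/Y_l`, use `big_core` where `r > T` (then `r ≥ 1`: if `T < 1`, note `T^ε ≥ e > 1` forces `T > 1`) and `rpow_le` elsewhere; take `E_l`: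
  `pb_l Y_l^(1-ε) / 8 ≤ Y_l^(1-ε) - E_l Y_{l+j}^(1-ε)`.
* `big_pot`: `j ≥ 1`: `∑_{l ∈ Ico k N} E_k (Y_l^(1-ε) - Y_{l+j}^(1-ε)) = ∑_{l ∈ Ico k N} (t_l - t_{l+j})`, `t_l = E_k Y_l^(1-ε)` nonnegative, nonincreasing
  (`rpow_jensen` and `E_tower`), `t_l ≤ Y_k^(1-ε)`: the sum is at most the sum of the first `j` of the `t_l`, so at most `j Y_k^(1-ε)`. For `j = 0` (`T > 1`) `pb = 0`. -/

open MeasureTheory

namespace Pool.Agent.Lib.MP_f0c028_an.SQ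

variable {Ω : Type} [MeasurableSpace Ω]

open Classical in
/-- The relative mass of the large values after `j` steps. -/
noncomputable def Sp.pb (S : Sp Ω) (j : ℕ) (T : ℝ) (Y : ℕ → Ω → ℝ) (l : ℕ) (ω : Ω) : ℝ :=
  S.E l (fun ω' => if T * Y l ω' < Y (l + j) ω' then Y (l + j) ω' else 0) ω / Y l ω

private theorem E1b_bm {S : Sp Ω} {Y : ℕ → Ω → ℝ} (hY : S.Mart Y) (j : ℕ) (T : ℝ) (l : ℕ) :
    BM (fun ω' => if T * Y l ω' < Y (l + j) ω' then Y (l + j) ω' else 0) := by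
  have hp : MeasurableSet {ω' | T * Y l ω' < Y (l + j) ω'} :=
    measurableSet_lt ((hY.bm l).1.const_mul T) (hY.bm (l + j)).1
  exact BM.ite hp (hY.bm (l + j)) (BM.const 0)

theorem pb_facts {S : Sp Ω} {Y : ℕ → Ω → ℝ} (hY : S.Mart Y) {c : ℝ} (hc : 0 < c)
    (h : ∀ k ω, c ≤ Y k ω) (j : ℕ) (T : ℝ) (l : ℕ) :
    BM (S.pb j T Y l) ∧ S.Ad l (S.pb j T Y l) ∧ ∀ ω, 0 ≤ S.pb j T Y l ω ∧ S.pb j T Y l ω ≤ 1 := by
  have hg := E1b_bm hY j T l
  have hpos : ∀ k ω, 0 < Y k ω := fun k ω => hc.trans_le (h k ω)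
  refine ⟨BM.div (E_bm S l hg) (hY.bm l) hc (h l), ?_, ?_⟩
  · intro ω η
    unfold Sp.pb
    rw [E_ad S l _ ω η, hY.ad l ω η]
  · intro ω
    unfold Sp.pb
    constructor
    · refine div_nonneg (E_nonneg S l (fun ω' => ?_) ω) (hpos l ω).le
      split_ifs
      · exact (hpos _ _).le
      · exact le_rfl
    · rw [div_le_one (hpos l ω)]
      have h1 := E_mono S l hg (hY.bm (l + j)) (fun ω' => by
        split_ifs
        · exact le_rfl
        · exact (hpos _ _).le) ω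
      rwa [mart_E S hY (Nat.le_add_right l j)] at h1

theorem big_core {ε r : ℝ} (hε : 0 < ε) (hε2 : ε ≤ 1 / 2) (hr : 1 ≤ r)
    (hT : Real.exp 1 ≤ r ^ ε) : r ^ (1 - ε) ≤ 1 + (1 - ε) * (r - 1) - r / 8 := by
  have hr0 : 0 < r := lt_of_lt_of_le one_pos hr
  have he := Real.exp_one_gt_d9
  have hpos : 0 < r ^ ε := Real.rpow_pos_of_pos hr0 ε
  rw [Real.rpow_sub hr0, Real.rpow_one, div_le_iff₀ hpos]
  have h1 : 3 / 8 * r ≤ 1 + (1 - ε) * (r - 1) - r / 8 := by nlinarith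
  have h2 : (8 / 3 : ℝ) ≤ r ^ ε := by linarith
  have h3 : 3 / 8 * r * (8 / 3) ≤ (1 + (1 - ε) * (r - 1) - r / 8) * r ^ ε :=
    mul_le_mul h1 h2 (by norm_num) (by linarith [mul_pos (show (0 : ℝ) < 3 / 8 by norm_num) hr0])
  linarith

theorem big_step {S : Sp Ω} {Y : ℕ → Ω → ℝ} (hY : S.Mart Y) {c : ℝ} (hc : 0 < c)
    (h : ∀ k ω, c ≤ Y k ω) {ε T : ℝ} (hε : 0 < ε) (hε2 : ε ≤ 1 / 2) (hT0 : 0 < T)
    (hT : Real.exp 1 ≤ T ^ ε) (j l : ℕ) (ω : Ω) :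
    S.pb j T Y l ω * Y l ω ^ (1 - ε) / 8 ≤
      Y l ω ^ (1 - ε) - S.E l (fun ω' => Y (l + j) ω' ^ (1 - ε)) ω := by
  have hpos : ∀ k ω, 0 < Y k ω := fun k ω => hc.trans_le (h k ω)
  have hT1 : 1 < T := by
    by_contra hcon
    push Not at hcon
    have h1 : T ^ ε ≤ 1 := Real.rpow_le_one hT0.le hcon hε.le
    have h2 := Real.exp_one_gt_d9
    linarith
  set g : Ω → ℝ := fun ω' => if T * Y l ω' < Y (l + j) ω' then Y (l + j) ω' else 0 with hg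
  have hgb : BM g := E1b_bm hY j T l
  set A : Ω → ℝ := fun ω' => Y l ω' ^ (1 - ε) / Y l ω' with hA
  have hAb : BM A := BM.div (BM.rpow (hY.bm l) hc (h l) _) (hY.bm l) hc (h l)
  have hAd : S.Ad l A := by
    intro ω η
    simp only [hA]
    rw [hY.ad l ω η]
  have hAY : ∀ ω', A ω' * Y l ω' = Y l ω' ^ (1 - ε) := fun ω' =>
    div_mul_cancel₀ _ (hpos l ω').ne'
  have hApos : ∀ ω', 0 < A ω' := fun ω' => div_pos (Real.rpow_pos_of_pos (hpos l ω') _) (hpos l ω')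
  have key : ∀ ω', Y (l + j) ω' ^ (1 - ε) ≤
      (ε * (A ω' * Y l ω') + (1 - ε) * (A ω' * Y (l + j) ω')) - 1 / 8 * (A ω' * g ω') := by
    intro ω'
    have hy := hpos l ω'
    have hz := hpos (l + j) ω'
    set r := Y (l + j) ω' / Y l ω' with hr
    have hr0 : 0 < r := div_pos hz hy
    have e1 : Y (l + j) ω' = Y l ω' * r := by
      rw [hr]
      field_simp
    have e2 : Y (l + j) ω' ^ (1 - ε) = A ω' * Y l ω' * r ^ (1 - ε) := by
      rw [hAY, e1, Real.mul_rpow hy.le hr0.le]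
    have hAYpos : 0 < A ω' * Y l ω' := mul_pos (hApos ω') hy
    by_cases hb : T * Y l ω' < Y (l + j) ω'
    · have e3 : g ω' = Y (l + j) ω' := if_pos hb
      have hTr : T < r := by
        rw [hr, lt_div_iff₀ hy]
        exact hb
      have h1 := big_core hε hε2 (hT1.trans hTr).le
        (hT.trans (Real.rpow_le_rpow hT0.le hTr.le hε.le))
      have h2 := mul_le_mul_of_nonneg_left h1 hAYpos.le
      rw [e2, e3, e1]
      linarith
    · have e3 : g ω' = 0 := if_neg hb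
      have h1 := rpow_le hε hε2 hr0
      have h3 : 0 ≤ ε / 4 * (max 0 (1 - r)) ^ 2 := by positivity
      have h2 := mul_le_mul_of_nonneg_left (h1.trans (sub_le_self _ h3)) hAYpos.le
      rw [e2, e3, e1]
      linarith
  have b1 : BM (fun ω' => ε * (A ω' * Y l ω')) := (BM.const ε).mul (hAb.mul (hY.bm l))
  have b2 : BM (fun ω' => (1 - ε) * (A ω' * Y (l + j) ω')) :=
    (BM.const (1 - ε)).mul (hAb.mul (hY.bm (l + j)))
  have b3 : BM (fun ω' => 1 / 8 * (A ω' * g ω')) := (BM.const (1 / 8)).mul (hAb.mul hgb)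
  have h1 := E_mono S l (BM.rpow (hY.bm (l + j)) hc (h (l + j)) (1 - ε)) ((b1.add b2).sub b3)
    key ω
  rw [E_sub S l (b1.add b2) b3, E_add S l b1 b2, E_const_mul, E_const_mul, E_const_mul,
    E_mul S hAd, E_mul S hAd, E_mul S hAd, mart_E S hY (Nat.le_add_right l j),
    mart_E S hY (le_refl l)] at h1
  have e4 : S.pb j T Y l ω * Y l ω ^ (1 - ε) / 8 = 1 / 8 * (A ω * S.E l g ω) := by
    show S.E l g ω / Y l ω * Y l ω ^ (1 - ε) / 8 = 1 / 8 * (Y l ω ^ (1 - ε) / Y l ω * S.E l g ω)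
    ring
  rw [e4, ← hAY ω]
  linarith

theorem big_pot {S : Sp Ω} {Y : ℕ → Ω → ℝ} (hY : S.Mart Y) {c : ℝ} (hc : 0 < c)
    (h : ∀ k ω, c ≤ Y k ω) {ε T : ℝ} (hε : 0 < ε) (hε2 : ε ≤ 1 / 2) (hT0 : 0 < T)
    (hT : Real.exp 1 ≤ T ^ ε) (j k N : ℕ) (ω : Ω) :
    ∑ l ∈ Finset.Ico k N, S.E k (fun ω' => S.pb j T Y l ω' * Y l ω' ^ (1 - ε)) ω ≤
      8 * j * Y k ω ^ (1 - ε) := by
  set B := Y k ω ^ (1 - ε) with hB
  have hpos : ∀ k ω, 0 < Y k ω := fun k ω => hc.trans_le (h k ω)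
  have hb : ∀ l, BM (fun ω' => Y l ω' ^ (1 - ε)) := fun l => BM.rpow (hY.bm l) hc (h l) _
  set t : ℕ → ℝ := fun l => S.E k (fun ω' => Y l ω' ^ (1 - ε)) ω with ht
  have ht0 : ∀ l, 0 ≤ t l := fun l =>
    E_nonneg S k (fun ω' => (Real.rpow_pos_of_pos (hpos l ω') _).le) ω
  have htB : ∀ l, k ≤ l → t l ≤ B := fun l hl => rpow_jensen hY hc h hε hε2 hl ω
  have h1 : ∀ l ∈ Finset.Ico k N, S.E k (fun ω' => S.pb j T Y l ω' * Y l ω' ^ (1 - ε)) ω ≤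
      8 * (t l - t (l + j)) := by
    intro l hl
    have hkl := (Finset.mem_Ico.1 hl).1
    have h2 := E_mono S k (((pb_facts hY hc h j T l).1).mul (hb l))
      ((BM.const 8).mul ((hb l).sub (E_bm S l (hb (l + j))))) (fun ω' => by
        have := big_step hY hc h hε hε2 hT0 hT j l ω'
        linarith) ω
    rw [E_const_mul, E_sub S k (hb l) (E_bm S l (hb (l + j))), E_tower S hkl (hb (l + j))] at h2
    exact h2
  refine (Finset.sum_le_sum h1).trans ?_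
  rw [← Finset.mul_sum]
  have h3 : ∑ l ∈ Finset.Ico k N, (t l - t (l + j)) ≤ j * B := by
    rw [Finset.sum_Ico_eq_sum_range]
    set M := N - k
    have e1 := Finset.sum_range_add (fun i => t (k + i)) M j
    have e2 := Finset.sum_range_add (fun i => t (k + i)) j M
    rw [add_comm j M, e1] at e2
    have e3 : ∑ i ∈ Finset.range M, t (k + (j + i)) = ∑ i ∈ Finset.range M, t (k + i + j) :=
      Finset.sum_congr rfl fun i _ => by rw [show k + (j + i) = k + i + j by ring]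
    rw [e3] at e2
    rw [Finset.sum_sub_distrib]
    have e4 : 0 ≤ ∑ i ∈ Finset.range j, t (k + (M + i)) := Finset.sum_nonneg fun i _ => ht0 _
    have e5 : ∑ i ∈ Finset.range j, t (k + i) ≤ ∑ _i ∈ Finset.range j, B :=
      Finset.sum_le_sum fun i _ => htB _ (Nat.le_add_right k i)
    rw [Finset.sum_const, Finset.card_range, nsmul_eq_mul] at e5
    linarith
  linarith

end Pool.Agent.Lib.MP_f0c028_an.SQ
end

section

set_option autoImplicit false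

/-! # TASK E1: the lookahead potential, cost `j + 2` (the heart of the matter)

`n = j + 2`, `ε = 1/n`, `T = exp n` (`T^ε = e`). Write `m = l + j`, `y_l = EJ j Y l / Y_l`.
`EJ j Y l = E_l (D_m Y) = s_l + b_l` with `s_l = E_l (D_m Y 1[Y_m ≤ T Y_l])`, `b_l = E_l (D_m Y 1[Y_m > T Y_l]) ≤ 2 Y_l pb_l` (`D_le`), `pb_l ≤ 1`.
* `s_l² ≤ E_l ((D_m Y)² Y_m^(-1-ε)) E_l (Y_m^(1+ε) 1[Y_m ≤ T Y_l])` and there `Y_m^(1+ε) ≤ Y_m (T Y_l)^ε = e Y_m Y_l^ε`, so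
  `s_l² ≤ e Y_l^(1+ε) E_l ((D_m Y)² Y_m^(-1-ε))`, so `Y_l^(1-ε) (s_l/Y_l)² = Y_l^(-1-ε) s_l² ≤ e E_l ((D_m Y)² Y_m^(-1-ε))`.
* `Y_l^(1-ε) (b_l/Y_l)² ≤ 4 Y_l^(1-ε) pb_l² ≤ 4 Y_l^(1-ε) pb_l`.
* `Y_l^(1-ε) y_l² ≤ 2 (…) + 2 (…)`; take `E_k`, sum over `l ∈ Ico k N`: `small_pot` (with `m ∈ Ico (k+j) (N+j)`) and `big_pot`:
  `≤ 2 e 16 n Y_k^(1-ε) + 8 · 8 j Y_k^(1-ε) ≤ 200 n Y_k^(1-ε)` (`e ≤ 2.72`). -/

open MeasureTheory

namespace Pool.Agent.Lib.MP_f0c028_an.SQ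

variable {Ω : Type} [MeasurableSpace Ω]

/-- The lookahead energy of `Y`. -/
noncomputable def Sp.ps (S : Sp Ω) (j : ℕ) (Y : ℕ → Ω → ℝ) (l : ℕ) (ω : Ω) : ℝ :=
  Y l ω ^ (1 - 1 / ((j : ℝ) + 2)) * (S.EJ j Y l ω / Y l ω) ^ 2

theorem ps_facts {S : Sp Ω} {Y : ℕ → Ω → ℝ} (hY : S.Mart Y) {c : ℝ} (hc : 0 < c)
    (h : ∀ k ω, c ≤ Y k ω) (j l : ℕ) :
    BM (S.ps j Y l) ∧ S.Ad l (S.ps j Y l) ∧ ∀ ω, 0 ≤ S.ps j Y l ω := by
  refine ⟨?_, ?_, ?_⟩
  · have h1 := BM.rpow (hY.bm l) hc (h l) (1 - 1 / ((j : ℝ) + 2))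
    have h2 := BM.pow (BM.div (EJ_bm S hY j l) (hY.bm l) hc (h l)) 2
    exact BM.mul h1 h2
  · intro ω η
    have h1 : Y l (S.s l ω η) = Y l ω := hY.ad l ω η
    have h2 : S.EJ j Y l (S.s l ω η) = S.EJ j Y l ω := EJ_ad S j Y l ω η
    unfold Sp.ps
    rw [h1, h2]
  · intro ω
    have h0 : 0 ≤ Y l ω := le_trans hc.le (h l ω)
    exact mul_nonneg (Real.rpow_nonneg h0 _) (sq_nonneg _)

theorem small_part {S : Sp Ω} {Y : ℕ → Ω → ℝ} (hY : S.Mart Y) {c : ℝ} (hc : 0 < c)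
    (h : ∀ k ω, c ≤ Y k ω) (j l : ℕ) (ω : Ω) :
    S.ps j Y l ω ≤
      2 * Real.exp 1 * S.E l (fun ω' => S.D Y (l + j) ω' ^ 2 *
        Y (l + j) ω' ^ (-1 - 1 / ((j : ℝ) + 2))) ω +
      8 * (S.pb j (Real.exp ((j : ℝ) + 2)) Y l ω * Y l ω ^ (1 - 1 / ((j : ℝ) + 2))) := by
  classical
  have hn : (0 : ℝ) < (j : ℝ) + 2 := by positivity
  set ε : ℝ := 1 / ((j : ℝ) + 2) with hεdef
  have hε : 0 < ε := by positivity
  set T : ℝ := Real.exp ((j : ℝ) + 2) with hTdef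
  have hTpos : 0 < T := Real.exp_pos _
  have hTε : T ^ ε = Real.exp 1 := by
    rw [hTdef, ← Real.exp_mul, hεdef]
    congr 1
    field_simp
  have hpos : ∀ k ω', 0 < Y k ω' := fun k ω' => lt_of_lt_of_le hc (h k ω')
  have hD0 : ∀ k ω', 0 ≤ S.D Y k ω' := fun k ω' => D_nonneg S Y k ω'
  have hDb : BM (S.D Y (l + j)) := D_bm S hY (l + j)
  have hms : MeasurableSet {ω' | T * Y l ω' < Y (l + j) ω'} :=
    measurableSet_lt (((hY.bm l).1).const_mul T) (hY.bm (l + j)).1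
  set a : Ω → ℝ := fun ω' => if T * Y l ω' < Y (l + j) ω' then 0 else S.D Y (l + j) ω' with ha
  set b : Ω → ℝ := fun ω' => if T * Y l ω' < Y (l + j) ω' then S.D Y (l + j) ω' else 0 with hb
  have haB : BM a := BM.ite hms (BM.const 0) hDb
  have hbB : BM b := BM.ite hms hDb (BM.const 0)
  have hsplit : S.EJ j Y l ω = S.E l a ω + S.E l b ω := by
    rw [← E_add S l haB hbB ω]
    unfold Sp.EJ
    congr 1
    funext ω'
    simp only [ha, hb]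
    split_ifs <;> ring
  have hpb := (pb_facts hY hc h j T l).2.2 ω
  -- the large part
  have hb0 : 0 ≤ S.E l b ω := by
    apply E_nonneg
    intro ω'
    simp only [hb]
    split_ifs
    · exact hD0 _ _
    · exact le_rfl
  have hgB : BM (fun ω' => if T * Y l ω' < Y (l + j) ω' then Y (l + j) ω' else 0) :=
    BM.ite hms (hY.bm (l + j)) (BM.const 0)
  have hb1 : S.E l b ω ≤ 2 * (S.pb j T Y l ω * Y l ω) := by
    have e1 : S.pb j T Y l ω * Y l ω =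
        S.E l (fun ω' => if T * Y l ω' < Y (l + j) ω' then Y (l + j) ω' else 0) ω := by
      unfold Sp.pb
      rw [div_mul_cancel₀ _ (hpos l ω).ne']
    rw [e1, ← E_const_mul S l 2]
    apply E_mono S l hbB (BM.mul (BM.const 2) hgB)
    intro ω'
    simp only [hb]
    split_ifs
    · exact D_le S hY (fun k ω' => (hpos k ω').le) (l + j) ω'
    · simp
  -- the small part
  set A : ℝ := S.E l (fun ω' => S.D Y (l + j) ω' ^ 2 * Y (l + j) ω' ^ (-1 - ε)) ω with hA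
  have hA0 : 0 ≤ A := by
    apply E_nonneg
    intro ω'
    exact mul_nonneg (sq_nonneg _) (Real.rpow_nonneg (hpos _ _).le _)
  have hfB : BM (fun ω' => S.D Y (l + j) ω' * Y (l + j) ω' ^ (-(1 + ε) / 2)) :=
    BM.mul hDb (BM.rpow (hY.bm (l + j)) hc (h (l + j)) _)
  have hggB : BM (fun ω' => if T * Y l ω' < Y (l + j) ω' then 0 else
      Y (l + j) ω' ^ ((1 + ε) / 2)) :=
    BM.ite hms (BM.const 0) (BM.rpow (hY.bm (l + j)) hc (h (l + j)) _)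
  have hcs := E_cs S l hfB hggB ω
  have e1 : (fun ω' => S.D Y (l + j) ω' * Y (l + j) ω' ^ (-(1 + ε) / 2) *
      (if T * Y l ω' < Y (l + j) ω' then 0 else Y (l + j) ω' ^ ((1 + ε) / 2))) = a := by
    funext ω'
    simp only [ha]
    split_ifs
    · simp
    · rw [mul_assoc, ← Real.rpow_add (hpos _ _)]
      have : -(1 + ε) / 2 + (1 + ε) / 2 = 0 := by ring
      rw [this, Real.rpow_zero, mul_one]
  have e2 : (fun ω' => (S.D Y (l + j) ω' * Y (l + j) ω' ^ (-(1 + ε) / 2)) ^ 2) =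
      (fun ω' => S.D Y (l + j) ω' ^ 2 * Y (l + j) ω' ^ (-1 - ε)) := by
    funext ω'
    rw [mul_pow, ← Real.rpow_natCast (Y (l + j) ω' ^ (-(1 + ε) / 2)) 2,
      ← Real.rpow_mul (hpos _ _).le]
    congr 2
    push_cast
    ring
  rw [e1, e2] at hcs
  have e3 : S.E l (fun ω' => (if T * Y l ω' < Y (l + j) ω' then 0 else
      Y (l + j) ω' ^ ((1 + ε) / 2)) ^ 2) ω ≤ Real.exp 1 * (Y l ω ^ ε * Y l ω) := by
    have e4 : Real.exp 1 * (Y l ω ^ ε * Y l ω) =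
        S.E l (fun ω' => Real.exp 1 * (Y l ω' ^ ε * Y (l + j) ω')) ω := by
      rw [E_const_mul]
      congr 1
      rw [E_mul S (g := fun ω' => Y l ω' ^ ε) _ (Y (l + j)) ω,
        mart_E S hY (Nat.le_add_right l j) ω]
      intro ω' η
      show Y l (S.s l ω' η) ^ ε = Y l ω' ^ ε
      rw [hY.ad l ω' η]
    rw [e4]
    apply E_mono S l (BM.pow hggB 2)
      (BM.mul (BM.const _) (BM.mul (BM.rpow (hY.bm l) hc (h l) _) (hY.bm (l + j))))
    intro ω'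
    have p1 := hpos l ω'
    have p2 := hpos (l + j) ω'
    split_ifs with hif
    · have : 0 ≤ Real.exp 1 * (Y l ω' ^ ε * Y (l + j) ω') :=
        mul_nonneg (Real.exp_pos 1).le (mul_nonneg (Real.rpow_nonneg p1.le _) p2.le)
      simpa using this
    · push Not at hif
      have q1 : (Y (l + j) ω' ^ ((1 + ε) / 2)) ^ 2 = Y (l + j) ω' ^ ε * Y (l + j) ω' := by
        rw [← Real.rpow_natCast (Y (l + j) ω' ^ ((1 + ε) / 2)) 2, ← Real.rpow_mul p2.le]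
        have : (1 + ε) / 2 * ((2 : ℕ) : ℝ) = ε + 1 := by push_cast; ring
        rw [this, Real.rpow_add p2, Real.rpow_one]
      rw [q1]
      have q2 : Y (l + j) ω' ^ ε ≤ (T * Y l ω') ^ ε := Real.rpow_le_rpow p2.le hif hε.le
      rw [Real.mul_rpow hTpos.le p1.le, hTε] at q2
      calc Y (l + j) ω' ^ ε * Y (l + j) ω' ≤ (Real.exp 1 * Y l ω' ^ ε) * Y (l + j) ω' :=
            mul_le_mul_of_nonneg_right q2 p2.le
        _ = Real.exp 1 * (Y l ω' ^ ε * Y (l + j) ω') := by ring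
  have hs : (S.E l a ω) ^ 2 ≤ A * (Real.exp 1 * (Y l ω ^ ε * Y l ω)) :=
    hcs.trans (mul_le_mul_of_nonneg_left e3 hA0)
  -- assembly
  have hy := hpos l ω
  set y : ℝ := Y l ω with hydef
  set s : ℝ := S.E l a ω with hsdef
  set b' : ℝ := S.E l b ω with hbdef
  set pb : ℝ := S.pb j T Y l ω with hpbdef
  have hyε : 0 < y ^ (1 - ε) := Real.rpow_pos_of_pos hy _
  have hyy : y ^ (1 - ε) * (y ^ ε * y) = y ^ 2 := by
    rw [← mul_assoc, ← Real.rpow_add hy]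
    have : 1 - ε + ε = 1 := by ring
    rw [this, Real.rpow_one]
    ring
  have hps : S.ps j Y l ω = y ^ (1 - ε) * ((s + b') / y) ^ 2 := by
    unfold Sp.ps
    rw [hsplit]
  rw [hps]
  have hy2 : 0 < y ^ 2 := by positivity
  have k1 : y ^ (1 - ε) * ((s + b') / y) ^ 2 ≤
      2 * (y ^ (1 - ε) * s ^ 2 / y ^ 2) + 2 * (y ^ (1 - ε) * b' ^ 2 / y ^ 2) := by
    have : (s + b') ^ 2 ≤ 2 * s ^ 2 + 2 * b' ^ 2 := by nlinarith [sq_nonneg (s - b')]
    have e : y ^ (1 - ε) * ((s + b') / y) ^ 2 = y ^ (1 - ε) * (s + b') ^ 2 / y ^ 2 := by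
      rw [div_pow]; ring
    rw [e]
    have : y ^ (1 - ε) * (s + b') ^ 2 / y ^ 2 ≤
        y ^ (1 - ε) * (2 * s ^ 2 + 2 * b' ^ 2) / y ^ 2 := by gcongr
    refine this.trans (le_of_eq ?_)
    ring
  have k2 : y ^ (1 - ε) * s ^ 2 / y ^ 2 ≤ Real.exp 1 * A := by
    rw [div_le_iff₀ hy2]
    calc y ^ (1 - ε) * s ^ 2 ≤ y ^ (1 - ε) * (A * (Real.exp 1 * (y ^ ε * y))) := by gcongr
      _ = Real.exp 1 * A * (y ^ (1 - ε) * (y ^ ε * y)) := by ring
      _ = Real.exp 1 * A * y ^ 2 := by rw [hyy]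
  have k3 : y ^ (1 - ε) * b' ^ 2 / y ^ 2 ≤ 4 * (pb * y ^ (1 - ε)) := by
    rw [div_le_iff₀ hy2]
    have r1 : b' ^ 2 ≤ (2 * (pb * y)) ^ 2 := pow_le_pow_left₀ hb0 hb1 2
    have r2 : (2 * (pb * y)) ^ 2 ≤ 4 * pb * y ^ 2 := by
      have : pb * pb ≤ pb * 1 := mul_le_mul_of_nonneg_left hpb.2 hpb.1
      nlinarith [mul_le_mul_of_nonneg_right this hy2.le]
    calc y ^ (1 - ε) * b' ^ 2 ≤ y ^ (1 - ε) * (4 * pb * y ^ 2) := by
          gcongr; exact r1.trans r2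
      _ = 4 * (pb * y ^ (1 - ε)) * y ^ 2 := by ring
  linarith

theorem look_pot {S : Sp Ω} {Y : ℕ → Ω → ℝ} (hY : S.Mart Y) {c : ℝ} (hc : 0 < c)
    (h : ∀ k ω, c ≤ Y k ω) (j k N : ℕ) (ω : Ω) :
    ∑ l ∈ Finset.Ico k N, S.E k (S.ps j Y l) ω ≤
      200 * ((j : ℝ) + 2) * Y k ω ^ (1 - 1 / ((j : ℝ) + 2)) := by
  have hn : (0 : ℝ) < (j : ℝ) + 2 := by positivity
  have hj : (0 : ℝ) ≤ (j : ℝ) := Nat.cast_nonneg j
  have hε : 0 < 1 / ((j : ℝ) + 2) := by positivity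
  have hε2 : 1 / ((j : ℝ) + 2) ≤ 1 / 2 := by
    apply one_div_le_one_div_of_le (by norm_num); linarith
  have hTpos : 0 < Real.exp ((j : ℝ) + 2) := Real.exp_pos _
  have hTε : Real.exp 1 ≤ Real.exp ((j : ℝ) + 2) ^ (1 / ((j : ℝ) + 2)) := by
    rw [← Real.exp_mul]
    apply le_of_eq
    congr 1
    field_simp
  have hpos : ∀ k ω', 0 < Y k ω' := fun k ω' => lt_of_lt_of_le hc (h k ω')
  have hgB : ∀ m, BM (fun ω' => S.D Y m ω' ^ 2 * Y m ω' ^ (-1 - 1 / ((j : ℝ) + 2))) := fun m =>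
    BM.mul (BM.pow (D_bm S hY m) 2) (BM.rpow (hY.bm m) hc (h m) _)
  have hpB : ∀ l, BM (fun ω' => S.pb j (Real.exp ((j : ℝ) + 2)) Y l ω' *
      Y l ω' ^ (1 - 1 / ((j : ℝ) + 2))) := fun l =>
    BM.mul (pb_facts hY hc h j _ l).1 (BM.rpow (hY.bm l) hc (h l) _)
  have hterm : ∀ l ∈ Finset.Ico k N, S.E k (S.ps j Y l) ω ≤
      2 * Real.exp 1 * S.E k (fun ω' => S.D Y (l + j) ω' ^ 2 *
        Y (l + j) ω' ^ (-1 - 1 / ((j : ℝ) + 2))) ω +
      8 * S.E k (fun ω' => S.pb j (Real.exp ((j : ℝ) + 2)) Y l ω' *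
        Y l ω' ^ (1 - 1 / ((j : ℝ) + 2))) ω := by
    intro l hl
    have hkl : k ≤ l := (Finset.mem_Ico.mp hl).1
    have hEb := E_bm S l (hgB (l + j))
    have e1 : S.E k (S.ps j Y l) ω ≤ S.E k (fun ω'' => 2 * Real.exp 1 *
        S.E l (fun ω' => S.D Y (l + j) ω' ^ 2 *
        Y (l + j) ω' ^ (-1 - 1 / ((j : ℝ) + 2))) ω'' +
      8 * (S.pb j (Real.exp ((j : ℝ) + 2)) Y l ω'' * Y l ω'' ^ (1 - 1 / ((j : ℝ) + 2)))) ω := by
      apply E_mono S k (ps_facts hY hc h j l).1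
        (BM.add (BM.mul (BM.const _) hEb) (BM.mul (BM.const 8) (hpB l)))
      intro ω'
      exact small_part hY hc h j l ω'
    refine e1.trans (le_of_eq ?_)
    rw [E_add S k (BM.mul (BM.const _) hEb) (BM.mul (BM.const 8) (hpB l)) ω,
      E_const_mul, E_const_mul, E_tower S hkl (hgB (l + j)) ω]
  refine (Finset.sum_le_sum hterm).trans ?_
  rw [Finset.sum_add_distrib, ← Finset.mul_sum, ← Finset.mul_sum]
  have s1 : ∑ l ∈ Finset.Ico k N, S.E k (fun ω' => S.D Y (l + j) ω' ^ 2 *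
        Y (l + j) ω' ^ (-1 - 1 / ((j : ℝ) + 2))) ω =
      ∑ m ∈ Finset.Ico (k + j) (N + j), S.E k (fun ω' => S.D Y m ω' ^ 2 *
        Y m ω' ^ (-1 - 1 / ((j : ℝ) + 2))) ω := by
    rw [Finset.sum_Ico_add' (fun m => S.E k (fun ω' => S.D Y m ω' ^ 2 *
        Y m ω' ^ (-1 - 1 / ((j : ℝ) + 2))) ω) k N j]
  have s2 := small_pot hY hc h hε hε2 (Nat.le_add_right k j) (N + j) ω
  have s3 := big_pot hY hc h hε hε2 hTpos hTε j k N ω
  rw [← s1] at s2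
  have hy : 0 < Y k ω ^ (1 - 1 / ((j : ℝ) + 2)) := Real.rpow_pos_of_pos (hpos k ω) _
  have hdiv : 16 / (1 / ((j : ℝ) + 2)) = 16 * ((j : ℝ) + 2) := by
    field_simp
  rw [hdiv] at s2
  have he : Real.exp 1 < 2.7182818286 := Real.exp_one_lt_d9
  have he0 := Real.exp_pos 1
  set Z : ℝ := Y k ω ^ (1 - 1 / ((j : ℝ) + 2)) with hZ
  have t1 : 2 * Real.exp 1 * ∑ l ∈ Finset.Ico k N, S.E k (fun ω' => S.D Y (l + j) ω' ^ 2 *
        Y (l + j) ω' ^ (-1 - 1 / ((j : ℝ) + 2))) ω ≤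
      2 * Real.exp 1 * (16 * ((j : ℝ) + 2) * Z) :=
    mul_le_mul_of_nonneg_left s2 (by positivity)
  have hnz : 0 ≤ ((j : ℝ) + 2) * Z := by positivity
  have t2 : 2 * Real.exp 1 * (16 * ((j : ℝ) + 2) * Z) ≤ 88 * (((j : ℝ) + 2) * Z) := by
    nlinarith
  have t3 : 8 * (8 * (j : ℝ) * Z) ≤ 64 * (((j : ℝ) + 2) * Z) := by
    nlinarith [mul_nonneg hj hy.le]
  linarith

end Pool.Agent.Lib.MP_f0c028_an.SQ
end

section

set_option autoImplicit false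

/-! # TASK P1: the principal process

Class one at `(k, ω)`: `G_k²/Y_k ≤ F_k²/X_k`. Put `f_k = F_k/X_k`. Definition by recursion (`Nat.rec`):
`al 0 = f_0` in class one, else `0`; `be 0 = Y_0`; `rs 0` = class one at time `0`;
`rs (k+1)` = class one at time `k+1` and `2 al_k < f_{k+1}`; on `rs (k+1)`: `al (k+1) = f_{k+1}`, `be (k+1) = Y_{k+1}`; off `rs (k+1)`:
`al (k+1) = al_k`, `be (k+1) = min be_k Y_{k+1}`. All the properties are immediate by induction (measurability, boundedness,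
adaptedness jointly; lower bound of `be` by the lower bound of `Y`). `cls`: in class one either `ω ∈ rs k`, `al_k = f_k`, or `f_k ≤ 2 al_k`. -/

open MeasureTheory

namespace Pool.Agent.Lib.MP_f0c028_an.SQ

variable {Ω : Type} [MeasurableSpace Ω]

/-- The properties of the principal process which are used below. -/
structure Sp.Pr (S : Sp Ω) (F X Y al be : ℕ → Ω → ℝ) (rs : ℕ → Set Ω) : Prop where
  al_bm : ∀ k, BM (al k)
  be_bm : ∀ k, BM (be k)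
  rs_meas : ∀ k, MeasurableSet (rs k)
  al_ad : ∀ k, S.Ad k (al k)
  be_ad : ∀ k, S.Ad k (be k)
  rs_ad : ∀ k ω η, S.s k ω η ∈ rs k ↔ ω ∈ rs k
  al_nonneg : ∀ k ω, 0 ≤ al k ω
  al_rs : ∀ k, ∀ ω ∈ rs k, al k ω = F k ω / X k ω
  al_double : ∀ k, ∀ ω ∈ rs (k + 1), 2 * al k ω ≤ al (k + 1) ω
  al_zero : ∀ ω, ω ∉ rs 0 → al 0 ω = 0
  al_keep : ∀ k ω, ω ∉ rs (k + 1) → al (k + 1) ω = al k ω
  be_le : ∀ k ω, be k ω ≤ Y k ω
  be_low : ∃ c : ℝ, 0 < c ∧ ∀ k ω, c ≤ be k ω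
  be_zero : ∀ ω, be 0 ω = Y 0 ω
  be_rs : ∀ k, ∀ ω ∈ rs k, be k ω = Y k ω
  be_keep : ∀ k ω, ω ∉ rs (k + 1) → be (k + 1) ω = min (be k ω) (Y (k + 1) ω)

private def P1_R0 (F G X Y : ℕ → Ω → ℝ) : Set Ω := {ω | G 0 ω ^ 2 / Y 0 ω ≤ F 0 ω ^ 2 / X 0 ω}

private def P1_R (F G X Y : ℕ → Ω → ℝ) (k : ℕ) (a : Ω → ℝ) : Set Ω :=
  {ω | G k ω ^ 2 / Y k ω ≤ F k ω ^ 2 / X k ω ∧ 2 * a ω < F k ω / X k ω}

open Classical in
private noncomputable def P1_al (F G X Y : ℕ → Ω → ℝ) : ℕ → Ω → ℝ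
  | 0 => fun ω => if ω ∈ P1_R0 F G X Y then F 0 ω / X 0 ω else 0
  | k + 1 => fun ω => if ω ∈ P1_R F G X Y (k + 1) (P1_al F G X Y k) then F (k + 1) ω / X (k + 1) ω
      else P1_al F G X Y k ω

open Classical in
private noncomputable def P1_be (F G X Y : ℕ → Ω → ℝ) : ℕ → Ω → ℝ
  | 0 => Y 0
  | k + 1 => fun ω => if ω ∈ P1_R F G X Y (k + 1) (P1_al F G X Y k) then Y (k + 1) ω
      else min (P1_be F G X Y k ω) (Y (k + 1) ω)

private def P1_rs (F G X Y : ℕ → Ω → ℝ) : ℕ → Set Ω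
  | 0 => P1_R0 F G X Y
  | k + 1 => P1_R F G X Y (k + 1) (P1_al F G X Y k)

theorem pr_exists {S : Sp Ω} {F G X Y : ℕ → Ω → ℝ} {K : ℝ} (h : S.Pair X Y K) (hF : S.Mart F)
    (hF0 : ∀ k ω, 0 ≤ F k ω) (hG : S.Mart G) :
    ∃ (al be : ℕ → Ω → ℝ) (rs : ℕ → Set Ω), S.Pr F X Y al be rs ∧
      (∀ k ω, G k ω ^ 2 / Y k ω ≤ F k ω ^ 2 / X k ω → F k ω / X k ω ≤ 2 * al k ω) ∧
      (∀ k, ∀ ω ∈ rs k, G k ω ^ 2 / Y k ω ≤ F k ω ^ 2 / X k ω) := by
  classical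
  obtain ⟨c, hc, hlow⟩ := h.low
  have hfbm : ∀ k, BM (fun ω => F k ω / X k ω) := fun k =>
    BM.div (hF.bm k) (h.mX.bm k) hc fun ω => (hlow k ω).1
  have hf2 : ∀ k, BM (fun ω => F k ω ^ 2 / X k ω) := fun k =>
    BM.div ((hF.bm k).pow 2) (h.mX.bm k) hc fun ω => (hlow k ω).1
  have hg2 : ∀ k, BM (fun ω => G k ω ^ 2 / Y k ω) := fun k =>
    BM.div ((hG.bm k).pow 2) (h.mY.bm k) hc fun ω => (hlow k ω).2
  have hf0 : ∀ k ω, 0 ≤ F k ω / X k ω := fun k ω => div_nonneg (hF0 k ω) (hc.le.trans (hlow k ω).1)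
  have hR0 : MeasurableSet (P1_R0 F G X Y) := measurableSet_le (hg2 0).1 (hf2 0).1
  have hR : ∀ k (a : Ω → ℝ), Measurable a → MeasurableSet (P1_R F G X Y k a) := fun k a ha =>
    (measurableSet_le (hg2 k).1 (hf2 k).1).inter (measurableSet_lt (ha.const_mul 2) (hfbm k).1)
  have hal : ∀ k, BM (P1_al F G X Y k) := by
    intro k
    induction k with
    | zero =>
      exact BM.ite (p := fun ω => ω ∈ P1_R0 F G X Y) hR0 (hfbm 0) (BM.const 0)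
    | succ k ih =>
      exact BM.ite (p := fun ω => ω ∈ P1_R F G X Y (k + 1) (P1_al F G X Y k)) (hR (k + 1) _ ih.1)
        (hfbm (k + 1)) ih
  have hrsm : ∀ k, MeasurableSet (P1_rs F G X Y k) := by
    intro k
    cases k with
    | zero => exact hR0
    | succ k => exact hR (k + 1) _ (hal k).1
  have hbe : ∀ k, BM (P1_be F G X Y k) := by
    intro k
    induction k with
    | zero => exact h.mY.bm 0
    | succ k ih =>
      exact BM.ite (p := fun ω => ω ∈ P1_R F G X Y (k + 1) (P1_al F G X Y k)) (hR (k + 1) _ (hal k).1)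
        (h.mY.bm (k + 1)) (ih.min (h.mY.bm (k + 1)))
  -- adaptedness
  have hR0a : ∀ ω η, S.s 0 ω η ∈ P1_R0 F G X Y ↔ ω ∈ P1_R0 F G X Y := by
    intro ω η
    unfold P1_R0
    show G 0 (S.s 0 ω η) ^ 2 / Y 0 (S.s 0 ω η) ≤ F 0 (S.s 0 ω η) ^ 2 / X 0 (S.s 0 ω η) ↔
      G 0 ω ^ 2 / Y 0 ω ≤ F 0 ω ^ 2 / X 0 ω
    rw [hF.ad 0 ω η, hG.ad 0 ω η, h.mX.ad 0 ω η, h.mY.ad 0 ω η]
  have hRa : ∀ k (a : Ω → ℝ), S.Ad k a → ∀ ω η, S.s k ω η ∈ P1_R F G X Y k a ↔ ω ∈ P1_R F G X Y k a := by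
    intro k a ha ω η
    unfold P1_R
    show (G k (S.s k ω η) ^ 2 / Y k (S.s k ω η) ≤ F k (S.s k ω η) ^ 2 / X k (S.s k ω η) ∧
        2 * a (S.s k ω η) < F k (S.s k ω η) / X k (S.s k ω η)) ↔
      (G k ω ^ 2 / Y k ω ≤ F k ω ^ 2 / X k ω ∧ 2 * a ω < F k ω / X k ω)
    rw [hF.ad k ω η, hG.ad k ω η, h.mX.ad k ω η, h.mY.ad k ω η, ha ω η]
  have hala : ∀ k, S.Ad k (P1_al F G X Y k) := by
    intro k
    induction k with
    | zero =>
      intro ω η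
      show (if S.s 0 ω η ∈ P1_R0 F G X Y then F 0 (S.s 0 ω η) / X 0 (S.s 0 ω η) else 0) =
        (if ω ∈ P1_R0 F G X Y then F 0 ω / X 0 ω else 0)
      rw [hF.ad 0 ω η, h.mX.ad 0 ω η]
      by_cases hω : ω ∈ P1_R0 F G X Y
      · rw [if_pos hω, if_pos ((hR0a ω η).2 hω)]
      · rw [if_neg hω, if_neg fun h' => hω ((hR0a ω η).1 h')]
    | succ k ih =>
      intro ω η
      have ih' : S.Ad (k + 1) (P1_al F G X Y k) := ad_mono S (Nat.le_succ k) ih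
      show (if S.s (k + 1) ω η ∈ P1_R F G X Y (k + 1) (P1_al F G X Y k) then
          F (k + 1) (S.s (k + 1) ω η) / X (k + 1) (S.s (k + 1) ω η) else P1_al F G X Y k (S.s (k + 1) ω η)) =
        (if ω ∈ P1_R F G X Y (k + 1) (P1_al F G X Y k) then F (k + 1) ω / X (k + 1) ω
          else P1_al F G X Y k ω)
      rw [hF.ad (k + 1) ω η, h.mX.ad (k + 1) ω η, ih' ω η]
      by_cases hω : ω ∈ P1_R F G X Y (k + 1) (P1_al F G X Y k)
      · rw [if_pos hω, if_pos ((hRa (k + 1) _ ih' ω η).2 hω)]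
      · rw [if_neg hω, if_neg fun h' => hω ((hRa (k + 1) _ ih' ω η).1 h')]
  have hbea : ∀ k, S.Ad k (P1_be F G X Y k) := by
    intro k
    induction k with
    | zero => exact h.mY.ad 0
    | succ k ih =>
      intro ω η
      have ih' : S.Ad (k + 1) (P1_be F G X Y k) := ad_mono S (Nat.le_succ k) ih
      have ha' : S.Ad (k + 1) (P1_al F G X Y k) := ad_mono S (Nat.le_succ k) (hala k)
      show (if S.s (k + 1) ω η ∈ P1_R F G X Y (k + 1) (P1_al F G X Y k) then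
          Y (k + 1) (S.s (k + 1) ω η) else
            min (P1_be F G X Y k (S.s (k + 1) ω η)) (Y (k + 1) (S.s (k + 1) ω η))) =
        (if ω ∈ P1_R F G X Y (k + 1) (P1_al F G X Y k) then Y (k + 1) ω
          else min (P1_be F G X Y k ω) (Y (k + 1) ω))
      rw [h.mY.ad (k + 1) ω η, ih' ω η]
      by_cases hω : ω ∈ P1_R F G X Y (k + 1) (P1_al F G X Y k)
      · rw [if_pos hω, if_pos ((hRa (k + 1) _ ha' ω η).2 hω)]
      · rw [if_neg hω, if_neg fun h' => hω ((hRa (k + 1) _ ha' ω η).1 h')]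
  have hrsa : ∀ k ω η, S.s k ω η ∈ P1_rs F G X Y k ↔ ω ∈ P1_rs F G X Y k := by
    intro k ω η
    cases k with
    | zero => exact hR0a ω η
    | succ k => exact hRa (k + 1) _ (ad_mono S (Nat.le_succ k) (hala k)) ω η
  -- the pointwise rules
  have al0p : ∀ ω, ω ∈ P1_rs F G X Y 0 → P1_al F G X Y 0 ω = F 0 ω / X 0 ω := fun ω hω => if_pos hω
  have al0n : ∀ ω, ω ∉ P1_rs F G X Y 0 → P1_al F G X Y 0 ω = 0 := fun ω hω => if_neg hω
  have alp : ∀ k ω, ω ∈ P1_rs F G X Y (k + 1) → P1_al F G X Y (k + 1) ω = F (k + 1) ω / X (k + 1) ω :=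
    fun k ω hω => if_pos hω
  have aln : ∀ k ω, ω ∉ P1_rs F G X Y (k + 1) → P1_al F G X Y (k + 1) ω = P1_al F G X Y k ω :=
    fun k ω hω => if_neg hω
  have bep : ∀ k ω, ω ∈ P1_rs F G X Y (k + 1) → P1_be F G X Y (k + 1) ω = Y (k + 1) ω :=
    fun k ω hω => if_pos hω
  have ben : ∀ k ω, ω ∉ P1_rs F G X Y (k + 1) →
      P1_be F G X Y (k + 1) ω = min (P1_be F G X Y k ω) (Y (k + 1) ω) := fun k ω hω => if_neg hω
  have rsd : ∀ k ω, ω ∈ P1_rs F G X Y (k + 1) →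
      G (k + 1) ω ^ 2 / Y (k + 1) ω ≤ F (k + 1) ω ^ 2 / X (k + 1) ω ∧
        2 * P1_al F G X Y k ω < F (k + 1) ω / X (k + 1) ω := fun k ω hω => hω
  have hnn : ∀ k ω, 0 ≤ P1_al F G X Y k ω := by
    intro k ω
    induction k with
    | zero =>
      by_cases hω : ω ∈ P1_rs F G X Y 0
      · rw [al0p ω hω]; exact hf0 0 ω
      · rw [al0n ω hω]
    | succ k ih =>
      by_cases hω : ω ∈ P1_rs F G X Y (k + 1)
      · rw [alp k ω hω]; exact hf0 (k + 1) ω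
      · rw [aln k ω hω]; exact ih
  refine ⟨P1_al F G X Y, P1_be F G X Y, P1_rs F G X Y, ⟨hal, hbe, hrsm, hala, hbea, hrsa, hnn, ?_, ?_, al0n,
    aln, ?_, ⟨c, hc, ?_⟩, fun _ => rfl, ?_, ben⟩, ?_, ?_⟩
  · intro k ω hω
    cases k with
    | zero => exact al0p ω hω
    | succ k => exact alp k ω hω
  · intro k ω hω
    rw [alp k ω hω]
    exact (rsd k ω hω).2.le
  · intro k ω
    cases k with
    | zero => exact le_rfl
    | succ k =>
      by_cases hω : ω ∈ P1_rs F G X Y (k + 1)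
      · rw [bep k ω hω]
      · rw [ben k ω hω]; exact min_le_right _ _
  · intro k ω
    induction k with
    | zero => exact (hlow 0 ω).2
    | succ k ih =>
      by_cases hω : ω ∈ P1_rs F G X Y (k + 1)
      · rw [bep k ω hω]; exact (hlow (k + 1) ω).2
      · rw [ben k ω hω]; exact le_min ih (hlow (k + 1) ω).2
  · intro k ω hω
    cases k with
    | zero => rfl
    | succ k => exact bep k ω hω
  · intro k ω hcl
    cases k with
    | zero =>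
      rw [al0p ω hcl]
      have := hf0 0 ω
      linarith
    | succ k =>
      by_cases hω : ω ∈ P1_rs F G X Y (k + 1)
      · rw [alp k ω hω]
        have := hf0 (k + 1) ω
        linarith
      · rw [aln k ω hω]
        by_contra hcon
        exact hω ⟨hcl, not_le.1 hcon⟩
  · intro k ω hω
    cases k with
    | zero => exact hω
    | succ k => exact (rsd k ω hω).1

end Pool.Agent.Lib.MP_f0c028_an.SQ
end

section

set_option autoImplicit false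

/-! # TASK P2: the mass of the restarts; summation by parts

`RR N = ∑_{k < N} ∫_{rs k} al_k² X_k`.  Put `al_{-1} = 0`.
* `R_bound`: on `rs k`, `al_k² - al_{k-1}² ≥ (3/4) al_k²` (`al_double`), off `rs k` the difference is `0`. For `N ≥ 1`, `al_{N-1}²` telescopes, and for an
  `Ad k` function `φ` (`k ≤ N ≤ M`), `∫ φ X_M = ∫ φ X_k`, `∫ φ F_M = ∫ φ F_k` (`E_int`, `E_mul`, `mart_E`). Let `J = ∫ al_{N-1}² X_M = ∑_{k<N} ∫ (al_k² - al_{k-1}²) X_k`.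
  So `J ≥ (3/4) RR N`. And `al_k² - al_{k-1}² ≤ 2 al_k (al_k - al_{k-1})`, on `rs k` `al_k X_k = F_k`, so
  `J ≤ 2 ∑ ∫ (al_k - al_{k-1}) F_k = 2 ∫ al_{N-1} F_M ≤ 2 (∫ F_M²/X_M)^(1/2) J^(1/2)`, so `J ≤ 4 ∫ q_M`.
* `al_sum`: `∑_k al_k² μ_k = ∑_i (al_i² - al_{i-1}²) ∑_{k ≥ i} μ_k`; `∫ (al_i² - al_{i-1}²) μ_k = ∫ (al_i² - al_{i-1}²) E_i μ_k`; the increments are nonnegative, zero
  off `rs i` and at most `al_i²` on `rs i`. -/

open MeasureTheory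

namespace Pool.Agent.Lib.MP_f0c028_an.SQ

variable {Ω : Type} [MeasurableSpace Ω] {S : Sp Ω} {F X Y al be : ℕ → Ω → ℝ} {rs : ℕ → Set Ω}

/-- The mass of the restarts before time `N`. -/
noncomputable def Sp.RR (S : Sp Ω) (X al : ℕ → Ω → ℝ) (rs : ℕ → Set Ω) (N : ℕ) : ℝ :=
  ∑ k ∈ Finset.range N, ∫ ω, (rs k).indicator (fun ω' => al k ω' ^ 2 * X k ω') ω ∂S.P


/-- The previous value of `al`, zero at time `0`. -/
private def P2_prev (al : ℕ → Ω → ℝ) : ℕ → Ω → ℝ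
  | 0 => fun _ => 0
  | k + 1 => al k

/-- The increment of the square. -/
private def P2_inc (al : ℕ → Ω → ℝ) (k : ℕ) (ω : Ω) : ℝ := al k ω ^ 2 - P2_prev al k ω ^ 2

private theorem P2_prev_bm (hp : S.Pr F X Y al be rs) (k : ℕ) : BM (P2_prev al k) := by
  cases k with
  | zero => exact BM.const 0
  | succ k => exact hp.al_bm k

private theorem P2_prev_ad (hp : S.Pr F X Y al be rs) (k : ℕ) : S.Ad k (P2_prev al k) := by
  cases k with
  | zero => intro ω η; rfl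
  | succ k => exact ad_mono S (Nat.le_succ k) (hp.al_ad k)

private theorem P2_prev_nonneg (hp : S.Pr F X Y al be rs) (k : ℕ) (ω : Ω) :
    0 ≤ P2_prev al k ω := by
  cases k with
  | zero => exact le_refl _
  | succ k => exact hp.al_nonneg k ω

private theorem P2_on (hp : S.Pr F X Y al be rs) (k : ℕ) (ω : Ω) (h : ω ∈ rs k) :
    2 * P2_prev al k ω ≤ al k ω := by
  cases k with
  | zero =>
    show 2 * (0 : ℝ) ≤ _
    rw [mul_zero]
    exact hp.al_nonneg 0 ω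
  | succ k => exact hp.al_double k ω h

private theorem P2_off (hp : S.Pr F X Y al be rs) (k : ℕ) (ω : Ω) (h : ω ∉ rs k) :
    al k ω = P2_prev al k ω := by
  cases k with
  | zero => exact hp.al_zero ω h
  | succ k => exact hp.al_keep k ω h

private theorem P2_inc_bm (hp : S.Pr F X Y al be rs) (k : ℕ) : BM (P2_inc al k) :=
  ((hp.al_bm k).pow 2).sub ((P2_prev_bm hp k).pow 2)

private theorem P2_inc_ad (hp : S.Pr F X Y al be rs) (k : ℕ) : S.Ad k (P2_inc al k) := by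
  intro ω η
  unfold P2_inc
  rw [hp.al_ad k ω η, P2_prev_ad hp k ω η]

private theorem P2_inc_nonneg (hp : S.Pr F X Y al be rs) (k : ℕ) (ω : Ω) :
    0 ≤ P2_inc al k ω := by
  unfold P2_inc
  by_cases h : ω ∈ rs k
  · have h1 := P2_on hp k ω h
    have h2 := P2_prev_nonneg hp k ω
    nlinarith [hp.al_nonneg k ω]
  · rw [P2_off hp k ω h, sub_self]

omit [MeasurableSpace Ω] in
private theorem P2_inc_sum (al : ℕ → Ω → ℝ) (n : ℕ) (ω : Ω) :
    ∑ k ∈ Finset.range (n + 1), P2_inc al k ω = al n ω ^ 2 := by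
  induction n with
  | zero =>
    rw [Finset.sum_range_one]
    show al 0 ω ^ 2 - (0 : ℝ) ^ 2 = _
    ring
  | succ n ih =>
    rw [Finset.sum_range_succ, ih]
    show al n ω ^ 2 + (al (n + 1) ω ^ 2 - al n ω ^ 2) = _
    ring

omit [MeasurableSpace Ω] in
private theorem P2_dif_sum (al : ℕ → Ω → ℝ) (n : ℕ) (ω : Ω) :
    ∑ k ∈ Finset.range (n + 1), (al k ω - P2_prev al k ω) = al n ω := by
  induction n with
  | zero =>
    rw [Finset.sum_range_one]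
    show al 0 ω - (0 : ℝ) = _
    ring
  | succ n ih =>
    rw [Finset.sum_range_succ, ih]
    show al n ω + (al (n + 1) ω - al n ω) = _
    ring

/-- Integrals against a martingale at a later time. -/
private theorem P2_mart_int {G : ℕ → Ω → ℝ} (hG : S.Mart G) {φ : Ω → ℝ} (hφ : BM φ) {k M : ℕ}
    (ha : S.Ad k φ) (hkM : k ≤ M) :
    ∫ ω, φ ω * G M ω ∂S.P = ∫ ω, φ ω * G k ω ∂S.P := by
  rw [← E_int S k (hφ.mul (hG.bm M))]
  refine integral_congr_ae (Filter.Eventually.of_forall fun ω => ?_)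
  show S.E k (fun ω' => φ ω' * G M ω') ω = φ ω * G k ω
  rw [E_mul S ha, mart_E S hG hkM]

private theorem P2_ind_bm (hp : S.Pr F X Y al be rs) (hX : S.Mart X) (k : ℕ) :
    BM (fun ω => (rs k).indicator (fun ω' => al k ω' ^ 2 * X k ω') ω) := by
  have h1 : BM (fun ω' => al k ω' ^ 2 * X k ω') := ((hp.al_bm k).pow 2).mul (hX.bm k)
  obtain ⟨hm, C, hC⟩ := h1
  refine ⟨hm.indicator (hp.rs_meas k), C, fun ω => ?_⟩
  show |(rs k).indicator (fun ω' => al k ω' ^ 2 * X k ω') ω| ≤ C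
  by_cases h : ω ∈ rs k
  · rw [Set.indicator_of_mem h]
    exact hC ω
  · rw [Set.indicator_of_notMem h, abs_zero]
    exact (abs_nonneg _).trans (hC ω)

theorem RR_nonneg (h0 : ∀ k ω, 0 ≤ X k ω) (N : ℕ) : 0 ≤ S.RR X al rs N := by
  unfold Sp.RR
  refine Finset.sum_nonneg fun k _ => integral_nonneg fun ω => ?_
  exact Set.indicator_nonneg (fun ω' _ => mul_nonneg (sq_nonneg _) (h0 k ω')) ω

theorem R_bound {K : ℝ} (h : S.Pair X Y K) (hF : S.Mart F) (hF0 : ∀ k ω, 0 ≤ F k ω)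
    (hp : S.Pr F X Y al be rs) {N M : ℕ} (hM : N ≤ M) :
    S.RR X al rs N ≤ 16 / 3 * ∫ ω, q F X M ω ∂S.P := by
  have := S.prob
  obtain ⟨c, hc, hcl⟩ := h.low
  have hX0 : ∀ k ω, 0 < X k ω := fun k ω => (Pair.pos h k ω).1
  have hcX : ∀ k ω, c ≤ X k ω := fun k ω => (hcl k ω).1
  have hq0 : 0 ≤ ∫ ω, q F X M ω ∂S.P :=
    integral_nonneg fun ω => div_nonneg (sq_nonneg _) (hX0 M ω).le
  cases N with
  | zero =>
    unfold Sp.RR
    rw [Finset.sum_range_zero]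
    positivity
  | succ n =>
    set J : ℝ := ∫ ω, al n ω ^ 2 * X M ω ∂S.P with hJ
    have hkM : ∀ k ∈ Finset.range (n + 1), k ≤ M := fun k hk => by
      have := Finset.mem_range.mp hk
      omega
    have hJ0 : 0 ≤ J := integral_nonneg fun ω => mul_nonneg (sq_nonneg _) (hX0 M ω).le
    -- J as a sum
    have hJs : J = ∑ k ∈ Finset.range (n + 1), ∫ ω, P2_inc al k ω * X k ω ∂S.P := by
      rw [← Finset.sum_congr rfl fun k hk =>
        P2_mart_int h.mX (P2_inc_bm hp k) (P2_inc_ad hp k) (hkM k hk)]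
      rw [← integral_finsetSum _ fun k _ => ((P2_inc_bm hp k).mul (h.mX.bm M)).int S.P, hJ]
      refine integral_congr_ae (Filter.Eventually.of_forall fun ω => ?_)
      show al n ω ^ 2 * X M ω = ∑ k ∈ Finset.range (n + 1), P2_inc al k ω * X M ω
      rw [← Finset.sum_mul, P2_inc_sum]
    have hlow : 3 / 4 * S.RR X al rs (n + 1) ≤ J := by
      rw [hJs]
      unfold Sp.RR
      rw [Finset.mul_sum]
      refine Finset.sum_le_sum fun k _ => ?_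
      rw [← integral_const_mul]
      refine integral_mono (((P2_ind_bm hp h.mX k).int S.P).const_mul _)
        (((P2_inc_bm hp k).mul (h.mX.bm k)).int S.P) fun ω => ?_
      show 3 / 4 * (rs k).indicator (fun ω' => al k ω' ^ 2 * X k ω') ω ≤
        P2_inc al k ω * X k ω
      by_cases hω : ω ∈ rs k
      · rw [Set.indicator_of_mem hω]
        have h1 := P2_on hp k ω hω
        have h2 := P2_prev_nonneg hp k ω
        have h3 : 3 / 4 * al k ω ^ 2 ≤ P2_inc al k ω := by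
          unfold P2_inc
          nlinarith [hp.al_nonneg k ω]
        calc 3 / 4 * (al k ω ^ 2 * X k ω) = 3 / 4 * al k ω ^ 2 * X k ω := by ring
          _ ≤ _ := mul_le_mul_of_nonneg_right h3 (hX0 k ω).le
      · rw [Set.indicator_of_notMem hω, mul_zero]
        exact mul_nonneg (P2_inc_nonneg hp k ω) (hX0 k ω).le
    have hup : J ≤ 2 * ∫ ω, al n ω * F M ω ∂S.P := by
      have h1 : ∫ ω, al n ω * F M ω ∂S.P =
          ∑ k ∈ Finset.range (n + 1), ∫ ω, (al k ω - P2_prev al k ω) * F k ω ∂S.P := by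
        have hbm : ∀ k, BM (fun ω => al k ω - P2_prev al k ω) := fun k =>
          (hp.al_bm k).sub (P2_prev_bm hp k)
        have had : ∀ k, S.Ad k (fun ω => al k ω - P2_prev al k ω) := fun k ω η => by
          show al k _ - P2_prev al k _ = _
          rw [hp.al_ad k ω η, P2_prev_ad hp k ω η]
        rw [← Finset.sum_congr rfl fun k hk => P2_mart_int hF (hbm k) (had k) (hkM k hk)]
        rw [← integral_finsetSum _ fun k _ => ((hbm k).mul (hF.bm M)).int S.P]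
        refine integral_congr_ae (Filter.Eventually.of_forall fun ω => ?_)
        show al n ω * F M ω =
          ∑ k ∈ Finset.range (n + 1), (al k ω - P2_prev al k ω) * F M ω
        rw [← Finset.sum_mul, P2_dif_sum]
      rw [hJs, h1, Finset.mul_sum]
      refine Finset.sum_le_sum fun k _ => ?_
      rw [← integral_const_mul]
      refine integral_mono (((P2_inc_bm hp k).mul (h.mX.bm k)).int S.P)
        (((((hp.al_bm k).sub (P2_prev_bm hp k)).mul (hF.bm k)).int S.P).const_mul _)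
        fun ω => ?_
      show P2_inc al k ω * X k ω ≤ 2 * ((al k ω - P2_prev al k ω) * F k ω)
      unfold P2_inc
      by_cases hω : ω ∈ rs k
      · have h1 := P2_on hp k ω hω
        have h2 := P2_prev_nonneg hp k ω
        have h3 := hp.al_nonneg k ω
        have h4 : F k ω = al k ω * X k ω := by
          rw [hp.al_rs k ω hω, div_mul_cancel₀ _ (hX0 k ω).ne']
        rw [h4]
        have h5 : al k ω ^ 2 - P2_prev al k ω ^ 2 ≤
            2 * ((al k ω - P2_prev al k ω) * al k ω) := by nlinarith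
        calc (al k ω ^ 2 - P2_prev al k ω ^ 2) * X k ω
            ≤ 2 * ((al k ω - P2_prev al k ω) * al k ω) * X k ω :=
              mul_le_mul_of_nonneg_right h5 (hX0 k ω).le
          _ = _ := by ring
      · rw [P2_off hp k ω hω]
        simp
    have hcs : (∫ ω, al n ω * F M ω ∂S.P) ^ 2 ≤ (∫ ω, q F X M ω ∂S.P) * J := by
      have hsX : BM (fun ω => √(X M ω)) := (h.mX.bm M).sqrt
      have hsc : ∀ ω, √c ≤ √(X M ω) := fun ω => Real.sqrt_le_sqrt (hcX M ω)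
      have hb1 : BM (fun ω => F M ω / √(X M ω)) :=
        (hF.bm M).div hsX (Real.sqrt_pos.mpr hc) hsc
      have hb2 : BM (fun ω => al n ω * √(X M ω)) := (hp.al_bm n).mul hsX
      have key := P_cs S hb1 hb2
      have e1 : ∫ ω, F M ω / √(X M ω) * (al n ω * √(X M ω)) ∂S.P =
          ∫ ω, al n ω * F M ω ∂S.P := by
        refine integral_congr_ae (Filter.Eventually.of_forall fun ω => ?_)
        show F M ω / √(X M ω) * (al n ω * √(X M ω)) = al n ω * F M ω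
        have hs : √(X M ω) ≠ 0 := (Real.sqrt_pos.mpr (hX0 M ω)).ne'
        field_simp
      have e2 : ∫ ω, (F M ω / √(X M ω)) ^ 2 ∂S.P = ∫ ω, q F X M ω ∂S.P := by
        refine integral_congr_ae (Filter.Eventually.of_forall fun ω => ?_)
        show (F M ω / √(X M ω)) ^ 2 = F M ω ^ 2 / X M ω
        rw [div_pow, Real.sq_sqrt (hX0 M ω).le]
      have e3 : ∫ ω, (al n ω * √(X M ω)) ^ 2 ∂S.P = J := by
        refine integral_congr_ae (Filter.Eventually.of_forall fun ω => ?_)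
        show (al n ω * √(X M ω)) ^ 2 = al n ω ^ 2 * X M ω
        rw [mul_pow, Real.sq_sqrt (hX0 M ω).le]
      rw [e1, e2, e3] at key
      exact key
    set Q : ℝ := ∫ ω, q F X M ω ∂S.P with hQ
    have hJ4 : J ≤ 4 * Q := by
      have h1 : J ^ 2 ≤ 4 * Q * J := by
        have h2 : J ^ 2 ≤ (2 * ∫ ω, al n ω * F M ω ∂S.P) ^ 2 :=
          pow_le_pow_left₀ hJ0 hup 2
        nlinarith
      rcases hJ0.eq_or_lt with h0 | h0
      · rw [← h0]; positivity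
      · nlinarith
    linarith

theorem al_sum {K : ℝ} (h : S.Pair X Y K) (hp : S.Pr F X Y al be rs) {N : ℕ}
    {μ : ℕ → Ω → ℝ} (hμ : ∀ k, BM (μ k)) (hμ0 : ∀ k ω, 0 ≤ μ k ω) {Λ : ℝ} (hΛ : 0 ≤ Λ)
    (hN : ∀ k ω, ∑ l ∈ Finset.Ico k N, S.E k (μ l) ω ≤ Λ * X k ω) :
    ∑ k ∈ Finset.range N, ∫ ω, al k ω ^ 2 * μ k ω ∂S.P ≤ Λ * S.RR X al rs N := by
  have := S.prob
  have hX0 : ∀ k ω, 0 < X k ω := fun k ω => (Pair.pos h k ω).1
  have hbsum : ∀ i, BM (fun ω => ∑ l ∈ Finset.Ico i N, μ l ω) := fun i =>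
    BM.sum _ fun l _ => hμ l
  have e1 : ∑ k ∈ Finset.range N, ∫ ω, al k ω ^ 2 * μ k ω ∂S.P =
      ∑ i ∈ Finset.range N, ∫ ω, P2_inc al i ω * ∑ l ∈ Finset.Ico i N, μ l ω ∂S.P := by
    rw [← integral_finsetSum _ fun k _ => (((hp.al_bm k).pow 2).mul (hμ k)).int S.P,
      ← integral_finsetSum _ fun i _ => ((P2_inc_bm hp i).mul (hbsum i)).int S.P]
    refine integral_congr_ae (Filter.Eventually.of_forall fun ω => ?_)
    show ∑ k ∈ Finset.range N, al k ω ^ 2 * μ k ω =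
      ∑ i ∈ Finset.range N, P2_inc al i ω * ∑ l ∈ Finset.Ico i N, μ l ω
    have e2 : ∀ k ∈ Finset.range N, al k ω ^ 2 * μ k ω =
        ∑ i ∈ Finset.range (k + 1), P2_inc al i ω * μ k ω := fun k _ => by
      rw [← Finset.sum_mul, P2_inc_sum]
    rw [Finset.sum_congr rfl e2]
    rw [Finset.sum_congr rfl fun i _ => Finset.mul_sum (Finset.Ico i N) (fun l => μ l ω)
      (P2_inc al i ω)]
    rw [Finset.sum_sigma', Finset.sum_sigma']
    refine Finset.sum_bij' (fun x _ => ⟨x.2, x.1⟩) (fun x _ => ⟨x.2, x.1⟩) ?_ ?_ ?_ ?_ ?_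
    · intro x hx
      simp only [Finset.mem_sigma, Finset.mem_range, Finset.mem_Ico] at hx ⊢
      omega
    · intro x hx
      simp only [Finset.mem_sigma, Finset.mem_range, Finset.mem_Ico] at hx ⊢
      omega
    · intro x _; rfl
    · intro x _; rfl
    · intro x _; rfl
  rw [e1]
  unfold Sp.RR
  rw [Finset.mul_sum]
  refine Finset.sum_le_sum fun i _ => ?_
  have e3 : ∫ ω, P2_inc al i ω * ∑ l ∈ Finset.Ico i N, μ l ω ∂S.P =
      ∫ ω, P2_inc al i ω * ∑ l ∈ Finset.Ico i N, S.E i (μ l) ω ∂S.P := by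
    rw [← E_int S i ((P2_inc_bm hp i).mul (hbsum i))]
    refine integral_congr_ae (Filter.Eventually.of_forall fun ω => ?_)
    show S.E i (fun ω' => P2_inc al i ω' * ∑ l ∈ Finset.Ico i N, μ l ω') ω = _
    rw [E_mul S (P2_inc_ad hp i), E_sum S i _ fun l _ => hμ l]
  rw [e3, ← integral_const_mul]
  refine integral_mono
    (((P2_inc_bm hp i).mul (BM.sum _ fun l _ => E_bm S i (hμ l))).int S.P)
    (((P2_ind_bm hp h.mX i).int S.P).const_mul _) fun ω => ?_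
  show P2_inc al i ω * ∑ l ∈ Finset.Ico i N, S.E i (μ l) ω ≤
    Λ * (rs i).indicator (fun ω' => al i ω' ^ 2 * X i ω') ω
  by_cases hω : ω ∈ rs i
  · rw [Set.indicator_of_mem hω]
    have h1 : P2_inc al i ω ≤ al i ω ^ 2 := by
      unfold P2_inc
      nlinarith [sq_nonneg (P2_prev al i ω)]
    calc P2_inc al i ω * ∑ l ∈ Finset.Ico i N, S.E i (μ l) ω
        ≤ P2_inc al i ω * (Λ * X i ω) :=
          mul_le_mul_of_nonneg_left (hN i ω) (P2_inc_nonneg hp i ω)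
      _ ≤ al i ω ^ 2 * (Λ * X i ω) :=
          mul_le_mul_of_nonneg_right h1 (mul_nonneg hΛ (hX0 i ω).le)
      _ = _ := by ring
  · rw [Set.indicator_of_notMem hω, mul_zero]
    unfold P2_inc
    rw [P2_off hp i ω hω]
    simp

end Pool.Agent.Lib.MP_f0c028_an.SQ
end

section

set_option autoImplicit false

/-! # TASK E2: the Carleson embedding with restarts

`ε ∈ (0, 1)`, `ψ` nonnegative bounded adapted with `∑_{l ∈ Ico k N} E_k ψ_l ≤ Λ Y_k^(1-ε)`.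
`L_k := ∑_{l ∈ Ico k N} E_k ψ_l`, so `E_k L_{k+1} = L_k - ψ_k` for `k < N`; `M_k := be_k^ε L_k/Λ ≤ be_k^ε Y_k^(1-ε) ≤ Y_k` (`be_le`), `s_k := Y_k + M_k ∈ [Y_k, 2 Y_k]`.
For `k < N` let `β = min be_k Y_{k+1}` (the value of `be (k+1)` without restart; `be (k+1) = β` off `rs (k+1)` by `be_keep`), `M' = β^ε L_{k+1}/Λ`, `s' = Y_{k+1} + M'`:
`E_k M' ≤ be_k^ε E_k L_{k+1}/Λ = M_k - δ_k`, `δ_k = be_k^ε ψ_k/Λ`, so `E_k s' ≤ s_k - δ_k`, and `δ_k ≤ M_k < s_k`. By `E_cs_div`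
`E_k (G_{k+1}²/s') ≥ G_k²/(s_k - δ_k) ≥ G_k²/s_k + G_k² δ_k/s_k² ≥ G_k²/s_k + (G_k/Y_k)² δ_k/4`.
Off `rs (k+1)`: `s' = s_{k+1}`. On `rs (k+1)`: `G_{k+1}²/s' ≤ G_{k+1}²/Y_{k+1} ≤ F_{k+1}²/X_{k+1} = al_{k+1}² X_{k+1}` (`hcl`, `al_rs`), and `G²/s_{k+1} ≥ 0`. So
`∫ G_k²/s_k + ∫ (G_k/Y_k)² δ_k/4 ≤ ∫ G_{k+1}²/s_{k+1} + ∫_{rs (k+1)} al_{k+1}² X_{k+1}` for `k + 1 < N`, and for `k + 1 = N` (`L_N = 0`, `s' = Y_N`) simply
`≤ ∫ G_N²/Y_N`. Sum over `k < N`: `∑ ∫ (G_k/Y_k)² δ_k ≤ 4 (∫ q_N(G,Y) + RR N)`, `Q_mono`. -/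

open MeasureTheory

namespace Pool.Agent.Lib.MP_f0c028_an.SQ

variable {Ω : Type} [MeasurableSpace Ω] {S : Sp Ω} {F G X Y al be : ℕ → Ω → ℝ} {rs : ℕ → Set Ω}

private noncomputable def E2L (S : Sp Ω) (ψ : ℕ → Ω → ℝ) (N k : ℕ) (ω : Ω) : ℝ :=
  ∑ l ∈ Finset.Ico k N, S.E k (ψ l) ω

private theorem E2L_bm {ψ : ℕ → Ω → ℝ} (hψ : ∀ k, BM (ψ k)) (N k : ℕ) : BM (E2L S ψ N k) :=
  BM.sum (Finset.Ico k N) (f := fun l => S.E k (ψ l)) (fun i _ => E_bm S k (hψ i))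

private theorem E2L_nonneg {ψ : ℕ → Ω → ℝ} (hψ0 : ∀ k ω, 0 ≤ ψ k ω) (N k : ℕ) (ω : Ω) :
    0 ≤ E2L S ψ N k ω :=
  Finset.sum_nonneg (fun i _ => E_nonneg S k (hψ0 i) ω)

private theorem E2L_step {ψ : ℕ → Ω → ℝ} (hψ : ∀ k, BM (ψ k)) (hψa : ∀ k, S.Ad k (ψ k))
    {N k : ℕ} (hk : k < N) (ω : Ω) :
    S.E k (E2L S ψ N (k + 1)) ω = E2L S ψ N k ω - ψ k ω := by
  have h1 : S.E k (E2L S ψ N (k + 1)) ω =
      ∑ l ∈ Finset.Ico (k + 1) N, S.E k (S.E (k + 1) (ψ l)) ω :=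
    E_sum S k (Finset.Ico (k + 1) N) (f := fun l => S.E (k + 1) (ψ l))
      (fun i _ => E_bm S (k + 1) (hψ i)) ω
  have h2 : ∑ l ∈ Finset.Ico (k + 1) N, S.E k (S.E (k + 1) (ψ l)) ω =
      ∑ l ∈ Finset.Ico (k + 1) N, S.E k (ψ l) ω :=
    Finset.sum_congr rfl (fun l _ => E_tower S (Nat.le_succ k) (hψ l) ω)
  rw [h1, h2, E2L, Finset.sum_eq_sum_Ico_succ_bot hk, E_of_ad S (hψa k)]
  ring

private theorem E2_scalar {g s d Y m E : ℝ} (hY : 0 < Y) (hmY : m ≤ Y)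
    (hs : s = Y + m) (hd0 : 0 ≤ d) (hd : d ≤ m) (hE : g ^ 2 ≤ E * (s - d)) :
    g ^ 2 / s + (g / Y) ^ 2 * d / 4 ≤ E := by
  have h1 : 0 < s - d := by linarith
  have hs0 : 0 < s := by linarith
  have h2 : g ^ 2 / (s - d) ≤ E := (div_le_iff₀ h1).mpr hE
  refine le_trans ?_ h2
  have h3 : s * (s - d) ≤ 4 * Y ^ 2 := by
    have a1 : s ≤ 2 * Y := by linarith
    have a2 : s - d ≤ 2 * Y := by linarith
    calc s * (s - d) ≤ (2 * Y) * (2 * Y) := mul_le_mul a1 a2 h1.le (by linarith)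
      _ = 4 * Y ^ 2 := by ring
  have h4 : d / (4 * Y ^ 2) ≤ d / (s * (s - d)) :=
    div_le_div_of_nonneg_left hd0 (mul_pos hs0 h1) h3
  have h5 : 1 / (s - d) = 1 / s + d / (s * (s - d)) := by
    field_simp
    ring
  have h6 : g ^ 2 / (s - d) = g ^ 2 / s + g ^ 2 * (d / (s * (s - d))) := by
    calc g ^ 2 / (s - d) = g ^ 2 * (1 / (s - d)) := by ring
      _ = g ^ 2 * (1 / s + d / (s * (s - d))) := by rw [h5]
      _ = g ^ 2 / s + g ^ 2 * (d / (s * (s - d))) := by ring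
  have h7 : (g / Y) ^ 2 * d / 4 = g ^ 2 * (d / (4 * Y ^ 2)) := by
    field_simp
  rw [h6, h7]
  have h8 := mul_le_mul_of_nonneg_left h4 (sq_nonneg g)
  linarith

private theorem E2_M {b Y ε L Λ : ℝ} (hb : 0 < b) (hbY : b ≤ Y) (hε : 0 < ε)
    (hΛ : 0 < Λ) (hL : L ≤ Λ * Y ^ (1 - ε)) : b ^ ε * L / Λ ≤ Y := by
  have hY : 0 < Y := lt_of_lt_of_le hb hbY
  have h1 : b ^ ε ≤ Y ^ ε := Real.rpow_le_rpow hb.le hbY hε.le
  have h2 : 0 < b ^ ε := Real.rpow_pos_of_pos hb ε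
  have h3 : 0 < Y ^ (1 - ε) := Real.rpow_pos_of_pos hY _
  rw [div_le_iff₀ hΛ]
  calc b ^ ε * L ≤ b ^ ε * (Λ * Y ^ (1 - ε)) := mul_le_mul_of_nonneg_left hL h2.le
    _ ≤ Y ^ ε * (Λ * Y ^ (1 - ε)) := mul_le_mul_of_nonneg_right h1 (by positivity)
    _ = Λ * (Y ^ ε * Y ^ (1 - ε)) := by ring
    _ = Λ * Y := by
        rw [← Real.rpow_add hY]
        have : ε + (1 - ε) = 1 := by ring
        rw [this, Real.rpow_one]
    _ = Y * Λ := by ring

theorem carleson_restart {K : ℝ} (h : S.Pair X Y K) (hG : S.Mart G)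
    (hp : S.Pr F X Y al be rs)
    (hcl : ∀ k, ∀ ω ∈ rs k, G k ω ^ 2 / Y k ω ≤ F k ω ^ 2 / X k ω) {ε : ℝ} (hε : 0 < ε)
    (hε1 : ε < 1) {N M : ℕ} (hM : N ≤ M) {ψ : ℕ → Ω → ℝ} (hψ : ∀ k, BM (ψ k))
    (hψ0 : ∀ k ω, 0 ≤ ψ k ω) (hψa : ∀ k, S.Ad k (ψ k)) {Λ : ℝ} (hΛ : 0 < Λ)
    (hN : ∀ k ω, ∑ l ∈ Finset.Ico k N, S.E k (ψ l) ω ≤ Λ * Y k ω ^ (1 - ε)) :
    ∑ k ∈ Finset.range N, ∫ ω, (G k ω / Y k ω) ^ 2 * (be k ω ^ ε * ψ k ω) ∂S.P ≤
      4 * Λ * (∫ ω, q G Y M ω ∂S.P + S.RR X al rs N) := by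
  classical
  obtain ⟨c, hc, hlow⟩ := h.low
  obtain ⟨cb, hcb, hbl⟩ := hp.be_low
  have hYl : ∀ k ω, c ≤ Y k ω := fun k ω => (hlow k ω).2
  have hYpos : ∀ k ω, 0 < Y k ω := fun k ω => lt_of_lt_of_le hc (hYl k ω)
  have hXpos : ∀ k ω, 0 < X k ω := fun k ω => lt_of_lt_of_le hc (hlow k ω).1
  have hbpos : ∀ k ω, 0 < be k ω := fun k ω => lt_of_lt_of_le hcb (hbl k ω)
  have hLbm : ∀ k, BM (E2L S ψ N k) := E2L_bm hψ N
  have hL0 : ∀ k ω, 0 ≤ E2L S ψ N k ω := E2L_nonneg hψ0 N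
  have hLle : ∀ k ω, E2L S ψ N k ω ≤ Λ * Y k ω ^ (1 - ε) := hN
  have hbeb : ∀ k, BM (fun ω => be k ω ^ ε) := fun k =>
    BM.rpow (hp.be_bm k) hcb (hbl k) ε
  obtain ⟨s, hs⟩ : ∃ s : ℕ → Ω → ℝ, s = fun k ω => Y k ω + be k ω ^ ε * E2L S ψ N k ω / Λ :=
    ⟨_, rfl⟩
  have hsb : ∀ k, BM (s k) := by
    intro k
    rw [hs]
    have h1 : BM (fun ω => be k ω ^ ε * E2L S ψ N k ω * Λ⁻¹) :=
      BM.mul (BM.mul (hbeb k) (hLbm k)) (BM.const Λ⁻¹)
    exact BM.add (h.mY.bm k) h1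
  have hM0 : ∀ k ω, 0 ≤ be k ω ^ ε * E2L S ψ N k ω / Λ := fun k ω =>
    div_nonneg (mul_nonneg (Real.rpow_nonneg (hbpos k ω).le ε) (hL0 k ω)) hΛ.le
  have hMY : ∀ k ω, be k ω ^ ε * E2L S ψ N k ω / Λ ≤ Y k ω := fun k ω =>
    E2_M (hbpos k ω) (hp.be_le k ω) hε hΛ (hLle k ω)
  have hsc : ∀ k ω, c ≤ s k ω := by
    intro k ω
    rw [hs]
    have := hYl k ω
    have := hM0 k ω
    show c ≤ Y k ω + be k ω ^ ε * E2L S ψ N k ω / Λ
    linarith
  -- the one step function without restart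
  obtain ⟨s', hs'⟩ : ∃ s' : ℕ → Ω → ℝ, s' = fun k ω =>
      Y (k + 1) ω + min (be k ω) (Y (k + 1) ω) ^ ε * E2L S ψ N (k + 1) ω / Λ := ⟨_, rfl⟩
  have hmb : ∀ k, BM (fun ω => min (be k ω) (Y (k + 1) ω)) := fun k =>
    BM.min (hp.be_bm k) (h.mY.bm (k + 1))
  have hml : ∀ k ω, min cb c ≤ min (be k ω) (Y (k + 1) ω) := fun k ω =>
    min_le_min (hbl k ω) (hYl (k + 1) ω)
  have hmc : 0 < min cb c := lt_min hcb hc
  have hmpos : ∀ k ω, 0 < min (be k ω) (Y (k + 1) ω) := fun k ω =>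
    lt_of_lt_of_le hmc (hml k ω)
  have hs'b : ∀ k, BM (s' k) := by
    intro k
    rw [hs']
    have h1 : BM (fun ω => min (be k ω) (Y (k + 1) ω) ^ ε * E2L S ψ N (k + 1) ω * Λ⁻¹) :=
      BM.mul (BM.mul (BM.rpow (hmb k) hmc (hml k) ε) (hLbm (k + 1))) (BM.const Λ⁻¹)
    exact BM.add (h.mY.bm (k + 1)) h1
  have hM'0 : ∀ k ω, 0 ≤ min (be k ω) (Y (k + 1) ω) ^ ε * E2L S ψ N (k + 1) ω / Λ := fun k ω =>
    div_nonneg (mul_nonneg (Real.rpow_nonneg (hmpos k ω).le ε) (hL0 (k + 1) ω)) hΛ.le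
  have hs'Y : ∀ k ω, Y (k + 1) ω ≤ s' k ω := by
    intro k ω
    rw [hs']
    have := hM'0 k ω
    show Y (k + 1) ω ≤ Y (k + 1) ω +
      min (be k ω) (Y (k + 1) ω) ^ ε * E2L S ψ N (k + 1) ω / Λ
    linarith
  have hs'c : ∀ k ω, c ≤ s' k ω := fun k ω => le_trans (hYl (k + 1) ω) (hs'Y k ω)
  have hGb : ∀ k, BM (fun ω => G k ω ^ 2 / s k ω) := fun k =>
    BM.div (BM.pow (hG.bm k) 2) (hsb k) hc (hsc k)
  have hGb' : ∀ k, BM (fun ω => G (k + 1) ω ^ 2 / s' k ω) := fun k =>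
    BM.div (BM.pow (hG.bm (k + 1)) 2) (hs'b k) hc (hs'c k)
  have hTb : ∀ k, BM (fun ω => (G k ω / Y k ω) ^ 2 * (be k ω ^ ε * ψ k ω)) := fun k =>
    BM.mul (BM.pow (BM.div (hG.bm k) (h.mY.bm k) hc (hYl k)) 2) (BM.mul (hbeb k) (hψ k))
  have hE : ∀ k, k < N → ∀ ω, S.E k (s' k) ω ≤
      s k ω - be k ω ^ ε * ψ k ω / Λ := by
    intro k hk ω
    have h1 : BM (fun ω => Y (k + 1) ω + be k ω ^ ε * (E2L S ψ N (k + 1) ω * Λ⁻¹)) :=
      BM.add (h.mY.bm (k + 1)) (BM.mul (hbeb k) (BM.mul (hLbm (k + 1)) (BM.const Λ⁻¹)))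
    have h2 : ∀ ω, s' k ω ≤ Y (k + 1) ω + be k ω ^ ε * (E2L S ψ N (k + 1) ω * Λ⁻¹) := by
      intro ω
      rw [hs']
      show Y (k + 1) ω + min (be k ω) (Y (k + 1) ω) ^ ε * E2L S ψ N (k + 1) ω / Λ ≤ _
      have h3 : min (be k ω) (Y (k + 1) ω) ^ ε ≤ be k ω ^ ε :=
        Real.rpow_le_rpow (hmpos k ω).le (min_le_left _ _) hε.le
      have h4 : 0 ≤ E2L S ψ N (k + 1) ω * Λ⁻¹ :=
        mul_nonneg (hL0 (k + 1) ω) (inv_nonneg.mpr hΛ.le)
      have h5 := mul_le_mul_of_nonneg_right h3 h4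
      have h6 : min (be k ω) (Y (k + 1) ω) ^ ε * E2L S ψ N (k + 1) ω / Λ =
          min (be k ω) (Y (k + 1) ω) ^ ε * (E2L S ψ N (k + 1) ω * Λ⁻¹) := by
        rw [div_eq_mul_inv]
        ring
      rw [h6]
      linarith
    have h3 := E_mono S k (hs'b k) h1 h2 ω
    refine le_trans h3 (le_of_eq ?_)
    have h4 : S.E k (fun ω => Y (k + 1) ω + be k ω ^ ε * (E2L S ψ N (k + 1) ω * Λ⁻¹)) ω =
        S.E k (Y (k + 1)) ω + S.E k (fun ω => be k ω ^ ε * (E2L S ψ N (k + 1) ω * Λ⁻¹)) ω :=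
      E_add S k (h.mY.bm (k + 1)) (BM.mul (hbeb k) (BM.mul (hLbm (k + 1)) (BM.const Λ⁻¹))) ω
    have had : S.Ad k (fun ω => be k ω ^ ε) := by
      intro ω η
      show be k (S.s k ω η) ^ ε = be k ω ^ ε
      rw [hp.be_ad k ω η]
    have h5 : S.E k (fun ω => be k ω ^ ε * (E2L S ψ N (k + 1) ω * Λ⁻¹)) ω =
        be k ω ^ ε * S.E k (fun ω => E2L S ψ N (k + 1) ω * Λ⁻¹) ω :=
      E_mul S had (fun ω => E2L S ψ N (k + 1) ω * Λ⁻¹) ω
    have h6 : S.E k (fun ω => E2L S ψ N (k + 1) ω * Λ⁻¹) ω =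
        Λ⁻¹ * (E2L S ψ N k ω - ψ k ω) := by
      have h7 : (fun ω => E2L S ψ N (k + 1) ω * Λ⁻¹) = fun ω => Λ⁻¹ * E2L S ψ N (k + 1) ω := by
        funext ω
        ring
      rw [h7, E_const_mul S k Λ⁻¹ (fun ω => E2L S ψ N (k + 1) ω) ω]
      have h8 := E2L_step hψ hψa hk ω
      show Λ⁻¹ * S.E k (E2L S ψ N (k + 1)) ω = _
      rw [h8]
    rw [h4, h5, h6, h.mY.step k ω, hs]
    show Y k ω + be k ω ^ ε * (Λ⁻¹ * (E2L S ψ N k ω - ψ k ω)) =
      Y k ω + be k ω ^ ε * E2L S ψ N k ω / Λ - be k ω ^ ε * ψ k ω / Λ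
    rw [div_eq_mul_inv, div_eq_mul_inv]
    ring
  have hψL : ∀ k, k < N → ∀ ω, ψ k ω ≤ E2L S ψ N k ω := by
    intro k hk ω
    have h1 := E2L_step hψ hψa hk ω
    have h2 : 0 ≤ S.E k (E2L S ψ N (k + 1)) ω := E_nonneg S k (hL0 (k + 1)) ω
    linarith
  -- the pointwise inequality
  have hpt : ∀ k, k < N → ∀ ω, G k ω ^ 2 / s k ω +
      (4 * Λ)⁻¹ * ((G k ω / Y k ω) ^ 2 * (be k ω ^ ε * ψ k ω)) ≤
      S.E k (fun ω' => G (k + 1) ω' ^ 2 / s' k ω') ω := by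
    intro k hk ω
    have hd0 : 0 ≤ be k ω ^ ε * ψ k ω / Λ :=
      div_nonneg (mul_nonneg (Real.rpow_nonneg (hbpos k ω).le ε) (hψ0 k ω)) hΛ.le
    have hd1 : be k ω ^ ε * ψ k ω / Λ ≤ be k ω ^ ε * E2L S ψ N k ω / Λ :=
      div_le_div_of_nonneg_right
        (mul_le_mul_of_nonneg_left (hψL k hk ω) (Real.rpow_nonneg (hbpos k ω).le ε)) hΛ.le
    have hcs := E_cs_div S k (hG.bm (k + 1)) (hs'b k) hc (hs'c k) ω
    rw [hG.step k ω] at hcs
    have hq0 : 0 ≤ S.E k (fun ω' => G (k + 1) ω' ^ 2 / s' k ω') ω :=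
      E_nonneg S k (fun ω' => div_nonneg (sq_nonneg _) (le_trans hc.le (hs'c k ω'))) ω
    have hcs2 : G k ω ^ 2 ≤ S.E k (fun ω' => G (k + 1) ω' ^ 2 / s' k ω') ω *
        (s k ω - be k ω ^ ε * ψ k ω / Λ) :=
      le_trans hcs (mul_le_mul_of_nonneg_left (hE k hk ω) hq0)
    have hsk : s k ω = Y k ω + be k ω ^ ε * E2L S ψ N k ω / Λ := by
      rw [hs]
    have hfin := E2_scalar (hYpos k ω) (hMY k ω) hsk hd0 hd1 hcs2
    have he : (4 * Λ)⁻¹ * ((G k ω / Y k ω) ^ 2 * (be k ω ^ ε * ψ k ω)) =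
        (G k ω / Y k ω) ^ 2 * (be k ω ^ ε * ψ k ω / Λ) / 4 := by
      rw [mul_inv, div_eq_mul_inv (be k ω ^ ε * ψ k ω) Λ]
      ring
    rw [he]
    exact hfin
  have := S.prob
  -- the integrated inequality
  have hint : ∀ k, k < N → ∫ ω, G k ω ^ 2 / s k ω ∂S.P +
      (4 * Λ)⁻¹ * ∫ ω, (G k ω / Y k ω) ^ 2 * (be k ω ^ ε * ψ k ω) ∂S.P ≤
      ∫ ω, G (k + 1) ω ^ 2 / s' k ω ∂S.P := by
    intro k hk
    rw [← E_int S k (hGb' k), ← integral_const_mul, ← integral_add ((hGb k).int S.P)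
      ((BM.mul (BM.const _) (hTb k)).int S.P)]
    exact integral_mono
      ((BM.add (hGb k) (BM.mul (BM.const ((4 * Λ)⁻¹)) (hTb k))).int S.P)
      ((E_bm S k (hGb' k)).int S.P) (fun ω => hpt k hk ω)
  -- the comparison with the next step
  have hind : ∀ k, BM (fun ω => (rs k).indicator (fun ω' => al k ω' ^ 2 * X k ω') ω) := by
    intro k
    have h1 : BM (fun ω => if ω ∈ rs k then al k ω ^ 2 * X k ω else 0) :=
      BM.ite (p := fun ω => ω ∈ rs k) (hp.rs_meas k)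
        (BM.mul (BM.pow (hp.al_bm k) 2) (h.mX.bm k)) (BM.const 0)
    have h2 : (fun ω => (rs k).indicator (fun ω' => al k ω' ^ 2 * X k ω') ω) =
        fun ω => if ω ∈ rs k then al k ω ^ 2 * X k ω else 0 := by
      funext ω
      rw [Set.indicator_apply]
    rw [h2]
    exact h1
  have hcmp : ∀ k, ∀ ω, G (k + 1) ω ^ 2 / s' k ω ≤ G (k + 1) ω ^ 2 / s (k + 1) ω +
      (rs (k + 1)).indicator (fun ω' => al (k + 1) ω' ^ 2 * X (k + 1) ω') ω := by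
    intro k ω
    by_cases hr : ω ∈ rs (k + 1)
    · rw [Set.indicator_of_mem hr]
      have h1 : G (k + 1) ω ^ 2 / s' k ω ≤ G (k + 1) ω ^ 2 / Y (k + 1) ω :=
        div_le_div_of_nonneg_left (sq_nonneg _) (hYpos (k + 1) ω) (hs'Y k ω)
      have h2 := hcl (k + 1) ω hr
      have h3 : F (k + 1) ω ^ 2 / X (k + 1) ω = al (k + 1) ω ^ 2 * X (k + 1) ω := by
        rw [hp.al_rs (k + 1) ω hr]
        have := (hXpos (k + 1) ω).ne'
        field_simp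
      have h4 : 0 ≤ G (k + 1) ω ^ 2 / s (k + 1) ω :=
        div_nonneg (sq_nonneg _) (le_trans hc.le (hsc (k + 1) ω))
      linarith
    · rw [Set.indicator_of_notMem hr]
      have h1 : s' k ω = s (k + 1) ω := by
        rw [hs', hs]
        show Y (k + 1) ω + min (be k ω) (Y (k + 1) ω) ^ ε * E2L S ψ N (k + 1) ω / Λ =
          Y (k + 1) ω + be (k + 1) ω ^ ε * E2L S ψ N (k + 1) ω / Λ
        rw [hp.be_keep k ω hr]
      rw [h1]
      linarith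
  have hLN : ∀ ω, E2L S ψ N N ω = 0 := by
    intro ω
    rw [E2L, Finset.Ico_self, Finset.sum_empty]
  have hlast : ∀ k, k + 1 = N → ∀ ω, G (k + 1) ω ^ 2 / s' k ω = G (k + 1) ω ^ 2 / s (k + 1) ω := by
    intro k hk ω
    have h1 : s' k ω = s (k + 1) ω := by
      rw [hs', hs]
      show Y (k + 1) ω + min (be k ω) (Y (k + 1) ω) ^ ε * E2L S ψ N (k + 1) ω / Λ =
        Y (k + 1) ω + be (k + 1) ω ^ ε * E2L S ψ N (k + 1) ω / Λ
      rw [hk, hLN ω]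
      ring
    rw [h1]
  have hR0 : ∀ k, 0 ≤ ∫ ω, (rs k).indicator (fun ω' => al k ω' ^ 2 * X k ω') ω ∂S.P := by
    intro k
    refine integral_nonneg (fun ω => ?_)
    exact Set.indicator_nonneg (fun ω' _ => mul_nonneg (sq_nonneg _) (hXpos k ω').le) ω
  have hsN : ∫ ω, G N ω ^ 2 / s N ω ∂S.P ≤ ∫ ω, q G Y M ω ∂S.P := by
    have h1 : (fun ω => G N ω ^ 2 / s N ω) = fun ω => q G Y N ω := by
      funext ω
      rw [hs]
      show G N ω ^ 2 / (Y N ω + be N ω ^ ε * E2L S ψ N N ω / Λ) = G N ω ^ 2 / Y N ω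
      rw [hLN ω, mul_zero, zero_div, add_zero]
    rw [h1]
    exact Q_mono S hG h.mY hc hYl hM
  have hA0 : ∀ k, 0 ≤ ∫ ω, G k ω ^ 2 / s k ω ∂S.P := fun k =>
    integral_nonneg (fun ω => div_nonneg (sq_nonneg _) (le_trans hc.le (hsc k ω)))
  have hstep : ∀ k, k < N → ∫ ω, G k ω ^ 2 / s k ω ∂S.P +
      (4 * Λ)⁻¹ * ∫ ω, (G k ω / Y k ω) ^ 2 * (be k ω ^ ε * ψ k ω) ∂S.P ≤
      ∫ ω, G (k + 1) ω ^ 2 / s (k + 1) ω ∂S.P +
      (if k + 1 < N then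
        ∫ ω, (rs (k + 1)).indicator (fun ω' => al (k + 1) ω' ^ 2 * X (k + 1) ω') ω ∂S.P
        else 0) := by
    intro k hk
    refine le_trans (hint k hk) ?_
    by_cases hk1 : k + 1 < N
    · rw [if_pos hk1, ← integral_add ((hGb (k + 1)).int S.P) ((hind (k + 1)).int S.P)]
      exact integral_mono ((hGb' k).int S.P)
        ((BM.add (hGb (k + 1)) (hind (k + 1))).int S.P) (hcmp k)
    · rw [if_neg hk1, add_zero]
      have hk2 : k + 1 = N := by omega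
      exact le_of_eq (integral_congr_ae (Filter.Eventually.of_forall (hlast k hk2)))
  have hsum := Finset.sum_le_sum (fun k (hk : k ∈ Finset.range N) =>
    hstep k (Finset.mem_range.mp hk))
  rw [Finset.sum_add_distrib, Finset.sum_add_distrib, ← Finset.mul_sum] at hsum
  have htel : ∑ k ∈ Finset.range N, ∫ ω, G (k + 1) ω ^ 2 / s (k + 1) ω ∂S.P -
      ∑ k ∈ Finset.range N, ∫ ω, G k ω ^ 2 / s k ω ∂S.P =
      ∫ ω, G N ω ^ 2 / s N ω ∂S.P - ∫ ω, G 0 ω ^ 2 / s 0 ω ∂S.P := by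
    rw [← Finset.sum_sub_distrib]
    exact Finset.sum_range_sub (fun k => ∫ ω, G k ω ^ 2 / s k ω ∂S.P) N
  have hRR : ∑ k ∈ Finset.range N, (if k + 1 < N then
        ∫ ω, (rs (k + 1)).indicator (fun ω' => al (k + 1) ω' ^ 2 * X (k + 1) ω') ω ∂S.P
        else 0) ≤ S.RR X al rs N := by
    unfold Sp.RR
    rcases Nat.eq_zero_or_pos N with h0 | h0
    · rw [h0, Finset.sum_range_zero, Finset.sum_range_zero]
    · obtain ⟨n, rfl⟩ : ∃ n, N = n + 1 := ⟨N - 1, by omega⟩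
      rw [Finset.sum_range_succ, if_neg (lt_irrefl _), add_zero, Finset.sum_range_succ']
      have h1 : ∑ k ∈ Finset.range n, (if k + 1 < n + 1 then
          ∫ ω, (rs (k + 1)).indicator (fun ω' => al (k + 1) ω' ^ 2 * X (k + 1) ω') ω ∂S.P
          else 0) = ∑ k ∈ Finset.range n,
          ∫ ω, (rs (k + 1)).indicator (fun ω' => al (k + 1) ω' ^ 2 * X (k + 1) ω') ω ∂S.P := by
        refine Finset.sum_congr rfl (fun k hk => ?_)
        have := Finset.mem_range.mp hk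
        rw [if_pos (by omega)]
      rw [h1]
      have := hR0 0
      linarith
  have hA := hA0 0
  have hmain : (4 * Λ)⁻¹ * ∑ k ∈ Finset.range N,
      ∫ ω, (G k ω / Y k ω) ^ 2 * (be k ω ^ ε * ψ k ω) ∂S.P ≤
      ∫ ω, q G Y M ω ∂S.P + S.RR X al rs N := by
    linarith
  have h4Λ : 0 < 4 * Λ := by linarith
  calc ∑ k ∈ Finset.range N, ∫ ω, (G k ω / Y k ω) ^ 2 * (be k ω ^ ε * ψ k ω) ∂S.P
      = 4 * Λ * ((4 * Λ)⁻¹ * ∑ k ∈ Finset.range N,
          ∫ ω, (G k ω / Y k ω) ^ 2 * (be k ω ^ ε * ψ k ω) ∂S.P) := by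
        rw [← mul_assoc, mul_inv_cancel₀ h4Λ.ne', one_mul]
    _ ≤ 4 * Λ * (∫ ω, q G Y M ω ∂S.P + S.RR X al rs N) :=
        mul_le_mul_of_nonneg_left hmain h4Λ.le

end Pool.Agent.Lib.MP_f0c028_an.SQ
end

section

set_option autoImplicit false

/-! # TASK P5: the upward variation of `γ = al²/be`

`ga k = al_k²/be_k`.
`jump_sum`: `∫ γ_0 + ∑_{i<N} ∫ max 0 (γ_{i+1} - γ_i) ≤ 5 RR (N+1)`. Proof: on `rs i` (also `i = 0`) `γ_i = al_i²/Y_i ≤ al_i² X_i` (`Pair.inv_le`), and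
`max 0 (γ_{i+1} - γ_i) ≤ γ_{i+1}` there; these terms sum to at most `RR (N+1)`. Off `rs 0`, `γ_0 = 0`. Off `rs (i+1)`:
`γ_{i+1} - γ_i = al_{i+1}² (be_{i+1}⁻¹ - be_i⁻¹) ≥ 0` and `be_{i+1}⁻¹ = max be_i⁻¹ Y_{i+1}⁻¹`; by `path_ineq` (`a = al`, `b = be⁻¹`, `u = Y⁻¹`) their sum is pathwise at most
`∑_{k ≤ N} 1_{rs k} al_k² mx (Y⁻¹) k (N-k)`, and `∫ 1_{rs k} al_k² mx … = ∫ 1_{rs k} al_k² E_k (mx …) ≤ 4 ∫ 1_{rs k} al_k² X_k` (`sup_inv`, `E_int`, `E_mul`).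
`jump_two`: for `i ≤ i'`: `max 0 (γ_{i'} - γ_i) ≤ ∑_{l ∈ Ico i i'} max 0 (γ_{l+1} - γ_l)`. -/

open MeasureTheory

namespace Pool.Agent.Lib.MP_f0c028_an.SQ

variable {Ω : Type} [MeasurableSpace Ω] {S : Sp Ω} {F X Y al be : ℕ → Ω → ℝ} {rs : ℕ → Set Ω}

/-- The ratio. -/
noncomputable def ga (al be : ℕ → Ω → ℝ) (k : ℕ) (ω : Ω) : ℝ := al k ω ^ 2 / be k ω

theorem ga_bm (hp : S.Pr F X Y al be rs) (k : ℕ) : BM (ga al be k) := by
  obtain ⟨c, hc, h⟩ := hp.be_low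
  exact ((hp.al_bm k).pow 2).div (hp.be_bm k) hc (h k)

theorem ga_nonneg (hp : S.Pr F X Y al be rs) (k : ℕ) (ω : Ω) : 0 ≤ ga al be k ω := by
  obtain ⟨c, hc, h⟩ := hp.be_low
  exact div_nonneg (sq_nonneg _) (hc.le.trans (h k ω))

theorem jump_two (γ : ℕ → ℝ) {i i' : ℕ} (h : i ≤ i') :
    max 0 (γ i' - γ i) ≤ ∑ l ∈ Finset.Ico i i', max 0 (γ (l + 1) - γ l) := by
  induction i', h using Nat.le_induction with
  | base => simp
  | succ n hn ih =>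
    rw [Finset.sum_Ico_succ_top hn]
    have h1 : (0 : ℝ) ≤ max 0 (γ n - γ i) := le_max_left _ _
    have h2 : (0 : ℝ) ≤ max 0 (γ (n + 1) - γ n) := le_max_left _ _
    have h3 : γ n - γ i ≤ max 0 (γ n - γ i) := le_max_right _ _
    have h4 : γ (n + 1) - γ n ≤ max 0 (γ (n + 1) - γ n) := le_max_right _ _
    refine max_le ?_ ?_
    · linarith
    · linarith

private theorem P5_ind_bm {f : Ω → ℝ} {A : Set Ω} (hA : MeasurableSet A) (hf : BM f) :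
    BM (A.indicator f) := by
  obtain ⟨h1, C, hC⟩ := hf
  refine ⟨h1.indicator hA, C, fun ω => ?_⟩
  by_cases h : ω ∈ A
  · rw [Set.indicator_of_mem h]
    exact hC ω
  · rw [Set.indicator_of_notMem h, abs_zero]
    exact (abs_nonneg _).trans (hC ω)

private theorem P5_path {K : ℝ} (h : S.Pair X Y K) (hp : S.Pr F X Y al be rs) (N : ℕ) (ω : Ω) :
    ga al be 0 ω + ∑ i ∈ Finset.range N, max 0 (ga al be (i + 1) ω - ga al be i ω) ≤
      ∑ k ∈ Finset.range (N + 1), (rs k).indicator (fun ω' => al k ω' ^ 2 * X k ω') ω +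
      ∑ k ∈ Finset.range (N + 1), (rs k).indicator (fun ω' => al k ω' ^ 2) ω *
        mx (fun l => (Y l ω)⁻¹) k (N - k) := by
  classical
  obtain ⟨c, hc, hlow⟩ := hp.be_low
  have hpos : ∀ k, 0 < be k ω := fun k => hc.trans_le (hlow k ω)
  have hY : ∀ k, 0 < Y k ω := fun k => (Pair.pos h k ω).2
  have hrs : ∀ k, ω ∈ rs k → ga al be k ω ≤
      (rs k).indicator (fun ω' => al k ω' ^ 2 * X k ω') ω := by
    intro k hk
    rw [Set.indicator_of_mem hk, ga, hp.be_rs k ω hk, div_eq_mul_inv]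
    exact mul_le_mul_of_nonneg_left (Pair.inv_le h k ω) (sq_nonneg _)
  have hind0 : ∀ k, 0 ≤ (rs k).indicator (fun ω' => al k ω' ^ 2 * X k ω') ω := by
    intro k
    by_cases hk : ω ∈ rs k
    · rw [Set.indicator_of_mem hk]
      exact mul_nonneg (sq_nonneg _) (Pair.pos h k ω).1.le
    · rw [Set.indicator_of_notMem hk]
  have h0 : ga al be 0 ω ≤ (rs 0).indicator (fun ω' => al 0 ω' ^ 2 * X 0 ω') ω := by
    by_cases hk : ω ∈ rs 0
    · exact hrs 0 hk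
    · rw [Set.indicator_of_notMem hk, ga, hp.al_zero ω hk]
      simp
  have h1 : ∀ i ∈ Finset.range N, max 0 (ga al be (i + 1) ω - ga al be i ω) ≤
      (rs (i + 1)).indicator (fun ω' => al (i + 1) ω' ^ 2 * X (i + 1) ω') ω +
        (if ω ∈ rs (i + 1) then 0 else al (i + 1) ω ^ 2 * ((be (i + 1) ω)⁻¹ - (be i ω)⁻¹)) := by
    intro i _
    by_cases hk : ω ∈ rs (i + 1)
    · rw [if_pos hk, add_zero]
      refine max_le (hind0 _) ?_
      have := ga_nonneg hp i ω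
      have := hrs (i + 1) hk
      linarith
    · rw [if_neg hk, Set.indicator_of_notMem hk, zero_add]
      have e1 : ga al be (i + 1) ω - ga al be i ω =
          al (i + 1) ω ^ 2 * ((be (i + 1) ω)⁻¹ - (be i ω)⁻¹) := by
        rw [ga, ga, hp.al_keep i ω hk]
        ring
      have e2 : (be i ω)⁻¹ ≤ (be (i + 1) ω)⁻¹ := by
        refine inv_anti₀ (hpos (i + 1)) ?_
        rw [hp.be_keep i ω hk]
        exact min_le_left _ _
      rw [e1]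
      refine max_le ?_ le_rfl
      exact mul_nonneg (sq_nonneg _) (by linarith)
  have h2 := path_ineq (fun k => al k ω) (fun k => (be k ω)⁻¹) (fun k => (Y k ω)⁻¹)
    (fun k => ω ∈ rs k) (fun k => hp.al_nonneg k ω) (fun k => (inv_pos.mpr (hY k)).le)
    (hp.al_zero ω) (fun k => hp.al_keep k ω) (by show (be 0 ω)⁻¹ = (Y 0 ω)⁻¹; rw [hp.be_zero])
    (fun k hk => by show (be k ω)⁻¹ = (Y k ω)⁻¹; rw [hp.be_rs k ω hk])
    (fun k hk => by
      show (be (k + 1) ω)⁻¹ = max (be k ω)⁻¹ (Y (k + 1) ω)⁻¹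
      rw [hp.be_keep k ω hk]
      rcases le_total (be k ω) (Y (k + 1) ω) with h3 | h3
      · rw [min_eq_left h3, max_eq_left (inv_anti₀ (hpos k) h3)]
      · rw [min_eq_right h3, max_eq_right (inv_anti₀ (hY (k + 1)) h3)]) N
  have h3 : ∑ k ∈ Finset.range (N + 1), (if ω ∈ rs k then al k ω ^ 2 *
      mx (fun l => (Y l ω)⁻¹) k (N - k) else 0) =
      ∑ k ∈ Finset.range (N + 1), (rs k).indicator (fun ω' => al k ω' ^ 2) ω *
        mx (fun l => (Y l ω)⁻¹) k (N - k) := by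
    refine Finset.sum_congr rfl fun k _ => ?_
    by_cases hk : ω ∈ rs k
    · rw [if_pos hk, Set.indicator_of_mem hk]
    · rw [if_neg hk, Set.indicator_of_notMem hk, zero_mul]
  have h4 := Finset.sum_le_sum h1
  rw [Finset.sum_add_distrib] at h4
  rw [← h3, Finset.sum_range_succ' (fun k => (rs k).indicator
    (fun ω' => al k ω' ^ 2 * X k ω') ω)]
  linarith

theorem jump_sum {K : ℝ} (h : S.Pair X Y K) (hp : S.Pr F X Y al be rs) (N : ℕ) :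
    ∫ ω, ga al be 0 ω ∂S.P +
      ∑ i ∈ Finset.range N, ∫ ω, max 0 (ga al be (i + 1) ω - ga al be i ω) ∂S.P ≤
      5 * S.RR X al rs (N + 1) := by
  classical
  have := S.prob
  have bX : ∀ k, BM (X k) := h.mX.bm
  obtain ⟨c, hc, hlow⟩ := h.low
  have bYi : ∀ k, BM (fun ω => (Y k ω)⁻¹) := fun k =>
    (h.mY.bm k).inv hc fun ω => (hlow k ω).2
  have bga := fun k => ga_bm hp k
  have bj : ∀ i, BM (fun ω => max 0 (ga al be (i + 1) ω - ga al be i ω)) := fun i =>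
    (BM.const 0).max ((bga (i + 1)).sub (bga i))
  have bI : ∀ k, BM ((rs k).indicator (fun ω' => al k ω' ^ 2 * X k ω')) := fun k =>
    P5_ind_bm (hp.rs_meas k) (((hp.al_bm k).pow 2).mul (bX k))
  have bg : ∀ k, BM ((rs k).indicator (fun ω' => al k ω' ^ 2)) := fun k =>
    P5_ind_bm (hp.rs_meas k) ((hp.al_bm k).pow 2)
  have bm : ∀ k, BM (fun ω => mx (fun l => (Y l ω)⁻¹) k (N - k)) := fun k =>
    mx_bm (Z := fun l ω => (Y l ω)⁻¹) bYi k (N - k)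
  have bgm : ∀ k, BM (fun ω => (rs k).indicator (fun ω' => al k ω' ^ 2) ω *
      mx (fun l => (Y l ω)⁻¹) k (N - k)) := fun k => (bg k).mul (bm k)
  have e1 : ∫ ω, ga al be 0 ω ∂S.P +
      ∑ i ∈ Finset.range N, ∫ ω, max 0 (ga al be (i + 1) ω - ga al be i ω) ∂S.P =
      ∫ ω, (ga al be 0 ω +
        ∑ i ∈ Finset.range N, max 0 (ga al be (i + 1) ω - ga al be i ω)) ∂S.P := by
    rw [integral_add ((bga 0).int _) ((BM.sum _ fun i _ => bj i).int _),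
      integral_finsetSum _ fun i _ => (bj i).int _]
  have e2 : ∫ ω, (∑ k ∈ Finset.range (N + 1),
      (rs k).indicator (fun ω' => al k ω' ^ 2 * X k ω') ω +
      ∑ k ∈ Finset.range (N + 1), (rs k).indicator (fun ω' => al k ω' ^ 2) ω *
        mx (fun l => (Y l ω)⁻¹) k (N - k)) ∂S.P = S.RR X al rs (N + 1) +
      ∑ k ∈ Finset.range (N + 1), ∫ ω, (rs k).indicator (fun ω' => al k ω' ^ 2) ω *
        mx (fun l => (Y l ω)⁻¹) k (N - k) ∂S.P := by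
    rw [integral_add ((BM.sum _ fun i _ => bI i).int _) ((BM.sum _ fun i _ => bgm i).int _),
      integral_finsetSum _ fun i _ => (bI i).int _,
      integral_finsetSum _ fun i _ => (bgm i).int _]
    rfl
  have e3 : ∀ k ∈ Finset.range (N + 1), ∫ ω, (rs k).indicator (fun ω' => al k ω' ^ 2) ω *
        mx (fun l => (Y l ω)⁻¹) k (N - k) ∂S.P ≤
      4 * ∫ ω, (rs k).indicator (fun ω' => al k ω' ^ 2 * X k ω') ω ∂S.P := by
    intro k _
    have had : S.Ad k ((rs k).indicator (fun ω' => al k ω' ^ 2)) := by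
      intro ω η
      by_cases hk : ω ∈ rs k
      · rw [Set.indicator_of_mem hk, Set.indicator_of_mem ((hp.rs_ad k ω η).mpr hk),
          hp.al_ad k ω η]
      · rw [Set.indicator_of_notMem hk,
          Set.indicator_of_notMem (fun h' => hk ((hp.rs_ad k ω η).mp h'))]
    rw [← E_int S k (bgm k), ← integral_const_mul]
    refine integral_mono ((E_bm S k (bgm k)).int _) (((BM.const 4).mul (bI k)).int _) ?_
    intro ω
    show S.E k (fun ω => (rs k).indicator (fun ω' => al k ω' ^ 2) ω *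
        mx (fun l => (Y l ω)⁻¹) k (N - k)) ω ≤
      4 * (rs k).indicator (fun ω' => al k ω' ^ 2 * X k ω') ω
    rw [E_mul S had]
    have h5 := sup_inv h k (N - k) ω
    by_cases hk : ω ∈ rs k
    · rw [Set.indicator_of_mem hk, Set.indicator_of_mem hk]
      have h6 := mul_le_mul_of_nonneg_left h5 (sq_nonneg (al k ω))
      linarith
    · rw [Set.indicator_of_notMem hk, Set.indicator_of_notMem hk, zero_mul, mul_zero]
  have e4 := Finset.sum_le_sum e3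
  rw [← Finset.mul_sum] at e4
  have e5 : ∑ k ∈ Finset.range (N + 1),
      ∫ ω, (rs k).indicator (fun ω' => al k ω' ^ 2 * X k ω') ω ∂S.P = S.RR X al rs (N + 1) := rfl
  rw [e5] at e4
  have e6 : ∫ ω, (ga al be 0 ω +
        ∑ i ∈ Finset.range N, max 0 (ga al be (i + 1) ω - ga al be i ω)) ∂S.P ≤
      ∫ ω, (∑ k ∈ Finset.range (N + 1),
      (rs k).indicator (fun ω' => al k ω' ^ 2 * X k ω') ω +
      ∑ k ∈ Finset.range (N + 1), (rs k).indicator (fun ω' => al k ω' ^ 2) ω *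
        mx (fun l => (Y l ω)⁻¹) k (N - k)) ∂S.P :=
    integral_mono (((bga 0).add (BM.sum _ fun i _ => bj i)).int _)
      (((BM.sum _ fun i _ => bI i).add (BM.sum _ fun i _ => bgm i)).int _)
      fun ω => P5_path h hp N ω
  rw [e1]
  rw [e2] at e6
  linarith

end Pool.Agent.Lib.MP_f0c028_an.SQ
end

section

set_option autoImplicit false

/-! # TASK P6: the critical sum, `(j+1)` residue classes

Write `x_k = EJ j X k / X_k`, `B_k = (X_k Y_k)^(1/4)`, `γ = ga`.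
* pointwise: `al_k² (EJ_k²/X_k) (Y_k/be_k) = γ_k (X_k Y_k) x_k² = γ_k (X_k Y_k)^(3/4) B_k x_k² ≤ K^(3/4) γ_k B_k x_k²`.
* `class_step` and `γ_k` is `Ad k`, nonnegative: `∫ γ_k B_k x_k² ≤ 256 ∫ γ_k (B_k - B_{k+j+1})` (`E_int`, `E_mul`).
* For fixed `r ≤ j` sum over the `k < N` with `k ≡ r mod (j+1)`: `k_i = r + i (j+1)`, `i < n`: summation by parts
  `∑_i γ_{k_i} (B_{k_i} - B_{k_{i+1}}) ≤ γ_{k_0} B_{k_0} + ∑_{i ≥ 1} max 0 (γ_{k_i} - γ_{k_{i-1}}) B_{k_i}` (drop the last term `- γ B ≤ 0`),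
  `B ≤ K^(1/4)`, `γ_{k_0} ≤ γ_0 + ∑_{l<k_0} max 0 (γ_{l+1} - γ_l)` and `jump_two`: the total is at most
  `K^(1/4) (γ_0 + ∑_{l<N} max 0 (γ_{l+1}-γ_l))`; integrate, `jump_sum` with `N - 1` (`N = 0` is trivial).
* So each class gives at most `K^(3/4) 256 K^(1/4) 5 RR N = 1280 K RR N`, and there are `j + 1` classes.
A convenient way to split: `∑_{k<N} c_k = ∑_{r<j+1} ∑_{k<N, k % (j+1) = r} c_k`; or prove by induction on `n`, for `s ≥ 1`:
`∑_{k<n} γ_k (B_k - B_{k+s}) ≤ s` times the bound, directly: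
`∑_{k<n} γ_k (B_k - B_{k+s}) = ∑_{k<n} γ_k B_k - ∑_{s≤k<n+s} γ_{k-s} B_k ≤ ∑_{k<min(s,n)} γ_k B_k + ∑_{s≤k<n} max 0 (γ_k - γ_{k-s}) B_k`, and each
`max 0 (γ_{l+1} - γ_l)` occurs in at most `s` of the differences. -/

open MeasureTheory

namespace Pool.Agent.Lib.MP_f0c028_an.SQ

variable {Ω : Type} [MeasurableSpace Ω] {S : Sp Ω} {F X Y al be : ℕ → Ω → ℝ} {rs : ℕ → Set Ω}

private theorem parts_aux (s : ℕ) (n : ℕ) (γ B : ℕ → ℝ) {b : ℝ} (hγ : ∀ k, 0 ≤ γ k)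
    (hB : ∀ k, 0 ≤ B k) (hb : ∀ k, B k ≤ b) :
    ∑ k ∈ Finset.range (n + 1), γ k * (B k - B (k + s)) ≤
      s * b * (γ 0 + ∑ i ∈ Finset.range n, max 0 (γ (i + 1) - γ i)) -
        γ n * ∑ t ∈ Finset.range s, B (n + 1 + t) := by
  have hU : ∀ k, B k - B (k + s) =
      ∑ t ∈ Finset.range s, B (k + t) - ∑ t ∈ Finset.range s, B (k + 1 + t) := by
    intro k
    have h1 := Finset.sum_range_succ (fun t => B (k + t)) s
    have h2 := Finset.sum_range_succ' (fun t => B (k + t)) s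
    have h3 : ∑ t ∈ Finset.range s, B (k + 1 + t) = ∑ t ∈ Finset.range s, B (k + (t + 1)) :=
      Finset.sum_congr rfl (fun t _ => by rw [add_assoc, add_comm 1 t])
    simp only [add_zero] at h2
    rw [h3]
    linarith
  have hU0 : ∀ k, 0 ≤ ∑ t ∈ Finset.range s, B (k + t) := fun k =>
    Finset.sum_nonneg (fun t _ => hB _)
  have hUb : ∀ k, ∑ t ∈ Finset.range s, B (k + t) ≤ s * b := by
    intro k
    have h1 := Finset.sum_le_card_nsmul (Finset.range s) (fun t => B (k + t)) b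
      (fun t _ => hb _)
    simpa [Finset.card_range, nsmul_eq_mul] using h1
  induction n with
  | zero =>
    simp only [zero_add, Finset.range_one, Finset.sum_singleton, Finset.range_zero,
      Finset.sum_empty, add_zero]
    have h1 := hU 0
    simp only [zero_add] at h1
    rw [h1]
    have h2 := hUb 0
    simp only [zero_add] at h2
    have h3 := mul_le_mul_of_nonneg_left h2 (hγ 0)
    linarith
  | succ n ih =>
    rw [Finset.sum_range_succ, Finset.sum_range_succ (fun i => max 0 (γ (i + 1) - γ i)), hU (n + 1)]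
    have h1 : (γ (n + 1) - γ n) * ∑ t ∈ Finset.range s, B (n + 1 + t) ≤
        max 0 (γ (n + 1) - γ n) * (s * b) :=
      (mul_le_mul_of_nonneg_right (le_max_right 0 _) (hU0 (n + 1))).trans
        (mul_le_mul_of_nonneg_left (hUb (n + 1)) (le_max_left 0 _))
    linarith

theorem parts {s : ℕ} (hs : 1 ≤ s) (n : ℕ) (γ B : ℕ → ℝ) {b : ℝ} (hγ : ∀ k, 0 ≤ γ k)
    (hB : ∀ k, 0 ≤ B k) (hb : ∀ k, B k ≤ b) :
    ∑ k ∈ Finset.range n, γ k * (B k - B (k + s)) ≤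
      s * b * (γ 0 + ∑ i ∈ Finset.range (n - 1), max 0 (γ (i + 1) - γ i)) := by
  have hb0 : 0 ≤ b := (hB 0).trans (hb 0)
  rcases n with _ | n
  · simp only [Finset.range_zero, Finset.sum_empty, Nat.zero_sub, add_zero]
    exact mul_nonneg (mul_nonneg (Nat.cast_nonneg s) hb0) (hγ 0)
  · rw [Nat.add_sub_cancel]
    have h1 := parts_aux s n γ B hγ hB hb
    have h2 : 0 ≤ γ n * ∑ t ∈ Finset.range s, B (n + 1 + t) :=
      mul_nonneg (hγ n) (Finset.sum_nonneg (fun t _ => hB _))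
    linarith

theorem crit_sum {K : ℝ} (h : S.Pair X Y K) (hp : S.Pr F X Y al be rs) (j N : ℕ) :
    ∑ k ∈ Finset.range N,
      ∫ ω, al k ω ^ 2 * (S.EJ j X k ω ^ 2 / X k ω) * (Y k ω / be k ω) ∂S.P ≤
      1280 * (j + 1) * K * S.RR X al rs N := by
  rcases N with _ | n
  · simp [Sp.RR]
  have hprob : IsProbabilityMeasure S.P := S.prob
  obtain ⟨ω₀⟩ : Nonempty Ω := nonempty_of_isProbabilityMeasure S.P
  have hK1 : 1 ≤ K := (h.one 0 ω₀).trans (h.le 0 ω₀)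
  have hK0 : 0 < K := by linarith
  set γ : ℕ → Ω → ℝ := ga al be with hγdef
  set B : ℕ → Ω → ℝ := fun k ω => (X k ω * Y k ω) ^ (1 / 4 : ℝ) with hBdef
  have hγbm : ∀ k, BM (γ k) := fun k => ga_bm hp k
  have hγ0 : ∀ k ω, 0 ≤ γ k ω := fun k ω => ga_nonneg hp k ω
  have hBbm : ∀ k, BM (B k) := fun k =>
    BM.rpow (BM.mul (h.mX.bm k) (h.mY.bm k)) one_pos (h.one k) _
  have hXY0 : ∀ k ω, 0 < X k ω * Y k ω := fun k ω => lt_of_lt_of_le one_pos (h.one k ω)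
  have hB0 : ∀ k ω, 0 ≤ B k ω := fun k ω => Real.rpow_nonneg (hXY0 k ω).le _
  have hBK : ∀ k ω, B k ω ≤ K ^ (1 / 4 : ℝ) := fun k ω =>
    Real.rpow_le_rpow (hXY0 k ω).le (h.le k ω) (by norm_num)
  have hγad : ∀ k, S.Ad k (γ k) := by
    intro k ω η
    show al k (S.s k ω η) ^ 2 / be k (S.s k ω η) = al k ω ^ 2 / be k ω
    rw [hp.al_ad k ω η, hp.be_ad k ω η]
  -- one term
  have hterm : ∀ k, ∫ ω, al k ω ^ 2 * (S.EJ j X k ω ^ 2 / X k ω) * (Y k ω / be k ω) ∂S.P ≤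
      256 * K ^ (3 / 4 : ℝ) * ∫ ω, γ k ω * (B k ω - B (k + (j + 1)) ω) ∂S.P := by
    intro k
    obtain ⟨c, hc, hlow⟩ := h.low
    obtain ⟨c', hc', hlow'⟩ := hp.be_low
    have hbm1 : BM (fun ω => γ k ω * B k ω) := BM.mul (hγbm k) (hBbm k)
    have hbm2 : BM (fun ω => γ k ω * B (k + (j + 1)) ω) := BM.mul (hγbm k) (hBbm _)
    have hbm3 : BM (fun ω => γ k ω * S.E k (B (k + (j + 1))) ω) :=
      BM.mul (hγbm k) (E_bm S k (hBbm _))
    have hI : ∫ ω, γ k ω * S.E k (B (k + (j + 1))) ω ∂S.P =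
        ∫ ω, γ k ω * B (k + (j + 1)) ω ∂S.P := by
      rw [← E_int S k hbm2]
      refine integral_congr_ae (Filter.Eventually.of_forall (fun ω => ?_))
      exact (E_mul S (hγad k) (B (k + (j + 1))) ω).symm
    have hpt : ∀ ω, al k ω ^ 2 * (S.EJ j X k ω ^ 2 / X k ω) * (Y k ω / be k ω) ≤
        256 * K ^ (3 / 4 : ℝ) * (γ k ω * B k ω - γ k ω * S.E k (B (k + (j + 1))) ω) := by
      intro ω
      have hX : 0 < X k ω := (Pair.pos h k ω).1
      have hbe : 0 < be k ω := lt_of_lt_of_le hc' (hlow' k ω)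
      have h1 : al k ω ^ 2 * (S.EJ j X k ω ^ 2 / X k ω) * (Y k ω / be k ω) =
          γ k ω * (X k ω * Y k ω) * (S.EJ j X k ω / X k ω) ^ 2 := by
        show _ = al k ω ^ 2 / be k ω * (X k ω * Y k ω) * (S.EJ j X k ω / X k ω) ^ 2
        field_simp
      have h2 : X k ω * Y k ω = (X k ω * Y k ω) ^ (3 / 4 : ℝ) * B k ω := by
        show _ = (X k ω * Y k ω) ^ (3 / 4 : ℝ) * (X k ω * Y k ω) ^ (1 / 4 : ℝ)
        rw [← Real.rpow_add (hXY0 k ω)]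
        norm_num
      have h3 : (X k ω * Y k ω) ^ (3 / 4 : ℝ) ≤ K ^ (3 / 4 : ℝ) :=
        Real.rpow_le_rpow (hXY0 k ω).le (h.le k ω) (by norm_num)
      have h4 : X k ω * Y k ω ≤ K ^ (3 / 4 : ℝ) * B k ω := by
        rw [h2]
        exact mul_le_mul_of_nonneg_right h3 (hB0 k ω)
      have hcs := class_step h j k ω
      have h5 : S.E k (B (k + (j + 1))) ω ≤ B k ω * (1 - (S.EJ j X k ω / X k ω) ^ 2 / 256) := hcs
      have h6 : B k ω * (S.EJ j X k ω / X k ω) ^ 2 ≤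
          256 * (B k ω - S.E k (B (k + (j + 1))) ω) := by
        nlinarith [h5]
      have hK34 : 0 ≤ K ^ (3 / 4 : ℝ) := Real.rpow_nonneg hK0.le _
      rw [h1]
      calc γ k ω * (X k ω * Y k ω) * (S.EJ j X k ω / X k ω) ^ 2
          ≤ γ k ω * (K ^ (3 / 4 : ℝ) * B k ω) * (S.EJ j X k ω / X k ω) ^ 2 :=
            mul_le_mul_of_nonneg_right (mul_le_mul_of_nonneg_left h4 (hγ0 k ω)) (sq_nonneg _)
        _ = K ^ (3 / 4 : ℝ) * γ k ω * (B k ω * (S.EJ j X k ω / X k ω) ^ 2) := by ring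
        _ ≤ K ^ (3 / 4 : ℝ) * γ k ω * (256 * (B k ω - S.E k (B (k + (j + 1))) ω)) :=
            mul_le_mul_of_nonneg_left h6 (mul_nonneg hK34 (hγ0 k ω))
        _ = 256 * K ^ (3 / 4 : ℝ) * (γ k ω * B k ω - γ k ω * S.E k (B (k + (j + 1))) ω) := by ring
    have hbmL : BM (fun ω => al k ω ^ 2 * (S.EJ j X k ω ^ 2 / X k ω) * (Y k ω / be k ω)) :=
      BM.mul (BM.mul (BM.pow (hp.al_bm k) 2)
        (BM.div (BM.pow (EJ_bm S h.mX j k) 2) (h.mX.bm k) hc (fun ω => (hlow k ω).1)))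
        (BM.div (h.mY.bm k) (hp.be_bm k) hc' (hlow' k))
    have hbmR : BM (fun ω => 256 * K ^ (3 / 4 : ℝ) *
        (γ k ω * B k ω - γ k ω * S.E k (B (k + (j + 1))) ω)) :=
      BM.mul (BM.const _) (BM.sub hbm1 hbm3)
    have hle := integral_mono (hbmL.int S.P) (hbmR.int S.P) hpt
    refine hle.trans (le_of_eq ?_)
    rw [integral_const_mul, integral_sub (hbm1.int S.P) (hbm3.int S.P), hI,
      ← integral_sub (hbm1.int S.P) (hbm2.int S.P)]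
    congr 1
    refine integral_congr_ae (Filter.Eventually.of_forall (fun ω => ?_))
    show γ k ω * B k ω - γ k ω * B (k + (j + 1)) ω = γ k ω * (B k ω - B (k + (j + 1)) ω)
    ring
  have hK34 : 0 ≤ K ^ (3 / 4 : ℝ) := Real.rpow_nonneg hK0.le _
  have hKK : K ^ (3 / 4 : ℝ) * K ^ (1 / 4 : ℝ) = K := by
    rw [← Real.rpow_add hK0]
    norm_num
  have hbmd : ∀ k, BM (fun ω => γ k ω * (B k ω - B (k + (j + 1)) ω)) := fun k =>
    BM.mul (hγbm k) (BM.sub (hBbm k) (hBbm _))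
  have hbmm : ∀ i, BM (fun ω => max 0 (γ (i + 1) ω - γ i ω)) := fun i =>
    BM.max (BM.const 0) (BM.sub (hγbm _) (hγbm _))
  have hsum : ∑ k ∈ Finset.range (n + 1), ∫ ω, γ k ω * (B k ω - B (k + (j + 1)) ω) ∂S.P ≤
      ((j + 1 : ℕ) : ℝ) * K ^ (1 / 4 : ℝ) * (5 * S.RR X al rs (n + 1)) := by
    rw [← integral_finsetSum _ (fun k _ => (hbmd k).int S.P)]
    have hpt : ∀ ω, ∑ k ∈ Finset.range (n + 1), γ k ω * (B k ω - B (k + (j + 1)) ω) ≤
        ((j + 1 : ℕ) : ℝ) * K ^ (1 / 4 : ℝ) *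
          (γ 0 ω + ∑ i ∈ Finset.range n, max 0 (γ (i + 1) ω - γ i ω)) := by
      intro ω
      have h1 := parts (s := j + 1) (by omega) (n + 1) (fun k => γ k ω) (fun k => B k ω)
        (fun k => hγ0 k ω) (fun k => hB0 k ω) (fun k => hBK k ω)
      simpa using h1
    have hbmL : BM (fun ω => ∑ k ∈ Finset.range (n + 1), γ k ω * (B k ω - B (k + (j + 1)) ω)) :=
      BM.sum _ (fun k _ => hbmd k)
    have hbmS : BM (fun ω => ∑ i ∈ Finset.range n, max 0 (γ (i + 1) ω - γ i ω)) :=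
      BM.sum _ (fun i _ => hbmm i)
    have hbmR : BM (fun ω => ((j + 1 : ℕ) : ℝ) * K ^ (1 / 4 : ℝ) *
        (γ 0 ω + ∑ i ∈ Finset.range n, max 0 (γ (i + 1) ω - γ i ω))) :=
      BM.mul (BM.const _) (BM.add (hγbm 0) hbmS)
    have hle := integral_mono (hbmL.int S.P) (hbmR.int S.P) hpt
    refine hle.trans ?_
    rw [integral_const_mul, integral_add ((hγbm 0).int S.P) (hbmS.int S.P),
      integral_finsetSum _ (fun i _ => (hbmm i).int S.P)]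
    refine mul_le_mul_of_nonneg_left (jump_sum h hp n) ?_
    exact mul_nonneg (Nat.cast_nonneg _) (Real.rpow_nonneg hK0.le _)
  calc ∑ k ∈ Finset.range (n + 1),
        ∫ ω, al k ω ^ 2 * (S.EJ j X k ω ^ 2 / X k ω) * (Y k ω / be k ω) ∂S.P
      ≤ ∑ k ∈ Finset.range (n + 1),
          256 * K ^ (3 / 4 : ℝ) * ∫ ω, γ k ω * (B k ω - B (k + (j + 1)) ω) ∂S.P :=
        Finset.sum_le_sum (fun k _ => hterm k)
    _ = 256 * K ^ (3 / 4 : ℝ) *
          ∑ k ∈ Finset.range (n + 1), ∫ ω, γ k ω * (B k ω - B (k + (j + 1)) ω) ∂S.P := by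
        rw [Finset.mul_sum]
    _ ≤ 256 * K ^ (3 / 4 : ℝ) *
          (((j + 1 : ℕ) : ℝ) * K ^ (1 / 4 : ℝ) * (5 * S.RR X al rs (n + 1))) :=
        mul_le_mul_of_nonneg_left hsum (mul_nonneg (by norm_num) hK34)
    _ = 1280 * (j + 1) * (K ^ (3 / 4 : ℝ) * K ^ (1 / 4 : ℝ)) * S.RR X al rs (n + 1) := by
        push_cast
        ring
    _ = 1280 * (j + 1) * K * S.RR X al rs (n + 1) := by rw [hKK]

end Pool.Agent.Lib.MP_f0c028_an.SQ
end
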