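import Pool.Agent.Lib.MP_f0c028_an.Mg.G008
import Pool.Agent.Lib.MP_f0c028_an.Mg.G007

section

set_option autoImplicit false

/-! # TASK S5: the four pieces of the lookahead oscillation

Here `F` is a bounded martingale and `Fb` a nonnegative bounded martingale with `|F_l| ≤ Fb_l` for `l ≤ M`. `l = k + j`.
`U_k = E_k √(X_l V_{l,l+1})`, `A_k = E_k ((Fb_l/X_l) D_l X)`, `a_k = (Fb_k/X_k) E_k D_l X`, `W_k = E_k (|Fb_l/X_l - Fb_k/X_k| D_l X)`.
* `EJ_le_UA`: `D_split`, `|F_l| ≤ Fb_l`, `E_mono`. `A_le_aW`: triangle inequality (`Fb_k/X_k` is `Ad k`).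
* `U_sum`: `U_k² ≤ E_k X_l · E_k V_{l,l+1} = X_k E_k V_{l,l+1}` (`E_cs`), `E_int`, `V_sum_one`.
* `A_sum`: `A_k² ≤ E_k X_l · E_k ((Fb_l/X_l)² (D_l X)²/X_l)`; `∑_k ∫ (Fb_l/X_l)² (D_l X)²/X_l ≤ 64 K ∫ q_M` by `carleson` (for `Fb`, `μ_l = (D_l X)²/X_l`, `sq_pot`).
* `a_sum`: `carleson` for `Fb` and `μ_k = (EJ_k)²/X_k` (`mu_pot`), `a_k²/X_k = (Fb_k/X_k)² μ_k`.
* `W_sum`: `W_k² ≤ V_{k,l}(Fb) E_k ((D_l X)²/X_l) ≤ 4 X_k V_{k,l}(Fb)` (`E_shift`, `D_le`), `V_sum`. -/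

open MeasureTheory

namespace Pool.Agent.Lib.MP_f0c028_an.SQ

variable {Ω : Type} [MeasurableSpace Ω]

/-- The martingale part. -/
noncomputable def Sp.U (S : Sp Ω) (j : ℕ) (F X : ℕ → Ω → ℝ) (k : ℕ) (ω : Ω) : ℝ :=
  S.E k (fun ω' => √(X (k + j) ω' * S.V F X (k + j) (k + j + 1) ω')) ω

/-- The weight part. -/
noncomputable def Sp.A (S : Sp Ω) (j : ℕ) (F X : ℕ → Ω → ℝ) (k : ℕ) (ω : Ω) : ℝ :=
  S.E k (fun ω' => F (k + j) ω' / X (k + j) ω' * S.D X (k + j) ω') ω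

/-- The frozen weight part. -/
noncomputable def Sp.a (S : Sp Ω) (j : ℕ) (F X : ℕ → Ω → ℝ) (k : ℕ) (ω : Ω) : ℝ :=
  F k ω / X k ω * S.EJ j X k ω

/-- The error of freezing. -/
noncomputable def Sp.W (S : Sp Ω) (j : ℕ) (F X : ℕ → Ω → ℝ) (k : ℕ) (ω : Ω) : ℝ :=
  S.E k (fun ω' => |F (k + j) ω' / X (k + j) ω' - F k ω' / X k ω'| * S.D X (k + j) ω') ω

variable {S : Sp Ω} {X Y : ℕ → Ω → ℝ} {K : ℝ} {F Fb : ℕ → Ω → ℝ}

theorem S5_fx_bm (h : S.Pair X Y K) (hF : S.Mart F) (l : ℕ) :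
    BM (fun ω => F l ω / X l ω) := by
  obtain ⟨c, hc, hl⟩ := h.low
  exact BM.div (hF.bm l) (h.mX.bm l) hc (fun ω => (hl l ω).1)

theorem S5_fx_ad (h : S.Pair X Y K) (hF : S.Mart F) (l : ℕ) :
    S.Ad l (fun ω => F l ω / X l ω) := by
  intro ω η
  show F l (S.s l ω η) / X l (S.s l ω η) = F l ω / X l ω
  rw [hF.ad l ω η, h.mX.ad l ω η]

theorem S5_K_pos (h : S.Pair X Y K) : 0 < K := by
  have := S.prob
  obtain ⟨ω⟩ := MeasureTheory.nonempty_of_isProbabilityMeasure S.P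
  have h1 := h.one 0 ω
  have h2 := h.le 0 ω
  linarith

theorem UAaW_bm (h : S.Pair X Y K) (hF : S.Mart F) (j k : ℕ) :
    BM (S.U j F X k) ∧ BM (S.A j F X k) ∧ BM (S.a j F X k) ∧ BM (S.W j F X k) := by
  obtain ⟨c, hc, hl⟩ := h.low
  have hX : ∀ k ω, c ≤ X k ω := fun k ω => (hl k ω).1
  refine ⟨?_, ?_, ?_, ?_⟩
  · exact E_bm S k (BM.sqrt (BM.mul (h.mX.bm (k + j)) (V_bm S hF h.mX hc hX (k + j) (k + j + 1))))
  · exact E_bm S k (BM.mul (S5_fx_bm h hF (k + j)) (D_bm S h.mX (k + j)))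
  · exact BM.mul (S5_fx_bm h hF k) (EJ_bm S h.mX j k)
  · exact E_bm S k (BM.mul (BM.abs (BM.sub (S5_fx_bm h hF (k + j)) (S5_fx_bm h hF k)))
      (D_bm S h.mX (k + j)))

theorem UAaW_nonneg (h : S.Pair X Y K) (hF : S.Mart F) (hF0 : ∀ k ω, 0 ≤ F k ω) (j k : ℕ)
    (ω : Ω) : 0 ≤ S.A j F X k ω ∧ 0 ≤ S.a j F X k ω ∧ 0 ≤ S.W j F X k ω := by
  have hX : ∀ k ω, 0 ≤ X k ω := fun k ω => (Pair.pos h k ω).1.le
  refine ⟨?_, ?_, ?_⟩
  · exact E_nonneg S k (fun ω' => mul_nonneg (div_nonneg (hF0 _ _) (hX _ _)) (D_nonneg S X _ _)) ω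
  · exact mul_nonneg (div_nonneg (hF0 _ _) (hX _ _)) (EJ_nonneg S j X k ω)
  · exact E_nonneg S k (fun ω' => mul_nonneg (abs_nonneg _) (D_nonneg S X _ _)) ω

theorem U_nonneg (j : ℕ) (F X : ℕ → Ω → ℝ) (k : ℕ) (ω : Ω) : 0 ≤ S.U j F X k ω := by
  exact E_nonneg S k (fun ω' => Real.sqrt_nonneg _) ω

theorem EJ_le_UA (h : S.Pair X Y K) (hF : S.Mart F) (hFb : S.Mart Fb) {M : ℕ}
    (hle : ∀ l, l ≤ M → ∀ ω, |F l ω| ≤ Fb l ω) (j k : ℕ) (hk : k + j ≤ M) (ω : Ω) :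
    S.EJ j F k ω ≤ S.U j F X k ω + S.A j Fb X k ω := by
  obtain ⟨c, hc, hl⟩ := h.low
  have hX : ∀ k ω, c ≤ X k ω := fun k ω => (hl k ω).1
  have b1 : BM (fun ω' => √(X (k + j) ω' * S.V F X (k + j) (k + j + 1) ω')) :=
    BM.sqrt (BM.mul (h.mX.bm (k + j)) (V_bm S hF h.mX hc hX (k + j) (k + j + 1)))
  have b2 : BM (fun ω' => Fb (k + j) ω' / X (k + j) ω' * S.D X (k + j) ω') :=
    BM.mul (S5_fx_bm h hFb (k + j)) (D_bm S h.mX (k + j))
  have h1 : S.EJ j F k ω ≤ S.E k (fun ω' => √(X (k + j) ω' * S.V F X (k + j) (k + j + 1) ω') +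
      Fb (k + j) ω' / X (k + j) ω' * S.D X (k + j) ω') ω := by
    refine E_mono S k (D_bm S hF (k + j)) (BM.add b1 b2) (fun ω' => ?_) ω
    have h2 := D_split S hF h.mX hc hX (k + j) ω'
    have h3 : |F (k + j) ω'| / X (k + j) ω' * S.D X (k + j) ω' ≤
        Fb (k + j) ω' / X (k + j) ω' * S.D X (k + j) ω' := by
      apply mul_le_mul_of_nonneg_right _ (D_nonneg S X _ _)
      exact div_le_div_of_nonneg_right (hle (k + j) hk ω') (Pair.pos h (k + j) ω').1.le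
    linarith
  rw [E_add S k b1 b2 ω] at h1
  exact h1

theorem A_le_aW (h : S.Pair X Y K) (hF : S.Mart F) (hF0 : ∀ k ω, 0 ≤ F k ω) (j k : ℕ) (ω : Ω) :
    S.A j F X k ω ≤ S.a j F X k ω + S.W j F X k ω := by
  have _ := hF0
  have b1 : BM (fun ω' => F k ω' / X k ω' * S.D X (k + j) ω') :=
    BM.mul (S5_fx_bm h hF k) (D_bm S h.mX (k + j))
  have b2 : BM (fun ω' => |F (k + j) ω' / X (k + j) ω' - F k ω' / X k ω'| *
      S.D X (k + j) ω') :=
    BM.mul (BM.abs (BM.sub (S5_fx_bm h hF (k + j)) (S5_fx_bm h hF k))) (D_bm S h.mX (k + j))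
  have b3 : BM (fun ω' => F (k + j) ω' / X (k + j) ω' * S.D X (k + j) ω') :=
    BM.mul (S5_fx_bm h hF (k + j)) (D_bm S h.mX (k + j))
  have h1 : S.A j F X k ω ≤ S.E k (fun ω' => F k ω' / X k ω' * S.D X (k + j) ω' +
      |F (k + j) ω' / X (k + j) ω' - F k ω' / X k ω'| * S.D X (k + j) ω') ω := by
    refine E_mono S k b3 (BM.add b1 b2) (fun ω' => ?_) ω
    have h2 : F (k + j) ω' / X (k + j) ω' - F k ω' / X k ω' ≤
        |F (k + j) ω' / X (k + j) ω' - F k ω' / X k ω'| := le_abs_self _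
    have h3 := mul_le_mul_of_nonneg_right h2 (D_nonneg S X (k + j) ω')
    linarith
  rw [E_add S k b1 b2 ω] at h1
  have h4 : S.E k (fun ω' => F k ω' / X k ω' * S.D X (k + j) ω') ω =
      F k ω / X k ω * S.E k (S.D X (k + j)) ω :=
    E_mul S (S5_fx_ad h hF k) (S.D X (k + j)) ω
  rw [h4] at h1
  exact h1

theorem U_sum (h : S.Pair X Y K) (hF : S.Mart F) {N j M : ℕ} (hM : N + j ≤ M) :
    ∑ k ∈ Finset.range N, ∫ ω, S.U j F X k ω ^ 2 / X k ω ∂S.P ≤ ∫ ω, q F X M ω ∂S.P := by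
  have := S.prob
  obtain ⟨c, hc, hl⟩ := h.low
  have hX : ∀ k ω, c ≤ X k ω := fun k ω => (hl k ω).1
  have hX0 : ∀ k ω, 0 < X k ω := fun k ω => (Pair.pos h k ω).1
  refine le_trans ?_ (V_sum_one S hF h.mX hc hX hM)
  refine Finset.sum_le_sum (fun k _ => ?_)
  have hV := V_bm S hF h.mX hc hX (k + j) (k + j + 1)
  rw [← E_int S k hV]
  refine MeasureTheory.integral_mono
    ((BM.div (BM.pow (UAaW_bm h hF j k).1 2) (h.mX.bm k) hc (hX k)).int S.P)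
    ((E_bm S k hV).int S.P) (fun ω => ?_)
  show S.U j F X k ω ^ 2 / X k ω ≤ S.E k (S.V F X (k + j) (k + j + 1)) ω
  rw [div_le_iff₀ (hX0 k ω)]
  have h1 := E_cs S k (BM.sqrt (h.mX.bm (k + j))) (BM.sqrt hV) ω
  have e1 : (fun ω' => √(X (k + j) ω') * √(S.V F X (k + j) (k + j + 1) ω')) =
      (fun ω' => √(X (k + j) ω' * S.V F X (k + j) (k + j + 1) ω')) := by
    funext ω'
    rw [Real.sqrt_mul (hX0 _ _).le]
  have e2 : (fun ω' => √(X (k + j) ω') ^ 2) = X (k + j) := by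
    funext ω'
    exact Real.sq_sqrt (hX0 _ _).le
  have e3 : (fun ω' => √(S.V F X (k + j) (k + j + 1) ω') ^ 2) = S.V F X (k + j) (k + j + 1) := by
    funext ω'
    exact Real.sq_sqrt (V_nonneg S hF h.mX hc hX (Nat.le_succ _) ω')
  rw [e1, e2, e3, mart_E S h.mX (Nat.le_add_right k j) ω] at h1
  have h2 : S.U j F X k ω ^ 2 ≤ X k ω * S.E k (S.V F X (k + j) (k + j + 1)) ω := h1
  linarith

theorem A_sum (h : S.Pair X Y K) (hF : S.Mart F) (hF0 : ∀ k ω, 0 ≤ F k ω) {N j M : ℕ}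
    (hM : N + j ≤ M) :
    ∑ k ∈ Finset.range N, ∫ ω, S.A j F X k ω ^ 2 / X k ω ∂S.P ≤
      64 * K * ∫ ω, q F X M ω ∂S.P := by
  have := S.prob
  have _ := hF0
  obtain ⟨c, hc, hl⟩ := h.low
  have hX : ∀ k ω, c ≤ X k ω := fun k ω => (hl k ω).1
  have hX0 : ∀ k ω, 0 < X k ω := fun k ω => (Pair.pos h k ω).1
  have hK := S5_K_pos h
  have hμb : ∀ l, BM (fun ω => S.D X l ω ^ 2 / X l ω) := fun l =>
    BM.div (BM.pow (D_bm S h.mX l) 2) (h.mX.bm l) hc (hX l)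
  have hμ0 : ∀ l ω, 0 ≤ S.D X l ω ^ 2 / X l ω := fun l ω =>
    div_nonneg (sq_nonneg _) (hX0 l ω).le
  have hμa : ∀ l, S.Ad l (fun ω => S.D X l ω ^ 2 / X l ω) := by
    intro l ω η
    show S.D X l (S.s l ω η) ^ 2 / X l (S.s l ω η) = S.D X l ω ^ 2 / X l ω
    rw [D_ad S X l ω η, h.mX.ad l ω η]
  have hcar := carleson S hF h.mX hc hX hM (μ := fun l ω => S.D X l ω ^ 2 / X l ω) hμb hμ0 hμa
    (Λ := 16 * K) (by positivity) (fun k ω => sq_pot h k k (N + j) le_rfl ω)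
  have hgb : ∀ l, BM (fun ω => (F l ω / X l ω) ^ 2 * (S.D X l ω ^ 2 / X l ω)) := fun l =>
    BM.mul (BM.pow (S5_fx_bm h hF l) 2) (hμb l)
  have hg0 : ∀ l, 0 ≤ ∫ ω, (F l ω / X l ω) ^ 2 * (S.D X l ω ^ 2 / X l ω) ∂S.P := fun l =>
    MeasureTheory.integral_nonneg (fun ω => mul_nonneg (sq_nonneg _) (hμ0 l ω))
  have h1 : ∑ k ∈ Finset.range N, ∫ ω, S.A j F X k ω ^ 2 / X k ω ∂S.P ≤
      ∑ k ∈ Finset.range N,
        ∫ ω, (F (k + j) ω / X (k + j) ω) ^ 2 * (S.D X (k + j) ω ^ 2 / X (k + j) ω) ∂S.P := by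
    refine Finset.sum_le_sum (fun k _ => ?_)
    rw [← E_int S k (hgb (k + j))]
    refine MeasureTheory.integral_mono
      ((BM.div (BM.pow (UAaW_bm h hF j k).2.1 2) (h.mX.bm k) hc (hX k)).int S.P)
      ((E_bm S k (hgb (k + j))).int S.P) (fun ω => ?_)
    show S.A j F X k ω ^ 2 / X k ω ≤ S.E k
      (fun ω => (F (k + j) ω / X (k + j) ω) ^ 2 * (S.D X (k + j) ω ^ 2 / X (k + j) ω)) ω
    rw [div_le_iff₀ (hX0 k ω)]
    have h2 := E_cs_div S k (f := fun ω' => F (k + j) ω' / X (k + j) ω' * S.D X (k + j) ω')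
      (BM.mul (S5_fx_bm h hF (k + j)) (D_bm S h.mX (k + j))) (h.mX.bm (k + j)) hc (hX (k + j)) ω
    have e1 : (fun ω' => (F (k + j) ω' / X (k + j) ω' * S.D X (k + j) ω') ^ 2 / X (k + j) ω') =
        (fun ω => (F (k + j) ω / X (k + j) ω) ^ 2 * (S.D X (k + j) ω ^ 2 / X (k + j) ω)) := by
      funext ω'
      ring
    rw [e1, mart_E S h.mX (Nat.le_add_right k j) ω] at h2
    exact h2
  have h3 : ∑ k ∈ Finset.range N,
        ∫ ω, (F (k + j) ω / X (k + j) ω) ^ 2 * (S.D X (k + j) ω ^ 2 / X (k + j) ω) ∂S.P ≤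
      ∑ l ∈ Finset.range (N + j),
        ∫ ω, (F l ω / X l ω) ^ 2 * (S.D X l ω ^ 2 / X l ω) ∂S.P := by
    rw [add_comm N j, Finset.sum_range_add]
    have h4 : (0:ℝ) ≤ ∑ x ∈ Finset.range j,
        ∫ ω, (F x ω / X x ω) ^ 2 * (S.D X x ω ^ 2 / X x ω) ∂S.P :=
      Finset.sum_nonneg (fun l _ => hg0 l)
    have h5 : ∑ k ∈ Finset.range N,
        ∫ ω, (F (k + j) ω / X (k + j) ω) ^ 2 * (S.D X (k + j) ω ^ 2 / X (k + j) ω) ∂S.P =
        ∑ k ∈ Finset.range N,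
        ∫ ω, (F (j + k) ω / X (j + k) ω) ^ 2 * (S.D X (j + k) ω ^ 2 / X (j + k) ω) ∂S.P :=
      Finset.sum_congr rfl (fun k _ => by rw [add_comm k j])
    rw [h5]
    linarith
  have h6 := h1.trans (h3.trans hcar)
  calc _ ≤ 4 * (16 * K) * ∫ ω, q F X M ω ∂S.P := h6
    _ = _ := by ring

theorem a_sum (h : S.Pair X Y K) (hF : S.Mart F) (hF0 : ∀ k ω, 0 ≤ F k ω) {N j M : ℕ}
    (hM : N + j ≤ M) :
    ∑ k ∈ Finset.range N, ∫ ω, S.a j F X k ω ^ 2 / X k ω ∂S.P ≤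
      64 * K * ∫ ω, q F X M ω ∂S.P := by
  have := S.prob
  have _ := hF0
  obtain ⟨c, hc, hl⟩ := h.low
  have hX : ∀ k ω, c ≤ X k ω := fun k ω => (hl k ω).1
  have hX0 : ∀ k ω, 0 < X k ω := fun k ω => (Pair.pos h k ω).1
  have hK := S5_K_pos h
  have hμb : ∀ l, BM (fun ω => S.EJ j X l ω ^ 2 / X l ω) := fun l =>
    BM.div (BM.pow (EJ_bm S h.mX j l) 2) (h.mX.bm l) hc (hX l)
  have hμ0 : ∀ l ω, 0 ≤ S.EJ j X l ω ^ 2 / X l ω := fun l ω =>
    div_nonneg (sq_nonneg _) (hX0 l ω).le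
  have hμa : ∀ l, S.Ad l (fun ω => S.EJ j X l ω ^ 2 / X l ω) := by
    intro l ω η
    show S.EJ j X l (S.s l ω η) ^ 2 / X l (S.s l ω η) = S.EJ j X l ω ^ 2 / X l ω
    rw [EJ_ad S j X l ω η, h.mX.ad l ω η]
  have hNM : N ≤ M := by omega
  have hcar := carleson S hF h.mX hc hX hNM (μ := fun l ω => S.EJ j X l ω ^ 2 / X l ω) hμb hμ0 hμa
    (Λ := 16 * K) (by positivity) (fun k ω => mu_pot h j k N ω)
  have h1 : ∑ k ∈ Finset.range N, ∫ ω, S.a j F X k ω ^ 2 / X k ω ∂S.P =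
      ∑ k ∈ Finset.range N, ∫ ω, (F k ω / X k ω) ^ 2 * (S.EJ j X k ω ^ 2 / X k ω) ∂S.P := by
    refine Finset.sum_congr rfl (fun k _ => ?_)
    congr 1
    funext ω
    show (F k ω / X k ω * S.EJ j X k ω) ^ 2 / X k ω =
      (F k ω / X k ω) ^ 2 * (S.EJ j X k ω ^ 2 / X k ω)
    ring
  rw [h1]
  calc _ ≤ 4 * (16 * K) * ∫ ω, q F X M ω ∂S.P := hcar
    _ = _ := by ring

theorem W_sum (h : S.Pair X Y K) (hF : S.Mart F) (hF0 : ∀ k ω, 0 ≤ F k ω) {N j M : ℕ}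
    (hM : N + j ≤ M) :
    ∑ k ∈ Finset.range N, ∫ ω, S.W j F X k ω ^ 2 / X k ω ∂S.P ≤
      4 * j * ∫ ω, q F X M ω ∂S.P := by
  have := S.prob
  obtain ⟨c, hc, hl⟩ := h.low
  have hX : ∀ k ω, c ≤ X k ω := fun k ω => (hl k ω).1
  have hX0 : ∀ k ω, 0 < X k ω := fun k ω => (Pair.pos h k ω).1
  have hX00 : ∀ k ω, 0 ≤ X k ω := fun k ω => (Pair.pos h k ω).1.le
  have h1 : ∑ k ∈ Finset.range N, ∫ ω, S.W j F X k ω ^ 2 / X k ω ∂S.P ≤
      ∑ k ∈ Finset.range N, 4 * ∫ ω, S.V F X k (k + j) ω ∂S.P := by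
    refine Finset.sum_le_sum (fun k _ => ?_)
    have hV := V_bm S hF h.mX hc hX k (k + j)
    rw [← MeasureTheory.integral_const_mul]
    refine MeasureTheory.integral_mono
      ((BM.div (BM.pow (UAaW_bm h hF j k).2.2.2 2) (h.mX.bm k) hc (hX k)).int S.P)
      ((BM.mul (BM.const 4) hV).int S.P) (fun ω => ?_)
    show S.W j F X k ω ^ 2 / X k ω ≤ 4 * S.V F X k (k + j) ω
    rw [div_le_iff₀ (hX0 k ω)]
    have hkl : k ≤ k + j := Nat.le_add_right k j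
    have h2 := E_shift S hF h.mX hc hX hkl (D_bm S h.mX (k + j)) ω
    have e1 : (fun ω' => |F (k + j) ω' / X (k + j) ω' - F k ω' / X k ω'| *
        |S.D X (k + j) ω'|) = (fun ω' => |F (k + j) ω' / X (k + j) ω' - F k ω' / X k ω'| *
        S.D X (k + j) ω') := by
      funext ω'
      rw [abs_of_nonneg (D_nonneg S X (k + j) ω')]
    rw [e1] at h2
    have h3 : S.E k (fun ω' => S.D X (k + j) ω' ^ 2 / X (k + j) ω') ω ≤ 4 * X k ω := by
      rw [← mart_E S h.mX hkl ω, ← E_const_mul S k 4 (X (k + j)) ω]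
      refine E_mono S k (BM.div (BM.pow (D_bm S h.mX (k + j)) 2) (h.mX.bm (k + j)) hc
        (hX (k + j))) (BM.mul (BM.const 4) (h.mX.bm (k + j))) (fun ω' => ?_) ω
      rw [div_le_iff₀ (hX0 (k + j) ω')]
      have h4 := D_le S h.mX hX00 (k + j) ω'
      have h5 := D_nonneg S X (k + j) ω'
      nlinarith [hX00 (k + j) ω']
    have hW0 : 0 ≤ S.W j F X k ω := (UAaW_nonneg h hF hF0 j k ω).2.2
    have hV0 := V_nonneg S hF h.mX hc hX hkl ω
    have hE0 : 0 ≤ S.E k (fun ω' => S.D X (k + j) ω' ^ 2 / X (k + j) ω') ω :=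
      E_nonneg S k (fun ω' => div_nonneg (sq_nonneg _) (hX00 _ _)) ω
    have h6 : S.W j F X k ω ^ 2 ≤ S.V F X k (k + j) ω *
        S.E k (fun ω' => S.D X (k + j) ω' ^ 2 / X (k + j) ω') ω := by
      have h7 : S.W j F X k ω ≤ √(S.V F X k (k + j) ω *
        S.E k (fun ω' => S.D X (k + j) ω' ^ 2 / X (k + j) ω') ω) := h2
      calc S.W j F X k ω ^ 2 ≤ (√(S.V F X k (k + j) ω *
        S.E k (fun ω' => S.D X (k + j) ω' ^ 2 / X (k + j) ω') ω)) ^ 2 :=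
            pow_le_pow_left₀ hW0 h7 2
        _ = _ := Real.sq_sqrt (mul_nonneg hV0 hE0)
    calc S.W j F X k ω ^ 2 ≤ S.V F X k (k + j) ω *
        S.E k (fun ω' => S.D X (k + j) ω' ^ 2 / X (k + j) ω') ω := h6
      _ ≤ S.V F X k (k + j) ω * (4 * X k ω) := mul_le_mul_of_nonneg_left h3 hV0
      _ = 4 * S.V F X k (k + j) ω * X k ω := by ring
  refine h1.trans ?_
  rw [← Finset.mul_sum]
  have h8 := V_sum S hF h.mX hc hX hM
  calc 4 * ∑ k ∈ Finset.range N, ∫ ω, S.V F X k (k + j) ω ∂S.P ≤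
      4 * (j * ∫ ω, q F X M ω ∂S.P) := by linarith
    _ = _ := by ring

end Pool.Agent.Lib.MP_f0c028_an.SQ
end

section

set_option autoImplicit false

/-! # TASK M1: the main term in class one

`n = j + 2`, `ε = 1/n`, `f = F/X`, `g = G/Y`, `x = EJ j X/X`, `y = EJ j Y/Y`, `ω_k = (be_k/Y_k)^ε ∈ (0,1]`, `a_k(F) a_k(G) = f g X Y x y`.
In class one `f ≤ 2 al` (`pr_exists`), so the class one sum is at most `2 ∑ ∫ (al X √Y x ω^(-1/2)) (g √Y y ω^(1/2))`; `P_cs_sum`.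
First factor: `al² X² Y x² ω⁻¹ ≤ K al² (X x²) (Y/be)^ε` and `(Y/be)^ε ≤ 1 + ε Y/be` (Bernoulli), `X x² = EJ²/X`. By `al_sum` (`μ = EJ²/X`, `Λ = 16 K`, `mu_pot`) and
`crit_sum`: `∑ ∫ ≤ K (16 K R + ε 1280 (j+1) K R) ≤ 1296 K² R`, `R = RR N`.
Second factor: `g² Y y² ω = g² be^ε ps`, `ps = Y^(1-ε) y²`: by `carleson_restart` and `look_pot` (`Λ = 200 n`): `∑ ∫ ≤ 800 n (∫ q_M(G,Y) + R)`.
`R ≤ (16/3) ∫ q_M(F,X) ≤ (16/3) A` (`R_bound`) and `∫ q_M(G,Y) ≤ A`. So the square of the class one sum is at most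
`4 · 1296 K² (16/3) A · 800 (j+2) (19/3) A ≤ 1.5·10⁸ K² (j+2) A² ≤ (20000 K √(j+1) A)²`. -/

open MeasureTheory

namespace Pool.Agent.Lib.MP_f0c028_an.SQ

variable {Ω : Type} [MeasurableSpace Ω]

open Classical in
theorem class_one {S : Sp Ω} {F G X Y : ℕ → Ω → ℝ} {K : ℝ} (h : S.Pair X Y K) (hF : S.Mart F)
    (hF0 : ∀ k ω, 0 ≤ F k ω) (hG : S.Mart G) (hG0 : ∀ k ω, 0 ≤ G k ω) {N M : ℕ} (hM : N ≤ M)
    (j : ℕ) {A : ℝ} (hFA : ∫ ω, q F X M ω ∂S.P ≤ A) (hGA : ∫ ω, q G Y M ω ∂S.P ≤ A) :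
    ∑ k ∈ Finset.range N, ∫ ω, (if G k ω ^ 2 / Y k ω ≤ F k ω ^ 2 / X k ω then
        S.a j F X k ω * S.a j G Y k ω else 0) ∂S.P ≤ 20000 * K * √(j + 1) * A := by
  classical
  haveI := S.prob
  obtain ⟨al, be, rs, hp, hcls, hrs⟩ := pr_exists h hF hF0 hG
  obtain ⟨c, hc, hlow⟩ := h.low
  obtain ⟨cb, hcb, hbe⟩ := hp.be_low
  have hne : Nonempty Ω := by
    by_contra hn
    rw [not_nonempty_iff] at hn
    have h1 : S.P Set.univ = 1 := measure_univ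
    rw [Set.univ_eq_empty_iff.2 hn, measure_empty] at h1
    exact zero_ne_one h1
  obtain ⟨ω0⟩ := hne
  have hK1 : 1 ≤ K := (h.one 0 ω0).trans (h.le 0 ω0)
  have hK0 : 0 ≤ K := zero_le_one.trans hK1
  have hXpos : ∀ k ω, 0 < X k ω := fun k ω => hc.trans_le (hlow k ω).1
  have hYpos : ∀ k ω, 0 < Y k ω := fun k ω => hc.trans_le (hlow k ω).2
  have hbpos : ∀ k ω, 0 < be k ω := fun k ω => hcb.trans_le (hbe k ω)
  have hj0 : (0 : ℝ) ≤ (j : ℝ) := Nat.cast_nonneg j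
  have hj2 : (0 : ℝ) < (j : ℝ) + 2 := by linarith
  obtain ⟨ε, hεdef⟩ : ∃ ε : ℝ, ε = 1 / ((j : ℝ) + 2) := ⟨_, rfl⟩
  have hε0 : 0 < ε := by rw [hεdef]; exact one_div_pos.2 hj2
  have hε1 : ε < 1 := by
    rw [hεdef, div_lt_one hj2]
    linarith
  have hεj : ε * ((j : ℝ) + 1) ≤ 1 := by
    rw [hεdef, one_div, inv_mul_le_iff₀ hj2]
    linarith
  have hA0 : 0 ≤ A := by
    refine le_trans (integral_nonneg ?_) hFA
    intro ω
    exact div_nonneg (sq_nonneg _) (hXpos M ω).le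
  -- the mass of the restarts
  obtain ⟨R, hRdef⟩ : ∃ R : ℝ, R = S.RR X al rs N := ⟨_, rfl⟩
  have hR0 : 0 ≤ R := by rw [hRdef]; exact RR_nonneg (fun k ω => (hXpos k ω).le) N
  have hRA : R ≤ 16 / 3 * A := by
    rw [hRdef]
    exact (R_bound h hF hF0 hp hM).trans (mul_le_mul_of_nonneg_left hFA (by norm_num))
  -- the factors
  let μ : ℕ → Ω → ℝ := fun k ω => S.EJ j X k ω ^ 2 / X k ω
  let Pf : ℕ → Ω → ℝ := fun k ω =>
    al k ω * S.EJ j X k ω * √(Y k ω ^ (1 + ε) * be k ω ^ (-ε))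
  let Qf : ℕ → Ω → ℝ := fun k ω =>
    G k ω / Y k ω * (S.EJ j Y k ω / Y k ω) * √(be k ω ^ ε * Y k ω ^ (1 - ε))
  have hμ : ∀ k, BM (μ k) := fun k =>
    ((EJ_bm S h.mX j k).pow 2).div (h.mX.bm k) hc (fun ω => (hlow k ω).1)
  have hμ0 : ∀ k ω, 0 ≤ μ k ω := fun k ω => div_nonneg (sq_nonneg _) (hXpos k ω).le
  have hPbm : ∀ k, BM (Pf k) := fun k =>
    ((hp.al_bm k).mul (EJ_bm S h.mX j k)).mul
      ((((h.mY.bm k).rpow hc (fun ω => (hlow k ω).2) (1 + ε)).mul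
        ((hp.be_bm k).rpow hcb (fun ω => hbe k ω) (-ε))).sqrt)
  have hQbm : ∀ k, BM (Qf k) := fun k =>
    (((hG.bm k).div (h.mY.bm k) hc (fun ω => (hlow k ω).2)).mul
      ((EJ_bm S h.mY j k).div (h.mY.bm k) hc (fun ω => (hlow k ω).2))).mul
      ((((hp.be_bm k).rpow hcb (fun ω => hbe k ω) ε).mul
        ((h.mY.bm k).rpow hc (fun ω => (hlow k ω).2) (1 - ε))).sqrt)
  -- first factor
  have hP2 : ∀ k ω, Pf k ω ^ 2 ≤
      K * (al k ω ^ 2 * μ k ω) + K * ε * (al k ω ^ 2 * μ k ω * (Y k ω / be k ω)) := by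
    intro k ω
    have hX := hXpos k ω
    have hY := hYpos k ω
    have hb := hbpos k ω
    have h1 : Pf k ω ^ 2 = al k ω ^ 2 * S.EJ j X k ω ^ 2 * (Y k ω ^ (1 + ε) * be k ω ^ (-ε)) := by
      change (al k ω * S.EJ j X k ω * √(Y k ω ^ (1 + ε) * be k ω ^ (-ε))) ^ 2 = _
      rw [mul_pow, mul_pow, Real.sq_sqrt
        (mul_nonneg (Real.rpow_nonneg hY.le _) (Real.rpow_nonneg hb.le _))]
    have h2 : Y k ω ^ (1 + ε) * be k ω ^ (-ε) = Y k ω * (Y k ω / be k ω) ^ ε := by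
      rw [Real.rpow_add hY, Real.rpow_one, Real.div_rpow hY.le hb.le, Real.rpow_neg hb.le]
      ring
    have h3 : (Y k ω / be k ω) ^ ε ≤ 1 + ε * (Y k ω / be k ω) := by
      have hb1 : (-1 : ℝ) ≤ Y k ω / be k ω - 1 := by
        have := div_nonneg hY.le hb.le
        linarith
      have h4 := rpow_one_add_le_one_add_mul_self hb1 hε0.le hε1.le
      have h5 : 1 + (Y k ω / be k ω - 1) = Y k ω / be k ω := by ring
      rw [h5] at h4
      refine h4.trans ?_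
      have : ε * (Y k ω / be k ω - 1) = ε * (Y k ω / be k ω) - ε := by ring
      rw [this]
      linarith
    have h6 : S.EJ j X k ω ^ 2 * Y k ω ≤ K * μ k ω := by
      have h7 : S.EJ j X k ω ^ 2 = μ k ω * X k ω := by
        change _ = S.EJ j X k ω ^ 2 / X k ω * X k ω
        rw [div_mul_cancel₀ _ hX.ne']
      rw [h7, mul_assoc, mul_comm K]
      exact mul_le_mul_of_nonneg_left (h.le k ω) (hμ0 k ω)
    have h8 : 0 ≤ 1 + ε * (Y k ω / be k ω) :=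
      add_nonneg zero_le_one (mul_nonneg hε0.le (div_nonneg hY.le hb.le))
    calc Pf k ω ^ 2
        = al k ω ^ 2 * (S.EJ j X k ω ^ 2 * Y k ω) * (Y k ω / be k ω) ^ ε := by
          rw [h1, h2]; ring
      _ ≤ al k ω ^ 2 * (S.EJ j X k ω ^ 2 * Y k ω) * (1 + ε * (Y k ω / be k ω)) :=
          mul_le_mul_of_nonneg_left h3
            (mul_nonneg (sq_nonneg _) (mul_nonneg (sq_nonneg _) hY.le))
      _ ≤ al k ω ^ 2 * (K * μ k ω) * (1 + ε * (Y k ω / be k ω)) :=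
          mul_le_mul_of_nonneg_right (mul_le_mul_of_nonneg_left h6 (sq_nonneg _)) h8
      _ = _ := by ring
  have hal := al_sum h hp (N := N) hμ hμ0 (Λ := 16 * K) (by positivity)
    (fun k ω => mu_pot h j k N ω)
  have hcr := crit_sum h hp j N
  have hb1 : ∀ k, BM (fun ω => al k ω ^ 2 * μ k ω) := fun k => ((hp.al_bm k).pow 2).mul (hμ k)
  have hb2 : ∀ k, BM (fun ω => al k ω ^ 2 * μ k ω * (Y k ω / be k ω)) := fun k =>
    (hb1 k).mul ((h.mY.bm k).div (hp.be_bm k) hcb (fun ω => hbe k ω))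
  have hPs : ∑ k ∈ Finset.range N, ∫ ω, Pf k ω ^ 2 ∂S.P ≤ 1296 * K ^ 2 * R := by
    have h1 : ∑ k ∈ Finset.range N, ∫ ω, Pf k ω ^ 2 ∂S.P ≤
        K * (∑ k ∈ Finset.range N, ∫ ω, al k ω ^ 2 * μ k ω ∂S.P) +
        K * ε * (∑ k ∈ Finset.range N, ∫ ω, al k ω ^ 2 * μ k ω * (Y k ω / be k ω) ∂S.P) := by
      rw [Finset.mul_sum, Finset.mul_sum, ← Finset.sum_add_distrib]
      refine Finset.sum_le_sum fun k _ => ?_
      rw [← integral_const_mul, ← integral_const_mul, ← integral_add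
        ((hb1 k).int S.P |>.const_mul K) ((hb2 k).int S.P |>.const_mul (K * ε))]
      exact integral_mono (((hPbm k).pow 2).int S.P)
        (((hb1 k).int S.P |>.const_mul K).add ((hb2 k).int S.P |>.const_mul (K * ε)))
        (fun ω => hP2 k ω)
    have h2 : ∑ k ∈ Finset.range N, ∫ ω, al k ω ^ 2 * μ k ω ∂S.P ≤ 16 * K * R := by
      rw [hRdef]; exact hal
    have h3 : ∑ k ∈ Finset.range N, ∫ ω, al k ω ^ 2 * μ k ω * (Y k ω / be k ω) ∂S.P ≤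
        1280 * (j + 1) * K * R := by
      rw [hRdef]; exact hcr
    have h4 : K * ε * (1280 * (j + 1) * K * R) ≤ 1280 * K ^ 2 * R := by
      have : K * ε * (1280 * (j + 1) * K * R) = 1280 * K ^ 2 * R * (ε * (j + 1)) := by ring
      rw [this]
      exact mul_le_of_le_one_right (by positivity) hεj
    have h5 := mul_le_mul_of_nonneg_left h2 hK0
    have h6 := mul_le_mul_of_nonneg_left h3 (mul_nonneg hK0 hε0.le)
    have h7 : K * (16 * K * R) = 16 * K ^ 2 * R := by ring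
    linarith
  -- second factor
  have hQs : ∑ k ∈ Finset.range N, ∫ ω, Qf k ω ^ 2 ∂S.P ≤ 800 * ((j : ℝ) + 2) * (A + R) := by
    have hcar := carleson_restart h hG hp hrs hε0 hε1 hM (ψ := S.ps j Y)
      (fun k => (ps_facts h.mY hc (fun k ω => (hlow k ω).2) j k).1)
      (fun k => (ps_facts h.mY hc (fun k ω => (hlow k ω).2) j k).2.2)
      (fun k => (ps_facts h.mY hc (fun k ω => (hlow k ω).2) j k).2.1)
      (Λ := 200 * ((j : ℝ) + 2)) (by positivity)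
      (fun k ω => by
        have := look_pot h.mY hc (fun k ω => (hlow k ω).2) j k N ω
        rw [hεdef]
        exact this)
    have he : ∀ k, ∫ ω, Qf k ω ^ 2 ∂S.P =
        ∫ ω, (G k ω / Y k ω) ^ 2 * (be k ω ^ ε * S.ps j Y k ω) ∂S.P := by
      intro k
      refine integral_congr_ae (Filter.Eventually.of_forall fun ω => ?_)
      change (G k ω / Y k ω * (S.EJ j Y k ω / Y k ω) * √(be k ω ^ ε * Y k ω ^ (1 - ε))) ^ 2 =
        (G k ω / Y k ω) ^ 2 * (be k ω ^ ε *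
          (Y k ω ^ (1 - 1 / ((j : ℝ) + 2)) * (S.EJ j Y k ω / Y k ω) ^ 2))
      rw [← hεdef, mul_pow, mul_pow, Real.sq_sqrt (mul_nonneg (Real.rpow_nonneg (hbpos k ω).le _)
        (Real.rpow_nonneg (hYpos k ω).le _))]
      ring
    rw [Finset.sum_congr rfl (fun k _ => he k)]
    refine hcar.trans ?_
    rw [← hRdef]
    have h1 : 4 * (200 * ((j : ℝ) + 2)) = 800 * ((j : ℝ) + 2) := by ring
    rw [h1]
    exact mul_le_mul_of_nonneg_left (by linarith) (by positivity)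
  -- the product
  have hPQ : ∀ k ω, (if G k ω ^ 2 / Y k ω ≤ F k ω ^ 2 / X k ω then
      S.a j F X k ω * S.a j G Y k ω else 0) ≤ 2 * (Pf k ω * Qf k ω) := by
    intro k ω
    have hX := hXpos k ω
    have hY := hYpos k ω
    have hb := hbpos k ω
    have hprod : Pf k ω * Qf k ω =
        al k ω * S.EJ j X k ω * (G k ω / Y k ω * S.EJ j Y k ω) := by
      change al k ω * S.EJ j X k ω * √(Y k ω ^ (1 + ε) * be k ω ^ (-ε)) *
        (G k ω / Y k ω * (S.EJ j Y k ω / Y k ω) * √(be k ω ^ ε * Y k ω ^ (1 - ε))) = _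
      have h1 : √(Y k ω ^ (1 + ε) * be k ω ^ (-ε)) * √(be k ω ^ ε * Y k ω ^ (1 - ε)) = Y k ω := by
        rw [← Real.sqrt_mul (mul_nonneg (Real.rpow_nonneg hY.le _) (Real.rpow_nonneg hb.le _))]
        have h2 : Y k ω ^ (1 + ε) * be k ω ^ (-ε) * (be k ω ^ ε * Y k ω ^ (1 - ε)) =
            Y k ω ^ 2 := by
          have h3 : be k ω ^ (-ε) * be k ω ^ ε = 1 := by
            rw [← Real.rpow_add hb, neg_add_cancel, Real.rpow_zero]
          have h4 : Y k ω ^ (1 + ε) * Y k ω ^ (1 - ε) = Y k ω ^ 2 := by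
            rw [← Real.rpow_add hY, ← Real.rpow_natCast]
            congr 1
            push_cast
            ring
          calc _ = (Y k ω ^ (1 + ε) * Y k ω ^ (1 - ε)) * (be k ω ^ (-ε) * be k ω ^ ε) := by ring
            _ = _ := by rw [h3, h4, mul_one]
        rw [h2, Real.sqrt_sq hY.le]
      calc _ = al k ω * S.EJ j X k ω * (G k ω / Y k ω * (S.EJ j Y k ω / Y k ω)) *
            (√(Y k ω ^ (1 + ε) * be k ω ^ (-ε)) * √(be k ω ^ ε * Y k ω ^ (1 - ε))) := by ring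
        _ = _ := by
          rw [h1]
          field_simp
    rw [hprod]
    have hn1 : 0 ≤ S.EJ j X k ω := EJ_nonneg S j X k ω
    have hn2 : 0 ≤ G k ω / Y k ω * S.EJ j Y k ω :=
      mul_nonneg (div_nonneg (hG0 k ω) hY.le) (EJ_nonneg S j Y k ω)
    split_ifs with hcl
    · change F k ω / X k ω * S.EJ j X k ω * (G k ω / Y k ω * S.EJ j Y k ω) ≤ _
      have h1 := mul_le_mul_of_nonneg_right
        (mul_le_mul_of_nonneg_right (hcls k ω hcl) hn1) hn2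
      refine h1.trans (le_of_eq (by ring))
    · exact mul_nonneg (by norm_num) (mul_nonneg (mul_nonneg (hp.al_nonneg k ω) hn1) hn2)
  have hPQ0 : ∀ k ω, 0 ≤ (if G k ω ^ 2 / Y k ω ≤ F k ω ^ 2 / X k ω then
      S.a j F X k ω * S.a j G Y k ω else 0) := by
    intro k ω
    split_ifs with hcl
    · exact mul_nonneg
        (mul_nonneg (div_nonneg (hF0 k ω) (hXpos k ω).le) (EJ_nonneg S j X k ω))
        (mul_nonneg (div_nonneg (hG0 k ω) (hYpos k ω).le) (EJ_nonneg S j Y k ω))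
    · exact le_rfl
  obtain ⟨T, hTdef⟩ : ∃ T : ℝ, T = ∑ k ∈ Finset.range N, ∫ ω, Pf k ω * Qf k ω ∂S.P := ⟨_, rfl⟩
  have hsum : ∑ k ∈ Finset.range N, ∫ ω, (if G k ω ^ 2 / Y k ω ≤ F k ω ^ 2 / X k ω then
        S.a j F X k ω * S.a j G Y k ω else 0) ∂S.P ≤ 2 * T := by
    rw [hTdef, Finset.mul_sum]
    refine Finset.sum_le_sum fun k _ => ?_
    rw [← integral_const_mul]
    exact integral_mono_of_nonneg (Filter.Eventually.of_forall (hPQ0 k))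
      ((((hPbm k).mul (hQbm k)).int S.P).const_mul 2) (Filter.Eventually.of_forall (hPQ k))
  have hcs := P_cs_sum S N hPbm hQbm
  rw [← hTdef] at hcs
  have hPs' : ∑ k ∈ Finset.range N, ∫ ω, Pf k ω ^ 2 ∂S.P ≤ 6912 * K ^ 2 * A := by
    refine hPs.trans ?_
    have h1 := mul_le_mul_of_nonneg_left hRA (show (0 : ℝ) ≤ 1296 * K ^ 2 by positivity)
    refine h1.trans (le_of_eq (by ring))
  have hQs' : ∑ k ∈ Finset.range N, ∫ ω, Qf k ω ^ 2 ∂S.P ≤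
      15200 / 3 * ((j : ℝ) + 2) * A := by
    refine hQs.trans ?_
    have h1 := mul_le_mul_of_nonneg_left hRA
      (show (0 : ℝ) ≤ 800 * ((j : ℝ) + 2) by positivity)
    have h2 : 800 * ((j : ℝ) + 2) * (A + R) = 800 * ((j : ℝ) + 2) * A +
      800 * ((j : ℝ) + 2) * R := by ring
    rw [h2]
    have h3 : 15200 / 3 * ((j : ℝ) + 2) * A = 800 * ((j : ℝ) + 2) * A +
      800 * ((j : ℝ) + 2) * (16 / 3 * A) := by ring
    rw [h3]
    linarith
  have hQn : 0 ≤ ∑ k ∈ Finset.range N, ∫ ω, Qf k ω ^ 2 ∂S.P :=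
    Finset.sum_nonneg fun k _ => integral_nonneg fun ω => sq_nonneg _
  have hT2 : T ^ 2 ≤ 6912 * K ^ 2 * A * (15200 / 3 * ((j : ℝ) + 2) * A) :=
    hcs.trans (mul_le_mul hPs' hQs' hQn (by positivity))
  have hB : (2 * T) ^ 2 ≤ (20000 * K * √((j : ℝ) + 1) * A) ^ 2 := by
    have h1 : (20000 * K * √((j : ℝ) + 1) * A) ^ 2 =
        400000000 * (K ^ 2 * A ^ 2) * ((j : ℝ) + 1) := by
      rw [mul_pow, mul_pow, mul_pow, Real.sq_sqrt (by linarith)]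
      ring
    rw [h1]
    have h2 : (2 * T) ^ 2 = 4 * T ^ 2 := by ring
    rw [h2]
    have h3 : 4 * (6912 * K ^ 2 * A * (15200 / 3 * ((j : ℝ) + 2) * A)) =
        140083200 * (K ^ 2 * A ^ 2) * ((j : ℝ) + 2) := by ring
    have h4 : 140083200 * (K ^ 2 * A ^ 2) * ((j : ℝ) + 2) ≤
        400000000 * (K ^ 2 * A ^ 2) * ((j : ℝ) + 1) := by
      have h5 : (0 : ℝ) ≤ K ^ 2 * A ^ 2 := by positivity
      nlinarith [mul_nonneg h5 hj0]
    linarith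
  have hfin := (abs_le_of_sq_le_sq' hB (by positivity)).2
  exact hsum.trans hfin

end Pool.Agent.Lib.MP_f0c028_an.SQ
end

section

set_option autoImplicit false

/-! # TASK M2: the main term

`main_A`: `class_one` for `(F,G,X,Y)` and for `(G,F,Y,X)` (`Pair.symm`); at every point one of the two classes holds, and the products are nonnegative.
`main_term`: let `δ > 0`, `u = √(QF + δ)`, `v = √(QG + δ)`; apply `main_A` with `A = 1` to the martingales `F/u`, `G/v` (`q (F/u) X = q F X/u²`, `a j (F/u) X = a j F X/u`), so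
the sum is at most `40000 K √(j+1) u v` for every `δ > 0`; let `δ → 0` (`le_of_forall_pos_le_add`-style or continuity). -/

open MeasureTheory

namespace Pool.Agent.Lib.MP_f0c028_an.SQ

variable {Ω : Type} [MeasurableSpace Ω]

theorem M2_ite {f : Ω → ℝ} {p : Ω → Prop} {_ : DecidablePred p} (hp : MeasurableSet {ω | p ω})
    (hf : BM f) : BM (fun ω => if p ω then f ω else 0) := by
  obtain ⟨hm, C, hC⟩ := hf
  refine ⟨Measurable.ite hp hm measurable_const, C, fun ω => ?_⟩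
  have h0 : 0 ≤ C := (abs_nonneg _).trans (hC ω)
  change |if p ω then f ω else 0| ≤ C
  split_ifs
  · exact hC ω
  · rw [abs_zero]; exact h0

theorem M2_smul {S : Sp Ω} {F : ℕ → Ω → ℝ} (hF : S.Mart F) (c : ℝ) :
    S.Mart (fun k ω => c * F k ω) := by
  refine ⟨fun k => (BM.const c).mul (hF.bm k), fun k ω η => ?_, fun k ω => ?_⟩
  · rw [hF.ad k ω η]
  · rw [E_const_mul, hF.step]

theorem M2_a (S : Sp Ω) (j : ℕ) (F X : ℕ → Ω → ℝ) (c : ℝ) (k : ℕ) (ω : Ω) :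
    S.a j (fun k ω => c * F k ω) X k ω = c * S.a j F X k ω := by
  unfold Sp.a
  ring

theorem main_A {S : Sp Ω} {F G X Y : ℕ → Ω → ℝ} {K : ℝ} (h : S.Pair X Y K) (hF : S.Mart F)
    (hF0 : ∀ k ω, 0 ≤ F k ω) (hG : S.Mart G) (hG0 : ∀ k ω, 0 ≤ G k ω) {N M : ℕ} (hM : N ≤ M)
    (j : ℕ) {A : ℝ} (hFA : ∫ ω, q F X M ω ∂S.P ≤ A) (hGA : ∫ ω, q G Y M ω ∂S.P ≤ A) :
    ∑ k ∈ Finset.range N, ∫ ω, S.a j F X k ω * S.a j G Y k ω ∂S.P ≤
      40000 * K * √(j + 1) * A := by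
  have hX := h.mX
  have hY := h.mY
  obtain ⟨c, hc, hlow⟩ := h.low
  have hprob := S.prob
  have h1 := class_one h hF hF0 hG hG0 hM j hFA hGA
  have h2 := class_one (Pair.symm h) hG hG0 hF hF0 hM j hGA hFA
  have hqF : ∀ k, BM (q F X k) := fun k => q_bm S hF hX hc (fun k ω => (hlow k ω).1) k
  have hqG : ∀ k, BM (q G Y k) := fun k => q_bm S hG hY hc (fun k ω => (hlow k ω).2) k
  have haF : ∀ k, BM (S.a j F X k) := fun k => (UAaW_bm h hF j k).2.2.1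
  have haG : ∀ k, BM (S.a j G Y k) := fun k => (UAaW_bm (Pair.symm h) hG j k).2.2.1
  have h0 : ∀ k ω, 0 ≤ S.a j F X k ω * S.a j G Y k ω := fun k ω =>
    mul_nonneg (UAaW_nonneg h hF hF0 j k ω).2.1 (UAaW_nonneg (Pair.symm h) hG hG0 j k ω).2.1
  have hb1 : ∀ k, BM (fun ω => if G k ω ^ 2 / Y k ω ≤ F k ω ^ 2 / X k ω then
      S.a j F X k ω * S.a j G Y k ω else 0) := fun k =>
    M2_ite (measurableSet_le (hqG k).1 (hqF k).1) ((haF k).mul (haG k))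
  have hb2 : ∀ k, BM (fun ω => if F k ω ^ 2 / X k ω ≤ G k ω ^ 2 / Y k ω then
      S.a j G Y k ω * S.a j F X k ω else 0) := fun k =>
    M2_ite (measurableSet_le (hqF k).1 (hqG k).1) ((haG k).mul (haF k))
  have h3 : ∑ k ∈ Finset.range N, ∫ ω, S.a j F X k ω * S.a j G Y k ω ∂S.P ≤
      ∑ k ∈ Finset.range N, ∫ ω, (if G k ω ^ 2 / Y k ω ≤ F k ω ^ 2 / X k ω then
        S.a j F X k ω * S.a j G Y k ω else 0) ∂S.P +
      ∑ k ∈ Finset.range N, ∫ ω, (if F k ω ^ 2 / X k ω ≤ G k ω ^ 2 / Y k ω then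
        S.a j G Y k ω * S.a j F X k ω else 0) ∂S.P := by
    rw [← Finset.sum_add_distrib]
    refine Finset.sum_le_sum fun k _ => ?_
    rw [← integral_add ((hb1 k).int S.P) ((hb2 k).int S.P)]
    refine integral_mono (((haF k).mul (haG k)).int S.P)
      (((hb1 k).int S.P).add ((hb2 k).int S.P)) (fun ω => ?_)
    have hn := h0 k ω
    have hn' : 0 ≤ S.a j G Y k ω * S.a j F X k ω := by rw [mul_comm]; exact hn
    change S.a j F X k ω * S.a j G Y k ω ≤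
      (if G k ω ^ 2 / Y k ω ≤ F k ω ^ 2 / X k ω then S.a j F X k ω * S.a j G Y k ω else 0) +
      (if F k ω ^ 2 / X k ω ≤ G k ω ^ 2 / Y k ω then S.a j G Y k ω * S.a j F X k ω else 0)
    rcases le_total (G k ω ^ 2 / Y k ω) (F k ω ^ 2 / X k ω) with hc1 | hc1
    · rw [if_pos hc1]
      refine le_add_of_nonneg_right ?_
      split_ifs
      · exact hn'
      · exact le_rfl
    · rw [if_pos hc1, mul_comm (S.a j G Y k ω)]
      refine le_add_of_nonneg_left ?_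
      split_ifs
      · exact hn
      · exact le_rfl
  have h4 : 40000 * K * √((j : ℝ) + 1) * A =
      20000 * K * √((j : ℝ) + 1) * A + 20000 * K * √((j : ℝ) + 1) * A := by ring
  rw [h4]
  exact h3.trans (add_le_add h1 h2)

theorem main_term {S : Sp Ω} {F G X Y : ℕ → Ω → ℝ} {K : ℝ} (h : S.Pair X Y K) (hF : S.Mart F)
    (hF0 : ∀ k ω, 0 ≤ F k ω) (hG : S.Mart G) (hG0 : ∀ k ω, 0 ≤ G k ω) {N M : ℕ} (hM : N ≤ M)
    (j : ℕ) :
    ∑ k ∈ Finset.range N, ∫ ω, S.a j F X k ω * S.a j G Y k ω ∂S.P ≤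
      40000 * K * √(j + 1) * (√(∫ ω, q F X M ω ∂S.P) * √(∫ ω, q G Y M ω ∂S.P)) := by
  obtain ⟨c, hc, hlow⟩ := h.low
  have hXpos : ∀ k ω, 0 < X k ω := fun k ω => hc.trans_le (hlow k ω).1
  have hYpos : ∀ k ω, 0 < Y k ω := fun k ω => hc.trans_le (hlow k ω).2
  obtain ⟨QF, hQF⟩ : ∃ t : ℝ, t = ∫ ω, q F X M ω ∂S.P := ⟨_, rfl⟩
  obtain ⟨QG, hQG⟩ : ∃ t : ℝ, t = ∫ ω, q G Y M ω ∂S.P := ⟨_, rfl⟩
  have hQF0 : 0 ≤ QF := by
    rw [hQF]
    exact integral_nonneg fun ω => div_nonneg (sq_nonneg _) (hXpos M ω).le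
  have hQG0 : 0 ≤ QG := by
    rw [hQG]
    exact integral_nonneg fun ω => div_nonneg (sq_nonneg _) (hYpos M ω).le
  rw [← hQF, ← hQG]
  have key : ∀ δ : ℝ, 0 < δ →
      ∑ k ∈ Finset.range N, ∫ ω, S.a j F X k ω * S.a j G Y k ω ∂S.P ≤
        40000 * K * √((j : ℝ) + 1) * (√(QF + δ) * √(QG + δ)) := by
    intro δ hδ
    have hu : 0 < √(QF + δ) := Real.sqrt_pos.2 (by linarith)
    have hv : 0 < √(QG + δ) := Real.sqrt_pos.2 (by linarith)
    obtain ⟨u, hudef⟩ : ∃ t : ℝ, t = √(QF + δ) := ⟨_, rfl⟩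
    obtain ⟨v, hvdef⟩ : ∃ t : ℝ, t = √(QG + δ) := ⟨_, rfl⟩
    rw [← hudef, ← hvdef]
    rw [← hudef] at hu
    rw [← hvdef] at hv
    have hu2 : u ^ 2 = QF + δ := by rw [hudef]; exact Real.sq_sqrt (by linarith)
    have hv2 : v ^ 2 = QG + δ := by rw [hvdef]; exact Real.sq_sqrt (by linarith)
    have hq1 : ∫ ω, q (fun k ω => u⁻¹ * F k ω) X M ω ∂S.P ≤ 1 := by
      have he : ∀ ω, q (fun k ω => u⁻¹ * F k ω) X M ω = (u ^ 2)⁻¹ * q F X M ω := by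
        intro ω
        unfold q
        rw [mul_pow, inv_pow]
        ring
      rw [integral_congr_ae (Filter.Eventually.of_forall he), integral_const_mul, ← hQF, hu2,
        inv_mul_le_iff₀ (by linarith)]
      linarith
    have hq2 : ∫ ω, q (fun k ω => v⁻¹ * G k ω) Y M ω ∂S.P ≤ 1 := by
      have he : ∀ ω, q (fun k ω => v⁻¹ * G k ω) Y M ω = (v ^ 2)⁻¹ * q G Y M ω := by
        intro ω
        unfold q
        rw [mul_pow, inv_pow]
        ring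
      rw [integral_congr_ae (Filter.Eventually.of_forall he), integral_const_mul, ← hQG, hv2,
        inv_mul_le_iff₀ (by linarith)]
      linarith
    have h1 := main_A h (M2_smul hF u⁻¹)
      (fun k ω => mul_nonneg (inv_nonneg.2 hu.le) (hF0 k ω)) (M2_smul hG v⁻¹)
      (fun k ω => mul_nonneg (inv_nonneg.2 hv.le) (hG0 k ω)) hM j hq1 hq2
    have h2 : ∑ k ∈ Finset.range N, ∫ ω, S.a j (fun k ω => u⁻¹ * F k ω) X k ω *
        S.a j (fun k ω => v⁻¹ * G k ω) Y k ω ∂S.P =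
        u⁻¹ * v⁻¹ * ∑ k ∈ Finset.range N, ∫ ω, S.a j F X k ω * S.a j G Y k ω ∂S.P := by
      rw [Finset.mul_sum]
      refine Finset.sum_congr rfl fun k _ => ?_
      rw [← integral_const_mul]
      refine integral_congr_ae (Filter.Eventually.of_forall fun ω => ?_)
      change S.a j (fun k ω => u⁻¹ * F k ω) X k ω * S.a j (fun k ω => v⁻¹ * G k ω) Y k ω =
        u⁻¹ * v⁻¹ * (S.a j F X k ω * S.a j G Y k ω)
      rw [M2_a, M2_a]
      ring
    rw [h2, mul_one, ← mul_inv, inv_mul_le_iff₀ (mul_pos hu hv)] at h1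
    refine h1.trans (le_of_eq (by ring))
  have ht : Filter.Tendsto (fun δ : ℝ => 40000 * K * √((j : ℝ) + 1) * (√(QF + δ) * √(QG + δ)))
      (nhdsWithin 0 (Set.Ioi 0)) (nhds (40000 * K * √((j : ℝ) + 1) * (√QF * √QG))) := by
    have hcont : Continuous
        (fun δ : ℝ => 40000 * K * √((j : ℝ) + 1) * (√(QF + δ) * √(QG + δ))) := by fun_prop
    have h1 := hcont.tendsto 0
    rw [add_zero, add_zero] at h1
    exact h1.mono_left nhdsWithin_le_nhds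
  exact ge_of_tendsto ht (Filter.mem_of_superset self_mem_nhdsWithin fun δ hδ => key δ hδ)

end Pool.Agent.Lib.MP_f0c028_an.SQ
end
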