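import Pool.Agent.Lib.MP_f0c028_an.Mg.G002
import Pool.Agent.Lib.MP_f0c028_an.Mg.G015
import Pool.Agent.Lib.MP_f0c028_an.Mg.G009

section

set_option autoImplicit false

/-! # TASK GW7: pairings with wide heat kernels

`gk (2 s) (x - y) = ∫ z, gk s (x - z) * gk s (z - y)` (`gk_conv` after `z ↦ z - y`), so by Tonelli the left side (before squaring) is
`∫⁻ z, I z * J z`, `I z = ∫⁻ y, ofReal (gk s (z - y)) * a y`, `J z = ∫⁻ x, ofReal (gk s (z - x)) * b x` (`gk_sub_comm`).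
Cauchy-Schwarz (`cs_lint` for the measure `volume`, with the functions `√gk · a / √v` and `√gk · √v`, or `cs_lint` for the measure
`volume.withDensity (ofReal (gk s (z - ·)))`): `I z ^ 2 ≤ A z * V z`, `A z = ∫⁻ ofReal (gk s (z-y)) * (a y ^ 2 / v y)`,
`V z = ∫⁻ ofReal (gk s (z-y)) * v y = ofReal (vv w (s + r) z)` (`ht_semi`, `ofReal_integral_eq_lintegral_ofReal`), the same for `J`:
`J z ^ 2 ≤ B z * U z`, `V z * U z ≤ ofReal K` (`HA` at time `s + r`). So `(I z * J z)² ≤ ofReal K * (A z * B z)`, and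
`(∫⁻ I J)² ≤ ofReal K * (∫⁻ √A √B)² ≤ ofReal K * ∫⁻ A * ∫⁻ B` (`cs_lint`), `∫⁻ A = ∫⁻ a²/v` by Tonelli and `integral_gk`. -/

open Real

namespace Pool.Agent.Lib.MP_f0c028_an.GW

open MeasureTheory Set Filter Topology
open scoped ENNReal InnerProductSpace

private theorem GW7_gm (s : ℝ) :
    Measurable fun p : ℂ × ℂ => ENNReal.ofReal (gk s (p.1 - p.2)) :=
  ((gk_cont s).measurable.comp (measurable_fst.sub measurable_snd)).ennreal_ofReal

private theorem GW7_gm1 (s : ℝ) (z : ℂ) :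
    Measurable fun y : ℂ => ENNReal.ofReal (gk s (z - y)) :=
  ((gk_cont s).measurable.comp (measurable_const.sub measurable_id)).ennreal_ofReal

private theorem GW7_gm2 (s : ℝ) (y : ℂ) :
    Measurable fun z : ℂ => ENNReal.ofReal (gk s (z - y)) :=
  ((gk_cont s).measurable.comp (measurable_id.sub measurable_const)).ennreal_ofReal

private theorem GW7_cs (s : ℝ) (z : ℂ) {c : ℂ → ℝ≥0∞} (hc : Measurable c) {u : ℂ → ℝ}
    (hu : Measurable u) (hpos : ∀ y, 0 < u y) :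
    (∫⁻ y, ENNReal.ofReal (gk s (z - y)) * c y) ^ 2 ≤
      (∫⁻ y, ENNReal.ofReal (gk s (z - y)) * (c y ^ 2 / ENNReal.ofReal (u y))) *
        ∫⁻ y, ENNReal.ofReal (gk s (z - y)) * ENNReal.ofReal (u y) := by
  have hg := GW7_gm1 s z
  have hs1 : Measurable fun y => ENNReal.ofReal √(u y) := hu.sqrt.ennreal_ofReal
  have e0 : ∀ y, ENNReal.ofReal √(u y) ≠ 0 := fun y => by
    rw [Ne, ENNReal.ofReal_eq_zero, not_le]
    exact Real.sqrt_pos.mpr (hpos y)
  have e1 : ∀ y, ENNReal.ofReal √(u y) ^ 2 = ENNReal.ofReal (u y) := fun y => by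
    rw [← ENNReal.ofReal_pow (Real.sqrt_nonneg _), Real.sq_sqrt (hpos y).le]
  have e2 : ∀ y, c y / ENNReal.ofReal √(u y) * ENNReal.ofReal √(u y) = c y := fun y =>
    ENNReal.div_mul_cancel (e0 y) ENNReal.ofReal_ne_top
  have e3 : ∀ y, (c y / ENNReal.ofReal √(u y)) ^ 2 = c y ^ 2 / ENNReal.ofReal (u y) := fun y => by
    rw [div_eq_mul_inv, mul_pow, ← ENNReal.inv_pow, e1, div_eq_mul_inv]
  have h := cs_lint (μ := (volume : Measure ℂ).withDensity fun y => ENNReal.ofReal (gk s (z - y)))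
    (u := fun y => c y / ENNReal.ofReal √(u y)) (v := fun y => ENNReal.ofReal √(u y))
    (hc.div hs1).aemeasurable hs1.aemeasurable
  simp only [e1, e2, e3] at h
  have m1 : Measurable fun y => c y ^ 2 / ENNReal.ofReal (u y) :=
    (hc.pow_const 2).div hu.ennreal_ofReal
  have m2 : Measurable fun y => ENNReal.ofReal (u y) := hu.ennreal_ofReal
  rw [lintegral_withDensity_eq_lintegral_mul volume hg hc,
    lintegral_withDensity_eq_lintegral_mul volume hg m1,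
    lintegral_withDensity_eq_lintegral_mul volume hg m2] at h
  exact h

private theorem GW7_sqrt_le {X Y : ℝ≥0∞} (h : X ^ 2 ≤ Y) : X ≤ Y ^ (1 / (2 : ℝ)) := by
  have h1 : X = (X ^ 2) ^ (1 / (2 : ℝ)) := by
    rw [← ENNReal.rpow_natCast, ← ENNReal.rpow_mul]
    norm_num
  rw [h1]
  exact ENNReal.rpow_le_rpow h (by norm_num)

private theorem GW7_sq_sqrt (X : ℝ≥0∞) : (X ^ (1 / (2 : ℝ))) ^ 2 = X := by
  rw [← ENNReal.rpow_natCast, ← ENNReal.rpow_mul]
  norm_num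

private theorem GW7_lint_avg {s : ℝ} {q : ℂ → ℝ≥0∞} (hq : Measurable q)
    (k : (∀ x : ℂ, ∫⁻ z, ENNReal.ofReal (gk s (x - z)) = 1)) :
    ∫⁻ z, ∫⁻ y, ENNReal.ofReal (gk s (z - y)) * q y = ∫⁻ y, q y := by
  rw [lintegral_lintegral_swap ((GW7_gm s).mul (hq.comp measurable_snd)).aemeasurable]
  refine lintegral_congr fun y => ?_
  rw [lintegral_mul_const _ (GW7_gm2 s y)]
  simp_rw [gk_sub_comm s _ y]
  rw [k y, one_mul]

/-- the semigroup property in `ℝ≥0∞` -/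
theorem lint_gk_gk {s : ℝ} (hs : 0 < s) (x y : ℂ) :
    ∫⁻ z, ENNReal.ofReal (gk s (x - z)) * ENNReal.ofReal (gk s (z - y)) =
      ENNReal.ofReal (gk (2 * s) (x - y)) := by
  have h1 : ∀ z, ENNReal.ofReal (gk s (x - z)) * ENNReal.ofReal (gk s (z - y)) =
      ENNReal.ofReal (gk s (x - z) * gk s (z - y)) := fun z =>
    (ENNReal.ofReal_mul (gk_pos hs _).le).symm
  have h2 : Integrable fun z => gk s (x - z) * gk s (z - y) :=
    gk_mul_int hs (u := fun z => gk s (z - y))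
      ((gk_cont s).measurable.comp (measurable_id.sub measurable_const)) (M := (4 * π * s)⁻¹)
      (fun z => by
        rw [abs_of_pos (gk_pos hs _)]
        exact gk_le hs _) x
  have h3 : ∫ z, gk s (x - z) * gk s (z - y) = gk (2 * s) (x - y) := by
    have h4 := integral_sub_right_eq_self (fun z' : ℂ => gk s ((x - y) - z') * gk s z')
      (μ := volume) y
    have h5 := gk_conv hs hs (x - y)
    rw [two_mul, ← h5, ← h4]
    refine integral_congr_ae (ae_of_all _ fun z => ?_)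
    simp only
    rw [sub_sub_sub_cancel_right]
  simp_rw [h1]
  rw [← ofReal_integral_eq_lintegral_ofReal h2
    (ae_of_all _ fun z => (mul_pos (gk_pos hs _) (gk_pos hs _)).le), h3]

theorem lint_gk {s : ℝ} (hs : 0 < s) (x : ℂ) : ∫⁻ z, ENNReal.ofReal (gk s (x - z)) = 1 := by
  rw [← ofReal_integral_eq_lintegral_ofReal (gk_int_sub hs x)
    (ae_of_all _ fun z => (gk_pos hs _).le), integral_gk_sub hs, ENNReal.ofReal_one]

theorem pair_bound {w : ℂ → ℝ} {n K : ℝ} (h : Bw w n) (hK : HA w K) {a b : ℂ → ℝ≥0∞}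
    (ha : Measurable a) (hb : Measurable b) {s r : ℝ} (hs : 0 < s) (hr : 0 < r) :
    (∫⁻ x, ∫⁻ y, ENNReal.ofReal (gk (2 * s) (x - y)) * (a y * b x)) ^ 2 ≤
      ENNReal.ofReal K * ((∫⁻ y, a y ^ 2 / ENNReal.ofReal (vv w r y)) *
        ∫⁻ x, b x ^ 2 / ENNReal.ofReal (ht r w x)) := by
  have hvm : Measurable fun y => vv w r y :=
    (ht_meas h.inv.meas).comp (measurable_const.prodMk measurable_id)
  have hum : Measurable fun y => ht r w y :=
    (ht_meas h.meas).comp (measurable_const.prodMk measurable_id)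
  have hvp : ∀ y, 0 < vv w r y := fun y => ht_pos h.inv hr y
  have hup : ∀ y, 0 < ht r w y := fun y => ht_pos h hr y
  obtain ⟨I, hI⟩ : ∃ I : ℂ → ℝ≥0∞, I = fun z => ∫⁻ y, ENNReal.ofReal (gk s (z - y)) * a y :=
    ⟨_, rfl⟩
  obtain ⟨J, hJ⟩ : ∃ J : ℂ → ℝ≥0∞, J = fun z => ∫⁻ y, ENNReal.ofReal (gk s (z - y)) * b y :=
    ⟨_, rfl⟩
  obtain ⟨A, hA⟩ : ∃ A : ℂ → ℝ≥0∞, A = fun z => ∫⁻ y, ENNReal.ofReal (gk s (z - y)) *
    (a y ^ 2 / ENNReal.ofReal (vv w r y)) := ⟨_, rfl⟩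
  obtain ⟨B, hB⟩ : ∃ B : ℂ → ℝ≥0∞, B = fun z => ∫⁻ y, ENNReal.ofReal (gk s (z - y)) *
    (b y ^ 2 / ENNReal.ofReal (ht r w y)) := ⟨_, rfl⟩
  have qam : Measurable fun y => a y ^ 2 / ENNReal.ofReal (vv w r y) :=
    (ha.pow_const 2).div hvm.ennreal_ofReal
  have qbm : Measurable fun y => b y ^ 2 / ENNReal.ofReal (ht r w y) :=
    (hb.pow_const 2).div hum.ennreal_ofReal
  have hIm : Measurable I := by
    rw [hI]
    exact Measurable.lintegral_prod_right' (f := fun p : ℂ × ℂ =>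
      ENNReal.ofReal (gk s (p.1 - p.2)) * a p.2) ((GW7_gm s).mul (ha.comp measurable_snd))
  have hAm : Measurable A := by
    rw [hA]
    exact Measurable.lintegral_prod_right' (f := fun p : ℂ × ℂ =>
      ENNReal.ofReal (gk s (p.1 - p.2)) * (a p.2 ^ 2 / ENNReal.ofReal (vv w r p.2)))
      ((GW7_gm s).mul (qam.comp measurable_snd))
  have hBm : Measurable B := by
    rw [hB]
    exact Measurable.lintegral_prod_right' (f := fun p : ℂ × ℂ =>
      ENNReal.ofReal (gk s (p.1 - p.2)) * (b p.2 ^ 2 / ENNReal.ofReal (ht r w p.2)))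
      ((GW7_gm s).mul (qbm.comp measurable_snd))
  -- Tonelli
  have hL : ∫⁻ x, ∫⁻ y, ENNReal.ofReal (gk (2 * s) (x - y)) * (a y * b x) = ∫⁻ z, J z * I z := by
    have h1 : ∀ x, ∫⁻ y, ENNReal.ofReal (gk (2 * s) (x - y)) * (a y * b x) =
        ∫⁻ z, ENNReal.ofReal (gk s (x - z)) * b x * I z := by
      intro x
      have h2 : ∀ y, ENNReal.ofReal (gk (2 * s) (x - y)) * (a y * b x) =
          ∫⁻ z, (ENNReal.ofReal (gk s (x - z)) * ENNReal.ofReal (gk s (z - y))) *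
            (a y * b x) := by
        intro y
        have m : Measurable fun z => ENNReal.ofReal (gk s (x - z)) * ENNReal.ofReal (gk s (z - y)) :=
          (GW7_gm1 s x).mul (GW7_gm2 s y)
        rw [lintegral_mul_const _ m, lint_gk_gk hs]
      simp_rw [h2]
      rw [lintegral_lintegral_swap]
      · refine lintegral_congr fun z => ?_
        rw [hI]
        simp only
        have m : Measurable fun y => ENNReal.ofReal (gk s (z - y)) * a y := (GW7_gm1 s z).mul ha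
        rw [← lintegral_const_mul _ m]
        refine lintegral_congr fun y => ?_
        ring
      · refine Measurable.aemeasurable ?_
        refine ((((GW7_gm1 s x).comp measurable_snd).mul
          ((GW7_gm s).comp measurable_swap)).mul ((ha.comp measurable_fst).mul measurable_const))
    simp_rw [h1]
    rw [lintegral_lintegral_swap]
    · refine lintegral_congr fun z => ?_
      have m : Measurable fun x => ENNReal.ofReal (gk s (x - z)) * b x := (GW7_gm2 s z).mul hb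
      rw [lintegral_mul_const _ m]
      congr 1
      rw [hJ]
      refine lintegral_congr fun x => ?_
      rw [gk_sub_comm]
    · exact (((GW7_gm s).mul (hb.comp measurable_fst)).mul
        (hIm.comp measurable_snd)).aemeasurable
  -- Cauchy-Schwarz in each point
  have hV : ∀ z, ∫⁻ y, ENNReal.ofReal (gk s (z - y)) * ENNReal.ofReal (vv w r y) =
      ENNReal.ofReal (vv w (s + r) z) := by
    intro z
    have h1 := ht_semi h.inv hs hr z
    have h2 : Integrable fun y => gk s (z - y) * vv w r y :=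
      gk_mul_int hs hvm (M := n) (fun y => by
        rw [abs_of_pos (hvp y)]
        exact ht_le h.inv hr y) z
    have h3 : vv w (s + r) z = ∫ y, gk s (z - y) * vv w r y := h1.symm
    rw [h3, ofReal_integral_eq_lintegral_ofReal h2
      (ae_of_all _ fun y => (mul_pos (gk_pos hs _) (hvp y)).le)]
    exact lintegral_congr fun y => (ENNReal.ofReal_mul (gk_pos hs _).le).symm
  have hU : ∀ z, ∫⁻ y, ENNReal.ofReal (gk s (z - y)) * ENNReal.ofReal (ht r w y) =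
      ENNReal.ofReal (ht (s + r) w z) := by
    intro z
    have h1 := ht_semi h hs hr z
    have h2 : Integrable fun y => gk s (z - y) * ht r w y :=
      gk_mul_int hs hum (M := n) (fun y => by
        rw [abs_of_pos (hup y)]
        exact ht_le h hr y) z
    rw [← h1, ofReal_integral_eq_lintegral_ofReal h2
      (ae_of_all _ fun y => (mul_pos (gk_pos hs _) (hup y)).le)]
    exact lintegral_congr fun y => (ENNReal.ofReal_mul (gk_pos hs _).le).symm
  have hpt : ∀ z, (J z * I z) ^ 2 ≤ ENNReal.ofReal K * (A z * B z) := by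
    intro z
    have h1 : I z ^ 2 ≤ A z * ENNReal.ofReal (vv w (s + r) z) := by
      rw [← hV z, hI, hA]
      exact GW7_cs s z ha hvm hvp
    have h2 : J z ^ 2 ≤ B z * ENNReal.ofReal (ht (s + r) w z) := by
      rw [← hU z, hJ, hB]
      exact GW7_cs s z hb hum hup
    have h3 : ENNReal.ofReal (vv w (s + r) z) * ENNReal.ofReal (ht (s + r) w z) ≤
        ENNReal.ofReal K := by
      have h4 : 0 < vv w (s + r) z := ht_pos h.inv (by positivity) z
      rw [← ENNReal.ofReal_mul h4.le]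
      exact ENNReal.ofReal_le_ofReal (hK (s + r) (by positivity) z)
    calc (J z * I z) ^ 2 = J z ^ 2 * I z ^ 2 := by rw [mul_pow]
      _ ≤ (B z * ENNReal.ofReal (ht (s + r) w z)) * (A z * ENNReal.ofReal (vv w (s + r) z)) :=
          mul_le_mul' h2 h1
      _ = (ENNReal.ofReal (vv w (s + r) z) * ENNReal.ofReal (ht (s + r) w z)) * (A z * B z) := by
          ring
      _ ≤ ENNReal.ofReal K * (A z * B z) := mul_le_mul' h3 le_rfl
  have hpt2 : ∀ z, J z * I z ≤ ENNReal.ofReal K ^ (1 / (2 : ℝ)) *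
      (A z ^ (1 / (2 : ℝ)) * B z ^ (1 / (2 : ℝ))) := by
    intro z
    have h1 := GW7_sqrt_le (hpt z)
    rwa [ENNReal.mul_rpow_of_nonneg _ _ (by norm_num),
      ENNReal.mul_rpow_of_nonneg _ _ (by norm_num)] at h1
  have hAm2 : Measurable fun z => A z ^ (1 / (2 : ℝ)) := hAm.pow_const _
  have hBm2 : Measurable fun z => B z ^ (1 / (2 : ℝ)) := hBm.pow_const _
  have hABm : Measurable fun z => A z ^ (1 / (2 : ℝ)) * B z ^ (1 / (2 : ℝ)) := hAm2.mul hBm2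
  have hfin : (∫⁻ z, A z ^ (1 / (2 : ℝ)) * B z ^ (1 / (2 : ℝ))) ^ 2 ≤ (∫⁻ z, A z) * ∫⁻ z, B z := by
    have h1 := cs_lint (μ := (volume : Measure ℂ)) hAm2.aemeasurable hBm2.aemeasurable
    simp only [GW7_sq_sqrt] at h1
    exact h1
  have hAi : ∫⁻ z, A z = ∫⁻ y, a y ^ 2 / ENNReal.ofReal (vv w r y) := by
    rw [hA]
    exact GW7_lint_avg qam (lint_gk hs)
  have hBi : ∫⁻ z, B z = ∫⁻ y, b y ^ 2 / ENNReal.ofReal (ht r w y) := by
    rw [hB]
    exact GW7_lint_avg qbm (lint_gk hs)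
  rw [hL]
  calc (∫⁻ z, J z * I z) ^ 2 ≤ (∫⁻ z, ENNReal.ofReal K ^ (1 / (2 : ℝ)) *
        (A z ^ (1 / (2 : ℝ)) * B z ^ (1 / (2 : ℝ)))) ^ 2 := by
        exact pow_le_pow_left' (lintegral_mono hpt2) 2
    _ = ENNReal.ofReal K * (∫⁻ z, A z ^ (1 / (2 : ℝ)) * B z ^ (1 / (2 : ℝ))) ^ 2 := by
        rw [lintegral_const_mul _ hABm, mul_pow, GW7_sq_sqrt]
    _ ≤ ENNReal.ofReal K * ((∫⁻ z, A z) * ∫⁻ z, B z) := mul_le_mul' le_rfl hfin
    _ = _ := by rw [hAi, hBi]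

end Pool.Agent.Lib.MP_f0c028_an.GW
end

section

set_option autoImplicit false

/-! # TASK M3: the abstract theorem

`Fb_k := E_k |F_M|`, `Gb_k := E_k |G_M|` are nonnegative bounded martingales, `|F_l| ≤ Fb_l` for `l ≤ M` (`mart_E`, `E_abs_le`), and `Fb_M = |F_M|` (`E_of_ad`), so
`∫ q Fb X M = ∫ q F X M =: a²`, `∫ q Gb Y M =: b²`.
`EJ F ≤ U + A`, `EJ G ≤ U' + A'` (`EJ_le_UA`; `A = A_k(Fb)` etc.), and (`A_le_aW`)
`(U + A)(U' + A') ≤ U U' + U A' + A U' + W A' + a W' + a a'` (`A A' ≤ (a + W) A'`, `a A' ≤ a (a' + W')`).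
`pair_sum`: `∑ ∫ Z Z' ≤ √K (∑ ∫ Z²/X)^(1/2) (∑ ∫ Z'²/Y)^(1/2)` (`Z Z' = √(X Y) (Z/√X)(Z'/√Y)`, `X Y ≤ K`, `P_cs_sum`).
With `U_sum`, `A_sum`, `a_sum`, `W_sum`, `main_term` and `1 ≤ K`: the total is at most
`(√K + 8K + 8K + 16 K √j + 16 K √j + 40000 K √(j+1)) a b ≤ 41000 K √(j+1) a b`. -/

open MeasureTheory

namespace Pool.Agent.Lib.MP_f0c028_an.SQ

variable {Ω : Type} [MeasurableSpace Ω]

private theorem M3_int_sq {S : Sp Ω} {f : Ω → ℝ} (hf : BM f) : Integrable f S.P := by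
  have := S.prob
  exact hf.int S.P

private theorem M3_six {P : Measure Ω} {f f₁ f₂ f₃ f₄ f₅ f₆ : Ω → ℝ}
    (i1 : Integrable f₁ P) (i2 : Integrable f₂ P) (i3 : Integrable f₃ P)
    (i4 : Integrable f₄ P) (i5 : Integrable f₅ P) (i6 : Integrable f₆ P) (i0 : Integrable f P)
    (h : ∀ ω, f ω ≤ f₁ ω + f₂ ω + f₃ ω + f₄ ω + f₅ ω + f₆ ω) :
    ∫ ω, f ω ∂P ≤ (∫ ω, f₁ ω ∂P) + (∫ ω, f₂ ω ∂P) + (∫ ω, f₃ ω ∂P) + (∫ ω, f₄ ω ∂P) +
      (∫ ω, f₅ ω ∂P) + ∫ ω, f₆ ω ∂P := by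
  have j2 : Integrable (fun ω => f₁ ω + f₂ ω) P := i1.add i2
  have j3 : Integrable (fun ω => f₁ ω + f₂ ω + f₃ ω) P := j2.add i3
  have j4 : Integrable (fun ω => f₁ ω + f₂ ω + f₃ ω + f₄ ω) P := j3.add i4
  have j5 : Integrable (fun ω => f₁ ω + f₂ ω + f₃ ω + f₄ ω + f₅ ω) P := j4.add i5
  have j6 : Integrable (fun ω => f₁ ω + f₂ ω + f₃ ω + f₄ ω + f₅ ω + f₆ ω) P := j5.add i6
  rw [← integral_add i1 i2, ← integral_add j2 i3, ← integral_add j3 i4, ← integral_add j4 i5,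
    ← integral_add j5 i6]
  exact integral_mono i0 j6 h

private theorem M3_one_le {S : Sp Ω} {X Y : ℕ → Ω → ℝ} {K : ℝ} (h : S.Pair X Y K) : 1 ≤ K := by
  have := S.prob
  obtain ⟨ω⟩ : Nonempty Ω := S.P.nonempty_of_neZero
  exact (h.one 0 ω).trans (h.le 0 ω)

theorem pair_sum {S : Sp Ω} {X Y : ℕ → Ω → ℝ} {K : ℝ} (h : S.Pair X Y K) (N : ℕ)
    {Z Z' : ℕ → Ω → ℝ} (hZ : ∀ k, BM (Z k)) (hZ' : ∀ k, BM (Z' k)) (h0 : ∀ k ω, 0 ≤ Z k ω)
    (h0' : ∀ k ω, 0 ≤ Z' k ω) {p p' : ℝ}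
    (hp : ∑ k ∈ Finset.range N, ∫ ω, Z k ω ^ 2 / X k ω ∂S.P ≤ p)
    (hp' : ∑ k ∈ Finset.range N, ∫ ω, Z' k ω ^ 2 / Y k ω ∂S.P ≤ p') :
    ∑ k ∈ Finset.range N, ∫ ω, Z k ω * Z' k ω ∂S.P ≤ √K * (√p * √p') := by
  have hprob := S.prob
  have hK := M3_one_le h
  have hK0 : 0 ≤ K := by linarith
  obtain ⟨c, hc, hlow⟩ := h.low
  have hsX : ∀ k ω, √c ≤ √(X k ω) := fun k ω => Real.sqrt_le_sqrt (hlow k ω).1
  have hsc : 0 < √c := Real.sqrt_pos.2 hc
  have hf : ∀ k, BM (fun ω => Z k ω / √(X k ω)) := fun k =>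
    (hZ k).div ((h.mX.bm k).sqrt) hsc (hsX k)
  have hg : ∀ k, BM (fun ω => Z' k ω * √(X k ω)) := fun k => (hZ' k).mul ((h.mX.bm k).sqrt)
  have hcs := P_cs_sum S N hf hg
  have e1 : ∀ k ω, Z k ω / √(X k ω) * (Z' k ω * √(X k ω)) = Z k ω * Z' k ω := by
    intro k ω
    have h1 : 0 < √(X k ω) := lt_of_lt_of_le hsc (hsX k ω)
    field_simp
  have e2 : ∀ k ω, (Z k ω / √(X k ω)) ^ 2 = Z k ω ^ 2 / X k ω := by
    intro k ω
    rw [div_pow, Real.sq_sqrt (Pair.pos h k ω).1.le]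
  have e3 : ∀ k ω, (Z' k ω * √(X k ω)) ^ 2 = Z' k ω ^ 2 * X k ω := by
    intro k ω
    rw [mul_pow, Real.sq_sqrt (Pair.pos h k ω).1.le]
  simp only [e1, e2, e3] at hcs
  have hq : ∀ k, BM (fun ω => Z' k ω ^ 2 / Y k ω) := fun k =>
    ((hZ' k).pow 2).div (h.mY.bm k) hc (fun ω => (hlow k ω).2)
  have h2 : ∑ k ∈ Finset.range N, ∫ ω, Z' k ω ^ 2 * X k ω ∂S.P ≤ K * p' := by
    have h3 : ∑ k ∈ Finset.range N, ∫ ω, Z' k ω ^ 2 * X k ω ∂S.P ≤
        K * ∑ k ∈ Finset.range N, ∫ ω, Z' k ω ^ 2 / Y k ω ∂S.P := by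
      rw [Finset.mul_sum]
      refine Finset.sum_le_sum fun k _ => ?_
      rw [← integral_const_mul]
      refine integral_mono (M3_int_sq (((hZ' k).pow 2).mul (h.mX.bm k)))
        ((M3_int_sq (hq k)).const_mul K) fun ω => ?_
      change Z' k ω ^ 2 * X k ω ≤ K * (Z' k ω ^ 2 / Y k ω)
      have hY := (Pair.pos h k ω).2
      rw [← mul_div_assoc, le_div_iff₀ hY]
      have := mul_le_mul_of_nonneg_left (h.le k ω) (sq_nonneg (Z' k ω))
      linarith
    exact h3.trans (mul_le_mul_of_nonneg_left hp' hK0)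
  have hn1 : 0 ≤ ∑ k ∈ Finset.range N, ∫ ω, Z k ω ^ 2 / X k ω ∂S.P :=
    Finset.sum_nonneg fun k _ => integral_nonneg fun ω => div_nonneg (sq_nonneg _) (Pair.pos h k ω).1.le
  have hn2 : 0 ≤ ∑ k ∈ Finset.range N, ∫ ω, Z' k ω ^ 2 * X k ω ∂S.P :=
    Finset.sum_nonneg fun k _ => integral_nonneg fun ω => mul_nonneg (sq_nonneg _) (Pair.pos h k ω).1.le
  have hp0 : 0 ≤ p := hn1.trans hp
  have h4 : (∑ k ∈ Finset.range N, ∫ ω, Z k ω * Z' k ω ∂S.P) ^ 2 ≤ K * (p * p') := by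
    refine hcs.trans ?_
    calc _ ≤ p * (K * p') := mul_le_mul hp h2 hn2 hp0
      _ = K * (p * p') := by ring
  have h5 := (le_abs_self _).trans (Real.abs_le_sqrt h4)
  rwa [Real.sqrt_mul hK0, Real.sqrt_mul hp0] at h5

theorem abstract_thm {S : Sp Ω} {F G X Y : ℕ → Ω → ℝ} {K : ℝ} (h : S.Pair X Y K)
    (hF : S.Mart F) (hG : S.Mart G) {N j M : ℕ} (hM : N + j ≤ M) :
    ∑ k ∈ Finset.range N, ∫ ω, S.EJ j F k ω * S.EJ j G k ω ∂S.P ≤
      41000 * K * √(j + 1) * (√(∫ ω, q F X M ω ∂S.P) * √(∫ ω, q G Y M ω ∂S.P)) := by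
  have hprob := S.prob
  have hK := M3_one_le h
  have hK0 : 0 ≤ K := by linarith
  obtain ⟨c, hc, hlow⟩ := h.low
  obtain ⟨Fb, hFb⟩ : ∃ Fb : ℕ → Ω → ℝ, Fb = fun k => S.E k (fun ω => |F M ω|) := ⟨_, rfl⟩
  obtain ⟨Gb, hGb⟩ : ∃ Gb : ℕ → Ω → ℝ, Gb = fun k => S.E k (fun ω => |G M ω|) := ⟨_, rfl⟩
  have hmart : ∀ {H : ℕ → Ω → ℝ}, S.Mart H → S.Mart (fun k => S.E k (fun ω => |H M ω|)) := by
    intro H hH
    have hb : BM (fun ω => |H M ω|) := (hH.bm M).abs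
    exact ⟨fun k => E_bm S k hb, fun k => E_ad S k _,
      fun k ω => E_tower S (Nat.le_succ k) hb ω⟩
  have hle : ∀ {H : ℕ → Ω → ℝ}, S.Mart H → ∀ l, l ≤ M → ∀ ω,
      |H l ω| ≤ S.E l (fun ω => |H M ω|) ω := by
    intro H hH l hl ω
    rw [← mart_E S hH hl ω]
    exact E_abs_le S l (H M) ω
  have hlast : ∀ {H : ℕ → Ω → ℝ}, S.Mart H → ∀ ω, S.E M (fun ω => |H M ω|) ω = |H M ω| := by
    intro H hH ω
    refine E_of_ad S (f := fun ω => |H M ω|) ?_ ω
    intro ω' η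
    change |H M (S.s M ω' η)| = |H M ω'|
    rw [hH.ad M ω' η]
  have hFbm : S.Mart Fb := by rw [hFb]; exact hmart hF
  have hGbm : S.Mart Gb := by rw [hGb]; exact hmart hG
  have hFb0 : ∀ k ω, 0 ≤ Fb k ω := by
    intro k ω
    rw [hFb]
    exact E_nonneg S k (fun ω => abs_nonneg _) ω
  have hGb0 : ∀ k ω, 0 ≤ Gb k ω := by
    intro k ω
    rw [hGb]
    exact E_nonneg S k (fun ω => abs_nonneg _) ω
  have hqF : ∫ ω, q Fb X M ω ∂S.P = ∫ ω, q F X M ω ∂S.P := by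
    congr 1
    ext ω
    unfold q
    rw [hFb]
    change (S.E M (fun ω => |F M ω|) ω) ^ 2 / X M ω = _
    rw [hlast hF, sq_abs]
  have hqG : ∫ ω, q Gb Y M ω ∂S.P = ∫ ω, q G Y M ω ∂S.P := by
    congr 1
    ext ω
    unfold q
    rw [hGb]
    change (S.E M (fun ω => |G M ω|) ω) ^ 2 / Y M ω = _
    rw [hlast hG, sq_abs]
  have hleF : ∀ l, l ≤ M → ∀ ω, |F l ω| ≤ Fb l ω := by rw [hFb]; exact hle hF
  have hleG : ∀ l, l ≤ M → ∀ ω, |G l ω| ≤ Gb l ω := by rw [hGb]; exact hle hG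
  have hs := Pair.symm h
  have hNM : N ≤ M := by omega
  obtain ⟨a, ha⟩ : ∃ a, a = ∫ ω, q F X M ω ∂S.P := ⟨_, rfl⟩
  obtain ⟨b, hb⟩ : ∃ b, b = ∫ ω, q G Y M ω ∂S.P := ⟨_, rfl⟩
  have ha0 : 0 ≤ a := by
    rw [ha]
    exact integral_nonneg fun ω => div_nonneg (sq_nonneg _) (Pair.pos h M ω).1.le
  have hb0 : 0 ≤ b := by
    rw [hb]
    exact integral_nonneg fun ω => div_nonneg (sq_nonneg _) (Pair.pos h M ω).2.le
  -- the pieces
  have BU := fun k => (UAaW_bm (S := S) (Y := Y) (K := K) h hF j k).1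
  have BU' := fun k => (UAaW_bm (S := S) hs hG j k).1
  have BA := fun k => (UAaW_bm (S := S) h hFbm j k).2.1
  have BA' := fun k => (UAaW_bm (S := S) hs hGbm j k).2.1
  have Ba := fun k => (UAaW_bm (S := S) h hFbm j k).2.2.1
  have Ba' := fun k => (UAaW_bm (S := S) hs hGbm j k).2.2.1
  have BW := fun k => (UAaW_bm (S := S) h hFbm j k).2.2.2
  have BW' := fun k => (UAaW_bm (S := S) hs hGbm j k).2.2.2
  have nU : ∀ k ω, 0 ≤ S.U j F X k ω := fun k ω => U_nonneg j F X k ω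
  have nU' : ∀ k ω, 0 ≤ S.U j G Y k ω := fun k ω => U_nonneg j G Y k ω
  have nF := fun k ω => UAaW_nonneg (S := S) h hFbm hFb0 j k ω
  have nG := fun k ω => UAaW_nonneg (S := S) hs hGbm hGb0 j k ω
  have sU := U_sum h hF hM
  have sU' := U_sum hs hG hM
  have sA := A_sum h hFbm hFb0 hM
  have sA' := A_sum hs hGbm hGb0 hM
  have sa := a_sum h hFbm hFb0 hM
  have sW := W_sum h hFbm hFb0 hM
  have sW' := W_sum hs hGbm hGb0 hM
  rw [hqF, ← ha] at sA sa sW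
  rw [hqG, ← hb] at sA' sW'
  rw [← ha] at sU
  rw [← hb] at sU'
  have t1 := pair_sum h N BU BU' nU nU' sU sU'
  have t2 := pair_sum h N BU BA' nU (fun k ω => (nG k ω).1) sU sA'
  have t3 := pair_sum h N BA BU' (fun k ω => (nF k ω).1) nU' sA sU'
  have t4 := pair_sum h N BW BA' (fun k ω => (nF k ω).2.2) (fun k ω => (nG k ω).1) sW sA'
  have t5 := pair_sum h N Ba BW' (fun k ω => (nF k ω).2.1) (fun k ω => (nG k ω).2.2) sa sW'
  have t6 := main_term h hFbm hFb0 hGbm hGb0 hNM j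
  rw [hqF, hqG, ← ha, ← hb] at t6
  rw [← ha, ← hb]
  have hpt : ∀ k ∈ Finset.range N, ∫ ω, S.EJ j F k ω * S.EJ j G k ω ∂S.P ≤
      (∫ ω, S.U j F X k ω * S.U j G Y k ω ∂S.P) + (∫ ω, S.U j F X k ω * S.A j Gb Y k ω ∂S.P) +
      (∫ ω, S.A j Fb X k ω * S.U j G Y k ω ∂S.P) + (∫ ω, S.W j Fb X k ω * S.A j Gb Y k ω ∂S.P) +
      (∫ ω, S.a j Fb X k ω * S.W j Gb Y k ω ∂S.P) +
      ∫ ω, S.a j Fb X k ω * S.a j Gb Y k ω ∂S.P := by
    intro k hk
    have hkj : k + j ≤ M := by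
      have := Finset.mem_range.1 hk
      omega
    have i1 := M3_int_sq (S := S) ((BU k).mul (BU' k))
    have i2 := M3_int_sq (S := S) ((BU k).mul (BA' k))
    have i3 := M3_int_sq (S := S) ((BA k).mul (BU' k))
    have i4 := M3_int_sq (S := S) ((BW k).mul (BA' k))
    have i5 := M3_int_sq (S := S) ((Ba k).mul (BW' k))
    have i6 := M3_int_sq (S := S) ((Ba k).mul (Ba' k))
    refine M3_six i1 i2 i3 i4 i5 i6 (M3_int_sq ((EJ_bm S hF j k).mul (EJ_bm S hG j k)))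
      fun ω => ?_
    have u1 := EJ_le_UA h hF hFbm hleF j k hkj ω
    have u2 := EJ_le_UA hs hG hGbm hleG j k hkj ω
    have v1 := A_le_aW h hFbm hFb0 j k ω
    have v2 := A_le_aW hs hGbm hGb0 j k ω
    have n1 := nU k ω
    obtain ⟨n2, n3, n4⟩ := nF k ω
    obtain ⟨m2, m3, m4⟩ := nG k ω
    have w1 : S.EJ j F k ω * S.EJ j G k ω ≤ (S.U j F X k ω + S.A j Fb X k ω) *
        (S.U j G Y k ω + S.A j Gb Y k ω) :=
      mul_le_mul u1 u2 (EJ_nonneg S j G k ω) (add_nonneg n1 n2)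
    have w2 := mul_le_mul_of_nonneg_right v1 m2
    have w3 := mul_le_mul_of_nonneg_left v2 n3
    linarith
  have hsum := Finset.sum_le_sum hpt
  simp only [Finset.sum_add_distrib] at hsum
  refine hsum.trans ?_
  have hj0 : (0 : ℝ) ≤ j := Nat.cast_nonneg j
  obtain ⟨κ, hκ⟩ : ∃ κ, κ = √K := ⟨_, rfl⟩
  obtain ⟨α, hα⟩ : ∃ α, α = √a := ⟨_, rfl⟩
  obtain ⟨β, hβ⟩ : ∃ β, β = √b := ⟨_, rfl⟩
  have hκ2 : κ * κ = K := by rw [hκ]; exact Real.mul_self_sqrt hK0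
  have hκ1 : 1 ≤ κ := by rw [hκ]; exact Real.one_le_sqrt.2 hK
  have hα0 : 0 ≤ α := by rw [hα]; exact Real.sqrt_nonneg _
  have hβ0 : 0 ≤ β := by rw [hβ]; exact Real.sqrt_nonneg _
  have r64 : √(64 : ℝ) = 8 := by
    rw [show (64 : ℝ) = 8 ^ 2 by norm_num]
    exact Real.sqrt_sq (by norm_num)
  have r4 : √(4 : ℝ) = 2 := by
    rw [show (4 : ℝ) = 2 ^ 2 by norm_num]
    exact Real.sqrt_sq (by norm_num)
  have e64 : ∀ x : ℝ, √(64 * K * x) = 8 * κ * √x := by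
    intro x
    rw [Real.sqrt_mul (by positivity), Real.sqrt_mul (by norm_num), r64, ← hκ]
  have e4 : ∀ x : ℝ, √(4 * j * x) = 2 * √j * √x := by
    intro x
    rw [Real.sqrt_mul (by positivity), Real.sqrt_mul (by norm_num), r4]
  rw [e64 b, ← hα, ← hβ, ← hκ] at t2
  rw [e64 a, ← hα, ← hβ, ← hκ] at t3
  rw [e4 a, e64 b, ← hα, ← hβ, ← hκ] at t4
  rw [e64 a, e4 b, ← hα, ← hβ, ← hκ] at t5
  rw [← hα, ← hβ, ← hκ] at t1
  rw [← hα, ← hβ] at t6
  rw [← hα, ← hβ]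
  obtain ⟨σ, hσ⟩ : ∃ σ, σ = √((j : ℝ) + 1) := ⟨_, rfl⟩
  have hσ1 : 1 ≤ σ := by rw [hσ]; exact Real.one_le_sqrt.2 (by linarith)
  have hjσ : √(j : ℝ) ≤ σ := by rw [hσ]; exact Real.sqrt_le_sqrt (by linarith)
  rw [← hσ] at t6 ⊢
  have hαβ : 0 ≤ α * β := mul_nonneg hα0 hβ0
  have g1 : κ * (α * β) ≤ K * σ * (α * β) := by
    refine mul_le_mul_of_nonneg_right ?_ hαβ
    rw [← hκ2]
    nlinarith
  have g2 : κ * (α * (8 * κ * β)) ≤ 8 * (K * σ * (α * β)) := by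
    have : κ * (α * (8 * κ * β)) = 8 * (K * (α * β)) := by rw [← hκ2]; ring
    rw [this]
    have h1 : K * (α * β) ≤ K * σ * (α * β) :=
      mul_le_mul_of_nonneg_right (le_mul_of_one_le_right hK0 hσ1) hαβ
    linarith
  have g3 : κ * (8 * κ * α * β) ≤ 8 * (K * σ * (α * β)) := by
    have : κ * (8 * κ * α * β) = κ * (α * (8 * κ * β)) := by ring
    rw [this]
    exact g2
  have g4 : K * √(j : ℝ) * (α * β) ≤ K * σ * (α * β) :=
    mul_le_mul_of_nonneg_right (mul_le_mul_of_nonneg_left hjσ hK0) hαβ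
  have g5 : κ * (2 * √(j : ℝ) * α * (8 * κ * β)) = 16 * (K * √(j : ℝ) * (α * β)) := by
    rw [← hκ2]; ring
  have g6 : κ * (8 * κ * α * (2 * √(j : ℝ) * β)) = 16 * (K * √(j : ℝ) * (α * β)) := by
    rw [← hκ2]; ring
  rw [g5] at t4
  rw [g6] at t5
  have g7 : 40000 * K * σ * (α * β) = 40000 * (K * σ * (α * β)) := by ring
  have g8 : 41000 * K * σ * (α * β) = 41000 * (K * σ * (α * β)) := by ring
  have g9 : 0 ≤ K * σ * (α * β) := by positivity
  rw [g7] at t6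
  rw [g8]
  linarith

end Pool.Agent.Lib.MP_f0c028_an.SQ
end

section

set_option autoImplicit false

/-! # TASK C6: the window estimate for real functions

`M := N + j`, `S = GS M s0 h`. For every `x`, `abstract_thm` for `F = pr u x`, `G = pr v x`, `X = pr w⁻¹ x`, `Y = pr w x` (`pr_mart`, `pr_pair`):
`∑_{k<N} ∫ EJ F EJ G dP ≤ 41000 K √(j+1) √(a x) √(b x)`, `a x`, `b x` the energies (for `b` use `C5` with `w⁻¹`: `(w⁻¹)⁻¹ = w`). By `EJ_pr`
(`k + j < M`) the left side is `∑ ∫ EJR_k u (zz k x ω) EJR_k v (zz k x ω) dP(ω)`. Take `ofReal`, integrate over `x`: the left side becomes the left side of the claim by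
`law` (all terms are nonnegative, bounded, measurable), the right side is at most `ofReal (41000 K √(j+1)) (∫⁻ ofReal a)^(1/2) (∫⁻ ofReal b)^(1/2)` by Cauchy-Schwarz
(`ENNReal.lintegral_mul_le_Lp_mul_Lq`), and `energy`. -/

open MeasureTheory Real

namespace Pool.Agent.Lib.MP_f0c028_an.SQ

open Pool.Agent.Lib.MP_f0c028_an.GW

theorem window_real {s0 : ℝ} (h : 0 < s0) {w : ℂ → ℝ} {n K : ℝ} (hw : Bw w n) (hK : HA w K)
    {u v : ℂ → ℝ} {C C' : ℝ} (hu : Bf (fun z => (u z : ℂ)) C) (hv : Bf (fun z => (v z : ℂ)) C')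
    {j : ℕ} (hj : 1 ≤ j) (N : ℕ) :
    ∑ k ∈ Finset.range N, ∫⁻ z, ENNReal.ofReal (EJR j (sc s0 (k + j + 1)) u z) *
        ENNReal.ofReal (EJR j (sc s0 (k + j + 1)) v z) ≤
      ENNReal.ofReal (41000 * K * √(j + 1)) *
        ((∫⁻ z, ENNReal.ofReal (u z ^ 2 * w z)) ^ (1 / 2 : ℝ) *
          (∫⁻ z, ENNReal.ofReal (v z ^ 2 * (w z)⁻¹)) ^ (1 / 2 : ℝ)) := by
  obtain ⟨M, hMd⟩ : ∃ M : ℕ, M = N + j := ⟨_, rfl⟩
  have hP : IsProbabilityMeasure (PP M s0) := PP_prob M h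
  have hum : Measurable u := Complex.measurable_re.comp hu.meas
  have hvm : Measurable v := Complex.measurable_re.comp hv.meas
  have hub : ∀ z, |u z| ≤ C := fun z => by
    have h1 := hu.le z
    rwa [Complex.norm_real, Real.norm_eq_abs] at h1
  have hvb : ∀ z, |v z| ≤ C' := fun z => by
    have h1 := hv.le z
    rwa [Complex.norm_real, Real.norm_eq_abs] at h1
  have hK0 : 0 ≤ K := by
    have hp := pr_pair (M := M) h hw hK 0
    exact le_trans zero_le_one (le_trans (hp.one 0 (fun _ => 0)) (hp.le 0 (fun _ => 0)))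
  have hc0 : 0 ≤ 41000 * K * √((j : ℝ) + 1) := by positivity
  obtain ⟨a, ha⟩ : ∃ a : ℂ → ℝ, a = fun x =>
      ∫ ω, q (pr s0 M u x) (pr s0 M (fun z => (w z)⁻¹) x) M ω ∂(PP M s0) := ⟨_, rfl⟩
  obtain ⟨b, hb⟩ : ∃ b : ℂ → ℝ, b = fun x =>
      ∫ ω, q (pr s0 M v x) (pr s0 M w x) M ω ∂(PP M s0) := ⟨_, rfl⟩
  have hinv : (fun z => ((w z)⁻¹)⁻¹) = w := by
    funext z
    exact inv_inv _
  have haE : ∫⁻ x, ENNReal.ofReal (a x) ≤ ∫⁻ z, ENNReal.ofReal (u z ^ 2 * w z) := by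
    rw [ha]
    exact energy h hw hu
  have hbE : ∫⁻ x, ENNReal.ofReal (b x) ≤ ∫⁻ z, ENNReal.ofReal (v z ^ 2 * (w z)⁻¹) := by
    have h1 := energy (M := M) h hw.inv hv
    rw [hinv] at h1
    rw [hb]
    exact h1
  have ham : Measurable a := by
    rw [ha]
    exact energy_meas h hw hu
  have hbm : Measurable b := by
    have h1 := energy_meas (M := M) h hw.inv hv
    rw [hinv] at h1
    rw [hb]
    exact h1
  have hkey : ∀ x, ∑ k ∈ Finset.range N, ∫ ω, EJR j (sc s0 (k + j + 1)) u (zz k x ω) *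
      EJR j (sc s0 (k + j + 1)) v (zz k x ω) ∂(PP M s0) ≤
      41000 * K * √((j : ℝ) + 1) * (√(a x) * √(b x)) := by
    intro x
    have h1 := abstract_thm (pr_pair (M := M) h hw hK x) (pr_mart h hum hub x)
      (pr_mart h hvm hvb x) (N := N) (j := j) (M := M) (by omega)
    have h2 : ∀ k ∈ Finset.range N, ∫ ω, (GS M s0 h).EJ j (pr s0 M u x) k ω *
        (GS M s0 h).EJ j (pr s0 M v x) k ω ∂(GS M s0 h).P =
        ∫ ω, EJR j (sc s0 (k + j + 1)) u (zz k x ω) *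
          EJR j (sc s0 (k + j + 1)) v (zz k x ω) ∂(PP M s0) := by
      intro k hk
      have hk' := Finset.mem_range.mp hk
      refine integral_congr_ae (Filter.Eventually.of_forall fun ω => ?_)
      show (GS M s0 h).EJ j (pr s0 M u x) k ω * (GS M s0 h).EJ j (pr s0 M v x) k ω =
        EJR j (sc s0 (k + j + 1)) u (zz k x ω) * EJR j (sc s0 (k + j + 1)) v (zz k x ω)
      rw [EJ_pr h hum hub x hj (by omega) ω, EJ_pr h hvm hvb x hj (by omega) ω]
    rw [Finset.sum_congr rfl h2] at h1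
    rw [ha, hb]
    exact h1
  have hzm : ∀ k, ∀ x : ℂ, Measurable (fun ω : Fin M → ℂ => zz k x ω) := fun k x =>
    (zz_meas k).comp (measurable_const.prodMk measurable_id)
  have hn : ∀ k z, 0 ≤ EJR j (sc s0 (k + j + 1)) u z * EJR j (sc s0 (k + j + 1)) v z :=
    fun k z => mul_nonneg (EJR_nonneg hj (sc_pos h _) u z) (EJR_nonneg hj (sc_pos h _) v z)
  have hterm : ∀ k ∈ Finset.range N,
      ∫⁻ z, ENNReal.ofReal (EJR j (sc s0 (k + j + 1)) u z) *
        ENNReal.ofReal (EJR j (sc s0 (k + j + 1)) v z) =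
      ∫⁻ x, ENNReal.ofReal (∫ ω, EJR j (sc s0 (k + j + 1)) u (zz k x ω) *
          EJR j (sc s0 (k + j + 1)) v (zz k x ω) ∂(PP M s0)) := by
    intro k hk
    have hk' := Finset.mem_range.mp hk
    have hφm : Measurable (fun z => ENNReal.ofReal (EJR j (sc s0 (k + j + 1)) u z) *
        ENNReal.ofReal (EJR j (sc s0 (k + j + 1)) v z)) :=
      ((EJR_meas hum j _).ennreal_ofReal).mul ((EJR_meas hvm j _).ennreal_ofReal)
    rw [← law (M := M) h k hφm]
    refine lintegral_congr (fun x => ?_)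
    have h1 : ∀ ω : Fin M → ℂ, ENNReal.ofReal (EJR j (sc s0 (k + j + 1)) u (zz k x ω)) *
        ENNReal.ofReal (EJR j (sc s0 (k + j + 1)) v (zz k x ω)) =
        ENNReal.ofReal (EJR j (sc s0 (k + j + 1)) u (zz k x ω) *
          EJR j (sc s0 (k + j + 1)) v (zz k x ω)) := fun ω =>
      (ENNReal.ofReal_mul (EJR_nonneg hj (sc_pos h _) u _)).symm
    have hbmm : BM (fun ω : Fin M → ℂ => EJR j (sc s0 (k + j + 1)) u (zz k x ω) *
          EJR j (sc s0 (k + j + 1)) v (zz k x ω)) := by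
      have h2 := BM.mul (EJ_bm (GS M s0 h) (pr_mart h hum hub x) j k)
        (EJ_bm (GS M s0 h) (pr_mart h hvm hvb x) j k)
      have h3 : (fun ω => (GS M s0 h).EJ j (pr s0 M u x) k ω *
          (GS M s0 h).EJ j (pr s0 M v x) k ω) =
          (fun ω : Fin M → ℂ => EJR j (sc s0 (k + j + 1)) u (zz k x ω) *
          EJR j (sc s0 (k + j + 1)) v (zz k x ω)) := by
        funext ω
        rw [EJ_pr h hum hub x hj (by omega) ω, EJ_pr h hvm hvb x hj (by omega) ω]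
      rwa [h3] at h2
    rw [lintegral_congr h1, ofReal_integral_eq_lintegral_ofReal (hbmm.int (PP M s0))
      (Filter.Eventually.of_forall fun ω => hn k _)]
  have htm : ∀ k ∈ Finset.range N, Measurable fun x : ℂ =>
      ENNReal.ofReal (∫ ω, EJR j (sc s0 (k + j + 1)) u (zz k x ω) *
          EJR j (sc s0 (k + j + 1)) v (zz k x ω) ∂(PP M s0)) := by
    intro k hk
    refine Measurable.ennreal_ofReal ?_
    have h1 : Measurable (fun p : ℂ × (Fin M → ℂ) =>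
        EJR j (sc s0 (k + j + 1)) u (zz k p.1 p.2) *
          EJR j (sc s0 (k + j + 1)) v (zz k p.1 p.2)) :=
      ((EJR_meas hum j _).comp (zz_meas k)).mul ((EJR_meas hvm j _).comp (zz_meas k))
    exact (h1.stronglyMeasurable.integral_prod_right' (ν := PP M s0)).measurable
  have hab : Measurable fun x => ENNReal.ofReal (√(a x)) := (ham.sqrt).ennreal_ofReal
  have hbb : Measurable fun x => ENNReal.ofReal (√(b x)) := (hbm.sqrt).ennreal_ofReal
  have ha0 : ∀ x, 0 ≤ a x := by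
    intro x
    rw [ha]
    refine integral_nonneg (fun ω => ?_)
    exact div_nonneg (sq_nonneg _) (Pair.pos (pr_pair (M := M) h hw hK x) M ω).1.le
  have hb0 : ∀ x, 0 ≤ b x := by
    intro x
    rw [hb]
    refine integral_nonneg (fun ω => ?_)
    exact div_nonneg (sq_nonneg _) (Pair.pos (pr_pair (M := M) h hw hK x) M ω).2.le
  have hsq : ∀ c : ℝ, 0 ≤ c → ENNReal.ofReal (√c) ^ (2 : ℝ) = ENNReal.ofReal c := by
    intro c hc
    rw [ENNReal.ofReal_rpow_of_nonneg (Real.sqrt_nonneg c) (by norm_num)]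
    congr 1
    rw [show (2 : ℝ) = ((2 : ℕ) : ℝ) by norm_num, Real.rpow_natCast, Real.sq_sqrt hc]
  have hCS := ENNReal.lintegral_mul_le_Lp_mul_Lq (volume : Measure ℂ)
    Real.HolderConjugate.two_two hab.aemeasurable hbb.aemeasurable
  have e1 : ∫⁻ x, ENNReal.ofReal (√(a x)) ^ (2 : ℝ) = ∫⁻ x, ENNReal.ofReal (a x) :=
    lintegral_congr (fun x => hsq _ (ha0 x))
  have e2 : ∫⁻ x, ENNReal.ofReal (√(b x)) ^ (2 : ℝ) = ∫⁻ x, ENNReal.ofReal (b x) :=
    lintegral_congr (fun x => hsq _ (hb0 x))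
  rw [e1, e2] at hCS
  calc ∑ k ∈ Finset.range N, ∫⁻ z, ENNReal.ofReal (EJR j (sc s0 (k + j + 1)) u z) *
        ENNReal.ofReal (EJR j (sc s0 (k + j + 1)) v z)
      = ∑ k ∈ Finset.range N, ∫⁻ x, ENNReal.ofReal
          (∫ ω, EJR j (sc s0 (k + j + 1)) u (zz k x ω) *
            EJR j (sc s0 (k + j + 1)) v (zz k x ω) ∂(PP M s0)) := Finset.sum_congr rfl hterm
    _ = ∫⁻ x, ∑ k ∈ Finset.range N, ENNReal.ofReal
          (∫ ω, EJR j (sc s0 (k + j + 1)) u (zz k x ω) *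
            EJR j (sc s0 (k + j + 1)) v (zz k x ω) ∂(PP M s0)) :=
        (lintegral_finsetSum (Finset.range N) htm).symm
    _ ≤ ∫⁻ x, ENNReal.ofReal (41000 * K * √((j : ℝ) + 1)) *
          (ENNReal.ofReal (√(a x)) * ENNReal.ofReal (√(b x))) := by
        refine lintegral_mono (fun x => ?_)
        rw [← ENNReal.ofReal_sum_of_nonneg
          (fun k _ => integral_nonneg (fun ω => hn k (zz k x ω))),
          ← ENNReal.ofReal_mul (Real.sqrt_nonneg _), ← ENNReal.ofReal_mul hc0]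
        exact ENNReal.ofReal_le_ofReal (hkey x)
    _ = ENNReal.ofReal (41000 * K * √((j : ℝ) + 1)) *
          ∫⁻ x, ENNReal.ofReal (√(a x)) * ENNReal.ofReal (√(b x)) :=
        lintegral_const_mul _ (hab.mul hbb)
    _ ≤ ENNReal.ofReal (41000 * K * √((j : ℝ) + 1)) *
        ((∫⁻ z, ENNReal.ofReal (u z ^ 2 * w z)) ^ (1 / 2 : ℝ) *
          (∫⁻ z, ENNReal.ofReal (v z ^ 2 * (w z)⁻¹)) ^ (1 / 2 : ℝ)) := by
        refine mul_le_mul_right ?_ _
        refine le_trans hCS ?_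
        exact mul_le_mul' (ENNReal.rpow_le_rpow haE (by norm_num))
          (ENNReal.rpow_le_rpow hbE (by norm_num))

end Pool.Agent.Lib.MP_f0c028_an.SQ
end
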