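import Pool.Agent.Lib.MP_f0c028_an.Mg.G006

section

set_option autoImplicit false

/-! # TASK C7: the window estimate for complex functions, in bilinear form

`DD t F y = ∫ gk (2t) (y-v) ‖hc t F v - hc (3t) F y‖`, `BJ j t F G = ∫⁻∫⁻ gk (6t(3^j-1)) (x-y) DD t F y DD t G x`.
* `DD_le`: `‖a‖ ≤ |re a| + |im a|`, and `re (hc t F) = ht t (re F)`, `im (hc t F) = ht t (im F)`: `DD t F y ≤ DR t (re F) y + DR t (im F) y`.
* `BJ_eq_le`: `lint_gk_gk` with `s = 3t(3^j-1)`: `BJ = ∫⁻ z, (∫⁻ y, gk s (z-y) DD t F y) (∫⁻ x, gk s (z-x) DD t G x)` (Tonelli), each factor is at most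
  `ofReal (EJR j t (re F) z) + ofReal (EJR j t (im F) z)`. So `BJ ≤` the sum of the four `∫⁻ ofReal (EJR …) ofReal (EJR …)`.
* `window_cx`: `window_real` four times, with `(re F)² w ≤ ‖F‖² w` etc.; `re F`, `im F` are `Bf`. -/

open MeasureTheory Real

namespace Pool.Agent.Lib.MP_f0c028_an.SQ

open Pool.Agent.Lib.MP_f0c028_an.GW

/-- The mean oscillation of a complex function. -/
noncomputable def DD (t : ℝ) (F : ℂ → ℂ) (y : ℂ) : ℝ :=
  ∫ v, gk (2 * t) (y - v) * ‖hc t F v - hc (3 * t) F y‖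

/-- The bilinear form at one scale. -/
noncomputable def BJ (j : ℕ) (t : ℝ) (F G : ℂ → ℂ) : ENNReal :=
  ∫⁻ x, ∫⁻ y, ENNReal.ofReal (gk (6 * t * (3 ^ j - 1)) (x - y)) *
    (ENNReal.ofReal (DD t F y) * ENNReal.ofReal (DD t G x))

theorem DD_meas {F : ℂ → ℂ} (hF : Measurable F) : Measurable fun q : ℝ × ℂ => DD q.1 F q.2 := by
  have h1 : Measurable fun q : (ℝ × ℂ) × ℂ => gk (2 * q.1.1) (q.1.2 - q.2) :=
    gk_meas.comp (by fun_prop : Measurable fun q : (ℝ × ℂ) × ℂ => (2 * q.1.1, q.1.2 - q.2))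
  have h2 : Measurable fun q : (ℝ × ℂ) × ℂ => hc q.1.1 F q.2 :=
    (hc_meas hF).comp (by fun_prop : Measurable fun q : (ℝ × ℂ) × ℂ => (q.1.1, q.2))
  have h3 : Measurable fun q : (ℝ × ℂ) × ℂ => hc (3 * q.1.1) F q.1.2 :=
    (hc_meas hF).comp (by fun_prop : Measurable fun q : (ℝ × ℂ) × ℂ => (3 * q.1.1, q.1.2))
  have h4 : Measurable fun q : (ℝ × ℂ) × ℂ =>
      gk (2 * q.1.1) (q.1.2 - q.2) * ‖hc q.1.1 F q.2 - hc (3 * q.1.1) F q.1.2‖ :=
    h1.mul (h2.sub h3).norm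
  have h5 := h4.stronglyMeasurable.integral_prod_right' (ν := (volume : Measure ℂ))
  exact h5.measurable

theorem DD_nonneg {t : ℝ} (ht0 : 0 < t) (F : ℂ → ℂ) (y : ℂ) : 0 ≤ DD t F y := by
  unfold DD
  apply integral_nonneg
  intro v
  have := gk_pos (t := 2 * t) (by positivity) (y - v)
  positivity

theorem BJ_meas (j : ℕ) {F G : ℂ → ℂ} (hF : Measurable F) (hG : Measurable G) :
    Measurable fun t => BJ j t F G := by
  unfold BJ
  have h1 : Measurable fun q : (ℝ × ℂ) × ℂ =>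
      ENNReal.ofReal (gk (6 * q.1.1 * (3 ^ j - 1)) (q.1.2 - q.2)) :=
    (gk_meas.comp (by fun_prop : Measurable fun q : (ℝ × ℂ) × ℂ =>
      (6 * q.1.1 * (3 ^ j - 1), q.1.2 - q.2))).ennreal_ofReal
  have h2 : Measurable fun q : (ℝ × ℂ) × ℂ => ENNReal.ofReal (DD q.1.1 F q.2) :=
    ((DD_meas hF).comp (by fun_prop : Measurable fun q : (ℝ × ℂ) × ℂ =>
      (q.1.1, q.2))).ennreal_ofReal
  have h3 : Measurable fun q : (ℝ × ℂ) × ℂ => ENNReal.ofReal (DD q.1.1 G q.1.2) :=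
    ((DD_meas hG).comp (by fun_prop : Measurable fun q : (ℝ × ℂ) × ℂ =>
      (q.1.1, q.1.2))).ennreal_ofReal
  have h4 : Measurable fun q : (ℝ × ℂ) × ℂ =>
      ENNReal.ofReal (gk (6 * q.1.1 * (3 ^ j - 1)) (q.1.2 - q.2)) *
        (ENNReal.ofReal (DD q.1.1 F q.2) * ENNReal.ofReal (DD q.1.1 G q.1.2)) :=
    h1.mul (h2.mul h3)
  have h5 : Measurable fun q : ℝ × ℂ => ∫⁻ y,
      ENNReal.ofReal (gk (6 * q.1 * (3 ^ j - 1)) (q.2 - y)) *
        (ENNReal.ofReal (DD q.1 F y) * ENNReal.ofReal (DD q.1 G q.2)) :=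
    h4.lintegral_prod_right'
  exact h5.lintegral_prod_right'

/-- Tonelli with the semigroup property. -/
private theorem C7_tonelli {s : ℝ} (hs : 0 < s) {a b : ℂ → ENNReal} (ha : Measurable a)
    (hb : Measurable b) :
    ∫⁻ x, ∫⁻ y, ENNReal.ofReal (gk (2 * s) (x - y)) * (a y * b x) =
      ∫⁻ z, (∫⁻ y, ENNReal.ofReal (gk s (z - y)) * a y) *
        (∫⁻ x, ENNReal.ofReal (gk s (z - x)) * b x) := by
  obtain ⟨g, hg0⟩ : ∃ g : ℂ → ℂ → ENNReal, ∀ x y, g x y = ENNReal.ofReal (gk s (x - y)) :=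
    ⟨_, fun _ _ => rfl⟩
  have hg : Measurable fun q : ℂ × ℂ => g q.1 q.2 := by
    simp_rw [hg0]
    exact (gk_meas.comp (by fun_prop : Measurable fun q : ℂ × ℂ =>
      (s, q.1 - q.2))).ennreal_ofReal
  have hsym : ∀ x y, g x y = g y x := by
    intro x y
    rw [hg0, hg0, gk_sub_comm]
  have hgg : ∀ x y, ENNReal.ofReal (gk (2 * s) (x - y)) = ∫⁻ z, g x z * g z y := by
    intro x y
    rw [← lint_gk_gk hs x y]
    simp_rw [hg0]
  simp_rw [hgg, ← hg0]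
  clear hgg hg0
  have hg1 : ∀ x : ℂ, Measurable fun z : ℂ => g x z := fun x =>
    hg.comp (by fun_prop : Measurable fun z : ℂ => (x, z))
  have hg2 : ∀ y : ℂ, Measurable fun z : ℂ => g z y := fun y =>
    hg.comp (by fun_prop : Measurable fun z : ℂ => (z, y))
  -- step 1: inner
  have e1 : ∀ x : ℂ, ∫⁻ y, (∫⁻ z, g x z * g z y) * (a y * b x) =
      ∫⁻ z, (g x z * b x) * ∫⁻ y, g z y * a y := by
    intro x
    have e2 : ∀ y : ℂ, (∫⁻ z, g x z * g z y) * (a y * b x) =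
        ∫⁻ z, (g x z * b x) * (g z y * a y) := by
      intro y
      have e3 : ∫⁻ z, g x z * g z y * (a y * b x) = (∫⁻ z, g x z * g z y) * (a y * b x) :=
        lintegral_mul_const _ ((hg1 x).mul (hg2 y))
      rw [← e3]
      apply lintegral_congr
      intro z
      ring
    have e4 : ∫⁻ y, (∫⁻ z, g x z * g z y) * (a y * b x) =
        ∫⁻ y, ∫⁻ z, (g x z * b x) * (g z y * a y) := lintegral_congr e2
    rw [e4]
    have m1 : Measurable fun q : ℂ × ℂ => g x q.2 := (hg1 x).comp measurable_snd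
    have m2 : Measurable fun q : ℂ × ℂ => g q.2 q.1 :=
      hg.comp (by fun_prop : Measurable fun q : ℂ × ℂ => (q.2, q.1))
    have m3 : Measurable fun q : ℂ × ℂ => a q.1 := ha.comp measurable_fst
    have m4 : Measurable fun q : ℂ × ℂ => (g x q.2 * b x) * (g q.2 q.1 * a q.1) :=
      (m1.mul measurable_const).mul (m2.mul m3)
    have e5 : ∫⁻ y, ∫⁻ z, (g x z * b x) * (g z y * a y) =
        ∫⁻ z, ∫⁻ y, (g x z * b x) * (g z y * a y) :=
      lintegral_lintegral_swap m4.aemeasurable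
    rw [e5]
    apply lintegral_congr
    intro z
    exact lintegral_const_mul _ ((hg1 z).mul ha)
  have e6 : ∫⁻ x, ∫⁻ y, (∫⁻ z, g x z * g z y) * (a y * b x) =
      ∫⁻ x, ∫⁻ z, (g x z * b x) * ∫⁻ y, g z y * a y := lintegral_congr e1
  rw [e6]
  have hI : Measurable fun z : ℂ => ∫⁻ y, g z y * a y := by
    have m5 : Measurable fun q : ℂ × ℂ => g q.1 q.2 * a q.2 := hg.mul (ha.comp measurable_snd)
    exact m5.lintegral_prod_right'
  have m6 : Measurable fun q : ℂ × ℂ => (g q.1 q.2 * b q.1) * ∫⁻ y, g q.2 y * a y :=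
    (hg.mul (hb.comp measurable_fst)).mul (hI.comp measurable_snd)
  have e7 : ∫⁻ x, ∫⁻ z, (g x z * b x) * ∫⁻ y, g z y * a y =
      ∫⁻ z, ∫⁻ x, (g x z * b x) * ∫⁻ y, g z y * a y :=
    lintegral_lintegral_swap m6.aemeasurable
  rw [e7]
  apply lintegral_congr
  intro z
  have e8 : ∫⁻ x, (g x z * b x) * ∫⁻ y, g z y * a y =
      (∫⁻ x, g x z * b x) * ∫⁻ y, g z y * a y :=
    lintegral_mul_const _ ((hg2 z).mul hb)
  rw [e8, mul_comm]
  congr 1
  apply lintegral_congr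
  intro x
  rw [hsym]

private theorem C7_re {F : ℂ → ℂ} {C : ℝ} (hF : Bf F C) {t : ℝ} (ht0 : 0 < t) (x : ℂ) :
    (hc t F x).re = ht t (fun z => (F z).re) x := by
  unfold hc ht
  have h1 := gk_mul_intC ht0 hF.meas hF.le x
  have h2 := integral_re h1
  simp only [RCLike.re_eq_complex_re] at h2
  rw [← h2]
  apply integral_congr_ae
  filter_upwards with y
  simp [Complex.mul_re]

private theorem C7_im {F : ℂ → ℂ} {C : ℝ} (hF : Bf F C) {t : ℝ} (ht0 : 0 < t) (x : ℂ) :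
    (hc t F x).im = ht t (fun z => (F z).im) x := by
  unfold hc ht
  have h1 := gk_mul_intC ht0 hF.meas hF.le x
  have h2 := integral_im h1
  simp only [RCLike.im_eq_complex_im] at h2
  rw [← h2]
  apply integral_congr_ae
  filter_upwards with y
  simp [Complex.mul_im]

/-- integrability of the integrand of `DR` -/
private theorem C7_DRint {u : ℂ → ℝ} (hu : Measurable u) {C : ℝ} (hC : ∀ z, |u z| ≤ C) {t : ℝ}
    (ht0 : 0 < t) (y : ℂ) :
    Integrable fun v => gk (2 * t) (y - v) * |ht t u v - ht (3 * t) u y| := by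
  have m1 : Measurable fun v : ℂ => ht t u v :=
    (ht_meas hu).comp (by fun_prop : Measurable fun v : ℂ => (t, v))
  apply gk_mul_int (t := 2 * t) (by positivity) (u := fun v => |ht t u v - ht (3 * t) u y|)
    (M := 2 * C) (by exact (m1.sub measurable_const).norm)
  intro z
  have b1 := ht_bd hu hC ht0 z
  have b2 := ht_bd hu hC (t := 3 * t) (by positivity) y
  rw [abs_abs]
  calc |ht t u z - ht (3 * t) u y| ≤ |ht t u z| + |ht (3 * t) u y| := abs_sub _ _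
    _ ≤ 2 * C := by linarith

private theorem C7_reB {F : ℂ → ℂ} {C : ℝ} (hF : Bf F C) (z : ℂ) : |(F z).re| ≤ C :=
  (Complex.abs_re_le_norm _).trans (hF.le z)

private theorem C7_imB {F : ℂ → ℂ} {C : ℝ} (hF : Bf F C) (z : ℂ) : |(F z).im| ≤ C :=
  (Complex.abs_im_le_norm _).trans (hF.le z)

private theorem C7_reM {F : ℂ → ℂ} {C : ℝ} (hF : Bf F C) : Measurable fun z => (F z).re :=
  Complex.measurable_re.comp hF.meas

private theorem C7_imM {F : ℂ → ℂ} {C : ℝ} (hF : Bf F C) : Measurable fun z => (F z).im :=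
  Complex.measurable_im.comp hF.meas

theorem C7_DD_le {F : ℂ → ℂ} {C : ℝ} (hF : Bf F C) {t : ℝ} (ht0 : 0 < t) (y : ℂ) :
    DD t F y ≤ DR t (fun z => (F z).re) y + DR t (fun z => (F z).im) y := by
  have i1 := C7_DRint (C7_reM hF) (C7_reB hF) ht0 y
  have i2 := C7_DRint (C7_imM hF) (C7_imB hF) ht0 y
  unfold DD DR
  rw [← integral_add i1 i2]
  apply integral_mono_of_nonneg
  · filter_upwards with v
    have := gk_pos (t := 2 * t) (by positivity) (y - v)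
    positivity
  · exact i1.add i2
  · filter_upwards with v
    have h1 := gk_pos (t := 2 * t) (by positivity) (y - v)
    have h2 := Complex.norm_le_abs_re_add_abs_im (hc t F v - hc (3 * t) F y)
    rw [Complex.sub_re, Complex.sub_im, C7_re hF ht0, C7_im hF ht0,
      C7_re hF (t := 3 * t) (by positivity), C7_im hF (t := 3 * t) (by positivity)] at h2
    show gk (2 * t) (y - v) * ‖hc t F v - hc (3 * t) F y‖ ≤ _
    rw [← mul_add]
    exact mul_le_mul_of_nonneg_left h2 h1.le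

private theorem C7_EJR {u : ℂ → ℝ} (hu : Measurable u) {C : ℝ} (hC : ∀ z, |u z| ≤ C) {j : ℕ}
    (hj : 1 ≤ j) {t : ℝ} (ht0 : 0 < t) (z : ℂ) :
    ENNReal.ofReal (EJR j t u z) =
      ∫⁻ y, ENNReal.ofReal (gk (3 * t * (3 ^ j - 1)) (z - y)) * ENNReal.ofReal (DR t u y) := by
  have h3 : (1 : ℝ) < 3 ^ j := one_lt_pow₀ (by norm_num) (by omega)
  have hs : 0 < 3 * t * (3 ^ j - 1) := by
    apply mul_pos (by positivity)
    linarith
  have mD : Measurable fun y => DR t u y :=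
    (DR_meas hu).comp (by fun_prop : Measurable fun v : ℂ => (t, v))
  unfold EJR
  rw [show ht (3 * t * (3 ^ j - 1)) (DR t u) z =
    ∫ y, gk (3 * t * (3 ^ j - 1)) (z - y) * DR t u y from rfl]
  rw [ofReal_integral_eq_lintegral_ofReal]
  · apply lintegral_congr
    intro y
    rw [ENNReal.ofReal_mul (gk_pos hs _).le]
  · apply gk_mul_int hs mD (M := 2 * C)
    intro y
    rw [abs_of_nonneg (DR_nonneg ht0 u y)]
    exact DR_bd hu hC ht0 y
  · filter_upwards with y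
    exact mul_nonneg (gk_pos hs _).le (DR_nonneg ht0 u y)

private theorem C7_fac {F : ℂ → ℂ} {C : ℝ} (hF : Bf F C) {j : ℕ}
    (hj : 1 ≤ j) {t : ℝ} (ht0 : 0 < t) (z : ℂ) :
    ∫⁻ y, ENNReal.ofReal (gk (3 * t * (3 ^ j - 1)) (z - y)) * ENNReal.ofReal (DD t F y) ≤
      ENNReal.ofReal (EJR j t (fun z => (F z).re) z) +
        ENNReal.ofReal (EJR j t (fun z => (F z).im) z) := by
  rw [C7_EJR (C7_reM hF) (C7_reB hF) hj ht0, C7_EJR (C7_imM hF) (C7_imB hF) hj ht0]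
  have mD : Measurable fun y => DR t (fun z => (F z).re) y :=
    (DR_meas (C7_reM hF)).comp (by fun_prop : Measurable fun v : ℂ => (t, v))
  have mg : Measurable fun y => ENNReal.ofReal (gk (3 * t * (3 ^ j - 1)) (z - y)) :=
    (gk_meas.comp (by fun_prop : Measurable fun y : ℂ =>
      (3 * t * (3 ^ j - 1), z - y))).ennreal_ofReal
  have mm : Measurable fun y => ENNReal.ofReal (gk (3 * t * (3 ^ j - 1)) (z - y)) *
      ENNReal.ofReal (DR t (fun z => (F z).re) y) := mg.mul mD.ennreal_ofReal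
  rw [← lintegral_add_left mm]
  apply lintegral_mono
  intro y
  show ENNReal.ofReal (gk (3 * t * (3 ^ j - 1)) (z - y)) * ENNReal.ofReal (DD t F y) ≤
    ENNReal.ofReal (gk (3 * t * (3 ^ j - 1)) (z - y)) *
        ENNReal.ofReal (DR t (fun z => (F z).re) y) +
      ENNReal.ofReal (gk (3 * t * (3 ^ j - 1)) (z - y)) *
        ENNReal.ofReal (DR t (fun z => (F z).im) y)
  rw [← mul_add, ← ENNReal.ofReal_add (DR_nonneg ht0 _ y) (DR_nonneg ht0 _ y)]
  gcongr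
  exact C7_DD_le hF ht0 y

theorem C7_BJ_le {F G : ℂ → ℂ} {C C' : ℝ} (hF : Bf F C) (hG : Bf G C') {j : ℕ}
    (hj : 1 ≤ j) {t : ℝ} (ht0 : 0 < t) :
    BJ j t F G ≤
      (∫⁻ z, ENNReal.ofReal (EJR j t (fun z => (F z).re) z) *
          ENNReal.ofReal (EJR j t (fun z => (G z).re) z)) +
        (∫⁻ z, ENNReal.ofReal (EJR j t (fun z => (F z).re) z) *
          ENNReal.ofReal (EJR j t (fun z => (G z).im) z)) +
        ((∫⁻ z, ENNReal.ofReal (EJR j t (fun z => (F z).im) z) *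
          ENNReal.ofReal (EJR j t (fun z => (G z).re) z)) +
        (∫⁻ z, ENNReal.ofReal (EJR j t (fun z => (F z).im) z) *
          ENNReal.ofReal (EJR j t (fun z => (G z).im) z))) := by
  have h3 : (1 : ℝ) < 3 ^ j := one_lt_pow₀ (by norm_num) (by omega)
  have hs : 0 < 3 * t * (3 ^ j - 1) := by
    apply mul_pos (by positivity)
    linarith
  have mF : Measurable fun y => ENNReal.ofReal (DD t F y) :=
    ((DD_meas hF.meas).comp (by fun_prop : Measurable fun v : ℂ => (t, v))).ennreal_ofReal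
  have mG : Measurable fun y => ENNReal.ofReal (DD t G y) :=
    ((DD_meas hG.meas).comp (by fun_prop : Measurable fun v : ℂ => (t, v))).ennreal_ofReal
  have e1 : BJ j t F G = ∫⁻ z,
      (∫⁻ y, ENNReal.ofReal (gk (3 * t * (3 ^ j - 1)) (z - y)) * ENNReal.ofReal (DD t F y)) *
        (∫⁻ x, ENNReal.ofReal (gk (3 * t * (3 ^ j - 1)) (z - x)) *
          ENNReal.ofReal (DD t G x)) := by
    rw [← C7_tonelli hs mF mG]
    unfold BJ
    rw [show 6 * t * (3 ^ j - 1 : ℝ) = 2 * (3 * t * (3 ^ j - 1)) by ring]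
  have m : ∀ (u : ℂ → ℝ), Measurable u → Measurable fun z => ENNReal.ofReal (EJR j t u z) :=
    fun u hu => (EJR_meas hu j t).ennreal_ofReal
  have m1 := m _ (C7_reM hF)
  have m2 := m _ (C7_imM hF)
  have m3 := m _ (C7_reM hG)
  have m4 := m _ (C7_imM hG)
  rw [e1]
  have m13 : Measurable fun z => ENNReal.ofReal (EJR j t (fun z => (F z).re) z) *
    ENNReal.ofReal (EJR j t (fun z => (G z).re) z) := m1.mul m3
  have m14 : Measurable fun z => ENNReal.ofReal (EJR j t (fun z => (F z).re) z) *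
    ENNReal.ofReal (EJR j t (fun z => (G z).im) z) := m1.mul m4
  have m23 : Measurable fun z => ENNReal.ofReal (EJR j t (fun z => (F z).im) z) *
    ENNReal.ofReal (EJR j t (fun z => (G z).re) z) := m2.mul m3
  rw [← lintegral_add_left m13, ← lintegral_add_left m23,
    ← lintegral_add_left (by exact m13.add m14)]
  apply lintegral_mono
  intro z
  have b1 := C7_fac hF hj ht0 z
  have b2 := C7_fac hG hj ht0 z
  refine (mul_le_mul' b1 b2).trans (le_of_eq ?_)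
  ring

private theorem C7_bfre {F : ℂ → ℂ} {C : ℝ} (hF : Bf F C) :
    Bf (fun z => (((F z).re : ℝ) : ℂ)) C where
  meas := Complex.measurable_ofReal.comp (C7_reM hF)
  le z := by
    rw [Complex.norm_real]
    exact C7_reB hF z
  int := hF.int.re.ofReal

private theorem C7_bfim {F : ℂ → ℂ} {C : ℝ} (hF : Bf F C) :
    Bf (fun z => (((F z).im : ℝ) : ℂ)) C where
  meas := Complex.measurable_ofReal.comp (C7_imM hF)
  le z := by
    rw [Complex.norm_real]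
    exact C7_imB hF z
  int := hF.int.im.ofReal

private theorem C7_en {F : ℂ → ℂ} {u w : ℂ → ℝ} (hu : ∀ z, |u z| ≤ ‖F z‖)
    (hw : ∀ z, 0 ≤ w z) :
    ∫⁻ z, ENNReal.ofReal (u z ^ 2 * w z) ≤ ∫⁻ z, ‖F z‖ₑ ^ 2 * ENNReal.ofReal (w z) := by
  apply lintegral_mono
  intro z
  have e1 : ‖F z‖ₑ ^ 2 * ENNReal.ofReal (w z) = ENNReal.ofReal (‖F z‖ ^ 2 * w z) := by
    rw [ENNReal.ofReal_mul (by positivity), ENNReal.ofReal_pow (norm_nonneg _), ofReal_norm]
  show ENNReal.ofReal (u z ^ 2 * w z) ≤ ‖F z‖ₑ ^ 2 * ENNReal.ofReal (w z)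
  rw [e1]
  apply ENNReal.ofReal_le_ofReal
  apply mul_le_mul_of_nonneg_right _ (hw z)
  rw [← sq_abs (u z)]
  exact pow_le_pow_left₀ (abs_nonneg _) (hu z) 2

theorem window_cx {s0 : ℝ} (h : 0 < s0) {w : ℂ → ℝ} {n K : ℝ} (hw : Bw w n) (hK : HA w K)
    {F G : ℂ → ℂ} {C C' : ℝ} (hF : Bf F C) (hG : Bf G C') {j : ℕ} (hj : 1 ≤ j) (N : ℕ) :
    ∑ k ∈ Finset.range N, BJ j (sc s0 (k + j + 1)) F G ≤
      ENNReal.ofReal (164000 * K * √(j + 1)) *
        ((∫⁻ z, ‖F z‖ₑ ^ 2 * ENNReal.ofReal (w z)) ^ (1 / 2 : ℝ) *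
          (∫⁻ z, ‖G z‖ₑ ^ 2 * ENNReal.ofReal (w z)⁻¹) ^ (1 / 2 : ℝ)) := by
  have hKone : 1 ≤ K := one_le_HA hw hK
  have hw0 : ∀ z, 0 ≤ w z := fun z => (hw.wpos z).le
  have hwi0 : ∀ z, 0 ≤ (w z)⁻¹ := fun z => inv_nonneg.mpr (hw0 z)
  -- the four bounds
  have key : ∀ (u v : ℂ → ℝ), Bf (fun z => (u z : ℂ)) C → Bf (fun z => (v z : ℂ)) C' →
      (∀ z, |u z| ≤ ‖F z‖) → (∀ z, |v z| ≤ ‖G z‖) →
      ∑ k ∈ Finset.range N, ∫⁻ z, ENNReal.ofReal (EJR j (sc s0 (k + j + 1)) u z) *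
        ENNReal.ofReal (EJR j (sc s0 (k + j + 1)) v z) ≤
      ENNReal.ofReal (41000 * K * √(j + 1)) *
        ((∫⁻ z, ‖F z‖ₑ ^ 2 * ENNReal.ofReal (w z)) ^ (1 / 2 : ℝ) *
          (∫⁻ z, ‖G z‖ₑ ^ 2 * ENNReal.ofReal (w z)⁻¹) ^ (1 / 2 : ℝ)) := by
    intro u v hu hv hu1 hv1
    refine (window_real h hw hK hu hv hj N).trans ?_
    have b1 := C7_en (w := w) hu1 hw0
    have b2 := C7_en (w := fun z => (w z)⁻¹) hv1 hwi0
    gcongr
  have k1 := key _ _ (C7_bfre hF) (C7_bfre hG) (fun z => Complex.abs_re_le_norm _)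
    (fun z => Complex.abs_re_le_norm _)
  have k2 := key _ _ (C7_bfre hF) (C7_bfim hG) (fun z => Complex.abs_re_le_norm _)
    (fun z => Complex.abs_im_le_norm _)
  have k3 := key _ _ (C7_bfim hF) (C7_bfre hG) (fun z => Complex.abs_im_le_norm _)
    (fun z => Complex.abs_re_le_norm _)
  have k4 := key _ _ (C7_bfim hF) (C7_bfim hG) (fun z => Complex.abs_im_le_norm _)
    (fun z => Complex.abs_im_le_norm _)
  set R := ((∫⁻ z, ‖F z‖ₑ ^ 2 * ENNReal.ofReal (w z)) ^ (1 / 2 : ℝ) *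
          (∫⁻ z, ‖G z‖ₑ ^ 2 * ENNReal.ofReal (w z)⁻¹) ^ (1 / 2 : ℝ)) with hR
  have hsum : ∑ k ∈ Finset.range N, BJ j (sc s0 (k + j + 1)) F G ≤
      (∑ k ∈ Finset.range N, ∫⁻ z, ENNReal.ofReal
          (EJR j (sc s0 (k + j + 1)) (fun z => (F z).re) z) *
        ENNReal.ofReal (EJR j (sc s0 (k + j + 1)) (fun z => (G z).re) z)) +
      (∑ k ∈ Finset.range N, ∫⁻ z, ENNReal.ofReal
          (EJR j (sc s0 (k + j + 1)) (fun z => (F z).re) z) *
        ENNReal.ofReal (EJR j (sc s0 (k + j + 1)) (fun z => (G z).im) z)) +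
      ((∑ k ∈ Finset.range N, ∫⁻ z, ENNReal.ofReal
          (EJR j (sc s0 (k + j + 1)) (fun z => (F z).im) z) *
        ENNReal.ofReal (EJR j (sc s0 (k + j + 1)) (fun z => (G z).re) z)) +
      (∑ k ∈ Finset.range N, ∫⁻ z, ENNReal.ofReal
          (EJR j (sc s0 (k + j + 1)) (fun z => (F z).im) z) *
        ENNReal.ofReal (EJR j (sc s0 (k + j + 1)) (fun z => (G z).im) z))) := by
    rw [← Finset.sum_add_distrib, ← Finset.sum_add_distrib, ← Finset.sum_add_distrib]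
    apply Finset.sum_le_sum
    intro k _
    exact C7_BJ_le hF hG hj (sc_pos h _)
  refine hsum.trans ((add_le_add (add_le_add k1 k2) (add_le_add k3 k4)).trans (le_of_eq ?_))
  have hX : (0 : ℝ) ≤ 41000 * K * √(j + 1) := by positivity
  have e4 : (164000 * K * √(j + 1) : ℝ) = 41000 * K * √(j + 1) + 41000 * K * √(j + 1) +
      (41000 * K * √(j + 1) + 41000 * K * √(j + 1)) := by ring
  rw [e4, ENNReal.ofReal_add (by positivity) (by positivity), ENNReal.ofReal_add hX hX]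
  ring

end Pool.Agent.Lib.MP_f0c028_an.SQ
end

section

set_option autoImplicit false

/-! # TASK C8: all scales

* `lint_triadic`: copy the proof of `lint_dyadic` (GW6b.lean) with `3` in place of `2`: the last step is `volume (Ioc 1 3) = 2`.
* `sum_scales`: `ENNReal.tsum_le_of_sum_le`-style (`ENNReal.tsum_eq_iSup_sum`): a finite set of integers is contained in `{A - k | k < N}` for `N = 2 A + 1`, and
  `(3:ℝ)^(A - k) * t = sc s0 (k + j + 1)` for `s0 = 3^(A+j+1) t`; `window_cx`.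
* `int_scales`: `lint_triadic` with `A t = ofReal t⁻¹ * BJ j t F G` (`ofReal (3^k t) ofReal (3^k t)⁻¹ = 1`). -/

open MeasureTheory Real Set

namespace Pool.Agent.Lib.MP_f0c028_an.SQ

open Pool.Agent.Lib.MP_f0c028_an.GW

theorem lint_triadic {A : ℝ → ENNReal} (hA : Measurable A) {I : ENNReal}
    (hI : ∀ t : ℝ, 0 < t → ∑' k : ℤ, ENNReal.ofReal ((3 : ℝ) ^ k * t) * A ((3 : ℝ) ^ k * t) ≤ I) :
    ∫⁻ t in Ioi (0 : ℝ), A t ≤ 2 * I := by
  have hU : Ioi (0 : ℝ) = ⋃ k : ℤ, Ioc ((3 : ℝ) ^ k) ((3 : ℝ) ^ (k + 1)) := by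
    ext t
    simp only [mem_Ioi, mem_iUnion]
    constructor
    · intro ht
      obtain ⟨n, hn⟩ := exists_mem_Ioc_zpow ht (show (1 : ℝ) < 3 by norm_num)
      exact ⟨n, hn⟩
    · rintro ⟨k, hk⟩
      exact lt_trans (by positivity) hk.1
  have hsub : ∀ k : ℤ, ∫⁻ t in Ioc ((3 : ℝ) ^ k) ((3 : ℝ) ^ (k + 1)), A t =
      ∫⁻ τ in Ioc (1 : ℝ) 3, ENNReal.ofReal ((3 : ℝ) ^ k) * A ((3 : ℝ) ^ k * τ) := by
    intro k
    have h2 : (0 : ℝ) < 3 ^ k := by positivity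
    have himg : (fun τ : ℝ => (3 : ℝ) ^ k * τ) '' Ioc 1 3 = Ioc ((3 : ℝ) ^ k) ((3 : ℝ) ^ (k + 1)) := by
      rw [Set.image_mul_left_Ioc h2, mul_one, zpow_add_one₀ three_ne_zero]
    rw [← himg, lintegral_image_eq_lintegral_abs_deriv_mul measurableSet_Ioc
      (f' := fun _ => (3 : ℝ) ^ k) (fun x _ => ?_) (fun a _ b _ hab => ?_)]
    · simp only [abs_of_pos h2]
    · simpa using ((hasDerivAt_id x).const_mul ((3 : ℝ) ^ k)).hasDerivWithinAt
    · exact mul_left_cancel₀ h2.ne' hab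
  have hmono : Monotone fun k : ℤ => (3 : ℝ) ^ k := zpow_right_mono₀ (by norm_num)
  have hdisj : Pairwise (Function.onFun Disjoint fun k : ℤ => Ioc ((3 : ℝ) ^ k) ((3 : ℝ) ^ (k + 1))) :=
    hmono.pairwise_disjoint_on_Ioc_succ
  rw [hU, lintegral_iUnion (fun k => measurableSet_Ioc) hdisj]
  simp_rw [hsub]
  rw [← lintegral_tsum (fun k => by fun_prop)]
  calc ∫⁻ τ in Ioc (1 : ℝ) 3, ∑' k : ℤ, ENNReal.ofReal ((3 : ℝ) ^ k) * A ((3 : ℝ) ^ k * τ)
      ≤ ∫⁻ _ in Ioc (1 : ℝ) 3, I := by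
        refine setLIntegral_mono measurable_const fun τ hτ => ?_
        refine le_trans (ENNReal.tsum_le_tsum fun k => ?_) (hI τ (lt_trans one_pos hτ.1))
        gcongr
        exact le_mul_of_one_le_right (by positivity) hτ.1.le
    _ = 2 * I := by
        rw [setLIntegral_const, Real.volume_Ioc, mul_comm]
        norm_num

theorem sum_scales {w : ℂ → ℝ} {n K : ℝ} (hw : Bw w n) (hK : HA w K)
    {F G : ℂ → ℂ} {C C' : ℝ} (hF : Bf F C) (hG : Bf G C') {j : ℕ} (hj : 1 ≤ j) {t : ℝ}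
    (ht0 : 0 < t) :
    ∑' k : ℤ, BJ j ((3 : ℝ) ^ k * t) F G ≤
      ENNReal.ofReal (164000 * K * √(j + 1)) *
        ((∫⁻ z, ‖F z‖ₑ ^ 2 * ENNReal.ofReal (w z)) ^ (1 / 2 : ℝ) *
          (∫⁻ z, ‖G z‖ₑ ^ 2 * ENNReal.ofReal (w z)⁻¹) ^ (1 / 2 : ℝ)) := by
  classical
  rw [ENNReal.tsum_eq_iSup_sum]
  refine iSup_le fun s => ?_
  obtain ⟨A, hA⟩ : ∃ A : ℕ, ∀ k ∈ s, |k| ≤ (A : ℤ) := by
    refine ⟨s.sup Int.natAbs, fun k hk => ?_⟩
    have h1 : k.natAbs ≤ s.sup Int.natAbs := Finset.le_sup (f := Int.natAbs) hk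
    rw [Int.abs_eq_natAbs]
    exact_mod_cast h1
  have hs0 : 0 < (3 : ℝ) ^ (A + j + 1) * t := by positivity
  refine le_trans ?_ (window_cx hs0 hw hK hF hG hj (2 * A + 1))
  have hsc : ∀ m : ℕ, sc ((3 : ℝ) ^ (A + j + 1) * t) (m + j + 1) = (3 : ℝ) ^ ((A : ℤ) - m) * t := by
    intro m
    unfold sc
    rw [zpow_sub₀ three_ne_zero, zpow_natCast, zpow_natCast, one_div, inv_pow, pow_succ, pow_add, pow_succ,
      pow_add]
    field_simp
  have himg : s ⊆ (Finset.range (2 * A + 1)).image fun m : ℕ => (A : ℤ) - m := by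
    intro k hk
    have h1 := abs_le.1 (hA k hk)
    rw [Finset.mem_image]
    refine ⟨((A : ℤ) - k).toNat, ?_, ?_⟩
    · rw [Finset.mem_range]
      omega
    · rw [Int.toNat_of_nonneg (by omega)]
      ring
  refine (Finset.sum_le_sum_of_subset himg).trans ?_
  rw [Finset.sum_image (fun a _ b _ hab => by
    have : (A : ℤ) - a = (A : ℤ) - b := hab
    omega)]
  refine le_of_eq (Finset.sum_congr rfl fun m _ => ?_)
  rw [hsc m]

theorem int_scales {w : ℂ → ℝ} {n K : ℝ} (hw : Bw w n) (hK : HA w K)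
    {F G : ℂ → ℂ} {C C' : ℝ} (hF : Bf F C) (hG : Bf G C') {j : ℕ} (hj : 1 ≤ j) :
    ∫⁻ t in Ioi (0 : ℝ), ENNReal.ofReal t⁻¹ * BJ j t F G ≤
      2 * (ENNReal.ofReal (164000 * K * √(j + 1)) *
        ((∫⁻ z, ‖F z‖ₑ ^ 2 * ENNReal.ofReal (w z)) ^ (1 / 2 : ℝ) *
          (∫⁻ z, ‖G z‖ₑ ^ 2 * ENNReal.ofReal (w z)⁻¹) ^ (1 / 2 : ℝ))) := by
  refine lint_triadic (A := fun t => ENNReal.ofReal t⁻¹ * BJ j t F G)
    (measurable_inv.ennreal_ofReal.mul (BJ_meas j hF.meas hG.meas)) fun t ht => ?_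
  refine le_trans (le_of_eq (tsum_congr fun k => ?_)) (sum_scales hw hK hF hG hj ht)
  have h1 : (0 : ℝ) < (3 : ℝ) ^ k * t := by positivity
  show ENNReal.ofReal ((3 : ℝ) ^ k * t) * (ENNReal.ofReal ((3 : ℝ) ^ k * t)⁻¹ * BJ j ((3 : ℝ) ^ k * t) F G) = _
  rw [← mul_assoc, ← ENNReal.ofReal_mul h1.le, mul_inv_cancel₀ h1.ne', ENNReal.ofReal_one, one_mul]

end Pool.Agent.Lib.MP_f0c028_an.SQ
end
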