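import Pool.Agent.Lib.MP_f0c028_an.Mg.G004
import Pool.Agent.Lib.MP_f0c028_an.Mg.G001
import Pool.Agent.Lib.MP_f0c028_an.Mg.G003
import Pool.Agent.Lib.MP_f0c028_an.Mg.G006
import Pool.Agent.Lib.MP_f0c028_an.Mg.G010
import Pool.Agent.Lib.MP_f0c028_an.Mg.G002

section

set_option autoImplicit false

/-! # TASK GW11b: estimates of the kernels

`mk_sup`: `m ≥ 3`, `z ≠ 0`, `q = ‖z‖²/4`, `n = m - 2`, `Q = q + nt`: `mk_rep`, `num_int`; `q^m/Q^{m+2} = q⁻² (1 + nt/q)^{-(m+2)}` and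
`(1 + y)^{m+2} ≥ C(m+2,2) y² = (m+2)(m+1) y²/2` (binomial theorem; i.e. `Q^{m+2} ≥ ((m+2)(m+1)/2) q^m (nt)²`), so
`‖mk‖ ≤ (t/(4π)) (m+1) m (m-1) · 2/((m+2)(m+1) n² t²) = (1/(2πt)) m (m-1)/((m+2) (m-2)²) ≤ 1/(m t)` as
`m² (m-1) ≤ 2π (m+2)(m-2)²` for `m ≥ 3` (write `m = 3 + j`, `2π ≥ 6`). `z = 0`: the integrand in `mk_rep` is `0`. `m = 1, 2`: `mk_le_one`.
`mk_decay`: `m ≥ 2`: `16 q² q^m/Q^{m+2} ≤ 16` (`Q ≥ q`), so `‖mk‖‖z‖⁴ = 16 q² ‖mk‖ ≤ (t/(4π)) (m+1) m (m-1) 16 = (4/π) t (m³ - m) ≤ 2 m³ t`. `m = 1`: `mk_one`,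
`16 q² (q/t) (4πt)⁻¹ e^{-q/t} = (4/π) t y³ e^{-y}`, `y = q/t`, and `y³ e^{-y} ≤ 27/e³ ≤ 1.4`: `e^{y/3} ≥ e · y/3` from
`add_one_le_exp (y/3 - 1)`, cube it (`Real.exp_one_gt_d9`). -/

open Real

namespace Pool.Agent.Lib.MP_f0c028_an.GW

open MeasureTheory Set Filter Topology
open scoped ENNReal InnerProductSpace

private theorem GW11b_binom (m : ℕ) {q x : ℝ} (hq : 0 ≤ q) (hx : 0 ≤ x) :
    ((m : ℝ) + 2) * (m + 1) / 2 * (q ^ m * x ^ 2) ≤ (q + x) ^ (m + 2) := by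
  have h1 := Finset.single_le_sum (f := fun i : ℕ => q ^ i * x ^ (m + 2 - i) * (Nat.choose (m + 2) i : ℝ))
    (s := Finset.range (m + 2 + 1)) (fun i _ => by positivity) (Finset.mem_range.2 (show m < m + 2 + 1 by omega))
  rw [← add_pow] at h1
  have h2 : ((m + 2).choose m : ℝ) = ((m : ℝ) + 2) * (m + 1) / 2 := by
    have h3 : (m + 2).choose m = (m + 2).choose 2 := by
      rw [← Nat.choose_symm (show 2 ≤ m + 2 by omega)]
      rfl
    rw [h3, Nat.cast_choose_two]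
    push_cast
    ring
  simp only [Nat.add_sub_cancel_left] at h1
  rw [h2] at h1
  calc ((m : ℝ) + 2) * (m + 1) / 2 * (q ^ m * x ^ 2)
      = q ^ m * x ^ 2 * (((m : ℝ) + 2) * (m + 1) / 2) := by ring
    _ ≤ _ := h1

private theorem GW11b_rep {m : ℕ} (hm : 2 ≤ m) {t : ℝ} (ht : 0 < t) {z : ℂ} (hz : z ≠ 0) :
    ‖mk m t z‖ ≤ t / (4 * π) * ((m + 1) * m * (m - 1)) * ((‖z‖ ^ 2 / 4) ^ m /
      (‖z‖ ^ 2 / 4 + (m - 2) * t) ^ (m + 2)) :=
  (mk_rep hm ht z).trans (num_int hm ht hz)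

theorem mk_sup {m : ℕ} (hm : 1 ≤ m) {t : ℝ} (ht : 0 < t) (z : ℂ) :
    ‖mk m t z‖ ≤ 1 / (m * t) := by
  have hpi := Real.pi_gt_three
  by_cases h3 : 3 ≤ m
  · by_cases hz : z = 0
    · have h1 := mk_rep (show 2 ≤ m by omega) ht z
      have h2 : ∫ s in Ioi t, (s - t) ^ (m - 2) * (‖z‖ ^ 2 / (4 * s ^ 2)) ^ m * gk s z = 0 := by
        rw [hz]
        have h0 : ∀ s : ℝ, (s - t) ^ (m - 2) * (‖(0 : ℂ)‖ ^ 2 / (4 * s ^ 2)) ^ m * gk s 0 = 0 := by
          intro s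
          rw [norm_zero, zero_pow two_ne_zero, zero_div, zero_pow (by omega), mul_zero, zero_mul]
        simp only [h0]
        exact integral_zero _ _
      rw [h2, mul_zero] at h1
      exact h1.trans (by positivity)
    · refine (GW11b_rep (show 2 ≤ m by omega) ht hz).trans ?_
      obtain ⟨j, rfl⟩ := Nat.exists_eq_add_of_le h3
      have hj : (0 : ℝ) ≤ j := Nat.cast_nonneg j
      have hq : 0 < ‖z‖ ^ 2 / 4 := by positivity
      set q := ‖z‖ ^ 2 / 4 with hqdef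
      have hn : (((3 + j : ℕ) : ℝ) - 2) = 1 + j := by push_cast; ring
      rw [hn]
      have hnt : 0 ≤ (1 + (j : ℝ)) * t := by positivity
      have h1 := GW11b_binom (3 + j) hq.le hnt
      have hQ : 0 < (q + (1 + (j : ℝ)) * t) ^ (3 + j + 2) := by positivity
      have h2 : q ^ (3 + j) / (q + (1 + (j : ℝ)) * t) ^ (3 + j + 2) ≤
          2 / ((5 + j) * (4 + j) * ((1 + j) * t) ^ 2) := by
        rw [div_le_div_iff₀ hQ (by positivity)]
        have e : q ^ (3 + j) * ((5 + (j : ℝ)) * (4 + j) * ((1 + j) * t) ^ 2) =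
            2 * ((((3 + j : ℕ) : ℝ) + 2) * (((3 + j : ℕ) : ℝ) + 1) / 2 *
              (q ^ (3 + j) * ((1 + j) * t) ^ 2)) := by
          push_cast; ring
        rw [e]
        linarith
      have h4 : t / (4 * π) * ((((3 + j : ℕ) : ℝ) + 1) * ((3 + j : ℕ) : ℝ) * (((3 + j : ℕ) : ℝ) - 1)) *
          (q ^ (3 + j) / (q + (1 + (j : ℝ)) * t) ^ (3 + j + 2)) ≤
          t / (4 * π) * ((4 + j) * (3 + j) * (2 + j)) *
            (2 / ((5 + j) * (4 + j) * ((1 + j) * t) ^ 2)) := by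
        have e : (((3 + j : ℕ) : ℝ) + 1) * ((3 + j : ℕ) : ℝ) * (((3 + j : ℕ) : ℝ) - 1) =
            (4 + j) * (3 + j) * (2 + j) := by push_cast; ring
        rw [e]
        exact mul_le_mul_of_nonneg_left h2 (by positivity)
      refine h4.trans ?_
      have e : t / (4 * π) * ((4 + (j : ℝ)) * (3 + j) * (2 + j)) *
            (2 / ((5 + j) * (4 + j) * ((1 + j) * t) ^ 2)) =
          ((3 + j) * (2 + j)) / (2 * π * (5 + j) * (1 + j) ^ 2 * t) := by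
        field_simp
        ring
      rw [e, div_le_div_iff₀ (by positivity) (by push_cast; positivity)]
      push_cast
      have h5 : (3 + (j : ℝ)) ^ 2 * (2 + j) ≤ 6 * ((5 + j) * (1 + j) ^ 2) := by
        nlinarith [mul_nonneg hj hj, mul_nonneg (mul_nonneg hj hj) hj]
      have h6 : 6 * ((5 + (j : ℝ)) * (1 + j) ^ 2) ≤ 2 * π * ((5 + j) * (1 + j) ^ 2) :=
        mul_le_mul_of_nonneg_right (by linarith) (by positivity)
      calc (3 + (j : ℝ)) * (2 + j) * ((3 + j) * t) = ((3 + (j : ℝ)) ^ 2 * (2 + j)) * t := by ring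
        _ ≤ (2 * π * ((5 + j) * (1 + j) ^ 2)) * t :=
            mul_le_mul_of_nonneg_right (h5.trans h6) ht.le
        _ = 1 * (2 * π * (5 + j) * (1 + j) ^ 2 * t) := by ring
  · refine (mk_le_one m ht z).trans ?_
    have hm1 : (1 : ℝ) ≤ m := by exact_mod_cast hm
    have hm2 : (m : ℝ) ≤ 2 := by exact_mod_cast (by omega : m ≤ 2)
    refine one_div_le_one_div_of_le (by positivity) ?_
    exact mul_le_mul_of_nonneg_right (by linarith) ht.le

theorem mk_decay {m : ℕ} (hm : 1 ≤ m) {t : ℝ} (ht : 0 < t) (z : ℂ) :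
    ‖mk m t z‖ * ‖z‖ ^ 4 ≤ 2 * m ^ 3 * t := by
  have hpi := Real.pi_gt_three
  by_cases hz : z = 0
  · rw [hz, norm_zero, zero_pow (by norm_num), mul_zero]
    positivity
  by_cases h2 : 2 ≤ m
  · have h1 := GW11b_rep h2 ht hz
    have hq : 0 < ‖z‖ ^ 2 / 4 := by positivity
    have hz4 : ‖z‖ ^ 4 = 16 * (‖z‖ ^ 2 / 4) ^ 2 := by ring
    rw [hz4]
    set q := ‖z‖ ^ 2 / 4 with hqdef
    have hm2 : (2 : ℝ) ≤ m := by exact_mod_cast h2
    have hmt : 0 ≤ ((m : ℝ) - 2) * t := mul_nonneg (by linarith) ht.le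
    have hQ : 0 < (q + ((m : ℝ) - 2) * t) ^ (m + 2) := by positivity
    have h3 : q ^ m / (q + ((m : ℝ) - 2) * t) ^ (m + 2) * q ^ 2 ≤ 1 := by
      rw [div_mul_eq_mul_div, div_le_one hQ, ← pow_add]
      exact pow_le_pow_left₀ hq.le (by linarith) _
    have h4 : 0 ≤ t / (4 * π) * (((m : ℝ) + 1) * m * (m - 1)) := by
      have : 0 ≤ (m : ℝ) - 1 := by linarith
      positivity
    calc ‖mk m t z‖ * (16 * q ^ 2)
        ≤ (t / (4 * π) * (((m : ℝ) + 1) * m * (m - 1)) * (q ^ m /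
          (q + (m - 2) * t) ^ (m + 2))) * (16 * q ^ 2) :=
          mul_le_mul_of_nonneg_right h1 (by positivity)
      _ = 16 * (t / (4 * π) * (((m : ℝ) + 1) * m * (m - 1))) * (q ^ m /
          (q + (m - 2) * t) ^ (m + 2) * q ^ 2) := by ring
      _ ≤ 16 * (t / (4 * π) * (((m : ℝ) + 1) * m * (m - 1))) * 1 :=
          mul_le_mul_of_nonneg_left h3 (by positivity)
      _ = (4 * ((m : ℝ) ^ 3 - m)) * t / π := by field_simp; ring
      _ ≤ 2 * m ^ 3 * t := by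
        rw [div_le_iff₀ (by positivity)]
        have h5 : 4 * ((m : ℝ) ^ 3 - m) ≤ 2 * m ^ 3 * π := by
          have h6 : (0 : ℝ) ≤ (m : ℝ) ^ 3 := by positivity
          nlinarith
        nlinarith
  · have hm1 : m = 1 := by omega
    subst hm1
    rw [mk_one ht, gk]
    have hy : 0 ≤ ‖z‖ ^ 2 / (4 * t) := by positivity
    have hz4 : ‖z‖ ^ 4 = 16 * t ^ 2 * (‖z‖ ^ 2 / (4 * t)) ^ 2 := by
      field_simp
      ring
    rw [hz4]
    set y := ‖z‖ ^ 2 / (4 * t) with hydef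
    have h1 : Real.exp 1 * (y / 3) ≤ Real.exp (y / 3) := by
      have h := Real.add_one_le_exp (y / 3 - 1)
      have e : Real.exp (y / 3) = Real.exp 1 * Real.exp (y / 3 - 1) := by
        rw [← Real.exp_add]; congr 1; ring
      rw [e]
      exact mul_le_mul_of_nonneg_left (by linarith) (Real.exp_pos 1).le
    have h2 : (Real.exp 1 * (y / 3)) ^ 3 ≤ Real.exp y := by
      have e : Real.exp y = Real.exp (y / 3) ^ 3 := by
        rw [← Real.exp_nat_mul]; congr 1; push_cast; ring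
      rw [e]
      exact pow_le_pow_left₀ (by positivity) h1 3
    have h3 : (2.7 : ℝ) ≤ Real.exp 1 := by
      have := Real.exp_one_gt_d9
      linarith
    have h4 : (2.7 : ℝ) ^ 3 ≤ Real.exp 1 ^ 3 := pow_le_pow_left₀ (by norm_num) h3 3
    have h5 : y ^ 3 * (2.7 ^ 3 / 27) ≤ Real.exp y := by
      calc y ^ 3 * (2.7 ^ 3 / 27) ≤ y ^ 3 * (Real.exp 1 ^ 3 / 27) := by
            apply mul_le_mul_of_nonneg_left _ (by positivity)
            linarith
        _ = (Real.exp 1 * (y / 3)) ^ 3 := by ring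
        _ ≤ _ := h2
    have h6 : y ^ 3 * Real.exp (-y) ≤ 3 / 2 := by
      rw [Real.exp_neg, ← div_eq_mul_inv, div_le_iff₀ (Real.exp_pos y)]
      have : (0 : ℝ) ≤ y ^ 3 := by positivity
      norm_num at h5
      nlinarith
    calc y * ((4 * π * t)⁻¹ * Real.exp (-y)) * (16 * t ^ 2 * y ^ 2)
        = (4 * t / π) * (y ^ 3 * Real.exp (-y)) := by field_simp; ring
      _ ≤ (4 * t / π) * (3 / 2) := mul_le_mul_of_nonneg_left h6 (by positivity)
      _ = 6 * t / π := by ring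
      _ ≤ 2 * ((1 : ℕ) : ℝ) ^ 3 * t := by
        rw [div_le_iff₀ (by positivity)]
        push_cast
        nlinarith

end Pool.Agent.Lib.MP_f0c028_an.GW
end

section

set_option autoImplicit false

/-! # TASK GW11c: domination of the kernels by heat kernels

`gk (2 s) z = (8πs)⁻¹ e^{-‖z‖²/(8s)}` for `s = 4^i m² t`. If `‖z‖² ≤ m² t` the term `i = 0` is at least `(8π m² t)⁻¹ e^{-1/8}` and `mk_sup` suffices
(`8π e^{1/8} ≤ 90`). Otherwise take `i` with `4^i m² t < ‖z‖² ≤ 4^(i+1) m² t` (`exists_nat_pow_near`); the term `i` is at least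
`4^(-i) (8π 4^i m² t)⁻¹ e^{-1/2} = (8π 16^i m² t)⁻¹ e^{-1/2}` and `mk_decay` gives `‖mk‖ ≤ 2 m³ t/‖z‖⁴ ≤ 2 m³ t/(16^i m⁴ t²) = 2/(16^i m t)`; `16π e^{1/2} ≤ 83 ≤ 90`
(`e^{1/2} ≤ 1.65` from `exp_one_lt_d9`: `2.7183 ≤ 1.65²`). Then `ENNReal.le_tsum i` (`ofReal_norm_eq_enorm`). -/

open Real

namespace Pool.Agent.Lib.MP_f0c028_an.GW

open MeasureTheory Set Filter Topology
open scoped ENNReal InnerProductSpace

private theorem GW11c_exp_half : (0.6 : ℝ) ≤ Real.exp (-(1 / 2)) := by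
  have h1 : Real.exp (-(1 / 2)) * Real.exp (-(1 / 2)) = Real.exp (-1) := by
    rw [← Real.exp_add]
    norm_num
  have h2 : Real.exp (-1) * Real.exp 1 = 1 := by
    rw [← Real.exp_add]
    norm_num
  have h3 := Real.exp_one_lt_d9
  have h4 := Real.exp_pos (-(1 / 2))
  have h5 := Real.exp_pos (-1)
  by_contra hc
  push Not at hc
  nlinarith

private theorem GW11c_exp_eighth : (0.5 : ℝ) ≤ Real.exp (-(1 / 8)) := by
  have := Real.add_one_le_exp (-(1 / 8 : ℝ))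
  linarith

private theorem GW11c_real {m : ℕ} (hm : 1 ≤ m) {t : ℝ} (ht : 0 < t) (z : ℂ) :
    ∃ i : ℕ, ‖mk m t z‖ ≤ 90 * m * ((1 / 4) ^ i * gk (2 * (4 ^ i * (m ^ 2 * t))) z) := by
  have hm0 : (0 : ℝ) < m := by exact_mod_cast hm
  have hN : 0 < (m : ℝ) ^ 2 * t := by positivity
  have hpi := Real.pi_pos
  have hpi2 := Real.pi_lt_d2
  rcases le_or_gt (‖z‖ ^ 2) ((m : ℝ) ^ 2 * t) with hz | hz
  · refine ⟨0, ?_⟩
    have h1 := mk_sup hm ht z
    refine h1.trans ?_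
    unfold gk
    rw [pow_zero, pow_zero, one_mul, one_mul]
    have h2 : Real.exp (-(1 / 8)) ≤ Real.exp (-(‖z‖ ^ 2 / (4 * (2 * ((m : ℝ) ^ 2 * t))))) := by
      rw [Real.exp_le_exp]
      have : ‖z‖ ^ 2 / (4 * (2 * ((m : ℝ) ^ 2 * t))) ≤ 1 / 8 := by
        rw [div_le_div_iff₀ (by positivity) (by norm_num)]
        linarith
      linarith
    have h3 := GW11c_exp_eighth.trans h2
    set E := Real.exp (-(‖z‖ ^ 2 / (4 * (2 * ((m : ℝ) ^ 2 * t))))) with hE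
    have h4 : 90 * (m : ℝ) * ((4 * π * (2 * ((m : ℝ) ^ 2 * t)))⁻¹ * E) =
        (90 * E / (8 * π)) * (1 / (m * t)) := by
      field_simp
      ring
    rw [h4]
    have h5 : 1 ≤ 90 * E / (8 * π) := by
      rw [le_div_iff₀ (by positivity)]
      linarith
    have h6 : 0 < 1 / ((m : ℝ) * t) := by positivity
    nlinarith
  · obtain ⟨i, hi1, hi2⟩ := exists_nat_pow_near (x := ‖z‖ ^ 2 / ((m : ℝ) ^ 2 * t)) (y := 4)
      (by rw [le_div_iff₀ hN]; linarith) (by norm_num)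
    refine ⟨i, ?_⟩
    rw [le_div_iff₀ hN] at hi1
    rw [div_lt_iff₀ hN] at hi2
    have h1 := mk_decay hm ht z
    have h4i : (0 : ℝ) < 4 ^ i := by positivity
    have h2 : (4 ^ i * ((m : ℝ) ^ 2 * t)) ^ 2 ≤ ‖z‖ ^ 4 := by
      calc (4 ^ i * ((m : ℝ) ^ 2 * t)) ^ 2 ≤ (‖z‖ ^ 2) ^ 2 := by gcongr
        _ = ‖z‖ ^ 4 := by ring
    have h3 : ‖mk m t z‖ * (4 ^ i * ((m : ℝ) ^ 2 * t)) ^ 2 ≤ 2 * m ^ 3 * t :=
      (mul_le_mul_of_nonneg_left h2 (norm_nonneg _)).trans h1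
    have h5 : ‖mk m t z‖ ≤ 2 / ((4 ^ i) ^ 2 * m * t) := by
      rw [le_div_iff₀ (by positivity)]
      have h6 : ‖mk m t z‖ * (4 ^ i * ((m : ℝ) ^ 2 * t)) ^ 2 =
          (‖mk m t z‖ * ((4 ^ i) ^ 2 * m * t)) * (m ^ 3 * t) := by ring
      rw [h6, show (2 : ℝ) * m ^ 3 * t = 2 * (m ^ 3 * t) by ring] at h3
      exact le_of_mul_le_mul_right h3 (by positivity)
    refine h5.trans ?_
    unfold gk
    have h7 : Real.exp (-(1 / 2)) ≤
        Real.exp (-(‖z‖ ^ 2 / (4 * (2 * (4 ^ i * ((m : ℝ) ^ 2 * t)))))) := by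
      rw [Real.exp_le_exp]
      have : ‖z‖ ^ 2 / (4 * (2 * (4 ^ i * ((m : ℝ) ^ 2 * t)))) ≤ 1 / 2 := by
        rw [div_le_div_iff₀ (by positivity) (by norm_num)]
        rw [pow_succ (4 : ℝ) i] at hi2
        linarith
      linarith
    have h8 := GW11c_exp_half.trans h7
    set E := Real.exp (-(‖z‖ ^ 2 / (4 * (2 * (4 ^ i * ((m : ℝ) ^ 2 * t)))))) with hE
    have h9 : 90 * (m : ℝ) * ((1 / 4) ^ i * ((4 * π * (2 * (4 ^ i * ((m : ℝ) ^ 2 * t))))⁻¹ * E)) =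
        (90 * E / (16 * π)) * (2 / ((4 ^ i) ^ 2 * m * t)) := by
      rw [one_div, inv_pow]
      field_simp
      ring
    rw [h9]
    have h10 : 1 ≤ 90 * E / (16 * π) := by
      rw [le_div_iff₀ (by positivity)]
      linarith
    have h11 : 0 < 2 / (((4 : ℝ) ^ i) ^ 2 * m * t) := by positivity
    nlinarith

/-- The kernel is dominated by a sum of heat kernels at the scales `4^i m² t`. -/
theorem mk_gauss {m : ℕ} (hm : 1 ≤ m) {t : ℝ} (ht : 0 < t) (z : ℂ) :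
    ‖mk m t z‖ₑ ≤ ENNReal.ofReal (90 * m) *
      ∑' i : ℕ, ENNReal.ofReal ((1 / 4) ^ i * gk (2 * (4 ^ i * (m ^ 2 * t))) z) := by
  obtain ⟨i, hi⟩ := GW11c_real hm ht z
  rw [← ofReal_norm]
  calc ENNReal.ofReal ‖mk m t z‖
      ≤ ENNReal.ofReal (90 * m * ((1 / 4) ^ i * gk (2 * (4 ^ i * (m ^ 2 * t))) z)) :=
        ENNReal.ofReal_le_ofReal hi
    _ = ENNReal.ofReal (90 * m) *
        ENNReal.ofReal ((1 / 4) ^ i * gk (2 * (4 ^ i * (m ^ 2 * t))) z) :=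
        ENNReal.ofReal_mul (by positivity)
    _ ≤ _ := by
        gcongr
        exact ENNReal.le_tsum (f := fun i : ℕ =>
          ENNReal.ofReal ((1 / 4) ^ i * gk (2 * (4 ^ i * (m ^ 2 * t))) z)) i

end Pool.Agent.Lib.MP_f0c028_an.GW
end

section

set_option autoImplicit false

/-! # TASK GW13: the bilinear form at one scale

`cs_real_line`: as `cs_lint` in PW3 (`ENNReal.lintegral_mul_le_Lp_mul_Lq`).
`scale_bound`: `mk_gauss` under the integrals, `lintegral_tsum`, `lintegral_const_mul`, and for each `i` `pair_bound` with `s = 4^i m² t`, `r = 3 t`,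
`a y = ‖dd t F y‖ₑ`, `b x = ‖dd t G x‖ₑ`: `∫⁻∫⁻ ofReal (gk (2s) (x-y)) (a y b x) ≤ (ofReal K * (SQ w F t * SQ w⁻¹ G t))^(1/2)`
(`vv (w⁻¹) (3t) = ht (3t) w` by `inv_inv`); `∑ (1/4)^i = 4/3` (`tsum_geometric_of_lt_one`, `ENNReal.ofReal_tsum_of_nonneg`), `90 · 4/3 = 120`,
`(ofReal K)^(1/2) = ofReal √K` (`ENNReal.ofReal_rpow_of_nonneg`, `Real.sqrt_eq_rpow`). `K ≥ 1` (`one_le_HA`). -/

open Real

namespace Pool.Agent.Lib.MP_f0c028_an.GW

open MeasureTheory Set Filter Topology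
open scoped ENNReal InnerProductSpace

theorem HA_inv {w : ℂ → ℝ} {K : ℝ} (hK : HA w K) : HA (fun z => (w z)⁻¹) K := by
  intro t ht x
  simp only [inv_inv]
  rw [mul_comm]
  exact hK t ht x

theorem cs_real_line {μ : Measure ℝ} {u v : ℝ → ℝ≥0∞} (hu : AEMeasurable u μ)
    (hv : AEMeasurable v μ) :
    (∫⁻ t, u t * v t ∂μ) ^ 2 ≤ (∫⁻ t, u t ^ 2 ∂μ) * ∫⁻ t, v t ^ 2 ∂μ := by
  have h := ENNReal.lintegral_mul_le_Lp_mul_Lq μ Real.HolderConjugate.two_two hu hv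
  have h2 : ∀ x : ℝ≥0∞, (x ^ (1 / (2 : ℝ))) ^ 2 = x := by
    intro x
    rw [← ENNReal.rpow_natCast, ← ENNReal.rpow_mul]
    norm_num
  calc (∫⁻ z, u z * v z ∂μ) ^ 2 = (∫⁻ z, (u * v) z ∂μ) ^ 2 := rfl
    _ ≤ ((∫⁻ z, u z ^ (2 : ℝ) ∂μ) ^ (1 / (2 : ℝ)) * (∫⁻ z, v z ^ (2 : ℝ) ∂μ) ^ (1 / (2 : ℝ))) ^ 2 :=
        pow_le_pow_left' h 2
    _ = _ := by
        rw [mul_pow, h2, h2]
        norm_num

private theorem le_half_of_sq {X Y : ℝ≥0∞} (h : X ^ 2 ≤ Y) : X ≤ Y ^ (1 / 2 : ℝ) := by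
  have e : X = (X ^ 2) ^ (1 / 2 : ℝ) := by
    rw [← ENNReal.rpow_natCast, ← ENNReal.rpow_mul]
    norm_num
  rw [e]
  exact ENNReal.rpow_le_rpow h (by norm_num)

private theorem tsum_quarter :
    ∑' i : ℕ, ENNReal.ofReal ((1 / 4 : ℝ) ^ i) = ENNReal.ofReal (4 / 3) := by
  have hs : Summable fun i : ℕ => (1 / 4 : ℝ) ^ i :=
    summable_geometric_of_lt_one (by norm_num) (by norm_num)
  rw [← ENNReal.ofReal_tsum_of_nonneg (fun i => by positivity) hs,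
    tsum_geometric_of_lt_one (by norm_num) (by norm_num)]
  norm_num

private theorem tsum_lint {c : ℝ≥0∞} {d : ℕ → ℝ≥0∞} {A : ℕ → ℂ × ℂ → ℝ≥0∞}
    (hA : ∀ i, Measurable (A i)) :
    ∫⁻ x, ∫⁻ y, ∑' i, c * (d i * A i (x, y)) = ∑' i, c * (d i * ∫⁻ x, ∫⁻ y, A i (x, y)) := by
  have hm1 : ∀ i (x : ℂ), Measurable fun y => A i (x, y) := fun i x =>
    (hA i).comp measurable_prodMk_left
  have hm2 : ∀ i, Measurable fun x => ∫⁻ y, A i (x, y) := fun i => (hA i).lintegral_prod_right'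
  have hin : ∀ x, ∫⁻ y, ∑' i, c * (d i * A i (x, y)) = ∑' i, c * (d i * ∫⁻ y, A i (x, y)) := by
    intro x
    rw [lintegral_tsum fun i => (((hm1 i x).const_mul _).const_mul _).aemeasurable]
    refine tsum_congr fun i => ?_
    rw [lintegral_const_mul _ ((hm1 i x).const_mul _), lintegral_const_mul _ (hm1 i x)]
  rw [lintegral_congr hin, lintegral_tsum fun i => (((hm2 i).const_mul _).const_mul _).aemeasurable]
  refine tsum_congr fun i => ?_
  rw [lintegral_const_mul _ ((hm2 i).const_mul _), lintegral_const_mul _ (hm2 i)]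

theorem scale_bound {m : ℕ} (hm : 1 ≤ m) {w : ℂ → ℝ} {n K : ℝ} (h : Bw w n) (hK : HA w K)
    {F G : ℂ → ℂ} {M M' : ℝ} (hF : Bf F M) (hG : Bf G M') {t : ℝ} (ht : 0 < t) :
    ∫⁻ x, ∫⁻ y, ‖mk m t (x - y)‖ₑ * (‖dd t F y‖ₑ * ‖dd t G x‖ₑ) ≤
      ENNReal.ofReal (120 * m * √K) *
        (SQ w F t ^ (1 / 2 : ℝ) * SQ (fun z => (w z)⁻¹) G t ^ (1 / 2 : ℝ)) := by
  have hK1 : 1 ≤ K := one_le_HA h hK
  have hK0 : 0 ≤ K := by linarith
  have hm0 : (0 : ℝ) < m := by exact_mod_cast hm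
  have hty : Measurable fun y : ℂ => ((t, y) : ℝ × ℂ) := by fun_prop
  have ha : Measurable fun y => ‖dd t F y‖ₑ := ((dd_meas hF.meas).comp hty).enorm
  have hb : Measurable fun y => ‖dd t G y‖ₑ := ((dd_meas hG.meas).comp hty).enorm
  set a : ℂ → ℝ≥0∞ := fun y => ‖dd t F y‖ₑ with had
  set b : ℂ → ℝ≥0∞ := fun y => ‖dd t G y‖ₑ with hbd
  set s : ℕ → ℝ := fun i => 4 ^ i * (m ^ 2 * t) with hsd
  have hs : ∀ i, 0 < s i := fun i => by
    rw [hsd]
    positivity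
  set S := SQ w F t with hS
  set S' := SQ (fun z => (w z)⁻¹) G t with hS'
  have hSe : S = ∫⁻ y, a y ^ 2 / ENNReal.ofReal (vv w (3 * t) y) := rfl
  have hSe' : S' = ∫⁻ y, b y ^ 2 / ENNReal.ofReal (Pool.Agent.Lib.MP_f0c028_an.GW.ht (3 * t) w y) := by
    rw [hS']
    unfold SQ vv
    simp only [inv_inv, hbd]
  set R : ℝ≥0∞ := ENNReal.ofReal (√K) * (S ^ (1 / 2 : ℝ) * S' ^ (1 / 2 : ℝ)) with hR
  -- one scale
  have hone : ∀ i, ∫⁻ x, ∫⁻ y, ENNReal.ofReal (gk (2 * s i) (x - y)) * (a y * b x) ≤ R := by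
    intro i
    have h1 := pair_bound h hK ha hb (hs i) (r := 3 * t) (by positivity)
    rw [← hSe, ← hSe'] at h1
    refine (le_half_of_sq h1).trans (le_of_eq ?_)
    rw [ENNReal.mul_rpow_of_nonneg _ _ (by norm_num), ENNReal.mul_rpow_of_nonneg _ _ (by norm_num),
      ENNReal.ofReal_rpow_of_nonneg hK0 (by norm_num), ← Real.sqrt_eq_rpow]
  -- measurability
  have hgm : ∀ i, Measurable fun p : ℂ × ℂ => ENNReal.ofReal (gk (2 * s i) (p.1 - p.2)) := by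
    intro i
    have : Continuous fun p : ℂ × ℂ => gk (2 * s i) (p.1 - p.2) :=
      (gk_cont _).comp (continuous_fst.sub continuous_snd)
    exact this.measurable.ennreal_ofReal
  have hpm : ∀ i, Measurable fun p : ℂ × ℂ =>
      ENNReal.ofReal (gk (2 * s i) (p.1 - p.2)) * (a p.2 * b p.1) := fun i =>
    (hgm i).mul ((ha.comp measurable_snd).mul (hb.comp measurable_fst))
  -- the pointwise bound
  have hpt : ∀ x y, ‖mk m t (x - y)‖ₑ * (a y * b x) ≤ ∑' i : ℕ, ENNReal.ofReal (90 * m) *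
      (ENNReal.ofReal ((1 / 4 : ℝ) ^ i) *
        (ENNReal.ofReal (gk (2 * s i) (x - y)) * (a y * b x))) := by
    intro x y
    have h1 := mk_gauss hm ht (x - y)
    calc ‖mk m t (x - y)‖ₑ * (a y * b x) ≤ (ENNReal.ofReal (90 * m) *
          ∑' i : ℕ, ENNReal.ofReal ((1 / 4) ^ i * gk (2 * (4 ^ i * (m ^ 2 * t))) (x - y))) *
            (a y * b x) := by gcongr
      _ = _ := by
          rw [ENNReal.tsum_mul_left, mul_assoc, ← ENNReal.tsum_mul_right]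
          congr 1
          refine tsum_congr fun i => ?_
          rw [ENNReal.ofReal_mul (by positivity), mul_assoc]
  calc ∫⁻ x, ∫⁻ y, ‖mk m t (x - y)‖ₑ * (a y * b x)
      ≤ ∫⁻ x, ∫⁻ y, ∑' i : ℕ, ENNReal.ofReal (90 * m) * (ENNReal.ofReal ((1 / 4 : ℝ) ^ i) *
        (ENNReal.ofReal (gk (2 * s i) (x - y)) * (a y * b x))) :=
        lintegral_mono fun x => lintegral_mono fun y => hpt x y
    _ = ∑' i : ℕ, ENNReal.ofReal (90 * m) * (ENNReal.ofReal ((1 / 4 : ℝ) ^ i) *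
        ∫⁻ x, ∫⁻ y, ENNReal.ofReal (gk (2 * s i) (x - y)) * (a y * b x)) :=
        tsum_lint (c := ENNReal.ofReal (90 * m)) (d := fun i => ENNReal.ofReal ((1 / 4 : ℝ) ^ i)) hpm
    _ ≤ ∑' i : ℕ, ENNReal.ofReal (90 * m) * (ENNReal.ofReal ((1 / 4 : ℝ) ^ i) * R) := by
        refine ENNReal.tsum_le_tsum fun i => ?_
        gcongr
        exact hone i
    _ = ENNReal.ofReal (90 * m) * (ENNReal.ofReal (4 / 3) * R) := by
        rw [ENNReal.tsum_mul_left, ENNReal.tsum_mul_right, tsum_quarter]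
    _ = ENNReal.ofReal (120 * m * √K) * (S ^ (1 / 2 : ℝ) * S' ^ (1 / 2 : ℝ)) := by
        rw [hR, ← mul_assoc, ← mul_assoc, ← ENNReal.ofReal_mul (by positivity),
          ← ENNReal.ofReal_mul (by positivity)]
        congr 2
        ring

end Pool.Agent.Lib.MP_f0c028_an.GW
end

section

set_option autoImplicit false

/-! # TASK GW13b: bounded weights

`bilin`: `rep_main`, `scale_bound` (for `t > 0`), `cs_real_line` with `u = SQ^(1/2)`, `SQ_main` for `(w, F)` and `(w⁻¹, G)` (`HA_inv`, `Bw.inv`; `bf_schwartz`):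
`100 · 120 · √K · 404 K = 4848000 K √K`; everything is squared at the end: `‖..‖ₑ² ≤ (100 · ofReal (120 m √K))² (∫ SQ) (∫ SQ)`.
`bounded_main`: for `R > 0` let `G = gg F m · w · 1_{ball 0 R}` (`Bf`: `gg F m` is bounded (`UU_bound`, `hh_int`) and continuous
(`gg_contDiff`, RWCore), `w ≤ n`). `J = ∫⁻ z in ball 0 R, ‖gg F m z‖ₑ² ofReal (w z) < ∞`; `gg F m conj G = |gg F m|² w 1_{ball}` is nonnegative, so the enorm of its
integral is `J`; `∫⁻ ‖G‖ₑ² ofReal w⁻¹ = J`. So `J² ≤ C² (∫⁻ ‖F‖² w) J`, hence `J ≤ C² ∫⁻ ‖F‖² w` (`J` finite); `R = 0, 1, 2, … → ∞`: monotone convergence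
(`lintegral_iUnion_of_directed` / `setLIntegral_iUnion_of_directed` or `lintegral_iSup`). -/

open Real

namespace Pool.Agent.Lib.MP_f0c028_an.GW

open MeasureTheory Set Filter Topology
open scoped ENNReal InnerProductSpace

private theorem GW13b_half_sq (a : ℝ≥0∞) : (a ^ (1 / 2 : ℝ)) ^ 2 = a := by
  rw [← ENNReal.rpow_natCast, ← ENNReal.rpow_mul]
  norm_num

theorem bilin {m : ℕ} (hm : 1 ≤ m) {w : ℂ → ℝ} {n K : ℝ} (h : Bw w n) (hK : HA w K)
    (F : SchwartzMap ℂ ℂ) {G : ℂ → ℂ} {M : ℝ} (hG : Bf G M) :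
    ‖∫ z, gg F m z * starRingEnd ℂ (G z)‖ₑ ^ 2 ≤ ENNReal.ofReal ((4848000 * m * (K * √K)) ^ 2) *
      ((∫⁻ z, ‖F z‖ₑ ^ 2 * ENNReal.ofReal (w z)) *
        ∫⁻ z, ‖G z‖ₑ ^ 2 * ENNReal.ofReal (w z)⁻¹) := by
  obtain ⟨M', hF⟩ := bf_schwartz F
  have hK1 : 1 ≤ K := one_le_HA h hK
  have hK0 : 0 ≤ K := by linarith
  have h1 := rep_main F hG m
  have h2 : ∫⁻ t in Ioi (0 : ℝ), ∫⁻ x, ∫⁻ y,
      ‖mk m t (x - y)‖ₑ * (‖dd t F y‖ₑ * ‖dd t G x‖ₑ) ≤
      ∫⁻ t in Ioi (0 : ℝ), ENNReal.ofReal (120 * m * √K) *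
        (SQ w F t ^ (1 / 2 : ℝ) * SQ (fun z => (w z)⁻¹) G t ^ (1 / 2 : ℝ)) := by
    refine setLIntegral_mono' measurableSet_Ioi fun t ht => ?_
    exact scale_bound hm h hK hF hG ht
  rw [lintegral_const_mul' _ _ ENNReal.ofReal_ne_top] at h2
  have hm1 : Measurable fun t => SQ w F t ^ (1 / 2 : ℝ) := (SQ_meas h hF).pow_const _
  have hm2 : Measurable fun t => SQ (fun z => (w z)⁻¹) G t ^ (1 / 2 : ℝ) :=
    (SQ_meas h.inv hG).pow_const _
  have h3 := cs_real_line (μ := volume.restrict (Ioi (0 : ℝ))) hm1.aemeasurable hm2.aemeasurable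
  simp only [GW13b_half_sq] at h3
  have h4 := SQ_main h hK hF
  have h5 := SQ_main h.inv (HA_inv hK) hG
  have hE : (100 * ENNReal.ofReal (120 * m * √K)) ^ 2 *
      (ENNReal.ofReal (404 * K) * ENNReal.ofReal (404 * K)) =
      ENNReal.ofReal ((4848000 * m * (K * √K)) ^ 2) := by
    have e1 : (100 : ℝ≥0∞) = ENNReal.ofReal 100 := by simp
    rw [e1, ← ENNReal.ofReal_mul (by norm_num), ← ENNReal.ofReal_pow (by positivity),
      ← ENNReal.ofReal_mul (by positivity), ← ENNReal.ofReal_mul (by positivity)]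
    congr 1
    ring
  calc ‖∫ z, gg F m z * starRingEnd ℂ (G z)‖ₑ ^ 2
      ≤ (100 * (ENNReal.ofReal (120 * m * √K) * ∫⁻ t in Ioi (0 : ℝ),
          (SQ w F t ^ (1 / 2 : ℝ) * SQ (fun z => (w z)⁻¹) G t ^ (1 / 2 : ℝ)))) ^ 2 := by
        gcongr
        exact h1.trans (by gcongr)
    _ = (100 * ENNReal.ofReal (120 * m * √K)) ^ 2 * (∫⁻ t in Ioi (0 : ℝ),
          (SQ w F t ^ (1 / 2 : ℝ) * SQ (fun z => (w z)⁻¹) G t ^ (1 / 2 : ℝ))) ^ 2 := by
        ring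
    _ ≤ (100 * ENNReal.ofReal (120 * m * √K)) ^ 2 *
          ((∫⁻ t in Ioi (0 : ℝ), SQ w F t) * ∫⁻ t in Ioi (0 : ℝ), SQ (fun z => (w z)⁻¹) G t) := by
        gcongr
    _ ≤ (100 * ENNReal.ofReal (120 * m * √K)) ^ 2 *
          ((ENNReal.ofReal (404 * K) * ∫⁻ z, ‖F z‖ₑ ^ 2 * ENNReal.ofReal (w z)) *
            (ENNReal.ofReal (404 * K) * ∫⁻ z, ‖G z‖ₑ ^ 2 * ENNReal.ofReal (w z)⁻¹)) := by
        gcongr
    _ = (100 * ENNReal.ofReal (120 * m * √K)) ^ 2 *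
          (ENNReal.ofReal (404 * K) * ENNReal.ofReal (404 * K)) *
          ((∫⁻ z, ‖F z‖ₑ ^ 2 * ENNReal.ofReal (w z)) *
            ∫⁻ z, ‖G z‖ₑ ^ 2 * ENNReal.ofReal (w z)⁻¹) := by
        ring
    _ = _ := by rw [hE]

private theorem GW13b_ball {m : ℕ} (hm : 1 ≤ m) {w : ℂ → ℝ} {n K : ℝ} (h : Bw w n) (hK : HA w K)
    (F : SchwartzMap ℂ ℂ) (R : ℝ) :
    ∫⁻ z in Metric.ball (0 : ℂ) R, ‖gg F m z‖ₑ ^ 2 * ENNReal.ofReal (w z) ≤
      ENNReal.ofReal ((4848000 * m * (K * √K)) ^ 2) *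
        ∫⁻ z, ‖F z‖ₑ ^ 2 * ENNReal.ofReal (w z) := by
  have hgc : Continuous (gg F m) := (gg_contDiff F m).continuous
  have hgm : Measurable (gg F m) := hgc.measurable
  set N : ℝ := ∫ ξ, ‖hh F m ξ‖ with hN
  have hN0 : 0 ≤ N := integral_nonneg fun _ => norm_nonneg _
  have hgb : ∀ z, ‖gg F m z‖ ≤ N := fun z => UU_bound (hh_int F m) z
  set B : Set ℂ := Metric.ball (0 : ℂ) R with hB
  have hBm : MeasurableSet B := Metric.isOpen_ball.measurableSet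
  have hBf : volume B ≠ ⊤ := measure_ball_lt_top.ne
  set g : ℂ → ℂ := fun z => gg F m z * (w z : ℂ) with hg
  have hgwm : Measurable g := hgm.mul (Complex.measurable_ofReal.comp h.meas)
  have hgn : ∀ z, ‖g z‖ ≤ N * n := by
    intro z
    rw [hg]
    simp only [norm_mul, Complex.norm_real, Real.norm_eq_abs, abs_of_pos (h.wpos z)]
    exact mul_le_mul (hgb z) (h.le z) (h.wpos z).le hN0
  have hgi : IntegrableOn g B := by
    refine Measure.integrableOn_of_bounded hBf hgwm.aestronglyMeasurable (M := N * n) ?_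
    exact Eventually.of_forall hgn
  have hG : Bf (B.indicator g) (N * n) := by
    refine ⟨hgwm.indicator hBm, fun z => ?_, (integrable_indicator_iff hBm).2 hgi⟩
    by_cases hz : z ∈ B
    · rw [indicator_of_mem hz]
      exact hgn z
    · rw [indicator_of_notMem hz, norm_zero]
      exact mul_nonneg hN0 h.pos.le
  set J : ℝ≥0∞ := ∫⁻ z in B, ‖gg F m z‖ₑ ^ 2 * ENNReal.ofReal (w z) with hJ
  have hpt : ∀ z, ‖gg F m z‖ₑ ^ 2 * ENNReal.ofReal (w z) =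
      ENNReal.ofReal (‖gg F m z‖ ^ 2 * w z) := by
    intro z
    rw [ENNReal.ofReal_mul (by positivity), ENNReal.ofReal_pow (norm_nonneg _), ofReal_norm]
  have hri : IntegrableOn (fun z => ‖gg F m z‖ ^ 2 * w z) B := by
    refine Measure.integrableOn_of_bounded hBf
      ((hgm.norm.pow_const 2).mul h.meas).aestronglyMeasurable (M := N ^ 2 * n) ?_
    refine Eventually.of_forall fun z => ?_
    rw [Real.norm_eq_abs, abs_of_nonneg (mul_nonneg (by positivity) (h.wpos z).le)]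
    exact mul_le_mul (pow_le_pow_left₀ (norm_nonneg _) (hgb z) 2) (h.le z) (h.wpos z).le
      (by positivity)
  have hJ1 : J = ENNReal.ofReal (∫ z in B, ‖gg F m z‖ ^ 2 * w z) := by
    rw [ofReal_integral_eq_lintegral_ofReal hri
      (Eventually.of_forall fun z => mul_nonneg (by positivity) (h.wpos z).le)]
    exact lintegral_congr fun z => hpt z
  have hJtop : J ≠ ⊤ := by
    rw [hJ1]
    exact ENNReal.ofReal_ne_top
  have hI : ∫ z, gg F m z * starRingEnd ℂ (B.indicator g z) =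
      ((∫ z in B, ‖gg F m z‖ ^ 2 * w z : ℝ) : ℂ) := by
    rw [← integral_complex_ofReal, ← integral_indicator hBm]
    refine integral_congr_ae (Eventually.of_forall fun z => ?_)
    by_cases hz : z ∈ B
    · simp only [indicator_of_mem hz, hg, map_mul, Complex.conj_ofReal]
      rw [← mul_assoc, Complex.mul_conj, Complex.normSq_eq_norm_sq]
      push_cast
      rfl
    · simp only [indicator_of_notMem hz, map_zero, mul_zero]
  have hnn : 0 ≤ ∫ z in B, ‖gg F m z‖ ^ 2 * w z :=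
    integral_nonneg fun z => mul_nonneg (by positivity) (h.wpos z).le
  have hIe : ‖∫ z, gg F m z * starRingEnd ℂ (B.indicator g z)‖ₑ = J := by
    rw [hI, hJ1, ← ofReal_norm, Complex.norm_real, Real.norm_eq_abs, abs_of_nonneg hnn]
  have hGJ : ∫⁻ z, ‖B.indicator g z‖ₑ ^ 2 * ENNReal.ofReal (w z)⁻¹ = J := by
    rw [hJ, ← lintegral_indicator hBm]
    refine lintegral_congr fun z => ?_
    by_cases hz : z ∈ B
    · simp only [indicator_of_mem hz]
      have hw := h.wpos z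
      rw [hpt z, ← ofReal_norm, ← ENNReal.ofReal_pow (norm_nonneg _),
        ← ENNReal.ofReal_mul (by positivity)]
      congr 1
      rw [hg]
      simp only [norm_mul, Complex.norm_real, Real.norm_eq_abs, abs_of_pos hw]
      field_simp
    · simp only [indicator_of_notMem hz, enorm_zero]
      simp
  have hb := bilin hm h hK F hG
  rw [hIe, hGJ] at hb
  by_cases hJ0 : J = 0
  · rw [hJ0]
    exact bot_le
  have hb' : J * J ≤ (ENNReal.ofReal ((4848000 * m * (K * √K)) ^ 2) *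
      ∫⁻ z, ‖F z‖ₑ ^ 2 * ENNReal.ofReal (w z)) * J := by
    rw [← sq, mul_assoc]
    exact hb
  exact (ENNReal.mul_le_mul_iff_left hJ0 hJtop).1 hb'

/-- The theorem for bounded weights. -/
theorem bounded_main {m : ℕ} (hm : 1 ≤ m) {w : ℂ → ℝ} {n K : ℝ} (h : Bw w n) (hK : HA w K)
    (F : SchwartzMap ℂ ℂ) :
    ∫⁻ z, ‖gg F m z‖ₑ ^ 2 * ENNReal.ofReal (w z) ≤
      ENNReal.ofReal ((4848000 * m * (K * √K)) ^ 2) *
        ∫⁻ z, ‖F z‖ₑ ^ 2 * ENNReal.ofReal (w z) := by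
  rw [← setLIntegral_univ, ← Metric.iUnion_ball_nat (0 : ℂ),
    setLIntegral_iUnion_of_directed]
  · exact iSup_le fun R => GW13b_ball hm h hK F R
  · intro a b
    refine ⟨max a b, ?_, ?_⟩
    · exact Metric.ball_subset_ball (by exact_mod_cast le_max_left a b)
    · exact Metric.ball_subset_ball (by exact_mod_cast le_max_right a b)

end Pool.Agent.Lib.MP_f0c028_an.GW
end

section

set_option autoImplicit false

/-! # TASK K1: kernel comparisons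

* `dk_le`: with `u = ‖z‖/√t`: `‖dk t z‖ = (‖z‖/(4t)) gk t z` and `gk t z = 2 e^{-u²/8} gk (2t) z`, so the claim is `(u/2) e^{-u²/8} ≤ 1`
  (`e^{u²/8} ≥ 1 + u²/8 ≥ u/2`).
* `dd_le`: `∫ dk = 0` (`integral_dk`), so `dd t F x = ∫ dk t (x-y) (hc t F y - hc (3t) F x)`, then `dk_le`.
* `Ji m i := Nat.clog 3 (4^i m² + 1)`: with `n = 4^i m²`, `J = Ji m i ≥ 1`: `n + 1 ≤ 3^J` (`Nat.le_pow_clog`) and `3^(J-1) ≤ n` (`Nat.pow_pred_clog_lt_self`-like), so
  `2 n t ≤ 6 t (3^J - 1)` (`6·3^J - 6 ≥ 4·3^J` as `3^J ≥ 3`) and `6 t (3^J - 1) ≤ 18 n t`; `gk s z ≤ (s'/s) gk s' z` for `0 < s ≤ s'` (definition of `gk`), so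
  `gk (2 (4^i (m² t))) z ≤ 9 gk (6 t (3^J - 1)) z`.
* `mk_tri`: `mk_gauss` and the comparison.
* `Ji_le`: `(J-1) log 3 ≤ log n = i log 4 + 2 log m`, `log 4 ≤ 1.4`, `log 3 ≥ 1`: `J + 1 ≤ 2 + 1.4 i + 2 log m ≤ 2 (1+i)(1 + log m)`. -/

open MeasureTheory Real

namespace Pool.Agent.Lib.MP_f0c028_an.SQ

open Pool.Agent.Lib.MP_f0c028_an.GW

private theorem K1_dk_norm {t : ℝ} (ht0 : 0 < t) (z : ℂ) : ‖dk t z‖ = ‖z‖ / (4 * t) * gk t z := by
  unfold dk
  have h4 : (0 : ℝ) < 4 * t := by positivity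
  rw [norm_mul, norm_neg, norm_div, Complex.norm_of_nonneg h4.le,
    Complex.norm_of_nonneg (gk_pos ht0 z).le]

theorem dk_le {t : ℝ} (ht0 : 0 < t) (z : ℂ) : ‖dk t z‖ ≤ (√t)⁻¹ * gk (2 * t) z := by
  rw [K1_dk_norm ht0]
  have hs : 0 < √t := Real.sqrt_pos.2 ht0
  have hst : √t * √t = t := Real.mul_self_sqrt ht0.le
  have hg2 := gk_pos (show 0 < 2 * t by positivity) z
  -- `gk t z = 2 e^{-q} gk (2t) z`
  have h1 : gk t z = 2 * Real.exp (-(‖z‖ ^ 2 / (8 * t))) * gk (2 * t) z := by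
    unfold gk
    have e1 : -(‖z‖ ^ 2 / (4 * t)) = -(‖z‖ ^ 2 / (8 * t)) + -(‖z‖ ^ 2 / (4 * (2 * t))) := by
      field_simp
      ring
    have e2 : (4 * π * t)⁻¹ = 2 * (4 * π * (2 * t))⁻¹ := by
      have := Real.pi_pos
      field_simp
    rw [e1, Real.exp_add, e2]
    ring
  set u : ℝ := ‖z‖ / √t with hu
  have hz : ‖z‖ = u * √t := by
    rw [hu]
    field_simp
  have hu0 : 0 ≤ u := by
    rw [hu]
    positivity
  have hq : ‖z‖ ^ 2 / (8 * t) = u ^ 2 / 8 := by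
    rw [hz, mul_pow, Real.sq_sqrt ht0.le]
    field_simp
  have h2 : u / 2 * Real.exp (-(u ^ 2 / 8)) ≤ 1 := by
    rw [Real.exp_neg, ← div_eq_mul_inv, div_le_one (Real.exp_pos _)]
    have := Real.add_one_le_exp (u ^ 2 / 8)
    nlinarith [sq_nonneg (u - 2)]
  have h3 : ‖z‖ / (4 * t) = (√t)⁻¹ * (u / 4) := by
    rw [hz]
    nth_rewrite 2 [← hst]
    field_simp
  rw [h1, h3, hq]
  have e : (√t)⁻¹ * (u / 4) * (2 * Real.exp (-(u ^ 2 / 8)) * gk (2 * t) z) =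
      (u / 2 * Real.exp (-(u ^ 2 / 8))) * ((√t)⁻¹ * gk (2 * t) z) := by
    ring
  rw [e]
  have h4 : 0 ≤ (√t)⁻¹ * gk (2 * t) z := by positivity
  exact (mul_le_mul_of_nonneg_right h2 h4).trans (le_of_eq (one_mul _))

theorem dd_le {F : ℂ → ℂ} {C : ℝ} (hF : Bf F C) {t : ℝ} (ht0 : 0 < t) (x : ℂ) :
    ‖GW.dd t F x‖ ≤ (√t)⁻¹ * DD t F x := by
  set c : ℂ := hc (3 * t) F x with hc0
  have hm : Measurable (hc t F) := (hc_meas hF.meas).comp (measurable_const.prodMk measurable_id)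
  have hb : ∀ y, ‖hc t F y‖ ≤ C := fun y => hc_le hF ht0 y
  have hdi : Integrable fun y => dk t (x - y) := (dk_int ht0).comp_sub_left x
  have i1 : Integrable fun y => dk t (x - y) * hc t F y :=
    hdi.mul_bdd (c := C) hm.aestronglyMeasurable (ae_of_all _ hb)
  have i2 : Integrable fun y => dk t (x - y) * c := hdi.mul_const c
  have h0 : ∫ y, dk t (x - y) = 0 := by
    rw [integral_sub_left_eq_self (dk t) volume x, integral_dk]
  have e1 : GW.dd t F x = ∫ y, dk t (x - y) * (hc t F y - c) := by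
    unfold GW.dd
    have e2 : ∀ y, dk t (x - y) * (hc t F y - c) = dk t (x - y) * hc t F y - dk t (x - y) * c :=
      fun y => by ring
    simp_rw [e2]
    rw [integral_sub i1 i2, integral_mul_const, h0, zero_mul, sub_zero]
  have hm2 : Measurable fun y => ‖hc t F y - c‖ := (hm.sub measurable_const).norm
  have hb2 : ∀ y, |‖hc t F y - c‖| ≤ C + ‖c‖ := by
    intro y
    rw [abs_of_nonneg (norm_nonneg _)]
    exact (norm_sub_le _ _).trans (add_le_add (hb y) le_rfl)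
  have i3 : Integrable fun y => gk (2 * t) (x - y) * ‖hc t F y - c‖ :=
    gk_mul_int (show 0 < 2 * t by positivity) hm2 hb2 x
  rw [e1]
  unfold DD
  rw [← integral_const_mul]
  refine norm_integral_le_of_norm_le (i3.const_mul _) (ae_of_all _ fun y => ?_)
  rw [norm_mul, ← mul_assoc]
  exact mul_le_mul_of_nonneg_right (dk_le ht0 (x - y)) (norm_nonneg _)

/-- The number of triadic scales between `t` and `4^i m² t`. -/
def Ji (m i : ℕ) : ℕ := Nat.clog 3 (4 ^ i * m ^ 2 + 1)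

private theorem K1_n {m : ℕ} (hm : 1 ≤ m) (i : ℕ) : 1 ≤ 4 ^ i * m ^ 2 :=
  Nat.one_le_iff_ne_zero.2 (by positivity)

theorem Ji_pos {m : ℕ} (hm : 1 ≤ m) (i : ℕ) : 1 ≤ Ji m i := by
  unfold Ji
  exact Nat.clog_pos (by norm_num) (by have := K1_n hm i; omega)

private theorem K1_pow {m : ℕ} (hm : 1 ≤ m) (i : ℕ) : 3 ^ (Ji m i - 1) ≤ 4 ^ i * m ^ 2 := by
  have h1 := Nat.pow_pred_clog_lt_self (b := 3) (by norm_num)
    (x := 4 ^ i * m ^ 2 + 1) (by have := K1_n hm i; omega)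
  have h2 : (Nat.clog 3 (4 ^ i * m ^ 2 + 1)).pred = Ji m i - 1 := by
    unfold Ji
    rfl
  rw [h2] at h1
  omega

private theorem K1_pow' (m i : ℕ) : 4 ^ i * m ^ 2 + 1 ≤ 3 ^ Ji m i :=
  Nat.le_pow_clog (by norm_num) _

theorem Ji_le {m : ℕ} (hm : 1 ≤ m) (i : ℕ) :
    ((Ji m i : ℝ) + 1) ≤ 2 * (1 + i) * (1 + Real.log m) := by
  have hJ := Ji_pos hm i
  have h1 := K1_pow hm i
  have hm0 : (0 : ℝ) < m := by exact_mod_cast hm
  have h2 : (3 : ℝ) ^ (Ji m i - 1) ≤ 4 ^ i * (m : ℝ) ^ 2 := by exact_mod_cast h1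
  have h3 := Real.log_le_log (by positivity) h2
  rw [Real.log_pow, Real.log_mul (by positivity) (by positivity), Real.log_pow, Real.log_pow] at h3
  have h4 : ((Ji m i - 1 : ℕ) : ℝ) = (Ji m i : ℝ) - 1 := by
    rw [Nat.cast_sub hJ]
    norm_num
  rw [h4] at h3
  have hl3 : 1 ≤ Real.log 3 := by
    rw [Real.le_log_iff_exp_le (by norm_num)]
    have := Real.exp_one_lt_d9
    linarith
  have hl4 : Real.log 4 ≤ 2 := by
    have e : (4 : ℝ) = 2 ^ 2 := by norm_num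
    rw [e, Real.log_pow]
    have := Real.log_two_lt_d9
    norm_num
    linarith
  have hlm : 0 ≤ Real.log m := Real.log_nonneg (by exact_mod_cast hm)
  have hi : (0 : ℝ) ≤ i := Nat.cast_nonneg i
  have hJ1 : (0 : ℝ) ≤ (Ji m i : ℝ) - 1 := by
    have : (1 : ℝ) ≤ (Ji m i : ℝ) := by exact_mod_cast hJ
    linarith
  have h5 : (Ji m i : ℝ) - 1 ≤ ((Ji m i : ℝ) - 1) * Real.log 3 := by nlinarith
  have h6 : (i : ℝ) * Real.log 4 ≤ i * 2 := mul_le_mul_of_nonneg_left hl4 hi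
  have h7 : 0 ≤ (i : ℝ) * Real.log m := mul_nonneg hi hlm
  push_cast at h3
  nlinarith

private theorem K1_mono {s s' : ℝ} (hs : 0 < s) (h : s ≤ s') (z : ℂ) : gk s z ≤ s' / s * gk s' z := by
  have hs' : 0 < s' := hs.trans_le h
  unfold gk
  have h1 : Real.exp (-(‖z‖ ^ 2 / (4 * s))) ≤ Real.exp (-(‖z‖ ^ 2 / (4 * s'))) := by
    apply Real.exp_le_exp.mpr
    apply neg_le_neg
    apply div_le_div_of_nonneg_left (by positivity) (by positivity)
    linarith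
  have hpi := Real.pi_pos
  have e : s' / s * ((4 * π * s')⁻¹ * Real.exp (-(‖z‖ ^ 2 / (4 * s')))) =
      (4 * π * s)⁻¹ * Real.exp (-(‖z‖ ^ 2 / (4 * s'))) := by
    field_simp
  rw [e]
  exact mul_le_mul_of_nonneg_left h1 (by positivity)

theorem gk_cmp {m : ℕ} (hm : 1 ≤ m) (i : ℕ) {t : ℝ} (ht0 : 0 < t) (z : ℂ) :
    gk (2 * (4 ^ i * (m ^ 2 * t))) z ≤ 9 * gk (6 * t * (3 ^ Ji m i - 1)) z := by
  have hJ := Ji_pos hm i
  have h1 := K1_pow hm i
  have h2 := K1_pow' m i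
  have h1' : (3 : ℝ) ^ (Ji m i - 1) ≤ 4 ^ i * (m : ℝ) ^ 2 := by exact_mod_cast h1
  have h2' : 4 ^ i * (m : ℝ) ^ 2 + 1 ≤ 3 ^ Ji m i := by exact_mod_cast h2
  have h3 : (3 : ℝ) ^ Ji m i = 3 * 3 ^ (Ji m i - 1) := by
    rw [← pow_succ']
    congr 1
    omega
  have hm0 : (0 : ℝ) < m := by exact_mod_cast hm
  set n : ℝ := 4 ^ i * (m : ℝ) ^ 2 with hn
  have hn0 : 0 < n := by
    rw [hn]
    positivity
  have e1 : 2 * (4 ^ i * ((m : ℝ) ^ 2 * t)) = 2 * n * t := by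
    rw [hn]
    ring
  rw [e1]
  have hs : 0 < 2 * n * t := by positivity
  have hnt : 0 < n * t := by positivity
  have hle : 2 * n * t ≤ 6 * t * (3 ^ Ji m i - 1) := by
    have := mul_le_mul_of_nonneg_left h2' ht0.le
    nlinarith
  have hle2 : 6 * t * (3 ^ Ji m i - 1) ≤ 9 * (2 * n * t) := by
    rw [h3]
    have := mul_le_mul_of_nonneg_left h1' ht0.le
    nlinarith
  refine (K1_mono hs hle z).trans ?_
  refine mul_le_mul_of_nonneg_right ?_ (gk_pos (hs.trans_le hle) z).le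
  rw [div_le_iff₀ hs]
  exact hle2

theorem mk_tri {m : ℕ} (hm : 1 ≤ m) {t : ℝ} (ht0 : 0 < t) (z : ℂ) :
    ‖mk m t z‖ₑ ≤ ENNReal.ofReal (810 * m) *
      ∑' i : ℕ, ENNReal.ofReal ((1 / 4) ^ i * gk (6 * t * (3 ^ Ji m i - 1)) z) := by
  refine (mk_gauss hm ht0 z).trans ?_
  have h1 : ∑' i : ℕ, ENNReal.ofReal ((1 / 4) ^ i * gk (2 * (4 ^ i * (m ^ 2 * t))) z) ≤
      ENNReal.ofReal 9 * ∑' i : ℕ, ENNReal.ofReal ((1 / 4) ^ i * gk (6 * t * (3 ^ Ji m i - 1)) z) := by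
    rw [← ENNReal.tsum_mul_left]
    refine ENNReal.tsum_le_tsum fun i => ?_
    rw [← ENNReal.ofReal_mul (by norm_num)]
    refine ENNReal.ofReal_le_ofReal ?_
    have h2 := mul_le_mul_of_nonneg_left (gk_cmp hm i ht0 z) (show (0 : ℝ) ≤ (1 / 4) ^ i by positivity)
    linarith
  refine (mul_le_mul_right h1 _).trans (le_of_eq ?_)
  rw [← mul_assoc, ← ENNReal.ofReal_mul (by positivity)]
  congr 2
  ring

end Pool.Agent.Lib.MP_f0c028_an.SQ
end

section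

set_option autoImplicit false

/-! # TASK F1: the bilinear form of `B^m`

`rep_main`: `‖∫ gg F m conj G‖ₑ ≤ 100 ∫⁻ t, ∫⁻∫⁻ ‖mk m t (x-y)‖ₑ ‖dd t F y‖ₑ ‖dd t G x‖ₑ`. By `dd_le` (twice, `(√t)⁻¹ (√t)⁻¹ = t⁻¹`) and `mk_tri` the integrand at `t` is at most
`ofReal (810 m) ∑' i, ofReal ((1/4)^i) * (ofReal t⁻¹ * BJ (Ji m i) t F G)` (`lintegral_tsum`, `lintegral_const_mul`; measurability: `gk_meas`, `DD_meas`). Integrate in `t`
(`lintegral_tsum`, `BJ_meas`), `int_scales` (`Ji_pos`): the total is at most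
`100 · 810 m · ∑' i (1/4)^i · 2 · 164000 K √(Ji m i + 1) · …`, and `√(Ji m i + 1) ≤ √2 (1+i) √(1 + log m)` (`Ji_le`, `√(1+i) ≤ 1+i`),
`∑ (1/4)^i (1+i) = 16/9 ≤ 2`: `100 · 810 · 2 · 164000 · √2 · 2 ≤ 10^11`. -/

open MeasureTheory Real

namespace Pool.Agent.Lib.MP_f0c028_an.SQ

open Pool.Agent.Lib.MP_f0c028_an.GW

private theorem F1_lint {c : ENNReal} {d : ℕ → ENNReal} {A : ℕ → ℂ × ℂ → ENNReal}
    (hA : ∀ i, Measurable (A i)) :
    ∫⁻ x, ∫⁻ y, ∑' i, c * (d i * A i (x, y)) = ∑' i, c * (d i * ∫⁻ x, ∫⁻ y, A i (x, y)) := by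
  have hm1 : ∀ i (x : ℂ), Measurable fun y => A i (x, y) := fun i x =>
    (hA i).comp measurable_prodMk_left
  have hm2 : ∀ i, Measurable fun x => ∫⁻ y, A i (x, y) := fun i => (hA i).lintegral_prod_right'
  have hin : ∀ x, ∫⁻ y, ∑' i, c * (d i * A i (x, y)) = ∑' i, c * (d i * ∫⁻ y, A i (x, y)) := by
    intro x
    rw [lintegral_tsum fun i => (((hm1 i x).const_mul _).const_mul _).aemeasurable]
    refine tsum_congr fun i => ?_
    rw [lintegral_const_mul _ ((hm1 i x).const_mul _), lintegral_const_mul _ (hm1 i x)]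
  rw [lintegral_congr hin, lintegral_tsum fun i => (((hm2 i).const_mul _).const_mul _).aemeasurable]
  refine tsum_congr fun i => ?_
  rw [lintegral_const_mul _ ((hm2 i).const_mul _), lintegral_const_mul _ (hm2 i)]

private theorem F1_half : ∑' i : ℕ, ENNReal.ofReal ((1 / 2 : ℝ) ^ i) = ENNReal.ofReal 2 := by
  have hs : Summable fun i : ℕ => (1 / 2 : ℝ) ^ i :=
    summable_geometric_of_lt_one (by norm_num) (by norm_num)
  rw [← ENNReal.ofReal_tsum_of_nonneg (fun i => by positivity) hs,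
    tsum_geometric_of_lt_one (by norm_num) (by norm_num)]
  norm_num

private theorem F1_enorm {F : ℂ → ℂ} {C : ℝ} (hF : Bf F C) {t : ℝ} (ht0 : 0 < t) (x : ℂ) :
    ‖GW.dd t F x‖ₑ ≤ ENNReal.ofReal (√t)⁻¹ * ENNReal.ofReal (DD t F x) := by
  rw [← ENNReal.ofReal_mul (by positivity), ← ofReal_norm]
  exact ENNReal.ofReal_le_ofReal (dd_le hF ht0 x)

private theorem F1_scale {m : ℕ} (hm : 1 ≤ m) {F G : ℂ → ℂ} {C C' : ℝ} (hF : Bf F C)
    (hG : Bf G C') {t : ℝ} (ht0 : 0 < t) :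
    ∫⁻ x, ∫⁻ y, ‖mk m t (x - y)‖ₑ * (‖GW.dd t F y‖ₑ * ‖GW.dd t G x‖ₑ) ≤
      ∑' i : ℕ, ENNReal.ofReal (810 * m) * (ENNReal.ofReal ((1 / 4 : ℝ) ^ i) *
        (ENNReal.ofReal t⁻¹ * BJ (Ji m i) t F G)) := by
  have hm0 : (0 : ℝ) < m := by exact_mod_cast hm
  have hty : Measurable fun y : ℂ => ((t, y) : ℝ × ℂ) := by fun_prop
  have ha : Measurable fun y => ENNReal.ofReal (DD t F y) :=
    ((DD_meas hF.meas).comp hty).ennreal_ofReal
  have hb : Measurable fun y => ENNReal.ofReal (DD t G y) :=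
    ((DD_meas hG.meas).comp hty).ennreal_ofReal
  have hgm : ∀ i, Measurable fun p : ℂ × ℂ =>
      ENNReal.ofReal (gk (6 * t * (3 ^ Ji m i - 1)) (p.1 - p.2)) := by
    intro i
    have : Continuous fun p : ℂ × ℂ => gk (6 * t * (3 ^ Ji m i - 1)) (p.1 - p.2) :=
      (gk_cont _).comp (continuous_fst.sub continuous_snd)
    exact this.measurable.ennreal_ofReal
  have hpm : ∀ i, Measurable fun p : ℂ × ℂ =>
      ENNReal.ofReal (gk (6 * t * (3 ^ Ji m i - 1)) (p.1 - p.2)) *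
        (ENNReal.ofReal (DD t F p.2) * ENNReal.ofReal (DD t G p.1)) := fun i =>
    (hgm i).mul ((ha.comp measurable_snd).mul (hb.comp measurable_fst))
  have hpt : ∀ x y, ‖mk m t (x - y)‖ₑ * (‖GW.dd t F y‖ₑ * ‖GW.dd t G x‖ₑ) ≤
      ∑' i : ℕ, ENNReal.ofReal (810 * m) *
        ((ENNReal.ofReal ((1 / 4 : ℝ) ^ i) * ENNReal.ofReal t⁻¹) *
        (ENNReal.ofReal (gk (6 * t * (3 ^ Ji m i - 1)) (x - y)) *
          (ENNReal.ofReal (DD t F y) * ENNReal.ofReal (DD t G x)))) := by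
    intro x y
    have h1 := mk_tri hm ht0 (x - y)
    have h2 := F1_enorm hF ht0 y
    have h3 := F1_enorm hG ht0 x
    have ht : ENNReal.ofReal (√t)⁻¹ * ENNReal.ofReal (√t)⁻¹ = ENNReal.ofReal t⁻¹ := by
      rw [← ENNReal.ofReal_mul (by positivity), ← mul_inv, Real.mul_self_sqrt ht0.le]
    calc ‖mk m t (x - y)‖ₑ * (‖GW.dd t F y‖ₑ * ‖GW.dd t G x‖ₑ)
        ≤ (ENNReal.ofReal (810 * m) *
          ∑' i : ℕ, ENNReal.ofReal ((1 / 4) ^ i * gk (6 * t * (3 ^ Ji m i - 1)) (x - y))) *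
            ((ENNReal.ofReal (√t)⁻¹ * ENNReal.ofReal (DD t F y)) *
              (ENNReal.ofReal (√t)⁻¹ * ENNReal.ofReal (DD t G x))) := by gcongr
      _ = (ENNReal.ofReal (810 * m) *
          ∑' i : ℕ, ENNReal.ofReal ((1 / 4) ^ i * gk (6 * t * (3 ^ Ji m i - 1)) (x - y))) *
            (ENNReal.ofReal t⁻¹ * (ENNReal.ofReal (DD t F y) * ENNReal.ofReal (DD t G x))) := by
          rw [← ht]
          ring
      _ = _ := by
          rw [ENNReal.tsum_mul_left, mul_assoc, ← ENNReal.tsum_mul_right]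
          congr 1
          refine tsum_congr fun i => ?_
          rw [ENNReal.ofReal_mul (by positivity)]
          ring
  calc ∫⁻ x, ∫⁻ y, ‖mk m t (x - y)‖ₑ * (‖GW.dd t F y‖ₑ * ‖GW.dd t G x‖ₑ)
      ≤ ∫⁻ x, ∫⁻ y, ∑' i : ℕ, ENNReal.ofReal (810 * m) *
        ((ENNReal.ofReal ((1 / 4 : ℝ) ^ i) * ENNReal.ofReal t⁻¹) *
        (ENNReal.ofReal (gk (6 * t * (3 ^ Ji m i - 1)) (x - y)) *
          (ENNReal.ofReal (DD t F y) * ENNReal.ofReal (DD t G x)))) :=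
        lintegral_mono fun x => lintegral_mono fun y => hpt x y
    _ = ∑' i : ℕ, ENNReal.ofReal (810 * m) *
        ((ENNReal.ofReal ((1 / 4 : ℝ) ^ i) * ENNReal.ofReal t⁻¹) *
        ∫⁻ x, ∫⁻ y, ENNReal.ofReal (gk (6 * t * (3 ^ Ji m i - 1)) (x - y)) *
          (ENNReal.ofReal (DD t F y) * ENNReal.ofReal (DD t G x))) :=
        F1_lint (c := ENNReal.ofReal (810 * m))
          (d := fun i => ENNReal.ofReal ((1 / 4 : ℝ) ^ i) * ENNReal.ofReal t⁻¹) hpm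
    _ = _ := by
        refine tsum_congr fun i => ?_
        rw [mul_assoc (ENNReal.ofReal ((1 / 4 : ℝ) ^ i))]
        rfl

private theorem F1_num {m : ℕ} (hm : 1 ≤ m) {K : ℝ} (hK0 : 0 ≤ K) (i : ℕ) :
    (1 / 4 : ℝ) ^ i * (2 * (164000 * K * √((Ji m i : ℝ) + 1))) ≤
      (1 / 2 : ℝ) ^ i * (464000 * K * √(1 + Real.log m)) := by
  have hl : 0 ≤ Real.log m := Real.log_natCast_nonneg m
  have hi : (1 : ℝ) + i ≤ 2 ^ i := by
    have : i + 1 ≤ 2 ^ i := Nat.lt_two_pow_self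
    have h2 : ((i + 1 : ℕ) : ℝ) ≤ ((2 ^ i : ℕ) : ℝ) := by exact_mod_cast this
    push_cast at h2
    linarith
  have h1 : √((Ji m i : ℝ) + 1) ≤ √2 * ((1 + i) * √(1 + Real.log m)) := by
    have e1 : √2 * ((1 + (i : ℝ)) * √(1 + Real.log m)) =
        √(2 * ((1 + (i : ℝ)) ^ 2 * (1 + Real.log m))) := by
      rw [Real.sqrt_mul (by norm_num), Real.sqrt_mul (by positivity),
        Real.sqrt_sq (by positivity)]
    rw [e1]
    refine Real.sqrt_le_sqrt ((Ji_le hm i).trans ?_)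
    have h3 : (1 : ℝ) + i ≤ (1 + (i : ℝ)) ^ 2 := by
      have : (0 : ℝ) ≤ i := Nat.cast_nonneg i
      nlinarith
    have h4 : (1 + (i : ℝ)) * (1 + Real.log m) ≤ (1 + (i : ℝ)) ^ 2 * (1 + Real.log m) :=
      mul_le_mul_of_nonneg_right h3 (by linarith)
    linarith
  have h2 : √2 ≤ (1.4143 : ℝ) := by
    rw [Real.sqrt_le_left (by norm_num)]
    norm_num
  have h3 : √((Ji m i : ℝ) + 1) ≤ 1.4143 * (2 ^ i * √(1 + Real.log m)) := by
    refine h1.trans ?_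
    gcongr
  have h4 : (1 / 4 : ℝ) ^ i * (2 : ℝ) ^ i = (1 / 2) ^ i := by
    rw [← mul_pow]
    norm_num
  calc (1 / 4 : ℝ) ^ i * (2 * (164000 * K * √((Ji m i : ℝ) + 1)))
      ≤ (1 / 4 : ℝ) ^ i * (2 * (164000 * K * (1.4143 * (2 ^ i * √(1 + Real.log m))))) := by
        gcongr
    _ = (1 / 4 : ℝ) ^ i * (2 : ℝ) ^ i * (463890.4 * K * √(1 + Real.log m)) := by ring
    _ = (1 / 2 : ℝ) ^ i * (463890.4 * K * √(1 + Real.log m)) := by rw [h4]
    _ ≤ _ := by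
        gcongr
        norm_num

theorem bilin_log {m : ℕ} (hm : 1 ≤ m) {w : ℂ → ℝ} {n K : ℝ} (h : Bw w n) (hK : HA w K)
    (F : SchwartzMap ℂ ℂ) {G : ℂ → ℂ} {M : ℝ} (hG : Bf G M) :
    ‖∫ z, gg F m z * starRingEnd ℂ (G z)‖ₑ ≤
      ENNReal.ofReal (10 ^ 11 * m * √(1 + Real.log m) * K) *
        ((∫⁻ z, ‖F z‖ₑ ^ 2 * ENNReal.ofReal (w z)) ^ (1 / 2 : ℝ) *
          (∫⁻ z, ‖G z‖ₑ ^ 2 * ENNReal.ofReal (w z)⁻¹) ^ (1 / 2 : ℝ)) := by
  obtain ⟨M', hF⟩ := bf_schwartz F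
  have hm0 : (0 : ℝ) < m := by exact_mod_cast hm
  have hK1 : 1 ≤ K := one_le_HA h hK
  have hK0 : 0 ≤ K := by linarith
  set R : ENNReal := (∫⁻ z, ‖F z‖ₑ ^ 2 * ENNReal.ofReal (w z)) ^ (1 / 2 : ℝ) *
          (∫⁻ z, ‖G z‖ₑ ^ 2 * ENNReal.ofReal (w z)⁻¹) ^ (1 / 2 : ℝ) with hR
  have hint : ∀ i : ℕ, ∫⁻ t in Set.Ioi (0 : ℝ), ENNReal.ofReal t⁻¹ * BJ (Ji m i) t F G ≤
      2 * (ENNReal.ofReal (164000 * K * √((Ji m i : ℝ) + 1)) * R) := fun i =>
    int_scales h hK hF hG (Ji_pos hm i)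
  have hmeas : ∀ i : ℕ, Measurable fun t : ℝ => ENNReal.ofReal t⁻¹ * BJ (Ji m i) t F G :=
    fun i => (measurable_inv.ennreal_ofReal).mul (BJ_meas (Ji m i) hF.meas hG.meas)
  have hterm : ∀ i : ℕ, ENNReal.ofReal (810 * m) * (ENNReal.ofReal ((1 / 4 : ℝ) ^ i) *
      (2 * (ENNReal.ofReal (164000 * K * √((Ji m i : ℝ) + 1)) * R))) ≤
      ENNReal.ofReal (810 * m) * (ENNReal.ofReal ((1 / 2 : ℝ) ^ i) *
        (ENNReal.ofReal (464000 * K * √(1 + Real.log m)) * R)) := by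
    intro i
    refine mul_le_mul_right ?_ _
    have e1 : ENNReal.ofReal ((1 / 4 : ℝ) ^ i) *
        (2 * (ENNReal.ofReal (164000 * K * √((Ji m i : ℝ) + 1)) * R)) =
        ENNReal.ofReal ((1 / 4 : ℝ) ^ i * (2 * (164000 * K * √((Ji m i : ℝ) + 1)))) * R := by
      rw [ENNReal.ofReal_mul (p := (1 / 4 : ℝ) ^ i) (by positivity),
        ENNReal.ofReal_mul (p := 2) (by norm_num)]
      have : ENNReal.ofReal 2 = 2 := by norm_num
      rw [this]
      ring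
    have e2 : ENNReal.ofReal ((1 / 2 : ℝ) ^ i) *
        (ENNReal.ofReal (464000 * K * √(1 + Real.log m)) * R) =
        ENNReal.ofReal ((1 / 2 : ℝ) ^ i * (464000 * K * √(1 + Real.log m))) * R := by
      rw [ENNReal.ofReal_mul (p := (1 / 2 : ℝ) ^ i) (by positivity)]
      exact (mul_assoc _ _ _).symm
    rw [e1, e2]
    exact mul_le_mul_left (ENNReal.ofReal_le_ofReal (F1_num hm hK0 i)) _
  calc ‖∫ z, gg F m z * starRingEnd ℂ (G z)‖ₑ
      ≤ 100 * ∫⁻ t in Set.Ioi (0 : ℝ), ∫⁻ x, ∫⁻ y,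
      ‖mk m t (x - y)‖ₑ * (‖GW.dd t F y‖ₑ * ‖GW.dd t G x‖ₑ) := rep_main F hG m
    _ ≤ 100 * ∫⁻ t in Set.Ioi (0 : ℝ), ∑' i : ℕ, ENNReal.ofReal (810 * m) *
        (ENNReal.ofReal ((1 / 4 : ℝ) ^ i) * (ENNReal.ofReal t⁻¹ * BJ (Ji m i) t F G)) := by
        refine mul_le_mul_right (setLIntegral_mono' measurableSet_Ioi fun t ht => ?_) _
        exact F1_scale hm hF hG ht
    _ = 100 * ∑' i : ℕ, ENNReal.ofReal (810 * m) * (ENNReal.ofReal ((1 / 4 : ℝ) ^ i) *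
        ∫⁻ t in Set.Ioi (0 : ℝ), ENNReal.ofReal t⁻¹ * BJ (Ji m i) t F G) := by
        congr 1
        rw [lintegral_tsum fun i => (((hmeas i).const_mul _).const_mul _).aemeasurable]
        refine tsum_congr fun i => ?_
        rw [lintegral_const_mul _ ((hmeas i).const_mul _), lintegral_const_mul _ (hmeas i)]
    _ ≤ 100 * ∑' i : ℕ, ENNReal.ofReal (810 * m) * (ENNReal.ofReal ((1 / 4 : ℝ) ^ i) *
        (2 * (ENNReal.ofReal (164000 * K * √((Ji m i : ℝ) + 1)) * R))) := by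
        refine mul_le_mul_right (ENNReal.tsum_le_tsum fun i => ?_) _
        exact mul_le_mul_right (mul_le_mul_right (hint i) _) _
    _ ≤ 100 * ∑' i : ℕ, ENNReal.ofReal (810 * m) * (ENNReal.ofReal ((1 / 2 : ℝ) ^ i) *
        (ENNReal.ofReal (464000 * K * √(1 + Real.log m)) * R)) :=
        mul_le_mul_right (ENNReal.tsum_le_tsum hterm) _
    _ = 100 * (ENNReal.ofReal (810 * m) * (ENNReal.ofReal 2 *
        (ENNReal.ofReal (464000 * K * √(1 + Real.log m)) * R))) := by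
        rw [ENNReal.tsum_mul_left, ENNReal.tsum_mul_right, F1_half]
    _ = ENNReal.ofReal (100 * (810 * m) * 2 * (464000 * K * √(1 + Real.log m))) * R := by
        have : (100 : ENNReal) = ENNReal.ofReal 100 := by norm_num
        rw [this, ← mul_assoc, ← mul_assoc, ← mul_assoc, ← ENNReal.ofReal_mul (by norm_num),
          ← ENNReal.ofReal_mul (by positivity), ← ENNReal.ofReal_mul (by positivity)]
    _ ≤ ENNReal.ofReal (10 ^ 11 * m * √(1 + Real.log m) * K) * R := by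
        refine mul_le_mul_left (ENNReal.ofReal_le_ofReal ?_) _
        have h0 : 0 ≤ m * √(1 + Real.log m) * K := by positivity
        nlinarith

end Pool.Agent.Lib.MP_f0c028_an.SQ
end

section

set_option autoImplicit false

/-! # F2: bounded weights (as GW13b) -/

open Real

namespace Pool.Agent.Lib.MP_f0c028_an.SQ

open Pool.Agent.Lib.MP_f0c028_an.GW
open MeasureTheory Set Filter Topology
open scoped ENNReal InnerProductSpace

private theorem F2_half_sq (a : ℝ≥0∞) : (a ^ (1 / 2 : ℝ)) ^ 2 = a := by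
  rw [← ENNReal.rpow_natCast, ← ENNReal.rpow_mul]
  norm_num

theorem bilin_log_sq {m : ℕ} (hm : 1 ≤ m) {w : ℂ → ℝ} {n K : ℝ} (h : Bw w n) (hK : HA w K)
    (F : SchwartzMap ℂ ℂ) {G : ℂ → ℂ} {M : ℝ} (hG : Bf G M) :
    ‖∫ z, gg F m z * starRingEnd ℂ (G z)‖ₑ ^ 2 ≤
      ENNReal.ofReal ((10 ^ 11 * m * √(1 + Real.log m) * K) ^ 2) *
      ((∫⁻ z, ‖F z‖ₑ ^ 2 * ENNReal.ofReal (w z)) *
        ∫⁻ z, ‖G z‖ₑ ^ 2 * ENNReal.ofReal (w z)⁻¹) := by
  have hK1 : 1 ≤ K := one_le_HA h hK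
  have h1 := bilin_log hm h hK F hG
  have h2 := pow_le_pow_left₀ (zero_le (a := ‖∫ z, gg F m z * starRingEnd ℂ (G z)‖ₑ)) h1 2
  refine h2.trans_eq ?_
  rw [mul_pow, mul_pow, F2_half_sq, F2_half_sq, ENNReal.ofReal_pow (by positivity)]

private theorem F2_ball {m : ℕ} (hm : 1 ≤ m) {w : ℂ → ℝ} {n K : ℝ} (h : Bw w n) (hK : HA w K)
    (F : SchwartzMap ℂ ℂ) (R : ℝ) :
    ∫⁻ z in Metric.ball (0 : ℂ) R, ‖gg F m z‖ₑ ^ 2 * ENNReal.ofReal (w z) ≤
      ENNReal.ofReal ((10 ^ 11 * m * √(1 + Real.log m) * K) ^ 2) *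
        ∫⁻ z, ‖F z‖ₑ ^ 2 * ENNReal.ofReal (w z) := by
  have hgc : Continuous (gg F m) := (gg_contDiff F m).continuous
  have hgm : Measurable (gg F m) := hgc.measurable
  set N : ℝ := ∫ ξ, ‖hh F m ξ‖ with hN
  have hN0 : 0 ≤ N := integral_nonneg fun _ => norm_nonneg _
  have hgb : ∀ z, ‖gg F m z‖ ≤ N := fun z => UU_bound (hh_int F m) z
  set B : Set ℂ := Metric.ball (0 : ℂ) R with hB
  have hBm : MeasurableSet B := Metric.isOpen_ball.measurableSet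
  have hBf : volume B ≠ ⊤ := measure_ball_lt_top.ne
  set g : ℂ → ℂ := fun z => gg F m z * (w z : ℂ) with hg
  have hgwm : Measurable g := hgm.mul (Complex.measurable_ofReal.comp h.meas)
  have hgn : ∀ z, ‖g z‖ ≤ N * n := by
    intro z
    rw [hg]
    simp only [norm_mul, Complex.norm_real, Real.norm_eq_abs, abs_of_pos (h.wpos z)]
    exact mul_le_mul (hgb z) (h.le z) (h.wpos z).le hN0
  have hgi : IntegrableOn g B := by
    refine Measure.integrableOn_of_bounded hBf hgwm.aestronglyMeasurable (M := N * n) ?_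
    exact Eventually.of_forall hgn
  have hG : Bf (B.indicator g) (N * n) := by
    refine ⟨hgwm.indicator hBm, fun z => ?_, (integrable_indicator_iff hBm).2 hgi⟩
    by_cases hz : z ∈ B
    · rw [indicator_of_mem hz]
      exact hgn z
    · rw [indicator_of_notMem hz, norm_zero]
      exact mul_nonneg hN0 h.pos.le
  set J : ℝ≥0∞ := ∫⁻ z in B, ‖gg F m z‖ₑ ^ 2 * ENNReal.ofReal (w z) with hJ
  have hpt : ∀ z, ‖gg F m z‖ₑ ^ 2 * ENNReal.ofReal (w z) =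
      ENNReal.ofReal (‖gg F m z‖ ^ 2 * w z) := by
    intro z
    rw [ENNReal.ofReal_mul (by positivity), ENNReal.ofReal_pow (norm_nonneg _), ofReal_norm]
  have hri : IntegrableOn (fun z => ‖gg F m z‖ ^ 2 * w z) B := by
    refine Measure.integrableOn_of_bounded hBf
      ((hgm.norm.pow_const 2).mul h.meas).aestronglyMeasurable (M := N ^ 2 * n) ?_
    refine Eventually.of_forall fun z => ?_
    rw [Real.norm_eq_abs, abs_of_nonneg (mul_nonneg (by positivity) (h.wpos z).le)]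
    exact mul_le_mul (pow_le_pow_left₀ (norm_nonneg _) (hgb z) 2) (h.le z) (h.wpos z).le
      (by positivity)
  have hJ1 : J = ENNReal.ofReal (∫ z in B, ‖gg F m z‖ ^ 2 * w z) := by
    rw [ofReal_integral_eq_lintegral_ofReal hri
      (Eventually.of_forall fun z => mul_nonneg (by positivity) (h.wpos z).le)]
    exact lintegral_congr fun z => hpt z
  have hJtop : J ≠ ⊤ := by
    rw [hJ1]
    exact ENNReal.ofReal_ne_top
  have hI : ∫ z, gg F m z * starRingEnd ℂ (B.indicator g z) =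
      ((∫ z in B, ‖gg F m z‖ ^ 2 * w z : ℝ) : ℂ) := by
    rw [← integral_complex_ofReal, ← integral_indicator hBm]
    refine integral_congr_ae (Eventually.of_forall fun z => ?_)
    by_cases hz : z ∈ B
    · simp only [indicator_of_mem hz, hg, map_mul, Complex.conj_ofReal]
      rw [← mul_assoc, Complex.mul_conj, Complex.normSq_eq_norm_sq]
      push_cast
      rfl
    · simp only [indicator_of_notMem hz, map_zero, mul_zero]
  have hnn : 0 ≤ ∫ z in B, ‖gg F m z‖ ^ 2 * w z :=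
    integral_nonneg fun z => mul_nonneg (by positivity) (h.wpos z).le
  have hIe : ‖∫ z, gg F m z * starRingEnd ℂ (B.indicator g z)‖ₑ = J := by
    rw [hI, hJ1, ← ofReal_norm, Complex.norm_real, Real.norm_eq_abs, abs_of_nonneg hnn]
  have hGJ : ∫⁻ z, ‖B.indicator g z‖ₑ ^ 2 * ENNReal.ofReal (w z)⁻¹ = J := by
    rw [hJ, ← lintegral_indicator hBm]
    refine lintegral_congr fun z => ?_
    by_cases hz : z ∈ B
    · simp only [indicator_of_mem hz]
      have hw := h.wpos z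
      rw [hpt z, ← ofReal_norm, ← ENNReal.ofReal_pow (norm_nonneg _),
        ← ENNReal.ofReal_mul (by positivity)]
      congr 1
      rw [hg]
      simp only [norm_mul, Complex.norm_real, Real.norm_eq_abs, abs_of_pos hw]
      field_simp
    · simp only [indicator_of_notMem hz, enorm_zero]
      simp
  have hb := bilin_log_sq hm h hK F hG
  rw [hIe, hGJ] at hb
  by_cases hJ0 : J = 0
  · rw [hJ0]
    exact bot_le
  have hb' : J * J ≤ (ENNReal.ofReal ((10 ^ 11 * m * √(1 + Real.log m) * K) ^ 2) *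
      ∫⁻ z, ‖F z‖ₑ ^ 2 * ENNReal.ofReal (w z)) * J := by
    rw [← sq, mul_assoc]
    exact hb
  exact (ENNReal.mul_le_mul_iff_left hJ0 hJtop).1 hb'

/-- The theorem for bounded weights. -/
theorem bounded_log {m : ℕ} (hm : 1 ≤ m) {w : ℂ → ℝ} {n K : ℝ} (h : Bw w n) (hK : HA w K)
    (F : SchwartzMap ℂ ℂ) :
    ∫⁻ z, ‖gg F m z‖ₑ ^ 2 * ENNReal.ofReal (w z) ≤
      ENNReal.ofReal ((10 ^ 11 * m * √(1 + Real.log m) * K) ^ 2) *
        ∫⁻ z, ‖F z‖ₑ ^ 2 * ENNReal.ofReal (w z) := by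
  rw [← setLIntegral_univ, ← Metric.iUnion_ball_nat (0 : ℂ),
    setLIntegral_iUnion_of_directed]
  · exact iSup_le fun R => F2_ball hm h hK F R
  · intro a b
    refine ⟨max a b, ?_, ?_⟩
    · exact Metric.ball_subset_ball (by exact_mod_cast le_max_left a b)
    · exact Metric.ball_subset_ball (by exact_mod_cast le_max_right a b)

end Pool.Agent.Lib.MP_f0c028_an.SQ
end
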