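import Pool.Agent.Lib.MP_f0c028_an.Mg.G003

section

set_option autoImplicit false

/-! # TASK GW10b: the symbols are integrable

`sy_norm_le`: `norm_ratio_le` (RWPlanar). `gauss_two`: `b‖ξ‖² e^{-b‖ξ‖²} ≤ 2 e^{-b‖ξ‖²/2}`; the value: polar coordinates
(`Complex.integral_comp_polarCoord_symm`), or layer cake, or `∫ ‖ξ‖² e^{-b‖ξ‖²} = -d/db (π/b)` (`hasDerivAt_integral_of_dominated_loc_of_deriv_le` and
`integral_gauss`); or by `∫ ξ, (re ξ)² e^{-b‖ξ‖²} = (∫ x² e^{-bx²}) (∫ e^{-by²})`.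
`mk_meas`: `UU_eq`, `StronglyMeasurable.integral_prod_right'` for `((t, z), ξ) ↦ e^{2πi<z,ξ>} sy m t ξ`. -/

open Real

namespace Pool.Agent.Lib.MP_f0c028_an.GW

open MeasureTheory Set Filter Topology FourierTransform
open scoped ENNReal InnerProductSpace ComplexConjugate

theorem sy_meas (m : ℕ) : Measurable fun q : ℝ × ℂ => sy m q.1 q.2 := by
  unfold sy
  have h1 : Measurable fun q : ℝ × ℂ => starRingEnd ℂ q.2 :=
    Complex.continuous_conj.measurable.comp measurable_snd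
  refine Measurable.mul ((h1.div measurable_snd).pow_const m) ?_
  refine Complex.measurable_ofReal.comp ?_
  have h2 : Continuous fun q : ℝ × ℂ =>
      4 * π ^ 2 * q.1 * ‖q.2‖ ^ 2 * Real.exp (-(4 * π ^ 2 * q.1 * ‖q.2‖ ^ 2)) := by fun_prop
  exact h2.measurable

theorem sy_norm_le (m : ℕ) {t : ℝ} (ht : 0 < t) (ξ : ℂ) :
    ‖sy m t ξ‖ ≤ 4 * π ^ 2 * t * ‖ξ‖ ^ 2 * Real.exp (-(4 * π ^ 2 * t * ‖ξ‖ ^ 2)) := by
  have h0 : 0 ≤ 4 * π ^ 2 * t * ‖ξ‖ ^ 2 * Real.exp (-(4 * π ^ 2 * t * ‖ξ‖ ^ 2)) := by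
    positivity
  unfold sy
  rw [norm_mul, norm_pow, Complex.norm_real, Real.norm_of_nonneg h0]
  have h1 : ‖starRingEnd ℂ ξ / ξ‖ ^ m ≤ 1 := pow_le_one₀ (norm_nonneg _) (norm_ratio_le ξ)
  exact mul_le_of_le_one_left h0 h1

theorem gauss_two {b : ℝ} (hb : 0 < b) :
    Integrable (fun ξ : ℂ => b * ‖ξ‖ ^ 2 * Real.exp (-(b * ‖ξ‖ ^ 2))) ∧
      ∫ ξ : ℂ, b * ‖ξ‖ ^ 2 * Real.exp (-(b * ‖ξ‖ ^ 2)) = π / b := by
  have h1 : ∫ ξ : ℂ, b * ‖ξ‖ ^ 2 * Real.exp (-(b * ‖ξ‖ ^ 2)) = π / b := by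
    have h2 := Complex.integral_rpow_mul_exp_neg_mul_rpow (p := 2) (q := 2) (b := b)
      (by norm_num) (by norm_num) hb
    have h3 : (fun ξ : ℂ => b * ‖ξ‖ ^ 2 * Real.exp (-(b * ‖ξ‖ ^ 2))) =
        fun ξ : ℂ => b * (‖ξ‖ ^ (2 : ℝ) * Real.exp (-b * ‖ξ‖ ^ (2 : ℝ))) := by
      funext ξ
      rw [Real.rpow_two, neg_mul]
      ring
    rw [h3, integral_const_mul, h2]
    have h4 : -((2 : ℝ) + 2) / 2 = -2 := by norm_num
    have h5 : ((2 : ℝ) + 2) / 2 = 2 := by norm_num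
    rw [h4, h5, Real.Gamma_two, Real.rpow_neg hb.le, Real.rpow_two]
    field_simp
  refine ⟨?_, h1⟩
  by_contra hcon
  rw [integral_undef hcon] at h1
  have : 0 < π / b := by positivity
  linarith

theorem sy_int (m : ℕ) {t : ℝ} (ht : 0 < t) : Integrable (sy m t) := by
  have h := (gauss_two (b := 4 * π ^ 2 * t) (by positivity)).1
  refine Integrable.mono' h ?_ (ae_of_all _ (sy_norm_le m ht))
  exact ((sy_meas m).comp (measurable_const.prodMk measurable_id)).aestronglyMeasurable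

theorem mk_le_one (m : ℕ) {t : ℝ} (ht : 0 < t) (z : ℂ) : ‖mk m t z‖ ≤ 1 / (4 * π * t) := by
  have h1 := UU_bound (sy_int m ht) z
  have h2 : ∫ ξ, ‖sy m t ξ‖ ≤
      ∫ ξ : ℂ, 4 * π ^ 2 * t * ‖ξ‖ ^ 2 * Real.exp (-(4 * π ^ 2 * t * ‖ξ‖ ^ 2)) :=
    integral_mono (sy_int m ht).norm (gauss_two (b := 4 * π ^ 2 * t) (by positivity)).1
      (sy_norm_le m ht)
  rw [(gauss_two (b := 4 * π ^ 2 * t) (by positivity)).2] at h2
  have h3 : π / (4 * π ^ 2 * t) = 1 / (4 * π * t) := by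
    have := Real.pi_pos
    field_simp
  rw [h3] at h2
  exact h1.trans h2

theorem mk_meas (m : ℕ) : Measurable fun q : ℝ × ℂ => mk m q.1 q.2 := by
  unfold mk
  simp_rw [UU_eq]
  have h1 : StronglyMeasurable fun r : (ℝ × ℂ) × ℂ =>
      Complex.exp (2 * π * Complex.I * ((r.1.2.re * r.2.re + r.1.2.im * r.2.im : ℝ) : ℂ)) *
        sy m r.1.1 r.2 := by
    apply Measurable.stronglyMeasurable
    refine Measurable.mul ?_ ?_
    · have h2 : Continuous fun r : (ℝ × ℂ) × ℂ =>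
          Complex.exp (2 * π * Complex.I *
            ((r.1.2.re * r.2.re + r.1.2.im * r.2.im : ℝ) : ℂ)) := by fun_prop
      exact h2.measurable
    · exact (sy_meas m).comp ((measurable_fst.comp measurable_fst).prodMk measurable_snd)
  exact (StronglyMeasurable.integral_prod_right' h1).measurable

end Pool.Agent.Lib.MP_f0c028_an.GW
end

section

set_option autoImplicit false

/-! # TASK GW12b: the representation of the bilinear form of `B^m`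

(1) `∫ gg F m z conj (G z) = ∫ ξ, hh F m ξ conj (𝓕 G ξ)` (`UU_pair`, `gg F m = UU (hh F m)`, `hh_int`).
(2) `hh F m ξ conj (𝓕 G ξ) = 100 ∫ t in Ioi 0, sy m t ξ * 𝓕 (dd t F) ξ * conj (𝓕 (dd t G) ξ)` for `ξ ≠ 0` (`hh_eq`, `rep_const`; `fourier_dd`:
`𝓕 (dd t F) conj (𝓕 (dd t G)) = π² ‖ξ‖² e^{-16π²t‖ξ‖²} 𝓕 F conj (𝓕 G)`; `sy` contributes `(conj ξ/ξ)^m 4π²t‖ξ‖² e^{-4π²t‖ξ‖²}`).
(3) Fubini in `(t, ξ)` (`integral_integral_swap`): `∫∫ |..| ≤ (1/100) ∫ |𝓕 F| |𝓕 G| < ∞` (`𝓕 F` is a Schwartz function, `𝓕 G` is bounded and continuous). Joint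
measurability of the integrand: through the formula in (2), not through `dd`.
(4) for `t > 0`: `pair_symbol` with `σ = sy m t` (`sy_int`), `a = dd t F`, `b = dd t G` (`dd_integrable`, `bf_schwartz`); `UU (sy m t) = mk m t`.
(5) `enorm_integral_le_lintegral_enorm` three times (`enorm_mul`, the enorm of the conjugate is the enorm). -/

open Real

namespace Pool.Agent.Lib.MP_f0c028_an.GW

open MeasureTheory Set Filter Topology FourierTransform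
open scoped ENNReal InnerProductSpace ComplexConjugate

private theorem GW12b_cont {g : ℂ → ℂ} (hg : Integrable g) : Continuous (𝓕 g) :=
  VectorFourier.fourierIntegral_continuous (L := innerₗ ℂ) Real.continuous_fourierChar
    continuous_inner hg

private theorem GW12b_bound {g : ℂ → ℂ} (hg : Integrable g) (ξ : ℂ) : ‖𝓕 g ξ‖ ≤ ∫ z, ‖g z‖ := by
  have h := UU_bound hg (-ξ)
  unfold UU at h
  rwa [neg_neg] at h

/-- the integrand -/
private noncomputable def GW12bJ (F : SchwartzMap ℂ ℂ) (G : ℂ → ℂ) (m : ℕ) (ξ : ℂ) (t : ℝ) : ℂ :=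
  hh F m ξ * starRingEnd ℂ (𝓕 G ξ) *
    ((4 * π ^ 4 * ‖ξ‖ ^ 4 * (t * Real.exp (-(20 * π ^ 2 * ‖ξ‖ ^ 2 * t))) : ℝ) : ℂ)

private theorem GW12bJ_eq (F : SchwartzMap ℂ ℂ) {G : ℂ → ℂ} {M M' : ℝ} (hG : Bf G M) (hF : Bf F M')
    (m : ℕ) (ξ : ℂ) {t : ℝ} (ht : 0 < t) :
    GW12bJ F G m ξ t = sy m t ξ * 𝓕 (dd t F) ξ * starRingEnd ℂ (𝓕 (dd t G) ξ) := by
  rw [fourier_dd hF ht, fourier_dd hG ht]
  unfold GW12bJ sy
  rw [hh_eq]
  have h1 : (𝓕 (F : ℂ → ℂ) ξ) = (𝓕 F : SchwartzMap ℂ ℂ) ξ := by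
    rw [SchwartzMap.fourier_coe]
  rw [h1]
  simp only [map_mul, Complex.conj_ofReal, Complex.conj_I]
  have h2 : (4 * π ^ 4 * ‖ξ‖ ^ 4 * (t * Real.exp (-(20 * π ^ 2 * ‖ξ‖ ^ 2 * t))) : ℝ) =
      (4 * π ^ 2 * t * ‖ξ‖ ^ 2 * Real.exp (-(4 * π ^ 2 * t * ‖ξ‖ ^ 2))) *
      (π ^ 2 * ‖ξ‖ ^ 2 * (Real.exp (-(8 * π ^ 2 * t * ‖ξ‖ ^ 2)) *
        Real.exp (-(8 * π ^ 2 * t * ‖ξ‖ ^ 2)))) := by
    have h3 : Real.exp (-(20 * π ^ 2 * ‖ξ‖ ^ 2 * t)) = Real.exp (-(4 * π ^ 2 * t * ‖ξ‖ ^ 2)) *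
        (Real.exp (-(8 * π ^ 2 * t * ‖ξ‖ ^ 2)) * Real.exp (-(8 * π ^ 2 * t * ‖ξ‖ ^ 2))) := by
      rw [← Real.exp_add, ← Real.exp_add]
      congr 1
      ring
    rw [h3]
    ring
  rw [h2]
  have h4 : (((‖ξ‖ ^ 2 : ℝ)) : ℂ) = ξ * starRingEnd ℂ ξ := by
    rw [Complex.mul_conj, Complex.normSq_eq_norm_sq]
  have h5 : ((4 * π ^ 2 * t * ‖ξ‖ ^ 2 * Real.exp (-(4 * π ^ 2 * t * ‖ξ‖ ^ 2)) *
      (π ^ 2 * ‖ξ‖ ^ 2 * (Real.exp (-(8 * π ^ 2 * t * ‖ξ‖ ^ 2)) *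
        Real.exp (-(8 * π ^ 2 * t * ‖ξ‖ ^ 2)))) : ℝ) : ℂ) =
      ((4 * π ^ 2 * t * ‖ξ‖ ^ 2 * Real.exp (-(4 * π ^ 2 * t * ‖ξ‖ ^ 2)) : ℝ) : ℂ) *
      ((π : ℂ) ^ 2 * (ξ * starRingEnd ℂ ξ) * ((Real.exp (-(8 * π ^ 2 * t * ‖ξ‖ ^ 2)) : ℂ) *
        (Real.exp (-(8 * π ^ 2 * t * ‖ξ‖ ^ 2)) : ℂ))) := by
    rw [← h4]
    push_cast
    ring
  rw [h5]
  linear_combination (((starRingEnd ℂ ξ / ξ) ^ m *
    ((4 * π ^ 2 * t * ‖ξ‖ ^ 2 * Real.exp (-(4 * π ^ 2 * t * ‖ξ‖ ^ 2)) : ℝ) : ℂ) *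
    ((π : ℂ) ^ 2 * (ξ * starRingEnd ℂ ξ) * ((Real.exp (-(8 * π ^ 2 * t * ‖ξ‖ ^ 2)) : ℂ) *
        (Real.exp (-(8 * π ^ 2 * t * ‖ξ‖ ^ 2)) : ℂ))) * (𝓕 F : SchwartzMap ℂ ℂ) ξ *
      starRingEnd ℂ (𝓕 G ξ))) * (Complex.I_sq)

private theorem GW12bJ_int (F : SchwartzMap ℂ ℂ) {G : ℂ → ℂ} {M : ℝ} (hG : Bf G M) (m : ℕ) :
    Integrable (Function.uncurry (GW12bJ F G m)) (volume.prod (volume.restrict (Ioi (0 : ℝ)))) := by
  have hmeas : Measurable (Function.uncurry (GW12bJ F G m)) := by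
    unfold GW12bJ
    have h1 : Measurable fun q : ℂ × ℝ => hh F m q.1 := (hh_meas F m).comp measurable_fst
    have h2 : Measurable fun q : ℂ × ℝ => starRingEnd ℂ (𝓕 G q.1) :=
      (Complex.continuous_conj.measurable.comp (GW12b_cont hG.int).measurable).comp measurable_fst
    have h3 : Measurable fun q : ℂ × ℝ =>
        (4 * π ^ 4 * ‖q.1‖ ^ 4 * (q.2 * Real.exp (-(20 * π ^ 2 * ‖q.1‖ ^ 2 * q.2))) : ℝ) := by
      fun_prop
    exact (h1.mul h2).mul (Complex.measurable_ofReal.comp h3)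
  rw [integrable_prod_iff hmeas.aestronglyMeasurable]
  constructor
  · have h0 : ∀ᵐ ξ : ℂ, ξ ≠ 0 := by
      rw [ae_iff]
      simp
    filter_upwards [h0] with ξ hξ
    show Integrable (fun t => GW12bJ F G m ξ t) _
    unfold GW12bJ
    exact (((rep_const hξ).1).ofReal).const_mul _
  · have hn : ∀ ξ : ℂ, ∫ t in Ioi (0 : ℝ), ‖Function.uncurry (GW12bJ F G m) (ξ, t)‖ ≤
        ‖hh F m ξ‖ * (∫ z, ‖G z‖) := by
      intro ξ
      have hI : 0 ≤ ∫ z, ‖G z‖ := integral_nonneg fun z => norm_nonneg _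
      by_cases hξ : ξ = 0
      · have : ∀ t : ℝ, ‖Function.uncurry (GW12bJ F G m) (ξ, t)‖ = 0 := by
          intro t
          show ‖GW12bJ F G m ξ t‖ = 0
          unfold GW12bJ
          rw [hξ]
          simp
        simp only [this, integral_zero]
        positivity
      · have h1 : ∀ t ∈ Ioi (0 : ℝ), ‖Function.uncurry (GW12bJ F G m) (ξ, t)‖ =
            ‖hh F m ξ‖ * ‖𝓕 G ξ‖ *
            (4 * π ^ 4 * ‖ξ‖ ^ 4 * (t * Real.exp (-(20 * π ^ 2 * ‖ξ‖ ^ 2 * t)))) := by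
          intro t ht
          have ht' : 0 < t := ht
          show ‖GW12bJ F G m ξ t‖ = _
          unfold GW12bJ
          rw [norm_mul, norm_mul, Complex.norm_conj, Complex.norm_real, Real.norm_of_nonneg]
          positivity
        rw [setIntegral_congr_fun measurableSet_Ioi h1, integral_const_mul, (rep_const hξ).2]
        have h2 := GW12b_bound hG.int ξ
        have h3 : ‖hh F m ξ‖ * ‖𝓕 G ξ‖ ≤ ‖hh F m ξ‖ * ∫ z, ‖G z‖ :=
          mul_le_mul_of_nonneg_left h2 (norm_nonneg _)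
        have h4 : 0 ≤ ‖hh F m ξ‖ * ‖𝓕 G ξ‖ := by positivity
        linarith
    refine Integrable.mono' ((hh_int F m).norm.mul_const (∫ z, ‖G z‖)) ?_ (ae_of_all _ fun ξ => ?_)
    · exact hmeas.norm.stronglyMeasurable.integral_prod_right'.aestronglyMeasurable
    · rw [Real.norm_of_nonneg (integral_nonneg fun t => norm_nonneg _)]
      exact hn ξ

/-- The representation of `B^m` through the heat extensions. -/
theorem rep_main (F : SchwartzMap ℂ ℂ) {G : ℂ → ℂ} {M : ℝ} (hG : Bf G M) (m : ℕ) :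
    ‖∫ z, gg F m z * starRingEnd ℂ (G z)‖ₑ ≤ 100 * ∫⁻ t in Ioi (0 : ℝ), ∫⁻ x, ∫⁻ y,
      ‖mk m t (x - y)‖ₑ * (‖dd t F y‖ₑ * ‖dd t G x‖ₑ) := by
  obtain ⟨M', hF⟩ := bf_schwartz F
  have e1 : ∫ z, gg F m z * starRingEnd ℂ (G z) = ∫ ξ, hh F m ξ * starRingEnd ℂ (𝓕 G ξ) :=
    UU_pair (hh_int F m) hG.int
  have e2 : ∫ ξ, hh F m ξ * starRingEnd ℂ (𝓕 G ξ) =
      100 * ∫ ξ, ∫ t in Ioi (0 : ℝ), GW12bJ F G m ξ t := by
    rw [← integral_const_mul]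
    refine integral_congr_ae ?_
    have h0 : ∀ᵐ ξ : ℂ, ξ ≠ 0 := by
      rw [ae_iff]
      simp
    filter_upwards [h0] with ξ hξ
    unfold GW12bJ
    have hr : ∫ t in Ioi (0 : ℝ),
        ((4 * π ^ 4 * ‖ξ‖ ^ 4 * (t * Real.exp (-(20 * π ^ 2 * ‖ξ‖ ^ 2 * t))) : ℝ) : ℂ) =
        ((∫ t in Ioi (0 : ℝ),
          4 * π ^ 4 * ‖ξ‖ ^ 4 * (t * Real.exp (-(20 * π ^ 2 * ‖ξ‖ ^ 2 * t))) : ℝ) : ℂ) :=
      integral_ofReal (𝕜 := ℂ)
    rw [integral_const_mul, hr, (rep_const hξ).2]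
    push_cast
    ring
  have e3 : ∫ ξ, ∫ t in Ioi (0 : ℝ), GW12bJ F G m ξ t =
      ∫ t in Ioi (0 : ℝ), ∫ ξ, GW12bJ F G m ξ t :=
    integral_integral_swap (GW12bJ_int F hG m)
  have e4 : ∫ t in Ioi (0 : ℝ), ∫ ξ, GW12bJ F G m ξ t =
      ∫ t in Ioi (0 : ℝ), ∫ x, (∫ y, mk m t (x - y) * dd t F y) * starRingEnd ℂ (dd t G x) := by
    refine setIntegral_congr_fun measurableSet_Ioi fun t ht => ?_
    have ht' : 0 < t := ht
    have h1 : ∫ ξ, GW12bJ F G m ξ t =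
        ∫ ξ, sy m t ξ * 𝓕 (dd t F) ξ * starRingEnd ℂ (𝓕 (dd t G) ξ) :=
      integral_congr_ae (ae_of_all _ fun ξ => GW12bJ_eq F hG hF m ξ ht')
    exact h1.trans (pair_symbol (sy_int m ht') (dd_integrable hF ht') (dd_integrable hG ht'))
  rw [e1, e2, e3, e4, enorm_mul]
  have h100 : ‖(100 : ℂ)‖ₑ = 100 := by
    rw [← ofReal_norm, RCLike.norm_ofNat]
    norm_num
  rw [h100]
  refine mul_le_mul_right ?_ _
  refine (enorm_integral_le_lintegral_enorm _).trans (lintegral_mono fun t => ?_)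
  refine (enorm_integral_le_lintegral_enorm _).trans (lintegral_mono fun x => ?_)
  show ‖(∫ y, mk m t (x - y) * dd t F y) * starRingEnd ℂ (dd t G x)‖ₑ ≤ _
  rw [enorm_mul]
  have hconj : ‖starRingEnd ℂ (dd t G x)‖ₑ = ‖dd t G x‖ₑ := by
    rw [← ofReal_norm, ← ofReal_norm, Complex.norm_conj]
  rw [hconj]
  calc ‖∫ y, mk m t (x - y) * dd t F y‖ₑ * ‖dd t G x‖ₑ
      ≤ (∫⁻ y, ‖mk m t (x - y) * dd t F y‖ₑ) * ‖dd t G x‖ₑ := by
        gcongr
        exact enorm_integral_le_lintegral_enorm _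
    _ = ∫⁻ y, ‖mk m t (x - y) * dd t F y‖ₑ * ‖dd t G x‖ₑ :=
        (lintegral_mul_const' _ _ enorm_ne_top).symm
    _ = ∫⁻ y, ‖mk m t (x - y)‖ₑ * (‖dd t F y‖ₑ * ‖dd t G x‖ₑ) := by
        refine lintegral_congr fun y => ?_
        rw [enorm_mul, mul_assoc]

end Pool.Agent.Lib.MP_f0c028_an.GW
end

section

set_option autoImplicit false

/-! # TASK GW10c: the kernel as a superposition of heat kernels

With `x = 4π²‖ξ‖²`: `(conj ξ/ξ)^m = (4π²)^m conj ξ^(2m)/x^m` (`ξ ≠ 0`), and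
`x^(1-m) e^{-tx} = (1/(m-2)!) ∫_t^∞ (s-t)^(m-2) e^{-sx} ds` (Gamma integral after `s = t + r`: `Real.integral_rpow_mul_exp_neg_mul_Ioi` or
`integral_rpow_mul_exp_neg_mul_Ioi`, `Real.Gamma_nat_eq_factorial`), so for `ξ ≠ 0`
`sy m t ξ = (4π²)^m (t/(m-2)!) ∫_t^∞ (s-t)^(m-2) gm (2m) s ξ ds`. Fubini for `(ξ, s)` (`integral_integral_swap`; absolutely convergent: for fixed `ξ` the same
computation with absolute values gives `‖sy m t ξ‖`-type bound `4π²t‖ξ‖² e^{-4π²t‖ξ‖²}`, which is integrable, `gauss_two`; use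
`integrable_prod_iff'` or `lintegral` Tonelli) and `UU_moment` with `k = 2m`:
`mk m t z = (4π²)^m (t/(m-2)!) ∫_t^∞ (s-t)^(m-2) (i conj z/(4πs))^(2m) gk s z ds`; the norm of the integrand:
`(4π²)^m (‖z‖/(4πs))^(2m) = (‖z‖²/(4s²))^m` (`norm_integral_le_integral_norm`). -/

open Real

namespace Pool.Agent.Lib.MP_f0c028_an.GW

open MeasureTheory Set Filter Topology FourierTransform
open scoped ENNReal InnerProductSpace ComplexConjugate

private theorem gi (n : ℕ) {x : ℝ} (hx : 0 < x) (t : ℝ) :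
    IntegrableOn (fun s : ℝ => (s - t) ^ n * Real.exp (-(x * s))) (Ioi t) ∧
      ∫ s in Ioi t, (s - t) ^ n * Real.exp (-(x * s)) =
        Real.exp (-(x * t)) * ((n.factorial : ℝ) / x ^ (n + 1)) := by
  have hn : (0 : ℝ) ≤ n := n.cast_nonneg
  have h0 : IntegrableOn (fun r : ℝ => r ^ n * Real.exp (-(x * r))) (Ioi 0) := by
    have h := integrableOn_rpow_mul_exp_neg_mul_rpow (p := 1) (s := (n : ℝ)) (b := x)
      (by linarith) one_pos hx
    refine h.congr_fun (fun r hr => ?_) measurableSet_Ioi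
    simp [Real.rpow_natCast]
  have h1 : ∫ r in Ioi (0 : ℝ), r ^ n * Real.exp (-(x * r)) = (n.factorial : ℝ) / x ^ (n + 1) := by
    have h := Real.integral_rpow_mul_exp_neg_mul_Ioi (a := (n : ℝ) + 1) (r := x)
      (by positivity) hx
    rw [Real.Gamma_nat_eq_factorial] at h
    have h2 : (1 / x) ^ ((n : ℝ) + 1) = 1 / x ^ (n + 1) := by
      have : ((n : ℝ) + 1) = ((n + 1 : ℕ) : ℝ) := by push_cast; ring
      rw [this, Real.rpow_natCast, one_div, one_div, inv_pow]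
    rw [h2] at h
    rw [div_eq_mul_one_div, mul_comm, ← h]
    refine setIntegral_congr_fun measurableSet_Ioi fun r hr => ?_
    have : (n : ℝ) + 1 - 1 = n := by ring
    simp only [this, Real.rpow_natCast]
  have hpre : (fun s : ℝ => s - t) ⁻¹' (Ioi 0) = Ioi t := by
    ext s
    simp
  have hmp := measurePreserving_sub_right (volume : Measure ℝ) t
  have hemb : MeasurableEmbedding (fun s : ℝ => s - t) := measurableEmbedding_subRight t
  have hfac : ∀ s : ℝ, (s - t) ^ n * Real.exp (-(x * s)) =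
      Real.exp (-(x * t)) * ((s - t) ^ n * Real.exp (-(x * (s - t)))) := by
    intro s
    have : Real.exp (-(x * s)) = Real.exp (-(x * t)) * Real.exp (-(x * (s - t))) := by
      rw [← Real.exp_add]
      congr 1
      ring
    rw [this]
    ring
  constructor
  · have h2 := (hmp.integrableOn_comp_preimage hemb).mpr h0
    rw [hpre] at h2
    have h3 := h2.const_mul (Real.exp (-(x * t)))
    refine IntegrableOn.congr_fun h3 (fun s _ => ?_) measurableSet_Ioi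
    simp only [Function.comp]
    exact (hfac s).symm
  · have h2 := hmp.setIntegral_preimage_emb hemb
      (fun r : ℝ => r ^ n * Real.exp (-(x * r))) (Ioi 0)
    rw [hpre, h1] at h2
    simp_rw [hfac]
    rw [integral_const_mul, h2]


/-- The integrand on `ℂ × ℝ`. -/
private noncomputable def FF (n : ℕ) (t : ℝ) (z : ℂ) (q : ℂ × ℝ) : ℂ :=
  Complex.exp (2 * π * Complex.I * ((z.re * q.1.re + z.im * q.1.im : ℝ) : ℂ)) *
    ((((q.2 - t) ^ n : ℝ) : ℂ) * gm (2 * (n + 2)) q.2 q.1)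

private theorem FF_cont (n : ℕ) (t : ℝ) (z : ℂ) : Continuous (FF n t z) := by
  unfold FF gm
  fun_prop

private theorem gm_norm (k : ℕ) (s : ℝ) (ξ : ℂ) :
    ‖gm k s ξ‖ = ‖ξ‖ ^ k * Real.exp (-((4 * π ^ 2 * ‖ξ‖ ^ 2) * s)) := by
  unfold gm
  rw [norm_mul, norm_pow, RCLike.norm_conj, Complex.norm_real, Real.norm_eq_abs,
    abs_of_pos (Real.exp_pos _)]
  congr 2
  ring

private theorem FF_norm (n : ℕ) (t : ℝ) (z : ℂ) (ξ : ℂ) {s : ℝ} (hs : t < s) :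
    ‖FF n t z (ξ, s)‖ = ‖ξ‖ ^ (2 * (n + 2)) *
      ((s - t) ^ n * Real.exp (-((4 * π ^ 2 * ‖ξ‖ ^ 2) * s))) := by
  unfold FF
  have hE : ‖Complex.exp (2 * π * Complex.I *
      ((z.re * ξ.re + z.im * ξ.im : ℝ) : ℂ))‖ = 1 := by
    rw [Complex.norm_exp]
    simp
  have hst : 0 ≤ (s - t) ^ n := pow_nonneg (by linarith) n
  simp only
  rw [norm_mul, hE, one_mul, norm_mul, gm_norm, Complex.norm_real, Real.norm_eq_abs,
    abs_of_nonneg hst]
  ring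

private theorem FF_int1 (n : ℕ) (t : ℝ) (z : ℂ) (ξ : ℂ) :
    Integrable (fun s => FF n t z (ξ, s)) (volume.restrict (Ioi t)) := by
  by_cases hξ : ξ = 0
  · have : (fun s => FF n t z (ξ, s)) = fun _ => 0 := by
      funext s
      unfold FF gm
      simp [hξ]
    rw [this]
    exact integrable_zero _ _ _
  · have hx : 0 < 4 * π ^ 2 * ‖ξ‖ ^ 2 := by
      have := norm_pos_iff.mpr hξ
      positivity
    have h := ((gi n hx t).1).const_mul (‖ξ‖ ^ (2 * (n + 2)))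
    refine Integrable.mono' h ?_ ?_
    · exact ((FF_cont n t z).comp (by fun_prop)).aestronglyMeasurable
    · filter_upwards [ae_restrict_mem measurableSet_Ioi] with s hs
      exact (FF_norm n t z ξ hs).le

private theorem FF_int2 (n : ℕ) (t : ℝ) (z : ℂ) (ξ : ℂ) :
    ∫ s in Ioi t, ‖FF n t z (ξ, s)‖ =
      (n.factorial : ℝ) / (4 * π ^ 2) ^ (n + 1) *
        (‖ξ‖ ^ 2 * Real.exp (-(4 * π ^ 2 * t * ‖ξ‖ ^ 2))) := by
  by_cases hξ : ξ = 0
  · have : (fun s => ‖FF n t z (ξ, s)‖) = fun _ => 0 := by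
      funext s
      unfold FF gm
      simp [hξ]
    rw [this]
    simp [hξ]
  · have hξ' := norm_pos_iff.mpr hξ
    have hx : 0 < 4 * π ^ 2 * ‖ξ‖ ^ 2 := by positivity
    rw [setIntegral_congr_fun measurableSet_Ioi (fun s hs => FF_norm n t z ξ hs),
      integral_const_mul, (gi n hx t).2]
    have h1 : -(4 * π ^ 2 * ‖ξ‖ ^ 2 * t) = -(4 * π ^ 2 * t * ‖ξ‖ ^ 2) := by ring
    rw [h1, mul_pow (4 * π ^ 2), ← pow_mul]
    have h2 : ‖ξ‖ ^ (2 * (n + 2)) = ‖ξ‖ ^ (2 * (n + 1)) * ‖ξ‖ ^ 2 := by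
      rw [← pow_add]
      congr 1
    rw [h2]
    have h3 : ‖ξ‖ ^ (2 * (n + 1)) ≠ 0 := by positivity
    have h4 : (4 * π ^ 2) ^ (n + 1) ≠ 0 := by positivity
    field_simp

private theorem FF_int (n : ℕ) {t : ℝ} (ht : 0 < t) (z : ℂ) :
    Integrable (FF n t z) ((volume : Measure ℂ).prod (volume.restrict (Ioi t))) := by
  rw [integrable_prod_iff (FF_cont n t z).aestronglyMeasurable]
  refine ⟨ae_of_all _ fun ξ => FF_int1 n t z ξ, ?_⟩
  simp_rw [FF_int2]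
  refine Integrable.const_mul ?_ _
  have hb : 0 < 4 * π ^ 2 * t := by positivity
  have h := (gauss_two hb).1.const_mul (4 * π ^ 2 * t)⁻¹
  refine h.congr (ae_of_all _ fun ξ => ?_)
  simp only
  have hb' := hb.ne'
  rw [mul_assoc (4 * π ^ 2 * t) (‖ξ‖ ^ 2), inv_mul_cancel_left₀ hb']

private theorem sy_rep (n : ℕ) (t : ℝ) (ξ : ℂ) :
    sy (n + 2) t ξ = (((4 * π ^ 2) ^ (n + 2) * t / n.factorial : ℝ) : ℂ) *
      ∫ s in Ioi t, (((s - t) ^ n : ℝ) : ℂ) * gm (2 * (n + 2)) s ξ := by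
  by_cases hξ : ξ = 0
  · unfold sy gm
    simp [hξ]
  · have hξ' := norm_pos_iff.mpr hξ
    have hx : 0 < 4 * π ^ 2 * ‖ξ‖ ^ 2 := by positivity
    have h1 : ∀ s : ℝ, (((s - t) ^ n : ℝ) : ℂ) * gm (2 * (n + 2)) s ξ =
        starRingEnd ℂ ξ ^ (2 * (n + 2)) *
          (((s - t) ^ n * Real.exp (-((4 * π ^ 2 * ‖ξ‖ ^ 2) * s)) : ℝ) : ℂ) := by
      intro s
      unfold gm
      have : -(4 * π ^ 2 * s * ‖ξ‖ ^ 2) = -((4 * π ^ 2 * ‖ξ‖ ^ 2) * s) := by ring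
      rw [this]
      push_cast
      ring
    simp_rw [h1]
    rw [integral_const_mul, integral_complex_ofReal, (gi n hx t).2]
    unfold sy
    have h2 : starRingEnd ℂ ξ / ξ = starRingEnd ℂ ξ ^ 2 / ((‖ξ‖ ^ 2 : ℝ) : ℂ) := by
      have h3 : ((‖ξ‖ ^ 2 : ℝ) : ℂ) = ξ * starRingEnd ℂ ξ := by
        rw [Complex.mul_conj, Complex.normSq_eq_norm_sq]
      rw [h3]
      have h4 : starRingEnd ℂ ξ ≠ 0 := by simpa using hξ
      field_simp
    rw [h2, div_pow, ← pow_mul]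
    have h5 : -(4 * π ^ 2 * ‖ξ‖ ^ 2 * t) = -(4 * π ^ 2 * t * ‖ξ‖ ^ 2) := by ring
    rw [h5]
    have h6 : ((‖ξ‖ ^ 2 : ℝ) : ℂ) ≠ 0 := by
      rw [Complex.ofReal_ne_zero]
      positivity
    have h7 : ((n.factorial : ℝ) : ℂ) ≠ 0 := by
      rw [Complex.ofReal_ne_zero]
      positivity
    have h8 : ((π : ℝ) : ℂ) ≠ 0 := by
      rw [Complex.ofReal_ne_zero]
      positivity
    have h9 : ((‖ξ‖ : ℝ) : ℂ) ≠ 0 := by
      rw [Complex.ofReal_ne_zero]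
      positivity
    have h10 : ((n.factorial : ℕ) : ℂ) ≠ 0 := by
      exact_mod_cast n.factorial_ne_zero
    push_cast
    rw [mul_pow (4 * (π : ℂ) ^ 2)]
    field_simp
    ring

private theorem mk_rep' (n : ℕ) {t : ℝ} (ht : 0 < t) (z : ℂ) :
    mk (n + 2) t z = (((4 * π ^ 2) ^ (n + 2) * t / n.factorial : ℝ) : ℂ) *
      ∫ s in Ioi t, (((s - t) ^ n : ℝ) : ℂ) *
        ((Complex.I * starRingEnd ℂ z / (4 * π * s : ℝ)) ^ (2 * (n + 2)) * (gk s z : ℂ)) := by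
  unfold mk
  rw [UU_eq]
  have h1 : ∀ ξ : ℂ, Complex.exp (2 * π * Complex.I *
      ((z.re * ξ.re + z.im * ξ.im : ℝ) : ℂ)) * sy (n + 2) t ξ =
      (((4 * π ^ 2) ^ (n + 2) * t / n.factorial : ℝ) : ℂ) *
        ∫ s in Ioi t, FF n t z (ξ, s) := by
    intro ξ
    rw [sy_rep n t ξ, mul_left_comm, ← integral_const_mul]
    rfl
  simp_rw [h1]
  rw [integral_const_mul]
  congr 1
  have h2 := integral_integral_swap (μ := (volume : Measure ℂ))
    (ν := (volume : Measure ℝ).restrict (Ioi t)) (f := fun ξ s => FF n t z (ξ, s))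
    (FF_int n ht z)
  rw [h2]
  refine setIntegral_congr_fun measurableSet_Ioi fun s hs => ?_
  have hs0 : 0 < s := ht.trans hs
  rw [← UU_moment (2 * (n + 2)) hs0 z, UU_eq, ← integral_const_mul]
  refine integral_congr_ae (ae_of_all _ fun ξ => ?_)
  unfold FF
  simp only
  ring

private theorem mk_rep'' (n : ℕ) {t : ℝ} (ht : 0 < t) (z : ℂ) :
    ‖mk (n + 2) t z‖ ≤ t / n.factorial *
      ∫ s in Ioi t, (s - t) ^ n * (‖z‖ ^ 2 / (4 * s ^ 2)) ^ (n + 2) * gk s z := by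
  rw [mk_rep' n ht z, norm_mul, Complex.norm_real, Real.norm_eq_abs,
    abs_of_pos (by positivity)]
  have h1 : ‖∫ s in Ioi t, (((s - t) ^ n : ℝ) : ℂ) *
        ((Complex.I * starRingEnd ℂ z / (4 * π * s : ℝ)) ^ (2 * (n + 2)) * (gk s z : ℂ))‖ ≤
      ∫ s in Ioi t, ‖(((s - t) ^ n : ℝ) : ℂ) *
        ((Complex.I * starRingEnd ℂ z / (4 * π * s : ℝ)) ^ (2 * (n + 2)) * (gk s z : ℂ))‖ :=
    norm_integral_le_integral_norm _
  refine (mul_le_mul_of_nonneg_left h1 (by positivity)).trans (le_of_eq ?_)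
  rw [← integral_const_mul, ← integral_const_mul]
  refine setIntegral_congr_fun measurableSet_Ioi fun s hs => ?_
  have hs0 : 0 < s := ht.trans hs
  have hst : 0 ≤ (s - t) ^ n := pow_nonneg (sub_nonneg.mpr (le_of_lt hs)) n
  rw [norm_mul, norm_mul, norm_pow, norm_div, norm_mul, Complex.norm_I, RCLike.norm_conj,
    Complex.norm_real, Complex.norm_real, Complex.norm_real, Real.norm_eq_abs, Real.norm_eq_abs,
    Real.norm_eq_abs, abs_of_nonneg hst, abs_of_pos (gk_pos hs0 z),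
    abs_of_pos (show 0 < 4 * π * s by positivity), one_mul]
  have h2 : (‖z‖ / (4 * π * s)) ^ (2 * (n + 2)) * (4 * π ^ 2) ^ (n + 2) =
      (‖z‖ ^ 2 / (4 * s ^ 2)) ^ (n + 2) := by
    rw [pow_mul, ← mul_pow]
    congr 1
    have := Real.pi_pos
    field_simp
  rw [← h2]
  ring

/-- `m ≥ 2`: the kernel as a superposition of heat kernels. -/
theorem mk_rep {m : ℕ} (hm : 2 ≤ m) {t : ℝ} (ht : 0 < t) (z : ℂ) :
    ‖mk m t z‖ ≤ t / (m - 2).factorial *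
      ∫ s in Ioi t, (s - t) ^ (m - 2) * (‖z‖ ^ 2 / (4 * s ^ 2)) ^ m * gk s z := by
  obtain ⟨n, rfl⟩ : ∃ n, m = n + 2 := ⟨m - 2, by omega⟩
  have h := mk_rep'' n ht z
  simpa using h

end Pool.Agent.Lib.MP_f0c028_an.GW
end
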