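import Pool.Agent.Lib.MP_f0c028_an.RWDef

section

set_option autoImplicit false
namespace Pool.Agent.Lib.MP_f0c028_an

open MeasureTheory Real Set Filter Topology
open Finset (range)

set_option linter.unusedSectionVars false

/-- one-sided exponential average -/
noncomputable def EE (e lam : ℝ) (F : ℝ → ℂ) (x : ℝ) : ℂ :=
  ∫ t in Ioi (0:ℝ), ((Real.exp (-(lam * t)) : ℝ) : ℂ) * F (x + e * t)

section basic
variable {lam : ℝ} (hl : 0 < lam) {F : ℝ → ℂ} (hF : Continuous F) {B : ℝ} (hB : ∀ x, ‖F x‖ ≤ B)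
include hl hF hB

theorem EE_integrable (e x : ℝ) :
    IntegrableOn (fun t => ((Real.exp (-(lam * t)) : ℝ) : ℂ) * F (x + e * t)) (Ioi 0) := by
  have h1 : IntegrableOn (fun t => B * Real.exp (-(lam * t))) (Ioi 0) := by
    apply Integrable.const_mul
    have := integrableOn_exp_mul_Ioi (a := -lam) (by linarith) 0
    refine this.congr_fun (fun t _ => ?_) measurableSet_Ioi
    simp
  refine Integrable.mono' h1 ?_ ?_
  · apply Continuous.aestronglyMeasurable
    fun_prop
  · filter_upwards with t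
    rw [norm_mul, Complex.norm_real, Real.norm_eq_abs, abs_of_pos (Real.exp_pos _), mul_comm]
    exact mul_le_mul_of_nonneg_right (hB _) (Real.exp_pos _).le

theorem EE_bound (e x : ℝ) : ‖EE e lam F x‖ ≤ B / lam := by
  have h1 : IntegrableOn (fun t => B * Real.exp (-(lam * t))) (Ioi 0) := by
    apply Integrable.const_mul
    have := integrableOn_exp_mul_Ioi (a := -lam) (by linarith) 0
    refine this.congr_fun (fun t _ => ?_) measurableSet_Ioi
    simp
  calc ‖EE e lam F x‖ ≤ ∫ t in Ioi (0:ℝ), B * Real.exp (-(lam * t)) := by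
        apply norm_integral_le_of_norm_le h1
        filter_upwards with t
        rw [norm_mul, Complex.norm_real, Real.norm_eq_abs, abs_of_pos (Real.exp_pos _), mul_comm]
        exact mul_le_mul_of_nonneg_right (hB _) (Real.exp_pos _).le
    _ = B / lam := by
        rw [integral_const_mul]
        have := integral_exp_mul_Ioi (a := -lam) (by linarith) 0
        have h2 : ∀ t, -(lam * t) = -lam * t := fun t => by ring
        simp_rw [h2]
        rw [this]
        simp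
        field_simp

theorem EE_tendsto_atBot (e : ℝ) (h0 : Tendsto F atBot (𝓝 0)) :
    Tendsto (EE e lam F) atBot (𝓝 0) := by
  have h1 : IntegrableOn (fun t => B * Real.exp (-(lam * t))) (Ioi 0) := by
    apply Integrable.const_mul
    have := integrableOn_exp_mul_Ioi (a := -lam) (by linarith) 0
    refine this.congr_fun (fun t _ => ?_) measurableSet_Ioi
    simp
  have := tendsto_integral_filter_of_dominated_convergence (μ := volume.restrict (Ioi (0:ℝ)))
    (F := fun x t => ((Real.exp (-(lam * t)) : ℝ) : ℂ) * F (x + e * t)) (f := fun _ => 0)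
    (l := atBot) (fun t => B * Real.exp (-(lam * t))) ?_ ?_ h1 ?_
  · have h3 : EE e lam F = fun x => ∫ t in Ioi (0:ℝ), ((Real.exp (-(lam * t)) : ℝ) : ℂ) * F (x + e * t) := rfl
    rw [h3]
    simpa only [integral_zero] using this
  · filter_upwards with x
    apply Continuous.aestronglyMeasurable
    fun_prop
  · filter_upwards with x
    filter_upwards with t
    rw [norm_mul, Complex.norm_real, Real.norm_eq_abs, abs_of_pos (Real.exp_pos _), mul_comm]
    exact mul_le_mul_of_nonneg_right (hB _) (Real.exp_pos _).le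
  · filter_upwards with t
    have h2 : Tendsto (fun x => F (x + e * t)) atBot (𝓝 0) :=
      h0.comp (tendsto_atBot_add_const_right _ _ tendsto_id)
    simpa using h2.const_mul (((Real.exp (-(lam * t)) : ℝ) : ℂ))

theorem EE_one_eq (x : ℝ) : EE 1 lam F x =
    ((Real.exp (lam * x) : ℝ) : ℂ) * ∫ y in Ioi x, ((Real.exp (-(lam * y)) : ℝ) : ℂ) * F y := by
  unfold EE
  rw [← integral_const_mul]
  have h2 := (measurePreserving_add_right (volume : Measure ℝ) x).setIntegral_preimage_emb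
    (measurableEmbedding_addRight x)
    (fun y => ((Real.exp (lam * x) : ℝ) : ℂ) * (((Real.exp (-(lam * y)) : ℝ) : ℂ) * F y)) (Ioi x)
  rw [← h2]
  have h3 : (fun y : ℝ => y + x) ⁻¹' (Ioi x) = Ioi 0 := by
    ext y; simp
  rw [h3]
  apply setIntegral_congr_fun measurableSet_Ioi
  intro t _
  simp only
  rw [← mul_assoc, ← Complex.ofReal_mul, ← Real.exp_add, one_mul, add_comm x t]
  congr 3
  ring_nf

theorem EE_one_hasDerivAt (x : ℝ) :
    HasDerivAt (EE 1 lam F) ((lam : ℂ) * EE 1 lam F x - F x) x := by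
  have hint : ∀ z : ℝ, IntegrableOn (fun y => ((Real.exp (-(lam * y)) : ℝ) : ℂ) * F y) (Ioi z) := by
    intro z
    have h1 : IntegrableOn (fun t => B * Real.exp (-(lam * t))) (Ioi z) := by
      apply Integrable.const_mul
      have := integrableOn_exp_mul_Ioi (a := -lam) (by linarith) z
      refine this.congr_fun (fun t _ => ?_) measurableSet_Ioi
      simp
    refine Integrable.mono' h1 ?_ ?_
    · apply Continuous.aestronglyMeasurable
      fun_prop
    · filter_upwards with t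
      rw [norm_mul, Complex.norm_real, Real.norm_eq_abs, abs_of_pos (Real.exp_pos _), mul_comm]
      exact mul_le_mul_of_nonneg_right (hB _) (Real.exp_pos _).le
  have hcont : Continuous (fun y => ((Real.exp (-(lam * y)) : ℝ) : ℂ) * F y) := by fun_prop
  have h1 : ∀ z, EE 1 lam F z = ((Real.exp (lam * z) : ℝ) : ℂ) *
      ((∫ y in Ioi (0:ℝ), ((Real.exp (-(lam * y)) : ℝ) : ℂ) * F y) -
        ∫ y in (0:ℝ)..z, ((Real.exp (-(lam * y)) : ℝ) : ℂ) * F y) := by
    intro z
    rw [EE_one_eq hl hF hB z, ← intervalIntegral.integral_Ioi_sub_Ioi' (hint 0) (hint z)]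
    ring
  have h2 : HasDerivAt (fun z : ℝ => ((∫ y in Ioi (0:ℝ), ((Real.exp (-(lam * y)) : ℝ) : ℂ) * F y) -
        ∫ y in (0:ℝ)..z, ((Real.exp (-(lam * y)) : ℝ) : ℂ) * F y))
      (-(((Real.exp (-(lam * x)) : ℝ) : ℂ) * F x)) x := by
    have := (intervalIntegral.integral_hasDerivAt_right (hcont.intervalIntegrable 0 x)
      (hcont.stronglyMeasurableAtFilter _ _) hcont.continuousAt).const_sub
      (∫ y in Ioi (0:ℝ), ((Real.exp (-(lam * y)) : ℝ) : ℂ) * F y)
    exact this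
  have h3 : HasDerivAt (fun z : ℝ => ((Real.exp (lam * z) : ℝ) : ℂ))
      (((lam * Real.exp (lam * x) : ℝ)) : ℂ) x := by
    have h4 : HasDerivAt (fun z : ℝ => Real.exp (lam * z)) (lam * Real.exp (lam * x)) x := by
      have := ((hasDerivAt_id x).const_mul lam).exp
      simp only [id, mul_one] at this
      rwa [mul_comm] at this
    exact h4.ofReal_comp
  have h5 := h3.mul h2
  have h7 : ((Real.exp (lam * x) : ℝ) : ℂ) * (-(((Real.exp (-(lam * x)) : ℝ) : ℂ) * F x)) = - F x := by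
    rw [mul_neg, ← mul_assoc, ← Complex.ofReal_mul, ← Real.exp_add]
    simp
  rw [h7] at h5
  refine (h5.congr_of_eventuallyEq (Eventually.of_forall h1)).congr_deriv ?_
  rw [h1 x]
  push_cast
  ring

theorem EE_hasDerivAt (e : ℝ) (he : e = 1 ∨ e = -1) (x : ℝ) :
    HasDerivAt (EE e lam F) ((e : ℂ) * ((lam : ℂ) * EE e lam F x - F x)) x := by
  rcases he with rfl | rfl
  · simpa using EE_one_hasDerivAt hl hF hB x
  · have h1 : EE (-1) lam F = fun x => EE 1 lam (fun y => F (-y)) (-x) := by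
      funext x
      unfold EE
      congr 1
      funext t
      congr 2
      ring
    have h2 := EE_one_hasDerivAt hl (F := fun y => F (-y)) (by fun_prop) (fun x => hB _) (-x)
    have h3 := h2.scomp x (hasDerivAt_neg x)
    rw [h1]
    refine (h3.congr_of_eventuallyEq (Eventually.of_forall fun _ => rfl)).congr_deriv ?_
    simp

end basic

/-- uniqueness -/
theorem eq_zero_of_ode (A : ℤ) (D : ℝ → ℂ) (hD : ∀ x, HasDerivAt D ((A : ℂ) * D x) x)
    (hbot : Tendsto D atBot (𝓝 0))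
    (htop : Tendsto (fun x => ((Real.exp (-x) : ℝ) : ℂ) * D x) atTop (𝓝 0)) (x : ℝ) : D x = 0 := by
  have h1 : ∀ x, HasDerivAt (fun x : ℝ => ((Real.exp (-(A * x)) : ℝ) : ℂ) * D x) 0 x := by
    intro x
    have h3 : HasDerivAt (fun z : ℝ => ((Real.exp (-(A * z)) : ℝ) : ℂ))
      (((-A * Real.exp (-(A * x)) : ℝ)) : ℂ) x := by
      have h4 : HasDerivAt (fun z : ℝ => Real.exp (-(A * z))) (-A * Real.exp (-(A * x))) x := by
        have := ((hasDerivAt_id x).const_mul (-(A:ℝ))).exp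
        simp only [id, mul_one] at this
        simp only [neg_mul] at this
        rw [mul_comm] at this
        simpa using this
      exact h4.ofReal_comp
    have h5 := h3.mul (hD x)
    refine h5.congr_deriv ?_
    push_cast
    ring
  have h2 : ∀ x, ((Real.exp (-(A * x)) : ℝ) : ℂ) * D x = D 0 := by
    intro x
    have := is_const_of_deriv_eq_zero (fun x => (h1 x).differentiableAt) (fun x => (h1 x).deriv) x 0
    simpa using this
  have h3 : ∀ x, D x = ((Real.exp (A * x) : ℝ) : ℂ) * D 0 := by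
    intro x
    rw [← h2 x, ← mul_assoc, ← Complex.ofReal_mul, ← Real.exp_add]
    simp
  have h0 : D 0 = 0 := by
    rw [← norm_eq_zero]
    apply le_antisymm _ (norm_nonneg _)
    rcases le_or_gt A 0 with hA | hA
    · -- look at -∞
      have h4 : Tendsto (fun x => ‖D x‖) atBot (𝓝 0) := by simpa using hbot.norm
      apply ge_of_tendsto h4
      filter_upwards [eventually_le_atBot 0] with y hy
      rw [h3 y, norm_mul, Complex.norm_real, Real.norm_eq_abs, abs_of_pos (Real.exp_pos _)]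
      have : 1 ≤ Real.exp (A * y) := by
        apply Real.one_le_exp
        have : (A : ℝ) ≤ 0 := by exact_mod_cast hA
        nlinarith
      nlinarith [norm_nonneg (D 0)]
    · have h4 : Tendsto (fun x => ‖((Real.exp (-x) : ℝ) : ℂ) * D x‖) atTop (𝓝 0) := by
        simpa using htop.norm
      apply ge_of_tendsto h4
      filter_upwards [eventually_ge_atTop 0] with y hy
      rw [h3 y, norm_mul, norm_mul, Complex.norm_real, Real.norm_eq_abs,
        abs_of_pos (Real.exp_pos _), Complex.norm_real, Real.norm_eq_abs,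
        abs_of_pos (Real.exp_pos _), ← mul_assoc, ← Real.exp_add]
      have : 1 ≤ Real.exp (-y + A * y) := by
        apply Real.one_le_exp
        have : (1 : ℝ) ≤ A := by exact_mod_cast hA
        nlinarith
      nlinarith [norm_nonneg (D 0)]
  rw [h3 x, h0, mul_zero]

end Pool.Agent.Lib.MP_f0c028_an
end

section

set_option autoImplicit false
namespace Pool.Agent.Lib.MP_f0c028_an

open MeasureTheory Real Set Filter Topology
open Finset (range)

theorem cc_top (a m s : ℕ) (hs : s < m) :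
    cc a (m + 1) s * (2 * (s:ℝ) - 2 * m) = cc a m s * (2 * a + 2 * s + 2 * m) := by
  obtain ⟨n, rfl⟩ : ∃ n, m = s + n + 1 := ⟨m - s - 1, by omega⟩
  unfold cc
  have h1 : s + n + 1 + 1 - 1 - s = n + 1 := by omega
  have h2 : s + n + 1 - 1 - s = n := by omega
  rw [h1, h2, Finset.prod_range_succ _ (s + n + 1), Nat.factorial_succ]
  have h3 : (s.factorial : ℝ) ≠ 0 := by exact_mod_cast Nat.factorial_ne_zero s
  have h4 : (n.factorial : ℝ) ≠ 0 := by exact_mod_cast Nat.factorial_ne_zero n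
  have h5 : ((n:ℝ) + 1) ≠ 0 := by positivity
  push_cast
  field_simp
  ring

theorem cc_bot (a m s : ℕ) (hs : s < m) :
    cc a (m + 1) (s + 1) * (2 * ((s:ℝ) + 1)) = cc (a + 2) m s * (2 * a + 2 * s + 2) := by
  obtain ⟨n, rfl⟩ : ∃ n, m = s + n + 1 := ⟨m - s - 1, by omega⟩
  unfold cc
  have h1 : s + n + 1 + 1 - 1 - (s + 1) = n := by omega
  have h2 : s + n + 1 - 1 - s = n := by omega
  rw [h1, h2, Finset.prod_range_succ' _ (s + n + 1), Nat.factorial_succ]
  have h3 : (s.factorial : ℝ) ≠ 0 := by exact_mod_cast Nat.factorial_ne_zero s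
  have h4 : (n.factorial : ℝ) ≠ 0 := by exact_mod_cast Nat.factorial_ne_zero n
  have h5 : ((s:ℝ) + 1) ≠ 0 := by positivity
  have h6 : ∏ k ∈ range (s + n + 1), ((a:ℝ) + ((s + 1 : ℕ):ℝ) + ((k + 1 : ℕ) : ℝ)) =
      ∏ l ∈ range (s + n + 1), (((a + 2 : ℕ) : ℝ) + s + l) := by
    apply Finset.prod_congr rfl
    intro k _
    push_cast
    ring
  rw [h6]
  push_cast
  field_simp
  ring

theorem sum_top (a m : ℕ) (E : ℝ → ℂ) :
    ∑ s ∈ range (m + 1), (cc a (m + 1) s : ℂ) * (((a:ℂ) + 2 * s - (a + 2 * m)) * E (a + 2 * s)) =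
    ∑ s ∈ range m, (cc a m s : ℂ) * (((a:ℂ) + 2 * s + (a + 2 * m)) * E (a + 2 * s)) := by
  rw [Finset.sum_range_succ]
  have h0 : ((a:ℂ) + 2 * m - (a + 2 * m)) = 0 := by ring
  rw [h0, zero_mul, mul_zero, add_zero]
  apply Finset.sum_congr rfl
  intro s hs
  have h := cc_top a m s (Finset.mem_range.mp hs)
  have h' : (cc a (m + 1) s : ℂ) * (2 * (s:ℂ) - 2 * m) = (cc a m s : ℂ) * (2 * a + 2 * s + 2 * m) := by
    exact_mod_cast h
  linear_combination (E (a + 2 * s)) * h'

theorem sum_bot (a m : ℕ) (E : ℝ → ℂ) :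
    ∑ s ∈ range (m + 1), (cc a (m + 1) s : ℂ) * (((a:ℂ) + 2 * s - a) * E (a + 2 * s)) =
    ∑ s ∈ range m, (cc (a + 2) m s : ℂ) *
      ((((a + 2 : ℕ):ℂ) + 2 * s + a) * E (((a + 2 : ℕ) : ℝ) + 2 * s)) := by
  rw [Finset.sum_range_succ']
  have h0 : ((a:ℂ) + 2 * ((0:ℕ):ℂ) - a) = 0 := by push_cast; ring
  rw [h0, zero_mul, mul_zero, add_zero]
  apply Finset.sum_congr rfl
  intro s hs
  have h := cc_bot a m s (Finset.mem_range.mp hs)
  have h' : (cc a (m + 1) (s + 1) : ℂ) * (2 * ((s:ℂ) + 1)) =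
      (cc (a + 2) m s : ℂ) * (2 * a + 2 * s + 2) := by
    exact_mod_cast h
  have h1 : ((a:ℝ) + 2 * ((s + 1 : ℕ) : ℝ)) = (((a + 2 : ℕ) : ℝ) + 2 * s) := by
    push_cast; ring
  rw [h1]
  push_cast
  linear_combination (E ((a:ℝ) + 2 + 2 * s)) * h'

/-- the expansion at a given stage -/
noncomputable def HH (e : ℝ) (a m : ℕ) (F0 : ℝ → ℂ) (x : ℝ) : ℂ :=
  F0 x + ∑ s ∈ range m, (cc a m s : ℂ) * EE e ((a:ℝ) + 2 * s) F0 x

theorem HH_zero (e : ℝ) (a : ℕ) (F0 : ℝ → ℂ) (x : ℝ) : HH e a 0 F0 x = F0 x := by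
  simp [HH]

section
variable {F0 : ℝ → ℂ} {d0 : ℝ → ℂ} (hd0 : ∀ x, HasDerivAt F0 (d0 x) x)
  {B : ℝ} (hB : ∀ x, ‖F0 x‖ ≤ B) (hbot0 : Tendsto F0 atBot (𝓝 0))
include hd0 hB

theorem HH_hasDerivAt (e : ℝ) (he : e = 1 ∨ e = -1) (a m : ℕ) (ha : 1 ≤ a) (x : ℝ) :
    HasDerivAt (HH e a m F0) (d0 x + ∑ s ∈ range m, (cc a m s : ℂ) *
      ((e:ℂ) * (((a:ℂ) + 2 * s) * EE e ((a:ℝ) + 2 * s) F0 x - F0 x))) x := by
  have hF0 : Continuous F0 := continuous_iff_continuousAt.mpr fun x => (hd0 x).continuousAt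
  unfold HH
  apply HasDerivAt.add (hd0 x)
  apply HasDerivAt.fun_sum
  intro s _
  apply HasDerivAt.const_mul
  have hpos : 0 < (a:ℝ) + 2 * s := by
    have : (1:ℝ) ≤ a := by exact_mod_cast ha
    positivity
  have := EE_hasDerivAt hpos hF0 hB e he x
  push_cast at this
  exact this

theorem HH_top (e : ℝ) (he : e = 1 ∨ e = -1) (a m : ℕ) (ha : 1 ≤ a) :
    Tendsto (fun x => ((Real.exp (-x) : ℝ) : ℂ) * HH e a m F0 x) atTop (𝓝 0) := by
  have hF0 : Continuous F0 := continuous_iff_continuousAt.mpr fun x => (hd0 x).continuousAt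
  have hexp : Tendsto (fun x : ℝ => Real.exp (-x)) atTop (𝓝 0) := Real.tendsto_exp_neg_atTop_nhds_zero
  have hbd : ∃ C, ∀ x, ‖HH e a m F0 x‖ ≤ C := by
    refine ⟨B + ∑ s ∈ range m, ‖(cc a m s : ℂ)‖ * (B / ((a:ℝ) + 2 * s)), fun x => ?_⟩
    unfold HH
    refine (norm_add_le _ _).trans (add_le_add (hB x) ((norm_sum_le _ _).trans ?_))
    apply Finset.sum_le_sum
    intro s _
    rw [norm_mul]
    have hpos : 0 < (a:ℝ) + 2 * s := by
      have : (1:ℝ) ≤ a := by exact_mod_cast ha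
      positivity
    exact mul_le_mul_of_nonneg_left (EE_bound hpos hF0 hB e x) (norm_nonneg _)
  obtain ⟨C, hC⟩ := hbd
  rw [tendsto_zero_iff_norm_tendsto_zero]
  apply squeeze_zero (g := fun x => Real.exp (-x) * C)
  · intro x; positivity
  · intro x
    rw [norm_mul, Complex.norm_real, Real.norm_eq_abs, abs_of_pos (Real.exp_pos _)]
    exact mul_le_mul_of_nonneg_left (hC x) (Real.exp_pos _).le
  · simpa using hexp.mul_const C

include hbot0
theorem HH_bot (e : ℝ) (he : e = 1 ∨ e = -1) (a m : ℕ) (ha : 1 ≤ a) :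
    Tendsto (HH e a m F0) atBot (𝓝 0) := by
  have hF0 : Continuous F0 := continuous_iff_continuousAt.mpr fun x => (hd0 x).continuousAt
  have h1 : Tendsto (fun x => ∑ s ∈ range m, (cc a m s : ℂ) * EE e ((a:ℝ) + 2 * s) F0 x) atBot
      (𝓝 (∑ s ∈ range m, (cc a m s : ℂ) * 0)) := by
    apply tendsto_finsetSum
    intro s _
    have hpos : 0 < (a:ℝ) + 2 * s := by
      have : (1:ℝ) ≤ a := by exact_mod_cast ha
      positivity
    exact (EE_tendsto_atBot hpos hF0 hB e hbot0).const_mul _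
  have h2 := hbot0.add h1
  have h3 : HH e a m F0 = fun x => F0 x + ∑ s ∈ range m, (cc a m s : ℂ) * EE e ((a:ℝ) + 2 * s) F0 x := rfl
  rw [h3]
  simpa using h2

theorem step_general (e : ℝ) (he : e = 1 ∨ e = -1) (A : ℤ) (an mn ao mo : ℕ) (han : 1 ≤ an)
    (hao : 1 ≤ ao)
    (hsum : ∑ s ∈ range mn, cc an mn s = ∑ s ∈ range mo, cc ao mo s - 2 * (e * A))
    (hid : ∀ E : ℝ → ℂ,
      ∑ s ∈ range mn, (cc an mn s : ℂ) * (((an:ℂ) + 2 * s - e * A) * E (an + 2 * s)) =
      ∑ s ∈ range mo, (cc ao mo s : ℂ) * (((ao:ℂ) + 2 * s + e * A) * E (ao + 2 * s)))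
    (Fj Fk dj dk : ℝ → ℂ) (hj : ∀ x, HasDerivAt Fj (dj x) x) (hk : ∀ x, HasDerivAt Fk (dk x) x)
    (hrel : ∀ x, dk x - A * Fk x = dj x + A * Fj x)
    (hexp : ∀ x, Fj x = HH e ao mo F0 x)
    (b1 : Tendsto Fk atBot (𝓝 0))
    (b2 : Tendsto (fun x => ((Real.exp (-x) : ℝ) : ℂ) * Fk x) atTop (𝓝 0)) (x : ℝ) :
    Fk x = HH e an mn F0 x := by
  have hee : (e:ℂ) * e = 1 := by rcases he with rfl | rfl <;> simp
  have hdj : ∀ x, dj x = d0 x + ∑ s ∈ range mo, (cc ao mo s : ℂ) *
      ((e:ℂ) * (((ao:ℂ) + 2 * s) * EE e ((ao:ℝ) + 2 * s) F0 x - F0 x)) := by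
    intro x
    have h1 := HH_hasDerivAt hd0 hB e he ao mo hao x
    have h2 : Fj = HH e ao mo F0 := funext hexp
    have h3 := hj x
    rw [h2] at h3
    exact h3.unique h1
  have hsumC : (∑ s ∈ range mn, (cc an mn s : ℂ)) = (∑ s ∈ range mo, (cc ao mo s : ℂ)) - 2 * (e * A) := by
    have := congrArg (fun r : ℝ => (r : ℂ)) hsum
    push_cast at this
    exact this
  have key : ∀ x, HasDerivAt (fun x => HH e an mn F0 x - Fk x) ((A:ℂ) * (HH e an mn F0 x - Fk x)) x := by
    intro x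
    have h1 := (HH_hasDerivAt hd0 hB e he an mn han x).sub (hk x)
    refine h1.congr_deriv ?_
    have h2 := hid (fun l => EE e l F0 x)
    have h3 : dk x = dj x + A * Fj x + A * Fk x := by linear_combination hrel x
    rw [h3, hdj x, hexp x]
    unfold HH
    have e1 : ∑ s ∈ range mn, (cc an mn s : ℂ) *
        ((e:ℂ) * (((an:ℂ) + 2 * s) * EE e ((an:ℝ) + 2 * s) F0 x - F0 x)) =
        e * (∑ s ∈ range mn, (cc an mn s : ℂ) * (((an:ℂ) + 2 * s - e * A) * EE e ((an:ℝ) + 2 * s) F0 x))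
        + A * ∑ s ∈ range mn, (cc an mn s : ℂ) * EE e ((an:ℝ) + 2 * s) F0 x
        - e * (∑ s ∈ range mn, (cc an mn s : ℂ)) * F0 x := by
      rw [Finset.mul_sum, Finset.mul_sum, Finset.mul_sum, Finset.sum_mul, ← Finset.sum_add_distrib,
        ← Finset.sum_sub_distrib]
      apply Finset.sum_congr rfl
      intro s _
      linear_combination ((cc an mn s : ℂ) * A * EE e ((an:ℝ) + 2 * s) F0 x) * hee
    have e2 : ∑ s ∈ range mo, (cc ao mo s : ℂ) *
        ((e:ℂ) * (((ao:ℂ) + 2 * s) * EE e ((ao:ℝ) + 2 * s) F0 x - F0 x)) =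
        e * (∑ s ∈ range mo, (cc ao mo s : ℂ) * (((ao:ℂ) + 2 * s + e * A) * EE e ((ao:ℝ) + 2 * s) F0 x))
        - A * ∑ s ∈ range mo, (cc ao mo s : ℂ) * EE e ((ao:ℝ) + 2 * s) F0 x
        - e * (∑ s ∈ range mo, (cc ao mo s : ℂ)) * F0 x := by
      rw [Finset.mul_sum, Finset.mul_sum, Finset.mul_sum, Finset.sum_mul, ← Finset.sum_sub_distrib,
        ← Finset.sum_sub_distrib]
      apply Finset.sum_congr rfl
      intro s _
      linear_combination (-(cc ao mo s : ℂ) * A * EE e ((ao:ℝ) + 2 * s) F0 x) * hee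
    rw [e1, e2, h2, hsumC]
    linear_combination (2 * A * F0 x) * hee
  have hb : Tendsto (fun x => HH e an mn F0 x - Fk x) atBot (𝓝 0) := by
    simpa using (HH_bot hd0 hB hbot0 e he an mn han).sub b1
  have ht : Tendsto (fun x => ((Real.exp (-x) : ℝ) : ℂ) * (HH e an mn F0 x - Fk x)) atTop (𝓝 0) := by
    have := (HH_top hd0 hB e he an mn han).sub b2
    simpa [mul_sub] using this
  have := eq_zero_of_ode A _ key hb ht x
  exact (sub_eq_zero.mp this).symm

end

end Pool.Agent.Lib.MP_f0c028_an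
end

section

set_option autoImplicit false

/-! Two algebraic identities for the radial kernel. -/

namespace Pool.Agent.Lib.MP_f0c028_an

open Finset

/-- iterated forward difference of the rising factorial -/
private theorem fwd_rising (m : ℕ) (x : ℝ) :
    (fwdDiff (1 : ℝ))^[m] (fun y : ℝ => ∏ l ∈ range (m + 1), (y + l)) x
      = ((m + 1).factorial : ℝ) * (x + m) := by
  induction m generalizing x with
  | zero => simp
  | succ m ih =>
    rw [Function.iterate_succ_apply]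
    have h1 : fwdDiff (1 : ℝ) (fun y : ℝ => ∏ l ∈ range (m + 1 + 1), (y + l))
        = ((m : ℝ) + 2) • (fun y : ℝ => (fun y : ℝ => ∏ l ∈ range (m + 1), (y + l)) (y + 1)) := by
      funext y
      simp only [fwdDiff, Pi.smul_apply, smul_eq_mul]
      rw [Finset.prod_range_succ (fun l : ℕ => (y + 1 + (l : ℝ))) (m + 1),
        Finset.prod_range_succ' (fun l : ℕ => (y + (l : ℝ))) (m + 1)]
      have h2 : ∏ k ∈ range (m + 1), (y + ((k + 1 : ℕ) : ℝ)) = ∏ k ∈ range (m + 1), (y + 1 + (k : ℝ)) := by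
        refine Finset.prod_congr rfl fun k _ => ?_
        push_cast
        ring
      rw [h2]
      push_cast
      ring
    rw [h1, fwdDiff_iter_const_smul]
    have h3 : (fwdDiff (1 : ℝ))^[m]
        (fun y : ℝ => (fun y : ℝ => ∏ l ∈ range (m + 1), (y + l)) (y + 1)) x
        = (fwdDiff (1 : ℝ))^[m] (fun y : ℝ => ∏ l ∈ range (m + 1), (y + l)) (x + 1) :=
      fwdDiff_iter_comp_add (1 : ℝ) (fun y : ℝ => ∏ l ∈ range (m + 1), (y + (l : ℝ))) 1 m x
    rw [Pi.smul_apply, smul_eq_mul, h3, ih]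
    rw [Nat.factorial_succ (m + 1)]
    push_cast
    ring

/-- sum of the coefficients -/
theorem sum_cc (a m : ℕ) : ∑ s ∈ range m, cc a m s = -2 * m * ((a : ℝ) + m - 1) := by
  rcases m with _ | m
  · simp
  · have h := fwd_rising m (a : ℝ)
    rw [fwdDiff_iter_eq_sum_shift] at h
    have hf : (m.factorial : ℝ) ≠ 0 := by positivity
    have h2 : ∑ s ∈ range (m + 1), cc a (m + 1) s
        = -2 / (m.factorial : ℝ) * ∑ k ∈ range (m + 1), (((-1 : ℤ) ^ (m - k) * (m.choose k : ℤ)) •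
          ∏ l ∈ range (m + 1), ((a : ℝ) + k • (1 : ℝ) + l)) := by
      rw [Finset.mul_sum]
      refine Finset.sum_congr rfl fun s hs => ?_
      have hs' : s ≤ m := Nat.lt_succ_iff.mp (Finset.mem_range.mp hs)
      unfold cc
      rw [zsmul_eq_mul]
      push_cast
      rw [Nat.cast_choose ℝ hs']
      have hsg : (-1 : ℝ) ^ (m + 1 + s) = - (-1) ^ (m - s) := by
        obtain ⟨k, rfl⟩ := Nat.exists_eq_add_of_le hs'
        rw [Nat.add_sub_cancel_left]
        have : s + k + 1 + s = k + 1 + 2 * s := by ring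
        rw [this, pow_add, pow_mul, pow_succ]
        simp
      rw [hsg]
      have h3 : ∏ l ∈ range (m + 1), ((a : ℝ) + s • (1 : ℝ) + l)
          = ∏ l ∈ range (m + 1), ((a : ℝ) + s + l) := by
        refine Finset.prod_congr rfl fun l _ => ?_
        simp
      rw [h3]
      have hf1 : (s.factorial : ℝ) ≠ 0 := by positivity
      have hf2 : ((m - s).factorial : ℝ) ≠ 0 := by positivity
      field_simp
    rw [h2, h, Nat.factorial_succ]
    push_cast
    field_simp
    ring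

private theorem rising_eq (b n : ℕ) :
    (∏ l ∈ range n, ((b : ℝ) + 1 + l)) * (b.factorial : ℝ) = ((b + n).factorial : ℝ) := by
  induction n with
  | zero => simp
  | succ n ih =>
    rw [Finset.prod_range_succ, ← Nat.add_assoc, Nat.factorial_succ]
    push_cast
    rw [← ih]
    ring

private theorem dd_eq (a n s : ℕ) (ha : 1 ≤ a) (hs : s ≤ n + 1) :
    dd a (n + 1) s = (-1) ^ (n + 1 + s) * ((n : ℝ) + 1) * ((a : ℝ) + n) *
      (∏ l ∈ range n, ((a : ℝ) + s + l)) / ((s.factorial : ℝ) * ((n + 1 - s).factorial : ℝ)) := by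
  obtain ⟨b, rfl⟩ := Nat.exists_eq_add_of_le' ha
  obtain ⟨k, hk⟩ := Nat.exists_eq_add_of_le hs
  unfold dd
  have e1 : b + 1 + (n + 1) - 1 = b + s + k := by omega
  have e2 : b + 1 + (n + 1) - 2 + s = b + n + s := by omega
  have e3 : n + 1 - s = k := by omega
  rw [e1, e2, e3]
  have c1 : ((b + s + k).choose k : ℝ) = ((b + s + k).factorial : ℝ) /
      ((k.factorial : ℝ) * ((b + s).factorial : ℝ)) := by
    rw [Nat.cast_choose ℝ (Nat.le_add_left _ _), Nat.add_sub_cancel]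
  have c2 : ((b + n + s).choose s : ℝ) = ((b + n + s).factorial : ℝ) /
      ((s.factorial : ℝ) * ((b + n).factorial : ℝ)) := by
    rw [Nat.cast_choose ℝ (Nat.le_add_left _ _), Nat.add_sub_cancel]
  have c3 : ∏ l ∈ range n, (((b + 1 : ℕ) : ℝ) + s + l) = ((b + n + s).factorial : ℝ) /
      ((b + s).factorial : ℝ) := by
    rw [eq_div_iff (by positivity)]
    have := rising_eq (b + s) n
    rw [show b + s + n = b + n + s by ring] at this
    rw [← this]
    congr 1
    refine Finset.prod_congr rfl fun l _ => ?_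
    push_cast
    ring
  have c4 : ((b + s + k).factorial : ℝ) = ((b : ℝ) + 1 + n) * ((b + n).factorial : ℝ) := by
    have : b + s + k = (b + n) + 1 := by omega
    rw [this, Nat.factorial_succ]
    push_cast
    ring
  rw [c1, c2, c3, c4]
  push_cast
  field_simp

/-- `sinh t · kap` as an exponential sum -/
theorem sinh_mul_kap (a m : ℕ) (ha : 1 ≤ a) (hm : 1 ≤ m) (t : ℝ) :
    Real.sinh t * kap a m t =
      ∑ s ∈ range (m + 1), dd a m s * Real.exp (-(((a : ℝ) - 1 + 2 * s) * t)) := by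
  obtain ⟨n, rfl⟩ := Nat.exists_eq_add_of_le' hm
  set E : ℕ → ℝ := fun s => Real.exp (-(((a : ℝ) - 1 + 2 * s) * t)) with hE
  set A : ℕ → ℝ := fun s => (-1) ^ (n + 1 + s) * (∏ l ∈ range (n + 1), ((a : ℝ) + s + l)) *
    ((n : ℝ) + 1 - s) / ((s.factorial : ℝ) * ((n + 1 - s).factorial : ℝ)) with hA
  set B : ℕ → ℝ := fun s => (-1) ^ (n + 1 + s) *
    (((a : ℝ) + s - 1) * ∏ l ∈ range n, ((a : ℝ) + s + l)) * s /
      ((s.factorial : ℝ) * ((n + 1 - s).factorial : ℝ)) with hB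
  have hL : Real.sinh t * kap a (n + 1) t
      = ∑ s ∈ range (n + 1), (cc a (n + 1) s / 2 * E s) +
        ∑ s ∈ range (n + 1), (-(cc a (n + 1) s / 2) * E (s + 1)) := by
    rw [← Finset.sum_add_distrib]
    unfold kap
    rw [Finset.mul_sum]
    refine Finset.sum_congr rfl fun s _ => ?_
    have e1 : E s = Real.exp t * Real.exp (-(((a : ℝ) + 2 * s) * t)) := by
      rw [← Real.exp_add]
      simp only [hE]
      congr 1
      ring
    have e2 : E (s + 1) = Real.exp (-t) * Real.exp (-(((a : ℝ) + 2 * s) * t)) := by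
      rw [← Real.exp_add]
      simp only [hE]
      congr 1
      push_cast
      ring
    rw [e1, e2, Real.sinh_eq]
    ring
  have h1 : ∑ s ∈ range (n + 1), (cc a (n + 1) s / 2 * E s) = ∑ s ∈ range (n + 1 + 1), A s * E s := by
    rw [Finset.sum_range_succ _ (n + 1)]
    have hz : A (n + 1) = 0 := by
      simp only [hA]
      push_cast
      simp
    rw [hz, zero_mul, add_zero]
    refine Finset.sum_congr rfl fun s hs => ?_
    have hs' : s ≤ n := Nat.lt_succ_iff.mp (Finset.mem_range.mp hs)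
    congr 1
    simp only [hA, cc]
    rw [Nat.add_sub_cancel, show n + 1 - s = (n - s) + 1 by omega, Nat.factorial_succ]
    have : ((n : ℝ) + 1 - s) = ((n - s : ℕ) : ℝ) + 1 := by
      rw [Nat.cast_sub hs']
      ring
    rw [this]
    push_cast
    have h0 : ((n - s : ℕ) : ℝ) + 1 ≠ 0 := by positivity
    have hf1 : (s.factorial : ℝ) ≠ 0 := by positivity
    have hf2 : ((n - s).factorial : ℝ) ≠ 0 := by positivity
    field_simp
  have h2 : ∑ s ∈ range (n + 1), (-(cc a (n + 1) s / 2) * E (s + 1))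
      = ∑ s ∈ range (n + 1 + 1), B s * E s := by
    rw [Finset.sum_range_succ' _ (n + 1)]
    have hz : B 0 = 0 := by
      simp only [hB]
      simp
    rw [hz, zero_mul, add_zero]
    refine Finset.sum_congr rfl fun s hs => ?_
    have hs' : s ≤ n := Nat.lt_succ_iff.mp (Finset.mem_range.mp hs)
    congr 1
    simp only [hB, cc]
    rw [Nat.add_sub_cancel, show n + 1 - (s + 1) = n - s by omega, Nat.factorial_succ,
      Finset.prod_range_succ' _ n]
    have hp : ∏ k ∈ range n, ((a : ℝ) + s + ((k + 1 : ℕ) : ℝ))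
        = ∏ l ∈ range n, ((a : ℝ) + ((s + 1 : ℕ) : ℝ) + l) := by
      refine Finset.prod_congr rfl fun k _ => ?_
      push_cast
      ring
    rw [hp, show n + 1 + (s + 1) = n + 1 + s + 1 by ring, pow_succ (-1 : ℝ) (n + 1 + s)]
    push_cast
    have h0 : (s : ℝ) + 1 ≠ 0 := by positivity
    have hf1 : (s.factorial : ℝ) ≠ 0 := by positivity
    have hf2 : ((n - s).factorial : ℝ) ≠ 0 := by positivity
    field_simp
    ring
  rw [hL, h1, h2, ← Finset.sum_add_distrib]
  refine Finset.sum_congr rfl fun s hs => ?_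
  have hs' : s ≤ n + 1 := Nat.lt_succ_iff.mp (Finset.mem_range.mp hs)
  rw [dd_eq a n s ha hs', ← add_mul]
  congr 1
  simp only [hA, hB]
  rw [Finset.prod_range_succ]
  ring

end Pool.Agent.Lib.MP_f0c028_an
end

section

set_option autoImplicit false
namespace Pool.Agent.Lib.MP_f0c028_an

open MeasureTheory Real Set Filter Topology
open Finset (range)

/-- the chain of first order equations is solved by the one-sided kernels -/
theorem chain (k : ℤ) (F dF : ℕ → ℝ → ℂ) (hd : ∀ j x, HasDerivAt (F j) (dF j x) x)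
    (hrel : ∀ (j : ℕ) (x : ℝ), dF (j + 1) x - ((k - 1 - 2 * j : ℤ) : ℂ) * F (j + 1) x =
      dF j x + ((k - 1 - 2 * j : ℤ) : ℂ) * F j x)
    (hbot : ∀ j, Tendsto (F j) atBot (𝓝 0))
    (htop : ∀ j, Tendsto (fun x => ((Real.exp (-x) : ℝ) : ℂ) * F j x) atTop (𝓝 0))
    {B : ℝ} (hB : ∀ x, ‖F 0 x‖ ≤ B) (j : ℕ) :
    ∃ (e : ℝ) (a m : ℕ), (e = 1 ∨ e = -1) ∧ 1 ≤ a ∧ m ≤ j ∧ ∀ x, F j x = HH e a m (F 0) x := by
  have step := fun (e : ℝ) (he : e = 1 ∨ e = -1) (A : ℤ) (an mn ao mo : ℕ) (han : 1 ≤ an)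
    (hao : 1 ≤ ao) => step_general (hd 0) hB (hbot 0) e he A an mn ao mo han hao
  -- the three kinds of steps
  have topS : ∀ (e : ℝ) (he : e = 1 ∨ e = -1) (a m i : ℕ) (ha : 1 ≤ a)
      (hA : e * ((k - 1 - 2 * i : ℤ) : ℝ) = a + 2 * m) (hi : ∀ x, F i x = HH e a m (F 0) x),
      ∀ x, F (i + 1) x = HH e a (m + 1) (F 0) x := by
    intro e he a m i ha hA hi x
    have hA' : (e:ℂ) * ((k - 1 - 2 * i : ℤ) : ℂ) = a + 2 * m := by
      have := congrArg (fun r : ℝ => (r : ℂ)) hA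
      push_cast at this ⊢
      exact this
    refine step e he (k - 1 - 2 * i) a (m + 1) a m ha ha ?_ ?_ (F i) (F (i+1)) (dF i) (dF (i+1))
      (hd i) (hd (i+1)) (hrel i) hi (hbot _) (htop _) x
    · rw [hA, sum_cc, sum_cc]; push_cast; ring
    · intro E
      rw [hA']
      exact sum_top a m E
  have botS : ∀ (e : ℝ) (he : e = 1 ∨ e = -1) (a m i : ℕ) (ha : 1 ≤ a)
      (hA : e * ((k - 1 - 2 * i : ℤ) : ℝ) = a) (hi : ∀ x, F i x = HH e (a + 2) m (F 0) x),
      ∀ x, F (i + 1) x = HH e a (m + 1) (F 0) x := by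
    intro e he a m i ha hA hi x
    have hA' : (e:ℂ) * ((k - 1 - 2 * i : ℤ) : ℂ) = a := by
      have := congrArg (fun r : ℝ => (r : ℂ)) hA
      push_cast at this ⊢
      exact this
    refine step e he (k - 1 - 2 * i) a (m + 1) (a + 2) m ha (by omega) ?_ ?_ (F i) (F (i+1)) (dF i) (dF (i+1))
      (hd i) (hd (i+1)) (hrel i) hi (hbot _) (htop _) x
    · rw [hA, sum_cc, sum_cc]; push_cast; ring
    · intro E
      rw [hA']
      exact sum_bot a m E
  have remS : ∀ (e : ℝ) (he : e = 1 ∨ e = -1) (a m i : ℕ) (ha : 1 ≤ a)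
      (hA : e * ((k - 1 - 2 * i : ℤ) : ℝ) = -a) (hi : ∀ x, F i x = HH e a (m + 1) (F 0) x),
      ∀ x, F (i + 1) x = HH e (a + 2) m (F 0) x := by
    intro e he a m i ha hA hi x
    have hA' : (e:ℂ) * ((k - 1 - 2 * i : ℤ) : ℂ) = -a := by
      have := congrArg (fun r : ℝ => (r : ℂ)) hA
      push_cast at this ⊢
      exact this
    refine step e he (k - 1 - 2 * i) (a + 2) m a (m + 1) (by omega) ha ?_ ?_ (F i) (F (i+1)) (dF i) (dF (i+1))
      (hd i) (hd (i+1)) (hrel i) hi (hbot _) (htop _) x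
    · rw [hA, sum_cc, sum_cc]; push_cast; ring
    · intro E
      rw [hA']
      have := sum_bot a m E
      simp only [sub_neg_eq_add, ← sub_eq_add_neg]
      exact this.symm
  have zeroS : ∀ (i : ℕ) (hA : (k - 1 - 2 * i : ℤ) = 0), ∀ x, F (i + 1) x = F i x := by
    intro i hA x
    have h1 : ∀ x, HasDerivAt (fun x => F (i + 1) x - F i x)
        (((0:ℤ) : ℂ) * (F (i + 1) x - F i x)) x := by
      intro x
      refine ((hd (i+1) x).sub (hd i x)).congr_deriv ?_
      have := hrel i x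
      rw [hA] at this
      linear_combination this
    have h2 := eq_zero_of_ode 0 _ h1 (by simpa using (hbot (i+1)).sub (hbot i))
      (by simpa [mul_sub] using (htop (i+1)).sub (htop i)) x
    exact sub_eq_zero.mp h2
  -- the invariant
  have inv : ∀ j : ℕ,
      (k ≤ 0 ∧ ∃ a : ℕ, (a:ℤ) = 1 - k ∧ ∀ x, F j x = HH (-1) a j (F 0) x) ∨
      (1 ≤ k ∧ 2 * (j:ℤ) ≤ k ∧ ∃ a : ℕ, (a:ℤ) = k + 1 - 2 * j ∧ ∀ x, F j x = HH 1 a j (F 0) x) ∨
      (1 ≤ k ∧ k < 2 * (j:ℤ) ∧ (j:ℤ) ≤ k ∧ ∃ a m : ℕ, (a:ℤ) = 2 * j - k + 1 ∧ (m:ℤ) = k - j ∧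
        ∀ x, F j x = HH 1 a m (F 0) x) ∨
      (1 ≤ k ∧ k < (j:ℤ) ∧ ∃ a m : ℕ, (a:ℤ) = k + 1 ∧ (m:ℤ) = j - k ∧
        ∀ x, F j x = HH (-1) a m (F 0) x) := by
    intro j
    induction j with
    | zero =>
      rcases le_or_gt k 0 with hk | hk
      · left
        refine ⟨hk, (1 - k).toNat, by omega, fun x => ?_⟩
        rw [HH_zero]
      · right; left
        refine ⟨by omega, by push_cast; omega, (k + 1).toNat, by push_cast; omega, fun x => ?_⟩
        rw [HH_zero]
    | succ i ih =>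
      rcases ih with ⟨hk, a, ha, hi⟩ | ⟨hk, hik, a, ha, hi⟩ | ⟨hk, hik, hik2, a, m, ha, hm, hi⟩ |
        ⟨hk, hik, a, m, ha, hm, hi⟩
      · left
        refine ⟨hk, a, ha, topS (-1) (Or.inr rfl) a i i (by omega) ?_ hi⟩
        have : (a:ℝ) = 1 - k := by exact_mod_cast ha
        push_cast
        linarith
      · right
        -- phase 1
        by_cases h1 : 2 * ((i:ℤ) + 1) ≤ k
        · left
          refine ⟨hk, by push_cast; exact h1, a - 2, by push_cast; omega, ?_⟩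
          obtain ⟨b, rfl⟩ : ∃ b, a = b + 2 := ⟨a - 2, by omega⟩
          have hb : b + 2 - 2 = b := by omega
          rw [hb]
          refine botS 1 (Or.inl rfl) b i i (by omega) ?_ hi
          have : ((b + 2 : ℕ):ℝ) = k + 1 - 2 * i := by exact_mod_cast ha
          push_cast at this ⊢
          linarith
        · right; left
          refine ⟨hk, by push_cast; omega, by push_cast; omega, ?_⟩
          by_cases h2 : k = 2 * i + 1
          · -- A = 0
            refine ⟨a, i, by push_cast; omega, by push_cast; omega, fun x => ?_⟩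
            rw [zeroS i (by omega) x]
            exact hi x
          · have h3 : k = 2 * i := by omega
            obtain ⟨n, rfl⟩ : ∃ n, i = n + 1 := ⟨i - 1, by omega⟩
            refine ⟨a + 2, n, by push_cast at *; omega, by push_cast at *; omega, ?_⟩
            refine remS 1 (Or.inl rfl) a n (n+1) (by omega) ?_ hi
            have h4 : (a:ℝ) = k + 1 - 2 * ((n + 1 : ℕ):ℝ) := by exact_mod_cast ha
            have h5 : (k:ℝ) = 2 * ((n + 1 : ℕ):ℝ) := by exact_mod_cast h3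
            push_cast at h4 h5 ⊢
            linarith
      · right
        -- phase 2
        by_cases h1 : ((i:ℤ) + 1) ≤ k
        · right; left
          refine ⟨hk, by push_cast; omega, by push_cast; omega, ?_⟩
          obtain ⟨n, rfl⟩ : ∃ n, m = n + 1 := ⟨m - 1, by omega⟩
          refine ⟨a + 2, n, by push_cast; omega, by push_cast at *; omega, ?_⟩
          refine remS 1 (Or.inl rfl) a n i (by omega) ?_ hi
          have h4 : (a:ℝ) = 2 * i - k + 1 := by exact_mod_cast ha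
          push_cast
          linarith
        · right; right
          have h0 : (i:ℤ) = k := by omega
          have hm0 : m = 0 := by omega
          subst hm0
          refine ⟨hk, by push_cast; omega, (k + 1).toNat, 1, by omega, by push_cast; omega, ?_⟩
          refine topS (-1) (Or.inr rfl) (k+1).toNat 0 i (by omega) ?_ ?_
          · have h6 : (((k + 1).toNat : ℤ) : ℝ) = k + 1 := by
              have : (((k + 1).toNat : ℤ)) = k + 1 := by omega
              exact_mod_cast this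
            have h7 : ((k + 1).toNat : ℝ) = k + 1 := by exact_mod_cast h6
            have h8 : (i:ℝ) = k := by exact_mod_cast h0
            rw [h7]
            push_cast
            linarith
          · intro x
            rw [hi x, HH_zero, HH_zero]
      · right; right; right
        refine ⟨hk, by push_cast; omega, a, m + 1, ha, by push_cast; omega, ?_⟩
        refine topS (-1) (Or.inr rfl) a m i (by omega) ?_ hi
        have h4 : (a:ℝ) = k + 1 := by exact_mod_cast ha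
        have h5 : (m:ℝ) = i - k := by exact_mod_cast hm
        push_cast
        linarith
  rcases inv j with ⟨hk, a, ha, hi⟩ | ⟨hk, hik, a, ha, hi⟩ | ⟨hk, hik, hik2, a, m, ha, hm, hi⟩ |
        ⟨hk, hik, a, m, ha, hm, hi⟩
  · exact ⟨-1, a, j, Or.inr rfl, by omega, le_refl _, hi⟩
  · exact ⟨1, a, j, Or.inl rfl, by omega, le_refl _, hi⟩
  · exact ⟨1, a, m, Or.inl rfl, by omega, by omega, hi⟩
  · exact ⟨-1, a, m, Or.inr rfl, by omega, by omega, hi⟩

/-- pointwise domination by the kernel -/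
theorem HH_bound {e : ℝ} {a m : ℕ} (ha : 1 ≤ a) {F0 : ℝ → ℂ} (hF0 : Continuous F0) {B : ℝ}
    (hB : ∀ x, ‖F0 x‖ ≤ B) (x : ℝ) :
    ‖HH e a m F0 x‖ₑ ≤ ‖F0 x‖ₑ + ∫⁻ t in Ioi 0, ENNReal.ofReal |kap a m t| * ‖F0 (x + e * t)‖ₑ := by
  have hpos : ∀ s : ℕ, 0 < (a:ℝ) + 2 * s := by
    intro s
    have : (1:ℝ) ≤ a := by exact_mod_cast ha
    positivity
  have h1 : HH e a m F0 x = F0 x + ∫ t in Ioi (0:ℝ), ((kap a m t : ℝ) : ℂ) * F0 (x + e * t) := by
    unfold HH
    congr 1
    unfold EE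
    simp_rw [← integral_const_mul]
    rw [← integral_finset_sum]
    · apply setIntegral_congr_fun measurableSet_Ioi
      intro t _
      simp only [kap]
      push_cast
      rw [Finset.sum_mul]
      apply Finset.sum_congr rfl
      intro s _
      ring
    · intro s _
      exact (EE_integrable (hpos s) hF0 hB e x).const_mul _
  rw [h1]
  refine (enorm_add_le _ _).trans (add_le_add le_rfl ?_)
  refine (enorm_integral_le_lintegral_enorm _).trans (le_of_eq ?_)
  congr 1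
  funext t
  rw [enorm_mul]
  congr 1
  rw [← ofReal_norm_eq_enorm, Complex.norm_real, Real.norm_eq_abs]

end Pool.Agent.Lib.MP_f0c028_an
end

section

set_option autoImplicit false
namespace Pool.Agent.Lib.MP_f0c028_an

open Finset

/-- Taylor coefficients of `((z - q) / (1 - q z)) ^ N`, `N = k + 1` -/
noncomputable def tc (k : ℕ) (q : ℝ) (n : ℕ) : ℂ :=
  ∑ ij ∈ HasAntidiagonal.antidiagonal n,
    (((k + 1).choose ij.1 : ℂ) * (-(q : ℂ)) ^ (k + 1 - ij.1)) *
    (((ij.2 + k).choose k : ℂ) * (q : ℂ) ^ ij.2)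

theorem tc_hasSum (k : ℕ) (q : ℝ) (z : ℂ) (hz : ‖(q : ℂ) * z‖ < 1) :
    HasSum (fun n => z ^ n • tc k q n) ((z - q) ^ (k + 1) * (1 / (1 - q * z) ^ (k + 1))) := by
  have h1 : HasSum (fun j => ((k + 1).choose j : ℂ) * (-(q : ℂ)) ^ (k + 1 - j) * z ^ j)
      ((z - q) ^ (k + 1)) := by
    have h2 : (z - q) ^ (k + 1) = ∑ j ∈ range (k + 1 + 1),
        ((k + 1).choose j : ℂ) * (-(q : ℂ)) ^ (k + 1 - j) * z ^ j := by
      rw [sub_eq_add_neg, add_pow]
      refine Finset.sum_congr rfl fun j _ => ?_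
      ring
    rw [h2]
    refine hasSum_sum_of_ne_finset_zero fun j hj => ?_
    rw [Finset.mem_range, not_lt] at hj
    rw [Nat.choose_eq_zero_of_lt (by omega)]
    simp
  have h3 : HasSum (fun n => ((n + k).choose k : ℂ) * ((q : ℂ) * z) ^ n)
      (1 / (1 - q * z) ^ (k + 1)) := hasSum_choose_mul_geometric_of_norm_lt_one k hz
  have h1n : Summable fun j => ‖((k + 1).choose j : ℂ) * (-(q : ℂ)) ^ (k + 1 - j) * z ^ j‖ :=
    h1.summable.norm
  have h3n : Summable fun n => ‖((n + k).choose k : ℂ) * ((q : ℂ) * z) ^ n‖ := h3.summable.norm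
  have h4 := (summable_norm_sum_mul_antidiagonal_of_summable_norm h1n h3n).of_norm.hasSum
  rw [← tsum_mul_tsum_eq_tsum_sum_antidiagonal_of_summable_norm h1n h3n, h1.tsum_eq,
    h3.tsum_eq] at h4
  have h5 : (fun n => z ^ n • tc k q n) = fun n => ∑ kl ∈ HasAntidiagonal.antidiagonal n,
      ((k + 1).choose kl.1 : ℂ) * (-(q : ℂ)) ^ (k + 1 - kl.1) * z ^ kl.1 *
        (((kl.2 + k).choose k : ℂ) * ((q : ℂ) * z) ^ kl.2) := by
    funext n
    rw [smul_eq_mul]
    unfold tc
    rw [Finset.mul_sum]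
    refine Finset.sum_congr rfl fun ij hij => ?_
    rw [← HasAntidiagonal.mem_antidiagonal.mp hij, mul_pow, pow_add]
    ring
  rw [h5]
  exact h4

/-- Cauchy bound for the coefficients -/
theorem tc_bound (k : ℕ) (q r M : ℝ) (hq0 : 0 < q) (hr : 0 < r) (hqr : q * r < 1)
    (hM : ∀ z : ℂ, ‖z‖ = r → ‖(z - q) ^ (k + 1) * (1 / (1 - q * z) ^ (k + 1))‖ ≤ M) (n : ℕ) :
    ‖tc k q n‖ ≤ M / r ^ n := by
  set F : ℂ → ℂ := fun z => (z - q) ^ (k + 1) * (1 / (1 - q * z) ^ (k + 1)) with hF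
  have hne : ∀ z : ℂ, ‖z‖ ≤ r → (1 - q * z : ℂ) ≠ 0 := by
    intro z hz h0
    have h1 : ‖(q : ℂ) * z‖ = 1 := by
      rw [sub_eq_zero] at h0
      rw [← h0, norm_one]
    rw [norm_mul, Complex.norm_real, Real.norm_of_nonneg hq0.le] at h1
    nlinarith
  have hd : DifferentiableOn ℂ F (Metric.closedBall 0 r) := by
    intro z hz
    have hz' : ‖z‖ ≤ r := by simpa using hz
    have := hne z hz'
    refine DifferentiableAt.differentiableWithinAt ?_
    rw [hF]
    fun_prop (disch := exact pow_ne_zero _ this)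
  lift r to NNReal using hr.le
  have hp := hd.hasFPowerSeriesOnBall (by exact_mod_cast hr)
  have hcoef : (cauchyPowerSeries F 0 r) = FormalMultilinearSeries.ofScalars ℂ (tc k q) := by
    refine HasFPowerSeriesAt.eq_formalMultilinearSeries hp.hasFPowerSeriesAt ?_
    rw [hasFPowerSeriesAt_iff]
    have h1 : ∀ᶠ z : ℂ in nhds 0, ‖(q : ℂ) * z‖ < 1 := by
      have : Continuous fun z : ℂ => ‖(q : ℂ) * z‖ := by fun_prop
      have h2 := this.tendsto 0
      simp only [mul_zero, norm_zero] at h2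
      exact h2.eventually (gt_mem_nhds one_pos)
    filter_upwards [h1] with z hz
    rw [zero_add, hF]
    have := tc_hasSum k q z hz
    simpa only [FormalMultilinearSeries.coeff_ofScalars] using this
  have hb := norm_cauchyPowerSeries_le F 0 r n
  rw [hcoef] at hb
  have hint : ∫ θ in (0 : ℝ)..2 * Real.pi, ‖F (circleMap 0 r θ)‖ ≤ 2 * Real.pi * M := by
    have h2 : ∫ θ in (0 : ℝ)..2 * Real.pi, ‖F (circleMap 0 r θ)‖ ≤
        ∫ θ in (0 : ℝ)..2 * Real.pi, M := by
      refine intervalIntegral.integral_mono_on (by positivity) ?_ (by simp) ?_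
      · refine ContinuousOn.intervalIntegrable ?_
        refine ContinuousOn.norm ?_
        refine hd.continuousOn.comp (continuous_circleMap 0 r).continuousOn ?_
        intro θ _
        simp [circleMap]
      · intro θ _
        refine hM _ ?_
        simp [circleMap]
    refine h2.trans ?_
    rw [intervalIntegral.integral_const]
    simp
  have hM0 : 0 ≤ M := (norm_nonneg _).trans (hM (r : ℂ) (by simp))
  have hpi := Real.pi_pos
  have h5 : ‖(FormalMultilinearSeries.ofScalars ℂ (tc k q) : FormalMultilinearSeries ℂ ℂ ℂ) n‖ = ‖tc k q n‖ := by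
    rw [FormalMultilinearSeries.norm_apply_eq_norm_coef, FormalMultilinearSeries.coeff_ofScalars]
  rw [h5] at hb
  refine hb.trans ?_
  rw [abs_of_pos hr, div_eq_mul_inv, inv_pow]
  gcongr
  calc (2 * Real.pi)⁻¹ * ∫ θ in (0 : ℝ)..2 * Real.pi, ‖F (circleMap 0 r θ)‖ ≤
      (2 * Real.pi)⁻¹ * (2 * Real.pi * M) := by gcongr
    _ = M := by field_simp

/-- The identity `|1 - q z|² - |z - q|² = (1 - q²) (1 - |z|²)`. -/
theorem blaschke_id (q : ℝ) (z : ℂ) :
    ‖1 - q * z‖ ^ 2 - ‖z - q‖ ^ 2 = (1 - q ^ 2) * (1 - ‖z‖ ^ 2) := by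
  rw [← Complex.normSq_eq_norm_sq, ← Complex.normSq_eq_norm_sq, ← Complex.normSq_eq_norm_sq]
  simp [Complex.normSq_apply]
  ring

/-- relation between `sinh t · kap` and the Taylor coefficients -/
theorem sinh_kap_tc (a m : ℕ) (ha : 1 ≤ a) (hm : 1 ≤ m) (t : ℝ) :
    ((Real.sinh t * kap a m t : ℝ) : ℂ) =
      m * (-1) ^ (a + m - 1) * tc (a + m - 2) (Real.exp (-t)) m := by
  rw [sinh_mul_kap a m ha hm t]
  unfold tc
  rw [← Finset.Nat.sum_antidiagonal_swap, Finset.Nat.sum_antidiagonal_eq_sum_range_succ_mk,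
    Finset.mul_sum, Complex.ofReal_sum]
  refine Finset.sum_congr rfl fun s hs => ?_
  have hsm : s ≤ m := by
    have := Finset.mem_range.mp hs
    omega
  obtain ⟨b, rfl⟩ := Nat.exists_eq_add_of_le' ha
  obtain ⟨u, rfl⟩ := Nat.exists_eq_add_of_le hsm
  simp only [dd, Prod.swap]
  have e1 : b + 1 + (s + u) - 1 = b + s + u := by omega
  have e2 : b + 1 + (s + u) - 2 + 1 = b + s + u := by omega
  have e3 : s + u - s = u := by omega
  have e4 : b + s + u - u = b + s := by omega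
  have e5 : b + 1 + (s + u) - 2 + s = s + (b + 1 + (s + u) - 2) := by omega
  rw [e1, e2, e3, e4, e5, Nat.choose_symm_add]
  have e6 : Real.exp (-((((b + 1 : ℕ) : ℝ) - 1 + 2 * s) * t)) = Real.exp (-t) ^ (b + 2 * s) := by
    rw [← Real.exp_nat_mul]
    congr 1
    push_cast
    ring
  rw [e6]
  have e7 : (-1 : ℂ) ^ (s + u + s) = (-1) ^ (b + s + u) * (-1) ^ (b + s) := by
    rw [← pow_add, show b + s + u + (b + s) = 2 * b + (s + u + s) by ring, pow_add _ (2 * b),
      pow_mul]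
    simp
  push_cast
  rw [e7, neg_pow ((Complex.exp (-t) : ℂ)) (b + s), pow_add (Complex.exp (-t) : ℂ) b (2 * s),
    pow_add (Complex.exp (-t) : ℂ) b s, two_mul, pow_add (Complex.exp (-t) : ℂ) s s]
  ring

theorem norm_blaschke_pow (q : ℝ) (z : ℂ) (N : ℕ) :
    ‖(z - q) ^ N * (1 / (1 - q * z) ^ N)‖ = (‖z - q‖ / ‖1 - q * z‖) ^ N := by
  rw [norm_mul, norm_div, norm_one, norm_pow, norm_pow, div_pow]
  ring

theorem abs_sinh_kap (a m : ℕ) (ha : 1 ≤ a) (hm : 1 ≤ m) (t : ℝ) :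
    |Real.sinh t * kap a m t| = m * ‖tc (a + m - 2) (Real.exp (-t)) m‖ := by
  rw [← Real.norm_eq_abs, ← Complex.norm_real, sinh_kap_tc a m ha hm t, norm_mul, norm_mul]
  simp

/-- (E2) -/
theorem kap_E2 (a m : ℕ) (ha : 1 ≤ a) (hm : 1 ≤ m) (t : ℝ) (ht : 0 < t) :
    |Real.sinh t * kap a m t| ≤ m := by
  rw [abs_sinh_kap a m ha hm t]
  have hq1 : Real.exp (-t) < 1 := by
    rw [Real.exp_lt_one_iff]
    linarith
  have h := tc_bound (a + m - 2) (Real.exp (-t)) 1 1 (Real.exp_pos _) one_pos (by linarith)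
    (fun z hz => by
      rw [norm_blaschke_pow]
      have h1 := blaschke_id (Real.exp (-t)) z
      rw [hz] at h1
      have h2 : ‖z - (Real.exp (-t) : ℝ)‖ = ‖1 - (Real.exp (-t) : ℝ) * z‖ := by
        have h3 : ‖z - (Real.exp (-t) : ℝ)‖ ^ 2 = ‖1 - (Real.exp (-t) : ℝ) * z‖ ^ 2 := by
          linarith
        rwa [sq_eq_sq₀ (norm_nonneg _) (norm_nonneg _)] at h3
      rw [h2]
      exact pow_le_one₀ (by positivity) (div_self_le_one _)) m
  rw [one_pow, div_one] at h
  calc (m : ℝ) * ‖tc (a + m - 2) (Real.exp (-t)) m‖ ≤ m * 1 := by gcongr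
    _ = m := mul_one _

/-- (E3) -/
theorem kap_E3 (a m : ℕ) (ha : 1 ≤ a) (hm : 1 ≤ m) (t : ℝ) (ht : 0 < t) :
    |Real.sinh t * kap a m t| ≤
      m * 2 ^ m * Real.exp (-(((a : ℝ) + m - 1) * (1 - Real.exp (-(2 * t))) / 6)) := by
  rw [abs_sinh_kap a m ha hm t]
  set q := Real.exp (-t) with hq
  have hq0 : 0 < q := Real.exp_pos _
  have hq1 : q < 1 := by
    rw [hq, Real.exp_lt_one_iff]
    linarith
  have hq2 : Real.exp (-(2 * t)) = q ^ 2 := by
    rw [hq, ← Real.exp_nat_mul]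
    congr 1
    push_cast
    ring
  rw [hq2]
  have hN : (((a + m - 2 + 1 : ℕ)) : ℝ) = (a : ℝ) + m - 1 := by
    have : a + m - 2 + 1 + 1 = a + m := by omega
    have h2 : (((a + m - 2 + 1 + 1 : ℕ)) : ℝ) = ((a + m : ℕ) : ℝ) := by rw [this]
    push_cast at h2 ⊢
    linarith
  have h := tc_bound (a + m - 2) q (1 / 2)
    (Real.exp (-(((a : ℝ) + m - 1) * (1 - q ^ 2) / 6))) hq0 (by norm_num) (by linarith)
    (fun z hz => by
      rw [norm_blaschke_pow]
      have h1 := blaschke_id q z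
      rw [hz] at h1
      have h2 : ‖(1 : ℂ) - q * z‖ ≤ 3 / 2 := by
        refine (norm_sub_le _ _).trans ?_
        rw [norm_one, norm_mul, hz, Complex.norm_real, Real.norm_of_nonneg hq0.le]
        linarith
      have h3 : 0 < ‖(1 : ℂ) - q * z‖ := by
        have h4 : 1 - q * (1 / 2) ≤ ‖(1 : ℂ) - q * z‖ := by
          have h5 := norm_sub_norm_le (1 : ℂ) (q * z)
          rwa [norm_one, norm_mul, hz, Complex.norm_real, Real.norm_of_nonneg hq0.le] at h5
        linarith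
      have h4 : (‖z - q‖ / ‖1 - q * z‖) ^ 2 ≤ 1 - (1 - q ^ 2) / 3 := by
        rw [div_pow, div_le_iff₀ (by positivity)]
        have h5 : ‖(1 : ℂ) - q * z‖ ^ 2 ≤ 9 / 4 := by nlinarith
        have h6 : 0 ≤ 1 - q ^ 2 := by nlinarith
        nlinarith
      have h5 : (‖z - q‖ / ‖1 - q * z‖) ^ 2 ≤ Real.exp (-((1 - q ^ 2) / 6)) ^ 2 := by
        refine h4.trans ?_
        rw [← Real.exp_nat_mul (-((1 - q ^ 2) / 6)) 2]
        have h6 := Real.add_one_le_exp (((2 : ℕ) : ℝ) * -((1 - q ^ 2) / 6))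
        refine le_trans ?_ h6
        push_cast
        linarith
      have h6 : ‖z - q‖ / ‖1 - q * z‖ ≤ Real.exp (-((1 - q ^ 2) / 6)) :=
        le_of_sq_le_sq h5 (Real.exp_pos _).le
      calc (‖z - q‖ / ‖1 - q * z‖) ^ (a + m - 2 + 1)
          ≤ Real.exp (-((1 - q ^ 2) / 6)) ^ (a + m - 2 + 1) := by gcongr
        _ = Real.exp (-(((a : ℝ) + m - 1) * (1 - q ^ 2) / 6)) := by
          rw [← Real.exp_nat_mul, hN]
          congr 1
          ring) m
  calc (m : ℝ) * ‖tc (a + m - 2) q m‖ ≤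
      m * (Real.exp (-(((a : ℝ) + m - 1) * (1 - q ^ 2) / 6)) / (1 / 2) ^ m) := by gcongr
    _ = _ := by
      rw [one_div, inv_pow, div_inv_eq_mul]
      ring

end Pool.Agent.Lib.MP_f0c028_an
end

section

set_option autoImplicit false
namespace Pool.Agent.Lib.MP_f0c028_an

open Finset MeasureTheory Real Set
open scoped ENNReal

namespace RWK3

theorem dd_rec (a m s : ℕ) (ha : 1 ≤ a) (hs : s < m) :
    dd a m (s + 1) * (((s : ℝ) + 1) * ((a : ℝ) + s)) =
      -(dd a m s * (((m : ℝ) - s) * ((a : ℝ) + m - 1 + s))) := by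
  obtain ⟨b, rfl⟩ : ∃ b, a = b + 1 := ⟨a - 1, by omega⟩
  obtain ⟨k, rfl⟩ : ∃ k, m = s + 1 + k := ⟨m - (s + 1), by omega⟩
  unfold dd
  have e1 : b + 1 + (s + 1 + k) - 1 = b + s + k + 1 := by omega
  have e2 : b + 1 + (s + 1 + k) - 2 = b + s + k := by omega
  have e3 : s + 1 + k - (s + 1) = k := by omega
  have e4 : s + 1 + k - s = k + 1 := by omega
  rw [e1, e2, e3, e4]
  have h1 : ((b + s + k + 1).choose (k + 1) : ℝ) * ((k : ℝ) + 1) =
      ((b + s + k + 1).choose k : ℝ) * ((b : ℝ) + s + 1) := by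
    have := Nat.choose_succ_right_eq (b + s + k + 1) k
    have h' : b + s + k + 1 - k = b + s + 1 := by omega
    rw [h'] at this
    exact_mod_cast this
  have h2 : (((b + s + k + (s + 1)).choose (s + 1) : ℕ) : ℝ) * ((s : ℝ) + 1) =
      ((b + s + k + s).choose s : ℝ) * ((b : ℝ) + s + k + s + 1) := by
    have := Nat.add_one_mul_choose_eq (b + s + k + s) s
    have h' : b + s + k + (s + 1) = b + s + k + s + 1 := by omega
    rw [h']
    have h3 : (((b + s + k + s + 1 : ℕ) : ℝ)) * ((b + s + k + s).choose s : ℝ) =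
      ((b + s + k + s + 1).choose (s + 1) : ℝ) * ((s + 1 : ℕ) : ℝ) := by exact_mod_cast this
    push_cast at h3
    linarith
  push_cast
  have hp : (-1 : ℝ) ^ (s + 1 + k + (s + 1)) = -(-1 : ℝ) ^ (s + 1 + k + s) := by
    rw [show s + 1 + k + (s + 1) = (s + 1 + k + s) + 1 by ring, pow_succ]; ring
  rw [hp]
  have : ((b + s + k + 1).choose k : ℝ) * ((b + s + k + (s + 1)).choose (s + 1) : ℝ) *
      (((s : ℝ) + 1) * ((b : ℝ) + 1 + s)) =
      ((b + s + k + 1).choose (k + 1) : ℝ) * ((b + s + k + s).choose s : ℝ) *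
      (((k : ℝ) + 1) * ((b : ℝ) + s + k + s + 1)) := by
    calc _ = (((b + s + k + 1).choose k : ℝ) * ((b : ℝ) + s + 1)) *
          (((b + s + k + (s + 1)).choose (s + 1) : ℝ) * ((s : ℝ) + 1)) := by ring
      _ = _ := by rw [← h1, h2]; ring
  have e5 : ((s : ℝ) + 1 + k - s) = k + 1 := by ring
  rw [e5]
  linear_combination (-(-1 : ℝ) ^ (s + 1 + k + s) * ((s : ℝ) + 1 + k)) * this

theorem ode (a m : ℕ) (ha : 1 ≤ a) (t : ℝ) :
    (1 - Real.exp (-(2 * t))) *
      (∑ s ∈ range (m + 1), (((a : ℝ) - 1 + 2 * s) ^ 2 - ((a : ℝ) - 1) ^ 2) * (dd a m s *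
        Real.exp (-(((a : ℝ) - 1 + 2 * s) * t)))) +
      2 * (2 * m * ((a : ℝ) + m - 1)) * Real.exp (-(2 * t)) *
        ∑ s ∈ range (m + 1), dd a m s * Real.exp (-(((a : ℝ) - 1 + 2 * s) * t)) = 0 := by
  have key : ∑ s ∈ range (m + 1), (((a : ℝ) - 1 + 2 * s) ^ 2 - ((a : ℝ) - 1) ^ 2) * (dd a m s *
        Real.exp (-(((a : ℝ) - 1 + 2 * s) * t))) =
      ∑ s ∈ range (m + 1), ((((a : ℝ) - 1 + 2 * s) ^ 2 - ((a : ℝ) - 1) ^ 2) -
        2 * (2 * m * ((a : ℝ) + m - 1))) * (dd a m s *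
        Real.exp (-(((a : ℝ) - 1 + 2 * s) * t))) * Real.exp (-(2 * t)) := by
    rw [Finset.sum_range_succ', Finset.sum_range_succ]
    have h0 : (((a : ℝ) - 1 + 2 * ((0 : ℕ) : ℝ)) ^ 2 - ((a : ℝ) - 1) ^ 2) = 0 := by
      push_cast; ring
    have h1 : (((a : ℝ) - 1 + 2 * (m : ℝ)) ^ 2 - ((a : ℝ) - 1) ^ 2) -
        2 * (2 * m * ((a : ℝ) + m - 1)) = 0 := by ring
    rw [h0, h1]
    simp only [zero_mul, add_zero]
    refine Finset.sum_congr rfl fun s hs => ?_
    have hs' := Finset.mem_range.mp hs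
    have hr := dd_rec a m s ha hs'
    have he : Real.exp (-(((a : ℝ) - 1 + 2 * ((s + 1 : ℕ) : ℝ)) * t)) =
        Real.exp (-(((a : ℝ) - 1 + 2 * s) * t)) * Real.exp (-(2 * t)) := by
      rw [← Real.exp_add]; congr 1; push_cast; ring
    rw [he]
    push_cast
    linear_combination (4 * Real.exp (-(((a : ℝ) - 1 + 2 * s) * t)) * Real.exp (-(2 * t))) * hr
  have key2 : ∑ s ∈ range (m + 1), ((((a : ℝ) - 1 + 2 * s) ^ 2 - ((a : ℝ) - 1) ^ 2) -
        2 * (2 * m * ((a : ℝ) + m - 1))) * (dd a m s *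
        Real.exp (-(((a : ℝ) - 1 + 2 * s) * t))) * Real.exp (-(2 * t)) =
      Real.exp (-(2 * t)) * (∑ s ∈ range (m + 1),
        (((a : ℝ) - 1 + 2 * s) ^ 2 - ((a : ℝ) - 1) ^ 2) * (dd a m s *
        Real.exp (-(((a : ℝ) - 1 + 2 * s) * t)))) -
      2 * (2 * m * ((a : ℝ) + m - 1)) * Real.exp (-(2 * t)) *
        ∑ s ∈ range (m + 1), dd a m s * Real.exp (-(((a : ℝ) - 1 + 2 * s) * t)) := by
    rw [Finset.mul_sum, Finset.mul_sum, ← Finset.sum_sub_distrib]
    refine Finset.sum_congr rfl fun s _ => ?_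
    ring
  rw [key2] at key
  linarith

end RWK3

/-- (E1) -/
theorem kap_E1 (a m : ℕ) (ha : 1 ≤ a) (hm : 1 ≤ m) (t : ℝ) (ht : 0 < t)
    (h : ((a : ℝ) - 1) ^ 2 * (Real.exp (2 * t) - 1) ≤ 2 * m * ((a : ℝ) + m - 1)) :
    |Real.sinh t * kap a m t| ≤
      √(2 * m * ((a : ℝ) + m - 1) * (Real.exp (2 * t) - 1)) := by
  have haR : (1 : ℝ) ≤ a := by exact_mod_cast ha
  have hmR : (1 : ℝ) ≤ m := by exact_mod_cast hm
  have hk0pos : 0 < 2 * m * ((a : ℝ) + m - 1) := by
    have : (0 : ℝ) < (a : ℝ) + m - 1 := by linarith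
    positivity
  -- the functions
  obtain ⟨E, hE⟩ : ∃ E : ℝ → ℝ, E = fun t => ∑ s ∈ range (m + 1),
    dd a m s * Real.exp (-(((a : ℝ) - 1 + 2 * s) * t)) := ⟨_, rfl⟩
  obtain ⟨E1, hE1⟩ : ∃ E1 : ℝ → ℝ, E1 = fun t => ∑ s ∈ range (m + 1),
    dd a m s * (Real.exp (-(((a : ℝ) - 1 + 2 * s) * t)) * (-((a : ℝ) - 1 + 2 * s))) := ⟨_, rfl⟩
  obtain ⟨E2, hE2⟩ : ∃ E2 : ℝ → ℝ, E2 = fun t => ∑ s ∈ range (m + 1),
    dd a m s * ((Real.exp (-(((a : ℝ) - 1 + 2 * s) * t)) * (-((a : ℝ) - 1 + 2 * s))) *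
      (-((a : ℝ) - 1 + 2 * s))) := ⟨_, rfl⟩
  obtain ⟨K, hK⟩ : ∃ K : ℝ → ℝ, K = fun t => kap a m t := ⟨_, rfl⟩
  obtain ⟨K1, hK1⟩ : ∃ K1 : ℝ → ℝ, K1 = fun t => ∑ s ∈ range m,
    cc a m s * (Real.exp (-(((a : ℝ) + 2 * s) * t)) * (-((a : ℝ) + 2 * s))) := ⟨_, rfl⟩
  have dexp : ∀ c x : ℝ, HasDerivAt (fun x => Real.exp (-(c * x)))
      (Real.exp (-(c * x)) * (-c)) x := by
    intro c x
    have h1 : HasDerivAt (fun x : ℝ => -(c * x)) (-(c * 1)) x :=
      ((hasDerivAt_id x).const_mul c).neg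
    rw [mul_one] at h1
    exact h1.exp
  have dE : ∀ x, HasDerivAt E (E1 x) x := by
    intro x
    rw [hE, hE1]
    exact HasDerivAt.fun_sum fun s _ => (dexp _ x).const_mul _
  have dE1 : ∀ x, HasDerivAt E1 (E2 x) x := by
    intro x
    rw [hE1, hE2]
    exact HasDerivAt.fun_sum fun s _ => ((dexp _ x).mul_const _).const_mul _
  have dK : ∀ x, HasDerivAt K (K1 x) x := by
    intro x
    rw [hK, hK1]
    unfold kap
    exact HasDerivAt.fun_sum fun s _ => (dexp _ x).const_mul _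
  have hSK : ∀ x, E x = Real.sinh x * K x := by
    intro x
    rw [hE, hK]
    exact (sinh_mul_kap a m ha hm x).symm
  have hE1' : ∀ x, E1 x = Real.cosh x * K x + Real.sinh x * K1 x := by
    intro x
    have h1 : HasDerivAt E (Real.cosh x * K x + Real.sinh x * K1 x) x := by
      have h2 : E = fun x => Real.sinh x * K x := funext hSK
      rw [h2]
      exact (Real.hasDerivAt_sinh x).mul (dK x)
    exact (dE x).unique h1
  have hsc : ∀ x, Real.sinh x + Real.cosh x = Real.exp x := fun x => by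
    rw [add_comm]; exact Real.cosh_add_sinh x
  have h12 : ∀ x, 1 - Real.exp (-(2 * x)) = 2 * Real.exp (-x) * Real.sinh x := by
    intro x
    rw [Real.sinh_eq]
    have h1 : Real.exp (-(2 * x)) = Real.exp (-x) * Real.exp (-x) := by
      rw [← Real.exp_add]; ring_nf
    have h2 : Real.exp (-x) * Real.exp x = 1 := by rw [← Real.exp_add]; simp
    rw [h1]
    linear_combination -h2
  have hode : ∀ x, 0 < x → E2 x - ((a : ℝ) - 1) ^ 2 * E x =
      -(2 * m * ((a : ℝ) + m - 1)) * Real.exp (-x) * K x := by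
    intro x hx
    have h1 := RWK3.ode a m ha x
    have h2 : ∑ s ∈ range (m + 1), (((a : ℝ) - 1 + 2 * s) ^ 2 - ((a : ℝ) - 1) ^ 2) * (dd a m s *
        Real.exp (-(((a : ℝ) - 1 + 2 * s) * x))) = E2 x - ((a : ℝ) - 1) ^ 2 * E x := by
      rw [hE2, hE]
      simp only
      rw [Finset.mul_sum, ← Finset.sum_sub_distrib]
      exact Finset.sum_congr rfl fun s _ => by ring
    have h3 : ∑ s ∈ range (m + 1), dd a m s * Real.exp (-(((a : ℝ) - 1 + 2 * s) * x)) = E x := by
      rw [hE]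
    rw [h2, h3, h12, hSK x] at h1
    have h4 : Real.exp (-(2 * x)) = Real.exp (-x) * Real.exp (-x) := by
      rw [← Real.exp_add]; ring_nf
    rw [h4] at h1
    have h5 : 0 < Real.sinh x := Real.sinh_pos_iff.mpr hx
    have h6 : 0 < Real.exp (-x) := Real.exp_pos _
    rw [hSK x]
    have h7 : (2 * Real.exp (-x) * Real.sinh x) * ((E2 x - ((a : ℝ) - 1) ^ 2 * (Real.sinh x * K x))
        - (-(2 * m * ((a : ℝ) + m - 1)) * Real.exp (-x) * K x)) = 0 := by
      linear_combination h1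
    have h8 : (2 * Real.exp (-x) * Real.sinh x) ≠ 0 := by positivity
    have := (mul_eq_zero.mp h7).resolve_left h8
    linarith
  -- the energy
  obtain ⟨T, hT⟩ : ∃ T : ℝ → ℝ, T = fun x => (2 * m * ((a : ℝ) + m - 1)) *
      (Real.exp (-x) * Real.sinh x * (K x * K x)) - ((a : ℝ) - 1) ^ 2 * (E x * E x) +
      E1 x * E1 x := ⟨_, rfl⟩
  have dexpn : ∀ x : ℝ, HasDerivAt (fun x => Real.exp (-x)) (-Real.exp (-x)) x := by
    intro x
    have := (hasDerivAt_neg x).exp
    simpa using this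
  have dT : ∀ x, HasDerivAt T ((2 * m * ((a : ℝ) + m - 1)) *
      (((-Real.exp (-x)) * Real.sinh x + Real.exp (-x) * Real.cosh x) * (K x * K x) +
        Real.exp (-x) * Real.sinh x * (K1 x * K x + K x * K1 x)) -
      ((a : ℝ) - 1) ^ 2 * (E1 x * E x + E x * E1 x) + (E2 x * E1 x + E1 x * E2 x)) x := by
    intro x
    rw [hT]
    exact ((((((dexpn x).mul (Real.hasDerivAt_sinh x)).mul ((dK x).mul (dK x))).const_mul _).sub
      (((dE x).mul (dE x)).const_mul _))).add ((dE1 x).mul (dE1 x))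
  have hanti : AntitoneOn T (Ici 0) := by
    apply antitoneOn_of_deriv_nonpos (convex_Ici 0)
    · exact fun x _ => (dT x).continuousAt.continuousWithinAt
    · exact fun x _ => (dT x).differentiableAt.differentiableWithinAt
    · intro x hx
      rw [interior_Ici] at hx
      have hx0 : 0 < x := hx
      rw [(dT x).deriv]
      have h1 := hode x hx0
      have h2 : E2 x = ((a : ℝ) - 1) ^ 2 * E x -
        (2 * m * ((a : ℝ) + m - 1)) * Real.exp (-x) * K x := by linarith
      have h3 := hsc x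
      have h4 : Real.exp (-x) * Real.exp x = 1 := by rw [← Real.exp_add]; simp
      have h5 : ((2 * m * ((a : ℝ) + m - 1)) *
      (((-Real.exp (-x)) * Real.sinh x + Real.exp (-x) * Real.cosh x) * (K x * K x) +
        Real.exp (-x) * Real.sinh x * (K1 x * K x + K x * K1 x)) -
      ((a : ℝ) - 1) ^ 2 * (E1 x * E x + E x * E1 x) + (E2 x * E1 x + E1 x * E2 x)) =
        -(2 * m * ((a : ℝ) + m - 1)) * (K x) ^ 2 := by
        rw [h2, hE1' x]
        linear_combination (-(2 * m * ((a : ℝ) + m - 1)) * (K x) ^ 2 * Real.exp (-x)) * h3 +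
          (-(2 * m * ((a : ℝ) + m - 1)) * (K x) ^ 2) * h4
      rw [h5]
      nlinarith [sq_nonneg (K x)]
  have hT0 : T 0 = (2 * m * ((a : ℝ) + m - 1)) ^ 2 := by
    have hK0 : K 0 = -(2 * m * ((a : ℝ) + m - 1)) := by
      rw [hK]
      unfold kap
      simp only [mul_zero, neg_zero, Real.exp_zero, mul_one]
      rw [sum_cc]; ring
    rw [hT]
    simp only
    rw [hE1' 0, hSK 0, hK0]
    simp
    ring
  have hTt : T t ≤ (2 * m * ((a : ℝ) + m - 1)) ^ 2 := by
    rw [← hT0]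
    exact hanti (mem_Ici.mpr le_rfl) (mem_Ici.mpr ht.le) ht.le
  have hSt : 0 < Real.sinh t := Real.sinh_pos_iff.mpr ht
  have hle : (2 * m * ((a : ℝ) + m - 1)) *
      (Real.exp (-t) * Real.sinh t * (K t * K t)) - ((a : ℝ) - 1) ^ 2 * (E t * E t) ≤
      (2 * m * ((a : ℝ) + m - 1)) ^ 2 := by
    rw [hT] at hTt
    simp only at hTt
    nlinarith [mul_self_nonneg (E1 t)]
  have he2 : Real.exp (2 * t) - 1 = 2 * Real.exp t * Real.sinh t := by
    rw [Real.sinh_eq]
    have h1 : Real.exp (2 * t) = Real.exp t * Real.exp t := by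
      rw [← Real.exp_add]; ring_nf
    have h2 : Real.exp (-t) * Real.exp t = 1 := by rw [← Real.exp_add]; simp
    rw [h1]
    linear_combination h2
  have hpos2 : 0 < Real.exp (2 * t) - 1 := by rw [he2]; positivity
  have hsq : (Real.sinh t * kap a m t) ^ 2 ≤
      2 * m * ((a : ℝ) + m - 1) * (Real.exp (2 * t) - 1) := by
    have hKt : K t = kap a m t := by rw [hK]
    rw [← hKt]
    rw [hSK t] at hle
    have h3 : Real.exp (-t) * Real.exp t = 1 := by rw [← Real.exp_add]; simp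
    have h4 := mul_le_mul_of_nonneg_right hle hpos2.le
    have h5 : (2 * m * ((a : ℝ) + m - 1)) *
      (Real.exp (-t) * Real.sinh t * (K t * K t)) * (Real.exp (2 * t) - 1) =
      2 * (2 * m * ((a : ℝ) + m - 1)) * (Real.sinh t * K t) ^ 2 := by
      rw [he2]
      linear_combination (2 * (2 * m * ((a : ℝ) + m - 1)) * (Real.sinh t * K t) ^ 2) * h3
    have h6 : ((a : ℝ) - 1) ^ 2 * (Real.exp (2 * t) - 1) * (Real.sinh t * K t) ^ 2 ≤
        2 * m * ((a : ℝ) + m - 1) * (Real.sinh t * K t) ^ 2 :=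
      mul_le_mul_of_nonneg_right h (sq_nonneg _)
    have h7 : (2 * m * ((a : ℝ) + m - 1)) * (Real.sinh t * K t) ^ 2 ≤
        (2 * m * ((a : ℝ) + m - 1)) * (2 * m * ((a : ℝ) + m - 1) * (Real.exp (2 * t) - 1)) := by
      nlinarith
    exact le_of_mul_le_mul_left h7 hk0pos
  rw [← Real.sqrt_sq_eq_abs]
  exact Real.sqrt_le_sqrt hsq

end Pool.Agent.Lib.MP_f0c028_an
end
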