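import Pool.Agent.Lib.MP_f0c028_an.RWDef
import Pool.Agent.Lib.MP_f0c028_an.RWPlanar

section

set_option autoImplicit false
namespace Pool.Agent.Lib.MP_f0c028_an

open Finset MeasureTheory Real Set
open scoped ENNReal

/-- Cauchy–Schwarz for `lintegral` -/
theorem cs_lintegral {α : Type*} [MeasurableSpace α] (μ : Measure α) (f g : α → ℝ≥0∞)
    (hf : Measurable f) (hg : Measurable g) :
    (∫⁻ a, f a * g a ∂μ) ^ 2 ≤ (∫⁻ a, f a ^ 2 ∂μ) * (∫⁻ a, g a ^ 2 ∂μ) := by
  have h := ENNReal.lintegral_mul_le_Lp_mul_Lq μ (Real.HolderConjugate.two_two)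
    hf.aemeasurable hg.aemeasurable
  simp only [Pi.mul_apply] at h
  have h2 : ∀ x : ℝ≥0∞, (x ^ (1 / (2 : ℝ))) ^ 2 = x := by
    intro x
    rw [← ENNReal.rpow_natCast, ← ENNReal.rpow_mul]
    norm_num
  have h3 : ∀ x : ℝ≥0∞, x ^ (2 : ℝ) = x ^ 2 := by
    intro x
    rw [← ENNReal.rpow_natCast]
    norm_num
  calc (∫⁻ a, f a * g a ∂μ) ^ 2
      ≤ ((∫⁻ a, f a ^ (2 : ℝ) ∂μ) ^ (1 / (2 : ℝ)) * (∫⁻ a, g a ^ (2 : ℝ) ∂μ) ^ (1 / (2 : ℝ))) ^ 2 := by
        gcongr
    _ = (∫⁻ a, f a ^ 2 ∂μ) * (∫⁻ a, g a ^ 2 ∂μ) := by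
        rw [mul_pow, h2, h2]
        simp only [h3]

/-- weighted Cauchy–Schwarz -/
theorem cs_weight {W Wi : ℝ → ℝ≥0∞} (hW : Measurable W) (hWi : Measurable Wi)
    (hmul : ∀ x, W x * Wi x = 1) (G : ℝ → ℝ≥0∞) (hG : Measurable G) (μ : Measure ℝ) :
    (∫⁻ y, G y ∂μ) ^ 2 ≤ (∫⁻ y, G y ^ 2 * W y ∂μ) * (∫⁻ y, Wi y ∂μ) := by
  have h2 : ∀ x : ℝ≥0∞, (x ^ (1 / (2 : ℝ))) ^ 2 = x := by
    intro x
    rw [← ENNReal.rpow_natCast, ← ENNReal.rpow_mul]
    norm_num
  have h := cs_lintegral μ (fun y => G y * W y ^ (1 / (2 : ℝ))) (fun y => Wi y ^ (1 / (2 : ℝ)))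
    (hG.mul (hW.pow_const _)) (hWi.pow_const _)
  have h4 : ∀ y, G y * W y ^ (1 / (2 : ℝ)) * Wi y ^ (1 / (2 : ℝ)) = G y := by
    intro y
    rw [mul_assoc, ← ENNReal.mul_rpow_of_nonneg _ _ (by norm_num), hmul, ENNReal.one_rpow, mul_one]
  simp only [h4, mul_pow, h2] at h
  exact h

theorem inner_le (e : ℝ) (he : e = 1 ∨ e = -1) (G : ℝ → ℝ≥0∞) (A J : Set ℝ)
    (hA : MeasurableSet A) (hJ : MeasurableSet J) (x : ℝ)
    (hx : ∀ t ∈ A, x + e * t ∈ J) :
    ∫⁻ t in A, G (x + e * t) ≤ ∫⁻ y in J, G y := by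
  rw [← lintegral_indicator hA, ← lintegral_indicator hJ]
  have h1 : ∫⁻ y, J.indicator G y = ∫⁻ t, J.indicator G (x + e * t) := by
    rcases he with rfl | rfl
    · simp only [one_mul]
      exact (lintegral_add_left_eq_self _ _).symm
    · simp only [neg_mul, one_mul]
      simp only [← sub_eq_add_neg]
      exact (lintegral_sub_left_eq_self _ _).symm
  rw [h1]
  apply lintegral_mono
  intro t
  by_cases ht : t ∈ A
  · simp only [Set.indicator_of_mem ht, Set.indicator_of_mem (hx t ht)]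
    exact le_rfl
  · simp [Set.indicator_of_notMem ht]

/-- single scale block operator -/
theorem near_single {W Wi : ℝ → ℝ≥0∞} {K : ℝ} (h : LogA2 W Wi K) (e : ℝ) (he : e = 1 ∨ e = -1)
    (G : ℝ → ℝ≥0∞) (hG : Measurable G) (d : ℝ) (hd : 0 < d) (hd1 : d ≤ 1) :
    ∫⁻ x, (∫⁻ t in Ioc 0 d, G (x + e * t)) ^ 2 * W x ≤
      ENNReal.ofReal (12800 * K * d ^ 2) * ∫⁻ x, G x ^ 2 * W x := by
  have hK := h.one_le
  -- partition
  have hU : ⋃ n : ℤ, Ico (n • d) ((n + 1) • d) = univ := iUnion_Ico_zsmul hd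
  have hdis : Pairwise (Function.onFun Disjoint fun n : ℤ => Ico (n • d) ((n + 1) • d)) :=
    Set.pairwise_disjoint_Ico_zsmul d
  have hsum : ∀ f : ℝ → ℝ≥0∞, ∫⁻ x, f x = ∑' n : ℤ, ∫⁻ x in Ico (n • d) ((n + 1) • d), f x := by
    intro f
    rw [← lintegral_iUnion (fun n => measurableSet_Ico) hdis, hU, setLIntegral_univ]
  set c : ℤ → ℝ≥0∞ := fun n => ∫⁻ x in Ico (n • d) ((n + 1) • d), G x ^ 2 * W x with hc
  have hcs : ∫⁻ x, G x ^ 2 * W x = ∑' n : ℤ, c n := hsum _
  -- J bound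
  have hJ : ∀ n : ℤ, ∫⁻ x in Icc (n • d) (n • d + 2 * d), G x ^ 2 * W x ≤ c n + c (n + 1) := by
    intro n
    rw [hc]
    simp only
    have h1 : ∫⁻ x in Icc (n • d) (n • d + 2 * d), G x ^ 2 * W x =
        ∫⁻ x in Ico (n • d) (n • d + 2 * d), G x ^ 2 * W x :=
      setLIntegral_congr Ico_ae_eq_Icc.symm
    rw [h1]
    have h2 : Ico (n • d) (n • d + 2 * d) =
        Ico (n • d) ((n + 1) • d) ∪ Ico ((n + 1) • d) ((n + 1 + 1) • d) := by
      rw [Set.Ico_union_Ico_eq_Ico]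
      · congr 1
        simp only [zsmul_eq_mul]
        push_cast
        ring
      · simp only [zsmul_eq_mul]
        push_cast
        nlinarith
      · simp only [zsmul_eq_mul]
        push_cast
        nlinarith
    rw [h2]
    exact lintegral_union_le _ _ _
  have hmain : ∀ n i : ℤ, (∀ x ∈ Ico (i • d) ((i + 1) • d), ∀ t ∈ Ioc 0 d,
      x + e * t ∈ Icc (n • d) (n • d + 2 * d)) →
      Ico (i • d) ((i + 1) • d) ⊆ Icc (n • d) (n • d + 2 * d) →
      ∫⁻ x in Ico (i • d) ((i + 1) • d), (∫⁻ t in Ioc 0 d, G (x + e * t)) ^ 2 * W x ≤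
        ENNReal.ofReal (6400 * K * d ^ 2) * (c n + c (n + 1)) := by
    intro n i h1 h2
    set J := Icc (n • d) (n • d + 2 * d) with hJd
    calc ∫⁻ x in Ico (i • d) ((i + 1) • d), (∫⁻ t in Ioc 0 d, G (x + e * t)) ^ 2 * W x
        ≤ ∫⁻ x in Ico (i • d) ((i + 1) • d), (∫⁻ y in J, G y) ^ 2 * W x := by
          apply setLIntegral_mono' measurableSet_Ico
          intro x hx
          have h3 := inner_le e he G _ _ measurableSet_Ioc measurableSet_Icc x (h1 x hx)
          exact mul_le_mul_left (pow_le_pow_left' h3 2) _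
      _ = (∫⁻ y in J, G y) ^ 2 * ∫⁻ x in Ico (i • d) ((i + 1) • d), W x := by
          rw [lintegral_const_mul _ h.meas]
      _ ≤ ((∫⁻ y in J, G y ^ 2 * W y) * (∫⁻ y in J, Wi y)) * ∫⁻ x in J, W x := by
          gcongr
          · exact cs_weight h.meas h.measi h.mul_eq G hG _
      _ = ((∫⁻ y in J, W y) * (∫⁻ y in J, Wi y)) * (∫⁻ y in J, G y ^ 2 * W y) := by ring
      _ ≤ ENNReal.ofReal (1600 * K * (2 * d) ^ 2) * (c n + c (n + 1)) := by
          gcongr
          · exact h.loc _ _ (by linarith) (by linarith)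
          · exact hJ n
      _ = ENNReal.ofReal (6400 * K * d ^ 2) * (c n + c (n + 1)) := by
          congr 2
          ring
  have hshift : ∑' n : ℤ, c (n + 1) = ∑' n : ℤ, c n := (Equiv.addRight (1 : ℤ)).tsum_eq c
  have htot : ∑' n : ℤ, ENNReal.ofReal (6400 * K * d ^ 2) * (c n + c (n + 1)) =
      ENNReal.ofReal (12800 * K * d ^ 2) * ∫⁻ x, G x ^ 2 * W x := by
    rw [ENNReal.tsum_mul_left, ENNReal.tsum_add, hshift, hcs, ← two_mul, ← mul_assoc]
    congr 1
    have : (2 : ℝ≥0∞) = ENNReal.ofReal 2 := by simp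
    rw [this, ← ENNReal.ofReal_mul (by positivity)]
    congr 1
    ring
  rw [← htot, hsum]
  rcases he with rfl | rfl
  · apply ENNReal.tsum_le_tsum
    intro n
    apply hmain n n
    · intro x hx t ht
      simp only [zsmul_eq_mul, Set.mem_Ico, Set.mem_Ioc, Set.mem_Icc] at hx ht ⊢
      push_cast at hx
      constructor <;> nlinarith [hx.1, hx.2, ht.1, ht.2]
    · intro x hx
      simp only [zsmul_eq_mul, Set.mem_Ico, Set.mem_Icc] at hx ⊢
      push_cast at hx
      constructor <;> nlinarith [hx.1, hx.2]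
  · rw [← (Equiv.addRight (1 : ℤ)).tsum_eq]
    apply ENNReal.tsum_le_tsum
    intro n
    apply hmain n (n + 1)
    · intro x hx t ht
      simp only [zsmul_eq_mul, Set.mem_Ico, Set.mem_Ioc, Set.mem_Icc] at hx ht ⊢
      push_cast at hx
      constructor <;> nlinarith [hx.1, hx.2, ht.1, ht.2]
    · intro x hx
      simp only [zsmul_eq_mul, Set.mem_Ico, Set.mem_Icc] at hx ⊢
      push_cast at hx
      constructor <;> nlinarith [hx.1, hx.2]

/-- all small scales together -/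
theorem near_total {W Wi : ℝ → ℝ≥0∞} {K : ℝ} (h : LogA2 W Wi K) (e : ℝ) (he : e = 1 ∨ e = -1)
    (G : ℝ → ℝ≥0∞) (hG : Measurable G) (k : ℝ → ℝ≥0∞) (s : ℕ → ℝ) (hs : ∀ j, 0 ≤ s j)
    (hk : ∀ j t, (1 / 2 : ℝ) ^ (j + 1) ≤ t → t ≤ (1 / 2 : ℝ) ^ j → k t ≤ ENNReal.ofReal (s j))
    (S : ℝ) (hS : ∀ J, ∑ j ∈ range J, s j * (1 / 2 : ℝ) ^ j ≤ S) :
    ∫⁻ x, (∫⁻ t in Ioc 0 1, k t * G (x + e * t)) ^ 2 * W x ≤
      ENNReal.ofReal (12800 * K * S ^ 2) * ∫⁻ x, G x ^ 2 * W x := by
  have hK := h.one_le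
  have hS0 : 0 ≤ S := by simpa using hS 0
  set A : ℕ → ℝ → ℝ≥0∞ := fun j x => ∫⁻ t in Ioc 0 ((1 / 2 : ℝ) ^ j), G (x + e * t) with hA
  have hAm : ∀ j, Measurable (A j) := by
    intro j
    apply Measurable.lintegral_prod_right'
      (f := fun p : ℝ × ℝ => G (p.1 + e * p.2))
    exact hG.comp (by fun_prop)
  have hGm : ∀ x, Measurable fun t => G (x + e * t) := fun x => hG.comp (by fun_prop)
  -- pointwise bound
  have hpt : ∀ x, ∫⁻ t in Ioc 0 1, k t * G (x + e * t) ≤
      ∑' j, ENNReal.ofReal (s j) * A j x := by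
    intro x
    calc ∫⁻ t in Ioc 0 1, k t * G (x + e * t)
        ≤ ∫⁻ t in Ioc (0 : ℝ) 1, ∑' j : ℕ, ENNReal.ofReal (s j) *
            (Ioc 0 ((1 / 2 : ℝ) ^ j)).indicator (fun t => G (x + e * t)) t := by
          apply setLIntegral_mono' measurableSet_Ioc
          intro t ht
          obtain ⟨j, hj1, hj2⟩ := exists_nat_pow_near_of_lt_one ht.1 ht.2
            (by norm_num : (0 : ℝ) < 1 / 2) (by norm_num : (1 / 2 : ℝ) < 1)
          refine le_trans ?_ (ENNReal.le_tsum j)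
          rw [Set.indicator_of_mem (show t ∈ Ioc 0 ((1 / 2 : ℝ) ^ j) from ⟨ht.1, hj2⟩)]
          gcongr
          exact hk j t hj1.le hj2
      _ ≤ ∫⁻ t, ∑' j : ℕ, ENNReal.ofReal (s j) *
            (Ioc 0 ((1 / 2 : ℝ) ^ j)).indicator (fun t => G (x + e * t)) t :=
          setLIntegral_le_lintegral _ _
      _ = ∑' j, ENNReal.ofReal (s j) * A j x := by
          rw [lintegral_tsum]
          · congr 1
            ext j
            rw [lintegral_const_mul _ ((hGm x).indicator measurableSet_Ioc),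
              lintegral_indicator measurableSet_Ioc]
          · intro j
            exact (((hGm x).indicator measurableSet_Ioc).const_mul _).aemeasurable
  -- Cauchy–Schwarz
  have hcs : ∀ x, (∑' j, ENNReal.ofReal (s j) * A j x) ^ 2 ≤
      (∑' j, ENNReal.ofReal (s j * (1 / 2 : ℝ) ^ j)) *
        ∑' j, ENNReal.ofReal (s j * (2 : ℝ) ^ j) * A j x ^ 2 := by
    intro x
    have h1 := cs_lintegral (Measure.count : Measure ℕ)
      (fun j => ENNReal.ofReal (√(s j * (1 / 2 : ℝ) ^ j)))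
      (fun j => ENNReal.ofReal (√(s j * (2 : ℝ) ^ j)) * A j x)
      (measurable_of_countable _) (measurable_of_countable _)
    rw [lintegral_count, lintegral_count, lintegral_count] at h1
    have e1 : ∀ j, ENNReal.ofReal (√(s j * (1 / 2 : ℝ) ^ j)) *
        (ENNReal.ofReal (√(s j * (2 : ℝ) ^ j)) * A j x) = ENNReal.ofReal (s j) * A j x := by
      intro j
      rw [← mul_assoc, ← ENNReal.ofReal_mul (Real.sqrt_nonneg _), ← Real.sqrt_mul
        (mul_nonneg (hs j) (by positivity))]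
      congr 3
      rw [show s j * (1 / 2 : ℝ) ^ j * (s j * 2 ^ j) = s j ^ 2 * ((1 / 2 : ℝ) ^ j * 2 ^ j) by ring,
        ← mul_pow]
      norm_num
      exact Real.sqrt_sq (hs j)
    have e2 : ∀ j, ENNReal.ofReal (√(s j * (1 / 2 : ℝ) ^ j)) ^ 2 =
        ENNReal.ofReal (s j * (1 / 2 : ℝ) ^ j) := by
      intro j
      rw [← ENNReal.ofReal_pow (Real.sqrt_nonneg _), Real.sq_sqrt
        (mul_nonneg (hs j) (by positivity))]
    have e3 : ∀ j, (ENNReal.ofReal (√(s j * (2 : ℝ) ^ j)) * A j x) ^ 2 =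
        ENNReal.ofReal (s j * (2 : ℝ) ^ j) * A j x ^ 2 := by
      intro j
      rw [mul_pow, ← ENNReal.ofReal_pow (Real.sqrt_nonneg _), Real.sq_sqrt
        (mul_nonneg (hs j) (by positivity))]
    simp only [e1, e2, e3] at h1
    exact h1
  have hSs : ∑' j, ENNReal.ofReal (s j * (1 / 2 : ℝ) ^ j) ≤ ENNReal.ofReal S := by
    apply ENNReal.tsum_le_of_sum_range_le
    intro n
    rw [← ENNReal.ofReal_sum_of_nonneg (fun j _ => mul_nonneg (hs j) (by positivity))]
    exact ENNReal.ofReal_le_ofReal (hS n)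
  set N : ℝ≥0∞ := ∫⁻ x, G x ^ 2 * W x with hN
  calc ∫⁻ x, (∫⁻ t in Ioc 0 1, k t * G (x + e * t)) ^ 2 * W x
      ≤ ∫⁻ x, ENNReal.ofReal S * ∑' j, ENNReal.ofReal (s j * (2 : ℝ) ^ j) * (A j x ^ 2 * W x) := by
        apply lintegral_mono
        intro x
        simp only
        calc (∫⁻ t in Ioc 0 1, k t * G (x + e * t)) ^ 2 * W x
            ≤ (∑' j, ENNReal.ofReal (s j) * A j x) ^ 2 * W x := by
              gcongr
              exact hpt x
          _ ≤ ((∑' j, ENNReal.ofReal (s j * (1 / 2 : ℝ) ^ j)) *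
                ∑' j, ENNReal.ofReal (s j * (2 : ℝ) ^ j) * A j x ^ 2) * W x := by
              gcongr
              exact hcs x
          _ ≤ (ENNReal.ofReal S *
                ∑' j, ENNReal.ofReal (s j * (2 : ℝ) ^ j) * A j x ^ 2) * W x := by
              gcongr
          _ = ENNReal.ofReal S *
                ∑' j, ENNReal.ofReal (s j * (2 : ℝ) ^ j) * (A j x ^ 2 * W x) := by
              rw [mul_assoc, ← ENNReal.tsum_mul_right]
              simp only [mul_assoc]
    _ = ENNReal.ofReal S * ∑' j, ENNReal.ofReal (s j * (2 : ℝ) ^ j) *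
          ∫⁻ x, A j x ^ 2 * W x := by
        have hm : ∀ j, Measurable fun x => A j x ^ 2 * W x := fun j =>
          ((hAm j).pow_const 2).mul h.meas
        rw [lintegral_const_mul, lintegral_tsum]
        · congr 2
          ext j
          rw [lintegral_const_mul _ (hm j)]
        · intro j
          exact ((hm j).const_mul _).aemeasurable
        · exact Measurable.tsum fun j => (hm j).const_mul _
    _ ≤ ENNReal.ofReal S * ∑' j, ENNReal.ofReal (s j * (1 / 2 : ℝ) ^ j) *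
          (ENNReal.ofReal (12800 * K) * N) := by
        refine mul_le_mul_right (ENNReal.tsum_le_tsum fun j => ?_) _
        calc ENNReal.ofReal (s j * (2 : ℝ) ^ j) * ∫⁻ x, A j x ^ 2 * W x
            ≤ ENNReal.ofReal (s j * (2 : ℝ) ^ j) *
              (ENNReal.ofReal (12800 * K * ((1 / 2 : ℝ) ^ j) ^ 2) * N) := by
              gcongr
              exact near_single h e he G hG _ (by positivity)
                (pow_le_one₀ (by norm_num) (by norm_num))
          _ = ENNReal.ofReal (s j * (1 / 2 : ℝ) ^ j) * (ENNReal.ofReal (12800 * K) * N) := by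
              rw [← mul_assoc, ← mul_assoc, ← ENNReal.ofReal_mul
                (mul_nonneg (hs j) (by positivity)), ← ENNReal.ofReal_mul
                (mul_nonneg (hs j) (by positivity))]
              congr 2
              have : (2 : ℝ) ^ j * (1 / 2 : ℝ) ^ j = 1 := by
                rw [← mul_pow]
                norm_num
              linear_combination (s j * 12800 * K * (1 / 2 : ℝ) ^ j) * this
    _ = ENNReal.ofReal S * ((∑' j, ENNReal.ofReal (s j * (1 / 2 : ℝ) ^ j)) *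
          (ENNReal.ofReal (12800 * K) * N)) := by
        rw [ENNReal.tsum_mul_right]
    _ ≤ ENNReal.ofReal S * (ENNReal.ofReal S * (ENNReal.ofReal (12800 * K) * N)) := by
        gcongr
    _ = ENNReal.ofReal (12800 * K * S ^ 2) * N := by
        rw [← mul_assoc, ← mul_assoc, ← ENNReal.ofReal_mul hS0, ← ENNReal.ofReal_mul
          (by positivity)]
        congr 2
        ring

end Pool.Agent.Lib.MP_f0c028_an
end

section

set_option autoImplicit false
namespace Pool.Agent.Lib.MP_f0c028_an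

open Finset MeasureTheory Real Set
open scoped ENNReal

namespace RWK6

theorem symm {W Wi : ℝ → ℝ≥0∞} {K : ℝ} (h : LogA2 W Wi K) : LogA2 Wi W K where
  meas := h.measi
  measi := h.meas
  mul_eq := fun x => by rw [mul_comm]; exact h.mul_eq x
  one_le := h.one_le
  loc := fun x l h1 h2 => by rw [mul_comm]; exact h.loc x l h1 h2
  glob := fun x => by rw [mul_comm]; exact h.glob x

/-- weighted Cauchy-Schwarz -/
theorem wcs {α : Type*} [MeasurableSpace α] {μ : Measure α} {a b c : α → ℝ≥0∞}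
    (ha : AEMeasurable a μ) (hb : AEMeasurable b μ) (h : ∀ x, c x ^ 2 ≤ a x * b x) :
    (∫⁻ x, c x ∂μ) ^ 2 ≤ (∫⁻ x, a x ∂μ) * ∫⁻ x, b x ∂μ := by
  have hc : ∀ x, c x ≤ a x ^ (1 / 2 : ℝ) * b x ^ (1 / 2 : ℝ) := by
    intro x
    rw [← ENNReal.mul_rpow_of_nonneg _ _ (by norm_num)]
    have h1 : c x = (c x ^ 2) ^ (1 / 2 : ℝ) := by
      rw [← ENNReal.rpow_natCast, ← ENNReal.rpow_mul]
      norm_num
    rw [h1]
    exact ENNReal.rpow_le_rpow (h x) (by norm_num)
  have h2 : ∫⁻ x, c x ∂μ ≤ (∫⁻ x, a x ∂μ) ^ (1 / 2 : ℝ) * (∫⁻ x, b x ∂μ) ^ (1 / 2 : ℝ) := by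
    refine (lintegral_mono hc).trans ?_
    have h3 := ENNReal.lintegral_mul_le_Lp_mul_Lq μ Real.HolderConjugate.two_two
      (ha.pow_const (1 / 2 : ℝ)) (hb.pow_const (1 / 2 : ℝ))
    simp only [Pi.mul_apply] at h3
    refine h3.trans (le_of_eq ?_)
    congr 2
    · congr 1
      ext x
      rw [← ENNReal.rpow_mul]
      norm_num
    · congr 1
      ext x
      rw [← ENNReal.rpow_mul]
      norm_num
  calc (∫⁻ x, c x ∂μ) ^ 2 ≤ ((∫⁻ x, a x ∂μ) ^ (1 / 2 : ℝ) * (∫⁻ x, b x ∂μ) ^ (1 / 2 : ℝ)) ^ 2 :=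
        pow_le_pow_left' h2 2
    _ = (∫⁻ x, a x ∂μ) * ∫⁻ x, b x ∂μ := by
        rw [mul_pow, ← ENNReal.rpow_natCast, ← ENNReal.rpow_mul, ← ENNReal.rpow_natCast,
          ← ENNReal.rpow_mul]
        norm_num

/-- the mass below `n` of `W e^{2y}` -/
noncomputable def SS (W : ℝ → ℝ≥0∞) (n : ℤ) : ℝ≥0∞ :=
  ∫⁻ y in Iio (n : ℝ), W y * ENNReal.ofReal (Real.exp (2 * y))

/-- the same as a real number -/
noncomputable def S (W : ℝ → ℝ≥0∞) (n : ℤ) : ℝ := (SS W n).toReal

/-- the mass of `[n,n+1)` -/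
noncomputable def cell (W : ℝ → ℝ≥0∞) (n : ℤ) : ℝ≥0∞ :=
  ∫⁻ y in Ico (n : ℝ) (n + 1), W y * ENNReal.ofReal (Real.exp (2 * y))

theorem SS_succ (W : ℝ → ℝ≥0∞) (n : ℤ) : SS W (n + 1) = SS W n + cell W n := by
  unfold SS cell
  rw [← lintegral_union measurableSet_Ico]
  · congr 2
    rw [Iio_union_Ico_eq_Iio]
    · push_cast; rfl
    · linarith
  · rw [Set.disjoint_left]
    intro x hx hx'
    exact absurd hx'.1 (not_le.mpr hx)

variable {W Wi : ℝ → ℝ≥0∞} {K : ℝ}

theorem meas_we (h : LogA2 W Wi K) :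
    Measurable (fun y : ℝ => W y * ENNReal.ofReal (Real.exp (2 * y))) :=
  h.meas.mul (by fun_prop)

theorem SS_pos (h : LogA2 W Wi K) (n : ℤ) : 0 < SS W n := by
  unfold SS
  have hm : Measurable (fun y : ℝ => W y * ENNReal.ofReal (Real.exp (2 * y))) :=
    h.meas.mul (by fun_prop)
  rw [lintegral_pos_iff_support hm]
  have hs : Function.support (fun y : ℝ => W y * ENNReal.ofReal (Real.exp (2 * y))) = univ := by
    ext y
    simp only [Function.mem_support, Set.mem_univ, iff_true]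
    have h1 : W y ≠ 0 := by
      intro h0
      have := h.mul_eq y
      rw [h0, zero_mul] at this
      exact zero_ne_one this
    have h2 : ENNReal.ofReal (Real.exp (2 * y)) ≠ 0 := by
      rw [Ne, ENNReal.ofReal_eq_zero, not_le]
      exact Real.exp_pos _
    exact mul_ne_zero h1 h2
  rw [hs, Measure.restrict_apply MeasurableSet.univ, Set.univ_inter, Real.volume_Iio]
  exact ENNReal.zero_lt_top

theorem SS_mul_le (h : LogA2 W Wi K) (n : ℤ) :
    SS W n * SS Wi n ≤ ENNReal.ofReal (K / 4 * Real.exp (4 * n)) := by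
  refine le_trans ?_ (h.glob n)
  exact mul_le_mul' (lintegral_mono_set Iio_subset_Iic_self)
    (lintegral_mono_set Iio_subset_Iic_self)

theorem SS_ne_top (h : LogA2 W Wi K) (n : ℤ) : SS W n ≠ ∞ := by
  intro h0
  have h1 := SS_mul_le h n
  have h2 := SS_pos (symm h) n
  rw [h0, ENNReal.top_mul h2.ne'] at h1
  exact absurd h1 (by simp)

theorem S_pos (h : LogA2 W Wi K) (n : ℤ) : 0 < S W n :=
  ENNReal.toReal_pos (SS_pos h n).ne' (SS_ne_top h n)

theorem SS_eq (h : LogA2 W Wi K) (n : ℤ) : SS W n = ENNReal.ofReal (S W n) :=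
  (ENNReal.ofReal_toReal (SS_ne_top h n)).symm

theorem cell_ne_top (h : LogA2 W Wi K) (n : ℤ) : cell W n ≠ ∞ := by
  have h1 := SS_succ W n
  have h2 := SS_ne_top h (n + 1)
  intro h0
  rw [h0, add_top] at h1
  exact h2 h1

theorem cell_eq (h : LogA2 W Wi K) (n : ℤ) :
    cell W n = ENNReal.ofReal (S W (n + 1) - S W n) := by
  have h1 : S W (n + 1) = S W n + (cell W n).toReal := by
    unfold S
    rw [SS_succ, ENNReal.toReal_add (SS_ne_top h n) (cell_ne_top h n)]
  rw [h1, add_sub_cancel_left, ENNReal.ofReal_toReal (cell_ne_top h n)]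

theorem S_mono_succ (h : LogA2 W Wi K) (n : ℤ) : S W n ≤ S W (n + 1) := by
  unfold S
  refine ENNReal.toReal_mono (SS_ne_top h _) ?_
  rw [SS_succ]
  exact le_self_add

theorem S_mul_le (h : LogA2 W Wi K) (n : ℤ) :
    S W n * S Wi n ≤ K / 4 * Real.exp (4 * n) := by
  have h1 := SS_mul_le h n
  rw [SS_eq h, SS_eq (symm h), ← ENNReal.ofReal_mul (S_pos h n).le] at h1
  have hK : 0 ≤ K / 4 * Real.exp (4 * n) := by
    have := h.one_le
    have := Real.exp_pos (4 * (n : ℝ))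
    positivity
  exact (ENNReal.ofReal_le_ofReal_iff hK).mp h1

theorem int_exp (n : ℤ) : ∫⁻ y in Ico (n : ℝ) (n + 1), ENNReal.ofReal (Real.exp (2 * y))
    = ENNReal.ofReal (Real.exp (2 * n) * ((Real.exp 2 - 1) / 2)) := by
  rw [← ofReal_integral_eq_lintegral_ofReal]
  · congr 1
    rw [integral_Ico_eq_integral_Ioc, ← intervalIntegral.integral_of_le (by linarith)]
    have h1 : ∀ x ∈ Set.uIcc (n : ℝ) (n + 1),
        HasDerivAt (fun y : ℝ => Real.exp (2 * y) / 2) (Real.exp (2 * x)) x := by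
      intro x _
      have := (((hasDerivAt_id x).const_mul 2).exp).div_const 2
      simpa using this
    rw [intervalIntegral.integral_eq_sub_of_hasDerivAt h1
      (Continuous.intervalIntegrable (by fun_prop) _ _)]
    have : Real.exp (2 * ((n : ℝ) + 1)) = Real.exp (2 * n) * Real.exp 2 := by
      rw [← Real.exp_add]; congr 1; ring
    rw [this]; ring
  · refine (Continuous.integrableOn_Icc (by fun_prop)).mono_set Ico_subset_Icc_self
  · exact Filter.Eventually.of_forall (fun y => (Real.exp_pos _).le)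

/-- growth of the masses -/
theorem growth (h : LogA2 W Wi K) (n : ℤ) :
    S Wi n ≤ (1 - 7 / 10 / K) * S Wi (n + 1) := by
  have hK := h.one_le
  have hK0 : 0 < K := by linarith
  -- Cauchy-Schwarz on the cell
  have h1 : (∫⁻ y in Ico (n : ℝ) (n + 1), ENNReal.ofReal (Real.exp (2 * y))) ^ 2
      ≤ cell W n * cell Wi n := by
    refine wcs (h.meas.mul (by fun_prop)).aemeasurable (h.measi.mul (by fun_prop)).aemeasurable ?_
    intro y
    have : W y * ENNReal.ofReal (Real.exp (2 * y)) * (Wi y * ENNReal.ofReal (Real.exp (2 * y)))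
        = (W y * Wi y) * ENNReal.ofReal (Real.exp (2 * y)) ^ 2 := by ring
    rw [this, h.mul_eq, one_mul]
  rw [int_exp, cell_eq h, cell_eq (symm h), ← ENNReal.ofReal_pow (by
    have : 1 ≤ Real.exp 2 := Real.one_le_exp (by norm_num)
    have := Real.exp_pos (2 * (n : ℝ))
    positivity), ← ENNReal.ofReal_mul (by linarith [S_mono_succ h n])] at h1
  have h2 := (ENNReal.ofReal_le_ofReal_iff (mul_nonneg (by linarith [S_mono_succ h n])
    (by linarith [S_mono_succ (symm h) n]))).mp h1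
  have h3 := S_mul_le h (n + 1)
  have hp := S_pos h n
  have hp' := S_pos h (n + 1)
  have hq' := S_pos (symm h) (n + 1)
  have hd := S_mono_succ (symm h) n
  set s := S Wi (n + 1) - S Wi n with hs
  have hs0 : 0 ≤ s := by linarith
  have h4 : (Real.exp (2 * n) * ((Real.exp 2 - 1) / 2)) ^ 2 ≤ S W (n + 1) * s :=
    h2.trans (mul_le_mul_of_nonneg_right (by linarith) hs0)
  have h5 : (Real.exp (2 * n) * ((Real.exp 2 - 1) / 2)) ^ 2 * S Wi (n + 1)
      ≤ K / 4 * Real.exp (4 * ((n + 1 : ℤ) : ℝ)) * s := by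
    calc _ ≤ S W (n + 1) * s * S Wi (n + 1) := mul_le_mul_of_nonneg_right h4 hq'.le
      _ = S W (n + 1) * S Wi (n + 1) * s := by ring
      _ ≤ _ := mul_le_mul_of_nonneg_right h3 hs0
  have h6 : Real.exp (4 * ((n + 1 : ℤ) : ℝ)) = Real.exp (2 * n) ^ 2 * Real.exp 2 ^ 2 := by
    rw [← Real.exp_nat_mul, ← Real.exp_nat_mul, ← Real.exp_add]
    congr 1; push_cast; ring
  rw [h6] at h5
  have hE : 0 < Real.exp (2 * n) ^ 2 := by positivity
  have h7 : (Real.exp 2 - 1) ^ 2 * S Wi (n + 1) ≤ K * Real.exp 2 ^ 2 * s := by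
    have : Real.exp (2 * n) ^ 2 * ((Real.exp 2 - 1) ^ 2 * S Wi (n + 1))
        ≤ Real.exp (2 * n) ^ 2 * (K * Real.exp 2 ^ 2 * s) := by nlinarith
    exact le_of_mul_le_mul_left this hE
  have he2 : (7.38 : ℝ) ≤ Real.exp 2 := by
    have h8 : Real.exp 2 = Real.exp 1 ^ 2 := by rw [← Real.exp_nat_mul]; norm_num
    have := Real.exp_one_gt_d9
    rw [h8]; nlinarith
  have h9 : 7 / 10 * Real.exp 2 ^ 2 ≤ (Real.exp 2 - 1) ^ 2 := by nlinarith
  have h10 : 7 / 10 * Real.exp 2 ^ 2 * S Wi (n + 1) ≤ K * Real.exp 2 ^ 2 * s :=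
    (mul_le_mul_of_nonneg_right h9 hq'.le).trans h7
  have h11 : 7 / 10 * S Wi (n + 1) ≤ K * s := by
    have hE2 : 0 < Real.exp 2 ^ 2 := by positivity
    have : Real.exp 2 ^ 2 * (7 / 10 * S Wi (n + 1)) ≤ Real.exp 2 ^ 2 * (K * s) := by nlinarith
    exact le_of_mul_le_mul_left this hE2
  have h12 : 7 / 10 / K * S Wi (n + 1) ≤ s := by
    rw [div_mul_eq_mul_div, div_le_iff₀ hK0]; linarith
  linarith

/-- growth of the square roots -/
theorem growth_sqrt (h : LogA2 W Wi K) (n : ℤ) :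
    √(S Wi n) ≤ (1 - 7 / 20 / K) * √(S Wi (n + 1)) := by
  have hK := h.one_le
  have hK0 : 0 < K := by linarith
  have h1 : 7 / 20 / K ≤ 1 := by rw [div_le_one hK0]; linarith
  have h0 : 0 ≤ 7 / 20 / K := by positivity
  refine (Real.sqrt_le_left (mul_nonneg (by linarith) (Real.sqrt_nonneg _))).mpr ?_
  rw [mul_pow, Real.sq_sqrt (S_pos (symm h) (n + 1)).le]
  refine (growth h n).trans (mul_le_mul_of_nonneg_right ?_ (S_pos (symm h) (n + 1)).le)
  have : 7 / 10 / K = 2 * (7 / 20 / K) := by ring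
  rw [this]
  nlinarith [sq_nonneg (7 / 20 / K)]

theorem inv_sqrt_le (h : LogA2 W Wi K) (n : ℤ) (k : ℕ) :
    1 / √(S Wi (n + k)) ≤ (1 - 7 / 20 / K) ^ k * (1 / √(S Wi n)) := by
  have hK := h.one_le
  have hK0 : 0 < K := by linarith
  have h1 : 7 / 20 / K ≤ 1 := by rw [div_le_one hK0]; linarith
  induction k with
  | zero => simp
  | succ k ih =>
    have h2 := growth_sqrt h (n + k)
    have hp1 : 0 < √(S Wi (n + k)) := Real.sqrt_pos.mpr (S_pos (symm h) _)
    have hp2 : 0 < √(S Wi (n + k + 1)) := Real.sqrt_pos.mpr (S_pos (symm h) _)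
    have h3 : 1 / √(S Wi (n + k + 1)) ≤ (1 - 7 / 20 / K) * (1 / √(S Wi (n + k))) := by
      rw [mul_one_div, div_le_div_iff₀ hp2 hp1]
      linarith
    have h4 : (n + ((k + 1 : ℕ) : ℤ)) = n + k + 1 := by push_cast; ring
    rw [h4, pow_succ']
    refine h3.trans ?_
    rw [mul_assoc]
    exact mul_le_mul_of_nonneg_left ih (by linarith)

theorem floor_of_mem {n : ℤ} {y : ℝ} (hy : y ∈ Ico (n : ℝ) (n + 1)) : ⌊y⌋ = n :=
  Int.floor_eq_iff.mpr ⟨hy.1, hy.2⟩

/-- Lemma A -/
theorem lemA (h : LogA2 W Wi K) (n : ℤ) :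
    ∫⁻ y in Iio (n : ℝ), W y * ENNReal.ofReal (Real.exp (2 * y)) *
      ENNReal.ofReal (1 / √(S W (⌊y⌋ + 1))) ≤ ENNReal.ofReal (2 * √(S W n)) := by
  have hsub : Iio (n : ℝ) ⊆ ⋃ k : ℕ, Ico (((n - k - 1 : ℤ)) : ℝ) (((n - k - 1 : ℤ) : ℝ) + 1) := by
    intro y hy
    rw [Set.mem_iUnion]
    have hlt : ⌊y⌋ < n := Int.floor_lt.mpr hy
    refine ⟨(n - 1 - ⌊y⌋).toNat, ?_⟩
    have h1 : (((n - 1 - ⌊y⌋).toNat : ℕ) : ℤ) = n - 1 - ⌊y⌋ := Int.toNat_of_nonneg (by omega)
    have h2 : n - (((n - 1 - ⌊y⌋).toNat : ℕ) : ℤ) - 1 = ⌊y⌋ := by omega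
    rw [h2]
    exact ⟨Int.floor_le y, Int.lt_floor_add_one y⟩
  refine (lintegral_mono_set hsub).trans ((lintegral_iUnion_le _ _).trans ?_)
  refine ENNReal.tsum_le_of_sum_range_le (fun N => ?_)
  have hcell : ∀ k : ℕ, ∫⁻ y in Ico (((n - k - 1 : ℤ)) : ℝ) (((n - k - 1 : ℤ) : ℝ) + 1),
      W y * ENNReal.ofReal (Real.exp (2 * y)) * ENNReal.ofReal (1 / √(S W (⌊y⌋ + 1)))
      ≤ ENNReal.ofReal (2 * (√(S W (n - k)) - √(S W (n - k - 1)))) := by
    intro k
    have h1 : ∫⁻ y in Ico (((n - k - 1 : ℤ)) : ℝ) (((n - k - 1 : ℤ) : ℝ) + 1),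
      W y * ENNReal.ofReal (Real.exp (2 * y)) * ENNReal.ofReal (1 / √(S W (⌊y⌋ + 1)))
      = cell W (n - k - 1) * ENNReal.ofReal (1 / √(S W (n - k))) := by
      unfold cell
      rw [← lintegral_mul_const _ (meas_we h)]
      refine setLIntegral_congr_fun measurableSet_Ico (fun y hy => ?_)
      rw [floor_of_mem hy, sub_add_cancel]
    rw [h1, cell_eq h, sub_add_cancel, ← ENNReal.ofReal_mul (by
      have := S_mono_succ h (n - k - 1); rw [sub_add_cancel] at this; linarith)]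
    refine ENNReal.ofReal_le_ofReal ?_
    have hp : 0 < S W (n - k) := S_pos h _
    have hq : 0 < S W (n - k - 1) := S_pos h _
    have hsp : 0 < √(S W (n - k)) := Real.sqrt_pos.mpr hp
    have hle : √(S W (n - k - 1)) ≤ √(S W (n - k)) := by
      refine Real.sqrt_le_sqrt ?_
      have := S_mono_succ h (n - k - 1); rwa [sub_add_cancel] at this
    rw [mul_one_div, div_le_iff₀ hsp]
    nlinarith [Real.mul_self_sqrt hp.le, Real.mul_self_sqrt hq.le, Real.sqrt_nonneg (S W (n - k - 1))]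
  refine (Finset.sum_le_sum (fun k _ => hcell k)).trans ?_
  have hnn : ∀ k : ℕ, 0 ≤ 2 * (√(S W (n - k)) - √(S W (n - k - 1))) := by
    intro k
    have : √(S W (n - k - 1)) ≤ √(S W (n - k)) := by
      refine Real.sqrt_le_sqrt ?_
      have := S_mono_succ h (n - k - 1); rwa [sub_add_cancel] at this
    linarith
  rw [← ENNReal.ofReal_sum_of_nonneg (fun k _ => hnn k)]
  refine ENNReal.ofReal_le_ofReal ?_
  have htel : ∑ k ∈ range N, 2 * (√(S W (n - k)) - √(S W (n - k - 1)))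
      = 2 * √(S W n) - 2 * √(S W (n - N)) := by
    induction N with
    | zero => simp
    | succ N ih =>
      rw [Finset.sum_range_succ, ih]
      have : n - ((N + 1 : ℕ) : ℤ) = n - N - 1 := by push_cast; ring
      rw [this]; ring
  rw [htel]
  have := Real.sqrt_nonneg (S W (n - N))
  linarith

/-- the constant -/
noncomputable def CC (K : ℝ) : ℝ := K * Real.exp 4 / 4 * (20 * K / 7)

theorem CC_pos (h : LogA2 W Wi K) : 0 < CC K := by
  have hK := h.one_le
  have hK0 : 0 < K := by linarith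
  unfold CC
  positivity

/-- Lemma B -/
theorem lemB (h : LogA2 W Wi K) (n : ℤ) :
    ∫⁻ x in Ici (n : ℝ), W x * ENNReal.ofReal (Real.exp (-(2 * x))) *
      ENNReal.ofReal (√(S Wi (⌊x⌋ + 1))) ≤ ENNReal.ofReal (CC K / √(S Wi (n + 1))) := by
  have hK := h.one_le
  have hK0 : 0 < K := by linarith
  have h1 : 7 / 20 / K ≤ 1 := by rw [div_le_one hK0]; linarith
  have h0 : 0 < 7 / 20 / K := by positivity
  have hsub : Ici (n : ℝ) ⊆ ⋃ k : ℕ, Ico (((n + k : ℤ)) : ℝ) (((n + k : ℤ) : ℝ) + 1) := by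
    intro y hy
    rw [Set.mem_iUnion]
    have hlt : n ≤ ⌊y⌋ := Int.le_floor.mpr hy
    refine ⟨(⌊y⌋ - n).toNat, ?_⟩
    have h1 : (((⌊y⌋ - n).toNat : ℕ) : ℤ) = ⌊y⌋ - n := Int.toNat_of_nonneg (by omega)
    have h2 : n + (((⌊y⌋ - n).toNat : ℕ) : ℤ) = ⌊y⌋ := by omega
    rw [h2]
    exact ⟨Int.floor_le y, Int.lt_floor_add_one y⟩
  refine (lintegral_mono_set hsub).trans ((lintegral_iUnion_le _ _).trans ?_)
  refine ENNReal.tsum_le_of_sum_range_le (fun N => ?_)
  have hcell : ∀ k : ℕ, ∫⁻ x in Ico (((n + k : ℤ)) : ℝ) (((n + k : ℤ) : ℝ) + 1),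
      W x * ENNReal.ofReal (Real.exp (-(2 * x))) * ENNReal.ofReal (√(S Wi (⌊x⌋ + 1)))
      ≤ ENNReal.ofReal (K * Real.exp 4 / 4 * ((1 - 7 / 20 / K) ^ k * (1 / √(S Wi (n + 1))))) := by
    intro k
    have h2 : ∫⁻ x in Ico (((n + k : ℤ)) : ℝ) (((n + k : ℤ) : ℝ) + 1),
        W x * ENNReal.ofReal (Real.exp (-(2 * x))) * ENNReal.ofReal (√(S Wi (⌊x⌋ + 1)))
        ≤ cell W (n + k) * ENNReal.ofReal
          (Real.exp (-(4 * ((n + k : ℤ) : ℝ))) * √(S Wi (n + k + 1))) := by
      unfold cell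
      rw [← lintegral_mul_const _ (meas_we h)]
      refine setLIntegral_mono' measurableSet_Ico (fun y hy => ?_)
      rw [floor_of_mem hy, mul_assoc, mul_assoc, ← ENNReal.ofReal_mul (Real.exp_pos _).le,
        ← ENNReal.ofReal_mul (Real.exp_pos _).le]
      refine mul_le_mul_right (ENNReal.ofReal_le_ofReal ?_) _
      rw [← mul_assoc, ← Real.exp_add]
      refine mul_le_mul_of_nonneg_right (Real.exp_le_exp.mpr ?_) (Real.sqrt_nonneg _)
      have := hy.1
      linarith
    refine h2.trans ?_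
    have h3 : cell W (n + k) ≤ ENNReal.ofReal (S W (n + k + 1)) := by
      rw [← SS_eq h, SS_succ]
      exact le_add_self
    refine (mul_le_mul_left h3 _).trans ?_
    rw [← ENNReal.ofReal_mul (S_pos h _).le]
    refine ENNReal.ofReal_le_ofReal ?_
    have h4 := S_mul_le h (n + k + 1)
    have hq : 0 < S Wi (n + k + 1) := S_pos (symm h) _
    have hsq : 0 < √(S Wi (n + k + 1)) := Real.sqrt_pos.mpr hq
    have h5 := inv_sqrt_le h (n + 1) k
    have h6 : n + 1 + (k : ℤ) = n + k + 1 := by ring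
    rw [h6] at h5
    refine le_trans ?_ (mul_le_mul_of_nonneg_left h5 (by positivity))
    rw [mul_one_div, le_div_iff₀ hsq]
    have h7 : S W (n + k + 1) * (Real.exp (-(4 * ((n + k : ℤ) : ℝ))) * √(S Wi (n + k + 1)))
          * √(S Wi (n + k + 1))
        = Real.exp (-(4 * ((n + k : ℤ) : ℝ))) * (S W (n + k + 1) * S Wi (n + k + 1)) := by
      have := Real.mul_self_sqrt hq.le
      linear_combination (S W (n + k + 1) * Real.exp (-(4 * ((n + k : ℤ) : ℝ)))) * this
    rw [h7]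
    calc Real.exp (-(4 * ((n + k : ℤ) : ℝ))) * (S W (n + k + 1) * S Wi (n + k + 1))
        ≤ Real.exp (-(4 * ((n + k : ℤ) : ℝ))) * (K / 4 * Real.exp (4 * ((n + k + 1 : ℤ) : ℝ))) :=
          mul_le_mul_of_nonneg_left h4 (Real.exp_pos _).le
      _ = K * Real.exp 4 / 4 := by
          have : Real.exp (-(4 * ((n + k : ℤ) : ℝ))) * Real.exp (4 * ((n + k + 1 : ℤ) : ℝ))
              = Real.exp 4 := by
            rw [← Real.exp_add]; congr 1; push_cast; ring
          linear_combination (K / 4) * this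
  refine (Finset.sum_le_sum (fun k _ => hcell k)).trans ?_
  have hρ0 : 0 ≤ 1 - 7 / 20 / K := by linarith
  have hρ1 : 1 - 7 / 20 / K < 1 := by linarith
  have hsq : 0 < √(S Wi (n + 1)) := Real.sqrt_pos.mpr (S_pos (symm h) _)
  rw [← ENNReal.ofReal_sum_of_nonneg (fun k _ => by positivity)]
  refine ENNReal.ofReal_le_ofReal ?_
  rw [← Finset.mul_sum, ← Finset.sum_mul]
  have hgeo : ∑ k ∈ range N, (1 - 7 / 20 / K) ^ k ≤ 20 * K / 7 := by
    have h2 : ∑ k ∈ range N, (1 - 7 / 20 / K) ^ k ≤ ∑' k : ℕ, (1 - 7 / 20 / K) ^ k :=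
      (summable_geometric_of_lt_one hρ0 hρ1).sum_le_tsum _ (fun k _ => by positivity)
    rw [tsum_geometric_of_lt_one hρ0 hρ1] at h2
    refine h2.trans (le_of_eq ?_)
    field_simp
    ring
  unfold CC
  rw [div_eq_mul_one_div (K * Real.exp 4 / 4 * (20 * K / 7)), mul_assoc]
  refine mul_le_mul_of_nonneg_left ?_ (by positivity)
  exact mul_le_mul_of_nonneg_right hgeo (by positivity)

/-- the weight as a function -/
noncomputable def ph (W : ℝ → ℝ≥0∞) (y : ℝ) : ℝ≥0∞ := ENNReal.ofReal (√(S W (⌊y⌋ + 1)))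

/-- its inverse -/
noncomputable def phi (W : ℝ → ℝ≥0∞) (y : ℝ) : ℝ≥0∞ := ENNReal.ofReal (1 / √(S W (⌊y⌋ + 1)))

theorem meas_ph (W : ℝ → ℝ≥0∞) : Measurable (ph W) :=
  (measurable_from_top (f := fun n : ℤ => ENNReal.ofReal (√(S W (n + 1))))).comp Int.measurable_floor

theorem meas_phi (W : ℝ → ℝ≥0∞) : Measurable (phi W) :=
  (measurable_from_top (f := fun n : ℤ => ENNReal.ofReal (1 / √(S W (n + 1))))).comp
    Int.measurable_floor

theorem ph_mul_phi (h : LogA2 W Wi K) (y : ℝ) : ph W y * phi W y = 1 := by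
  unfold ph phi
  have hsq : 0 < √(S W (⌊y⌋ + 1)) := Real.sqrt_pos.mpr (S_pos h _)
  rw [← ENNReal.ofReal_mul hsq.le, mul_one_div, div_self hsq.ne', ENNReal.ofReal_one]

theorem ofReal_exp_mul (a b : ℝ) : ENNReal.ofReal (Real.exp a) * ENNReal.ofReal (Real.exp b)
    = ENNReal.ofReal (Real.exp (a + b)) := by
  rw [← ENNReal.ofReal_mul (Real.exp_pos _).le, ← Real.exp_add]

theorem ofReal_exp_sq (a : ℝ) : ENNReal.ofReal (Real.exp a) ^ 2 = ENNReal.ofReal (Real.exp (2 * a)) := by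
  rw [sq, ofReal_exp_mul]; congr 2; ring

/-- the case of the left operator -/
theorem left_case (h : LogA2 W Wi K) (G : ℝ → ℝ≥0∞) (hG : Measurable G) :
    ∫⁻ x, (∫⁻ t in Ioi 1, ENNReal.ofReal (Real.exp (-t)) * G (x + (-1) * t)) ^ 2 * W x ≤
      ENNReal.ofReal (2 * CC K) * ∫⁻ x, G x ^ 2 * W x := by
  -- pointwise bound of the inner integral
  have hin : ∀ x : ℝ, ∫⁻ t in Ioi 1, ENNReal.ofReal (Real.exp (-t)) * G (x + (-1) * t)
      ≤ ENNReal.ofReal (Real.exp (-x)) *
        ∫⁻ y in Iio ((⌊x⌋ : ℤ) : ℝ), ENNReal.ofReal (Real.exp y) * G y := by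
    intro x
    have hm1 : Measurable (fun y : ℝ => ENNReal.ofReal (Real.exp y) * G y) :=
      Measurable.mul (by fun_prop) hG
    rw [← lintegral_indicator measurableSet_Ioi, ← lintegral_indicator measurableSet_Iio,
      ← lintegral_const_mul _ (hm1.indicator measurableSet_Iio)]
    rw [← lintegral_sub_left_eq_self (fun y => ENNReal.ofReal (Real.exp (-x)) *
      (Iio ((⌊x⌋ : ℤ) : ℝ)).indicator (fun y => ENNReal.ofReal (Real.exp y) * G y) y) x]
    refine lintegral_mono (fun t => ?_)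
    by_cases ht : t ∈ Ioi (1 : ℝ)
    · rw [Set.indicator_of_mem ht]
      have h1 : x - t ∈ Iio ((⌊x⌋ : ℤ) : ℝ) := by
        have h2 := Int.lt_floor_add_one x
        have h3 : (1 : ℝ) < t := ht
        simp only [Set.mem_Iio]
        linarith
      rw [Set.indicator_of_mem h1, ← mul_assoc, ofReal_exp_mul]
      refine le_of_eq ?_
      congr 3
      · ring
      · ring
    · rw [Set.indicator_of_notMem ht]
      exact zero_le
  -- Cauchy-Schwarz
  have hcs : ∀ x : ℝ, (∫⁻ y in Iio ((⌊x⌋ : ℤ) : ℝ), ENNReal.ofReal (Real.exp y) * G y) ^ 2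
      ≤ (∫⁻ y in Iio ((⌊x⌋ : ℤ) : ℝ), G y ^ 2 * W y * ph Wi y) * ENNReal.ofReal (2 * √(S Wi ⌊x⌋)) := by
    intro x
    refine le_trans (wcs (a := fun y => G y ^ 2 * W y * ph Wi y)
      (b := fun y => Wi y * ENNReal.ofReal (Real.exp (2 * y)) * phi Wi y)
      (((hG.pow_const 2).mul h.meas).mul (meas_ph Wi)).aemeasurable
      ((meas_we (symm h)).mul (meas_phi Wi)).aemeasurable ?_) ?_
    · intro y
      have h1 : G y ^ 2 * W y * ph Wi y * (Wi y * ENNReal.ofReal (Real.exp (2 * y)) * phi Wi y)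
          = (W y * Wi y) * (ph Wi y * phi Wi y) * (ENNReal.ofReal (Real.exp (2 * y)) * G y ^ 2) := by
        ring
      rw [h1, h.mul_eq, ph_mul_phi (symm h), one_mul, one_mul, mul_pow, ofReal_exp_sq]
    · exact mul_le_mul_right (lemA (symm h) ⌊x⌋) _
  -- the kernel
  set Ker : ℝ → ℝ → ℝ≥0∞ := fun x y => (Iio ((⌊x⌋ : ℤ) : ℝ)).indicator
    (fun y => (G y ^ 2 * W y * ph Wi y)) y *
      (W x * ENNReal.ofReal (Real.exp (-(2 * x))) * ENNReal.ofReal (2 * √(S Wi ⌊x⌋))) with hKer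
  have hmfl : Measurable (fun x : ℝ => ENNReal.ofReal (2 * √(S Wi ⌊x⌋))) :=
    (measurable_from_top (f := fun n : ℤ => ENNReal.ofReal (2 * √(S Wi n)))).comp Int.measurable_floor
  have hmG : Measurable (fun y => (G y ^ 2 * W y * ph Wi y)) :=
    ((hG.pow_const 2).mul h.meas).mul (meas_ph Wi)
  have hmK : Measurable (Function.uncurry Ker) := by
    have h1 : Function.uncurry Ker = fun p : ℝ × ℝ =>
        ({p : ℝ × ℝ | p.2 < ((⌊p.1⌋ : ℤ) : ℝ)}.indicator (fun p => (G p.2 ^ 2 * W p.2 * ph Wi p.2)) p) *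
      (W p.1 * ENNReal.ofReal (Real.exp (-(2 * p.1))) * ENNReal.ofReal (2 * √(S Wi ⌊p.1⌋))) := by
      ext p
      simp only [Function.uncurry, hKer, Set.indicator, Set.mem_Iio, Set.mem_ofPred_eq]
    rw [h1]
    have hset : MeasurableSet {p : ℝ × ℝ | p.2 < ((⌊p.1⌋ : ℤ) : ℝ)} :=
      measurableSet_lt measurable_snd
        ((measurable_from_top (f := fun n : ℤ => (n : ℝ))).comp (Int.measurable_floor.comp measurable_fst))
    refine ((hmG.comp measurable_snd).indicator hset).mul ?_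
    have hm2 : Measurable (fun x : ℝ => W x * ENNReal.ofReal (Real.exp (-(2 * x)))) :=
      h.meas.mul (by fun_prop)
    exact (hm2.mul hmfl).comp measurable_fst
  have hstep : ∫⁻ x, (∫⁻ t in Ioi 1, ENNReal.ofReal (Real.exp (-t)) * G (x + (-1) * t)) ^ 2 * W x
      ≤ ∫⁻ x, ∫⁻ y, Ker x y := by
    refine lintegral_mono (fun x => ?_)
    simp only [hKer]
    rw [lintegral_mul_const _ (hmG.indicator measurableSet_Iio), lintegral_indicator measurableSet_Iio]
    calc (∫⁻ t in Ioi 1, ENNReal.ofReal (Real.exp (-t)) * G (x + (-1) * t)) ^ 2 * W x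
        ≤ (ENNReal.ofReal (Real.exp (-x)) *
          ∫⁻ y in Iio ((⌊x⌋ : ℤ) : ℝ), ENNReal.ofReal (Real.exp y) * G y) ^ 2 * W x :=
          mul_le_mul_left (pow_le_pow_left' (hin x) 2) _
      _ = ENNReal.ofReal (Real.exp (-(2 * x))) *
          (∫⁻ y in Iio ((⌊x⌋ : ℤ) : ℝ), ENNReal.ofReal (Real.exp y) * G y) ^ 2 * W x := by
          rw [mul_pow, ofReal_exp_sq]; congr 4; ring
      _ ≤ ENNReal.ofReal (Real.exp (-(2 * x))) *
          ((∫⁻ y in Iio ((⌊x⌋ : ℤ) : ℝ), G y ^ 2 * W y * ph Wi y) *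
            ENNReal.ofReal (2 * √(S Wi ⌊x⌋))) * W x :=
          mul_le_mul_left (mul_le_mul_right (hcs x) _) _
      _ = _ := by ring
  refine hstep.trans ?_
  rw [lintegral_lintegral_swap hmK.aemeasurable]
  have hmGW : Measurable (fun y => G y ^ 2 * W y) := (hG.pow_const 2).mul h.meas
  rw [← lintegral_const_mul _ hmGW]
  refine lintegral_mono (fun y => ?_)
  simp only [hKer]
  have h1 : ∀ x : ℝ, (Iio ((⌊x⌋ : ℤ) : ℝ)).indicator (fun y => (G y ^ 2 * W y * ph Wi y)) y *
      (W x * ENNReal.ofReal (Real.exp (-(2 * x))) * ENNReal.ofReal (2 * √(S Wi ⌊x⌋)))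
      ≤ (G y ^ 2 * W y * ph Wi y) * (ENNReal.ofReal 2 * ((Ici (((⌊y⌋ + 1 : ℤ)) : ℝ)).indicator
        (fun x => W x * ENNReal.ofReal (Real.exp (-(2 * x))) *
          ENNReal.ofReal (√(S Wi (⌊x⌋ + 1)))) x)) := by
    intro x
    by_cases hy : y ∈ Iio ((⌊x⌋ : ℤ) : ℝ)
    · have hx : x ∈ Ici (((⌊y⌋ + 1 : ℤ)) : ℝ) := by
        have h2 : ⌊y⌋ < ⌊x⌋ := Int.floor_lt.mpr hy
        have h3 : ⌊y⌋ + 1 ≤ ⌊x⌋ := h2
        rw [Set.mem_Ici]
        exact (Int.cast_le.mpr h3).trans (Int.floor_le x)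
      rw [Set.indicator_of_mem hy, Set.indicator_of_mem hx]
      refine mul_le_mul_right ?_ _
      have h4 : ENNReal.ofReal (2 * √(S Wi ⌊x⌋)) ≤ ENNReal.ofReal 2 *
          ENNReal.ofReal (√(S Wi (⌊x⌋ + 1))) := by
        rw [← ENNReal.ofReal_mul (by norm_num)]
        refine ENNReal.ofReal_le_ofReal ?_
        exact mul_le_mul_of_nonneg_left (Real.sqrt_le_sqrt (S_mono_succ (symm h) _)) (by norm_num)
      calc W x * ENNReal.ofReal (Real.exp (-(2 * x))) * ENNReal.ofReal (2 * √(S Wi ⌊x⌋))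
          ≤ W x * ENNReal.ofReal (Real.exp (-(2 * x))) *
            (ENNReal.ofReal 2 * ENNReal.ofReal (√(S Wi (⌊x⌋ + 1)))) := mul_le_mul_right h4 _
        _ = _ := by ring
    · rw [Set.indicator_of_notMem hy, zero_mul]
      exact zero_le
  refine (lintegral_mono h1).trans ?_
  have hmB : Measurable (fun x : ℝ => W x * ENNReal.ofReal (Real.exp (-(2 * x))) *
          ENNReal.ofReal (√(S Wi (⌊x⌋ + 1)))) :=
    (h.meas.mul (by fun_prop)).mul (meas_ph Wi)
  rw [lintegral_const_mul _ ((hmB.indicator measurableSet_Ici).const_mul _),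
    lintegral_const_mul _ (hmB.indicator measurableSet_Ici), lintegral_indicator measurableSet_Ici]
  have h5 := lemB h (⌊y⌋ + 1)
  have h6 : ENNReal.ofReal (CC K / √(S Wi (⌊y⌋ + 1 + 1))) ≤ ENNReal.ofReal (CC K) * phi Wi y := by
    unfold phi
    rw [← ENNReal.ofReal_mul (CC_pos h).le]
    refine ENNReal.ofReal_le_ofReal ?_
    rw [div_eq_mul_one_div]
    refine mul_le_mul_of_nonneg_left ?_ (CC_pos h).le
    exact one_div_le_one_div_of_le (Real.sqrt_pos.mpr (S_pos (symm h) _))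
      (Real.sqrt_le_sqrt (S_mono_succ (symm h) _))
  calc G y ^ 2 * W y * ph Wi y * (ENNReal.ofReal 2 * ∫⁻ x in Ici (((⌊y⌋ + 1 : ℤ)) : ℝ),
        W x * ENNReal.ofReal (Real.exp (-(2 * x))) * ENNReal.ofReal (√(S Wi (⌊x⌋ + 1))))
      ≤ G y ^ 2 * W y * ph Wi y * (ENNReal.ofReal 2 * (ENNReal.ofReal (CC K) * phi Wi y)) :=
        mul_le_mul_right (mul_le_mul_right (h5.trans h6) _) _
    _ = (ENNReal.ofReal 2 * ENNReal.ofReal (CC K)) * (ph Wi y * phi Wi y) * (G y ^ 2 * W y) := by ring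
    _ = ENNReal.ofReal (2 * CC K) * (G y ^ 2 * W y) := by
        rw [ph_mul_phi (symm h), mul_one, ← ENNReal.ofReal_mul (by norm_num)]

/-- the case of the right operator -/
theorem right_case (h : LogA2 W Wi K) (G : ℝ → ℝ≥0∞) (hG : Measurable G) :
    ∫⁻ x, (∫⁻ t in Ioi 1, ENNReal.ofReal (Real.exp (-t)) * G (x + 1 * t)) ^ 2 * W x ≤
      ENNReal.ofReal (2 * CC K) * ∫⁻ x, G x ^ 2 * W x := by
  have hin : ∀ x : ℝ, ∫⁻ t in Ioi 1, ENNReal.ofReal (Real.exp (-t)) * G (x + 1 * t)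
      ≤ ENNReal.ofReal (Real.exp x) *
        ∫⁻ y in Ici (((⌊x⌋ + 1 : ℤ)) : ℝ), ENNReal.ofReal (Real.exp (-y)) * G y := by
    intro x
    have hm1 : Measurable (fun y : ℝ => ENNReal.ofReal (Real.exp (-y)) * G y) :=
      Measurable.mul (by fun_prop) hG
    rw [← lintegral_indicator measurableSet_Ioi, ← lintegral_indicator measurableSet_Ici,
      ← lintegral_const_mul _ (hm1.indicator measurableSet_Ici)]
    rw [← lintegral_add_left_eq_self (fun y => ENNReal.ofReal (Real.exp x) *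
      (Ici (((⌊x⌋ + 1 : ℤ)) : ℝ)).indicator (fun y => ENNReal.ofReal (Real.exp (-y)) * G y) y) x]
    refine lintegral_mono (fun t => ?_)
    by_cases ht : t ∈ Ioi (1 : ℝ)
    · rw [Set.indicator_of_mem ht]
      have h1 : x + t ∈ Ici (((⌊x⌋ + 1 : ℤ)) : ℝ) := by
        have h2 := Int.floor_le x
        have h3 : (1 : ℝ) < t := ht
        simp only [Set.mem_Ici]
        push_cast
        linarith
      rw [Set.indicator_of_mem h1, ← mul_assoc, ofReal_exp_mul]
      refine le_of_eq ?_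
      congr 3
      · ring
      · ring
    · rw [Set.indicator_of_notMem ht]
      exact zero_le
  have hcs : ∀ x : ℝ, (∫⁻ y in Ici (((⌊x⌋ + 1 : ℤ)) : ℝ), ENNReal.ofReal (Real.exp (-y)) * G y) ^ 2
      ≤ (∫⁻ y in Ici (((⌊x⌋ + 1 : ℤ)) : ℝ), G y ^ 2 * W y * phi W y) *
        (ENNReal.ofReal (CC K) * phi W x) := by
    intro x
    refine le_trans (wcs (a := fun y => G y ^ 2 * W y * phi W y)
      (b := fun y => Wi y * ENNReal.ofReal (Real.exp (-(2 * y))) * ph W y)
      (((hG.pow_const 2).mul h.meas).mul (meas_phi W)).aemeasurable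
      ((h.measi.mul (by fun_prop)).mul (meas_ph W)).aemeasurable ?_) ?_
    · intro y
      have h1 : G y ^ 2 * W y * phi W y * (Wi y * ENNReal.ofReal (Real.exp (-(2 * y))) * ph W y)
          = (W y * Wi y) * (ph W y * phi W y) * (ENNReal.ofReal (Real.exp (-(2 * y))) * G y ^ 2) := by
        ring
      rw [h1, h.mul_eq, ph_mul_phi h, one_mul, one_mul, mul_pow, ofReal_exp_sq]
      refine le_of_eq ?_
      congr 3; ring
    · refine mul_le_mul_right ?_ _
      refine (lemB (symm h) (⌊x⌋ + 1)).trans ?_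
      unfold phi
      rw [← ENNReal.ofReal_mul (CC_pos h).le]
      refine ENNReal.ofReal_le_ofReal ?_
      rw [div_eq_mul_one_div]
      refine mul_le_mul_of_nonneg_left ?_ (CC_pos h).le
      exact one_div_le_one_div_of_le (Real.sqrt_pos.mpr (S_pos h _))
        (Real.sqrt_le_sqrt (S_mono_succ h _))
  set Ker : ℝ → ℝ → ℝ≥0∞ := fun x y => (Ici (((⌊x⌋ + 1 : ℤ)) : ℝ)).indicator
    (fun y => (G y ^ 2 * W y * phi W y)) y *
      (ENNReal.ofReal (CC K) * (W x * ENNReal.ofReal (Real.exp (2 * x)) * phi W x)) with hKer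
  have hmG : Measurable (fun y => (G y ^ 2 * W y * phi W y)) :=
    ((hG.pow_const 2).mul h.meas).mul (meas_phi W)
  have hmX : Measurable (fun x => W x * ENNReal.ofReal (Real.exp (2 * x)) * phi W x) :=
    (meas_we h).mul (meas_phi W)
  have hmK : Measurable (Function.uncurry Ker) := by
    have h1 : Function.uncurry Ker = fun p : ℝ × ℝ =>
        ({p : ℝ × ℝ | (((⌊p.1⌋ + 1 : ℤ)) : ℝ) ≤ p.2}.indicator
          (fun p => (G p.2 ^ 2 * W p.2 * phi W p.2)) p) *
      (ENNReal.ofReal (CC K) * (W p.1 * ENNReal.ofReal (Real.exp (2 * p.1)) * phi W p.1)) := by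
      ext p
      simp only [Function.uncurry, hKer, Set.indicator, Set.mem_Ici, Set.mem_ofPred_eq]
    rw [h1]
    have hset : MeasurableSet {p : ℝ × ℝ | (((⌊p.1⌋ + 1 : ℤ)) : ℝ) ≤ p.2} :=
      measurableSet_le ((measurable_from_top (f := fun n : ℤ => ((n + 1 : ℤ) : ℝ))).comp
        (Int.measurable_floor.comp measurable_fst)) measurable_snd
    refine ((hmG.comp measurable_snd).indicator hset).mul ?_
    exact (hmX.const_mul _).comp measurable_fst
  have hstep : ∫⁻ x, (∫⁻ t in Ioi 1, ENNReal.ofReal (Real.exp (-t)) * G (x + 1 * t)) ^ 2 * W x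
      ≤ ∫⁻ x, ∫⁻ y, Ker x y := by
    refine lintegral_mono (fun x => ?_)
    simp only [hKer]
    rw [lintegral_mul_const _ (hmG.indicator measurableSet_Ici), lintegral_indicator measurableSet_Ici]
    calc (∫⁻ t in Ioi 1, ENNReal.ofReal (Real.exp (-t)) * G (x + 1 * t)) ^ 2 * W x
        ≤ (ENNReal.ofReal (Real.exp x) *
          ∫⁻ y in Ici (((⌊x⌋ + 1 : ℤ)) : ℝ), ENNReal.ofReal (Real.exp (-y)) * G y) ^ 2 * W x :=
          mul_le_mul_left (pow_le_pow_left' (hin x) 2) _
      _ = ENNReal.ofReal (Real.exp (2 * x)) *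
          (∫⁻ y in Ici (((⌊x⌋ + 1 : ℤ)) : ℝ), ENNReal.ofReal (Real.exp (-y)) * G y) ^ 2 * W x := by
          rw [mul_pow, ofReal_exp_sq]
      _ ≤ ENNReal.ofReal (Real.exp (2 * x)) *
          ((∫⁻ y in Ici (((⌊x⌋ + 1 : ℤ)) : ℝ), G y ^ 2 * W y * phi W y) *
            (ENNReal.ofReal (CC K) * phi W x)) * W x :=
          mul_le_mul_left (mul_le_mul_right (hcs x) _) _
      _ = _ := by ring
  refine hstep.trans ?_
  rw [lintegral_lintegral_swap hmK.aemeasurable]
  have hmGW : Measurable (fun y => G y ^ 2 * W y) := (hG.pow_const 2).mul h.meas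
  rw [← lintegral_const_mul _ hmGW]
  refine lintegral_mono (fun y => ?_)
  simp only [hKer]
  have h1 : ∀ x : ℝ, (Ici (((⌊x⌋ + 1 : ℤ)) : ℝ)).indicator (fun y => (G y ^ 2 * W y * phi W y)) y *
      (ENNReal.ofReal (CC K) * (W x * ENNReal.ofReal (Real.exp (2 * x)) * phi W x))
      ≤ (G y ^ 2 * W y * phi W y) * (ENNReal.ofReal (CC K) * ((Iio (((⌊y⌋ : ℤ)) : ℝ)).indicator
        (fun x => W x * ENNReal.ofReal (Real.exp (2 * x)) * phi W x) x)) := by
    intro x
    by_cases hy : y ∈ Ici (((⌊x⌋ + 1 : ℤ)) : ℝ)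
    · have hx : x ∈ Iio (((⌊y⌋ : ℤ)) : ℝ) := by
        have h2 : ⌊x⌋ + 1 ≤ ⌊y⌋ := Int.le_floor.mpr hy
        rw [Set.mem_Iio]
        have h3 : (((⌊x⌋ + 1 : ℤ)) : ℝ) ≤ ((⌊y⌋ : ℤ) : ℝ) := Int.cast_le.mpr h2
        push_cast at h3
        linarith [Int.lt_floor_add_one x]
      rw [Set.indicator_of_mem hy, Set.indicator_of_mem hx]
    · rw [Set.indicator_of_notMem hy, zero_mul]
      exact zero_le
  refine (lintegral_mono h1).trans ?_
  rw [lintegral_const_mul _ ((hmX.indicator measurableSet_Iio).const_mul _),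
    lintegral_const_mul _ (hmX.indicator measurableSet_Iio), lintegral_indicator measurableSet_Iio]
  have h5 : ∫⁻ x in Iio (((⌊y⌋ : ℤ)) : ℝ), W x * ENNReal.ofReal (Real.exp (2 * x)) * phi W x
      ≤ ENNReal.ofReal 2 * ph W y := by
    refine (lemA h ⌊y⌋).trans ?_
    unfold ph
    rw [← ENNReal.ofReal_mul (by norm_num)]
    refine ENNReal.ofReal_le_ofReal ?_
    exact mul_le_mul_of_nonneg_left (Real.sqrt_le_sqrt (S_mono_succ h _)) (by norm_num)
  calc G y ^ 2 * W y * phi W y * (ENNReal.ofReal (CC K) * ∫⁻ x in Iio (((⌊y⌋ : ℤ)) : ℝ),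
        W x * ENNReal.ofReal (Real.exp (2 * x)) * phi W x)
      ≤ G y ^ 2 * W y * phi W y * (ENNReal.ofReal (CC K) * (ENNReal.ofReal 2 * ph W y)) :=
        mul_le_mul_right (mul_le_mul_right h5 _) _
    _ = (ENNReal.ofReal 2 * ENNReal.ofReal (CC K)) * (ph W y * phi W y) * (G y ^ 2 * W y) := by ring
    _ = ENNReal.ofReal (2 * CC K) * (G y ^ 2 * W y) := by
        rw [ph_mul_phi h, mul_one, ← ENNReal.ofReal_mul (by norm_num)]

end RWK6

/-- Hardy operators -/
theorem far_total {W Wi : ℝ → ℝ≥0∞} {K : ℝ} (h : LogA2 W Wi K) (e : ℝ) (he : e = 1 ∨ e = -1)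
    (G : ℝ → ℝ≥0∞) (hG : Measurable G) :
    ∫⁻ x, (∫⁻ t in Ioi 1, ENNReal.ofReal (Real.exp (-t)) * G (x + e * t)) ^ 2 * W x ≤
      ENNReal.ofReal (200 * K ^ 2) * ∫⁻ x, G x ^ 2 * W x := by
  have hK := h.one_le
  have hC : ENNReal.ofReal (2 * RWK6.CC K) ≤ ENNReal.ofReal (200 * K ^ 2) := by
    refine ENNReal.ofReal_le_ofReal ?_
    unfold RWK6.CC
    have h4 : Real.exp 4 ≤ 55 := by
      have h8 : Real.exp 4 = Real.exp 1 ^ 4 := by rw [← Real.exp_nat_mul]; norm_num
      have h9 := Real.exp_one_lt_d9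
      have h10 := Real.exp_pos 1
      rw [h8]
      calc Real.exp 1 ^ 4 ≤ 2.7182818286 ^ 4 := pow_le_pow_left₀ h10.le h9.le 4
        _ ≤ 55 := by norm_num
    nlinarith [sq_nonneg K, mul_nonneg (sq_nonneg K) (sub_nonneg.mpr h4)]
  rcases he with rfl | rfl
  · exact (RWK6.right_case h G hG).trans (mul_le_mul_left hC _)
  · exact (RWK6.left_case h G hG).trans (mul_le_mul_left hC _)

end Pool.Agent.Lib.MP_f0c028_an
end

section

set_option autoImplicit false
namespace Pool.Agent.Lib.MP_f0c028_an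

open Finset MeasureTheory Real Set
open scoped ENNReal

/-- logarithmic polar coordinates around `z₀` -/
theorem lintegral_logpolar (z₀ : ℂ) (H : ℂ → ℝ≥0∞) (hH : Measurable H) :
    ∫⁻ z, H z = ∫⁻ x : ℝ, ENNReal.ofReal (Real.exp (2 * x)) *
      ∫⁻ θ in Ioo (-π) π, H (z₀ + Complex.exp (x + θ * Complex.I)) := by
  have h1 : ∫⁻ z, H z = ∫⁻ z, H (z₀ + z) := (lintegral_add_left_eq_self H z₀).symm
  rw [h1, ← Complex.lintegral_comp_polarCoord_symm]
  have htar : polarCoord.target = Ioi (0 : ℝ) ×ˢ Ioo (-π) π := rfl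
  rw [htar, Measure.volume_eq_prod, ← Measure.prod_restrict]
  rw [lintegral_prod _ (by
    apply Measurable.aemeasurable
    refine (ENNReal.measurable_ofReal.comp measurable_fst).smul ?_
    refine hH.comp ?_
    refine measurable_const.add ?_
    have : Measurable (fun p : ℝ × ℝ =>
        (p.1 : ℂ) * (Real.cos p.2 + Real.sin p.2 * Complex.I)) := by fun_prop
    have e : (fun p : ℝ × ℝ =>
        (p.1 : ℂ) * (Real.cos p.2 + Real.sin p.2 * Complex.I)) = ⇑Complex.polarCoord.symm := by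
      ext p
      rw [Complex.polarCoord_symm_apply]
    exact e ▸ this)]
  have himg : Ioi (0 : ℝ) = Real.exp '' univ := by
    rw [image_univ, Real.range_exp]
  rw [himg, lintegral_image_eq_lintegral_abs_deriv_mul MeasurableSet.univ
    (fun x _ => (Real.hasDerivAt_exp x).hasDerivWithinAt) (Real.exp_injective.injOn)]
  rw [Measure.restrict_univ]
  refine lintegral_congr fun x => ?_
  have e1 : ∀ θ : ℝ, Complex.polarCoord.symm (Real.exp x, θ) = Complex.exp (x + θ * Complex.I) := by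
    intro θ
    rw [Complex.polarCoord_symm_apply, Complex.exp_add, Complex.exp_mul_I]
    push_cast
    ring
  simp only [e1, smul_eq_mul]
  rw [lintegral_const_mul' _ _ ENNReal.ofReal_ne_top, ← mul_assoc,
    abs_of_pos (Real.exp_pos x), ← ENNReal.ofReal_mul (Real.exp_pos x).le, ← Real.exp_add]
  congr 3
  ring

theorem norm_exp_aux (z₀ : ℂ) (y θ : ℝ) :
    ‖z₀ + Complex.exp (y + θ * Complex.I) - z₀‖ = Real.exp y := by
  rw [add_sub_cancel_left, Complex.norm_exp]
  simp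

/-- integral of a radial function over a centred ball -/
theorem lintegral_ball_radial (z₀ : ℂ) (V : ℝ → ℝ≥0∞) (hV : Measurable V) (x : ℝ) :
    ∫⁻ z in Metric.ball z₀ (Real.exp x), V ‖z - z₀‖ =
      ENNReal.ofReal (2 * π) *
        ∫⁻ y in Iic x, V (Real.exp y) * ENNReal.ofReal (Real.exp (2 * y)) := by
  have hm : Measurable ((Metric.ball z₀ (Real.exp x)).indicator fun z => V ‖z - z₀‖) :=
    (hV.comp (by fun_prop)).indicator measurableSet_ball
  rw [← lintegral_indicator measurableSet_ball, lintegral_logpolar z₀ _ hm]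
  rw [← lintegral_const_mul' _ _ ENNReal.ofReal_ne_top, ← setLIntegral_congr Iio_ae_eq_Iic,
    ← lintegral_indicator measurableSet_Iio]
  refine lintegral_congr fun y => ?_
  by_cases hy : y < x
  · have : ∀ θ : ℝ, (Metric.ball z₀ (Real.exp x)).indicator (fun z => V ‖z - z₀‖)
        (z₀ + Complex.exp (y + θ * Complex.I)) = V (Real.exp y) := by
      intro θ
      rw [indicator_of_mem, norm_exp_aux]
      rw [mem_ball_iff_norm, norm_exp_aux]
      exact Real.exp_lt_exp.2 hy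
    simp only [this]
    rw [indicator_of_mem (show y ∈ Iio x from hy), setLIntegral_const, Real.volume_Ioo]
    rw [show π - -π = 2 * π by ring]
    ring
  · have : ∀ θ : ℝ, (Metric.ball z₀ (Real.exp x)).indicator (fun z => V ‖z - z₀‖)
        (z₀ + Complex.exp (y + θ * Complex.I)) = 0 := by
      intro θ
      rw [indicator_of_notMem]
      rw [mem_ball_iff_norm, norm_exp_aux]
      exact fun h => hy (Real.exp_lt_exp.1 h)
    simp only [this]
    rw [indicator_of_notMem (show y ∉ Iio x from hy)]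
    simp

theorem exp_sub_one_le_aux {l : ℝ} (hl : 0 ≤ l) (hl2 : l ≤ 2) : Real.exp l - 1 ≤ 3.3 * l := by
  have hc := convexOn_exp.2 (Set.mem_univ (0 : ℝ)) (Set.mem_univ (2 : ℝ))
    (show 0 ≤ 1 - l / 2 by linarith) (show 0 ≤ l / 2 by linarith) (by ring)
  have h1 : (1 - l / 2) • (0 : ℝ) + (l / 2) • (2 : ℝ) = l := by
    simp only [smul_eq_mul]; ring
  rw [h1] at hc
  simp only [smul_eq_mul, Real.exp_zero] at hc
  have h2 : Real.exp 2 ≤ 7.6 := by
    have := Real.exp_one_lt_d9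
    have h3 : Real.exp 2 = Real.exp 1 * Real.exp 1 := by rw [← Real.exp_add]; norm_num
    rw [h3]
    nlinarith [Real.exp_pos 1]
  nlinarith [Real.exp_pos 2]

/-- lower bound for the ball centred at `z₀ + e^x` -/
theorem le_lintegral_ball_radial (z₀ : ℂ) (V : ℝ → ℝ≥0∞) (hV : Measurable V) (x l : ℝ)
    (hl : 0 < l) (hl2 : l ≤ 2) :
    ENNReal.ofReal (2 * l * Real.exp (2 * x)) * ∫⁻ y in Icc x (x + l), V (Real.exp y) ≤
      ∫⁻ z in Metric.ball (z₀ + (Real.exp x : ℂ)) (5 * l * Real.exp x), V ‖z - z₀‖ := by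
  have hm : Measurable ((Metric.ball (z₀ + (Real.exp x : ℂ)) (5 * l * Real.exp x)).indicator
      fun z => V ‖z - z₀‖) :=
    (hV.comp (by fun_prop)).indicator measurableSet_ball
  rw [← lintegral_indicator measurableSet_ball, lintegral_logpolar z₀ _ hm]
  rw [← lintegral_const_mul' _ _ ENNReal.ofReal_ne_top, ← lintegral_indicator measurableSet_Icc]
  refine lintegral_mono fun y => ?_
  by_cases hy : y ∈ Icc x (x + l)
  · rw [indicator_of_mem hy]
    have hsub : ∀ θ ∈ Ioo (-l) l, (Metric.ball (z₀ + (Real.exp x : ℂ)) (5 * l * Real.exp x)).indicator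
        (fun z => V ‖z - z₀‖) (z₀ + Complex.exp (y + θ * Complex.I)) = V (Real.exp y) := by
      intro θ hθ
      rw [indicator_of_mem, norm_exp_aux]
      rw [mem_ball_iff_norm, add_sub_add_left_eq_sub]
      have e1 : Complex.exp (y + θ * Complex.I) - (Real.exp x : ℂ) =
          (Real.exp x : ℂ) * ((Complex.exp ((y - x : ℝ)) - 1) * Complex.exp (θ * Complex.I)
            + (Complex.exp (Complex.I * θ) - 1)) := by
        have : Complex.exp (y + θ * Complex.I) =
            Complex.exp x * (Complex.exp ((y - x : ℝ)) * Complex.exp (θ * Complex.I)) := by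
          rw [← Complex.exp_add, ← Complex.exp_add]
          congr 1
          push_cast
          ring
        rw [this, mul_comm Complex.I, Complex.ofReal_exp]
        ring
      rw [e1, norm_mul, Complex.norm_real, Real.norm_of_nonneg (Real.exp_pos x).le, mul_comm]
      refine mul_lt_mul_of_pos_right ?_ (Real.exp_pos x)
      have h2 : ‖(Complex.exp ((y - x : ℝ)) - 1) * Complex.exp (θ * Complex.I)‖ ≤ 3.3 * l := by
        rw [norm_mul, Complex.norm_exp_ofReal_mul_I, mul_one]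
        have : Complex.exp ((y - x : ℝ)) - 1 = ((Real.exp (y - x) - 1 : ℝ) : ℂ) := by
          push_cast; rfl
        rw [this, Complex.norm_real, Real.norm_of_nonneg
          (by linarith [Real.add_one_le_exp (y - x), hy.1])]
        have h3 : Real.exp (y - x) ≤ Real.exp l := Real.exp_le_exp.2 (by linarith [hy.2])
        linarith [exp_sub_one_le_aux hl.le hl2]
      have h3 : ‖Complex.exp (Complex.I * θ) - 1‖ ≤ l := by
        refine (Real.norm_exp_I_mul_ofReal_sub_one_le).trans ?_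
        rw [Real.norm_eq_abs]
        exact (abs_lt.2 hθ).le
      linarith [norm_add_le ((Complex.exp ((y - x : ℝ)) - 1) * Complex.exp (θ * Complex.I))
        (Complex.exp (Complex.I * θ) - 1)]
    have hpi := Real.pi_gt_three
    calc ENNReal.ofReal (2 * l * Real.exp (2 * x)) * V (Real.exp y)
        = ENNReal.ofReal (Real.exp (2 * x)) * (V (Real.exp y) * ENNReal.ofReal (l - -l)) := by
          rw [show 2 * l * Real.exp (2 * x) = Real.exp (2 * x) * (l - -l) by ring,
            ENNReal.ofReal_mul (Real.exp_pos _).le]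
          ring
      _ ≤ ENNReal.ofReal (Real.exp (2 * y)) * (V (Real.exp y) * ENNReal.ofReal (l - -l)) := by
          gcongr
          exact hy.1
      _ = ENNReal.ofReal (Real.exp (2 * y)) * ∫⁻ θ in Ioo (-l) l,
            (Metric.ball (z₀ + (Real.exp x : ℂ)) (5 * l * Real.exp x)).indicator
              (fun z => V ‖z - z₀‖) (z₀ + Complex.exp (y + θ * Complex.I)) := by
          rw [setLIntegral_congr_fun measurableSet_Ioo hsub, setLIntegral_const, Real.volume_Ioo]
      _ ≤ _ := by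
          gcongr <;> linarith
  · rw [indicator_of_notMem hy]
    exact zero_le

/-- from the planar `A₂` condition of a radial weight to `LogA2` -/
theorem logA2_of_planar (z₀ : ℂ) (V Vi : ℝ → ℝ≥0∞) (hV : Measurable V) (hVi : Measurable Vi)
    (hmul : ∀ r, V r * Vi r = 1) (K : ℝ)
    (hA : ∀ (c : ℂ) (r : ℝ), 0 < r → (∫⁻ z in Metric.ball c r, V ‖z - z₀‖) *
      (∫⁻ z in Metric.ball c r, Vi ‖z - z₀‖) ≤ ENNReal.ofReal (K * π ^ 2 * r ^ 4)) :
    LogA2 (fun x => V (Real.exp x)) (fun x => Vi (Real.exp x)) K := by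
  have hpi := Real.pi_pos
  have hglob : ∀ x : ℝ, (∫⁻ y in Iic x, V (Real.exp y) * ENNReal.ofReal (Real.exp (2 * y))) *
    (∫⁻ y in Iic x, Vi (Real.exp y) * ENNReal.ofReal (Real.exp (2 * y))) ≤
      ENNReal.ofReal (K / 4 * Real.exp (4 * x)) := by
    intro x
    have h := hA z₀ (Real.exp x) (Real.exp_pos x)
    rw [lintegral_ball_radial z₀ V hV, lintegral_ball_radial z₀ Vi hVi] at h
    have hc : ENNReal.ofReal (2 * π * (2 * π)) ≠ 0 := by
      rw [Ne, ENNReal.ofReal_eq_zero, not_le]; positivity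
    rw [← ENNReal.mul_le_mul_iff_right hc ENNReal.ofReal_ne_top,
      ← ENNReal.ofReal_mul (by positivity : (0 : ℝ) ≤ 2 * π * (2 * π))]
    calc _ = _ := by
          rw [ENNReal.ofReal_mul (by positivity : (0 : ℝ) ≤ 2 * π)]
          ring
      _ ≤ _ := h
      _ = _ := by
          congr 1
          rw [← Real.exp_nat_mul, ]
          push_cast
          ring
  have hone : 1 ≤ K := by
    have h0 := hglob 0
    set A := ∫⁻ y in Iic (0 : ℝ), V (Real.exp y) * ENNReal.ofReal (Real.exp (2 * y)) with hAdef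
    set B := ∫⁻ y in Iic (0 : ℝ), Vi (Real.exp y) * ENNReal.ofReal (Real.exp (2 * y)) with hBdef
    have hcs := ENNReal.lintegral_mul_le_Lp_mul_Lq (volume.restrict (Iic (0 : ℝ)))
      Real.HolderConjugate.two_two
      (f := fun y => (V (Real.exp y) * ENNReal.ofReal (Real.exp (2 * y))) ^ (1 / 2 : ℝ))
      (g := fun y => (Vi (Real.exp y) * ENNReal.ofReal (Real.exp (2 * y))) ^ (1 / 2 : ℝ))
      (((hV.comp Real.measurable_exp).mul (by fun_prop)).pow_const _).aemeasurable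
      (((hVi.comp Real.measurable_exp).mul (by fun_prop)).pow_const _).aemeasurable
    have e1 : ∀ a : ℝ≥0∞, (a ^ (1 / 2 : ℝ)) ^ (2 : ℝ) = a := by
      intro a
      rw [← ENNReal.rpow_mul]; norm_num
    simp only [e1, Pi.mul_apply] at hcs
    rw [← hAdef, ← hBdef, ← ENNReal.mul_rpow_of_nonneg _ _ (by norm_num)] at hcs
    have e2 : ∀ y : ℝ, (V (Real.exp y) * ENNReal.ofReal (Real.exp (2 * y))) ^ (1 / 2 : ℝ) *
        (Vi (Real.exp y) * ENNReal.ofReal (Real.exp (2 * y))) ^ (1 / 2 : ℝ) =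
        ENNReal.ofReal (Real.exp (2 * y)) := by
      intro y
      rw [← ENNReal.mul_rpow_of_nonneg _ _ (by norm_num)]
      have : V (Real.exp y) * ENNReal.ofReal (Real.exp (2 * y)) *
        (Vi (Real.exp y) * ENNReal.ofReal (Real.exp (2 * y))) =
          ENNReal.ofReal (Real.exp (2 * y)) ^ (2 : ℝ) := by
        rw [show V (Real.exp y) * ENNReal.ofReal (Real.exp (2 * y)) *
          (Vi (Real.exp y) * ENNReal.ofReal (Real.exp (2 * y))) =
          (V (Real.exp y) * Vi (Real.exp y)) * (ENNReal.ofReal (Real.exp (2 * y)) *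
            ENNReal.ofReal (Real.exp (2 * y))) by ring, hmul, one_mul]
        norm_num
        ring
      rw [this, ← ENNReal.rpow_mul]
      norm_num
    simp only [e2] at hcs
    have e3 : ∫⁻ y in Iic (0 : ℝ), ENNReal.ofReal (Real.exp (2 * y)) = ENNReal.ofReal (1 / 2) := by
      have hi : IntegrableOn (fun y : ℝ => Real.exp (2 * y)) (Iic 0) :=
        integrableOn_exp_mul_Iic (by norm_num) 0
      rw [← ofReal_integral_eq_lintegral_ofReal hi
        (ae_of_all _ fun y => (Real.exp_pos _).le), integral_exp_mul_Iic (by norm_num) 0]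
      norm_num
    rw [e3] at hcs
    have h2 : ENNReal.ofReal (1 / 4) ≤ A * B := by
      have := ENNReal.rpow_le_rpow hcs (show (0 : ℝ) ≤ 2 by norm_num)
      rw [e1] at this
      refine le_trans (le_of_eq ?_) this
      rw [ENNReal.ofReal_rpow_of_nonneg (by norm_num) (by norm_num)]
      norm_num
    have h3 := h2.trans h0
    by_contra hK
    push Not at hK
    rw [mul_zero, Real.exp_zero, mul_one] at h3
    have h4 : (1 / 4 : ℝ) ≤ K / 4 := by
      by_contra h5
      push Not at h5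
      have : ENNReal.ofReal (K / 4) < ENNReal.ofReal (1 / 4) :=
        (ENNReal.ofReal_lt_ofReal_iff (by norm_num)).2 h5
      exact absurd h3 (not_le.2 this)
    linarith
  refine ⟨hV.comp Real.measurable_exp, hVi.comp Real.measurable_exp, fun x => hmul _, hone, ?_, hglob⟩
  intro x l hl hl2
  have h := hA (z₀ + (Real.exp x : ℂ)) (5 * l * Real.exp x) (by positivity)
  have h1 := le_lintegral_ball_radial z₀ V hV x l hl hl2
  have h2 := le_lintegral_ball_radial z₀ Vi hVi x l hl hl2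
  have h3 := (mul_le_mul' h1 h2).trans h
  set A := ∫⁻ y in Icc x (x + l), V (Real.exp y) with hAdef
  set B := ∫⁻ y in Icc x (x + l), Vi (Real.exp y) with hBdef
  have hc : ENNReal.ofReal (2 * l * Real.exp (2 * x) * (2 * l * Real.exp (2 * x))) ≠ 0 := by
    rw [Ne, ENNReal.ofReal_eq_zero, not_le]; positivity
  rw [← ENNReal.mul_le_mul_iff_right hc ENNReal.ofReal_ne_top,
    ← ENNReal.ofReal_mul (by positivity)]
  calc ENNReal.ofReal (2 * l * Real.exp (2 * x) * (2 * l * Real.exp (2 * x))) * (A * B)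
      = ENNReal.ofReal (2 * l * Real.exp (2 * x)) * A *
          (ENNReal.ofReal (2 * l * Real.exp (2 * x)) * B) := by
        rw [ENNReal.ofReal_mul (by positivity)]
        ring
    _ ≤ _ := h3
    _ ≤ _ := by
        apply ENNReal.ofReal_le_ofReal
        have e4 : Real.exp (2 * x) = Real.exp x ^ 2 := by
          rw [← Real.exp_nat_mul]; push_cast; rfl
        rw [e4]
        have hpi2 : π ^ 2 ≤ 10 := by nlinarith [Real.pi_lt_d2, Real.pi_pos]
        have hpi3 : 625 * π ^ 2 ≤ 6400 := by linarith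
        have : (0 : ℝ) ≤ K * l ^ 4 * Real.exp x ^ 4 := by positivity
        nlinarith [mul_le_mul_of_nonneg_right hpi3 this]

end Pool.Agent.Lib.MP_f0c028_an
end

section

set_option autoImplicit false
set_option linter.unusedSectionVars false
namespace Pool.Agent.Lib.MP_f0c028_an

open MeasureTheory Real Set Filter Topology

/-- the point with logarithmic polar coordinates `(x, θ)` around `z₀` -/
noncomputable def pt (z₀ : ℂ) (x θ : ℝ) : ℂ := z₀ + Complex.exp (x + θ * Complex.I)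

/-- angular Fourier coefficient on the circle of radius `e^x` around `z₀` -/
noncomputable def Md (z₀ : ℂ) (k : ℤ) (g : ℂ → ℂ) (x : ℝ) : ℂ :=
  (1 / (2 * π) : ℂ) * ∫ θ in (-π)..π, g (pt z₀ x θ) * Complex.exp (-((k:ℂ) * θ * Complex.I))

/-- its derivative -/
noncomputable def Md' (z₀ : ℂ) (k : ℤ) (g : ℂ → ℂ) (x : ℝ) : ℂ :=
  (1 / (2 * π) : ℂ) * ∫ θ in (-π)..π, fderiv ℝ g (pt z₀ x θ) (Complex.exp (x + θ * Complex.I)) *
    Complex.exp (-((k:ℂ) * θ * Complex.I))

theorem pt_cont (z₀ : ℂ) : Continuous (fun p : ℝ × ℝ => pt z₀ p.1 p.2) := by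
  unfold pt; fun_prop

theorem hasDerivAt_exp_x (x θ : ℝ) :
    HasDerivAt (fun x : ℝ => Complex.exp (x + θ * Complex.I)) (Complex.exp (x + θ * Complex.I)) x := by
  have h1 : HasDerivAt (fun x : ℝ => ((x:ℂ) + θ * Complex.I)) 1 x := by
    simpa using (Complex.ofRealCLM.hasDerivAt (x := x)).add_const ((θ:ℂ) * Complex.I)
  have := h1.cexp
  simpa using this

theorem hasDerivAt_exp_t (x θ : ℝ) :
    HasDerivAt (fun θ : ℝ => Complex.exp (x + θ * Complex.I))
      (Complex.I * Complex.exp (x + θ * Complex.I)) θ := by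
  have h1 : HasDerivAt (fun θ : ℝ => ((x:ℂ) + θ * Complex.I)) Complex.I θ := by
    have := (((Complex.ofRealCLM.hasDerivAt (x := θ)).mul_const Complex.I).const_add (x:ℂ))
    simpa using this
  have := h1.cexp
  rwa [mul_comm] at this

section
variable {g : ℂ → ℂ} (hg : ContDiff ℝ 1 g) (z₀ : ℂ) (k : ℤ)
include hg

theorem g_deriv_x (x θ : ℝ) : HasDerivAt (fun x : ℝ => g (pt z₀ x θ))
    (fderiv ℝ g (pt z₀ x θ) (Complex.exp (x + θ * Complex.I))) x := by
  have h1 : HasFDerivAt g (fderiv ℝ g (pt z₀ x θ)) (pt z₀ x θ) :=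
    (hg.differentiable (by simp) _).hasFDerivAt
  have h2 : HasDerivAt (fun x : ℝ => pt z₀ x θ) (Complex.exp (x + θ * Complex.I)) x :=
    (hasDerivAt_exp_x x θ).const_add z₀
  exact h1.comp_hasDerivAt x h2

theorem g_deriv_t (x θ : ℝ) : HasDerivAt (fun θ : ℝ => g (pt z₀ x θ))
    (fderiv ℝ g (pt z₀ x θ) (Complex.I * Complex.exp (x + θ * Complex.I))) θ := by
  have h1 : HasFDerivAt g (fderiv ℝ g (pt z₀ x θ)) (pt z₀ x θ) :=
    (hg.differentiable (by simp) _).hasFDerivAt
  have h2 : HasDerivAt (fun θ : ℝ => pt z₀ x θ) (Complex.I * Complex.exp (x + θ * Complex.I)) θ :=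
    (hasDerivAt_exp_t x θ).const_add z₀
  exact h1.comp_hasDerivAt θ h2

theorem cont_D (u : ℝ × ℝ → ℂ) (hu : Continuous u) :
    Continuous (fun p : ℝ × ℝ => fderiv ℝ g (pt z₀ p.1 p.2) (u p)) := by
  have h1 : Continuous (fderiv ℝ g) := hg.continuous_fderiv (by simp)
  exact (h1.comp (pt_cont z₀)).clm_apply hu

theorem Md_hasDerivAt (x : ℝ) : HasDerivAt (Md z₀ k g) (Md' z₀ k g x) x := by
  unfold Md Md'
  apply HasDerivAt.const_mul
  have hc : Continuous (fun p : ℝ × ℝ => fderiv ℝ g (pt z₀ p.1 p.2)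
      (Complex.exp (p.1 + p.2 * Complex.I)) * Complex.exp (-((k:ℂ) * p.2 * Complex.I))) := by
    apply Continuous.mul
    · exact cont_D hg z₀ (fun p => Complex.exp (p.1 + p.2 * Complex.I)) (by fun_prop)
    · fun_prop
  have hcg : Continuous (fun p : ℝ × ℝ => g (pt z₀ p.1 p.2) * Complex.exp (-((k:ℂ) * p.2 * Complex.I))) := by
    apply Continuous.mul
    · exact hg.continuous.comp (pt_cont z₀)
    · fun_prop
  obtain ⟨C, hC⟩ := ((isCompact_Icc (a := x - 1) (b := x + 1)).prod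
    (isCompact_Icc (a := -π) (b := π))).exists_bound_of_continuousOn hc.continuousOn
  have hpi : (-π) ≤ π := by linarith [Real.pi_pos]
  have := intervalIntegral.hasDerivAt_integral_of_dominated_loc_of_deriv_le
    (μ := volume) (a := -π) (b := π) (s := Icc (x - 1) (x + 1))
    (F := fun x θ => g (pt z₀ x θ) * Complex.exp (-((k:ℂ) * θ * Complex.I)))
    (F' := fun x θ => fderiv ℝ g (pt z₀ x θ)
      (Complex.exp (x + θ * Complex.I)) * Complex.exp (-((k:ℂ) * θ * Complex.I)))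
    (x₀ := x) (bound := fun _ => C)
    (Icc_mem_nhds (by linarith) (by linarith))
    (Eventually.of_forall fun y => by
      apply Continuous.aestronglyMeasurable
      exact hcg.comp (by fun_prop : Continuous (fun θ : ℝ => (y, θ))))
    (by
      apply Continuous.intervalIntegrable
      exact hcg.comp (by fun_prop : Continuous (fun θ : ℝ => (x, θ))))
    (by
      apply Continuous.aestronglyMeasurable
      exact hc.comp (by fun_prop : Continuous (fun θ : ℝ => (x, θ))))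
    (by
      filter_upwards with θ hθ y hy
      rw [uIoc_of_le hpi] at hθ
      exact hC (y, θ) ⟨hy, Ioc_subset_Icc_self hθ⟩)
    (by simp)
    (by
      filter_upwards with θ hθ y hy
      exact (g_deriv_x hg z₀ y θ).mul_const _)
  exact this.2

theorem Md_parts (x : ℝ) :
    (1 / (2 * π) : ℂ) * ∫ θ in (-π)..π, fderiv ℝ g (pt z₀ x θ)
      (Complex.I * Complex.exp (x + θ * Complex.I)) * Complex.exp (-((k:ℂ) * θ * Complex.I)) =
    Complex.I * k * Md z₀ k g x := by
  have hc : Continuous (fun θ : ℝ => fderiv ℝ g (pt z₀ x θ)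
      (Complex.I * Complex.exp (x + θ * Complex.I)) * Complex.exp (-((k:ℂ) * θ * Complex.I))) := by
    apply Continuous.mul
    · exact (cont_D hg z₀ (fun p => Complex.I * Complex.exp (p.1 + p.2 * Complex.I)) (by fun_prop)).comp
        (by fun_prop : Continuous (fun θ : ℝ => (x, θ)))
    · fun_prop
  have hcg : Continuous (fun θ : ℝ => g (pt z₀ x θ) * Complex.exp (-((k:ℂ) * θ * Complex.I))) := by
    apply Continuous.mul
    · exact (hg.continuous.comp (pt_cont z₀)).comp (by fun_prop : Continuous (fun θ : ℝ => (x, θ)))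
    · fun_prop
  have hd : ∀ θ : ℝ, HasDerivAt (fun θ : ℝ => g (pt z₀ x θ) * Complex.exp (-((k:ℂ) * θ * Complex.I)))
      (fderiv ℝ g (pt z₀ x θ)
      (Complex.I * Complex.exp (x + θ * Complex.I)) * Complex.exp (-((k:ℂ) * θ * Complex.I)) -
      Complex.I * k * (g (pt z₀ x θ) * Complex.exp (-((k:ℂ) * θ * Complex.I)))) θ := by
    intro θ
    have h1 : HasDerivAt (fun θ : ℝ => Complex.exp (-((k:ℂ) * θ * Complex.I)))
        (Complex.exp (-((k:ℂ) * θ * Complex.I)) * (-((k:ℂ) * Complex.I))) θ := by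
      apply HasDerivAt.cexp
      have h0 : HasDerivAt (fun θ : ℝ => (θ:ℂ)) 1 θ := (hasDerivAt_id θ).ofReal_comp
      have := ((h0.const_mul (k:ℂ)).mul_const Complex.I).fun_neg
      simpa using this
    refine ((g_deriv_t hg z₀ x θ).mul h1).congr_deriv ?_
    ring
  have hint := intervalIntegral.integral_eq_sub_of_hasDerivAt (a := -π) (b := π) (fun θ _ => hd θ)
    (by
      apply Continuous.intervalIntegrable
      exact hc.sub (continuous_const.mul hcg))
  have hper : g (pt z₀ x π) * Complex.exp (-((k:ℂ) * π * Complex.I)) =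
      g (pt z₀ x (-π)) * Complex.exp (-((k:ℂ) * ((-π : ℝ) : ℂ) * Complex.I)) := by
    have h1 : pt z₀ x (-π) = pt z₀ x π := by
      unfold pt
      congr 1
      rw [Complex.exp_eq_exp_iff_exists_int]
      exact ⟨-1, by push_cast; ring⟩
    have h2 : Complex.exp (-((k:ℂ) * ((-π : ℝ) : ℂ) * Complex.I)) = Complex.exp (-((k:ℂ) * π * Complex.I)) := by
      rw [Complex.exp_eq_exp_iff_exists_int]
      exact ⟨k, by push_cast; ring⟩
    rw [h1, h2]
  have hsub := intervalIntegral.integral_sub (μ := volume) (hc.intervalIntegrable (-π) π)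
    ((hcg.intervalIntegrable (-π) π).const_mul (Complex.I * k))
  rw [hper, sub_self] at hint
  rw [hint] at hsub
  have hint := hsub.symm
  rw [sub_eq_zero, intervalIntegral.integral_const_mul] at hint
  rw [hint]
  unfold Md
  ring

end

/-- the first order relation between consecutive modes -/
theorem Md_rel {g G : ℂ → ℂ} (hg : ContDiff ℝ 1 g) (hG : ContDiff ℝ 1 G) (P : ℂ → ℂ)
    (hP : ∀ z v : ℂ, fderiv ℝ G z v + Complex.I * fderiv ℝ G z (Complex.I * v) =
        starRingEnd ℂ v * P z ∧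
      fderiv ℝ g z v - Complex.I * fderiv ℝ g z (Complex.I * v) = v * P z)
    (z₀ : ℂ) (k : ℤ) (x : ℝ) :
    Md' z₀ (k - 2) G x - (k - 2) * Md z₀ (k - 2) G x = Md' z₀ k g x + k * Md z₀ k g x := by
  have e1 := Md_parts hG z₀ (k - 2) x
  have e2 := Md_parts hg z₀ k x
  have hc : ∀ {g : ℂ → ℂ} (hg : ContDiff ℝ 1 g) (k : ℤ) (c : ℂ), Continuous (fun θ : ℝ => fderiv ℝ g (pt z₀ x θ)
      (c * Complex.exp (x + θ * Complex.I)) * Complex.exp (-((k:ℂ) * θ * Complex.I))) := by
    intro g hg k c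
    apply Continuous.mul
    · exact (cont_D hg z₀ (fun p => c * Complex.exp (p.1 + p.2 * Complex.I)) (by fun_prop)).comp
        (by fun_prop : Continuous (fun θ : ℝ => (x, θ)))
    · fun_prop
  have e3 : Md' z₀ (k - 2) G x + Complex.I * ((1 / (2 * π) : ℂ) * ∫ θ in (-π)..π, fderiv ℝ G (pt z₀ x θ)
      (Complex.I * Complex.exp (x + θ * Complex.I)) * Complex.exp (-(((k - 2 : ℤ):ℂ) * θ * Complex.I))) =
      Md' z₀ k g x - Complex.I * ((1 / (2 * π) : ℂ) * ∫ θ in (-π)..π, fderiv ℝ g (pt z₀ x θ)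
      (Complex.I * Complex.exp (x + θ * Complex.I)) * Complex.exp (-((k:ℂ) * θ * Complex.I))) := by
    unfold Md'
    rw [mul_left_comm Complex.I, mul_left_comm Complex.I, ← mul_add, ← mul_sub,
      ← intervalIntegral.integral_const_mul, ← intervalIntegral.integral_const_mul,
      ← intervalIntegral.integral_add, ← intervalIntegral.integral_sub]
    · congr 1
      apply intervalIntegral.integral_congr
      intro θ _
      simp only
      obtain ⟨h1, h2⟩ := hP (pt z₀ x θ) (Complex.exp (x + θ * Complex.I))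
      have h3 : starRingEnd ℂ (Complex.exp (x + θ * Complex.I)) *
          Complex.exp (-(((k - 2 : ℤ):ℂ) * θ * Complex.I)) =
          Complex.exp (x + θ * Complex.I) * Complex.exp (-((k:ℂ) * θ * Complex.I)) := by
        rw [← Complex.exp_conj, ← Complex.exp_add, ← Complex.exp_add]
        congr 1
        simp
        ring
      linear_combination (Complex.exp (-(((k - 2 : ℤ):ℂ) * θ * Complex.I))) * h1 -
        (Complex.exp (-((k:ℂ) * θ * Complex.I))) * h2 + P (pt z₀ x θ) * h3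
    · have := hc hg k 1
      simp only [one_mul] at this
      exact this.intervalIntegrable _ _
    · exact ((hc hg k Complex.I).intervalIntegrable _ _).const_mul _
    · have := hc hG (k-2) 1
      simp only [one_mul] at this
      exact this.intervalIntegrable _ _
    · exact ((hc hG (k-2) Complex.I).intervalIntegrable _ _).const_mul _
  rw [e1, e2] at e3
  push_cast at e3
  have hI : Complex.I * Complex.I = -1 := Complex.I_mul_I
  linear_combination e3 - ((k - 2) * Md z₀ (k - 2) G x + k * Md z₀ k g x) * hI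

/-- bounds -/
theorem Md_bound (z₀ : ℂ) (k : ℤ) (g : ℂ → ℂ) (x : ℝ) {C : ℝ} (hC : ∀ θ, ‖g (pt z₀ x θ)‖ ≤ C) :
    ‖Md z₀ k g x‖ ≤ C := by
  unfold Md
  rw [norm_mul]
  have h1 : ‖∫ θ in (-π)..π, g (pt z₀ x θ) * Complex.exp (-((k:ℂ) * θ * Complex.I))‖ ≤ C * |π - (-π)| := by
    apply intervalIntegral.norm_integral_le_of_norm_le_const
    intro θ _
    rw [norm_mul, Complex.norm_exp]
    simpa using hC θ
  have h2 : ‖(1 / (2 * π) : ℂ)‖ = 1 / (2 * π) := by
    simp [abs_of_pos Real.pi_pos]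
  have h3 : |π - (-π)| = 2 * π := by
    rw [abs_of_pos (by linarith [Real.pi_pos])]; ring
  rw [h3] at h1
  rw [h2]
  have hpi := Real.pi_pos
  calc 1 / (2 * π) * _ ≤ 1 / (2 * π) * (C * (2 * π)) := by gcongr
    _ = C := by field_simp

theorem norm_pt_sub (z₀ : ℂ) (x θ : ℝ) : ‖pt z₀ x θ - z₀‖ = Real.exp x := by
  unfold pt
  rw [add_sub_cancel_left, Complex.norm_exp]
  simp

end Pool.Agent.Lib.MP_f0c028_an
end

section

set_option autoImplicit false
set_option linter.unusedSectionVars false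
namespace Pool.Agent.Lib.MP_f0c028_an

open MeasureTheory Real Set Filter Topology
open scoped ENNReal

/-- Parseval on the circle, in extended nonnegative reals -/
theorem parseval_circle (φ : ℝ → ℂ) (hφ : Continuous φ) :
    ∫⁻ θ in Ioo (-π) π, ‖φ θ‖ₑ ^ 2 = ENNReal.ofReal (2 * π) *
      ∑' k : ℤ, ‖(1 / (2 * π) : ℂ) * ∫ θ in (-π)..π, φ θ * Complex.exp (-((k:ℂ) * θ * Complex.I))‖ₑ ^ 2 := by
  have hpi := Real.pi_pos
  have hlt : (-π) < π := by linarith
  obtain ⟨C, hC⟩ := (isCompact_Icc (a := -π) (b := π)).exists_bound_of_continuousOn hφ.continuousOn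
  have hmem : MemLp φ 2 (volume.restrict (Ioc (-π) π)) := by
    apply MemLp.of_bound hφ.aestronglyMeasurable C
    filter_upwards [ae_restrict_mem measurableSet_Ioc] with θ hθ
    exact hC θ (Ioc_subset_Icc_self hθ)
  have hs := hasSum_sq_fourierCoeffOn hlt hmem
  have hcoef : ∀ k : ℤ, fourierCoeffOn hlt φ k =
      (1 / (2 * π) : ℂ) * ∫ θ in (-π)..π, φ θ * Complex.exp (-((k:ℂ) * θ * Complex.I)) := by
    intro k
    rw [fourierCoeffOn_eq_integral]
    have h2 : π - -π = 2 * π := by ring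
    rw [Complex.real_smul]
    congr 1
    · rw [h2]; push_cast; rfl
    · apply intervalIntegral.integral_congr
      intro θ _
      simp only [smul_eq_mul]
      rw [fourier_coe_apply, mul_comm]
      congr 2
      push_cast
      have : (π:ℂ) ≠ 0 := by exact_mod_cast hpi.ne'
      have h3 : ((π:ℂ) - -(π:ℂ)) = 2 * π := by ring
      rw [h3]
      field_simp
  simp_rw [hcoef] at hs
  have hsum : ∑' k : ℤ, ‖(1 / (2 * π) : ℂ) * ∫ θ in (-π)..π, φ θ * Complex.exp (-((k:ℂ) * θ * Complex.I))‖ₑ ^ 2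
      = ENNReal.ofReal ((π - -π)⁻¹ • ∫ x in (-π)..π, ‖φ x‖ ^ 2) := by
    rw [← hs.tsum_eq, ENNReal.ofReal_tsum_of_nonneg (fun k => by positivity) hs.summable]
    congr 1
    funext k
    rw [ENNReal.ofReal_pow (norm_nonneg _), ofReal_norm]
  rw [hsum, ← ENNReal.ofReal_mul (by positivity)]
  have h2 : π - -π = 2 * π := by ring
  rw [h2, smul_eq_mul, mul_inv_cancel_left₀ (by positivity)]
  rw [intervalIntegral.integral_of_le hlt.le, integral_Ioc_eq_integral_Ioo,
    ofReal_integral_eq_lintegral_ofReal]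
  · congr 1
    funext θ
    rw [ENNReal.ofReal_pow (norm_nonneg _), ofReal_norm]
  · have : IntegrableOn (fun θ => ‖φ θ‖ ^ 2) (Icc (-π) π) :=
      (hφ.norm.pow 2).continuousOn.integrableOn_compact isCompact_Icc
    exact this.mono_set Ioo_subset_Icc_self
  · filter_upwards with θ
    positivity

theorem measurable_Md (z₀ : ℂ) (k : ℤ) {g : ℂ → ℂ} (hg : Continuous g) : Continuous (Md z₀ k g) := by
  unfold Md
  apply Continuous.mul continuous_const
  apply intervalIntegral.continuous_parametric_intervalIntegral_of_continuous'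
  exact (hg.comp (pt_cont z₀)).mul (by fun_prop)

/-- weighted Plancherel in logarithmic polar coordinates -/
theorem planar_parseval (z₀ : ℂ) {g : ℂ → ℂ} (hg : Continuous g) (V : ℝ → ℝ≥0∞) (hV : Measurable V) :
    ∫⁻ z, ‖g z‖ₑ ^ 2 * V ‖z - z₀‖ = ENNReal.ofReal (2 * π) *
      ∑' k : ℤ, ∫⁻ x, ‖((Real.exp x : ℝ) : ℂ) * Md z₀ k g x‖ₑ ^ 2 * V (Real.exp x) := by
  rw [lintegral_logpolar z₀ _ (by
    apply Measurable.mul
    · exact (hg.measurable.enorm).pow_const 2
    · exact hV.comp (by fun_prop))]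
  have h1 : ∀ x : ℝ, (ENNReal.ofReal (Real.exp (2 * x)) * ∫⁻ θ in Ioo (-π) π,
      ‖g (z₀ + Complex.exp (x + θ * Complex.I))‖ₑ ^ 2 *
        V ‖z₀ + Complex.exp (x + θ * Complex.I) - z₀‖) =
      ENNReal.ofReal (2 * π) *
      ∑' k : ℤ, ‖((Real.exp x : ℝ) : ℂ) * Md z₀ k g x‖ₑ ^ 2 * V (Real.exp x) := by
    intro x
    have h2 : ∀ θ : ℝ, ‖z₀ + Complex.exp (x + θ * Complex.I) - z₀‖ = Real.exp x :=
      fun θ => norm_pt_sub z₀ x θ
    simp_rw [h2]
    have hφ : Continuous (fun θ : ℝ => g (z₀ + Complex.exp (x + θ * Complex.I))) :=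
      (hg.comp (pt_cont z₀)).comp (by fun_prop : Continuous (fun θ : ℝ => (x, θ)))
    rw [lintegral_mul_const _ (hφ.measurable.enorm.pow_const 2), parseval_circle _ hφ,
      ENNReal.tsum_mul_right]
    have h3 : ∀ k : ℤ, ‖((Real.exp x : ℝ) : ℂ) * Md z₀ k g x‖ₑ ^ 2 =
        ENNReal.ofReal (Real.exp (2 * x)) * ‖Md z₀ k g x‖ₑ ^ 2 := by
      intro k
      rw [enorm_mul, mul_pow]
      congr 1
      rw [← ofReal_norm, Complex.norm_real, Real.norm_eq_abs, abs_of_pos (Real.exp_pos _),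
        ← ENNReal.ofReal_pow (Real.exp_pos _).le, ← Real.exp_nat_mul]
      norm_num
    simp_rw [h3]
    rw [ENNReal.tsum_mul_left]
    unfold Md pt
    ring
  simp_rw [h1]
  rw [lintegral_const_mul' _ _ ENNReal.ofReal_ne_top, lintegral_tsum]
  intro k
  apply Measurable.aemeasurable
  apply Measurable.mul
  · apply Measurable.pow_const
    apply Measurable.enorm
    exact ((Complex.continuous_ofReal.comp Real.continuous_exp).mul (measurable_Md z₀ k hg)).measurable
  · exact hV.comp Real.measurable_exp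

end Pool.Agent.Lib.MP_f0c028_an
end
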