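import Pool.Agent.Lib.MP_f0c028_an.Mg.G011
import Pool.Agent.Lib.MP_f0c028_an.Mg.G013

section

set_option autoImplicit false
namespace Pool.Agent.Lib.MP_f0c028_an

open Finset MeasureTheory Real Set
open scoped ENNReal


private theorem e2_bounds : (7.38 : ℝ) < Real.exp 2 ∧ Real.exp 2 < 7.39 := by
  have h1 := Real.exp_one_gt_d9
  have h2 := Real.exp_one_lt_d9
  have h3 : Real.exp 2 = Real.exp 1 * Real.exp 1 := by
    rw [← Real.exp_add]; norm_num
  rw [h3]
  constructor <;> nlinarith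

private theorem exp_two_mul_le (t : ℝ) (ht : 0 < t) (ht1 : t ≤ 1) :
    Real.exp (2 * t) - 1 ≤ 6.4 * t := by
  have h := convexOn_exp.2 (Set.mem_univ (0 : ℝ)) (Set.mem_univ (2 : ℝ))
    (sub_nonneg.mpr ht1) ht.le (by ring)
  simp only [smul_eq_mul, mul_zero, zero_add, Real.exp_zero, mul_one] at h
  rw [mul_comm t 2] at h
  nlinarith [e2_bounds.2]

private theorem one_sub_exp_ge (t : ℝ) (ht : 0 < t) (ht1 : t ≤ 1) :
    0.86 * t ≤ 1 - Real.exp (-(2 * t)) := by
  have h := convexOn_exp.2 (Set.mem_univ (0 : ℝ)) (Set.mem_univ (-2 : ℝ))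
    (sub_nonneg.mpr ht1) ht.le (by ring)
  simp only [smul_eq_mul, mul_zero, zero_add, Real.exp_zero, mul_one] at h
  have e1 : t * -2 = -(2 * t) := by ring
  rw [e1] at h
  have h2 : Real.exp (-2) ≤ 0.14 := by
    rw [Real.exp_neg, inv_le_comm₀ (Real.exp_pos _) (by norm_num)]
    have := e2_bounds.1
    norm_num at this ⊢
    linarith
  nlinarith

private theorem t_le_sinh (t : ℝ) (ht : 0 < t) : t ≤ Real.sinh t := (Real.self_le_sinh_iff).mpr ht.le

/-- the near bound with the constant `4` -/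
theorem kap_near4 (a m : ℕ) (ha : 1 ≤ a) (hm : 1 ≤ m) (t : ℝ) (ht : 0 < t) (ht1 : t ≤ 1) :
    |kap a m t| ≤ 4 * (m / t) *
      min (√(t * ((a : ℝ) + m - 1) / m)) (1 / √(t * ((a : ℝ) + m - 1) / m)) := by
  have ha' : (1 : ℝ) ≤ a := by exact_mod_cast ha
  have hm' : (1 : ℝ) ≤ m := by exact_mod_cast hm
  obtain ⟨N, hN⟩ : ∃ N : ℝ, N = (a : ℝ) + m - 1 := ⟨_, rfl⟩
  have hNm : (m : ℝ) ≤ N := by rw [hN]; linarith
  have hNa : (a : ℝ) - 1 ≤ N := by rw [hN]; linarith
  have hN0 : 0 < N := by linarith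
  have hm0 : (0 : ℝ) < m := by linarith
  have hsh := t_le_sinh t ht
  have hsh0 : 0 < Real.sinh t := by linarith
  have E1 := kap_E1 a m ha hm t ht
  have E2 := kap_E2 a m ha hm t ht
  have E3 := kap_E3 a m ha hm t ht
  rw [← hN] at E1 E3 ⊢
  obtain ⟨τ, hτ⟩ : ∃ τ : ℝ, τ = t * N / m := ⟨_, rfl⟩
  have hτ0 : 0 < τ := by rw [hτ]; positivity
  have htN : t * N = m * τ := by rw [hτ]; field_simp
  rw [← hτ]
  -- reduce to a bound for `sinh t * kap`
  have hred : ∀ B : ℝ, |Real.sinh t * kap a m t| ≤ m * B → |kap a m t| ≤ (m / t) * B := by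
    intro B hB
    rw [abs_mul, abs_of_pos hsh0] at hB
    have h1 : t * |kap a m t| ≤ m * B :=
      (mul_le_mul_of_nonneg_right hsh (abs_nonneg _)).trans hB
    rw [div_mul_eq_mul_div, le_div_iff₀ ht]
    linarith
  rw [mul_comm (4 : ℝ) (m / t), mul_assoc]
  apply hred
  have hs0 : 0 < √τ := Real.sqrt_pos.mpr hτ0
  have hsq : √τ * √τ = τ := Real.mul_self_sqrt hτ0.le
  rcases le_total τ 1 with hle | hge
  · have hmin : min (√τ) (1 / √τ) = √τ := by
      apply min_eq_left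
      rw [le_div_iff₀ hs0, hsq]
      exact hle
    rw [hmin]
    rcases le_total τ 0.3 with h3 | h3
    · -- E1
      have hexp := exp_two_mul_le t ht ht1
      have hexp0 : 0 ≤ Real.exp (2 * t) - 1 := by
        have := Real.add_one_le_exp (2 * t)
        linarith
      have hcond : ((a : ℝ) - 1) ^ 2 * (Real.exp (2 * t) - 1) ≤ 2 * m * N := by
        have h1 : ((a : ℝ) - 1) ^ 2 ≤ N ^ 2 := by
          apply pow_le_pow_left₀ (by linarith) hNa
        calc ((a : ℝ) - 1) ^ 2 * (Real.exp (2 * t) - 1) ≤ N ^ 2 * (6.4 * t) :=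
              mul_le_mul h1 hexp hexp0 (by positivity)
          _ = 6.4 * N * (t * N) := by ring
          _ = 6.4 * N * (m * τ) := by rw [htN]
          _ ≤ 2 * m * N := by
              have : 0 < N * m := by positivity
              nlinarith
      refine (E1 hcond).trans ?_
      rw [Real.sqrt_le_left (by positivity)]
      have h2 : (m * (4 * √τ)) ^ 2 = 16 * m * (m * τ) := by
        calc (m * (4 * √τ)) ^ 2 = 16 * m * m * (√τ * √τ) := by ring
          _ = 16 * m * (m * τ) := by rw [hsq]; ring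
      rw [h2, ← htN]
      have h3 : 0 ≤ 2 * (m : ℝ) * N := by positivity
      calc 2 * (m : ℝ) * N * (Real.exp (2 * t) - 1) ≤ 2 * m * N * (6.4 * t) :=
            mul_le_mul_of_nonneg_left hexp h3
        _ ≤ 16 * m * (t * N) := by
            have : 0 ≤ (m : ℝ) * (t * N) := by positivity
            nlinarith
    · -- E2
      have h1 : (1 / 2 : ℝ) ≤ √τ := by
        apply Real.le_sqrt_of_sq_le
        norm_num at h3 ⊢
        linarith
      refine E2.trans ?_
      have : (1 : ℝ) ≤ 4 * √τ := by linarith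
      nlinarith
  · have hs1 : 1 ≤ √τ := by
      rw [Real.one_le_sqrt]; exact hge
    have hmin : min (√τ) (1 / √τ) = 1 / √τ := by
      apply min_eq_right
      rw [div_le_iff₀ hs0, hsq]
      exact hge
    rw [hmin]
    rcases le_total τ 10 with h3 | h3
    · refine E2.trans ?_
      have h4 : √τ ≤ 4 := by
        rw [Real.sqrt_le_left (by norm_num)]
        linarith
      have h5 : (1 : ℝ) ≤ 4 * (1 / √τ) := by
        rw [mul_one_div, le_div_iff₀ hs0]
        linarith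
      nlinarith
    · -- E3
      refine E3.trans ?_
      have hge := one_sub_exp_ge t ht ht1
      have h2m : (2 : ℝ) ^ m ≤ Real.exp (m * 0.6932) := by
        rw [mul_comm, Real.exp_mul, Real.rpow_natCast]
        apply pow_le_pow_left₀ (by norm_num)
        have h := Real.log_two_lt_d9
        have : Real.exp (Real.log 2) = 2 := Real.exp_log (by norm_num)
        rw [← this]
        apply Real.exp_le_exp.mpr
        norm_num at h ⊢
        linarith
      have h5 : Real.exp (-(N * (1 - Real.exp (-(2 * t))) / 6)) ≤ Real.exp (-(m * τ * 0.143)) := by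
        apply Real.exp_le_exp.mpr
        have : N * (0.86 * t) ≤ N * (1 - Real.exp (-(2 * t))) :=
          mul_le_mul_of_nonneg_left hge hN0.le
        have h6 : N * (0.86 * t) = 0.86 * (m * τ) := by rw [← htN]; ring
        have h7 : 0 ≤ m * τ := by positivity
        rw [h6] at this
        norm_num at this ⊢
        nlinarith
      have h8 : (2 : ℝ) ^ m * Real.exp (-(N * (1 - Real.exp (-(2 * t))) / 6))
          ≤ Real.exp (-(τ * 0.07)) := by
        calc (2 : ℝ) ^ m * Real.exp (-(N * (1 - Real.exp (-(2 * t))) / 6))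
            ≤ Real.exp (m * 0.6932) * Real.exp (-(m * τ * 0.143)) :=
              mul_le_mul h2m h5 (Real.exp_pos _).le (Real.exp_pos _).le
          _ = Real.exp (m * 0.6932 - m * τ * 0.143) := by rw [← Real.exp_add]; ring_nf
          _ ≤ Real.exp (-(τ * 0.07)) := by
              apply Real.exp_le_exp.mpr
              have h9 : (0.6932 : ℝ) - τ * 0.143 ≤ -(τ * 0.07) := by
                norm_num
                linarith
              have h10 : (m : ℝ) * (0.6932 - τ * 0.143) ≤ m * (-(τ * 0.07)) :=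
                mul_le_mul_of_nonneg_left h9 hm0.le
              have h11 : (m : ℝ) * (-(τ * 0.07)) ≤ 1 * (-(τ * 0.07)) := by
                apply mul_le_mul_of_nonpos_right hm'
                linarith
              linarith
      have h12 : Real.exp (-(τ * 0.07)) ≤ 4 * (1 / √τ) := by
        -- exp(0.07 τ) ≥ (0.07 τ)^1/2·... : use `exp x ≥ 1 + x` with `x = 0.035 τ` squared
        rw [Real.exp_neg, mul_one_div, inv_eq_one_div, div_le_div_iff₀ (Real.exp_pos _) hs0]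
        have h13 : 1 + τ * 0.07 ≤ Real.exp (τ * 0.07) := by
          have := Real.add_one_le_exp (τ * 0.07)
          linarith
        nlinarith [sq_nonneg (√τ - 2)]
      calc (m : ℝ) * 2 ^ m * Real.exp (-(N * (1 - Real.exp (-(2 * t))) / 6))
          = m * (2 ^ m * Real.exp (-(N * (1 - Real.exp (-(2 * t))) / 6))) := by ring
        _ ≤ m * (4 * (1 / √τ)) :=
            mul_le_mul_of_nonneg_left (h8.trans h12) hm0.le

/-- near bound -/
theorem kap_near (a m : ℕ) (ha : 1 ≤ a) (hm : 1 ≤ m) (t : ℝ) (ht : 0 < t) (ht1 : t ≤ 1) :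
    |kap a m t| ≤ 50 * (m / t) *
      min (√(t * ((a : ℝ) + m - 1) / m)) (1 / √(t * ((a : ℝ) + m - 1) / m)) := by
  refine (kap_near4 a m ha hm t ht ht1).trans ?_
  have h1 : 0 ≤ min (√(t * ((a : ℝ) + m - 1) / m)) (1 / √(t * ((a : ℝ) + m - 1) / m)) := by
    apply le_min (Real.sqrt_nonneg _)
    positivity
  have h2 : (0 : ℝ) ≤ m / t := by positivity
  apply mul_le_mul_of_nonneg_right _ h1
  linarith

/-- far bound -/
theorem kap_far (a m : ℕ) (ha : 1 ≤ a) (hm : 1 ≤ m) (t : ℝ) (ht1 : 1 ≤ t) :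
    |kap a m t| ≤ 3 * m * Real.exp (-t) := by
  have E2 := kap_E2 a m ha hm t (by linarith)
  have hsh : Real.exp t / 3 ≤ Real.sinh t := by
    rw [Real.sinh_eq]
    have h1 : Real.exp t = Real.exp (-t) * Real.exp (2 * t) := by
      rw [← Real.exp_add]; congr 1; ring
    have h2 : (3 : ℝ) ≤ Real.exp (2 * t) := by
      have := Real.add_one_le_exp (2 * t)
      linarith
    have h3 := Real.exp_pos (-t)
    nlinarith
  have he : 0 < Real.exp t := Real.exp_pos t
  rw [abs_mul, abs_of_pos (by linarith)] at E2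
  have h1 : Real.exp t / 3 * |kap a m t| ≤ m :=
    (mul_le_mul_of_nonneg_right hsh (abs_nonneg _)).trans E2
  rw [Real.exp_neg, ← div_eq_mul_inv, le_div_iff₀ he]
  nlinarith

private theorem tele (q x : ℝ) (hq0 : 0 < q) (hq : q ≤ 0.71) (hx : 0 < x) (J : ℕ) :
    ∑ j ∈ range J, min (x * q ^ j) (1 / (x * q ^ j)) ≤ 14 * (x / (1 + x)) := by
  have key : ∀ u : ℝ, 0 < u → min u (1 / u) ≤ 14 * (u / (1 + u) - q * u / (1 + q * u)) := by
    intro u hu
    have h1 : u / (1 + u) - q * u / (1 + q * u) = (1 - q) * u / ((1 + u) * (1 + q * u)) := by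
      have : 0 < 1 + q * u := by positivity
      field_simp
      ring
    have hqu : 0 < q * u := by positivity
    have hqu1 : q * u ≤ u := by nlinarith
    have h1q : (0.29 : ℝ) ≤ 1 - q := by linarith
    have h2 : 0.29 * (u / (1 + u) ^ 2) ≤ (1 - q) * u / ((1 + u) * (1 + q * u)) := by
      rw [← mul_div_assoc, div_le_div_iff₀ (by positivity) (by positivity)]
      have h3 : (1 + u) * (1 + q * u) ≤ (1 + u) ^ 2 := by nlinarith
      have h4 : 0.29 * u ≤ (1 - q) * u := mul_le_mul_of_nonneg_right h1q hu.le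
      exact mul_le_mul h4 h3 (by positivity) (by nlinarith)
    have h5 : min u (1 / u) ≤ 4 * (u / (1 + u) ^ 2) := by
      rcases le_total u 1 with h | h
      · refine (min_le_left _ _).trans ?_
        rw [← mul_div_assoc, le_div_iff₀ (by positivity)]
        have : (1 + u) ^ 2 ≤ 4 := by nlinarith
        nlinarith
      · refine (min_le_right _ _).trans ?_
        rw [← mul_div_assoc, div_le_div_iff₀ hu (by positivity)]
        nlinarith
    have h6 : 0 ≤ u / (1 + u) ^ 2 := by positivity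
    rw [h1]
    linarith
  have hsum : ∑ j ∈ range J, min (x * q ^ j) (1 / (x * q ^ j))
      ≤ ∑ j ∈ range J, 14 * (x * q ^ j / (1 + x * q ^ j) - x * q ^ (j + 1) / (1 + x * q ^ (j + 1))) := by
    apply Finset.sum_le_sum
    intro j _
    have h := key (x * q ^ j) (by positivity)
    have e1 : q * (x * q ^ j) = x * q ^ (j + 1) := by rw [pow_succ]; ring
    rw [e1] at h
    exact h
  refine hsum.trans ?_
  rw [← Finset.mul_sum, Finset.sum_range_sub' (fun j => x * q ^ j / (1 + x * q ^ j))]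
  have h7 : 0 ≤ x * q ^ J / (1 + x * q ^ J) := by positivity
  simp only [pow_zero, mul_one]
  linarith

/-- dyadic majorant -/
theorem kap_dyadic (a m : ℕ) (ha : 1 ≤ a) (hm : 1 ≤ m) :
    ∃ s : ℕ → ℝ, (∀ j, 0 ≤ s j) ∧
      (∀ j t, (1 / 2 : ℝ) ^ (j + 1) ≤ t → t ≤ (1 / 2 : ℝ) ^ j → |kap a m t| ≤ s j) ∧
      (∀ J, ∑ j ∈ range J, s j * (1 / 2 : ℝ) ^ j ≤ 1000 * m) := by
  have ha' : (1 : ℝ) ≤ a := by exact_mod_cast ha
  have hm' : (1 : ℝ) ≤ m := by exact_mod_cast hm
  have hm0 : (0 : ℝ) < m := by linarith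
  obtain ⟨N, hN⟩ : ∃ N : ℝ, N = (a : ℝ) + m - 1 := ⟨_, rfl⟩
  have hNm : (m : ℝ) ≤ N := by rw [hN]; linarith
  have hN0 : 0 < N := by linarith
  set q : ℝ := √(1 / 2) with hq
  have hq0 : 0 < q := Real.sqrt_pos.mpr (by norm_num)
  have hqq : q * q = 1 / 2 := Real.mul_self_sqrt (by norm_num)
  have hq1 : q ≤ 0.71 := by
    rw [hq, Real.sqrt_le_left (by norm_num)]
    norm_num
  set x : ℝ := √(N / m) with hx
  have hx0 : 0 < x := Real.sqrt_pos.mpr (by positivity)
  have hxx : x * x = N / m := Real.mul_self_sqrt (by positivity)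
  refine ⟨fun j => 12 * m * 2 ^ j * min (x * q ^ j) (1 / (x * q ^ j)), ?_, ?_, ?_⟩
  · intro j
    have : 0 ≤ min (x * q ^ j) (1 / (x * q ^ j)) := le_min (by positivity) (by positivity)
    positivity
  · intro j t h1 h2
    have hp : (0 : ℝ) < (1 / 2) ^ j := by positivity
    have ht : 0 < t := lt_of_lt_of_le (by positivity) h1
    have ht1 : t ≤ 1 := h2.trans (pow_le_one₀ (by norm_num) (by norm_num))
    have hnear := kap_near4 a m ha hm t ht ht1
    rw [← hN] at hnear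
    refine hnear.trans ?_
    have hsqp : (q ^ j) * (q ^ j) = (1 / 2) ^ j := by
      rw [← mul_pow, hqq]
    -- √(tN/m) = x √t
    have e1 : √(t * N / m) = x * √t := by
      rw [hx, mul_div_assoc, mul_comm t, Real.sqrt_mul (by positivity)]
    have hst0 : 0 < √t := Real.sqrt_pos.mpr ht
    have h3 : √t ≤ q ^ j := by
      rw [Real.sqrt_le_left (by positivity), pow_two, hsqp]
      exact h2
    have h4 : q * q ^ j ≤ √t := by
      apply Real.le_sqrt_of_sq_le
      calc (q * q ^ j) ^ 2 = (q * q) * (q ^ j * q ^ j) := by ring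
        _ = (1 / 2) ^ (j + 1) := by rw [hqq, hsqp, pow_succ]; ring
        _ ≤ t := h1
    have h5 : min (x * √t) (1 / (x * √t)) ≤ (3 / 2) * min (x * q ^ j) (1 / (x * q ^ j)) := by
      have h6 : x * √t ≤ x * q ^ j := mul_le_mul_of_nonneg_left h3 hx0.le
      have h7 : 1 / (x * √t) ≤ (3 / 2) * (1 / (x * q ^ j)) := by
        rw [mul_one_div, div_le_div_iff₀ (by positivity) (by positivity)]
        have h8 : x * (q * q ^ j) ≤ x * √t := mul_le_mul_of_nonneg_left h4 hx0.le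
        have h9 : (0.7 : ℝ) ≤ q := by
          rw [hq]
          apply Real.le_sqrt_of_sq_le
          norm_num
        have h10 : 0 < x * q ^ j := by positivity
        have h11 : x * (q * q ^ j) = q * (x * q ^ j) := by ring
        rw [h11] at h8
        nlinarith
      rw [mul_min_of_nonneg _ _ (by norm_num : (0 : ℝ) ≤ 3 / 2)]
      apply min_le_min _ h7
      have : 0 < x * q ^ j := by positivity
      linarith
    rw [e1]
    have h12 : (m : ℝ) / t ≤ 2 * m * 2 ^ j := by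
      rw [div_le_iff₀ ht]
      have h13 : (2 : ℝ) ^ j * (1 / 2) ^ j = 1 := by rw [← mul_pow]; norm_num
      have h14 : (1 : ℝ) ≤ 2 * 2 ^ j * t := by
        have : (2 : ℝ) * 2 ^ j * (1 / 2) ^ (j + 1) = 1 := by
          rw [pow_succ]; linarith
        rw [← this]
        apply mul_le_mul_of_nonneg_left h1 (by positivity)
      nlinarith
    have h15 : 0 ≤ min (x * √t) (1 / (x * √t)) := le_min (by positivity) (by positivity)
    have h16 : 0 ≤ min (x * q ^ j) (1 / (x * q ^ j)) := le_min (by positivity) (by positivity)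
    calc 4 * (m / t) * min (x * √t) (1 / (x * √t))
        ≤ 4 * (2 * m * 2 ^ j) * ((3 / 2) * min (x * q ^ j) (1 / (x * q ^ j))) := by
          apply mul_le_mul _ h5 h15 (by positivity)
          linarith
      _ = 12 * m * 2 ^ j * min (x * q ^ j) (1 / (x * q ^ j)) := by ring
  · intro J
    have h1 : ∑ j ∈ range J, 12 * (m : ℝ) * 2 ^ j * min (x * q ^ j) (1 / (x * q ^ j)) * (1 / 2) ^ j
        = 12 * m * ∑ j ∈ range J, min (x * q ^ j) (1 / (x * q ^ j)) := by
      rw [Finset.mul_sum]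
      apply Finset.sum_congr rfl
      intro j _
      have h13 : (2 : ℝ) ^ j * (1 / 2) ^ j = 1 := by rw [← mul_pow]; norm_num
      calc 12 * (m : ℝ) * 2 ^ j * min (x * q ^ j) (1 / (x * q ^ j)) * (1 / 2) ^ j
          = 12 * m * min (x * q ^ j) (1 / (x * q ^ j)) * (2 ^ j * (1 / 2) ^ j) := by ring
        _ = 12 * m * min (x * q ^ j) (1 / (x * q ^ j)) := by rw [h13, mul_one]
    rw [h1]
    have h2 := tele q x hq0 hq1 hx0 J
    have h3 : x / (1 + x) ≤ 1 := by
      rw [div_le_one (by positivity)]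
      linarith
    have h4 : ∑ j ∈ range J, min (x * q ^ j) (1 / (x * q ^ j)) ≤ 14 := by linarith
    nlinarith

end Pool.Agent.Lib.MP_f0c028_an
end

section

set_option autoImplicit false
set_option linter.unusedSectionVars false
namespace Pool.Agent.Lib.MP_f0c028_an

open MeasureTheory Real Set Filter Topology
open scoped ENNReal

theorem sq_add3 (a b c : ℝ≥0∞) : (a + b + c) ^ 2 ≤ 3 * a ^ 2 + 3 * b ^ 2 + 3 * c ^ 2 := by
  rcases eq_or_ne a ∞ with rfl | ha
  · simp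
  rcases eq_or_ne b ∞ with rfl | hb
  · simp
  rcases eq_or_ne c ∞ with rfl | hc
  · simp
  lift a to NNReal using ha
  lift b to NNReal using hb
  lift c to NNReal using hc
  norm_cast
  rw [← NNReal.coe_le_coe]
  push_cast
  nlinarith [sq_nonneg ((a:ℝ) - b), sq_nonneg ((b:ℝ) - c), sq_nonneg ((a:ℝ) - c)]

theorem ofReal_comb (X Y Z : ℝ) (hX : 0 ≤ X) (hY : 0 ≤ Y) (hZ : 0 ≤ Z) :
    ENNReal.ofReal (3 + 3 * X + 3 * Y ^ 2 * Z) =
      3 + 3 * ENNReal.ofReal X + 3 * ENNReal.ofReal Y ^ 2 * ENNReal.ofReal Z := by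
  have h3 : ENNReal.ofReal 3 = (3:ℝ≥0∞) := by simp
  rw [ENNReal.ofReal_add (by positivity) (by positivity),
    ENNReal.ofReal_add (by positivity) (by positivity),
    ENNReal.ofReal_mul (p := 3) (by positivity), ENNReal.ofReal_mul (p := 3 * Y ^ 2) (by positivity),
    ENNReal.ofReal_mul (p := 3) (q := Y ^ 2) (by positivity), ENNReal.ofReal_pow hY, h3]

/-- the weighted one-dimensional estimate -/
theorem oneD {W Wi : ℝ → ℝ≥0∞} {K : ℝ} (h : LogA2 W Wi K) {e : ℝ} (he : e = 1 ∨ e = -1)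
    {a m M : ℕ} (ha : 1 ≤ a) (hmM : m ≤ M) (hM : 1 ≤ M) {F0 : ℝ → ℂ} (hF0 : Continuous F0) {B : ℝ}
    (hB : ∀ x, ‖F0 x‖ ≤ B) :
    ∫⁻ x, ‖HH e a m F0 x‖ₑ ^ 2 * W x ≤
      ENNReal.ofReal ((200000 * M * K) ^ 2) * ∫⁻ x, ‖F0 x‖ₑ ^ 2 * W x := by
  have hK := h.one_le
  have hM' : (1:ℝ) ≤ M := by exact_mod_cast hM
  rcases Nat.eq_zero_or_pos m with rfl | hm
  · simp_rw [HH_zero]
    have h1 : (1:ℝ) ≤ (200000 * M * K) ^ 2 := by
      have : (1:ℝ) ≤ 200000 * M * K := by nlinarith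
      nlinarith
    have h2 : (1:ℝ≥0∞) ≤ ENNReal.ofReal ((200000 * M * K) ^ 2) := by
      rw [← ENNReal.ofReal_one]; exact ENNReal.ofReal_le_ofReal h1
    calc _ = 1 * ∫⁻ x, ‖F0 x‖ₑ ^ 2 * W x := (one_mul _).symm
      _ ≤ _ := by gcongr
  · have hm' : (1:ℝ) ≤ m := by exact_mod_cast hm
    have hmM' : (m:ℝ) ≤ M := by exact_mod_cast hmM
    set G : ℝ → ℝ≥0∞ := fun x => ‖F0 x‖ₑ with hGdef
    have hG : Measurable G := hF0.measurable.enorm
    set k : ℝ → ℝ≥0∞ := fun t => ENNReal.ofReal |kap a m t| with hkdef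
    have hkm : Measurable k := by
      have : Continuous (kap a m) := by unfold kap; fun_prop
      exact this.abs.measurable.ennreal_ofReal
    obtain ⟨s, hs0, hs1, hs2⟩ := kap_dyadic a m ha hm
    have near := near_total h e he G hG k s hs0
      (fun j t ht1 ht2 => ENNReal.ofReal_le_ofReal (hs1 j t ht1 ht2)) (1000 * m) hs2
    have far := far_total h e he G hG
    -- pointwise
    have hpt : ∀ x, ‖HH e a m F0 x‖ₑ ^ 2 ≤ 3 * G x ^ 2 +
        3 * (∫⁻ t in Ioc 0 1, k t * G (x + e * t)) ^ 2 +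
        3 * (ENNReal.ofReal (3 * m) *
          ∫⁻ t in Ioi 1, ENNReal.ofReal (Real.exp (-t)) * G (x + e * t)) ^ 2 := by
      intro x
      refine le_trans ?_ (sq_add3 _ _ _)
      gcongr
      refine (HH_bound ha hF0 hB x).trans ?_
      rw [add_assoc]
      gcongr
      have hsplit : Ioi (0:ℝ) = Ioc 0 1 ∪ Ioi 1 := (Ioc_union_Ioi_eq_Ioi zero_le_one).symm
      rw [hsplit]
      refine (lintegral_union_le _ _ _).trans ?_
      gcongr
      rw [← lintegral_const_mul' _ _ ENNReal.ofReal_ne_top]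
      apply setLIntegral_mono' measurableSet_Ioi
      intro t ht
      rw [← mul_assoc, ← ENNReal.ofReal_mul (by positivity)]
      gcongr
      exact kap_far a m ha hm t (le_of_lt ht)
    have hmeas2 : Measurable (fun x => (∫⁻ t in Ioc (0:ℝ) 1, k t * G (x + e * t)) ^ 2 * W x) := by
      apply Measurable.mul _ h.meas
      apply Measurable.pow_const
      apply Measurable.lintegral_prod_right'
        (f := fun p : ℝ × ℝ => k p.2 * G (p.1 + e * p.2))
      exact (hkm.comp measurable_snd).mul (hG.comp (by fun_prop))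
    have hmeas1 : Measurable (fun x => G x ^ 2 * W x) := (hG.pow_const 2).mul h.meas
    calc ∫⁻ x, ‖HH e a m F0 x‖ₑ ^ 2 * W x
        ≤ ∫⁻ x, (3 * (G x ^ 2 * W x) +
          3 * ((∫⁻ t in Ioc 0 1, k t * G (x + e * t)) ^ 2 * W x) +
          3 * (ENNReal.ofReal (3 * m)) ^ 2 *
            ((∫⁻ t in Ioi 1, ENNReal.ofReal (Real.exp (-t)) * G (x + e * t)) ^ 2 * W x)) := by
          apply lintegral_mono
          intro x
          refine (mul_le_mul_left (hpt x) (W x)).trans (le_of_eq ?_)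
          ring
      _ = 3 * (∫⁻ x, G x ^ 2 * W x) +
          3 * (∫⁻ x, (∫⁻ t in Ioc 0 1, k t * G (x + e * t)) ^ 2 * W x) +
          3 * (ENNReal.ofReal (3 * m)) ^ 2 *
            (∫⁻ x, (∫⁻ t in Ioi 1, ENNReal.ofReal (Real.exp (-t)) * G (x + e * t)) ^ 2 * W x) := by
          rw [lintegral_add_left, lintegral_add_left, lintegral_const_mul _ hmeas1,
            lintegral_const_mul _ hmeas2, lintegral_const_mul']
          · exact ENNReal.mul_ne_top (by simp) (ENNReal.pow_ne_top ENNReal.ofReal_ne_top)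
          · exact hmeas1.const_mul 3
          · exact (hmeas1.const_mul 3).add (hmeas2.const_mul 3)
      _ ≤ 3 * (∫⁻ x, G x ^ 2 * W x) +
          3 * (ENNReal.ofReal (12800 * K * (1000 * m) ^ 2) * ∫⁻ x, G x ^ 2 * W x) +
          3 * (ENNReal.ofReal (3 * m)) ^ 2 *
            (ENNReal.ofReal (200 * K ^ 2) * ∫⁻ x, G x ^ 2 * W x) := by
          gcongr
      _ = ENNReal.ofReal (3 + 3 * (12800 * K * (1000 * m) ^ 2) + 3 * (3 * m) ^ 2 * (200 * K ^ 2)) *
          ∫⁻ x, G x ^ 2 * W x := by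
          rw [ofReal_comb _ _ _ (by positivity) (by positivity) (by positivity)]
          ring
      _ ≤ ENNReal.ofReal ((200000 * M * K) ^ 2) * ∫⁻ x, G x ^ 2 * W x := by
          gcongr
          have hm2 : (m:ℝ) ^ 2 ≤ M ^ 2 := by gcongr
          have h1M : (1:ℝ) ≤ M ^ 2 := by nlinarith
          have hKK : K ≤ K ^ 2 := by nlinarith
          have h1K : (1:ℝ) ≤ K ^ 2 := by nlinarith
          have e1 : (3:ℝ) ≤ 3 * (M ^ 2 * K ^ 2) := by nlinarith
          have e2 : K * (m:ℝ) ^ 2 ≤ M ^ 2 * K ^ 2 := by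
            calc K * (m:ℝ) ^ 2 ≤ K ^ 2 * M ^ 2 := by gcongr
              _ = _ := by ring
          have e3 : (m:ℝ) ^ 2 * K ^ 2 ≤ M ^ 2 * K ^ 2 := by gcongr
          nlinarith

end Pool.Agent.Lib.MP_f0c028_an
end

section

set_option autoImplicit false
set_option linter.unusedSectionVars false
namespace Pool.Agent.Lib.MP_f0c028_an

open MeasureTheory Real Set Filter Topology
open scoped ENNReal

theorem gg_contDiff (f : SchwartzMap ℂ ℂ) (j : ℕ) : ContDiff ℝ 1 (gg f j) :=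
  UU_contDiff (hh_int f j) (hh_int1 f j)

/-- the modes of `B^j f` in logarithmic coordinates -/
noncomputable def FF (z₀ : ℂ) (k : ℤ) (f : SchwartzMap ℂ ℂ) (j : ℕ) (x : ℝ) : ℂ :=
  ((Real.exp x : ℝ) : ℂ) * Md z₀ (k - 2 * j) (gg f j) x

theorem FF_deriv (z₀ : ℂ) (k : ℤ) (f : SchwartzMap ℂ ℂ) (j : ℕ) (x : ℝ) :
    HasDerivAt (FF z₀ k f j) (((Real.exp x : ℝ) : ℂ) * Md z₀ (k - 2 * j) (gg f j) x +
      ((Real.exp x : ℝ) : ℂ) * Md' z₀ (k - 2 * j) (gg f j) x) x := by
  have h1 : HasDerivAt (fun x : ℝ => ((Real.exp x : ℝ) : ℂ)) ((Real.exp x : ℝ) : ℂ) x :=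
    (Real.hasDerivAt_exp x).ofReal_comp
  exact h1.mul (Md_hasDerivAt (gg_contDiff f j) z₀ (k - 2 * j) x)

theorem FF_rel (z₀ : ℂ) (k : ℤ) (f : SchwartzMap ℂ ℂ) (j : ℕ) (x : ℝ) :
    (((Real.exp x : ℝ) : ℂ) * Md z₀ (k - 2 * ((j + 1 : ℕ) : ℤ)) (gg f (j + 1)) x +
      ((Real.exp x : ℝ) : ℂ) * Md' z₀ (k - 2 * ((j + 1 : ℕ) : ℤ)) (gg f (j + 1)) x) -
      ((k - 1 - 2 * j : ℤ) : ℂ) * FF z₀ k f (j + 1) x =
    (((Real.exp x : ℝ) : ℂ) * Md z₀ (k - 2 * j) (gg f j) x +
      ((Real.exp x : ℝ) : ℂ) * Md' z₀ (k - 2 * j) (gg f j) x) +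
      ((k - 1 - 2 * j : ℤ) : ℂ) * FF z₀ k f j x := by
  obtain ⟨P, hP⟩ := gg_rel f j
  have h := Md_rel (gg_contDiff f j) (gg_contDiff f (j+1)) P hP z₀ (k - 2 * j) x
  have e1 : (k - 2 * (j:ℤ) - 2) = k - 2 * ((j + 1 : ℕ) : ℤ) := by push_cast; ring
  rw [e1] at h
  unfold FF
  generalize ((Real.exp x : ℝ) : ℂ) = E
  push_cast at h ⊢
  linear_combination E * h

theorem FF_bot (z₀ : ℂ) (k : ℤ) (f : SchwartzMap ℂ ℂ) (j : ℕ) :
    Tendsto (FF z₀ k f j) atBot (𝓝 0) := by
  rw [tendsto_zero_iff_norm_tendsto_zero]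
  apply squeeze_zero (g := fun x => Real.exp x * ∫ ξ, ‖hh f j ξ‖)
  · intro x; positivity
  · intro x
    unfold FF
    rw [norm_mul, Complex.norm_real, Real.norm_eq_abs, abs_of_pos (Real.exp_pos _)]
    exact mul_le_mul_of_nonneg_left
      (Md_bound z₀ _ _ x (fun θ => UU_bound (hh_int f j) _)) (Real.exp_pos _).le
  · simpa using Real.tendsto_exp_atBot.mul_const (∫ ξ, ‖hh f j ξ‖)

theorem FF_top (z₀ : ℂ) (k : ℤ) (f : SchwartzMap ℂ ℂ) (j : ℕ) :
    Tendsto (fun x => ((Real.exp (-x) : ℝ) : ℂ) * FF z₀ k f j x) atTop (𝓝 0) := by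
  have h1 : ∀ x, ((Real.exp (-x) : ℝ) : ℂ) * FF z₀ k f j x = Md z₀ (k - 2 * j) (gg f j) x := by
    intro x
    unfold FF
    rw [← mul_assoc, ← Complex.ofReal_mul, ← Real.exp_add]
    simp
  simp_rw [h1]
  have h2 := UU_tendsto (hh_int f j)
  rw [Metric.tendsto_atTop]
  intro ε hε
  have h3 : ∀ᶠ z in cocompact ℂ, ‖UU (hh f j) z‖ < ε / 2 := by
    have := h2.norm
    rw [norm_zero] at this
    exact this.eventually (gt_mem_nhds (half_pos hε))
  rw [← Metric.cobounded_eq_cocompact, ← comap_norm_atTop, eventually_comap] at h3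
  obtain ⟨R, hR⟩ := eventually_atTop.mp h3
  obtain ⟨N, hN⟩ := eventually_atTop.mp (Real.tendsto_exp_atTop.eventually_ge_atTop (R + ‖z₀‖))
  refine ⟨N, fun x hx => ?_⟩
  rw [dist_zero_right]
  refine lt_of_le_of_lt (Md_bound z₀ _ _ x (C := ε / 2) fun θ => ?_) (half_lt_self hε)
  have h4 : R ≤ ‖pt z₀ x θ‖ := by
    have h5 := norm_pt_sub z₀ x θ
    have h6 : ‖pt z₀ x θ - z₀‖ ≤ ‖pt z₀ x θ‖ + ‖z₀‖ := norm_sub_le _ _
    have h7 := hN x hx
    linarith
  exact (hR _ h4 _ rfl).le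

theorem FF_zero_bound (z₀ : ℂ) (k : ℤ) (f : SchwartzMap ℂ ℂ) :
    ∃ B, ∀ x, ‖FF z₀ k f 0 x‖ ≤ B := by
  obtain ⟨C0, hC0⟩ := f.decay 0 0
  obtain ⟨C1, hC1⟩ := f.decay 1 0
  refine ⟨C1 + ‖z₀‖ * C0, fun x => ?_⟩
  have h0 : ∀ z, ‖f z‖ ≤ C0 := fun z => by simpa using hC0.2 z
  have h1 : ∀ z, ‖z‖ * ‖f z‖ ≤ C1 := fun z => by simpa using hC1.2 z
  have h2 : ∀ θ, Real.exp x * ‖f (pt z₀ x θ)‖ ≤ C1 + ‖z₀‖ * C0 := by
    intro θ
    rw [← norm_pt_sub z₀ x θ]
    calc ‖pt z₀ x θ - z₀‖ * ‖f (pt z₀ x θ)‖ ≤ (‖pt z₀ x θ‖ + ‖z₀‖) * ‖f (pt z₀ x θ)‖ := by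
          gcongr; exact norm_sub_le _ _
      _ = ‖pt z₀ x θ‖ * ‖f (pt z₀ x θ)‖ + ‖z₀‖ * ‖f (pt z₀ x θ)‖ := by ring
      _ ≤ _ := by
          gcongr
          · exact h1 _
          · exact h0 _
  unfold FF
  rw [norm_mul, Complex.norm_real, Real.norm_eq_abs, abs_of_pos (Real.exp_pos _)]
  have h3 := Md_bound z₀ (k - 2 * ((0:ℕ):ℤ)) (gg f 0) x (C := (C1 + ‖z₀‖ * C0) / Real.exp x)
    (fun θ => by
      rw [gg_zero, le_div_iff₀ (Real.exp_pos _), mul_comm]
      exact h2 θ)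
  calc Real.exp x * ‖Md z₀ (k - 2 * ((0:ℕ):ℤ)) (gg f 0) x‖ ≤
      Real.exp x * ((C1 + ‖z₀‖ * C0) / Real.exp x) := by gcongr
    _ = _ := by field_simp

/-- The radial theorem for measurable radial weights. -/
theorem radial_core (z₀ : ℂ) (V Vi : ℝ → ℝ≥0∞) (hV : Measurable V) (K : ℝ)
    (hA : LogA2 (fun x => V (Real.exp x)) (fun x => Vi (Real.exp x)) K) (m : ℕ) (hm : 1 ≤ m)
    (f : SchwartzMap ℂ ℂ) :
    ∫⁻ z, ‖gg f m z‖ₑ ^ 2 * V ‖z - z₀‖ ≤
      ENNReal.ofReal ((200000 * m * K) ^ 2) * ∫⁻ z, ‖f z‖ₑ ^ 2 * V ‖z - z₀‖ := by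
  rw [planar_parseval z₀ (gg_contDiff f m).continuous V hV,
    planar_parseval z₀ f.continuous V hV]
  rw [mul_left_comm (ENNReal.ofReal ((200000 * m * K) ^ 2))]
  apply mul_le_mul_right
  rw [← ENNReal.tsum_mul_left]
  -- reindex
  rw [← (Equiv.subRight (2 * (m:ℤ))).tsum_eq (fun k : ℤ => ∫⁻ x, ‖((Real.exp x : ℝ) : ℂ) *
    Md z₀ k (gg f m) x‖ₑ ^ 2 * V (Real.exp x))]
  apply ENNReal.tsum_le_tsum
  intro k
  simp only [Equiv.subRight_apply]
  obtain ⟨B, hB⟩ := FF_zero_bound z₀ k f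
  obtain ⟨e, a, m', he, ha, hm', hF⟩ := chain k (FF z₀ k f) _ (FF_deriv z₀ k f)
    (FF_rel z₀ k f) (FF_bot z₀ k f) (FF_top z₀ k f) hB m
  have h0 : ∀ x, FF z₀ k f 0 x = ((Real.exp x : ℝ) : ℂ) * Md z₀ k f x := by
    intro x
    unfold FF
    have : gg f 0 = f := funext (gg_zero f)
    rw [this]
    simp
  have hcont : Continuous (FF z₀ k f 0) :=
    continuous_iff_continuousAt.mpr fun x => (FF_deriv z₀ k f 0 x).continuousAt
  have h1 := oneD hA he ha hm' hm hcont hB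
  have h2 : ∀ x, ((Real.exp x : ℝ) : ℂ) * Md z₀ (k - 2 * (m:ℤ)) (gg f m) x =
      HH e a m' (FF z₀ k f 0) x := fun x => hF x
  simp_rw [h2, ← h0]
  exact h1

end Pool.Agent.Lib.MP_f0c028_an
end
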