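import Pool.Agent.Lib.MP_f0c028_an.PW6

section

set_option autoImplicit false

/-! # The class of weights with a given bound: sums, reciprocals, geometric means -/

open Real

namespace Pool.Agent.Lib.MP_f0c028_an

open MeasureTheory Set Filter Topology
open scoped ENNReal

/-- Weights with locally integrable reciprocal for which `B^m` is bounded (`N` bounds the square
of the norm). -/
structure Cls (m : ℕ) (N : ℝ≥0∞) (w : ℂ → ℝ) : Prop where
  meas : Measurable w
  pos : ∀ z, 0 < w z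
  li : LocallyIntegrable w volume
  lii : LocallyIntegrable (fun z => (w z)⁻¹) volume
  bd : ∀ f : SchwartzMap ℂ ℂ, ∫⁻ z, ‖gg f m z‖ₑ ^ 2 * ENNReal.ofReal (w z) ≤
      N * ∫⁻ z, ‖f z‖ₑ ^ 2 * ENNReal.ofReal (w z)

variable {m : ℕ} {N : ℝ≥0∞}

/-- local integrability from a bound -/
theorem locInt_mono {u v : ℂ → ℝ} (hv : LocallyIntegrable v volume) (hu : Measurable u)
    (h0 : ∀ z, 0 ≤ u z) (h : ∀ z, u z ≤ v z) : LocallyIntegrable u volume := by
  refine hv.mono hu.aestronglyMeasurable ?_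
  filter_upwards with z
  rw [Real.norm_eq_abs, Real.norm_eq_abs, abs_of_nonneg (h0 z),
    abs_of_nonneg ((h0 z).trans (h z))]
  exact h z

theorem Cls.inv {w : ℂ → ℝ} (hm : 1 ≤ m) (hN0 : N ≠ 0) (hN : N ≠ ⊤) (h : Cls m N w) :
    Cls m N (fun z => (w z)⁻¹) := by
  have hli : LocallyIntegrable (fun z => ((w z)⁻¹)⁻¹) volume := by
    simpa only [inv_inv] using h.li
  refine ⟨h.meas.inv, fun z => inv_pos.mpr (h.pos z), h.lii, hli, fun f => ?_⟩
  refine dual_main hm (fun z => inv_pos.mpr (h.pos z)) h.lii hli hN0 hN (fun g => ?_) f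
  simp only [inv_inv]
  exact h.bd g

theorem Cls.smul {w : ℂ → ℝ} {c : ℝ} (hc : 0 < c) (h : Cls m N w) :
    Cls m N (fun z => c * w z) := by
  refine ⟨h.meas.const_mul c, fun z => mul_pos hc (h.pos z), h.li.smul c, ?_, fun f => ?_⟩
  · have h1 : (fun z => (c * w z)⁻¹) = fun z => c⁻¹ * (w z)⁻¹ := by
      funext z
      rw [mul_inv]
    rw [h1]
    exact h.lii.smul c⁻¹
  · have e : ∀ g : ℂ → ℂ, Measurable g → ∫⁻ z, ‖g z‖ₑ ^ 2 * ENNReal.ofReal (c * w z) =
        ENNReal.ofReal c * ∫⁻ z, ‖g z‖ₑ ^ 2 * ENNReal.ofReal (w z) := by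
      intro g hg
      have hgm : Measurable fun z => ‖g z‖ₑ ^ 2 * ENNReal.ofReal (w z) :=
        (hg.enorm.pow_const 2).mul h.meas.ennreal_ofReal
      rw [← lintegral_const_mul _ hgm]
      refine lintegral_congr fun z => ?_
      rw [ENNReal.ofReal_mul hc.le]
      ring
    rw [e _ (gg_contDiff f m).continuous.measurable, e _ f.continuous.measurable, mul_left_comm]
    exact mul_le_mul_right (h.bd f) _

theorem Cls.add {u v : ℂ → ℝ} (hu : Cls m N u) (hv : Cls m N v) :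
    Cls m N (fun z => u z + v z) := by
  refine ⟨hu.meas.add hv.meas, fun z => add_pos (hu.pos z) (hv.pos z), hu.li.add hv.li, ?_,
    fun f => ?_⟩
  · refine locInt_mono hu.lii (hu.meas.add hv.meas).inv
      (fun z => (inv_pos.mpr (add_pos (hu.pos z) (hv.pos z))).le) fun z => ?_
    exact inv_anti₀ (hu.pos z) (by have := hv.pos z; linarith)
  · have e : ∀ g : ℂ → ℂ, Measurable g → ∫⁻ z, ‖g z‖ₑ ^ 2 * ENNReal.ofReal (u z + v z) =
        (∫⁻ z, ‖g z‖ₑ ^ 2 * ENNReal.ofReal (u z)) + ∫⁻ z, ‖g z‖ₑ ^ 2 * ENNReal.ofReal (v z) := by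
      intro g hg
      have hgm : Measurable fun z => ‖g z‖ₑ ^ 2 * ENNReal.ofReal (u z) :=
        (hg.enorm.pow_const 2).mul hu.meas.ennreal_ofReal
      rw [← lintegral_add_left hgm]
      refine lintegral_congr fun z => ?_
      rw [ENNReal.ofReal_add (hu.pos z).le (hv.pos z).le]
      ring
    rw [e _ (gg_contDiff f m).continuous.measurable, e _ f.continuous.measurable, mul_add]
    exact add_le_add (hu.bd f) (hv.bd f)

/-- Pointwise limits of dominated sequences. -/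
theorem Cls.lim {w : ℂ → ℝ} {u : ℕ → ℂ → ℝ} (hu : ∀ n, Cls m N (u n))
    (hlim : ∀ᵐ z, Tendsto (fun n => u n z) atTop (𝓝 (w z))) {G : ℂ → ℝ}
    (hG : ∀ n z, u n z ≤ G z) (f : SchwartzMap ℂ ℂ)
    (hGf : ∫⁻ z, ‖f z‖ₑ ^ 2 * ENNReal.ofReal (G z) ≠ ⊤) (hN : N ≠ ⊤) :
    ∫⁻ z, ‖gg f m z‖ₑ ^ 2 * ENNReal.ofReal (w z) ≤
      N * ∫⁻ z, ‖f z‖ₑ ^ 2 * ENNReal.ofReal (w z) := by
  have hm1 : ∀ (g : ℂ → ℂ), Measurable g → ∀ n,
      Measurable fun z => ‖g z‖ₑ ^ 2 * ENNReal.ofReal (u n z) :=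
    fun g hg n => (hg.enorm.pow_const 2).mul (hu n).meas.ennreal_ofReal
  have ht : ∀ (g : ℂ → ℂ), ∀ᵐ z, Tendsto (fun n => ‖g z‖ₑ ^ 2 * ENNReal.ofReal (u n z)) atTop
      (𝓝 (‖g z‖ₑ ^ 2 * ENNReal.ofReal (w z))) := by
    intro g
    filter_upwards [hlim] with z hz
    exact ENNReal.Tendsto.const_mul (ENNReal.tendsto_ofReal hz)
      (Or.inr (ENNReal.pow_ne_top enorm_ne_top))
  have h1 : ∫⁻ z, ‖gg f m z‖ₑ ^ 2 * ENNReal.ofReal (w z) =
      ∫⁻ z, liminf (fun n => ‖gg f m z‖ₑ ^ 2 * ENNReal.ofReal (u n z)) atTop := by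
    apply lintegral_congr_ae
    filter_upwards [ht (gg f m)] with z hz
    exact hz.liminf_eq.symm
  have h2 : Tendsto (fun n => ∫⁻ z, ‖f z‖ₑ ^ 2 * ENNReal.ofReal (u n z)) atTop
      (𝓝 (∫⁻ z, ‖f z‖ₑ ^ 2 * ENNReal.ofReal (w z))) := by
    refine tendsto_lintegral_of_dominated_convergence
      (fun z => ‖f z‖ₑ ^ 2 * ENNReal.ofReal (G z)) (hm1 f f.continuous.measurable)
      (fun n => ?_) hGf (ht f)
    filter_upwards with z
    exact mul_le_mul' le_rfl (ENNReal.ofReal_le_ofReal (hG n z))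
  rw [h1]
  refine (lintegral_liminf_le (hm1 _ (gg_contDiff f m).continuous.measurable)).trans ?_
  have h3 : Tendsto (fun n => N * ∫⁻ z, ‖f z‖ₑ ^ 2 * ENNReal.ofReal (u n z)) atTop
      (𝓝 (N * ∫⁻ z, ‖f z‖ₑ ^ 2 * ENNReal.ofReal (w z))) :=
    ENNReal.Tendsto.const_mul h2 (Or.inr hN)
  rw [← h3.liminf_eq]
  exact liminf_le_liminf (Eventually.of_forall fun n => (hu n).bd f)

/-- Increasing limits. -/
theorem Cls.lim_mono {w : ℂ → ℝ} {u : ℕ → ℂ → ℝ} (hu : ∀ n, Cls m N (u n))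
    (hle : ∀ n, ∀ᵐ z, u n z ≤ w z)
    (hlim : ∀ᵐ z, Tendsto (fun n => u n z) atTop (𝓝 (w z))) (f : SchwartzMap ℂ ℂ) :
    ∫⁻ z, ‖gg f m z‖ₑ ^ 2 * ENNReal.ofReal (w z) ≤
      N * ∫⁻ z, ‖f z‖ₑ ^ 2 * ENNReal.ofReal (w z) := by
  have hm1 : ∀ (g : ℂ → ℂ), Measurable g → ∀ n,
      Measurable fun z => ‖g z‖ₑ ^ 2 * ENNReal.ofReal (u n z) :=
    fun g hg n => (hg.enorm.pow_const 2).mul (hu n).meas.ennreal_ofReal
  have h1 : ∫⁻ z, ‖gg f m z‖ₑ ^ 2 * ENNReal.ofReal (w z) =
      ∫⁻ z, liminf (fun n => ‖gg f m z‖ₑ ^ 2 * ENNReal.ofReal (u n z)) atTop := by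
    apply lintegral_congr_ae
    filter_upwards [hlim] with z hz
    refine (Tendsto.liminf_eq ?_).symm
    exact ENNReal.Tendsto.const_mul (ENNReal.tendsto_ofReal hz)
      (Or.inr (ENNReal.pow_ne_top enorm_ne_top))
  rw [h1]
  refine (lintegral_liminf_le (hm1 _ (gg_contDiff f m).continuous.measurable)).trans ?_
  refine liminf_le_of_le (by isBoundedDefault) fun b hb => ?_
  obtain ⟨n, hn⟩ := hb.exists
  refine hn.trans (((hu n).bd f).trans (mul_le_mul_right (lintegral_mono_ae ?_) N))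
  filter_upwards [hle n] with z hz
  exact mul_le_mul' le_rfl (ENNReal.ofReal_le_ofReal hz)

/-! ### The arithmetic-harmonic mean iteration -/

/-- arithmetic-harmonic iteration -/
noncomputable def ahm (a b : ℝ) : ℕ → ℝ × ℝ
  | 0 => (a, b)
  | n + 1 => (2⁻¹ * ((ahm a b n).1 + (ahm a b n).2),
      (2⁻¹ * (((ahm a b n).1)⁻¹ + ((ahm a b n).2)⁻¹))⁻¹)

theorem ahm_pos {a b : ℝ} (ha : 0 < a) (hb : 0 < b) (n : ℕ) :
    0 < (ahm a b n).1 ∧ 0 < (ahm a b n).2 := by
  induction n with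
  | zero => exact ⟨ha, hb⟩
  | succ n ih =>
    obtain ⟨h1, h2⟩ := ih
    simp only [ahm]
    constructor
    · positivity
    · positivity

theorem ahm_mul {a b : ℝ} (ha : 0 < a) (hb : 0 < b) (n : ℕ) :
    (ahm a b n).1 * (ahm a b n).2 = a * b := by
  induction n with
  | zero => rfl
  | succ n ih =>
    obtain ⟨h1, h2⟩ := ahm_pos ha hb n
    rw [← ih]
    simp only [ahm]
    field_simp
    ring

theorem ahm_diff {a b : ℝ} (ha : 0 < a) (hb : 0 < b) (n : ℕ) :
    0 ≤ (ahm a b (n + 1)).1 - (ahm a b (n + 1)).2 ∧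
      (ahm a b (n + 1)).1 - (ahm a b (n + 1)).2 ≤ 2⁻¹ * |(ahm a b n).1 - (ahm a b n).2| := by
  obtain ⟨h1, h2⟩ := ahm_pos ha hb n
  set x := (ahm a b n).1 with hx
  set y := (ahm a b n).2 with hy
  have e : (ahm a b (n + 1)).1 - (ahm a b (n + 1)).2 = (x - y) ^ 2 / (2 * (x + y)) := by
    simp only [ahm]
    rw [← hx, ← hy]
    field_simp
    ring
  rw [e]
  refine ⟨by positivity, ?_⟩
  rw [div_le_iff₀ (by positivity), ← sq_abs]
  have h3 : |x - y| ≤ x + y := by
    rw [abs_le]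
    constructor <;> linarith
  nlinarith [abs_nonneg (x - y)]

theorem ahm_diff_pow {a b : ℝ} (ha : 0 < a) (hb : 0 < b) (n : ℕ) :
    |(ahm a b n).1 - (ahm a b n).2| ≤ 2⁻¹ ^ n * |a - b| := by
  induction n with
  | zero => simp [ahm]
  | succ n ih =>
    obtain ⟨h1, h2⟩ := ahm_diff ha hb n
    rw [abs_of_nonneg h1, pow_succ]
    calc _ ≤ 2⁻¹ * |(ahm a b n).1 - (ahm a b n).2| := h2
      _ ≤ 2⁻¹ * (2⁻¹ ^ n * |a - b|) := mul_le_mul_of_nonneg_left ih (by norm_num)
      _ = _ := by ring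

theorem ahm_le {a b : ℝ} (ha : 0 < a) (hb : 0 < b) (n : ℕ) :
    (ahm a b (n + 1)).2 ≤ √(a * b) := by
  obtain ⟨h1, h2⟩ := ahm_pos ha hb (n + 1)
  obtain ⟨h3, -⟩ := ahm_diff ha hb n
  apply Real.le_sqrt_of_sq_le
  rw [← ahm_mul ha hb (n + 1), sq]
  exact mul_le_mul_of_nonneg_right (by linarith) h2.le

theorem ahm_tendsto {a b : ℝ} (ha : 0 < a) (hb : 0 < b) :
    Tendsto (fun n => (ahm a b (n + 1)).2) atTop (𝓝 √(a * b)) := by
  have h1 : ∀ n, √(a * b) - 2⁻¹ ^ (n + 1) * |a - b| ≤ (ahm a b (n + 1)).2 := by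
    intro n
    obtain ⟨h1, h2⟩ := ahm_pos ha hb (n + 1)
    obtain ⟨h3, -⟩ := ahm_diff ha hb n
    have h4 := ahm_diff_pow ha hb (n + 1)
    rw [abs_of_nonneg h3] at h4
    have h5 : √(a * b) ≤ (ahm a b (n + 1)).1 := by
      rw [← ahm_mul ha hb (n + 1)]
      apply Real.sqrt_le_iff.mpr
      refine ⟨h1.le, ?_⟩
      rw [sq]
      exact mul_le_mul_of_nonneg_left (by linarith) h1.le
    linarith
  refine tendsto_of_tendsto_of_tendsto_of_le_of_le ?_ tendsto_const_nhds h1
    (fun n => ahm_le ha hb n)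
  have h2 : Tendsto (fun n : ℕ => (2⁻¹ : ℝ) ^ (n + 1)) atTop (𝓝 0) :=
    (tendsto_pow_atTop_nhds_zero_of_lt_one (by norm_num) (by norm_num)).comp (tendsto_add_atTop_nat 1)
  have h3 := (h2.mul_const |a - b|).const_sub √(a * b)
  simpa using h3

/-- Geometric means. -/
theorem Cls.geom {u v : ℂ → ℝ} (hm : 1 ≤ m) (hN0 : N ≠ 0) (hN : N ≠ ⊤) (hu : Cls m N u)
    (hv : Cls m N v) : Cls m N (fun z => √(u z * v z)) := by
  have hcls : ∀ n, Cls m N (fun z => (ahm (u z) (v z) n).1) ∧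
      Cls m N (fun z => (ahm (u z) (v z) n).2) := by
    intro n
    induction n with
    | zero => exact ⟨hu, hv⟩
    | succ n ih =>
      obtain ⟨h1, h2⟩ := ih
      refine ⟨(h1.add h2).smul (by norm_num), ?_⟩
      exact (((h1.inv hm hN0 hN).add (h2.inv hm hN0 hN)).smul (by norm_num : (0 : ℝ) < 2⁻¹)).inv hm
        hN0 hN
  have hmeas : Measurable fun z => √(u z * v z) := (hu.meas.mul hv.meas).sqrt
  have hle : ∀ {x y : ℝ}, 0 < x → 0 < y → √(x * y) ≤ x + y := by
    intro x y hx hy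
    apply Real.sqrt_le_iff.mpr
    constructor
    · positivity
    · nlinarith [mul_pos hx hy]
  refine ⟨hmeas, fun z => Real.sqrt_pos.mpr (mul_pos (hu.pos z) (hv.pos z)), ?_, ?_, fun f => ?_⟩
  · exact locInt_mono (hu.li.add hv.li) hmeas (fun z => Real.sqrt_nonneg _)
      fun z => hle (hu.pos z) (hv.pos z)
  · refine locInt_mono (hu.lii.add hv.lii) hmeas.inv (fun z => inv_nonneg.mpr (Real.sqrt_nonneg _))
      fun z => ?_
    rw [← Real.sqrt_inv, mul_inv]
    exact hle (inv_pos.mpr (hu.pos z)) (inv_pos.mpr (hv.pos z))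
  · refine Cls.lim_mono (u := fun n z => (ahm (u z) (v z) (n + 1)).2) (fun n => (hcls (n + 1)).2)
      (fun n => ?_) ?_ f
    · filter_upwards with z
      exact ahm_le (hu.pos z) (hv.pos z) n
    · filter_upwards with z
      exact ahm_tendsto (hu.pos z) (hv.pos z)

/-- Geometric means of `2 ^ k` weights. -/
theorem Cls.geom_pow (hm : 1 ≤ m) (hN0 : N ≠ 0) (hN : N ≠ ⊤) (k : ℕ) (h : ℕ → ℂ → ℝ)
    (hh : ∀ i, Cls m N (h i)) :
    Cls m N (fun z => Real.exp ((∑ i ∈ Finset.range (2 ^ k), Real.log (h i z)) / (2 ^ k : ℕ))) := by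
  induction k generalizing h with
  | zero =>
    have e : (fun z => Real.exp ((∑ i ∈ Finset.range (2 ^ 0), Real.log (h i z)) / (2 ^ 0 : ℕ))) =
        h 0 := by
      funext z
      simp [Real.exp_log ((hh 0).pos z)]
    rw [e]
    exact hh 0
  | succ k ih =>
    have h1 := ih h hh
    have h2 := ih (fun i => h (2 ^ k + i)) (fun i => hh _)
    have h3 := h1.geom hm hN0 hN h2
    have e : (fun z => Real.exp ((∑ i ∈ Finset.range (2 ^ (k + 1)), Real.log (h i z)) /
        (2 ^ (k + 1) : ℕ))) = fun z =>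
        √(Real.exp ((∑ i ∈ Finset.range (2 ^ k), Real.log (h i z)) / (2 ^ k : ℕ)) *
          Real.exp ((∑ i ∈ Finset.range (2 ^ k), Real.log (h (2 ^ k + i) z)) / (2 ^ k : ℕ))) := by
      funext z
      rw [← Real.exp_add, ← Real.exp_half]
      congr 1
      have e1 : 2 ^ (k + 1) = 2 ^ k + 2 ^ k := by rw [pow_succ]; ring
      rw [e1, Finset.sum_range_add]
      push_cast
      field_simp
      ring
    rw [e]
    exact h3

end Pool.Agent.Lib.MP_f0c028_an
end

section

set_option autoImplicit false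

/-! # Continuous geometric means (through the strong law of large numbers) -/

open Real

namespace Pool.Agent.Lib.MP_f0c028_an

open MeasureTheory Set Filter Topology ProbabilityTheory
open scoped ENNReal

variable {Ω : Type} [MeasurableSpace Ω] {P : Measure Ω} [IsProbabilityMeasure P]

/-- The strong law of large numbers for the coordinates of the infinite product. -/
theorem slln {Y : Ω → ℝ} (hY : Measurable Y) (hi : Integrable Y P) :
    ∀ᵐ ω ∂(Measure.infinitePi fun _ : ℕ => P),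
      Tendsto (fun n : ℕ => (∑ i ∈ Finset.range n, Y (ω i)) / n) atTop (𝓝 (∫ x, Y x ∂P)) := by
  set Q := Measure.infinitePi fun _ : ℕ => P with hQ
  have hmp : ∀ i : ℕ, MeasurePreserving (Function.eval i) Q P := fun i =>
    measurePreserving_eval_infinitePi (fun _ : ℕ => P) i
  have hind : iIndepFun (fun (i : ℕ) (ω : ℕ → Ω) => Y (ω i)) Q :=
    iIndepFun_infinitePi (P := fun _ : ℕ => P) (X := fun _ => Y) fun _ => hY
  have h := strong_law_ae_real (μ := Q) (fun (i : ℕ) (ω : ℕ → Ω) => Y (ω i))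
    ((hmp 0).integrable_comp_of_integrable hi) (fun i j hij => hind.indepFun hij) (fun i => by
      refine ⟨(hY.comp (measurable_pi_apply i)).aemeasurable,
        (hY.comp (measurable_pi_apply 0)).aemeasurable, ?_⟩
      have e : ∀ k : ℕ, Measure.map (fun ω : ℕ → Ω => Y (ω k)) Q = Measure.map Y P := by
        intro k
        rw [← (hmp k).map_eq, Measure.map_map hY (hmp k).measurable]
        rfl
      rw [e, e])
  have e2 : ∫ ω, Y (ω 0) ∂Q = ∫ x, Y x ∂P := by
    rw [← (hmp 0).map_eq, integral_map (hmp 0).measurable.aemeasurable hY.aestronglyMeasurable]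
  rw [e2] at h
  exact h

/-- A weight dominated by a polynomial is integrable against `|f|²`. -/
theorem schwartz_poly (f : SchwartzMap ℂ ℂ) (c : ℝ) (j : ℕ) :
    ∫⁻ z, ‖f z‖ₑ ^ 2 * ENNReal.ofReal (c * (1 + ‖z‖) ^ j) ≠ ⊤ := by
  -- `(1 + ‖z‖)^(j+3) ‖f z‖ ≤ D`
  obtain ⟨D, hD⟩ : ∃ D : ℝ, ∀ z : ℂ, (1 + ‖z‖) ^ (j + 3) * ‖f z‖ ≤ D := by
    have h := f.one_add_le_sup_seminorm_apply (𝕜 := ℝ) (m := (j + 3, 0)) (k := j + 3) (n := 0)
      le_rfl le_rfl
    refine ⟨2 ^ (j + 3) * ((Finset.Iic (j + 3, 0)).sup fun m => SchwartzMap.seminorm ℝ m.1 m.2) f,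
      fun z => ?_⟩
    have h2 := h z
    rw [norm_iteratedFDeriv_zero] at h2
    exact h2
  obtain ⟨D', hD'⟩ : ∃ D' : ℝ, ∀ z : ℂ, ‖f z‖ ≤ D' := by
    refine ⟨D, fun z => le_trans ?_ (hD z)⟩
    have h1 : (1 : ℝ) ≤ (1 + ‖z‖) ^ (j + 3) := one_le_pow₀ (by linarith [norm_nonneg z])
    have := mul_le_mul_of_nonneg_right h1 (norm_nonneg (f z))
    linarith
  have hD0 : 0 ≤ D := le_trans (by positivity) (hD 0)
  have hD'0 : 0 ≤ D' := (norm_nonneg _).trans (hD' 0)
  have hint : Integrable (fun z : ℂ => |c| * (D * D') * (1 + ‖z‖) ^ (-(3 : ℝ))) := by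
    refine (integrable_one_add_norm ?_).const_mul _
    rw [Complex.finrank_real_complex]
    norm_num
  refine ne_top_of_le_ne_top (b := ∫⁻ z : ℂ, ENNReal.ofReal
    (|c| * (D * D') * (1 + ‖z‖) ^ (-(3 : ℝ)))) ?_ (lintegral_mono fun z => ?_)
  · exact hint.lintegral_lt_top.ne
  · have h1 : ‖f z‖ₑ ^ 2 = ENNReal.ofReal (‖f z‖ ^ 2) := by
      rw [ENNReal.ofReal_pow (norm_nonneg _), ofReal_norm]
    simp only
    rw [h1, ← ENNReal.ofReal_mul (by positivity)]
    apply ENNReal.ofReal_le_ofReal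
    have hz : (0 : ℝ) < 1 + ‖z‖ := by positivity
    have e1 : (1 + ‖z‖) ^ (-(3 : ℝ)) = ((1 + ‖z‖) ^ 3)⁻¹ := by
      rw [Real.rpow_neg hz.le]
      norm_cast
    rw [e1, ← div_eq_mul_inv, le_div_iff₀ (by positivity)]
    calc ‖f z‖ ^ 2 * (c * (1 + ‖z‖) ^ j) * (1 + ‖z‖) ^ 3 =
        c * (((1 + ‖z‖) ^ (j + 3) * ‖f z‖) * ‖f z‖) := by ring
      _ ≤ |c| * (((1 + ‖z‖) ^ (j + 3) * ‖f z‖) * ‖f z‖) :=
          mul_le_mul_of_nonneg_right (le_abs_self c) (by positivity)
      _ ≤ |c| * (D * D') := by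
          apply mul_le_mul_of_nonneg_left _ (abs_nonneg c)
          exact mul_le_mul (hD z) (hD' z) (norm_nonneg _) hD0

variable {m : ℕ} {N : ℝ≥0∞}

/-- Continuous geometric means. -/
theorem gm_main (hm : 1 ≤ m) (hN0 : N ≠ 0) (hN : N ≠ ⊤) {g : Ω → ℂ → ℝ}
    (hgm : Measurable fun q : Ω × ℂ => g q.1 q.2) (hg : ∀ ω, Cls m N (g ω)) {A : Ω → ℝ}
    (hAm : Measurable A) (hA : Integrable A P) {j : ℕ}
    (hle : ∀ ω z, Real.log (g ω z) ≤ A ω + j * Real.log (1 + ‖z‖))
    (hint : ∀ᵐ z : ℂ, Integrable (fun ω => Real.log (g ω z)) P) (f : SchwartzMap ℂ ℂ) :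
    ∫⁻ z, ‖gg f m z‖ₑ ^ 2 * ENNReal.ofReal (Real.exp (∫ ω, Real.log (g ω z) ∂P)) ≤
      N * ∫⁻ z, ‖f z‖ₑ ^ 2 * ENNReal.ofReal (Real.exp (∫ ω, Real.log (g ω z) ∂P)) := by
  set Q := Measure.infinitePi fun _ : ℕ => P with hQ
  set L : ℂ → ℝ := fun z => ∫ ω, Real.log (g ω z) ∂P with hL
  have hlog : Measurable fun q : ℂ × Ω => Real.log (g q.2 q.1) :=
    Real.measurable_log.comp (hgm.comp measurable_swap)
  have hLm : Measurable L := hlog.stronglyMeasurable.integral_prod_right.measurable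
  -- almost every sequence is good for almost every `z`
  have h1 : ∀ᵐ z : ℂ, ∀ᵐ ω ∂Q,
      Tendsto (fun n : ℕ => (∑ i ∈ Finset.range n, Real.log (g (ω i) z)) / n) atTop
        (𝓝 (L z)) := by
    filter_upwards [hint] with z hz
    exact slln (hlog.comp measurable_prodMk_left) hz
  have hS : MeasurableSet {q : ℂ × (ℕ → Ω) |
      Tendsto (fun n : ℕ => (∑ i ∈ Finset.range n, Real.log (g (q.2 i) q.1)) / n) atTop
        (𝓝 (L q.1))} := by
    refine measurableSet_tendsto_fun (fun n => ?_) (hLm.comp measurable_fst)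
    refine Measurable.div_const (Finset.measurable_sum _ fun i _ => ?_) _
    exact hlog.comp (measurable_fst.prodMk ((measurable_pi_apply i).comp measurable_snd))
  have h2 : ∀ᵐ ω ∂Q, ∀ᵐ z : ℂ,
      Tendsto (fun n : ℕ => (∑ i ∈ Finset.range n, Real.log (g (ω i) z)) / n) atTop
        (𝓝 (L z)) := (Measure.ae_ae_comm hS).mp h1
  obtain ⟨ω, hω1, hω2⟩ := (h2.and (slln hAm hA)).exists
  -- bounded averages of `A`
  obtain ⟨B, hB⟩ := hω2.bddAbove_range
  have hB' : ∀ n : ℕ, (∑ i ∈ Finset.range n, A (ω i)) / n ≤ B := fun n => hB ⟨n, rfl⟩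
  have h2k : Tendsto (fun k : ℕ => 2 ^ k) atTop atTop :=
    tendsto_pow_atTop_atTop_of_one_lt (by norm_num)
  refine Cls.lim (u := fun k z => Real.exp
    ((∑ i ∈ Finset.range (2 ^ k), Real.log (g (ω i) z)) / (2 ^ k : ℕ)))
    (fun k => Cls.geom_pow hm hN0 hN k (fun i => g (ω i)) fun i => hg _) ?_
    (G := fun z => Real.exp B * (1 + ‖z‖) ^ j) ?_ f (schwartz_poly f _ _) hN
  · filter_upwards [hω1] with z hz
    exact (Real.continuous_exp.tendsto _).comp (hz.comp h2k)
  · intro k z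
    have hz : (0 : ℝ) < 1 + ‖z‖ := by positivity
    have e1 : Real.exp B * (1 + ‖z‖) ^ j = Real.exp (B + j * Real.log (1 + ‖z‖)) := by
      rw [Real.exp_add, ← Real.log_pow, Real.exp_log (by positivity)]
    rw [e1, Real.exp_le_exp]
    have hpos : (0 : ℝ) < ((2 ^ k : ℕ) : ℝ) := by positivity
    calc (∑ i ∈ Finset.range (2 ^ k), Real.log (g (ω i) z)) / (2 ^ k : ℕ) ≤
        (∑ i ∈ Finset.range (2 ^ k), (A (ω i) + j * Real.log (1 + ‖z‖))) / (2 ^ k : ℕ) := by
          apply div_le_div_of_nonneg_right _ hpos.le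
          exact Finset.sum_le_sum fun i _ => hle _ _
      _ = (∑ i ∈ Finset.range (2 ^ k), A (ω i)) / (2 ^ k : ℕ) + j * Real.log (1 + ‖z‖) := by
          rw [Finset.sum_add_distrib, Finset.sum_const, Finset.card_range, nsmul_eq_mul, add_div,
            mul_div_cancel_left₀ _ hpos.ne']
      _ ≤ B + j * Real.log (1 + ‖z‖) := by
          have := hB' (2 ^ k)
          linarith

end Pool.Agent.Lib.MP_f0c028_an
end

section

set_option autoImplicit false

/-! # Logarithmic potentials: integrability and the bound -/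

open Real

namespace Pool.Agent.Lib.MP_f0c028_an

open MeasureTheory Set Filter Topology ProbabilityTheory
open scoped ENNReal

/-- The integral of the kernel `1 / ‖z - a‖` over a disc. -/
theorem ker_ball (a : ℂ) {R : ℝ} (hR : 0 < R) :
    ∫⁻ z in Metric.ball (0 : ℂ) R, ENNReal.ofReal ‖z - a‖⁻¹ ≤ ENNReal.ofReal (3 * π * R) := by
  have h1 : ∀ z ∈ Metric.ball (0 : ℂ) R, ENNReal.ofReal ‖z - a‖⁻¹ ≤
      (Metric.ball a R).indicator (fun z => ENNReal.ofReal ‖z - a‖⁻¹) z +
        ENNReal.ofReal R⁻¹ := by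
    intro z _
    by_cases hz : z ∈ Metric.ball a R
    · rw [indicator_of_mem hz]
      exact le_self_add
    · rw [indicator_of_notMem hz, zero_add]
      apply ENNReal.ofReal_le_ofReal
      rw [Metric.mem_ball, dist_eq_norm, not_lt] at hz
      exact inv_anti₀ hR hz
  have hker : Measurable fun z : ℂ => ENNReal.ofReal ‖z - a‖⁻¹ := by fun_prop
  have h2 : ∫⁻ z in Metric.ball a R, ENNReal.ofReal ‖z - a‖⁻¹ = ENNReal.ofReal (2 * π * R) := by
    have h3 := lint_pw_ball a (β := -1) (by norm_num) hR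
    have h4 : ∫⁻ z in Metric.ball a R, ENNReal.ofReal (pw a (-1) z) =
        ∫⁻ z in Metric.ball a R, ENNReal.ofReal ‖z - a‖⁻¹ := by
      apply lintegral_congr_ae
      filter_upwards [ae_restrict_of_ae (pw_ae a (-1))] with z hz
      rw [hz, Real.rpow_neg_one]
    rw [← h4, h3]
    congr 1
    norm_num
  calc ∫⁻ z in Metric.ball (0 : ℂ) R, ENNReal.ofReal ‖z - a‖⁻¹ ≤
      ∫⁻ z in Metric.ball (0 : ℂ) R,
        ((Metric.ball a R).indicator (fun z => ENNReal.ofReal ‖z - a‖⁻¹) z +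
        ENNReal.ofReal R⁻¹) := setLIntegral_mono' measurableSet_ball h1
    _ = (∫⁻ z in Metric.ball (0 : ℂ) R,
        (Metric.ball a R).indicator (fun z => ENNReal.ofReal ‖z - a‖⁻¹) z) +
        ∫⁻ _z in Metric.ball (0 : ℂ) R, ENNReal.ofReal R⁻¹ :=
        lintegral_add_right _ measurable_const
    _ ≤ ENNReal.ofReal (2 * π * R) + ENNReal.ofReal (π * R) := by
        refine add_le_add ?_ ?_
        · rw [← h2]
          exact (setLIntegral_le_lintegral _ _).trans
            (le_of_eq (lintegral_indicator measurableSet_ball _))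
        · rw [setLIntegral_const, Complex.volume_ball]
          refine le_of_eq ?_
          have e : (ENNReal.ofReal R ^ 2 * ((NNReal.pi : NNReal) : ℝ≥0∞)) =
              ENNReal.ofReal (R ^ 2 * π) := by
            rw [ENNReal.ofReal_mul (by positivity), ENNReal.ofReal_pow hR.le]
            congr 1
            rw [← NNReal.coe_real_pi, ENNReal.ofReal_coe_nnreal]
          rw [e, ← ENNReal.ofReal_mul (by positivity)]
          congr 1
          field_simp
    _ = ENNReal.ofReal (3 * π * R) := by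
        rw [← ENNReal.ofReal_add (by positivity) (by positivity)]
        congr 1
        ring

/-- Tonelli for the kernel. -/
theorem ker_swap {ν : Measure ℂ} [IsFiniteMeasure ν] {R : ℝ} (hR : 0 < R) :
    ∫⁻ z in Metric.ball (0 : ℂ) R, ∫⁻ a, ENNReal.ofReal ‖z - a‖⁻¹ ∂ν ≤
      ENNReal.ofReal (3 * π * R) * ν univ := by
  rw [lintegral_lintegral_swap]
  · calc _ ≤ ∫⁻ _a, ENNReal.ofReal (3 * π * R) ∂ν := lintegral_mono fun a => ker_ball a hR
      _ = _ := by rw [lintegral_const]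
  · have : Measurable fun q : ℂ × ℂ => ENNReal.ofReal ‖q.1 - q.2‖⁻¹ := by fun_prop
    exact this.aemeasurable

theorem ker_ae {ν : Measure ℂ} [IsFiniteMeasure ν] :
    ∀ᵐ z : ℂ, ∫⁻ a, ENNReal.ofReal ‖z - a‖⁻¹ ∂ν < ⊤ := by
  have h1 : ∀ n : ℕ, ∀ᵐ z : ℂ, z ∈ Metric.ball (0 : ℂ) (n + 1) →
      ∫⁻ a, ENNReal.ofReal ‖z - a‖⁻¹ ∂ν < ⊤ := by
    intro n
    rw [← ae_restrict_iff' measurableSet_ball]
    have hm : Measurable fun q : ℂ × ℂ => ENNReal.ofReal ‖q.1 - q.2‖⁻¹ := by fun_prop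
    refine ae_lt_top hm.lintegral_prod_right ?_
    refine ne_top_of_le_ne_top ?_ (ker_swap (ν := ν) (by positivity : (0 : ℝ) < n + 1))
    exact ENNReal.mul_ne_top ENNReal.ofReal_ne_top (measure_ne_top _ _)
  filter_upwards [ae_all_iff.mpr h1] with z hz
  obtain ⟨n, hn⟩ := exists_nat_gt ‖z‖
  refine hz n ?_
  rw [Metric.mem_ball, dist_zero_right]
  linarith

theorem abs_log_le (z a : ℂ) :
    |Real.log ‖z - a‖| ≤ Real.log (1 + ‖z‖) + Real.log (1 + ‖a‖) + ‖z - a‖⁻¹ := by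
  have hz : 0 ≤ Real.log (1 + ‖z‖) := Real.log_nonneg (by linarith [norm_nonneg z])
  have ha : 0 ≤ Real.log (1 + ‖a‖) := Real.log_nonneg (by linarith [norm_nonneg a])
  have hi : 0 ≤ ‖z - a‖⁻¹ := inv_nonneg.mpr (norm_nonneg _)
  rcases (norm_nonneg (z - a)).eq_or_lt with h0 | h0
  · rw [← h0, Real.log_zero, abs_zero]
    linarith
  · rcases le_total 1 ‖z - a‖ with h1 | h1
    · rw [abs_of_nonneg (Real.log_nonneg h1)]
      have h2 : ‖z - a‖ ≤ (1 + ‖z‖) * (1 + ‖a‖) := by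
        have := norm_sub_le z a
        nlinarith [norm_nonneg z, norm_nonneg a]
      have h3 := Real.log_le_log h0 h2
      rw [Real.log_mul (by positivity) (by positivity)] at h3
      linarith
    · rw [abs_of_nonpos (Real.log_nonpos h0.le h1), ← Real.log_inv]
      have h3 := Real.log_le_sub_one_of_pos (inv_pos.mpr h0)
      linarith

/-- The logarithm is integrable at almost every point. -/
theorem logint_ae {ν : Measure ℂ} [IsFiniteMeasure ν]
    (hν : Integrable (fun a => Real.log (1 + ‖a‖)) ν) :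
    ∀ᵐ z : ℂ, Integrable (fun a => Real.log ‖z - a‖) ν := by
  filter_upwards [ker_ae (ν := ν)] with z hz
  have hki : Integrable (fun a => ‖z - a‖⁻¹) ν := by
    refine ⟨by fun_prop, ?_⟩
    rw [hasFiniteIntegral_iff_ofReal (by
      filter_upwards with a
      exact inv_nonneg.mpr (norm_nonneg _))]
    exact hz
  refine Integrable.mono' (((integrable_const (Real.log (1 + ‖z‖))).add hν).add hki)
    (Real.measurable_log.comp (measurable_norm.comp
      (measurable_const.sub measurable_id))).aestronglyMeasurable ?_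
  filter_upwards with a
  exact abs_log_le z a

theorem log_pw (a : ℂ) (s : ℝ) (z : ℂ) : Real.log (pw a s z) = s * Real.log ‖z - a‖ := by
  unfold pw
  split_ifs with h
  · rw [h, sub_self, norm_zero, Real.log_zero, Real.log_one, mul_zero]
  · rw [Real.log_rpow (norm_pos_iff.mpr (sub_ne_zero.mpr h))]

/-- `|log (x + δ)| ≤ 1 + |log x|` -/
theorem abs_log_add_le {x δ : ℝ} (hx : 0 < x) (h0 : 0 ≤ δ) (h1 : δ ≤ 1) :
    |Real.log (x + δ)| ≤ 1 + |Real.log x| := by
  have hl : Real.log x ≤ Real.log (x + δ) := Real.log_le_log hx (by linarith)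
  have hu : Real.log (x + δ) ≤ 1 + |Real.log x| := by
    rcases le_total x 1 with h | h
    · have h2 : Real.log (x + δ) ≤ x + δ - 1 := Real.log_le_sub_one_of_pos (by linarith)
      have := abs_nonneg (Real.log x)
      linarith
    · have h2 : Real.log (x + δ) ≤ Real.log (2 * x) := Real.log_le_log (by linarith) (by linarith)
      rw [Real.log_mul (by norm_num) hx.ne'] at h2
      have h3 : Real.log 2 ≤ 1 := by
        have := Real.log_two_lt_d9
        linarith
      have := le_abs_self (Real.log x)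
      linarith
  rw [abs_le]
  refine ⟨?_, hu⟩
  have := neg_abs_le (Real.log x)
  linarith

variable {m : ℕ} {N : ℝ≥0∞}

theorem Cls.mono {N' : ℝ≥0∞} (h : N ≤ N') {w : ℂ → ℝ} (hw : Cls m N w) : Cls m N' w :=
  ⟨hw.meas, hw.pos, hw.li, hw.lii, fun f => (hw.bd f).trans (mul_le_mul' h le_rfl)⟩

/-- power weights -/
theorem cls_pw (hm : 1 ≤ m) (a : ℂ) {β s : ℝ} (hβ : |β| ≤ s) (hs : s < 2) :
    Cls m (ENNReal.ofReal ((200000 * m * (162 / (2 - s))) ^ 2)) (pw a β) := by
  have hβ2 : |β| < 2 := by linarith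
  have hβ' := abs_lt.mp hβ2
  refine ⟨pw_meas a β, pw_pos a β, pw_locInt a hβ'.1, ?_, fun f => ?_⟩
  · simp_rw [pw_inv]
    exact pw_locInt a (by linarith)
  · refine (pw_bound hm a hβ2 f).trans (mul_le_mul' (ENNReal.ofReal_le_ofReal ?_) le_rfl)
    have h1 : 0 < 2 - |β| := by linarith
    have h2 : 0 < 2 - s := by linarith
    refine pow_le_pow_left₀ (by positivity) ?_ 2
    apply mul_le_mul_of_nonneg_left _ (by positivity)
    exact div_le_div_of_nonneg_left (by norm_num) h2 (by linarith)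

/-- Increasing limits, without the class. -/
theorem lim_mono' {w : ℂ → ℝ} {u : ℕ → ℂ → ℝ} (hum : ∀ n, Measurable (u n)) (f : SchwartzMap ℂ ℂ)
    (hu : ∀ n, ∫⁻ z, ‖gg f m z‖ₑ ^ 2 * ENNReal.ofReal (u n z) ≤
      N * ∫⁻ z, ‖f z‖ₑ ^ 2 * ENNReal.ofReal (u n z))
    (hle : ∀ n, ∀ᵐ z, u n z ≤ w z)
    (hlim : ∀ᵐ z, Tendsto (fun n => u n z) atTop (𝓝 (w z))) :
    ∫⁻ z, ‖gg f m z‖ₑ ^ 2 * ENNReal.ofReal (w z) ≤
      N * ∫⁻ z, ‖f z‖ₑ ^ 2 * ENNReal.ofReal (w z) := by
  have hm1 : ∀ (g : ℂ → ℂ), Measurable g → ∀ n,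
      Measurable fun z => ‖g z‖ₑ ^ 2 * ENNReal.ofReal (u n z) :=
    fun g hg n => (hg.enorm.pow_const 2).mul (hum n).ennreal_ofReal
  have h1 : ∫⁻ z, ‖gg f m z‖ₑ ^ 2 * ENNReal.ofReal (w z) =
      ∫⁻ z, liminf (fun n => ‖gg f m z‖ₑ ^ 2 * ENNReal.ofReal (u n z)) atTop := by
    apply lintegral_congr_ae
    filter_upwards [hlim] with z hz
    refine (Tendsto.liminf_eq ?_).symm
    exact ENNReal.Tendsto.const_mul (ENNReal.tendsto_ofReal hz)
      (Or.inr (ENNReal.pow_ne_top enorm_ne_top))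
  rw [h1]
  refine (lintegral_liminf_le (hm1 _ (gg_contDiff f m).continuous.measurable)).trans ?_
  refine liminf_le_of_le (by isBoundedDefault) fun b hb => ?_
  obtain ⟨n, hn⟩ := hb.exists
  refine hn.trans ((hu n).trans (mul_le_mul_right (lintegral_mono_ae ?_) N))
  filter_upwards [hle n] with z hz
  exact mul_le_mul' le_rfl (ENNReal.ofReal_le_ofReal hz)

end Pool.Agent.Lib.MP_f0c028_an
end

section

set_option autoImplicit false

/-! # The mass of the measure of an `A₂` weight which is the exponential of a logarithmic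
potential -/

open Real

namespace Pool.Agent.Lib.MP_f0c028_an

open MeasureTheory Set Filter Topology
open scoped ENNReal

theorem ne_ae {ν : Measure ℂ} [IsFiniteMeasure ν] : ∀ᵐ z : ℂ, ∀ᵐ a ∂ν, z ≠ a := by
  have hS : MeasurableSet {q : ℂ × ℂ | q.1 ≠ q.2} := measurableSet_diagonal.compl
  have h1 : ∀ᵐ a ∂ν, ∀ᵐ z : ℂ, z ≠ a := by
    filter_upwards with a
    rw [ae_iff]
    simp
  exact (Measure.ae_ae_comm (μ := volume) (ν := ν) (p := fun z a => z ≠ a) hS).mpr h1

/-- Lower bound of the integral over a disc. -/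
theorem pot_ball {w : ℂ → ℝ} (hpos : ∀ z, 0 < w z) (hw : LocallyIntegrable w volume)
    {ν : Measure ℂ} [IsFiniteMeasure ν] (hν : Integrable (fun a => Real.log (1 + ‖a‖)) ν) {c : ℝ}
    (hlog : ∀ᵐ z, Real.log (w z) = c + ∫ a, Real.log ‖z - a‖ ∂ν) {R : ℝ} (hR : 0 < R) :
    Real.exp (c + (ν univ).toReal * Real.log R - 3 * (ν univ).toReal) * (π * R ^ 2) ≤
      ∫ z in Metric.ball (0 : ℂ) R, w z := by
  set s := (ν univ).toReal with hs
  have hs0 : 0 ≤ s := ENNReal.toReal_nonneg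
  set M := Real.exp (c + s * Real.log R - 3 * s) with hM
  have hM0 : 0 < M := Real.exp_pos _
  have hpt : ∀ᵐ z : ℂ, ENNReal.ofReal (M * (1 + 3 * s)) ≤ ENNReal.ofReal (w z) +
      ENNReal.ofReal (M * R) * ∫⁻ a, ENNReal.ofReal ‖z - a‖⁻¹ ∂ν := by
    filter_upwards [hlog, ker_ae (ν := ν), logint_ae hν, ne_ae (ν := ν)] with z h1 h2 h3 h4
    have hki : Integrable (fun a => ‖z - a‖⁻¹) ν := by
      refine ⟨by fun_prop, ?_⟩
      rw [hasFiniteIntegral_iff_ofReal (by
        filter_upwards with a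
        exact inv_nonneg.mpr (norm_nonneg _))]
      exact h2
    set I := ∫ a, ‖z - a‖⁻¹ ∂ν with hI
    have hI0 : 0 ≤ I := integral_nonneg fun a => inv_nonneg.mpr (norm_nonneg _)
    have hIe : ∫⁻ a, ENNReal.ofReal ‖z - a‖⁻¹ ∂ν = ENNReal.ofReal I := by
      rw [hI, ofReal_integral_eq_lintegral_ofReal hki]
      filter_upwards with a
      exact inv_nonneg.mpr (norm_nonneg _)
    have h5 : s * Real.log R - R * I ≤ ∫ a, Real.log ‖z - a‖ ∂ν := by
      have h6 : ∫ a, (Real.log R - R * ‖z - a‖⁻¹) ∂ν = s * Real.log R - R * I := by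
        rw [integral_sub (integrable_const _) (hki.const_mul R), integral_const,
          integral_const_mul, smul_eq_mul, Measure.real]
      rw [← h6]
      apply integral_mono_ae ((integrable_const _).sub (hki.const_mul R)) h3
      filter_upwards [h4] with a ha
      have hza : 0 < ‖z - a‖ := norm_pos_iff.mpr (sub_ne_zero.mpr ha)
      have h7 := Real.log_le_sub_one_of_pos (div_pos hR hza)
      rw [Real.log_div hR.ne' hza.ne', div_eq_mul_inv] at h7
      change Real.log R - R * ‖z - a‖⁻¹ ≤ Real.log ‖z - a‖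
      linarith
    have h8 : M * (1 + 3 * s) ≤ w z + M * R * I := by
      have h9 := Real.add_one_le_exp (Real.log (w z) - (c + s * Real.log R - 3 * s))
      have h10 : w z = M * Real.exp (Real.log (w z) - (c + s * Real.log R - 3 * s)) := by
        rw [hM, ← Real.exp_add, add_sub_cancel, Real.exp_log (hpos z)]
      have h11 : M * (Real.log (w z) - (c + s * Real.log R - 3 * s) + 1) ≤ w z := by
        conv_rhs => rw [h10]
        exact mul_le_mul_of_nonneg_left h9 hM0.le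
      have h12 : 1 + 3 * s - R * I ≤ Real.log (w z) - (c + s * Real.log R - 3 * s) + 1 := by
        rw [h1]
        linarith
      have h13 := mul_le_mul_of_nonneg_left h12 hM0.le
      linarith
    rw [hIe, ← ENNReal.ofReal_mul (by positivity), ← ENNReal.ofReal_add (hpos z).le (by positivity)]
    exact ENNReal.ofReal_le_ofReal h8
  -- integrate
  have hker : Measurable fun q : ℂ × ℂ => ENNReal.ofReal ‖q.1 - q.2‖⁻¹ := by fun_prop
  have hint : ∫⁻ _z in Metric.ball (0 : ℂ) R, ENNReal.ofReal (M * (1 + 3 * s)) ≤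
      ENNReal.ofReal (∫ z in Metric.ball (0 : ℂ) R, w z) +
        ENNReal.ofReal (M * R) * (ENNReal.ofReal (3 * π * R) * ν univ) := by
    calc ∫⁻ _z in Metric.ball (0 : ℂ) R, ENNReal.ofReal (M * (1 + 3 * s)) ≤
        ∫⁻ z in Metric.ball (0 : ℂ) R, (ENNReal.ofReal (w z) +
          ENNReal.ofReal (M * R) * ∫⁻ a, ENNReal.ofReal ‖z - a‖⁻¹ ∂ν) :=
          lintegral_mono_ae (ae_restrict_of_ae hpt)
      _ = (∫⁻ z in Metric.ball (0 : ℂ) R, ENNReal.ofReal (w z)) +
          ENNReal.ofReal (M * R) * ∫⁻ z in Metric.ball (0 : ℂ) R,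
            ∫⁻ a, ENNReal.ofReal ‖z - a‖⁻¹ ∂ν := by
          rw [lintegral_add_right _ (hker.lintegral_prod_right.const_mul _),
            lintegral_const_mul _ hker.lintegral_prod_right]
      _ ≤ _ := by
          rw [lint_ball (fun z => (hpos z).le) hw]
          gcongr
          exact ker_swap hR
  rw [setLIntegral_const] at hint
  have hvol : volume (Metric.ball (0 : ℂ) R) = ENNReal.ofReal (π * R ^ 2) := by
    rw [← vol_ball (0 : ℂ) hR, ENNReal.ofReal_toReal measure_ball_lt_top.ne]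
  have hνu : ν univ = ENNReal.ofReal s := by
    rw [hs, ENNReal.ofReal_toReal (measure_ne_top _ _)]
  have hW0 : 0 ≤ ∫ z in Metric.ball (0 : ℂ) R, w z := integral_nonneg fun z => (hpos z).le
  rw [hvol, hνu, ← ENNReal.ofReal_mul (by positivity), ← ENNReal.ofReal_mul (by positivity),
    ← ENNReal.ofReal_mul (by positivity), ← ENNReal.ofReal_add hW0 (by positivity),
    ENNReal.ofReal_le_ofReal_iff (by positivity)] at hint
  have e1 : M * (1 + 3 * s) * (π * R ^ 2) = M * (π * R ^ 2) + M * R * (3 * π * R * s) := by ring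
  rw [e1] at hint
  linarith

/-- The mass of the measure. -/
theorem mass_bound {w : ℂ → ℝ} {K : ℝ} (hpos : ∀ z, 0 < w z)
    (hw : LocallyIntegrable w volume) (hwi : LocallyIntegrable (fun z => (w z)⁻¹) volume)
    (hA : ∀ (c : ℂ) (r : ℝ), 0 < r →
        ((∫ z in Metric.ball c r, w z) / (volume (Metric.ball c r)).toReal) *
        ((∫ z in Metric.ball c r, (w z)⁻¹) / (volume (Metric.ball c r)).toReal) ≤ K)
    {ν : Measure ℂ} [IsFiniteMeasure ν] (hν : Integrable (fun a => Real.log (1 + ‖a‖)) ν) {c : ℝ}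
    (hlog : ∀ᵐ z, Real.log (w z) = c + ∫ a, Real.log ‖z - a‖ ∂ν) :
    9 / (16 * K) ≤ 2 - (ν univ).toReal := by
  have hK := one_le_K hpos hw hwi hA
  have hθ0 : 0 < 9 / (16 * K) := by positivity
  have hθ1 : 9 / (16 * K) < 1 := by
    rw [div_lt_one (by linarith)]
    linarith
  set s := (ν univ).toReal with hs
  have hSpos : 0 < ∫ z in Metric.ball (0 : ℂ) 1, (w z)⁻¹ :=
    int_ball_pos (w := fun z => (w z)⁻¹) (fun z => inv_pos.mpr (hpos z)) hwi 0 one_pos
  have hA' : ∀ (c : ℂ) (r : ℝ), 0 < r →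
      ((∫ z in Metric.ball c r, (w z)⁻¹) / (volume (Metric.ball c r)).toReal) *
      ((∫ z in Metric.ball c r, ((w z)⁻¹)⁻¹) / (volume (Metric.ball c r)).toReal) ≤ K := by
    intro c r hr
    simp only [inv_inv]
    rw [mul_comm]
    exact hA c r hr
  have hw' : LocallyIntegrable (fun z => ((w z)⁻¹)⁻¹) volume := by
    simpa only [inv_inv] using hw
  refine theta_le (c := Real.exp (c - 3 * s) * ∫ z in Metric.ball (0 : ℂ) 1, (w z)⁻¹)
    (M := K * π) hθ0 hθ1 (by positivity) ?_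
  intro j
  have h2j : (0 : ℝ) < 2 ^ j := by positivity
  have h1 := shrink_pow (w := fun z => (w z)⁻¹) (fun z => inv_pos.mpr (hpos z)) hwi hw' hA' 0 h2j j
  rw [div_self h2j.ne'] at h1
  have h2 := A2_ball hA 0 h2j
  have h3 := pot_ball hpos hw hν hlog h2j
  have e0 : Real.exp (c + s * Real.log (2 ^ j) - 3 * s) =
      Real.exp (c - 3 * s) * ((2 : ℝ) ^ s) ^ j := by
    have e1 : ((2 : ℝ) ^ s) ^ j = Real.exp (s * Real.log (2 ^ j)) := by
      rw [Real.log_pow, ← Real.rpow_natCast, ← Real.rpow_mul (by norm_num),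
        Real.rpow_def_of_pos (by norm_num)]
      congr 1
      ring
    rw [e1, ← Real.exp_add]
    congr 1
    ring
  rw [e0] at h3
  have hWj : 0 < ∫ z in Metric.ball (0 : ℂ) (2 ^ j), w z := int_ball_pos hpos hw 0 h2j
  have e2 : ((2 : ℝ) ^ (-(2 - s))) ^ j * (π * ((2 : ℝ) ^ j) ^ 2) ^ 2 =
      ((2 : ℝ) ^ s) ^ j * (π * (2 ^ j) ^ 2) * π := by
    have e1 : (2 : ℝ) ^ (-(2 - s)) = 2 ^ s / 4 := by
      rw [show -(2 - s) = s - 2 by ring, Real.rpow_sub (by norm_num)]
      norm_num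
    rw [e1, div_pow]
    have e3 : (4 : ℝ) ^ j = (2 ^ j) ^ 2 := by
      rw [← pow_mul, mul_comm, pow_mul]
      norm_num
    rw [e3]
    field_simp
  have hX : 0 < (π * ((2 : ℝ) ^ j) ^ 2) ^ 2 := by positivity
  refine le_of_mul_le_mul_right ?_ hX
  calc (Real.exp (c - 3 * s) * ∫ z in Metric.ball (0 : ℂ) 1, (w z)⁻¹) *
        ((2 : ℝ) ^ (-(2 - s))) ^ j * (π * ((2 : ℝ) ^ j) ^ 2) ^ 2
      = (∫ z in Metric.ball (0 : ℂ) 1, (w z)⁻¹) *
          (Real.exp (c - 3 * s) * ((2 : ℝ) ^ s) ^ j * (π * (2 ^ j) ^ 2)) * π := by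
        rw [mul_assoc _ (((2 : ℝ) ^ (-(2 - s))) ^ j) _, e2]
        ring
    _ ≤ (∫ z in Metric.ball (0 : ℂ) 1, (w z)⁻¹) * (∫ z in Metric.ball (0 : ℂ) (2 ^ j), w z) * π :=
        mul_le_mul_of_nonneg_right (mul_le_mul_of_nonneg_left h3 hSpos.le) Real.pi_pos.le
    _ ≤ ((1 - 9 / (16 * K)) ^ j * ∫ z in Metric.ball (0 : ℂ) (2 ^ j), (w z)⁻¹) *
          (∫ z in Metric.ball (0 : ℂ) (2 ^ j), w z) * π :=
        mul_le_mul_of_nonneg_right (mul_le_mul_of_nonneg_right h1 hWj.le) Real.pi_pos.le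
    _ = (1 - 9 / (16 * K)) ^ j * π * ((∫ z in Metric.ball (0 : ℂ) (2 ^ j), w z) *
          ∫ z in Metric.ball (0 : ℂ) (2 ^ j), (w z)⁻¹) := by ring
    _ ≤ (1 - 9 / (16 * K)) ^ j * π * (K * (π * (2 ^ j) ^ 2) ^ 2) := by
        apply mul_le_mul_of_nonneg_left h2
        apply mul_nonneg _ Real.pi_pos.le
        apply pow_nonneg
        linarith
    _ = _ := by ring

end Pool.Agent.Lib.MP_f0c028_an
end

section

set_option autoImplicit false

/-! # Exponentials of logarithmic potentials of signed measures -/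

open Real

namespace Pool.Agent.Lib.MP_f0c028_an

open MeasureTheory Set Filter Topology ProbabilityTheory
open scoped ENNReal

/-- The probability measure on `ℂ × Bool` made of two measures on `ℂ`. -/
noncomputable def PP (ν₁ ν₂ : Measure ℂ) : Measure (ℂ × Bool) :=
  (ν₁ univ + ν₂ univ)⁻¹ • (ν₁.map (fun a => (a, true)) + ν₂.map (fun a => (a, false)))

section
variable {ν₁ ν₂ : Measure ℂ}

theorem mk_meas (b : Bool) : Measurable fun a : ℂ => (a, b) := by fun_prop

theorem PP_prob [IsFiniteMeasure ν₁] [IsFiniteMeasure ν₂] (h0 : ν₁ univ + ν₂ univ ≠ 0) : IsProbabilityMeasure (PP ν₁ ν₂) := by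
  refine ⟨?_⟩
  unfold PP
  rw [Measure.smul_apply, Measure.add_apply, Measure.map_apply (mk_meas _) MeasurableSet.univ,
    Measure.map_apply (mk_meas _) MeasurableSet.univ, preimage_univ, preimage_univ, smul_eq_mul]
  exact ENNReal.inv_mul_cancel h0 (ENNReal.add_ne_top.mpr ⟨measure_ne_top _ _, measure_ne_top _ _⟩)

theorem PP_int (h0 : ν₁ univ + ν₂ univ ≠ 0) {h : ℂ × Bool → ℝ} (hm : Measurable h)
    (h1 : Integrable (fun a => h (a, true)) ν₁) (h2 : Integrable (fun a => h (a, false)) ν₂) :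
    Integrable h (PP ν₁ ν₂) ∧ ∫ q, h q ∂(PP ν₁ ν₂) =
      ((ν₁ univ + ν₂ univ).toReal)⁻¹ * ((∫ a, h (a, true) ∂ν₁) + ∫ a, h (a, false) ∂ν₂) := by
  have e1 : Integrable h (ν₁.map (fun a => (a, true))) :=
    (integrable_map_measure hm.aestronglyMeasurable (mk_meas true).aemeasurable).mpr h1
  have e2 : Integrable h (ν₂.map (fun a => (a, false))) :=
    (integrable_map_measure hm.aestronglyMeasurable (mk_meas false).aemeasurable).mpr h2
  have hne : (ν₁ univ + ν₂ univ)⁻¹ ≠ ⊤ := ENNReal.inv_ne_top.mpr h0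
  constructor
  · exact (e1.add_measure e2).smul_measure hne
  · unfold PP
    rw [integral_smul_measure, integral_add_measure e1 e2,
      integral_map (mk_meas true).aemeasurable hm.aestronglyMeasurable,
      integral_map (mk_meas false).aemeasurable hm.aestronglyMeasurable, ENNReal.toReal_inv,
      smul_eq_mul]

end

/-- The weights whose geometric mean is taken. -/
noncomputable def gw (σ δ : ℝ) (q : ℂ × Bool) (z : ℂ) : ℝ :=
  if q.2 then pw q.1 σ z else (pw q.1 σ z + δ)⁻¹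

theorem pw_joint (σ : ℝ) : Measurable fun q : ℂ × ℂ => pw q.1 σ q.2 := by
  unfold pw
  refine Measurable.ite ?_ measurable_const ?_
  · exact measurableSet_eq_fun measurable_snd measurable_fst
  · fun_prop

theorem gw_meas (σ δ : ℝ) : Measurable fun q : (ℂ × Bool) × ℂ => gw σ δ q.1 q.2 := by
  have h1 : Measurable fun q : (ℂ × Bool) × ℂ => pw q.1.1 σ q.2 :=
    (pw_joint σ).comp ((measurable_fst.comp measurable_fst).prodMk measurable_snd)
  unfold gw
  refine Measurable.ite ?_ h1 ?_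
  · exact (measurable_snd.comp measurable_fst) (measurableSet_singleton true)
  · exact (h1.add_const δ).inv

variable {m : ℕ}

/-- the constant -/
noncomputable def NN (m : ℕ) (s : ℝ) : ℝ≥0∞ :=
  ENNReal.ofReal ((200000 * m * (162 / (2 - s))) ^ 2)

theorem NN_ne_zero (hm : 1 ≤ m) {s : ℝ} (hs : s < 2) : NN m s ≠ 0 := by
  unfold NN
  have hm' : (1 : ℝ) ≤ m := by exact_mod_cast hm
  have h1 : 0 < 2 - s := by linarith
  rw [ne_eq, ENNReal.ofReal_eq_zero, not_le]
  positivity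

theorem NN_ne_top (s : ℝ) : NN m s ≠ ⊤ := ENNReal.ofReal_ne_top

theorem gw_cls (hm : 1 ≤ m) {σ s δ : ℝ} (hσ0 : 0 ≤ σ) (hσ : σ ≤ s) (hs : s < 2) (hδ : 0 < δ)
    (q : ℂ × Bool) : Cls m (NN m s) (gw σ δ q) := by
  have h1 : Cls m (NN m s) (pw q.1 σ) := cls_pw hm q.1 (by rwa [abs_of_nonneg hσ0]) hs
  have h2 : Cls m (NN m s) (pw q.1 0) := cls_pw hm q.1 (by rw [abs_zero]; linarith) hs
  have h3 : Cls m (NN m s) (fun _ => δ) := by
    have := h2.smul hδ
    have e : (fun z => δ * pw q.1 0 z) = fun _ => δ := by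
      funext z
      unfold pw
      split_ifs <;> simp
    rwa [e] at this
  unfold gw
  by_cases hb : q.2 = true
  · have e : (fun z => if q.2 = true then pw q.1 σ z else (pw q.1 σ z + δ)⁻¹) = pw q.1 σ := by
      funext z
      rw [if_pos hb]
    rw [e]
    exact h1
  · have e : (fun z => if q.2 = true then pw q.1 σ z else (pw q.1 σ z + δ)⁻¹) =
        fun z => (pw q.1 σ z + δ)⁻¹ := by
      funext z
      rw [if_neg hb]
    rw [e]
    exact (h1.add h3).inv hm (NN_ne_zero hm hs) (NN_ne_top s)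

theorem gw_log_le {σ δ : ℝ} (hσ0 : 0 ≤ σ) (hσ : σ ≤ 2) (hδ : 0 < δ) (hδ1 : δ ≤ 1)
    (q : ℂ × Bool) (z : ℂ) : Real.log (gw σ δ q z) ≤
      (2 * Real.log (1 + ‖q.1‖) - Real.log δ) + (2 : ℕ) * Real.log (1 + ‖z‖) := by
  have ha : 0 ≤ Real.log (1 + ‖q.1‖) := Real.log_nonneg (by linarith [norm_nonneg q.1])
  have hz : 0 ≤ Real.log (1 + ‖z‖) := Real.log_nonneg (by linarith [norm_nonneg z])
  have hd : Real.log δ ≤ 0 := Real.log_nonpos hδ.le hδ1
  unfold gw
  push_cast
  split_ifs with hb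
  · rw [log_pw]
    rcases le_total (Real.log ‖z - q.1‖) 0 with h | h
    · have := mul_nonpos_of_nonneg_of_nonpos hσ0 h
      linarith
    · have h1 : σ * Real.log ‖z - q.1‖ ≤ 2 * Real.log ‖z - q.1‖ :=
        mul_le_mul_of_nonneg_right hσ h
      rcases (norm_nonneg (z - q.1)).eq_or_lt with h0 | h0
      · rw [← h0, Real.log_zero, mul_zero]
        linarith
      · have h2 : ‖z - q.1‖ ≤ (1 + ‖z‖) * (1 + ‖q.1‖) := by
          have := norm_sub_le z q.1
          nlinarith [norm_nonneg z, norm_nonneg q.1]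
        have h3 := Real.log_le_log h0 h2
        rw [Real.log_mul (by positivity) (by positivity)] at h3
        linarith
  · rw [Real.log_inv]
    have h1 : Real.log δ ≤ Real.log (pw q.1 σ z + δ) :=
      Real.log_le_log hδ (by have := pw_pos q.1 σ z; linarith)
    linarith

/-- The bound for exponentials of logarithmic potentials. -/
theorem pot_bound (hm : 1 ≤ m) {ν₁ ν₂ : Measure ℂ} [IsFiniteMeasure ν₁] [IsFiniteMeasure ν₂]
    (hν₁ : Integrable (fun a => Real.log (1 + ‖a‖)) ν₁)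
    (hν₂ : Integrable (fun a => Real.log (1 + ‖a‖)) ν₂) {s : ℝ}
    (hs : (ν₁ univ + ν₂ univ).toReal ≤ s) (hs2 : s < 2) (f : SchwartzMap ℂ ℂ) :
    ∫⁻ z, ‖gg f m z‖ₑ ^ 2 * ENNReal.ofReal
        (Real.exp ((∫ a, Real.log ‖z - a‖ ∂ν₁) - ∫ a, Real.log ‖z - a‖ ∂ν₂)) ≤
      NN m s * ∫⁻ z, ‖f z‖ₑ ^ 2 * ENNReal.ofReal
        (Real.exp ((∫ a, Real.log ‖z - a‖ ∂ν₁) - ∫ a, Real.log ‖z - a‖ ∂ν₂)) := by
  set σ := (ν₁ univ + ν₂ univ).toReal with hσ
  have hσ0 : 0 ≤ σ := ENNReal.toReal_nonneg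
  have hfin : ν₁ univ + ν₂ univ ≠ ⊤ :=
    ENNReal.add_ne_top.mpr ⟨measure_ne_top _ _, measure_ne_top _ _⟩
  by_cases h0 : ν₁ univ + ν₂ univ = 0
  · -- the zero measure
    have h01 : ν₁ = 0 := by
      rw [← Measure.measure_univ_eq_zero]
      exact (add_eq_zero.mp h0).1
    have h02 : ν₂ = 0 := by
      rw [← Measure.measure_univ_eq_zero]
      exact (add_eq_zero.mp h0).2
    have h1 : Cls m (NN m s) (pw 0 0) := cls_pw hm 0 (by rw [abs_zero]; linarith) hs2
    have h2 := h1.bd f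
    have e : ∀ z : ℂ, pw 0 0 z = 1 := by
      intro z
      unfold pw
      split_ifs <;> simp
    simp only [h01, h02, integral_zero_measure, sub_zero, Real.exp_zero]
    simp only [e] at h2
    exact h2
  · have hσpos : 0 < σ := ENNReal.toReal_pos h0 hfin
    have hP : IsProbabilityMeasure (PP ν₁ ν₂) := PP_prob h0
    set δ : ℕ → ℝ := fun n => 1 / ((n : ℝ) + 1) with hδ
    have hδ0 : ∀ n, 0 < δ n := fun n => by rw [hδ]; positivity
    have hδ1 : ∀ n, δ n ≤ 1 := fun n => by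
      rw [hδ]
      simp only
      rw [div_le_one (by positivity)]
      have : (0 : ℝ) ≤ n := Nat.cast_nonneg n
      linarith
    have hδlim : Tendsto δ atTop (𝓝 0) := tendsto_one_div_add_atTop_nhds_zero_nat
    have hlogm : ∀ n, Measurable fun p : ℂ × (ℂ × Bool) => Real.log (gw σ (δ n) p.2 p.1) :=
      fun n => Real.measurable_log.comp ((gw_meas σ (δ n)).comp measurable_swap)
    -- integrability at almost every point
    have hpt : ∀ᵐ z : ℂ, ∀ n, Integrable (fun q => Real.log (gw σ (δ n) q z)) (PP ν₁ ν₂) ∧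
        ∫ q, Real.log (gw σ (δ n) q z) ∂(PP ν₁ ν₂) = (∫ a, Real.log ‖z - a‖ ∂ν₁) -
          σ⁻¹ * ∫ a, Real.log (pw a σ z + δ n) ∂ν₂ := by
      filter_upwards [logint_ae hν₁, logint_ae hν₂] with z h1 h2 n
      have hmz : Measurable fun q : ℂ × Bool => Real.log (gw σ (δ n) q z) :=
        (hlogm n).comp measurable_prodMk_left
      have i1 : Integrable (fun a => Real.log (gw σ (δ n) (a, true) z)) ν₁ := by
        refine (h1.const_mul σ).congr ?_
        filter_upwards with a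
        simp only [gw, if_true]
        rw [log_pw]
      have hm2 : Measurable fun a : ℂ => Real.log (gw σ (δ n) (a, false) z) :=
        hmz.comp (mk_meas false)
      have i2 : Integrable (fun a => Real.log (gw σ (δ n) (a, false) z)) ν₂ := by
        refine Integrable.mono' ((integrable_const (1 : ℝ)).add ((h2.const_mul σ).abs))
          hm2.aestronglyMeasurable ?_
        filter_upwards with a
        simp only [gw, Bool.false_eq_true, if_false]
        rw [Real.log_inv, norm_neg, Real.norm_eq_abs, Pi.add_apply]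
        rw [← log_pw]
        exact abs_log_add_le (pw_pos a σ z) (hδ0 n).le (hδ1 n)
      obtain ⟨j1, j2⟩ := PP_int h0 hmz i1 i2
      refine ⟨j1, ?_⟩
      rw [j2]
      have e1 : ∫ a, Real.log (gw σ (δ n) (a, true) z) ∂ν₁ = σ * ∫ a, Real.log ‖z - a‖ ∂ν₁ := by
        rw [← integral_const_mul]
        refine integral_congr_ae ?_
        filter_upwards with a
        simp only [gw, if_true]
        rw [log_pw]
      have e2 : ∫ a, Real.log (gw σ (δ n) (a, false) z) ∂ν₂ =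
          -∫ a, Real.log (pw a σ z + δ n) ∂ν₂ := by
        rw [← integral_neg]
        refine integral_congr_ae ?_
        filter_upwards with a
        simp only [gw, Bool.false_eq_true, if_false]
        rw [Real.log_inv]
      rw [e1, e2, ← hσ]
      field_simp
      ring
    refine lim_mono' (u := fun n z => Real.exp (∫ q, Real.log (gw σ (δ n) q z) ∂(PP ν₁ ν₂)))
      (fun n => ?_) f (fun n => ?_) (fun n => ?_) ?_
    · exact Real.measurable_exp.comp (hlogm n).stronglyMeasurable.integral_prod_right.measurable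
    · have hA1 : Measurable fun q : ℂ × Bool => 2 * Real.log (1 + ‖q.1‖) - Real.log (δ n) := by
        have : Measurable fun q : ℂ × Bool => Real.log (1 + ‖q.1‖) :=
          Real.measurable_log.comp (by fun_prop)
        exact (this.const_mul 2).sub_const _
      have hA2 : Integrable (fun q : ℂ × Bool => 2 * Real.log (1 + ‖q.1‖) - Real.log (δ n))
          (PP ν₁ ν₂) :=
        (PP_int h0 hA1 ((hν₁.const_mul 2).sub (integrable_const _))
          ((hν₂.const_mul 2).sub (integrable_const _))).1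
      refine gm_main (P := PP ν₁ ν₂) hm (NN_ne_zero hm hs2) (NN_ne_top s) (gw_meas σ (δ n))
        (fun q => gw_cls hm hσ0 hs hs2 (hδ0 n) q) hA1 hA2 (j := 2)
        (fun q z => gw_log_le hσ0 (by linarith) (hδ0 n) (hδ1 n) q z) ?_ f
      filter_upwards [hpt] with z hz
      exact (hz n).1
    · filter_upwards [hpt, logint_ae hν₂] with z hz h2
      rw [(hz n).2, Real.exp_le_exp]
      have hmz : Measurable fun a : ℂ => Real.log (pw a σ z + δ n) :=
        Real.measurable_log.comp (((pw_joint σ).comp (measurable_id.prodMk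
          measurable_const)).add_const _)
      have i2 : Integrable (fun a => Real.log (pw a σ z + δ n)) ν₂ := by
        refine Integrable.mono' ((integrable_const (1 : ℝ)).add ((h2.const_mul σ).abs))
          hmz.aestronglyMeasurable ?_
        filter_upwards with a
        rw [Real.norm_eq_abs, Pi.add_apply]
        rw [← log_pw]
        exact abs_log_add_le (pw_pos a σ z) (hδ0 n).le (hδ1 n)
      have h3 : σ * ∫ a, Real.log ‖z - a‖ ∂ν₂ ≤ ∫ a, Real.log (pw a σ z + δ n) ∂ν₂ := by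
        rw [← integral_const_mul]
        refine integral_mono_ae (h2.const_mul σ) i2 ?_
        filter_upwards with a
        rw [← log_pw]
        exact Real.log_le_log (pw_pos a σ z) (by have := hδ0 n; linarith)
      have h4 : ∫ a, Real.log ‖z - a‖ ∂ν₂ ≤ σ⁻¹ * ∫ a, Real.log (pw a σ z + δ n) ∂ν₂ := by
        rw [inv_mul_eq_div, le_div_iff₀ hσpos, mul_comm]
        exact h3
      linarith
    · filter_upwards [hpt, logint_ae hν₂] with z hz h2
      have hmz : ∀ n, Measurable fun a : ℂ => Real.log (pw a σ z + δ n) := fun n =>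
        Real.measurable_log.comp (((pw_joint σ).comp (measurable_id.prodMk
          measurable_const)).add_const _)
      have h3 : Tendsto (fun n => ∫ a, Real.log (pw a σ z + δ n) ∂ν₂) atTop
          (𝓝 (∫ a, σ * Real.log ‖z - a‖ ∂ν₂)) := by
        refine tendsto_integral_of_dominated_convergence
          (fun a => 1 + |σ * Real.log ‖z - a‖|) (fun n => (hmz n).aestronglyMeasurable)
          ((integrable_const (1 : ℝ)).add ((h2.const_mul σ).abs)) (fun n => ?_) ?_
        · filter_upwards with a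
          rw [Real.norm_eq_abs, ← log_pw]
          exact abs_log_add_le (pw_pos a σ z) (hδ0 n).le (hδ1 n)
        · filter_upwards with a
          rw [← log_pw]
          have h5 : Tendsto (fun n => pw a σ z + δ n) atTop (𝓝 (pw a σ z + 0)) :=
            hδlim.const_add _
          rw [add_zero] at h5
          exact (Real.continuousAt_log (pw_pos a σ z).ne').tendsto.comp h5
      rw [integral_const_mul] at h3
      have h4 : Tendsto (fun n => (∫ a, Real.log ‖z - a‖ ∂ν₁) -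
          σ⁻¹ * ∫ a, Real.log (pw a σ z + δ n) ∂ν₂) atTop
          (𝓝 ((∫ a, Real.log ‖z - a‖ ∂ν₁) - σ⁻¹ * (σ * ∫ a, Real.log ‖z - a‖ ∂ν₂))) :=
        (h3.const_mul σ⁻¹).const_sub _
      rw [inv_mul_cancel_left₀ hσpos.ne'] at h4
      refine (Real.continuous_exp.tendsto _).comp (h4.congr fun n => ?_)
      exact ((hz n).2).symm

end Pool.Agent.Lib.MP_f0c028_an
end
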